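import Mathlib

set_option autoImplicit false

/-!
Analytic tools for the abstract Dirichlet argument: continuation of an L-series from a bound on
the initial sums, Landau's lemma on a half plane, and logarithms of Euler products.
-/

namespace Pool.Agent.MP_c481b3_nt.H28

open Filter Topology Complex Finset MeasureTheory Asymptotics
open scoped ComplexOrder

theorem exists_cont (f : ℕ → ℂ) (C : ℝ) (h : ∀ N : ℕ, ‖∑ n ∈ Icc 1 N, f n‖ ≤ C * √(N : ℝ)) :
    ∃ F : ℂ → ℂ, DifferentiableOn ℂ F {s | 1 / 2 < s.re} ∧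
      (∀ s : ℂ, 1 / 2 < s.re → LSeriesSummable f s → LSeries f s = F s) ∧
      ∀ x : ℝ, 1 / 2 < x → (x - 1 / 2) * ‖F x‖ ≤ C * x := by
  set S : ℝ → ℂ := fun t => ∑ k ∈ Icc 1 ⌊t⌋₊, f k with hS
  have C0 : 0 ≤ C := by simpa using (norm_nonneg _).trans (h 1)
  have hb : ∀ t : ℝ, 0 ≤ t → ‖S t‖ ≤ C * t ^ (1 / 2 : ℝ) := fun t ht => by
    refine (h _).trans (mul_le_mul_of_nonneg_left ?_ C0)
    rw [← Real.sqrt_eq_rpow]
    exact Real.sqrt_le_sqrt (Nat.floor_le ht)
  have hz : ∀ t : ℝ, t < 1 → S t = 0 := fun t ht => by simp [hS, Nat.floor_eq_zero.2 ht]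
  have hm : ∀ s : ℂ, mellin S (-s) = ∫ t in Set.Ioi (1 : ℝ), S t * t ^ (-(s + 1)) := fun s => by
    rw [mellin, ← integral_Ici_eq_integral_Ioi (x := (1 : ℝ)),
      setIntegral_eq_of_subset_of_forall_sdiff_eq_zero measurableSet_Ioi
        (Set.Ici_subset_Ioi.2 one_pos) fun t ht => by
          simp [hz t (by simpa using ht.2)]]
    refine setIntegral_congr_fun measurableSet_Ici fun t _ => ?_
    simp only [smul_eq_mul]
    rw [mul_comm, neg_add']
  refine ⟨fun s => s * mellin S (-s), fun s hs => ?_, fun s hs hf => ?_, fun x hx => ?_⟩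
  · refine (differentiableAt_id.mul (DifferentiableAt.comp s (g := mellin S) ?_
      differentiableAt_id.neg)).differentiableWithinAt
    refine mellin_differentiableAt_of_isBigO_rpow (a := -(1 / 2)) (b := -s.re - 1) ?_ ?_
      (by simpa using hs) ?_ (by simp)
    · simpa using (locallyIntegrableOn_mul_sum_Icc f (m := 1) le_rfl
        (locallyIntegrableOn_const 1)).mono_set Set.Ioi_subset_Ici_self
    · refine IsBigO.of_bound C ?_
      filter_upwards [eventually_ge_atTop 0] with t ht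
      rw [neg_neg, Real.norm_of_nonneg (by positivity)]
      exact hb t ht
    · refine IsBigO.of_bound 0 ?_
      filter_upwards [mem_nhdsWithin_of_mem_nhds (Iio_mem_nhds one_pos)] with t ht
      simp [hz t ht]
  · simp only [hm]
    refine LSeries_eq_mul_integral f (r := 1 / 2) (by norm_num) hs hf (IsBigO.of_bound C ?_)
    filter_upwards with n
    rw [Real.norm_of_nonneg (by positivity), ← Real.sqrt_eq_rpow]
    exact h n
  · have h1 : -(x + 1 / 2) < -1 := by linarith
    have h2 : ‖∫ t in Set.Ioi (1 : ℝ), S t * t ^ (-((x : ℂ) + 1))‖ ≤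
        ∫ t in Set.Ioi (1 : ℝ), C * t ^ (-(x + 1 / 2)) := by
      refine norm_integral_le_of_norm_le ((integrableOn_Ioi_rpow_of_lt h1 one_pos).const_mul C) ?_
      filter_upwards [ae_restrict_mem measurableSet_Ioi] with t ht
      have t0 : 0 < t := one_pos.trans ht
      rw [norm_mul, norm_cpow_eq_rpow_re_of_pos t0,
        show -(x + 1 / 2) = 1 / 2 + (-((x : ℂ) + 1)).re by simp; ring, Real.rpow_add t0,
        ← mul_assoc]
      exact mul_le_mul_of_nonneg_right (hb t t0.le) (by positivity)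
    rw [integral_const_mul, integral_Ioi_rpow_of_lt h1 one_pos, Real.one_rpow] at h2
    simp only [hm]
    rw [norm_mul, Complex.norm_real, Real.norm_of_nonneg (by linarith)]
    have h3 : 0 < x - 1 / 2 := by linarith
    have h4 : C * (-1 / (-(x + 1 / 2) + 1)) * (x - 1 / 2) = C := by
      rw [show -(x + 1 / 2) + 1 = -(x - 1 / 2) by ring, neg_div_neg_eq, mul_assoc,
        one_div_mul_cancel h3.ne', mul_one]
    nlinarith [mul_le_mul_of_nonneg_right h2 (show 0 ≤ x * (x - 1 / 2) by nlinarith)]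

theorem landau {a : ℕ → ℂ} (h0 : 0 ≤ a) (hs : ∀ s : ℂ, 1 < s.re → LSeriesSummable a s)
    {F : ℂ → ℂ} (hF : DifferentiableOn ℂ F {s | 1 / 2 < s.re})
    (he : ∀ s : ℂ, 1 < s.re → F s = LSeries a s) {x : ℝ} (h1 : 1 / 2 < x) (h2 : x ≤ 2) :
    0 ≤ F x := by
  have ha : LSeries.abscissaOfAbsConv a < (2 : ℝ) :=
    (LSeries.abscissaOfAbsConv_le_of_forall_lt_LSeriesSummable
      (x := 1) fun y hy => hs y (by simpa using hy)).trans_lt (by exact_mod_cast one_lt_two)
  have := DifferentiableOn.nonneg_of_iteratedDeriv_nonneg (f := fun z => F (-z)) (c := -2)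
    (r := 3 / 2) (hF.comp differentiableOn_id.neg fun z hz => by
      have := (abs_re_le_norm _).trans_lt (mem_ball_iff_norm.1 hz)
      simp only [sub_neg_eq_add, add_re, re_ofNat, abs_lt] at this
      simp only [Set.mem_ofPred_eq, neg_re]
      linarith) (fun n => by
      have hs : IsOpen {s : ℂ | 1 < s.re} := continuous_re.isOpen_preimage _ isOpen_Ioi
      rw [iteratedDeriv_comp_neg, neg_neg, smul_eq_mul,
        Set.EqOn.iteratedDeriv_of_isOpen (s := {s : ℂ | 1 < s.re}) (fun s hs => he s hs) hs n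
          (show 1 < (2 : ℂ).re by simp)]
      exact_mod_cast LSeries.iteratedDeriv_alternating h0 ha n) (z := -x)
    (by exact_mod_cast neg_le_neg h2) (by
      rw [mem_ball_iff_norm, show -(x : ℂ) - -2 = (2 - x : ℝ) by push_cast; ring, Complex.norm_real,
        Real.norm_of_nonneg (by linarith)]
      linarith)
  simpa using this

/-- The completely multiplicative function with given values at the primes. -/
noncomputable def cm (z : ℕ → ℂ) : ℕ →*₀ ℂ where
  toFun n := if n = 0 then 0 else (n.primeFactorsList.map z).prod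
  map_zero' := by simp
  map_one' := by simp
  map_mul' a b := by
    rcases eq_or_ne a 0 with rfl | ha
    · simp
    rcases eq_or_ne b 0 with rfl | hb
    · simp
    simp only [ha, hb, mul_eq_zero, or_self, if_false]
    rw [((Nat.perm_primeFactorsList_mul ha hb).map z).prod_eq, List.map_append, List.prod_append]

theorem cm_prime (z : ℕ → ℂ) {p : ℕ} (hp : p.Prime) : cm z p = z p := by
  simp [cm, hp.ne_zero, Nat.primeFactorsList_prime hp]

theorem norm_le_one {u : ℕ →*₀ ℂ} (h : ∀ p, p.Prime → ‖u p‖ ≤ 1) (n : ℕ) : ‖u n‖ ≤ 1 := by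
  induction n using Nat.recOnMul with
  | zero => simp
  | one => simp
  | prime p hp => exact h p hp
  | mul a b ha hb => rw [map_mul, norm_mul]; exact mul_le_one₀ ha (norm_nonneg _) hb

theorem summable_u {u : ℕ →*₀ ℂ} (h : ∀ p, p.Prime → ‖u p‖ ≤ 1) {s : ℂ} (hs : 1 < s.re) :
    LSeriesSummable u s :=
  LSeriesSummable_of_bounded_of_one_lt_re (m := 1) (fun n _ => norm_le_one h n) hs

theorem summable_primes {c : ℕ → ℝ} {B : ℝ} (h : ∀ p, p.Prime → |c p| ≤ B) {x : ℝ} (hx : 1 < x) :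
    Summable fun p : Nat.Primes => c p * (p : ℝ) ^ (-x) := by
  refine ((Nat.Primes.summable_rpow.2 (neg_lt_neg hx)).mul_left B).of_norm_bounded fun p => ?_
  rw [norm_mul, Real.norm_of_nonneg (r := (p : ℝ) ^ (-x)) (by positivity)]
  exact mul_le_mul_of_nonneg_right (h p p.2) (by positivity)

theorem log_euler : ∃ K : ℝ, ∀ u : ℕ →*₀ ℂ, (∀ p, p.Prime → ‖u p‖ ≤ 1) → ∀ x : ℝ, 1 < x →
    ∃ E : ℝ, |E| ≤ K ∧
      ‖LSeries u x‖ = Real.exp (∑' p : Nat.Primes, (u p).re * (p : ℝ) ^ (-x) + E) := by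
  refine ⟨∑' p : Nat.Primes, (p : ℝ) ^ (-2 : ℝ), fun u h x hx => ?_⟩
  have x0 : (x : ℂ) ≠ 0 := by exact_mod_cast (by linarith : x ≠ 0)
  let f : ℕ →*₀ ℂ := u * riemannZetaSummandHom x0
  have hf : ∀ n, f n = u n * (n : ℂ) ^ (-(x : ℂ)) := fun n => rfl
  have ht : ∀ n, LSeries.term u x n = f n := fun n => by
    rw [LSeries.term_def₀ (map_zero u), hf]
  have hs : Summable fun n => ‖f n‖ := by
    simpa only [← ht] using (summable_u h (s := x) (by simpa using hx)).norm
  have hp : ∀ p : Nat.Primes, ‖f p‖ ≤ (p : ℝ) ^ (-1 : ℝ) := fun p => by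
    have p1 : (1 : ℝ) ≤ p := by exact_mod_cast p.2.one_le
    rw [hf, norm_mul, norm_natCast_cpow_of_pos p.2.pos]
    exact (mul_le_of_le_one_left (by positivity) (h p p.2)).trans
      (Real.rpow_le_rpow_of_exponent_le p1 (by simp; linarith))
  have hq : ∀ p : Nat.Primes, ‖-log (1 - f p) - f p‖ ≤ (p : ℝ) ^ (-2 : ℝ) := fun p => by
    have p2 : (2 : ℝ) ≤ p := by exact_mod_cast p.2.two_le
    have h1 := hp p
    have h2 : ‖f p‖ ≤ 1 / 2 := h1.trans (by
      rw [Real.rpow_neg_one, one_div]; exact inv_anti₀ two_pos p2)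
    have h3 := norm_log_one_add_sub_self_le (z := -f p) (by rw [norm_neg]; linarith)
    rw [norm_neg, ← sub_eq_add_neg, ← norm_neg] at h3
    have h4 : (1 - ‖f p‖)⁻¹ ≤ 2 := inv_le_of_inv_le₀ two_pos (by linarith)
    have h5 : ‖f p‖ ^ 2 ≤ (p : ℝ) ^ (-2 : ℝ) := by
      rw [show (-2 : ℝ) = -1 * (2 : ℕ) by norm_num, Real.rpow_mul_natCast (by positivity)]
      exact pow_le_pow_left₀ (norm_nonneg _) h1 2
    rw [show -log (1 - f p) - f p = -(log (1 - f p) - -f p) by ring]
    nlinarith [mul_le_mul_of_nonneg_left h4 (sq_nonneg ‖f p‖)]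
  have s2 : Summable fun p : Nat.Primes => (p : ℝ) ^ (-2 : ℝ) :=
    Nat.Primes.summable_rpow.2 (by norm_num)
  have s3 : Summable fun p : Nat.Primes => -log (1 - f p) - f p := s2.of_norm_bounded hq
  have s4 : Summable fun p : Nat.Primes => f p := hs.of_norm.subtype Nat.Prime
  refine ⟨(∑' p : Nat.Primes, (-log (1 - f p) - f p)).re,
    (abs_re_le_norm _).trans (tsum_of_norm_bounded s2.hasSum hq), ?_⟩
  rw [LSeries, tsum_congr ht, ← EulerProduct.exp_tsum_primes_log_eq_tsum hs, norm_exp]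
  congr 1
  have e : ∑' p : Nat.Primes, -log (1 - f p) =
      ∑' p : Nat.Primes, f p + ∑' p : Nat.Primes, (-log (1 - f p) - f p) := by
    rw [← s4.tsum_add s3]; simp
  rw [e, add_re, re_tsum s4]
  congr 1
  refine tsum_congr fun p => ?_
  rw [hf, ← ofReal_natCast, ← ofReal_neg, ← ofReal_cpow (by positivity), re_mul_ofReal]

end Pool.Agent.MP_c481b3_nt.H28
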