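import Mathlib
import Pool.Agent.MP_c481b3_nt.H28.AbsDirA

set_option autoImplicit false

/-!
Nonvanishing at `1` for real characters in the abstract Dirichlet argument.
-/

namespace Pool.Agent.MP_c481b3_nt.H28

open Filter Topology Complex Finset DirichletCharacter
open scoped ComplexOrder

/-- A completely multiplicative function as an arithmetic function. -/
def af (u : ℕ →*₀ ℂ) : ArithmeticFunction ℂ := ⟨u, map_zero u⟩

/-- The complete symmetric polynomial in two variables. -/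
def gs (a b : ℂ) (k : ℕ) : ℂ := ∑ i ∈ range (k + 1), a ^ i * b ^ (k - i)

theorem af_mul (u w : ℕ →*₀ ℂ) : (af u * af w).IsMultiplicative :=
  ArithmeticFunction.IsMultiplicative.mul ⟨map_one u, fun _ => map_mul u _ _⟩
    ⟨map_one w, fun _ => map_mul w _ _⟩

theorem af_pow (u w : ℕ →*₀ ℂ) {p : ℕ} (hp : p.Prime) (k : ℕ) :
    (af u * af w) (p ^ k) = gs (u p) (w p) k := by
  rw [ArithmeticFunction.mul_apply, Nat.sum_divisorsAntidiagonal fun a b => af u a * af w b,
    Nat.sum_divisors_prime_pow hp]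
  refine sum_congr rfl fun i hi => ?_
  rw [Nat.pow_div (Nat.lt_succ_iff.1 (mem_range.1 hi)) hp.pos]
  exact congrArg₂ _ (map_pow u _ _) (map_pow w _ _)

theorem gs_comm (a b : ℂ) (k : ℕ) : gs a b k = gs b a k := by
  rw [gs, ← sum_range_reflect]
  refine sum_congr rfl fun i hi => ?_
  have := mem_range.1 hi
  rw [mul_comm, show k + 1 - 1 - i = k - i by omega, show k - (k - i) = i by omega]

theorem gs_neg (k : ℕ) : gs (-1) 1 k = if Even k then 1 else 0 := by
  simp only [gs, one_pow, mul_one, neg_one_geom_sum, Nat.even_add_one]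
  split_ifs <;> rfl

theorem gs_zero {k : ℕ} (hk : k ≠ 0) : gs 0 0 k = 0 :=
  sum_eq_zero fun i hi => by rw [← pow_add, Nat.add_sub_cancel' (Nat.lt_succ_iff.1
    (mem_range.1 hi)), zero_pow hk]

theorem af_summable {u w : ℕ →*₀ ℂ} (hu : ∀ p, p.Prime → ‖u p‖ ≤ 1)
    (hw : ∀ p, p.Prime → ‖w p‖ ≤ 1) {s : ℂ} (hs : 1 < s.re) :
    LSeriesSummable ⇑(af u * af w) s ∧ LSeries ⇑(af u * af w) s = LSeries u s * LSeries w s :=
  ⟨ArithmeticFunction.LSeriesSummable_mul (summable_u hu hs) (summable_u hw hs),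
    ArithmeticFunction.LSeries_mul' (summable_u hu hs) (summable_u hw hs)⟩

/-- The values of `t` placed at the squares. -/
def sqf (t : ℕ → ℂ) (n : ℕ) : ℂ := if IsSquare n then t n.sqrt else 0

theorem sqf_hasSum {t : ℕ → ℂ} {s a : ℂ} (h : LSeriesHasSum t (2 * s) a) :
    LSeriesHasSum (sqf t) s a := by
  refine (Function.Injective.hasSum_iff (g := fun k : ℕ => k * k)
    (fun a b h => Nat.mul_self_inj.1 h) fun n hn => ?_).1 ?_
  · have : ¬IsSquare n := fun ⟨k, hk⟩ => hn ⟨k, hk.symm⟩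
    simp [LSeries.term, sqf, this]
  · convert (show HasSum _ _ from h) using 1
    funext k
    rcases eq_or_ne k 0 with rfl | hk
    · simp
    · simp only [Function.comp]
      rw [LSeries.term_of_ne_zero hk, LSeries.term_of_ne_zero (mul_ne_zero hk hk), sqf,
        if_pos (IsSquare.mul_self k), Nat.sqrt_eq, Nat.cast_mul, natCast_mul_natCast_cpow, two_mul,
        cpow_add _ _ (by exact_mod_cast hk)]

theorem nonneg_u {t : ℕ →*₀ ℂ} (h : ∀ p, p.Prime → 0 ≤ t p) (n : ℕ) : 0 ≤ t n := by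
  induction n using Nat.recOnMul with
  | zero => simp
  | one => simp
  | prime p hp => exact h p hp
  | mul a b ha hb => rw [map_mul]; exact mul_nonneg ha hb

theorem sqf_le {t u w : ℕ →*₀ ℂ} (h : ∀ p, p.Prime → (t p = 1 ∧ (u p = 1 ∧ w p = 1 ∨
    u p = 1 ∧ w p = -1 ∨ u p = -1 ∧ w p = 1)) ∨ (t p = 0 ∧ u p = 0 ∧ w p = 0)) (n : ℕ) :
    0 ≤ sqf t n ∧ sqf t n ≤ (af u * af w) n := by
  have t0 := nonneg_u (t := t) fun p hp => by rcases h p hp with g | g <;> simp [g.1]
  have hm := af_mul u w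
  have a0 : ∀ p k : ℕ, p.Prime → 0 ≤ (af u * af w) (p ^ k) ∧
      (Even k → t p ≤ (af u * af w) (p ^ k)) := fun p k hp => by
      rw [af_pow u w hp]
      rcases h p hp with ⟨g, ⟨g1, g2⟩ | ⟨g1, g2⟩ | ⟨g1, g2⟩⟩ | ⟨g, g1, g2⟩ <;> rw [g, g1, g2]
      · have : (1 : ℂ) ≤ gs 1 1 k := by simp [gs]
        exact ⟨zero_le_one.trans this, fun _ => this⟩
      · rw [gs_comm, gs_neg]; split_ifs with c <;> simp [c]
      · rw [gs_neg]; split_ifs with c <;> simp [c]
      · have : 0 ≤ gs 0 0 k := sum_nonneg fun i _ => by positivity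
        exact ⟨this, fun _ => this⟩
  have a1 : ∀ n, 0 ≤ (af u * af w) n := fun n => by
    induction n using Nat.recOnPosPrimePosCoprime with
    | zero => simp
    | one => simp [hm.1]
    | prime_pow p k hp _ => exact (a0 p k hp).1
    | coprime a b _ _ c ha hb => rw [hm.2 c]; exact mul_nonneg ha hb
  have a2 : ∀ n, t n ≤ (af u * af w) (n * n) := fun n => by
    induction n using Nat.recOnPosPrimePosCoprime with
    | zero => simp
    | one => simp [hm.1]
    | prime_pow p k hp hk =>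
      rw [← pow_add, map_pow]
      refine le_trans ?_ ((a0 p _ hp).2 ⟨k, rfl⟩)
      rcases h p hp with g | g <;> simp [g.1, hk.ne']
    | coprime a b _ _ c ha hb =>
      rw [mul_mul_mul_comm, hm.2 (Nat.Coprime.mul_left (c.mul_right c) (c.mul_right c)), map_mul]
      exact mul_le_mul ha hb (t0 _) (a1 _)
  unfold sqf
  split_ifs with c
  · obtain ⟨k, rfl⟩ := c
    rw [Nat.sqrt_eq]
    exact ⟨t0 _, a2 _⟩
  · exact ⟨le_rfl, a1 _⟩

variable {m : ℕ} [NeZero m]

theorem cm_char (ψ : DirichletCharacter ℂ m) {s : ℂ} (hs : 1 < s.re) :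
    LSeries (cm fun p => ψ p) s = LFunction ψ s := by
  rw [LFunction_eq_LSeries ψ hs]
  refine LSeries_congr (fun {n} hn => ?_) s
  induction n using Nat.recOnMul with
  | zero => exact absurd rfl hn
  | one => simp
  | prime p hp => exact cm_prime _ hp
  | mul a b ha hb =>
    rw [map_mul, ha (left_ne_zero_of_mul hn), hb (right_ne_zero_of_mul hn), Nat.cast_mul, map_mul]

theorem real_case (χ : DirichletCharacter ℂ m) (hχ : χ ≠ 1) {u w : ℕ →*₀ ℂ}
    (h : ∀ p : ℕ, p.Prime → ((1 : DirichletCharacter ℂ m) p = 1 ∧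
      (χ p = 1 ∧ u p = 1 ∧ w p = 1 ∨ χ p = 1 ∧ u p = -1 ∧ w p = -1 ∨
        χ p = -1 ∧ u p = 1 ∧ w p = -1)) ∨
      ((1 : DirichletCharacter ℂ m) p = 0 ∧ χ p = 0 ∧ u p = 0 ∧ w p = 0))
    {F : ℂ → ℂ} {C : ℝ} (hF : DifferentiableOn ℂ F {s | 1 / 2 < s.re})
    (he : ∀ s : ℂ, 1 < s.re → F s = LSeries u s * LSeries w s)
    (hb : ∀ x : ℝ, 1 / 2 < x → (x - 1 / 2) * ‖F x‖ ≤ C * x) : F 1 ≠ 0 := by
  intro h0
  set t := cm fun p => (1 : DirichletCharacter ℂ m) p with ht
  set c := cm fun p => χ p with hc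
  have nt : ∀ p, p.Prime → ‖t p‖ ≤ 1 := fun p hp => by
    rw [ht, cm_prime _ hp]; exact DirichletCharacter.norm_le_one _ _
  have nc : ∀ p, p.Prime → ‖c p‖ ≤ 1 := fun p hp => by
    rw [hc, cm_prime _ hp]; exact DirichletCharacter.norm_le_one _ _
  have nu : ∀ p, p.Prime → ‖u p‖ ≤ 1 := fun p hp => by
    rcases h p hp with ⟨-, g | g | g⟩ | ⟨-, g⟩ <;> simp [g.2.1]
  have nw : ∀ p, p.Prime → ‖w p‖ ≤ 1 := fun p hp => by
    rcases h p hp with ⟨-, g | g | g⟩ | ⟨-, g⟩ <;> simp [g.2.2]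
  have l1 := sqf_le (t := t) (u := t) (w := w) fun p hp => by
    rw [ht, cm_prime _ hp]
    rcases h p hp with ⟨g, g' | g' | g'⟩ | ⟨g, g'⟩ <;> simp [g, g'.2.2]
  have l2 := sqf_le (t := t) (u := c) (w := u) fun p hp => by
    rw [ht, hc, cm_prime _ hp, cm_prime _ hp]
    rcases h p hp with ⟨g, g' | g' | g'⟩ | ⟨g, g'⟩ <;> simp [g, g'.1, g'.2.1]
  have s1 : ∀ s : ℂ, 1 < s.re → LSeriesHasSum (sqf t) s (LFunctionTrivChar m (2 * s)) :=
    fun s hs => by
      have h2 : 1 < (2 * s).re := by simp; linarith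
      rw [LFunctionTrivChar, ← cm_char 1 h2]
      exact sqf_hasSum (summable_u nt h2).LSeriesHasSum
  have s2 : ∀ s : ℂ, 1 < s.re → LSeriesHasSum (LSeries.convolution ⇑(af t * af w) ⇑(af c * af u) -
      LSeries.convolution (sqf t) (sqf t)) s
      (LSeries t s * LSeries w s * (LSeries c s * LSeries u s) - LFunctionTrivChar m (2 * s) *
        LFunctionTrivChar m (2 * s)) := fun s hs => by
    rw [← (af_summable nt nw hs).2, ← (af_summable nc nu hs).2]
    exact ((af_summable nt nw hs).1.LSeriesHasSum.convolution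
      (af_summable nc nu hs).1.LSeriesHasSum).sub ((s1 s hs).convolution (s1 s hs))
  have o : {s : ℂ | 1 / 2 < s.re} ∈ 𝓝 (1 : ℂ) :=
    (continuous_re.isOpen_preimage _ isOpen_Ioi).mem_nhds (by norm_num)
  have e1 : ∀ s : ℂ, s ≠ 1 → LFunctionTrivChar₁ m s * LFunction χ s * dslope F 1 s =
      LFunctionTrivChar m s * LFunction χ s * F s := fun s hs => by
    rw [LFunctionTrivChar₁, Function.update_of_ne hs, dslope_of_ne _ hs, slope_def_field, h0]
    field_simp [sub_ne_zero.2 hs]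
    ring
  have key : ∀ x : ℝ, 1 / 2 < x → x ≤ 2 → _ := fun x => landau (x := x)
    (a := LSeries.convolution ⇑(af t * af w) ⇑(af c * af u) - LSeries.convolution (sqf t) (sqf t))
    (F := fun s => LFunctionTrivChar₁ m s * LFunction χ s * dslope F 1 s -
      LFunctionTrivChar m (2 * s) * LFunctionTrivChar m (2 * s))
    (fun n => by
      simp only [LSeries.convolution_def, Pi.sub_apply, Pi.zero_apply, sub_nonneg]
      exact sum_le_sum fun p _ => mul_le_mul (l1 _).2 (l2 _).2 (l1 _).1 ((l1 _).1.trans (l1 _).2))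
    (fun s hs => (s2 s hs).LSeriesSummable) (by
      have d : DifferentiableOn ℂ (fun s => LFunctionTrivChar m (2 * s)) {s | 1 / 2 < s.re} :=
        fun s hs => ((differentiableAt_LFunction _ _ (Or.inl fun g => by
          have := congrArg re g
          have h : 1 / 2 < s.re := hs
          simp at this; linarith)).comp s (by fun_prop)).differentiableWithinAt
      exact (((differentiable_LFunctionTrivChar₁ m).mul
        (differentiable_LFunction hχ)).differentiableOn.mul
          ((differentiableOn_dslope o).2 hF)).sub (d.mul d))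
    (fun s hs => by
      rw [(s2 s hs).LSeries_eq, e1 s (by rintro rfl; simp at hs), he s hs, ht, hc, cm_char _ hs,
        cm_char _ hs]
      ring)
  have T0 : Tendsto (fun x : ℝ => (2 * x : ℂ)) (𝓝[>] (1 / 2)) (𝓝[≠] 1) := by
    refine tendsto_nhdsWithin_iff.2 ⟨tendsto_nhdsWithin_of_tendsto_nhds
      (Continuous.tendsto' (by fun_prop) _ _ (by simp)), ?_⟩
    filter_upwards [self_mem_nhdsWithin] with x hx g
    have : 2 * x = 1 := by exact_mod_cast (show (2 * x : ℂ) = 1 from g)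
    linarith [Set.mem_Ioi.1 hx]
  have T1 := LFunctionTrivChar_residue_one (N := m).comp T0
  have T2 : Tendsto (fun x : ℝ => (2 * x - 1) * (LFunctionTrivChar m x * LFunction χ x))
      (𝓝[>] (1 / 2)) (𝓝 0) := by
    have c1 : ContinuousAt (fun s : ℂ => (2 * s - 1) * (LFunctionTrivChar m s * LFunction χ s))
        ((1 / 2 : ℝ) : ℂ) := ContinuousAt.mul (by fun_prop)
      ((differentiableAt_LFunction _ _ (Or.inl (by
        rw [Ne, ofReal_eq_one]; norm_num))).continuousAt.mul
          (differentiable_LFunction hχ).continuous.continuousAt)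
    have := (c1.tendsto.comp (continuous_ofReal.tendsto _)).mono_left
      (nhdsWithin_le_nhds (s := Set.Ioi (1 / 2)))
    simpa [Function.comp_def] using this
  have T3 := T2.zero_mul_isBoundedUnder_le (g := fun x : ℝ => (2 * x - 1) * F x) ⟨2 * |C|, by
    rw [eventually_map]
    filter_upwards [Ioo_mem_nhdsGT (show (1 / 2 : ℝ) < 1 by norm_num)] with x hx
    have := hb x hx.1
    simp only [Function.comp]
    rw [norm_mul, show (2 * x - 1 : ℂ) = (2 * x - 1 : ℝ) by simp, Complex.norm_real,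
      Real.norm_of_nonneg (by linarith [hx.1])]
    nlinarith [le_abs_self C, abs_nonneg C, hx.1, hx.2]⟩
  have T4 := le_of_tendsto_of_tendsto (T1.mul T1) T3 (by
    filter_upwards [Ioo_mem_nhdsGT (show (1 / 2 : ℝ) < 1 by norm_num)] with x hx
    have g := key x hx.1 (by linarith [hx.2])
    rw [e1 x (by exact_mod_cast hx.2.ne)] at g
    have g0 : (0 : ℂ) ≤ (2 * x - 1) ^ 2 := by exact_mod_cast sq_nonneg (2 * x - 1)
    rw [← sub_nonneg]
    refine (mul_nonneg g0 g).trans_eq ?_
    simp only [Function.comp]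
    ring)
  have p0 : (0 : ℂ) < ∏ p ∈ m.primeFactors, (1 - (p : ℂ)⁻¹) := prod_pos fun p hp => by
    have : (0 : ℝ) < 1 - (p : ℝ)⁻¹ := sub_pos.2 (inv_lt_one_of_one_lt₀
      (by exact_mod_cast (Nat.prime_of_mem_primeFactors hp).one_lt))
    simpa using zero_lt_real.2 this
  exact (mul_pos p0 p0).not_ge T4

end Pool.Agent.MP_c481b3_nt.H28
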