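import Mathlib

set_option autoImplicit false

namespace Pool.Agent.MP_c481b3_nt.H28

open Polynomial

/-- Weber's theorem: a primitive positive definite binary quadratic form represents infinitely
many primes. -/
def Weber : Prop :=
  ∀ a b c : ℤ, 0 < a → b ^ 2 - 4 * a * c < 0 → (∀ r : ℤ, r ∣ a → r ∣ b → r ∣ c → IsUnit r) →
    {l : ℕ | l.Prime ∧ ∃ x y : ℤ, (l : ℤ) = a * x ^ 2 + b * x * y + c * y ^ 2}.Infinite

/-- The analytic part of Weber's theorem. `G` is a ring class group, `χ` the quadratic character,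
`γ l` the class of a prime above a split prime `l`, and `r ξ n` the sum of `ξ` over the ideals of
norm `n`. -/
def AbsDirichlet : Prop :=
  ∀ (G : Type) [CommGroup G] [Finite G] (m : ℕ) [NeZero m] (χ : DirichletCharacter ℂ m),
    χ ≠ 1 → χ ^ 2 = 1 → ∀ (γ : ℕ → G) (r : (G →* ℂˣ) → ArithmeticFunction ℂ),
    (∀ ξ, (r ξ).IsMultiplicative) →
    (∀ ξ (l k : ℕ), l.Prime → χ l = 1 → r ξ (l ^ k)
      = ∑ i ∈ Finset.range (k + 1), (ξ (γ l) : ℂ) ^ i * ((ξ (γ l) : ℂ)⁻¹) ^ (k - i)) →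
    (∀ ξ (l k : ℕ), l.Prime → χ l = -1 → r ξ (l ^ k) = if Even k then 1 else 0) →
    (∀ ξ (l k : ℕ), l.Prime → χ l = 0 → k ≠ 0 → r ξ (l ^ k) = 0) →
    (∀ ξ, ξ ≠ 1 → ∃ C : ℝ, ∀ N : ℕ, ‖∑ n ∈ Finset.Icc 1 N, r ξ n‖ ≤ C * √(N : ℝ)) →
    ∀ g : G, {l : ℕ | l.Prime ∧ χ l = 1 ∧ (γ l = g ∨ γ l = g⁻¹)}.Infinite

/-- the value group of the subfield `F` is generated by the value of `w` -/
def Discrete {L : Type} [Field L] (O : ValuationSubring L) (F : Subfield L) (w : L) : Prop :=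
  ∀ x ∈ F, x ≠ 0 → ∃ n : ℤ, O.valuation x = O.valuation w ^ n

/-- Adjoining a simple root of the reduction of a monic integral polynomial is unramified. -/
def Unram : Prop :=
  ∀ (L : Type) [Field L] (O : ValuationSubring L) (F : Subfield L) (w : L), w ∈ F → w ≠ 0 →
    O.valuation w < 1 → Discrete O F w → ∀ (f : L[X]) (x : L), f.Monic →
    (∀ i, f.coeff i ∈ F ∧ f.coeff i ∈ O) → f.eval x = 0 →
    O.valuation (f.derivative.eval x) = 1 → Discrete O (Subfield.closure (insert x F)) w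

/-- Frobenius elements for a place of the algebraic closure of a number field. -/
def FrobLift : Prop :=
  ∀ (K : Type) [Field K] [NumberField K] (P : Ideal (NumberField.RingOfIntegers K)),
    P.IsMaximal → ∀ O : ValuationSubring (AlgebraicClosure K),
    (∀ r : NumberField.RingOfIntegers K, algebraMap _ (AlgebraicClosure K) r ∈ O) →
    (∀ r : NumberField.RingOfIntegers K,
      O.valuation (algebraMap _ (AlgebraicClosure K) r) < 1 ↔ r ∈ P) →
    ∃ σ : AlgebraicClosure K ≃ₐ[K] AlgebraicClosure K,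
      (∀ x, σ x ∈ O ↔ x ∈ O) ∧
      (∀ x, x ∈ O → O.valuation (σ x - x ^ Ideal.absNorm P) < 1)

end Pool.Agent.MP_c481b3_nt.H28
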