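import Mathlib
import Pool.Agent.MP_c481b3_nt.H28.Spec
import Pool.Agent.MP_c481b3_nt.H28.AbsDirB

set_option autoImplicit false

/-!
Dirichlet's argument for an abstract ring class group.
-/

namespace Pool.Agent.MP_c481b3_nt.H28

open Filter Topology Complex Finset DirichletCharacter

theorem bounds {P φ : ℝ → ℝ} {L : ℝ → ℂ} {K a : ℝ}
    (hP : ∀ x, 1 < x → ∃ E, |E| ≤ K ∧ ‖L x‖ = Real.exp (P x + E)) (hφ : ∀ x, 1 < x → 0 < φ x)
    (h : Tendsto (fun x => ‖L x‖ / φ x) (𝓝[>] 1) (𝓝 a)) :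
    (∃ C, ∀ᶠ x in 𝓝[>] 1, P x ≤ C + Real.log (φ x)) ∧
      (a ≠ 0 → ∃ C, ∀ᶠ x in 𝓝[>] 1, C + Real.log (φ x) ≤ P x) := by
  have a0 : 0 ≤ a := ge_of_tendsto h (by
    filter_upwards [self_mem_nhdsWithin] with x hx using div_nonneg (norm_nonneg _) (hφ x hx).le)
  refine ⟨⟨Real.log (a + 1) + K, ?_⟩, fun ha => ⟨Real.log (a / 2) - K, ?_⟩⟩
  · filter_upwards [self_mem_nhdsWithin, h.eventually (eventually_le_nhds (lt_add_one a))]
      with x hx g
    obtain ⟨E, e1, e2⟩ := hP x hx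
    rw [div_le_iff₀ (hφ x hx), e2, ← Real.le_log_iff_exp_le (mul_pos (by linarith) (hφ x hx)),
      Real.log_mul (by linarith) (hφ x hx).ne'] at g
    linarith [abs_le.1 e1]
  · have a1 : 0 < a / 2 := by positivity
    filter_upwards [self_mem_nhdsWithin, h.eventually (eventually_ge_nhds (show a / 2 < a by
      linarith))] with x hx g
    obtain ⟨E, e1, e2⟩ := hP x hx
    rw [le_div_iff₀ (hφ x hx), e2, ← Real.log_le_iff_le_exp (mul_pos a1 (hφ x hx)),
      Real.log_mul a1.ne' (hφ x hx).ne'] at g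
    linarith [abs_le.1 e1]

theorem not_sum_le {J : Type} [Fintype J] {f : J → ℝ → ℝ} {w : J → ℝ} {B : ℝ}
    (h : ∀ j, ∃ C, ∀ᶠ x in 𝓝[>] 1, C - w j * Real.log (x - 1) ≤ f j x) (hw : 0 < ∑ j, w j)
    (hB : ∀ x, 1 < x → ∑ j, f j x ≤ B) : False := by
  choose C hC using h
  have T0 : Tendsto (fun x : ℝ => x - 1) (𝓝[>] 1) (𝓝[>] 0) :=
    tendsto_nhdsWithin_iff.2 ⟨tendsto_nhdsWithin_of_tendsto_nhds
      (Continuous.tendsto' (by fun_prop) _ _ (by simp)),
      by filter_upwards [self_mem_nhdsWithin] with x hx using sub_pos.2 (Set.mem_Ioi.1 hx)⟩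
  have T1 := ((Real.tendsto_log_nhdsGT_zero.comp T0).const_mul_atBot hw).eventually
    (eventually_lt_atBot (∑ j, C j - B))
  obtain ⟨x, h1, h2, h3⟩ := (T1.and ((eventually_all.2 hC).and self_mem_nhdsWithin)).exists
  have h4 := sum_le_sum fun j (_ : j ∈ univ) => h2 j
  rw [sum_sub_distrib, ← sum_mul] at h4
  have := hB x h3
  simp only [Function.comp] at h1
  linarith

theorem orth {G : Type} [CommGroup G] [Finite G] [Fintype (G →* ℂˣ)] [DecidableEq G] (h : G) :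
    ∑ ξ : G →* ℂˣ, (ξ h : ℂ) = if h = 1 then (Fintype.card (G →* ℂˣ) : ℂ) else 0 := by
  split_ifs with c
  · simp [c]
  · obtain ⟨φ, hφ⟩ := CommGroup.exists_apply_ne_one_of_hasEnoughRootsOfUnity G ℂ c
    exact sum_hom_units_eq_zero ((Units.coeHom ℂ).comp (MonoidHom.eval h)) fun g =>
      hφ (Units.ext (DFunLike.congr_fun g φ))

theorem tend {F : ℂ → ℂ} (h : ContinuousAt F 1) :
    Tendsto (fun x : ℝ => ‖F x‖) (𝓝[>] 1) (𝓝 ‖F 1‖) :=
  ((h.tendsto.comp (continuous_ofReal.tendsto 1)).mono_left nhdsWithin_le_nhds).norm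

theorem absDirichlet : AbsDirichlet := by
  intro G _ _ m _ χ h1 h2 γ r r0 r1 r2 r3 r4 g hfin
  classical
  have : Finite (G →* ℂˣ) := Finite.of_equiv _
    (CommGroup.monoidHom_mulEquiv_of_hasEnoughRootsOfUnity G ℂ).some.symm.toEquiv
  have := Fintype.ofFinite (G →* ℂˣ)
  have tri : ∀ a : ZMod m, (χ a = 1 ∧ (1 : DirichletCharacter ℂ m) a = 1) ∨
      (χ a = -1 ∧ χ a ≠ 1 ∧ (1 : DirichletCharacter ℂ m) a = 1) ∨
      (χ a = 0 ∧ χ a ≠ 1 ∧ (1 : DirichletCharacter ℂ m) a = 0) := fun a => by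
    by_cases ha : IsUnit a
    · rw [MulChar.one_apply ha]
      rcases MulChar.isQuadratic_iff_sq_eq_one.2 h2 a with h | h | h
      · exact absurd h (ha.map χ).ne_zero
      · simp [h]
      · rw [h]; norm_num
    · simp [MulChar.map_nonunit _ ha]
  have nz : ∀ (ξ : G →* ℂˣ) h, ‖(ξ h : ℂ)‖ = 1 := fun ξ h =>
    norm_eq_one_of_pow_eq_one (n := Nat.card G) (by
      rw [← Units.val_pow_eq_pow_val, ← map_pow, pow_card_eq_one', map_one, Units.val_one])
      Nat.card_pos.ne'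
  have iz : ∀ (ξ : G →* ℂˣ) h, (ξ h : ℂ)⁻¹ = (starRingEnd ℂ) (ξ h) := fun ξ h =>
    inv_eq_conj (nz ξ h)
  set u : (G →* ℂˣ) → ℕ →*₀ ℂ := fun ξ => cm fun p =>
    if χ p = 1 then (ξ (γ p) : ℂ) else (1 : DirichletCharacter ℂ m) p with hu
  set w : (G →* ℂˣ) → ℕ →*₀ ℂ := fun ξ => cm fun p =>
    if χ p = 1 then (ξ (γ p) : ℂ)⁻¹ else χ p with hw
  have uw : ∀ ξ (p : ℕ), p.Prime → (χ p = 1 ∧ u ξ p = ξ (γ p) ∧ w ξ p = (ξ (γ p) : ℂ)⁻¹) ∨
      (χ p = -1 ∧ χ p ≠ 1 ∧ u ξ p = 1 ∧ w ξ p = -1) ∨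
      (χ p = 0 ∧ χ p ≠ 1 ∧ u ξ p = 0 ∧ w ξ p = 0) := fun ξ p hp => by
    simp only [hu, hw, cm_prime _ hp]
    rcases tri p with h | h | h
    · simp [h.1]
    · rw [if_neg h.2.1, if_neg h.2.1]; exact Or.inr (Or.inl ⟨h.1, h.2.1, h.2.2, h.1⟩)
    · rw [if_neg h.2.1, if_neg h.2.1]; exact Or.inr (Or.inr ⟨h.1, h.2.1, h.2.2, h.1⟩)
  have u1 : u 1 = cm fun p => (1 : DirichletCharacter ℂ m) p := congrArg cm (funext fun p => by
    split_ifs with c
    · rcases tri p with h | h | h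
      exacts [h.2.symm, absurd c h.2.1, absurd c h.2.1]
    · rfl)
  have w1 : w 1 = cm fun p => χ p := congrArg cm (funext fun p => by
    split_ifs with c <;> simp [c])
  clear_value u w
  have nu : ∀ ξ p, p.Prime → ‖u ξ p‖ ≤ 1 := fun ξ p hp => by
    rcases uw ξ p hp with h | h | h
    · rw [h.2.1, nz]
    all_goals simp [h.2.2.1]
  have nw : ∀ ξ p, p.Prime → ‖w ξ p‖ ≤ 1 := fun ξ p hp => by
    rcases uw ξ p hp with h | h | h
    · rw [h.2.2, norm_inv, nz, inv_one]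
    all_goals simp [h.2.2.2]
  have er : ∀ ξ, r ξ = af (u ξ) * af (w ξ) := fun ξ =>
    (ArithmeticFunction.IsMultiplicative.eq_iff_eq_on_prime_powers _ (r0 ξ) _ (af_mul _ _)).2
      fun p k hp => by
        rw [af_pow _ _ hp]
        rcases uw ξ p hp with h | h | h
        · rw [r1 ξ p k hp h.1, h.2.1, h.2.2, gs]
        · rw [r2 ξ p k hp h.1, h.2.2.1, h.2.2.2, gs_comm, gs_neg]
        · rcases eq_or_ne k 0 with rfl | hk
          · simp [(r0 ξ).1, gs]
          · rw [r3 ξ p k hp h.1 hk, h.2.2.1, h.2.2.2, gs_zero hk]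
  set c : (G →* ℂˣ) → ℕ → ℝ := fun ξ p => if χ p = 1 then 2 * (ξ (γ p) : ℂ).re else 0 with hc
  have cb : ∀ ξ p, |c ξ p| ≤ 2 := fun ξ p => by
    simp only [hc]
    split_ifs
    · rw [abs_mul, abs_two]; linarith [abs_re_le_norm (ξ (γ p) : ℂ), nz ξ (γ p)]
    · simp
  set P : (G →* ℂˣ) → ℝ → ℝ := fun ξ x => ∑' p : Nat.Primes, c ξ p * (p : ℝ) ^ (-x) with hP
  obtain ⟨K, hK⟩ := log_euler
  have hL : ∀ ξ (x : ℝ), 1 < x → ∃ E, |E| ≤ K + K ∧
      ‖LSeries (u ξ) x * LSeries (w ξ) x‖ = Real.exp (P ξ x + E) := fun ξ x hx => by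
    obtain ⟨E, e1, e2⟩ := hK _ (nu ξ) x hx
    obtain ⟨E', e3, e4⟩ := hK _ (nw ξ) x hx
    refine ⟨E + E', (abs_add_le _ _).trans (add_le_add e1 e3), ?_⟩
    rw [norm_mul, e2, e4, ← Real.exp_add, add_add_add_comm, ← Summable.tsum_add
      (summable_primes (fun p hp => (abs_re_le_norm _).trans (nu ξ p hp)) hx)
      (summable_primes (fun p hp => (abs_re_le_norm _).trans (nw ξ p hp)) hx)]
    congr 2
    refine tsum_congr fun p => ?_
    rw [← add_mul]
    congr 1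
    simp only [hc]
    rcases uw ξ p p.2 with h | h | h
    · rw [if_pos h.1, h.2.1, h.2.2, iz, conj_re, two_mul]
    all_goals simp [h.2.1, h.2.2.1, h.2.2.2]
  have sub1 : ∀ x : ℝ, 1 < x → ‖(x - 1 : ℂ)‖ = x - 1 := fun x hx => by
    rw [← ofReal_one, ← ofReal_sub, Complex.norm_real, Real.norm_of_nonneg (by linarith)]
  -- the trivial character
  have b1 := bounds (hL 1) (φ := fun x => (x - 1)⁻¹) (fun x hx => inv_pos.2 (sub_pos.2 hx))
    ((tend ((differentiable_LFunctionTrivChar₁ m).mul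
      (differentiable_LFunction h1)).continuous.continuousAt).congr' (by
      filter_upwards [self_mem_nhdsWithin] with x hx
      have hx' : 1 < (x : ℂ).re := hx
      rw [u1, w1, cm_char _ hx', cm_char _ hx', Pi.mul_apply, LFunctionTrivChar₁,
        Function.update_of_ne (by rintro g; simp [g] at hx'), mul_assoc, norm_mul, sub1 x hx,
        div_inv_eq_mul, mul_comm]))
  simp only [Real.log_inv] at b1
  obtain ⟨b1, b1'⟩ := b1
  have b1'' := b1' (norm_ne_zero_iff.2 (mul_ne_zero (LFunctionTrivChar₁_apply_one_ne_zero m)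
    (LFunction_apply_one_ne_zero h1)))
  -- the other characters
  have o : {s : ℂ | 1 / 2 < s.re} ∈ 𝓝 (1 : ℂ) :=
    (continuous_re.isOpen_preimage _ isOpen_Ioi).mem_nhds (by norm_num)
  have b2 : ∀ ξ, ξ ≠ 1 → (∃ C, ∀ᶠ x in 𝓝[>] 1, P ξ x ≤ C) ∧ ((∃ C, ∀ᶠ x in 𝓝[>] 1, C ≤ P ξ x) ∨
      (ξ⁻¹ ≠ ξ ∧ ∃ C, ∀ᶠ x in 𝓝[>] 1, P ξ x ≤ C + Real.log (x - 1))) := fun ξ hξ => by
    obtain ⟨C, hC⟩ := r4 ξ hξ
    obtain ⟨F, F1, F2, F3⟩ := exists_cont _ C hC
    have F4 : ∀ s : ℂ, 1 < s.re → F s = LSeries (u ξ) s * LSeries (w ξ) s := fun s hs => by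
      obtain ⟨a1, a2⟩ := af_summable (nu ξ) (nw ξ) hs
      rw [← er] at a1 a2
      rw [← a2, F2 s (by linarith) a1]
    have b := bounds (hL ξ) (φ := fun _ => 1) (fun _ _ => one_pos)
      ((tend (F1.continuousOn.continuousAt o)).congr' (by
        filter_upwards [self_mem_nhdsWithin] with x hx
        rw [F4 x hx, div_one]))
    simp only [Real.log_one, add_zero] at b
    refine ⟨b.1, ?_⟩
    by_cases h0 : F 1 = 0
    · refine Or.inr ⟨fun e => real_case χ h1 (fun p hp => ?_) F1 F4 F3 h0,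
        (bounds (hL ξ) (φ := fun x => x - 1) (fun x hx => sub_pos.2 hx)
        ((tend (((differentiableOn_dslope o).2 F1).continuousOn.continuousAt o)).congr' ?_)).1⟩
      · rcases uw ξ p hp with h | h | h <;> rcases tri p with k | k | k
        · have e1 : (ξ (γ p) : ℂ)⁻¹ = ξ (γ p) := by
            rw [← Units.val_inv_eq_inv_val, ← MonoidHom.inv_apply, e]
          have e2 : (ξ (γ p) : ℂ) * ξ (γ p) = 1 := by
            nth_rw 1 [← e1]; exact inv_mul_cancel₀ (Units.ne_zero _)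
          rw [h.2.1, h.2.2, e1]
          rcases mul_self_eq_one_iff.1 e2 with e3 | e3 <;> simp [e3, h.1, k.2]
        · exact absurd h.1 k.2.1
        · exact absurd h.1 k.2.1
        · exact absurd k.1 h.2.1
        · simp [h.1, h.2.2.1, h.2.2.2, k.2.2]
        · exact absurd (h.1.symm.trans k.1) (by norm_num)
        · exact absurd k.1 h.2.1
        · exact absurd (h.1.symm.trans k.1) (by norm_num)
        · simp [h.1, h.2.2.1, h.2.2.2, k.2.2]
      · filter_upwards [self_mem_nhdsWithin] with x hx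
        have hx' : 1 < (x : ℂ).re := hx
        rw [dslope_of_ne _ (by rintro g; simp [g] at hx'), slope_def_field, h0, sub_zero, norm_div,
          sub1 x hx, F4 x hx]
    · exact Or.inl (b.2 (norm_ne_zero_iff.2 h0))
  -- orthogonality
  set N : ℝ := (Fintype.card (G →* ℂˣ) : ℝ) with hN
  have N0 : 0 ≤ N := Nat.cast_nonneg _
  have ort : ∀ (a : G) (x : ℝ), 1 < x → ∑ ξ : G →* ℂˣ, (ξ a : ℂ).re * P ξ x =
      ∑' p : Nat.Primes, (if χ p = 1 then ((if a * γ p = 1 then N else 0) +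
        if a * (γ p)⁻¹ = 1 then N else 0) else 0) * (p : ℝ) ^ (-x) := fun a x hx => by
    simp only [hP, ← tsum_mul_left]
    rw [← Summable.tsum_finsetSum fun ξ _ =>
      (summable_primes (fun p _ => cb ξ p) hx).mul_left _]
    refine tsum_congr fun p => ?_
    simp only [← mul_assoc, ← sum_mul, hc]
    congr 1
    by_cases hp : χ p = 1
    · have e := congrArg re (congrArg₂ (· + ·) (orth (a * γ p)) (orth (a * (γ p)⁻¹)))
      simp only [← sum_add_distrib, re_sum, add_re, apply_ite re, natCast_re, zero_re] at e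
      simp only [if_pos hp]
      rw [← e]
      refine sum_congr rfl fun ξ _ => ?_
      simp only [map_mul, map_inv, Units.val_mul, Units.val_inv_eq_inv_val, iz, mul_re, conj_re,
        conj_im]
      ring
    · simp [hp]
  have Pinv : ∀ ξ, P ξ⁻¹ = P ξ := fun ξ => by
    simp only [hP, hc, MonoidHom.inv_apply, Units.val_inv_eq_inv_val, iz, conj_re]
  have b3 : ∀ ξ, ξ ≠ 1 → ∃ C, ∀ᶠ x in 𝓝[>] 1, C ≤ P ξ x := fun ξ hξ => by
    refine (b2 ξ hξ).2.elim id fun ⟨e, z⟩ => (not_sum_le (f := fun η x => -P η x) (B := 0)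
      (w := fun η => (if η = ξ then 1 else 0) + (if η = ξ⁻¹ then 1 else 0) - if η = 1 then 1 else 0)
      (fun η => ?_) (by simp [sum_sub_distrib, sum_add_distrib]) fun x hx => ?_).elim
    · have hξ' : ξ⁻¹ ≠ 1 := fun e' =>
        hξ (MonoidHom.ext fun a => inv_eq_one.1 (DFunLike.congr_fun e' a))
      by_cases c1 : η = ξ
      · obtain ⟨C, hC⟩ := z
        exact ⟨-C, hC.mono fun x hx => by simp [c1, e.symm, hξ]; linarith⟩
      by_cases c2 : η = ξ⁻¹
      · obtain ⟨C, hC⟩ := z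
        exact ⟨-C, hC.mono fun x hx => by simp [c2, e, hξ', Pinv]; linarith⟩
      by_cases c3 : η = 1
      · obtain ⟨C, hC⟩ := b1
        exact ⟨-C, hC.mono fun x hx => by simp [c3, hξ.symm, hξ'.symm]; linarith⟩
      · obtain ⟨C, hC⟩ := (b2 η c3).1
        exact ⟨-C, hC.mono fun x hx => by simp [c1, c2, c3]; linarith⟩
    · have e := ort 1 x hx
      simp only [map_one, Units.val_one, one_re, one_mul] at e
      rw [sum_neg_distrib, e, neg_nonpos]
      exact tsum_nonneg fun p => by positivity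
  have hf : {p : Nat.Primes | (p : ℕ).Prime ∧ χ p = 1 ∧ (γ p = g ∨ γ p = g⁻¹)}.Finite :=
    hfin.preimage (f := fun p : Nat.Primes => (p : ℕ)) Nat.Primes.coe_nat_injective.injOn
  refine not_sum_le (f := fun η x => (η g : ℂ).re * P η x) (B := ∑ _p ∈ hf.toFinset, (N + N))
    (w := fun η => if η = 1 then 1 else 0) (fun η => ?_) (by simp) fun x hx => ?_
  · by_cases c3 : η = 1
    · obtain ⟨C, hC⟩ := b1''
      exact ⟨C, hC.mono fun x hx => by simp [c3]; linarith⟩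
    · obtain ⟨C, hC⟩ := (b2 η c3).1
      obtain ⟨D, hD⟩ := b3 η c3
      refine ⟨-(|C| + |D|), (hC.and hD).mono fun x hx => ?_⟩
      have k1 : |P η x| ≤ |C| + |D| := abs_le.2 ⟨by linarith [neg_abs_le D, abs_nonneg C, hx.2],
        by linarith [le_abs_self C, abs_nonneg D, hx.1]⟩
      have k2 := mul_le_mul ((abs_re_le_norm _).trans_eq (nz η g)) k1 (abs_nonneg _) zero_le_one
      rw [← abs_mul] at k2
      simp only [if_neg c3]
      linarith [(abs_le.1 k2).1]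
  · rw [ort g x hx, tsum_eq_sum (s := hf.toFinset) fun p hp => ?_]
    · refine sum_le_sum fun p _ => ?_
      have p1 : ((p : ℕ) : ℝ) ^ (-x) ≤ 1 := Real.rpow_le_one_of_one_le_of_nonpos
        (by exact_mod_cast p.2.one_le) (by linarith)
      refine (mul_le_of_le_one_right (by positivity) p1).trans ?_
      split_ifs <;> linarith
    · simp only [Set.Finite.mem_toFinset, Set.mem_ofPred_eq, not_and, not_or] at hp
      by_cases c1 : χ p = 1
      · obtain ⟨c2, c3⟩ := hp p.2 c1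
        rw [if_neg (fun e => c3 (eq_inv_of_mul_eq_one_right e)),
          if_neg (fun e => c2 (mul_inv_eq_one.1 e).symm)]
        simp
      · simp [c1]

end Pool.Agent.MP_c481b3_nt.H28
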