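import Pool.Agent.MP_c481b3_nt.H28.LocD

set_option autoImplicit false

namespace Pool.Agent.MP_c481b3_nt.H28

open Pool.Agent.MP_c481b3_nt.H81 Polynomial IsLocalRing

section fc
variable {k : Type} [Field k] [DecidableEq k] (q : ℕ) [Fact q.Prime] [CharP k q] {A B : k}
  {r c l N : ℕ}

/-- a power of Frobenius is the scalar `c` -/
def FC (r c : ℕ) (A B : k) : Prop := ∃ (hG : Good A B) (hA : A ^ q ^ r = A) (hB : B ^ q ^ r = B),
  ∀ P, frP hG q r hA hB P = c • P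

variable {q} [IsAlgClosed k]

lemma FC.pow (h : FC q r c A B) (m : ℕ) : FC q (r * m) (c ^ m) A B := by
  classical
  obtain ⟨hG, hA, hB, e⟩ := h
  refine ⟨hG, fix_mul q r hA _, fix_mul q r hB _, fun P => ?_⟩
  rw [← (frE_pow hG q r hA hB _).2]
  induction m with
  | zero => simp
  | succ m ih => rw [Function.iterate_succ_apply', ih, e, ← mul_nsmul, pow_succ]

lemma FC.step (hl : l.Prime) (h2 : l ≠ 2) {x : Ed k} (o : x.Ok l N) (hc : c ≡ 1 [MOD l])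
    (h : FC q r c x.A x.B) : FC q r c (vA x.C) (vB x.C) := by
  obtain ⟨hG, hA, hB, e⟩ := h
  obtain ⟨d, n⟩ := o.vd hl h2
  have fx : ∀ P ∈ x.C, frP hG q r hA hB P = P := fun P hP => by
    have := d.sub.nsmul_card hP
    rw [n] at this
    rw [e, ← Nat.mod_add_div c l, add_nsmul, mul_nsmul, this, nsmul_zero, add_zero, hc,
      Nat.mod_eq_of_lt hl.one_lt, one_nsmul]
  obtain ⟨a, b⟩ := vA_image (iterateFrobenius k q r) hA hB hG d.sub
  rw [show x.C.image (Sc.ofHom (iterateFrobenius k q r) hA hB hG).map = x.C from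
    (Finset.image_congr fx).trans Finset.image_id] at a b
  refine ⟨d.good', a.symm, b.symm, fun P => ?_⟩
  obtain ⟨P, rfl⟩ := d.surj o.tm.three P
  rw [← map_nsmul, ← e]
  exact frob_vm q d hA hB a.symm b.symm (one_pow _) fx P

omit [CharP k q] in
lemma fc_finite (r0 : r ≠ 0) :
    {x : Ed k | x.Ok l 2 ∧ x.A ^ q ^ r = x.A ∧ x.B ^ q ^ r = x.B}.Finite := by
  have Q1 : 1 < q ^ r := Nat.one_lt_pow r0 (Fact.out : q.Prime).one_lt
  have ne := FiniteField.X_pow_card_sub_X_ne_zero k Q1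
  have f : {a : k | a ^ q ^ r = a}.Finite := (X ^ q ^ r - X : k[X]).roots.toFinset.finite_toSet.subset
    fun a ha => by simpa [mem_roots ne, sub_eq_zero] using ha
  refine (f.biUnion fun A _ => f.biUnion fun B _ =>
    ((tors A B 2 ×ˢ tors A B 2 ×ˢ subs A B l).finite_toSet.image
      fun z => (⟨A, B, z.1, z.2.1, z.2.2⟩ : Ed k))).subset ?_
  rintro x ⟨o, a, b⟩
  have t : Tm x.A x.B 2 := ⟨o.tm.good, o.tm.three, by simpa using o.tm.good.two⟩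
  exact Set.mem_biUnion a (Set.mem_biUnion b ⟨(x.P, x.Q, x.C), by
    simpa using ⟨t.mem.2 o.hP, t.mem.2 o.hQ, o.mem⟩, rfl⟩)

end fc

/-- the coordinate of an ordered triple of roots -/
noncomputable def mu3 {k : Type} [Field k] (e : k × k × k) : k := e.1 / (e.1 - e.2.1)

variable {L : Type} [Field L] [DecidableEq L]

/-- the values along the walk -/
noncomputable def zz (l : ℕ) (R : Finset (L × L × L)) (x : Ed L) (T : ℕ) : L :=
  (UL l)^[T] (fun y => ∏ e ∈ R, (mu3 e - y.mu)) x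

/-- a starting state with complex multiplication and orientation -/
structure Bs (D l c : ℕ) (s : L) (x : Ed L) : Prop where
  ok : x.Ok l 2
  two : x.Two
  one : xc x.P - xc x.Q = 1
  sq : s ^ 2 = -D
  cm : ∃ C R, VD C s x.A x.B ∧ C.card = D ∧ 2 • R = x.P ∧ vm C s x.A x.B R + R = c • x.Q
  int : ∀ O : ValuationSubring L, O.valuation ((6 * D : ℕ) : L) = 1 → jj x.A x.B ∈ O

variable [IsAlgClosed L] [CharZero L] {κ : Type} [Field κ] [DecidableEq κ] [IsAlgClosed κ]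
  [DecidableEq (RatFunc κ)] [DecidableEq (LL κ)] {p : ℕ} [Fact p.Prime] [CharP κ p]
  {π : Plc L κ} {D l c : ℕ} {s : L} {x : Ed L} {A B : ℤ} {R : Finset (L × L × L)}

/-- the data at a place -/
structure At2 (π : Plc L κ) (p D l : ℕ) (A B : ℤ) (R : Finset (L × L × L)) : Prop where
  five : 5 ≤ p
  alg : ∀ a : κ, ∃ n, n ≠ 0 ∧ a ^ p ^ n = a
  sj : Sj π
  good : Good (A : κ) (B : κ)
  rt : ∀ e ∈ R, Rt (A : L) (B : L) e.1 e.2.1 e.2.2
  d0 : (D : κ) ≠ 0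
  l0 : (l : κ) ≠ 0
  prime : l.Prime
  odd : l ≠ 2

variable (a : At2 π p D l A B R) (b : Bs D l c s x)
include a

omit [DecidableEq L] [IsAlgClosed L] [CharZero L] [DecidableEq κ] [IsAlgClosed κ]
  [DecidableEq (RatFunc κ)] [DecidableEq (LL κ)] [Fact p.Prime] in
lemma At2.three : (3 : κ) ≠ 0 := (small_ne κ a.five).2

omit [DecidableEq L] [IsAlgClosed L] [CharZero L] [DecidableEq κ] [IsAlgClosed κ]
  [DecidableEq (RatFunc κ)] [DecidableEq (LL κ)] [Fact p.Prime] [CharP κ p] in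
lemma At2.rd : Rd π (A : L) (B : L) (A : κ) (B : κ) := rd_of (Ev.int π A) (Ev.int π B) a.good

omit [IsAlgClosed L] [CharZero L] [IsAlgClosed κ]
  [DecidableEq (RatFunc κ)] [DecidableEq (LL κ)] [Fact p.Prime] [CharP κ p] in
lemma At2.mu {e : L × L × L} (he : e ∈ R) :
    Ev π (mu3 e) (π.ev e.1 / (π.ev e.1 - π.ev e.2.1)) := by
  have u := KrA.ev_root a.rd (a.rt e he)
  exact u.div (u.sub (KrA.ev_root a.rd (a.rt e he).rot))
    (sub_ne_zero.2 ((KrA.rt_red a.rd (a.rt e he)).ne a.good).1)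

omit [IsAlgClosed L] [CharZero L] [DecidableEq (RatFunc κ)] [DecidableEq (LL κ)] [Fact p.Prime]
  [CharP κ p] in
lemma At2.hit {y : Ed κ} (o : y.Ok l 2) (t : y.Two) (h : ∏ e ∈ R, (π.ev (mu3 e) - y.mu) = 0) :
    ∃ e ∈ R, ∃ u, VD ({0} : Finset (Pt y.A y.B)) u A B ∧ vm {0} u A B y.P = pt _ _ (π.ev e.1) 0 ∧
      vm {0} u A B y.Q = pt _ _ (π.ev e.2.1) 0 := by
  obtain ⟨e, he, h⟩ := Finset.prod_eq_zero_iff.1 h
  exact ⟨e, he, t.iso o a.good (KrA.rt_red a.rd (a.rt e he))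
    (by rw [← (a.mu he).ev]; exact sub_eq_zero.1 h)⟩

include b

omit [Fact p.Prime] in
lemma Bs.red : ∃ (y : Ed κ) (o : y.Ok l 2), y.Two ∧ Ev π x.mu y.mu ∧
    (∀ T, Ev π (zz l R x T) ((UL l)^[T] (fun y => ∏ e ∈ R, (π.ev (mu3 e) - y.mu)) y)) ∧
    ∃ χ : EE o.tm.good, χ * χ = -(D : EE o.tm.good) ∧ Ev π s (cE _ χ) ∧ cE _ χ ≠ 0 ∧
      OrE χ y.P (c • y.Q) := by
  have h2 := a.good.two
  have h3 := a.three
  obtain ⟨A', B', r⟩ := rd_of_one (π := π) h2 h3 (b.two.rt b.ok) b.ok.tm.good b.one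
    (b.int _ ((Ev.nat π _).v_one (by
      rw [Nat.cast_mul, show ((6 : ℕ) : κ) = 2 * 3 by norm_num]
      exact mul_ne_zero (mul_ne_zero h2 h3) a.d0)))
  have t : Tm A' B' l := ⟨r.good, h3, a.l0⟩
  have n2 : ((2 : ℕ) : κ) ≠ 0 := by simpa using h2
  let y : Ed κ := ⟨A', B', r.red x.P, r.red x.Q, x.C.image r.red⟩
  have o : y.Ok l 2 := ⟨t, red_subs r t b.ok.mem, by
    change 2 • r.red x.P = 0
    rw [← map_nsmul, b.ok.hP, map_zero], by
    change 2 • r.red x.Q = 0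
    rw [← map_nsmul, b.ok.hQ, map_zero]⟩
  have w : y.Two := ⟨red_tors_ne r n2 b.two.p0 b.ok.hP, red_tors_ne r n2 b.two.q0 b.ok.hQ,
    fun e => b.two.ne (red_inj r n2 b.ok.hP b.ok.hQ e)⟩
  have rd : Red π x y := ⟨r, rfl, rfl, rfl⟩
  obtain ⟨C, Z, d, rfl, z1, z2⟩ := b.cm
  obtain ⟨χ, c1, c2, c3, c4⟩ := cm_red a.sj r h3 d b.sq a.d0
  refine ⟨y, o, w, rd.mu w o.hQ, fun T => UL_red a.prime a.odd rd b.ok o T _ _
    fun x' y' _ r2 r3 => Ev.prod _ fun e he => (Ev.of_mem (a.mu he).mem).sub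
      (r3.mu (r2.two a.prime a.odd o w) (r2.ok a.prime a.odd o).hQ), χ, c1, c2, c3, r.red Z, ?_, ?_⟩
  · change _ = r.red x.P
    rw [← map_nsmul, z1]
  · change _ = c • r.red x.Q
    rw [c4, ← map_add, z2, map_nsmul]

lemma unit_split (sq : IsSquare (-(D : ZMod p)))
    (h : ¬IsSquare ((aZ A B p ^ 2 - 4 * p) * -(D : ℤ))) (T : ℕ) :
    ∃ v, v ≠ 0 ∧ Ev π (zz l R x T) v := by
  obtain ⟨y, o, t, -, e, χ, c1, -, c3, -⟩ := b.red a
  refine ⟨_, UL_ne T _ fun z hz e => h ?_, e T⟩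
  obtain ⟨-, -, u, d, -⟩ := a.hit (hz.ok a.prime a.odd o) (hz.two a.prime a.odd o t) e
  obtain ⟨f, -, f1, -⟩ := hz.is a.prime a.odd o
  have n0 : ((1 * l ^ T : ℕ) : κ) ≠ 0 := by simpa using fun e => absurd e a.l0
  rw [← loc_int p a.three a.good]
  exact frob_sq p a.three a.alg a.good (cm_move a.three a.good c1 c3
    (f1.comp a.three (d.is a.three)) n0) a.d0 n0 sq _ _

lemma unit_seed (hV : Vol) (sq : IsSquare (-(D : ZMod p))) (non : ¬IsSquare (-(D : ZMod l)))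
    (h : CMb a.good D) {T : ℕ} (T0 : T ≠ 0) : ∃ v, v ≠ 0 ∧ Ev π (zz l R x T) v := by
  obtain ⟨y, o, t, -, e, χ, c1, -, c3, -⟩ := b.red a
  refine ⟨_, UL_ne T _ fun z hz e => ?_, e T⟩
  have oz := hz.ok a.prime a.odd o
  obtain ⟨-, -, u, d, -⟩ := a.hit oz (hz.two a.prime a.odd o t) e
  obtain ⟨f, g, f1, g1, a1, a2, ⟨P, p1, p2⟩, a4⟩ := hz.is a.prime a.odd o
  obtain ⟨i, i1, -⟩ := (d.is a.three).dual a.three (by simp)
  obtain ⟨ψ, s1, s2⟩ := h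
  obtain ⟨φ, k1, -⟩ := cm_move a.three oz.tm.good s1 s2 i1 (by simp)
  obtain ⟨dz, cz⟩ := oz.vd a.prime a.odd
  obtain ⟨Q, q1, q0⟩ := Finset.exists_mem_ne (s := z.C) (cz ▸ a.prime.one_lt) 0
  have D0 : (0 : ℤ) < D := Int.natCast_pos.2 (Nat.pos_of_ne_zero fun e => a.d0 (by simp [e]))
  have k2 : φ * φ = -((D : ℤ) : EE oz.tm.good) := by simpa using k1
  have cr := compRing a.three oz.tm.good
  have := hV κ p a.three a.alg _ _ _ _ o.tm.good oz.tm.good D l T ⟨χ, c1, c3⟩ a.d0 sq a.prime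
    a.odd a.l0 non f g f1 g1 a1 a2 ⟨P, p1, fun e => p2 (e ▸ dz.sub.zero)⟩
    ⟨Q, cz ▸ dz.sub.nsmul_card q1, a4 Q q1 q0⟩ φ
  rw [cr.tr_of_sq D0 k2, cr.norm_of_sq D0.le k2] at this
  have l1 : (l : ℤ) ∣ 2 ^ 2 * D := by simpa using (dvd_pow_self _ (by omega)).trans this
  rcases (Nat.prime_iff_prime_int.1 a.prime).dvd_or_dvd l1 with h | h
  · exact a.odd ((Nat.prime_dvd_prime_iff_eq a.prime Nat.prime_two).1
      (a.prime.dvd_of_dvd_pow (n := 2) (m := 2) (by exact_mod_cast h)))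
  · exact non (by simp [(ZMod.natCast_eq_zero_iff D l).2 (by exact_mod_cast h)])

lemma unit_conj (sq : IsSquare (-(D : ZMod p))) {χ : EE a.good} (c1 : χ * χ = -(D : EE a.good))
    (c0 : cE _ χ ≠ 0) (hs : Ev π s (-cE _ χ))
    (h : ∀ e ∈ R, ¬OrE (-χ) (pt _ _ (π.ev e.1) 0) (c • pt _ _ (π.ev e.2.1) 0)) :
    ∃ v, v ≠ 0 ∧ Ev π (zz l R x 0) v := by
  obtain ⟨y, o, t, -, e, ψ, s1, s2, s3, Z, z1, z2⟩ := b.red a
  refine ⟨_, fun e => ?_, e 0⟩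
  obtain ⟨e, he, u, d, d1, d2⟩ := a.hit o t e
  obtain ⟨φ, k1, k2, k3⟩ := EE_conj a.three d a.good s1 s3
  rcases pm_of_sq p a.three a.alg a.good c1 k1 c0 (k2 ▸ s3) a.d0 sq with rfl | rfl
  · exact mul_ne_zero a.good.two c0 (by linear_combination k2 + s2.unique hs)
  · refine h e he ⟨d.hom a.three Z, ?_, ?_⟩
    · rw [← map_nsmul, z1, ← d1]; rfl
    · rw [k3, ← map_add, z2, map_nsmul, ← d2]; rfl

lemma unit_inert (hP : PerL) (non : ¬IsSquare (-(D : ZMod p))) (h : ¬(p : ℤ) ∣ aZ A B p) :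
    ∃ m T : ℕ, T ≠ 0 ∧ ∃ v, v ≠ 0 ∧ ∀ t, Ev π (zz l R x (T * t) ^ l ^ m) v := by
  obtain ⟨y, o, t, -, e, χ, c1, -, c3, -⟩ := b.red a
  obtain ⟨r, r0, hG, hA, hB, n, fg⟩ := exists_fg a.three p a.alg o.tm.good ⟨χ, c1, c3⟩ non
  have pp : p.Prime := Fact.out
  have l1 : l - 1 ≠ 0 := by have := a.prime.two_le; omega
  have f0 : FC p (r * (l - 1)) ((p ^ (n + 1)) ^ (l - 1)) y.A y.B :=
    FC.pow ⟨hG, hA, hB, fg⟩ _
  have c1 : (p ^ (n + 1)) ^ (l - 1) ≡ 1 [MOD l] := by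
    rw [← Nat.totient_prime a.prime]
    exact Nat.ModEq.pow_totient (((Nat.coprime_primes pp a.prime).2 fun e =>
      a.l0 (e ▸ CharP.cast_eq_zero κ p)).pow_left _)
  have c2 : p ∣ (p ^ (n + 1)) ^ (l - 1) := (dvd_pow_self _ (by omega)).trans (dvd_pow_self _ l1)
  generalize (p ^ (n + 1)) ^ (l - 1) = c at f0 c1 c2
  have ne : ∀ z : Ed κ, z.Ok l 2 ∧ z.Two ∧ FC p (r * (l - 1)) c z.A z.B →
      ∏ e ∈ R, (π.ev (mu3 e) - z.mu) ≠ 0 := fun z ⟨z1, z2, hG, hA, hB, z3⟩ e => by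
    obtain ⟨-, -, u, d, -⟩ := a.hit z1 z2 e
    obtain ⟨Q, q0, q1⟩ := tors_of_tr p a.three a.good _ _ (by rwa [loc_int p a.three a.good])
    obtain ⟨Q, rfl⟩ := d.surj a.three Q
    have : p • Q = 0 := by
      rw [← map_nsmul, d.hom_eq_zero] at q1
      simpa using q1
    obtain ⟨c, rfl⟩ := c2
    have := (Sc.map_eq_zero _).1 ((z3 Q).trans (by rw [mul_nsmul, this, nsmul_zero]))
    exact q0 (by rw [this, map_zero])
  obtain ⟨m, T, T0, k⟩ := hP κ l 2 a.prime a.odd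
    ((Nat.coprime_primes Nat.prime_two a.prime).2 a.odd.symm)
    {z | z.Ok l 2 ∧ z.Two ∧ FC p (r * (l - 1)) c z.A z.B}
    ((fc_finite (q := p) (l := l) (mul_ne_zero r0 l1)).subset
      fun z ⟨z1, _, _, hA, hB, _⟩ => ⟨z1, hA, hB⟩) (fun z hz => hz.1)
    (fun z ⟨z1, z2, z3⟩ E hE => ⟨z1.nx a.prime a.odd hE, z1.two a.prime a.odd z2 E,
      z3.step a.prime a.odd z1 c1⟩) κ (fun y => ∏ e ∈ R, (π.ev (mu3 e) - y.mu)) fun z hz => by
      obtain ⟨n, n0, hn⟩ := a.alg (∏ e ∈ R, (π.ev (mu3 e) - z.mu))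
      have := Nat.one_lt_pow n0 pp.one_lt
      refine ⟨p ^ n - 1, by omega, mul_right_cancel₀ (ne z hz) ?_⟩
      rw [← pow_succ, Nat.sub_add_cancel this.le, hn, one_mul]
  exact ⟨m, T, T0, _, pow_ne_zero (l ^ m) (ne y ⟨o, t, f0⟩), fun j =>
    k j y ⟨o, t, f0⟩ ▸ (e (T * j)).pow _⟩

end Pool.Agent.MP_c481b3_nt.H28
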