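import Pool.Agent.MP_c481b3_nt.H28.SpecD
import Pool.Agent.MP_c481b3_nt.H28.BaseC

set_option autoImplicit false

namespace Pool.Agent.MP_c481b3_nt.H28

open Pool.Agent.MP_c481b3_nt.H81 Polynomial IsLocalRing

/-- the admissible levels -/
def Lev (N : ℕ) : Prop := N = 2 ∨ N = 3 ∨ N = 5 ∨ N = 7

lemma Lev.prime {N : ℕ} (h : Lev N) : N.Prime := by
  rcases h with rfl | rfl | rfl | rfl <;> norm_num

section one
variable {k : Type} [Field k] [DecidableEq k] {l N : ℕ} {x y : Ed k}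

/-- a level structure -/
structure Ed.Lv (N : ℕ) (x : Ed k) : Prop where
  p0 : x.P ≠ 0
  two : N = 2 → x.Q ≠ 0 ∧ x.P ≠ x.Q
  odd : N ≠ 2 → x.Q = 0

/-- the coordinate on the modular curve -/
noncomputable def Ed.mv (N : ℕ) (x : Ed k) : k := if N = 2 then x.mu else muN N x.P

/-- a curve with a level structure -/
structure Ed.Pk (N : ℕ) (x : Ed k) : Prop where
  good : Good x.A x.B
  hP : N • x.P = 0
  hQ : N • x.Q = 0
  lv : x.Lv N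

omit [DecidableEq k] in
lemma Ed.Lv.tw (t : x.Lv 2) : x.Two := ⟨t.p0, (t.two rfl).1, (t.two rfl).2⟩

lemma Ed.Pk.rt (h : x.Pk 2) : Rt x.A x.B (xc x.P) (xc x.Q) (-xc x.P - xc x.Q) := by
  have t := h.lv.tw
  have a := (two_pt h.good t.p0 h.hP).1
  have b := (two_pt h.good t.q0 h.hQ).1
  have c : x.A = -(xc x.P ^ 2 + xc x.P * xc x.Q + xc x.Q ^ 2) :=
    mul_left_cancel₀ (t.xne h.hQ) (by linear_combination a - b)
  exact ⟨by ring, by linear_combination c, by linear_combination a - xc x.P * c⟩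

lemma cop_zero {G : Type*} [AddCommGroup G] {a b : ℕ} (h : a.Coprime b) {P : G} (h1 : a • P = 0)
    (h2 : b • P = 0) : P = 0 :=
  AddMonoid.addOrderOf_eq_one_iff.1 (Nat.eq_one_of_dvd_coprimes h
    (addOrderOf_dvd_of_nsmul_eq_zero h1) (addOrderOf_dvd_of_nsmul_eq_zero h2))

variable [IsAlgClosed k]

lemma Ed.Pk.iso (hI : MuIso) (hN : Lev N) (o : x.Ok l N) (t : x.Lv N) (h : y.Pk N)
    (e : y.mv N = x.mv N) : ∃ u, VD ({0} : Finset (Pt x.A x.B)) u y.A y.B ∧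
      vm {0} u y.A y.B x.P = y.P ∧ vm {0} u y.A y.B x.Q = y.Q := by
  by_cases h2 : N = 2
  · subst h2
    obtain ⟨u, d, a, b⟩ := t.tw.iso o h.good h.rt (by simpa [Ed.mv, Ed.mu] using e)
    exact ⟨u, d, a.trans (two_pt h.good h.lv.p0 h.hP).2.symm,
      b.trans (two_pt h.good h.lv.tw.q0 h.hQ).2.symm⟩
  · obtain ⟨u, d, a⟩ := hI k o.tm.three N _ _ _ _ x.P y.P (hN.resolve_left h2) o.tm.good h.good
      t.p0 o.hP h.lv.p0 h.hP (by simpa [Ed.mv, h2] using e.symm)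
    exact ⟨u, d, a, by rw [t.odd h2, h.lv.odd h2, d.eq_zero]; simp⟩

variable (hl : l.Prime) (h2 : l ≠ 2) (hc : N.Coprime l)
include hl h2 hc

lemma Ed.Ok.lv (h : x.Ok l N) (t : x.Lv N) (D : Finset (Pt (vA x.C) (vB x.C))) :
    (x.nx D).Lv N := by
  obtain ⟨d, c⟩ := h.vd hl h2
  have k : ∀ T, N • T = 0 → T ∈ x.C → T = 0 := fun T a b =>
    cop_zero hc a (c ▸ d.sub.nsmul_card b)
  refine ⟨fun e => t.p0 (k _ h.hP (d.eq_zero.1 e)), fun e => ⟨fun z => (t.two e).1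
    (k _ h.hQ (d.eq_zero.1 z)), fun z => (t.two e).2 (sub_eq_zero.1 (k _ (by
      rw [smul_sub, h.hP, h.hQ, sub_zero]) ((d.hom_eq_zero h.tm.three).1 ?_)))⟩,
    fun e => d.eq_zero.2 (t.odd e ▸ d.sub.zero)⟩
  rw [map_sub]
  exact sub_eq_zero.2 z

lemma Rc.lv (h : x.Ok l N) (t : x.Lv N) {n : ℕ} : ∀ {y}, Rc l x n y → y.Lv N := by
  induction n with
  | zero => rintro _ rfl; exact t
  | succ n ih =>
    rintro _ ⟨y, hy, D, hD, rfl⟩
    exact (hy.ok hl h2 h).lv hl h2 hc (ih hy) D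

omit hl h2 hc in
lemma fc_finite2 {q r : ℕ} [Fact q.Prime] (r0 : r ≠ 0) (n0 : (N : k) ≠ 0) :
    {x : Ed k | x.Ok l N ∧ x.A ^ q ^ r = x.A ∧ x.B ^ q ^ r = x.B}.Finite := by
  have Q1 : 1 < q ^ r := Nat.one_lt_pow r0 (Fact.out : q.Prime).one_lt
  have ne := FiniteField.X_pow_card_sub_X_ne_zero k Q1
  have f : {a : k | a ^ q ^ r = a}.Finite := (X ^ q ^ r - X : k[X]).roots.toFinset.finite_toSet.subset
    fun a ha => by simpa [mem_roots ne, sub_eq_zero] using ha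
  refine (f.biUnion fun A _ => f.biUnion fun B _ =>
    ((tors A B N ×ˢ tors A B N ×ˢ subs A B l).finite_toSet.image
      fun z => (⟨A, B, z.1, z.2.1, z.2.2⟩ : Ed k))).subset ?_
  rintro x ⟨o, a, b⟩
  have t : Tm x.A x.B N := ⟨o.tm.good, o.tm.three, n0⟩
  exact Set.mem_biUnion a (Set.mem_biUnion b ⟨(x.P, x.Q, x.C), by
    simpa using ⟨t.mem.2 o.hP, t.mem.2 o.hQ, o.mem⟩, rfl⟩)

end one

section red
variable {L κ : Type} [Field L] [Field κ] [DecidableEq L] [DecidableEq κ] {π : Plc L κ}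
  {N : ℕ} {x : Ed L} {y : Ed κ}

lemma Red.mv (hR : MuRed) (hN : Lev N) (h : Red π x y) (t : y.Lv N) (a : N • y.P = 0)
    (b : N • y.Q = 0) : Ev π (x.mv N) (y.mv N) := by
  by_cases h2 : N = 2
  · subst h2
    simpa [Ed.mv] using h.mu t.tw b
  · have := hR L κ π N _ _ _ _ h.rd x.P (hN.resolve_left h2) (h.P ▸ t.p0) (h.P ▸ a)
    rw [h.P] at this
    simpa [Ed.mv, h2] using this

lemma Ed.Lv.red (t : x.Lv N) (a : N • x.P = 0) (b : N • x.Q = 0) {A B : κ} (r : Rd π x.A x.B A B)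
    (n0 : (N : κ) ≠ 0) (C : Finset (Pt A B)) : Ed.Lv N ⟨A, B, r.red x.P, r.red x.Q, C⟩ :=
  ⟨red_tors_ne r n0 t.p0 a, fun e => ⟨red_tors_ne r n0 (t.two e).1 b,
    fun z => (t.two e).2 (red_inj r n0 a b z)⟩, fun e => by rw [t.odd e]; exact map_zero _⟩

omit [DecidableEq L] [DecidableEq κ] in
lemma rd_of_disc (h2 : (2 : κ) ≠ 0) (h3 : (3 : κ) ≠ 0) {A B : L} (h : 4 * A ^ 3 + 27 * B ^ 2 = 1)
    (hj : jj A B ∈ π.O) : ∃ A' B', Rd π A B A' B' := by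
  have m : ∀ {x : L} {n : ℕ}, n ≠ 0 → x ^ n ∈ π.O → x ∈ π.O := fun hn h => by
    rw [← π.O.valuation_le_one_iff] at h ⊢
    rw [map_pow] at h
    exact (pow_le_one_iff hn).1 h
  have n1 : (6912 : κ) ≠ 0 := by
    convert mul_ne_zero (pow_ne_zero 8 h2) (pow_ne_zero 3 h3) using 1; norm_num
  have n2 : (27 : κ) ≠ 0 := by convert pow_ne_zero 3 h3 using 1; norm_num
  have l1 := (Ev.ofNat π 6912).ne_zero n1
  have l2 := (Ev.ofNat π 27).ne_zero n2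
  have a := Ev.of_mem (m three_ne_zero ((((Ev.of_mem hj).div (Ev.ofNat π 6912) n1).congr
    (show _ = A ^ 3 by rw [jj, h, div_one, mul_div_cancel_left₀ _ l1]) rfl).mem))
  have b := Ev.of_mem (m two_ne_zero (((((Ev.one π).sub ((Ev.ofNat π 4).mul (a.pow 3))).div
    (Ev.ofNat π 27) n2).congr (show _ = B ^ 2 by
      rw [div_eq_iff l2]; linear_combination -h) rfl).mem))
  refine ⟨_, _, rd_of a b ⟨h2, ?_⟩⟩
  rw [(((Ev.ofNat π 4).mul (a.pow 3)).add ((Ev.ofNat π 27).mul (b.pow 2))).unique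
    ((Ev.one π).congr h.symm rfl)]
  exact one_ne_zero

end red

section ori
variable {k : Type} [Field k] [DecidableEq k] [IsAlgClosed k] [DecidableEq (RatFunc k)]
  [DecidableEq (LL k)]

/-- orientation of a level structure -/
def OrG (m : ℕ) (a : ℤ) (c : ℕ) {A B : k} {hG : Good A B} (χ : EE hG) (P Q : Pt A B) : Prop :=
  ∃ R, m • R = P ∧ χ.1 R + a • R = c • Q

/-- no complex multiplication by the given field -/
def NC (D : ℕ) (A B : k) : Prop := ∀ (hG : Good A B) (n : ℕ), (n : k) ≠ 0 → ¬CMb hG (D * n ^ 2)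

end ori

variable {L : Type} [Field L] [DecidableEq L]

/-- the values along the walk -/
noncomputable def zy (l N : ℕ) (R : Finset L) (x : Ed L) (T : ℕ) : L :=
  (UL l)^[T] (fun y => ∏ t ∈ R, (t - y.mv N)) x

/-- a starting state with complex multiplication and orientation -/
structure Bs2 (D l n N m : ℕ) (a : ℤ) (c : ℕ) (s : L) (x : Ed L) : Prop where
  ok : x.Ok l N
  lv : x.Lv N
  one : 4 * x.A ^ 3 + 27 * x.B ^ 2 = 1
  sq : s ^ 2 = -D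
  cm : ∃ C R, VD C s x.A x.B ∧ C.card = D ∧ m • R = x.P ∧ vm C s x.A x.B R + a • R = c • x.Q
  int : ∀ O : ValuationSubring L, O.valuation ((6 * n : ℕ) : L) = 1 → jj x.A x.B ∈ O

variable [IsAlgClosed L] [CharZero L] {κ : Type} [Field κ] [DecidableEq κ] [IsAlgClosed κ]
  [DecidableEq (RatFunc κ)] [DecidableEq (LL κ)] {p : ℕ} [Fact p.Prime] [CharP κ p]
  {π : Plc L κ} {D l n N m c : ℕ} {a : ℤ} {s : L} {x : Ed L} {R : Finset L}

/-- the data at a place -/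
structure At3 (π : Plc L κ) (p D l n N : ℕ) : Prop where
  five : 5 ≤ p
  alg : ∀ a : κ, ∃ n, n ≠ 0 ∧ a ^ p ^ n = a
  sj : Sj π
  d0 : (D : κ) ≠ 0
  l0 : (l : κ) ≠ 0
  n0 : (n : κ) ≠ 0
  N0 : (N : κ) ≠ 0
  prime : l.Prime
  odd : l ≠ 2
  cop : N.Coprime l
  lev : Lev N
  hI : MuIso
  hR : MuRed

/-- every target value is the coordinate of a curve with a given property -/
def Tg (π : Plc L κ) (N : ℕ) (R : Finset L) (Φ : Ed κ → Prop) : Prop :=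
  ∀ t ∈ R, ∃ y : Ed κ, y.Pk N ∧ Ev π t (y.mv N) ∧ Φ y

variable (g : At3 π p D l n N) (b : Bs2 D l n N m a c s x) {Φ : Ed κ → Prop}
include g

omit [DecidableEq L] [IsAlgClosed L] [CharZero L] [DecidableEq κ] [IsAlgClosed κ]
  [DecidableEq (RatFunc κ)] [DecidableEq (LL κ)] [Fact p.Prime] in
lemma At3.three : (2 : κ) ≠ 0 ∧ (3 : κ) ≠ 0 := small_ne κ g.five

omit [DecidableEq L] [IsAlgClosed L] [CharZero L] [DecidableEq (RatFunc κ)] [DecidableEq (LL κ)]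
  [Fact p.Prime] [CharP κ p] in
lemma At3.hit (H : Tg π N R Φ) {z : Ed κ} (o : z.Ok l N) (t : z.Lv N)
    (h : ∏ t ∈ R, (π.ev t - z.mv N) = 0) : ∃ y : Ed κ, Φ y ∧ ∃ u,
      VD ({0} : Finset (Pt z.A z.B)) u y.A y.B ∧ vm {0} u y.A y.B z.P = y.P ∧
        vm {0} u y.A y.B z.Q = y.Q := by
  obtain ⟨e, he, h⟩ := Finset.prod_eq_zero_iff.1 h
  obtain ⟨y, y1, y2, y3⟩ := H e he
  exact ⟨y, y3, y1.iso g.hI g.lev o t (by rw [← y2.ev]; exact sub_eq_zero.1 h)⟩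

include b

omit [Fact p.Prime] in
lemma Bs2.red (H : Tg π N R Φ) : ∃ (y : Ed κ) (o : y.Ok l N), y.Lv N ∧ Ev π (x.mv N) (y.mv N) ∧
    (∀ T, Ev π (zy l N R x T) ((UL l)^[T] (fun y => ∏ t ∈ R, (π.ev t - y.mv N)) y)) ∧
    ∃ χ : EE o.tm.good, χ * χ = -(D : EE o.tm.good) ∧ Ev π s (cE _ χ) ∧ cE _ χ ≠ 0 ∧
      OrG m a c χ y.P y.Q := by
  obtain ⟨h2, h3⟩ := g.three
  obtain ⟨A', B', r⟩ := rd_of_disc (π := π) h2 h3 b.one
    (b.int _ ((Ev.nat π _).v_one (by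
      rw [Nat.cast_mul, show ((6 : ℕ) : κ) = 2 * 3 by norm_num]
      exact mul_ne_zero (mul_ne_zero h2 h3) g.n0)))
  have t : Tm A' B' l := ⟨r.good, h3, g.l0⟩
  let y : Ed κ := ⟨A', B', r.red x.P, r.red x.Q, x.C.image r.red⟩
  have o : y.Ok l N := ⟨t, red_subs r t b.ok.mem, by
    change N • r.red x.P = 0
    rw [← map_nsmul, b.ok.hP, map_zero], by
    change N • r.red x.Q = 0
    rw [← map_nsmul, b.ok.hQ, map_zero]⟩
  have w : y.Lv N := b.lv.red b.ok.hP b.ok.hQ r g.N0 _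
  have rd : Red π x y := ⟨r, rfl, rfl, rfl⟩
  obtain ⟨C, Z, d, rfl, z1, z2⟩ := b.cm
  obtain ⟨χ, c1, c2, c3, c4⟩ := cm_red g.sj r h3 d b.sq g.d0
  refine ⟨y, o, w, rd.mv g.hR g.lev w o.hP o.hQ, fun T => UL_red g.prime g.odd rd b.ok o T _ _
    fun x' y' _ r2 r3 => Ev.prod _ fun e he => (Ev.of_mem (H e he).choose_spec.2.1.mem).sub
      (r3.mv g.hR g.lev (r2.lv g.prime g.odd g.cop o w) (r2.ok g.prime g.odd o).hP
        (r2.ok g.prime g.odd o).hQ), χ, c1, c2, c3, r.red Z, ?_, ?_⟩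
  · change _ = r.red x.P
    rw [← map_nsmul, z1]
  · change _ = c • r.red x.Q
    rw [c4, ← map_zsmul, ← map_add, z2, map_nsmul]

lemma unit_seed2 (hV : Vol) (sq : IsSquare (-(D : ZMod p))) (non : ¬IsSquare (-(D : ZMod l)))
    {T : ℕ} (H : Tg π N R fun y => NC D y.A y.B ∨ T ≠ 0 ∧ ∃ hG : Good y.A y.B, CMb hG D) :
    ∃ v, v ≠ 0 ∧ Ev π (zy l N R x T) v := by
  obtain ⟨y, o, t, -, e, χ, c1, -, c3, -⟩ := b.red g H
  have h3 := g.three.2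
  refine ⟨_, UL_ne T _ fun z hz e => ?_, e T⟩
  have oz := hz.ok g.prime g.odd o
  obtain ⟨w, hw, u, d, -⟩ := g.hit H oz (hz.lv g.prime g.odd g.cop o t) e
  obtain ⟨f, f', f1, g1, a1, a2, ⟨P, p1, p2⟩, a4⟩ := hz.is g.prime g.odd o
  rcases hw with hw | ⟨T0, hG, ψ, s1, s2⟩
  · have n0 : ((1 * l ^ T : ℕ) : κ) ≠ 0 := by simpa using fun e => absurd e g.l0
    exact hw d.good' _ n0 (cm_move h3 d.good' c1 c3 (f1.comp h3 (d.is h3)) n0)
  obtain ⟨i, i1, -⟩ := (d.is h3).dual h3 (by simp)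
  obtain ⟨φ, k1, -⟩ := cm_move h3 oz.tm.good s1 s2 i1 (by simp)
  obtain ⟨dz, cz⟩ := oz.vd g.prime g.odd
  obtain ⟨Q, q1, q0⟩ := Finset.exists_mem_ne (s := z.C) (cz ▸ g.prime.one_lt) 0
  have D0 : (0 : ℤ) < D := Int.natCast_pos.2 (Nat.pos_of_ne_zero fun e => g.d0 (by simp [e]))
  have k2 : φ * φ = -((D : ℤ) : EE oz.tm.good) := by simpa using k1
  have cr := compRing h3 oz.tm.good
  have := hV κ p h3 g.alg _ _ _ _ o.tm.good oz.tm.good D l T ⟨χ, c1, c3⟩ g.d0 sq g.prime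
    g.odd g.l0 non f f' f1 g1 a1 a2 ⟨P, p1, fun e => p2 (e ▸ dz.sub.zero)⟩
    ⟨Q, cz ▸ dz.sub.nsmul_card q1, a4 Q q1 q0⟩ φ
  rw [cr.tr_of_sq D0 k2, cr.norm_of_sq D0.le k2] at this
  have l1 : (l : ℤ) ∣ 2 ^ 2 * D := by simpa using (dvd_pow_self _ (by omega)).trans this
  rcases (Nat.prime_iff_prime_int.1 g.prime).dvd_or_dvd l1 with h | h
  · exact g.odd ((Nat.prime_dvd_prime_iff_eq g.prime Nat.prime_two).1
      (g.prime.dvd_of_dvd_pow (n := 2) (m := 2) (by exact_mod_cast h)))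
  · exact non (by simp [(ZMod.natCast_eq_zero_iff D l).2 (by exact_mod_cast h)])

lemma unit_conj2 (sq : IsSquare (-(D : ZMod p))) {c₀ : κ} (c0 : c₀ ≠ 0) (hs : Ev π s (-c₀))
    (H : Tg π N R fun y => NC D y.A y.B ∨ ∃ (hG : Good y.A y.B) (χ : EE hG),
      χ * χ = -(D : EE hG) ∧ cE hG χ = c₀ ∧ ¬OrG m a c (-χ) y.P y.Q) :
    ∃ v, v ≠ 0 ∧ Ev π (zy l N R x 0) v := by
  obtain ⟨y, o, t, -, e, ψ, s1, s2, s3, Z, z1, z2⟩ := b.red g H
  obtain ⟨h2, h3⟩ := g.three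
  refine ⟨_, fun e => ?_, e 0⟩
  obtain ⟨w, hw, u, d, d1, d2⟩ := g.hit H o t e
  obtain ⟨φ, k1, k2, k3⟩ := EE_conj h3 d d.good' s1 s3
  rcases hw with hw | ⟨hG, χ, c1, c2, h⟩
  · exact hw d.good' 1 (by simp) ⟨φ, by simpa using k1, k2 ▸ s3⟩
  rcases pm_of_sq p h3 g.alg hG c1 k1 (c2 ▸ c0) (k2 ▸ s3) g.d0 sq with rfl | rfl
  · exact mul_ne_zero h2 c0 (by linear_combination k2 + s2.unique hs - c2)
  · refine h ⟨d.hom h3 Z, ?_, ?_⟩
    · rw [← map_nsmul, z1, ← d1]; rfl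
    · rw [k3, ← map_zsmul, ← map_add, z2, map_nsmul, ← d2]; rfl

lemma unit_inert2 (hP : PerL) (non : ¬IsSquare (-(D : ZMod p)))
    (H : Tg π N R fun y => ∃ Q : Pt y.A y.B, Q ≠ 0 ∧ p • Q = 0) :
    ∃ m T : ℕ, T ≠ 0 ∧ ∃ v, v ≠ 0 ∧ ∀ t, Ev π (zy l N R x (T * t) ^ l ^ m) v := by
  obtain ⟨y, o, t, -, e, χ, c1, -, c3, -⟩ := b.red g H
  have h3 := g.three.2
  obtain ⟨r, r0, hG, hA, hB, n, fg⟩ := exists_fg h3 p g.alg o.tm.good ⟨χ, c1, c3⟩ non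
  have pp : p.Prime := Fact.out
  have l1 : l - 1 ≠ 0 := by have := g.prime.two_le; omega
  have f0 : FC p (r * (l - 1)) ((p ^ (n + 1)) ^ (l - 1)) y.A y.B :=
    FC.pow ⟨hG, hA, hB, fg⟩ _
  have c1 : (p ^ (n + 1)) ^ (l - 1) ≡ 1 [MOD l] := by
    rw [← Nat.totient_prime g.prime]
    exact Nat.ModEq.pow_totient (((Nat.coprime_primes pp g.prime).2 fun e =>
      g.l0 (e ▸ CharP.cast_eq_zero κ p)).pow_left _)
  have c2 : p ∣ (p ^ (n + 1)) ^ (l - 1) := (dvd_pow_self _ (by omega)).trans (dvd_pow_self _ l1)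
  generalize (p ^ (n + 1)) ^ (l - 1) = c at f0 c1 c2
  have ne : ∀ z : Ed κ, z.Ok l N ∧ z.Lv N ∧ FC p (r * (l - 1)) c z.A z.B →
      ∏ t ∈ R, (π.ev t - z.mv N) ≠ 0 := fun z ⟨z1, z2, hG, hA, hB, z3⟩ e => by
    obtain ⟨w, ⟨Q, q0, q1⟩, u, d, -⟩ := g.hit H z1 z2 e
    obtain ⟨Q, rfl⟩ := d.surj h3 Q
    have : p • Q = 0 := by
      rw [← map_nsmul, d.hom_eq_zero] at q1
      simpa using q1
    obtain ⟨c, rfl⟩ := c2
    have := (Sc.map_eq_zero _).1 ((z3 Q).trans (by rw [mul_nsmul, this, nsmul_zero]))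
    exact q0 (by rw [this, map_zero])
  obtain ⟨m, T, T0, k⟩ := hP κ l N g.prime g.odd g.cop
    {z | z.Ok l N ∧ z.Lv N ∧ FC p (r * (l - 1)) c z.A z.B}
    ((fc_finite2 (q := p) (l := l) (mul_ne_zero r0 l1) g.N0).subset
      fun z ⟨z1, _, _, hA, hB, _⟩ => ⟨z1, hA, hB⟩) (fun z hz => hz.1)
    (fun z ⟨z1, z2, z3⟩ E hE => ⟨z1.nx g.prime g.odd hE, z1.lv g.prime g.odd g.cop z2 E,
      z3.step g.prime g.odd z1 c1⟩) κ (fun y => ∏ t ∈ R, (π.ev t - y.mv N)) fun z hz => by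
      obtain ⟨n, n0, hn⟩ := g.alg (∏ t ∈ R, (π.ev t - z.mv N))
      have := Nat.one_lt_pow n0 pp.one_lt
      refine ⟨p ^ n - 1, by omega, mul_right_cancel₀ (ne z hz) ?_⟩
      rw [← pow_succ, Nat.sub_add_cancel this.le, hn, one_mul]
  exact ⟨m, T, T0, _, pow_ne_zero (l ^ m) (ne y ⟨o, t, f0⟩), fun j =>
    k j y ⟨o, t, f0⟩ ▸ (e (T * j)).pow _⟩

end Pool.Agent.MP_c481b3_nt.H28
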