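import Mathlib

set_option autoImplicit false

namespace Pool.Agent.MP_c481b3_nt.H28

/-- a ring with a positive definite multiplicative quadratic form -/
structure CompRing (R : Type*) [Ring R] (N : R → ℤ) : Prop where
  mul : ∀ x y, N (x * y) = N x * N y
  par : ∀ x y, N (x + y) + N (x - y) = 2 * N x + 2 * N y
  one : N 1 = 1
  nonneg : ∀ x, 0 ≤ N x
  eq_zero : ∀ x, N x = 0 → x = 0

/-- the polar form -/
def pol {R : Type*} [Ring R] (N : R → ℤ) (x y : R) : ℤ := N (x + y) - N x - N y

namespace CompRing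
variable {R : Type*} [Ring R] {N : R → ℤ} (h : CompRing R N)
include h

lemma zero : N 0 = 0 := by
  have := h.par 0 0
  simp only [add_zero, sub_zero] at this
  omega

lemma neg (x : R) : N (-x) = N x := by
  have := h.par 0 x
  rw [zero_add, zero_sub, h.zero] at this
  omega

omit h in
lemma pol_comm (x y : R) : pol N x y = pol N y x := by
  rw [pol, pol, add_comm]; ring

lemma pol_self (x : R) : pol N x x = 2 * N x := by
  have := h.par x x
  rw [sub_self, h.zero] at this
  rw [pol]; omega

lemma pol_zero (x : R) : pol N 0 x = 0 := by rw [pol, zero_add, h.zero]; ring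

lemma pol_neg (x y : R) : pol N (-x) y = -pol N x y := by
  have := h.par y x
  rw [pol, pol, h.neg, neg_add_eq_sub, add_comm x]; omega

lemma pol_add (x y z : R) : pol N (x + y) z = pol N x z + pol N y z := by
  have a1 := h.par (x + z) y
  have a2 := h.par x (y - z)
  have a3 := h.par (x + y) z
  have a4 := h.par y z
  have a5 := h.par x z
  rw [show x + z + y = x + y + z by abel, show x + z - y = x - (y - z) by abel] at a1
  rw [show x + (y - z) = x + y - z by abel] at a2
  simp only [pol]
  omega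

/-- the polar form is additive -/
def polHom (z : R) : R →+ ℤ where
  toFun x := pol N x z
  map_zero' := h.pol_zero z
  map_add' x y := h.pol_add x y z

lemma pol_sub (x y z : R) : pol N (x - y) z = pol N x z - pol N y z := (h.polHom z).map_sub x y

lemma pol_int (n : ℤ) (x z : R) : pol N (n * x) z = n * pol N x z := by
  have := (h.polHom z).map_zsmul n x
  rwa [zsmul_eq_mul, zsmul_eq_mul] at this

lemma pol_add' (x y z : R) : pol N z (x + y) = pol N z x + pol N z y := by
  rw [pol_comm, h.pol_add, pol_comm x, pol_comm y]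

lemma pol_sub' (x y z : R) : pol N z (x - y) = pol N z x - pol N z y := by
  rw [pol_comm, h.pol_sub, pol_comm x, pol_comm y]

lemma pol_neg' (x y : R) : pol N x (-y) = -pol N x y := by rw [pol_comm, h.pol_neg, pol_comm]

lemma pol_int' (n : ℤ) (x z : R) : pol N z (n * x) = n * pol N z x := by
  rw [pol_comm, h.pol_int, pol_comm]

omit h in
lemma add (N : R → ℤ) (x y : R) : N (x + y) = N x + pol N x y + N y := by rw [pol]; ring

lemma sub (x y : R) : N (x - y) = N x - pol N x y + N y := by
  rw [sub_eq_add_neg, add N, h.pol_neg', h.neg]; ring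

lemma int (n : ℤ) : N n = n ^ 2 := by
  have h1 := h.pol_self (n : R)
  have h2 := h.pol_int n 1 (n * 1)
  rw [h.pol_int' n 1 1, h.pol_self 1, h.one, mul_one] at h2
  nlinarith

lemma int_mul (n : ℤ) (x : R) : N (n * x) = n ^ 2 * N x := by rw [h.mul, h.int]

lemma nat (n : ℕ) : N n = (n : ℤ) ^ 2 := by simpa using h.int n

lemma pos {x : R} (hx : x ≠ 0) : 0 < N x :=
  lt_of_le_of_ne (h.nonneg x) fun e => hx (h.eq_zero x e.symm)

lemma mul_ne {x y : R} (hx : x ≠ 0) (hy : y ≠ 0) : x * y ≠ 0 := fun e => by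
  have := h.mul x y
  rw [e, h.zero] at this
  exact (mul_pos (h.pos hx) (h.pos hy)).ne this

lemma int_ne {n : ℤ} (hn : n ≠ 0) : (n : R) ≠ 0 := fun e => by
  have := h.int n
  rw [e, h.zero] at this
  exact pow_ne_zero 2 hn this.symm

lemma cancel {x y z : R} (hx : x ≠ 0) (e : x * y = x * z) : y = z := by
  by_contra h0
  exact h.mul_ne hx (sub_ne_zero.2 h0) (by rw [mul_sub, e, sub_self])

lemma cancel' {x y z : R} (hx : x ≠ 0) (e : y * x = z * x) : y = z := by
  by_contra h0
  exact h.mul_ne (sub_ne_zero.2 h0) hx (by rw [sub_mul, e, sub_self])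

lemma int_inj {m n : ℤ} (e : (m : R) = n) : m = n := by
  by_contra h0
  exact h.int_ne (sub_ne_zero.2 h0) (by rw [Int.cast_sub, e, sub_self])

lemma pol_mul (x y z : R) : pol N (x * y) (x * z) = N x * pol N y z := by
  rw [pol, pol, ← mul_add, h.mul, h.mul, h.mul]; ring

lemma pol_mul' (x y z : R) : pol N (y * x) (z * x) = N x * pol N y z := by
  rw [pol, pol, ← add_mul, h.mul, h.mul, h.mul]; ring

lemma pol_four (x y z w : R) :
    pol N (x * y) (z * w) + pol N (x * w) (z * y) = pol N x z * pol N y w := by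
  have := h.pol_mul (x + z) y w
  rw [add_mul, add_mul, h.pol_add, h.pol_add', h.pol_add', h.pol_mul, h.pol_mul, add N x z,
    pol_comm (z * y)] at this
  linear_combination this

/-- every element satisfies its characteristic polynomial -/
theorem char (x : R) : x * x = pol N x 1 * x - N x := by
  have key : ∀ y, pol N (x * x - pol N x 1 * x + N x * 1) y = 0 := by
    intro y
    have a := h.pol_four x x 1 y
    have b := h.pol_mul x y 1
    rw [one_mul, one_mul] at a
    rw [mul_one] at b
    rw [h.pol_add, h.pol_sub, h.pol_int, h.pol_int, pol_comm 1 y]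
    linear_combination a - b
  have := key (x * x - pol N x 1 * x + N x * 1)
  rw [h.pol_self] at this
  have := h.eq_zero (x * x - pol N x 1 * x + N x * 1) (by omega)
  rw [mul_one] at this
  rw [← sub_eq_zero, ← this]; abel

lemma tr_anti {x y : R} (hy : y ≠ 0) (e : x * y = -(y * x)) : pol N x 1 = 0 := by
  have a := h.pol_mul' y x 1
  have b := h.pol_mul y x 1
  rw [e, h.pol_neg, one_mul] at a
  rw [mul_one] at b
  have := h.pos hy
  have c : N y * pol N x 1 = 0 := by omega
  exact (mul_eq_zero.1 c).resolve_left this.ne'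

lemma sq_anti {x y : R} (hy : y ≠ 0) (e : x * y = -(y * x)) : x * x = -(N x : R) := by
  rw [h.char, h.tr_anti hy e]; simp

lemma anticomm {x y : R} (hx : pol N x 1 = 0) (hy : pol N y 1 = 0) :
    x * y + y * x = -(pol N x y : R) := by
  have a := h.char x
  have b := h.char y
  have c := h.char (x + y)
  rw [h.pol_add, hx, hy, add N x y] at c
  rw [hx] at a
  rw [hy] at b
  simp only [Int.cast_zero, zero_mul, zero_sub, add_zero, Int.cast_add] at a b c
  rw [add_mul, mul_add, mul_add, a, b] at c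
  rw [← sub_eq_zero, ← sub_eq_zero.2 c]; abel

lemma cauchy (x y : R) : pol N x y ^ 2 ≤ 4 * N x * N y := by
  by_cases hx : x = 0
  · rw [hx, h.pol_zero, h.zero]; simp
  have a := h.nonneg ((2 * N x : ℤ) * y - pol N x y * x)
  rw [h.sub, h.int_mul, h.int_mul, h.pol_int, h.pol_int', pol_comm y x] at a
  have := h.pos hx
  nlinarith

lemma norm_of_sq {x : R} {n : ℤ} (hn : 0 ≤ n) (e : x * x = -(n : R)) : N x = n := by
  have a := h.mul x x
  rw [e, h.neg, h.int, sq] at a
  exact ((mul_self_inj_of_nonneg hn (h.nonneg x)).1 a).symm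

/-- an element of prime norm does not have this prime as its square -/
lemma sq_ne {x : R} {l : ℕ} (hl : l.Prime) (hx : N x = l) : x * x ≠ l := by
  intro e
  have a := h.char x
  rw [e, hx] at a
  have b : ((2 * l : ℤ) : R) = pol N x 1 * x := by
    rw [← sub_add_cancel (pol N x 1 * x) (l : ℤ), ← a]; push_cast; rw [two_mul]
  have c := congrArg N b
  rw [h.int, h.int_mul, hx] at c
  have l0 : (l : ℤ) ≠ 0 := by exact_mod_cast hl.ne_zero
  have d : pol N x 1 ^ 2 = 4 * l := mul_right_cancel₀ l0 (by linear_combination -c)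
  obtain ⟨s, hs⟩ : (2 : ℤ) ∣ pol N x 1 := Int.prime_two.dvd_of_dvd_pow (n := 2) ⟨2 * l, by rw [d]; ring⟩
  have : (l : ℤ) = s * s := by rw [hs] at d; linarith
  have : l = s.natAbs * s.natAbs := by
    have := congrArg Int.natAbs this
    rwa [Int.natAbs_natCast, Int.natAbs_mul] at this
  exact hl.not_isSquare ⟨_, this⟩

/-- an odd power of an element of norm an odd power of a prime has trace zero only if the element
has trace zero -/
theorem tr_pow {x : R} {q f m : ℕ} (hq : q.Prime) (h5 : 5 ≤ q) (hf : Odd f) (hm : Odd m)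
    (hx : N x = q ^ f) (e : pol N (x ^ m) 1 = 0) : pol N x 1 = 0 := by
  by_contra a0
  set a := pol N x 1 with ha
  have hq' : Prime (q : ℤ) := Nat.prime_iff_prime_int.1 hq
  obtain ⟨i, b, hb, hab⟩ := WfDvdMonoid.max_power_factor a0 hq'.irreducible
  have b0 : b ≠ 0 := by rintro rfl; exact hb (dvd_zero _)
  have cs := h.cauchy x 1
  rw [h.one, hx, ← ha, hab] at cs
  have q5 : (5 : ℤ) ≤ q := by exact_mod_cast h5
  have hi : 2 * i + 1 ≤ f := by
    by_contra hc
    obtain ⟨g, rfl⟩ := hf
    have h1 : (q : ℤ) ^ (2 * g + 1) * q ≤ (q ^ i) ^ 2 := by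
      rw [← pow_succ, ← pow_mul]
      exact pow_le_pow_right₀ (by omega) (by omega)
    have h2 : 1 ≤ b ^ 2 := by have := sq_pos_of_ne_zero b0; omega
    have h3 : (0 : ℤ) < q ^ (2 * g + 1) := by positivity
    have h4 : (0 : ℤ) < (q ^ i) ^ 2 := by positivity
    nlinarith
  obtain ⟨g, hg⟩ := Nat.exists_eq_add_of_le hi
  have hr : ∀ n, pol N (x ^ (n + 2)) 1 = a * pol N (x ^ (n + 1)) 1 - q ^ f * pol N (x ^ n) 1 := by
    intro n
    have : x ^ (n + 2) = (a : R) * x ^ (n + 1) - ((q : ℤ) ^ f : ℤ) * x ^ n := by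
      rw [pow_succ' x (n + 1), pow_succ' x n, ← mul_assoc, h.char, hx, sub_mul, mul_assoc]
    rw [this, h.pol_sub, h.pol_int, h.pol_int]
  have key : ∀ n, (∃ c : ℤ, pol N (x ^ n) 1 = (q ^ i) ^ n * c) ∧
      ∃ c : ℤ, pol N (x ^ (n + 1)) 1 = (q ^ i) ^ (n + 1) * (b ^ (n + 1) + q * c) := by
    intro n
    induction n with
    | zero => exact ⟨⟨_, by rw [pow_zero (_ : ℤ), one_mul]⟩, 0, by simp [← ha, hab]⟩
    | succ n ih =>
      obtain ⟨⟨c, hc⟩, d, hd⟩ := ih
      refine ⟨⟨_, hd⟩, b * d - q ^ g * c, ?_⟩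
      rw [hr, hc, hd, hab, hg]
      ring
  obtain ⟨n, rfl⟩ := hm
  obtain ⟨-, c, hc⟩ := key (2 * n)
  rw [e] at hc
  have h1 := (mul_eq_zero.1 hc.symm).resolve_left (by positivity)
  exact hb (hq'.dvd_of_dvd_pow (n := 2 * n + 1) ⟨-c, by linear_combination h1⟩)

end CompRing

end Pool.Agent.MP_c481b3_nt.H28
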