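import Pool.Agent.MP_c481b3_nt.H28.Ev

set_option autoImplicit false

namespace Pool.Agent.MP_c481b3_nt.H28

open Pool.Agent.MP_c481b3_nt.H81 Polynomial

section group
variable {k : Type*} [Field k] [DecidableEq k] {A B : k}

/-- a finite subgroup as a subgroup -/
def toSub {C : Finset (Pt A B)} (h : IsSub C) : AddSubgroup (Pt A B) :=
  AddSubgroup.ofSub C ⟨0, h.zero⟩ fun _ hP _ hQ => h.add hP (h.neg hQ)

lemma card_toSub {C : Finset (Pt A B)} (h : IsSub C) : Nat.card (toSub h) = C.card :=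
  Nat.subtype_card C fun _ => Iff.rfl

lemma card_dvd {C D : Finset (Pt A B)} (hC : IsSub C) (hD : IsSub D) (h : C ⊆ D) :
    C.card ∣ D.card := by
  rw [← card_toSub hC, ← card_toSub hD]
  exact AddSubgroup.card_dvd_of_le fun _ hP => h hP

lemma nsmul_mem_sub {C : Finset (Pt A B)} (h : IsSub C) {P : Pt A B} (hP : P ∈ C) (n : ℕ) :
    n • P ∈ C := nsmul_mem (S := toSub h) hP n

lemma zsmul_mem_sub {C : Finset (Pt A B)} (h : IsSub C) {P : Pt A B} (hP : P ∈ C) (n : ℤ) :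
    n • P ∈ C := zsmul_mem (K := toSub h) hP n

lemma isSub_inter {C D : Finset (Pt A B)} (hC : IsSub C) (hD : IsSub D) : IsSub (C ∩ D) :=
  ⟨Finset.mem_inter.2 ⟨hC.zero, hD.zero⟩, fun P hP Q hQ => Finset.mem_inter.2
    ⟨hC.sub P (Finset.mem_inter.1 hP).1 Q (Finset.mem_inter.1 hQ).1,
      hD.sub P (Finset.mem_inter.1 hP).2 Q (Finset.mem_inter.1 hQ).2⟩⟩

lemma card_pos_sub {C : Finset (Pt A B)} (h : IsSub C) : 0 < C.card :=
  Finset.card_pos.2 ⟨0, h.zero⟩

variable {G : Type*} [AddCommGroup G] [DecidableEq G]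

lemma isSub_ker (f : Pt A B →+ G) {C : Finset (Pt A B)} (h : IsSub C) :
    IsSub (C.filter fun P => f P = 0) :=
  ⟨Finset.mem_filter.2 ⟨h.zero, map_zero f⟩, fun P hP Q hQ => Finset.mem_filter.2
    ⟨h.sub P (Finset.mem_filter.1 hP).1 Q (Finset.mem_filter.1 hQ).1, by
      rw [map_sub, (Finset.mem_filter.1 hP).2, (Finset.mem_filter.1 hQ).2, sub_zero]⟩⟩

lemma fibre_eq (f : Pt A B →+ G) {C : Finset (Pt A B)} (h : IsSub C) {P : Pt A B} (hP : P ∈ C) :
    C.filter (fun Q => f Q = f P) = (C.filter fun Q => f Q = 0).image (P + ·) := by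
  ext Q
  simp only [Finset.mem_filter, Finset.mem_image]
  constructor
  · rintro ⟨h1, h2⟩
    exact ⟨Q - P, ⟨h.sub Q h1 P hP, by rw [map_sub, h2, sub_self]⟩, add_sub_cancel _ _⟩
  · rintro ⟨R, ⟨h1, h2⟩, rfl⟩
    exact ⟨h.add hP h1, by rw [map_add, h2, add_zero]⟩

lemma prod_hom {M : Type*} [CommMonoid M] (f : Pt A B →+ G) {C : Finset (Pt A B)} (h : IsSub C)
    (g : G → M) :
    ∏ P ∈ C, g (f P) = ∏ Q ∈ C.image f, g Q ^ (C.filter fun P => f P = 0).card := by
  rw [Finset.prod_comp]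
  refine Finset.prod_congr rfl fun Q hQ => ?_
  obtain ⟨P, hP, rfl⟩ := Finset.mem_image.1 hQ
  rw [fibre_eq f h hP, Finset.card_image_of_injective _ (add_right_injective P)]

lemma card_hom (f : Pt A B →+ G) {C : Finset (Pt A B)} (h : IsSub C) :
    C.card = (C.image f).card * (C.filter fun P => f P = 0).card := by
  have := prod_hom (M := ℕ) f h fun _ => 2
  rw [Finset.prod_const, Finset.prod_const, ← pow_mul, mul_comm] at this
  exact Nat.pow_right_injective le_rfl this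

/-- the multiples of a point -/
def gen (l : ℕ) (P : Pt A B) : Finset (Pt A B) := (Finset.range l).image (· • P)

lemma mem_gen {l : ℕ} (hl : l ≠ 0) {P Q : Pt A B} (hP : l • P = 0) :
    Q ∈ gen l P ↔ ∃ n : ℤ, n • P = Q := by
  simp only [gen, Finset.mem_image, Finset.mem_range]
  constructor
  · rintro ⟨n, -, rfl⟩
    exact ⟨n, natCast_zsmul _ _⟩
  · rintro ⟨n, rfl⟩
    have h0 : (0 : ℤ) < l := by omega
    have h1 := Int.emod_nonneg n h0.ne'
    have h2 := Int.emod_lt_of_pos n h0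
    refine ⟨(n % l).toNat, by omega, ?_⟩
    conv_rhs => rw [← Int.emod_add_mul_ediv n l, add_zsmul, mul_comm, mul_zsmul, natCast_zsmul, hP,
      zsmul_zero, add_zero]
    rw [← natCast_zsmul, Int.toNat_of_nonneg h1]

lemma isSub_gen {l : ℕ} (hl : l ≠ 0) {P : Pt A B} (hP : l • P = 0) : IsSub (gen l P) := by
  refine ⟨(mem_gen hl hP).2 ⟨0, zero_zsmul _⟩, fun Q hQ R hR => ?_⟩
  obtain ⟨m, rfl⟩ := (mem_gen hl hP).1 hQ
  obtain ⟨n, rfl⟩ := (mem_gen hl hP).1 hR
  exact (mem_gen hl hP).2 ⟨m - n, by rw [sub_zsmul, sub_eq_add_neg]⟩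

lemma self_mem_gen {l : ℕ} (hl : l ≠ 0) {P : Pt A B} (hP : l • P = 0) : P ∈ gen l P :=
  (mem_gen hl hP).2 ⟨1, one_zsmul _⟩

lemma card_gen {l : ℕ} (hl : l.Prime) {P : Pt A B} (h0 : P ≠ 0) (hP : l • P = 0) :
    (gen l P).card = l := by
  have := Fact.mk hl
  have ho : addOrderOf P = l := addOrderOf_eq_prime hP h0
  rw [gen, Finset.card_image_of_injOn, Finset.card_range]
  intro i hi j hj e
  have := nsmul_eq_nsmul_iff_modEq.1 e
  rw [ho] at this
  exact this.eq_of_lt_of_lt (by simpa using hi) (by simpa using hj)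

lemma eq_gen {l : ℕ} (hl : l.Prime) {C : Finset (Pt A B)} (hC : IsSub C) (hc : C.card = l)
    {P : Pt A B} (h0 : P ≠ 0) (hP : P ∈ C) : C = gen l P := by
  have h1 : l • P = 0 := hc ▸ hC.nsmul_card hP
  refine (Finset.eq_of_subset_of_card_le (fun Q hQ => ?_) (by rw [card_gen hl h0 h1, hc])).symm
  obtain ⟨n, rfl⟩ := (mem_gen hl.ne_zero h1).1 hQ
  exact zsmul_mem_sub hC hP n

lemma eq_of_mem {l : ℕ} (hl : l.Prime) {C D : Finset (Pt A B)} (hC : IsSub C) (hc : C.card = l)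
    (hD : IsSub D) (hd : D.card = l) {P : Pt A B} (h0 : P ≠ 0) (h1 : P ∈ C) (h2 : P ∈ D) :
    C = D := by rw [eq_gen hl hC hc h0 h1, eq_gen hl hD hd h0 h2]

open Classical in
/-- the points killed by `n` -/
noncomputable def tors (A B : k) (n : ℕ) : Finset (Pt A B) :=
  if h : {P : Pt A B | n • P = 0}.Finite then h.toFinset else ∅

open Classical in
/-- the subgroups of order `n` -/
noncomputable def subs (A B : k) (n : ℕ) : Finset (Finset (Pt A B)) :=
  (tors A B n).powerset.filter fun C => IsSub C ∧ C.card = n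

end group

/-- a good curve in characteristic prime to `6 n` -/
structure Tm {k : Type*} [Field k] (A B : k) (n : ℕ) : Prop where
  good : Good A B
  three : (3 : k) ≠ 0
  ne : (n : k) ≠ 0

lemma Tm.pos {k : Type*} [Field k] {A B : k} {n : ℕ} (t : Tm A B n) : n ≠ 0 := by
  rintro rfl; exact t.ne Nat.cast_zero

lemma Tm.up {L κ : Type*} [Field L] [Field κ] {π : Plc L κ} {A B : L} {A' B' : κ} {n : ℕ}
    (t : Tm A' B' n) (r : Rd π A B A' B') : Tm A B n :=
  ⟨rd_good r, (Ev.ofNat π 3).ne_zero t.three, (Ev.nat π n).ne_zero t.ne⟩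

lemma Tm.other {k : Type*} [Field k] {A B A₁ B₁ : k} {n : ℕ} (t : Tm A B n) (h : Good A₁ B₁) :
    Tm A₁ B₁ n := ⟨h, t.three, t.ne⟩

section closed
variable {k : Type*} [Field k] [DecidableEq k] [IsAlgClosed k] {A B : k} {n : ℕ} (t : Tm A B n)
include t

lemma Tm.spec : (∀ P, P ∈ tors A B n ↔ n • P = 0) ∧ (tors A B n).card = n ^ 2 := by
  obtain ⟨C, h1, h2⟩ := torsion_card t.good t.three (t := n) (by simpa using t.ne)
  simp only [natCast_zsmul] at h1
  have hf : {P : Pt A B | n • P = 0}.Finite := C.finite_toSet.subset fun P hP => (h1 P).2 hP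
  have : tors A B n = C := by
    ext P
    rw [tors, dif_pos hf, h1, Set.Finite.mem_toFinset]
    rfl
  rw [this]
  exact ⟨h1, by exact_mod_cast h2⟩

lemma Tm.mem {P : Pt A B} : P ∈ tors A B n ↔ n • P = 0 := t.spec.1 P

lemma Tm.card : (tors A B n).card = n ^ 2 := t.spec.2

lemma Tm.sub : IsSub (tors A B n) :=
  ⟨t.mem.2 (nsmul_zero n), fun P hP Q hQ => t.mem.2 (by
    rw [nsmul_sub, t.mem.1 hP, t.mem.1 hQ, sub_zero])⟩

lemma Tm.subset {C : Finset (Pt A B)} (h : IsSub C) (hc : C.card = n) : C ⊆ tors A B n :=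
  fun _ hP => t.mem.2 (hc ▸ h.nsmul_card hP)

lemma Tm.mem_subs {C : Finset (Pt A B)} : C ∈ subs A B n ↔ IsSub C ∧ C.card = n := by
  classical
  rw [subs, Finset.mem_filter, Finset.mem_powerset]
  exact ⟨fun h => h.2, fun h => ⟨t.subset h.1 h.2, h⟩⟩

lemma Tm.card_subs (hn : n.Prime) : (subs A B n).card = n + 1 := by
  have h1 := Finset.card_eq_sum_card_fiberwise (s := (tors A B n).erase 0) (t := subs A B n)
    (f := gen n) (by
      intro P hP
      rw [Finset.mem_coe, Finset.mem_erase, t.mem] at hP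
      exact t.mem_subs.2 ⟨isSub_gen t.pos hP.2, card_gen hn hP.1 hP.2⟩)
  rw [Finset.card_erase_of_mem t.sub.zero, t.card, Finset.sum_congr rfl (g := fun _ => n - 1),
    Finset.sum_const, smul_eq_mul] at h1
  · obtain ⟨m, rfl⟩ : ∃ m, n = m + 2 := ⟨n - 2, by have := hn.two_le; omega⟩
    have e : (m + 2) ^ 2 - 1 = (m + 2 + 1) * (m + 1) := by
      rw [show (m + 2) ^ 2 = (m + 2 + 1) * (m + 1) + 1 by ring, Nat.add_sub_cancel]
    rw [e] at h1
    exact (Nat.eq_of_mul_eq_mul_right m.succ_pos h1).symm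
  · intro C hC
    obtain ⟨c1, c2⟩ := t.mem_subs.1 hC
    rw [← c2, ← Finset.card_erase_of_mem c1.zero]
    congr 1
    ext P
    simp only [Finset.mem_filter, Finset.mem_erase, c2, t.mem]
    constructor
    · rintro ⟨⟨a, b⟩, rfl⟩
      exact ⟨a, self_mem_gen t.pos b⟩
    · rintro ⟨a, b⟩
      exact ⟨⟨a, t.mem.1 (t.subset c1 c2 b)⟩, (eq_gen hn c1 c2 a b).symm⟩

end closed

section red
variable {L κ : Type*} [Field L] [Field κ] [DecidableEq L] [DecidableEq κ] {π : Plc L κ}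
  {A B : L} {A' B' : κ} {n : ℕ} (r : Rd π A B A' B')

lemma red_tors_ne (hn : (n : κ) ≠ 0) {P : Pt A B} (h0 : P ≠ 0) (hP : n • P = 0) : r.red P ≠ 0 := by
  have := torsion_int π.O.valuation (rdA r).v_le (rdB r).v_le hP
  rw [map_mul, (Ev.nat π n).v_one hn, one_mul, π.O.valuation_le_one_iff] at this
  exact r.red_ne h0 this

lemma red_sub_ne {C : Finset (Pt A B)} (hC : IsSub C) (hn : (C.card : κ) ≠ 0) :
    ∀ P ∈ C.erase 0, r.red P ≠ 0 := fun _ hP =>
  red_tors_ne r hn (Finset.mem_erase.1 hP).1 (hC.nsmul_card (Finset.mem_erase.1 hP).2)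

lemma red_inj (hn : (n : κ) ≠ 0) {P Q : Pt A B} (hP : n • P = 0) (hQ : n • Q = 0)
    (e : r.red P = r.red Q) : P = Q := by
  by_contra h0
  exact red_tors_ne r hn (sub_ne_zero.2 h0) (by rw [nsmul_sub, hP, hQ, sub_zero])
    (by rw [map_sub, e, sub_self])

lemma card_red {C : Finset (Pt A B)} (hC : IsSub C) (hn : (C.card : κ) ≠ 0) :
    (C.image r.red).card = C.card :=
  Finset.card_image_of_injOn (injOn_of_ne r.red hC (red_sub_ne r hC hn))

variable [IsAlgClosed L] [IsAlgClosed κ] (t : Tm A' B' n)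
include t

lemma image_tors : (tors A B n).image r.red = tors A' B' n := by
  refine Finset.eq_of_subset_of_card_le (fun Q hQ => ?_) ?_
  · obtain ⟨P, hP, rfl⟩ := Finset.mem_image.1 hQ
    rw [t.mem, ← map_nsmul, (t.up r).mem.1 hP, map_zero]
  · rw [Finset.card_image_of_injOn fun P hP Q hQ =>
      red_inj r t.ne ((t.up r).mem.1 hP) ((t.up r).mem.1 hQ), t.card, (t.up r).card]

lemma exists_lift {Q : Pt A' B'} (hQ : n • Q = 0) : ∃ P : Pt A B, n • P = 0 ∧ r.red P = Q := by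
  have := t.mem.2 hQ
  rw [← image_tors r t] at this
  obtain ⟨P, hP, e⟩ := Finset.mem_image.1 this
  exact ⟨P, (t.up r).mem.1 hP, e⟩

lemma red_subs {C : Finset (Pt A B)} (hC : C ∈ subs A B n) : C.image r.red ∈ subs A' B' n := by
  obtain ⟨c1, c2⟩ := (t.up r).mem_subs.1 hC
  exact t.mem_subs.2 ⟨isSub_image _ c1, by rw [card_red r c1 (c2 ▸ t.ne), c2]⟩

omit [IsAlgClosed κ] in
lemma subs_inj : Set.InjOn (fun C : Finset (Pt A B) => C.image r.red) (subs A B n) := by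
  have key : ∀ C ∈ subs A B n, ∀ D ∈ subs A B n, C.image r.red = D.image r.red → C ⊆ D := by
    intro C hC D hD e P hP
    obtain ⟨c1, c2⟩ := (t.up r).mem_subs.1 hC
    obtain ⟨d1, d2⟩ := (t.up r).mem_subs.1 hD
    obtain ⟨Q, hQ, e'⟩ := Finset.mem_image.1 (e ▸ Finset.mem_image_of_mem r.red hP)
    rwa [← red_inj r t.ne (d2 ▸ d1.nsmul_card hQ) (c2 ▸ c1.nsmul_card hP) e']
  exact fun C hC D hD e => Finset.Subset.antisymm (key C hC D hD e) (key D hD C hC e.symm)

lemma exists_lift_sub {C' : Finset (Pt A' B')} (h : C' ∈ subs A' B' n) :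
    ∃ C ∈ subs A B n, C.image r.red = C' := by
  obtain ⟨c1, c2⟩ := t.mem_subs.1 h
  have t' := t.up r
  set C := (tors A B n).filter fun P => r.red P ∈ C' with hC
  have h1 : IsSub C := ⟨Finset.mem_filter.2 ⟨t'.sub.zero, by simpa using c1.zero⟩,
    fun P hP Q hQ => Finset.mem_filter.2
      ⟨t'.sub.sub P (Finset.mem_filter.1 hP).1 Q (Finset.mem_filter.1 hQ).1, by
        rw [map_sub]; exact c1.sub _ (Finset.mem_filter.1 hP).2 _ (Finset.mem_filter.1 hQ).2⟩⟩
  have h2 : C.image r.red = C' := by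
    ext Q
    rw [Finset.mem_image]
    constructor
    · rintro ⟨P, hP, rfl⟩
      exact (Finset.mem_filter.1 hP).2
    · intro hQ
      obtain ⟨P, h3, rfl⟩ := exists_lift r t (c2 ▸ c1.nsmul_card hQ)
      exact ⟨P, Finset.mem_filter.2 ⟨t'.mem.2 h3, hQ⟩, rfl⟩
  refine ⟨C, t'.mem_subs.2 ⟨h1, ?_⟩, h2⟩
  rw [← c2, ← h2, Finset.card_image_of_injOn fun P hP Q hQ => red_inj r t.ne
    (t'.mem.1 (Finset.mem_filter.1 hP).1) (t'.mem.1 (Finset.mem_filter.1 hQ).1)]

lemma image_subs : (subs A B n).image (fun C => C.image r.red) = subs A' B' n := by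
  ext C'
  rw [Finset.mem_image]
  exact ⟨fun ⟨C, hC, e⟩ => e ▸ red_subs r t hC, exists_lift_sub r t⟩

include r in
lemma ev_prod_dl : Ev π (∏ C ∈ subs A B n, (n : L) ^ 6 * dl C)
    (∏ C ∈ subs A' B' n, (n : κ) ^ 6 * dl C) := by
  rw [← image_subs r t, Finset.prod_image (subs_inj r t)]
  refine Ev.prod _ fun C hC => ?_
  obtain ⟨c1, c2⟩ := (t.up r).mem_subs.1 hC
  exact ((Ev.nat π n).pow 6).mul (ev_dl r c1 (red_sub_ne r c1 (c2 ▸ t.ne)))

end red

end Pool.Agent.MP_c481b3_nt.H28
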