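import Pool.Agent.MP_c481b3_nt.H28.Spec
import Pool.Agent.MP_c481b3_nt.H28.Tors

set_option autoImplicit false

namespace Pool.Agent.MP_c481b3_nt.H28

open Pool.Agent.MP_c481b3_nt.H81 Polynomial

/-- `G` is a universal polynomial for the first coordinates of the points killed by `n` -/
def IsUnivX (n : ℕ) (G : ℤ[X][X]) : Prop :=
  ∀ (L : Type) [Field L] [DecidableEq L] [IsAlgClosed L] [CharZero L] (A B : L), Good A B →
    A ≠ 0 → B ≠ 0 → G.map (eval₂RingHom (Int.castRingHom L) (A ^ 3 / B ^ 2))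
      = ∏ x ∈ ((tors A B n).erase 0).image xc, (X - C (n * x * (A / B)))

/-- `Ψ` is a universal polynomial for the product over the subgroups of order `n` -/
def IsUnivPsi (n : ℕ) (Ψ : ℤ[X]) : Prop :=
  ∀ (L : Type) [Field L] [DecidableEq L] [IsAlgClosed L] [CharZero L] (A B : L), Good A B →
    A ≠ 0 → B ≠ 0 → aeval (A ^ 3 / B ^ 2) Ψ
      = ∏ D ∈ subs A B n, ((n : L) ^ 6 * dl D * (A / B) ^ 12)

/-- existence of the universal polynomials -/
def Univ : Prop := ∀ n : ℕ, n ≠ 0 → (∃ G, IsUnivX n G) ∧ ∃ Ψ, IsUnivPsi n Ψ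

/-- specialisation of the variable -/
def UnivPlace : Prop :=
  ∀ (L : Type) [Field L] [IsAlgClosed L] [CharZero L] (w : L),
    ∃ π : Plc (LL ℚ) L, ∀ g : ℚ[X], Ev π (aL (ap g)) (aeval w g)

/-- the value group of the field of rational functions at a specialisation -/
def UnivDisc : Prop :=
  ∀ (L : Type) [Field L] [CharZero L] (w : L), IsIntegral ℚ w →
    ∀ π : Plc (LL ℚ) L, (∀ g : ℚ[X], Ev π (aL (ap g)) (aeval w g)) →
      Discrete π.O (aL (k := ℚ)).fieldRange (aL (ap (minpoly ℚ w))) ∧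
      ∀ (g : ℚ[X]) (n : ℕ), minpoly ℚ w ^ n ∣ g → ¬minpoly ℚ w ^ (n + 1) ∣ g →
        π.O.valuation (aL (ap g)) = π.O.valuation (aL (ap (minpoly ℚ w))) ^ n

end Pool.Agent.MP_c481b3_nt.H28
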