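import Pool.Agent.MP_c481b3_nt.H28.Dual
import Pool.Agent.MP_c481b3_nt.H28.Spec3

set_option autoImplicit false

namespace Pool.Agent.MP_c481b3_nt.H28

open Pool.Agent.MP_c481b3_nt.H81 Polynomial

lemma vd_of_dl {k : Type*} [Field k] [DecidableEq k] [IsAlgClosed k] {A B : k} (hG : Good A B)
    (h3 : (3 : k) ≠ 0) (a0 : A ≠ 0) (b0 : B ≠ 0) {D : Finset (Pt A B)} (hD : IsSub D)
    (ho : Odd D.card) (h : dl D = 0) : ∃ u, VD D u A B := by
  have g := good_velu hG h3 hD ho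
  rw [dl, sub_eq_zero] at h
  have a1 : vA D ≠ 0 := fun e => g.disc (by
    rw [e] at h
    have : vB D = 0 := by simpa [a0] using h.symm
    rw [e, this]; simp)
  have b1 : vB D ≠ 0 := fun e => a1 (by
    rw [e] at h
    simpa [b0] using h)
  obtain ⟨u, hu⟩ := IsAlgClosed.exists_pow_nat_eq (vB D * A / (vA D * B)) two_pos
  have u0 : u ≠ 0 := by
    rintro rfl
    exact div_ne_zero (mul_ne_zero b1 a0) (mul_ne_zero a1 b0) (by simpa using hu.symm)
  refine ⟨u, hG, hD, u0, ?_, ?_, hG⟩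
  · rw [show u ^ 4 = (u ^ 2) ^ 2 by ring, hu]
    field_simp
    linear_combination h
  · rw [show u ^ 6 = (u ^ 2) ^ 3 by ring, hu]
    field_simp
    linear_combination h

lemma VD.dl_eq {k : Type*} [Field k] [DecidableEq k] {A B u : k} {D : Finset (Pt A B)}
    (d : VD D u A B) : dl D = 0 := by rw [dl, d.hA, d.hB]; ring

lemma ev_eval₂ {L κ : Type*} [Field L] [Field κ] {π : Plc L κ} (g : ℤ[X]) {a : L} {b : κ}
    (h : Ev π a b) : Ev π (aeval a g) (aeval b g) := by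
  induction g using Polynomial.induction_on with
  | C c => simpa using Ev.int π c
  | add p q hp hq => simpa using hp.add hq
  | monomial n c _ => simpa using (Ev.int π c).mul (h.pow (n + 1))

lemma v_aeval_sub {L : Type*} [Field L] (O : ValuationSubring L) (g : ℤ[X]) {a b : L} (ha : a ∈ O)
    (hb : b ∈ O) : O.valuation (aeval a g - aeval b g) ≤ O.valuation (a - b) := by
  lift a to O using ha
  lift b to O using hb
  obtain ⟨c, hc⟩ := sub_dvd_eval_sub a b (g.map (algebraMap ℤ O))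
  rw [eval_map_algebraMap, eval_map_algebraMap] at hc
  have := congrArg (algebraMap O L) hc
  rw [map_sub, map_mul, map_sub, ← aeval_algebraMap_apply, ← aeval_algebraMap_apply] at this
  change aeval (a : L) g - aeval (b : L) g = (a - b) * c at this
  rw [this, map_mul]
  exact mul_le_of_le_one_right' (O.valuation_le_one c)

variable {L κ : Type} [Field L] [Field κ] [DecidableEq L] [DecidableEq κ] [IsAlgClosed L]
  {π : Plc L κ} {A B : L} {A' B' : κ} (r : Rd π A B A' B')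

omit [DecidableEq L] [DecidableEq κ] [IsAlgClosed L] in
include r in
lemma rd_mul {ρ : L} (h : π.O.valuation (ρ - 1) < 1) : Rd π (A * ρ) (B * ρ) A' B' := by
  have h1 : Ev π ρ 1 := by simpa using (Ev.of_lt h).add (Ev.one π)
  exact rd_of (by simpa using (rdA r).mul h1) (by simpa using (rdB r).mul h1) r.good

/-- a quotient map of the reduced curve onto itself lifts to a map onto a nearby curve -/
theorem lift_vd (a0 : A' ≠ 0) (b0 : B' ≠ 0) {D : Finset (Pt A B)} (hD : IsSub D)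
    (hc : (D.card : κ) ≠ 0) {u' : κ} (d : VD (D.image r.red) u' A' B') :
    ∃ u ρ : L, Ev π u u' ∧ π.O.valuation (ρ - 1) = π.O.valuation (dl D) ∧
      π.O.valuation (ρ - 1) < 1 ∧ VD D u (A * ρ) (B * ρ) := by
  have hf := red_sub_ne r hD hc
  have e1 := ev_vA r hD hf
  have e2 := ev_vB r hD hf
  have e3 := ev_dl r hD hf
  rw [d.hA] at e1
  rw [d.hB] at e2
  rw [d.dl_eq] at e3
  have n1 := mul_ne_zero (pow_ne_zero 4 d.hu) a0
  have n2 := mul_ne_zero (pow_ne_zero 6 d.hu) b0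
  have hu' := d.hu
  have e4 := (e2.mul (rdA r)).div (e1.mul (rdB r)) (mul_ne_zero n1 b0)
  rw [show u' ^ 6 * B' * A' / (u' ^ 4 * A' * B') = u' ^ 2 by field_simp] at e4
  obtain ⟨u, hu, e5⟩ : ∃ u, u ^ 2 = vB D * A / (vA D * B) ∧ Ev π u u' := by
    obtain ⟨u, hu⟩ := IsAlgClosed.exists_pow_nat_eq (vB D * A / (vA D * B)) two_pos
    have m := Ev.of_mem (π.mem_of_pow two_ne_zero (hu ▸ e4.mem))
    rcases sq_eq_sq_iff_eq_or_eq_neg.1 ((m.pow 2).unique (hu ▸ e4)) with e | e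
    · exact ⟨u, hu, e ▸ m⟩
    · exact ⟨-u, by rw [neg_sq, hu], m.neg.congr rfl (by rw [e, neg_neg])⟩
  have a1 := (rdA r).ne_zero a0
  have b1 := (rdB r).ne_zero b0
  have a2 := e1.ne_zero n1
  have b2 := e2.ne_zero n2
  have e6 : π.O.valuation (vA D ^ 3 * B ^ 2 / (vB D ^ 2 * A ^ 3) - 1) = π.O.valuation (dl D) := by
    rw [show vA D ^ 3 * B ^ 2 / (vB D ^ 2 * A ^ 3) - 1 = dl D / (vB D ^ 2 * A ^ 3) by
      rw [dl]; field_simp, map_div₀,
      ((e2.pow 2).mul ((rdA r).pow 3)).v_one (mul_ne_zero (pow_ne_zero 2 n2) (pow_ne_zero 3 a0)),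
      div_one]
  have e7 := e6.trans_lt e3.v_lt
  refine ⟨u, _, e5, e6, e7, rd_good r, hD, e5.ne_zero hu', ?_, ?_, rd_good (rd_mul r e7)⟩
  · rw [show u ^ 4 = (u ^ 2) ^ 2 by ring, hu]; field_simp
  · rw [show u ^ 6 = (u ^ 2) ^ 3 by ring, hu]; field_simp

/-- torsion points of nearby curves with the same reduction are congruent -/
theorem tors_cong [CharZero L] (a0 : A' ≠ 0) (b0 : B' ≠ 0) {n : ℕ} (t : Tm A' B' n) {G : ℤ[X][X]}
    (hG : IsUnivX n G) {ρ : L} (h : π.O.valuation (ρ - 1) < 1) {P : Pt A B}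
    {Q : Pt (A * ρ) (B * ρ)} (hP : n • P = 0) (hQ : n • Q = 0)
    (e : r.red P = (rd_mul r h).red Q) :
    π.O.valuation (xc P - xc Q) ≤ π.O.valuation (ρ - 1) := by
  have r₁ := rd_mul r h
  by_cases p0 : P = 0
  · have : Q = 0 := by_contra fun q0 => red_tors_ne r₁ t.ne q0 hQ (by rw [← e, p0, map_zero])
    simp [p0, this]
  have p1 := red_tors_ne r t.ne p0 hP
  have q1 : r₁.red Q ≠ 0 := e ▸ p1
  have a1 := (rdA r).ne_zero a0
  have b1 := (rdB r).ne_zero b0
  have h1 : Ev π ρ 1 := by simpa using (Ev.of_lt h).add (Ev.one π)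
  have ρ0 := h1.ne_zero one_ne_zero
  have g1 := hG L A B (rd_good r) a1 b1
  have g2 := hG L _ _ (rd_good r₁) (mul_ne_zero a1 ρ0) (mul_ne_zero b1 ρ0)
  rw [mul_div_mul_right _ _ ρ0, show (A * ρ) ^ 3 / (B * ρ) ^ 2 = A ^ 3 / B ^ 2 * ρ by field_simp]
    at g2
  have c1 : Ev π (n * (A / B)) (n * (A' / B')) := (Ev.nat π n).mul ((rdA r).div (rdB r) b0)
  have c0 : (n : κ) * (A' / B') ≠ 0 := mul_ne_zero t.ne (div_ne_zero a0 b0)
  have t1 : Ev π (A ^ 3 / B ^ 2) _ := ((rdA r).pow 3).div ((rdB r).pow 2) (pow_ne_zero 2 b0)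
  set z := n * xc Q * (A / B) with hz
  have z1 : z ∈ π.O := by rw [hz, mul_right_comm]; exact mul_mem c1.mem (ev_xc r₁ q1).mem
  have k1 := congrArg (eval z) g1
  have k2 := congrArg (eval z) g2
  rw [eval_prod, Finset.prod_eq_zero (Finset.mem_image_of_mem xc (Finset.mem_erase.2
    ⟨(red_mem r₁ q1).1, (t.up r₁).mem.2 hQ⟩)) (by simp [hz])] at k2
  have m := Finset.mem_image_of_mem xc (Finset.mem_erase.2 ⟨p0, (t.up r).mem.2 hP⟩)
  rw [eval_prod, ← Finset.mul_prod_erase _ _ m] at k1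
  have v1 : π.O.valuation (∏ x ∈ (((tors A B n).erase 0).image xc).erase (xc P),
      eval z (X - C (n * x * (A / B)))) = 1 := by
    rw [map_prod]
    refine Finset.prod_eq_one fun x hx => ?_
    obtain ⟨x1, x2⟩ := Finset.mem_erase.1 hx
    obtain ⟨R, hR, rfl⟩ := Finset.mem_image.1 x2
    obtain ⟨r0, r1⟩ := Finset.mem_erase.1 hR
    have r2 := (t.up r).mem.1 r1
    have r3 := red_tors_ne r t.ne r0 r2
    rw [show eval z (X - C (n * xc R * (A / B))) = n * (A / B) * (xc Q - xc R) by simp [hz]; ring]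
    refine (c1.mul ((ev_xc r₁ q1).sub (ev_xc r r3))).v_one (mul_ne_zero c0 (sub_ne_zero.2 ?_))
    rw [← e]
    intro e'
    rcases eq_or_neg p1 r3 e' with e' | e'
    · exact x1 (by rw [red_inj r t.ne hP r2 e'])
    · rw [← map_neg] at e'
      exact x1 (by rw [red_inj r t.ne hP (by rw [smul_neg, r2, neg_zero]) e', xc_neg])
  have v2 := congrArg π.O.valuation k1
  rw [map_mul, v1, mul_one,
    show eval z (X - C (n * xc P * (A / B))) = -(n * (A / B) * (xc P - xc Q)) by simp [hz]; ring,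
    Valuation.map_neg, map_mul, c1.v_one c0, one_mul] at v2
  rw [← v2, ← sub_zero (eval z _), ← k2, eval_map, eval_map, eval₂_eq_sum_range,
    eval₂_eq_sum_range, ← Finset.sum_sub_distrib]
  refine Valuation.map_sum_le _ fun i _ => ?_
  rw [← sub_mul, map_mul, map_pow]
  refine (mul_le_of_le_one_right' (pow_le_one' ((π.O.valuation_le_one_iff z).2 z1) i)).trans ?_
  refine (v_aeval_sub π.O (G.coeff i) t1.mem (mul_mem t1.mem h1.mem)).trans ?_
  rw [show A ^ 3 / B ^ 2 - A ^ 3 / B ^ 2 * ρ = -(A ^ 3 / B ^ 2 * (ρ - 1)) by ring,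
    Valuation.map_neg, map_mul]
  exact mul_le_of_le_one_left' t1.v_le

end Pool.Agent.MP_c481b3_nt.H28
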