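import Pool.Agent.MP_c481b3_nt.H28.BaseC

set_option autoImplicit false

namespace Pool.Agent.MP_c481b3_nt.H28

open Pool.Agent.MP_c481b3_nt.H81 Polynomial IsLocalRing

variable {L : Type} [Field L] [DecidableEq L] [IsAlgClosed L] [CharZero L]

lemma zz_gal {D l c : ℕ} {s : L} {x : Ed L} (b : Bs D l c s x) (hl : l.Prime) (h2 : l ≠ 2)
    {R : Finset (L × L × L)} (σ : L ≃+* L) (gal : ∀ e ∈ R, (σ e.1, σ e.2.1, σ e.2.2) ∈ R)
    (h : ∀ t ∈ ({x.A, x.B} ∪ (insert x.P (insert x.Q x.C)).image xc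
      ∪ (insert x.P (insert x.Q x.C)).image yc : Finset L), σ t = t) (T : ℕ) :
    σ (zz l R x T) = zz l R x T := by
  have r := rd_triv (σ : L →+* L) (h x.A (by simp)) (h x.B (by simp)) b.ok.tm.good
  have fx : ∀ P ∈ insert x.P (insert x.Q x.C), r.red P = P := fun P hP => by
    by_cases p0 : P = 0
    · rw [p0, map_zero]
    · exact red_eq r p0 p0 ((ev_triv _ _).congr rfl (h _ (Finset.mem_union_left _
        (Finset.mem_union_right _ (Finset.mem_image_of_mem _ hP))))) ((ev_triv _ _).congr rfl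
        (h _ (Finset.mem_union_right _ (Finset.mem_image_of_mem _ hP))))
  have rd : Red (trivP (σ : L →+* L)) x x := ⟨r, fx _ (by simp), fx _ (by simp),
    (Finset.image_congr fun P hP => fx P (by simp [Finset.mem_coe.1 hP])).trans Finset.image_id⟩
  have inj : Function.Injective fun e : L × L × L => (σ e.1, σ e.2.1, σ e.2.2) :=
    fun e e' h => by
      simp only [Prod.mk.injEq, EmbeddingLike.apply_eq_iff_eq] at h
      exact Prod.ext h.1 (Prod.ext h.2.1 h.2.2)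
  have im : R.image (fun e => (σ e.1, σ e.2.1, σ e.2.2)) = R :=
    Finset.eq_of_subset_of_card_le (Finset.image_subset_iff.2 gal)
      (Finset.card_image_of_injective _ inj).ge
  refine (ev_triv (σ : L →+* L) _).unique (UL_red hl h2 rd b.ok b.ok T _ _ fun x' y' _ r2 r3 => ?_)
  refine (Ev.prod _ fun e _ => (ev_triv (σ : L →+* L) (mu3 e)).sub
    (r3.mu (r2.two hl h2 b.ok b.two) (r2.ok hl h2 b.ok).hQ)).congr rfl ?_
  conv_rhs => rw [← im, Finset.prod_image inj.injOn]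
  simp [mu3]

variable [Algebra.IsAlgebraic ℚ L] {A B : ℤ} {R : Finset (L × L × L)} {D l c : ℕ}

omit [DecidableEq L] [IsAlgClosed L] in
lemma at2_of (hR : ∀ e ∈ R, Rt (A : L) (B : L) e.1 e.2.1 e.2.2) (hl : l.Prime) (h2 : l ≠ 2)
    (O : ValuationSubring L) {p : ℕ} [Fact p.Prime] [CharP (ResidueField O) p] (h5 : 5 ≤ p)
    (hΔ : ¬(p : ℤ) ∣ (Wc A B).Δ) (d0 : ¬p ∣ D) (l0 : p ≠ l) (θ : L ≃+* L) :
    At2 (twP (resPlc O) θ) p D l A B R :=
  ⟨h5, res_alg O p, (sj_res O).tw θ, good_int p hΔ, hR,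
    fun e => d0 ((CharP.cast_eq_zero_iff _ p _).1 e), fun e => l0 ((Nat.prime_dvd_prime_iff_eq
      Fact.out hl).1 ((CharP.cast_eq_zero_iff _ p _).1 e)), hl, h2⟩

variable {O : ValuationSubring L} {p : ℕ} [Fact p.Prime] [CharP (ResidueField O) p]
  [DecidableEq (ResidueField O)] [IsAlgClosed (ResidueField O)]
  [DecidableEq (RatFunc (ResidueField O))] [DecidableEq (LL (ResidueField O))]

lemma exists_base (hD : Deuring) (hG : GoodRed) (a : At2 (resPlc O) p D l A B R) (D4 : D % 4 = 3)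
    (Dp : D < 4 * p) (sq : IsSquare (-(D : ZMod p))) {χ : EE a.good}
    (c1 : χ * χ = -(D : EE a.good)) (c0 : cE _ χ ≠ 0) {e : L × L × L} (he : e ∈ R)
    (h : OrE χ (pt _ _ ((resPlc O).ev e.1) 0) (c • pt _ _ ((resPlc O).ev e.2.1) 0)) :
    ∃ s x, Bs D l c s x ∧ Ev (resPlc O) s (cE _ χ) ∧
      Ev (resPlc O) x.mu ((resPlc O).ev (mu3 e)) := by
  have h3 := a.three
  obtain ⟨⟨Ψ, hΨ, Ψ0⟩, A₀, B₀, r, C, u, d, rfl, hu⟩ := hD L O p a.five _ _ a.good D ⟨χ, c1, c0⟩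
    D4 Dp (fun e => a.d0 ((CharP.cast_eq_zero_iff _ p _).2 e)) sq
  obtain ⟨s, d, hs, s1, s2⟩ : ∃ s, VD C s A₀ B₀ ∧ s ^ 2 = -C.card ∧ Ev (resPlc O) s (cE _ χ) ∧
      ∀ P, χ.1 (r.red P) = r.red (vm C s A₀ B₀ P) := by
    obtain ⟨ψ, k1, k2, k3, k4⟩ := cm_red a.sj r h3 d hu a.d0
    rcases pm_of_sq p h3 a.alg a.good c1 k1 c0 k3 a.d0 sq with rfl | rfl
    · exact ⟨u, d, hu, k2, k4⟩
    · refine ⟨-u, d.neg_u, by rw [neg_sq, hu], by simpa using k2.neg, fun P => ?_⟩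
      rw [d.vm_neg_u, map_neg, ← k4, EE_neg, neg_neg]
  obtain ⟨Z', z1, z2⟩ := h
  have rt := KrA.rt_red a.rd (a.rt e he)
  obtain ⟨t1, t2, t3⟩ := rt.two a.good
  obtain ⟨t4, t5, t6⟩ := rt.rot.two a.good
  have n2 : ((2 : ℕ) : ResidueField O) ≠ 0 := by simpa using a.good.two
  have n4 : ((2 * 2 : ℕ) : ResidueField O) ≠ 0 := by rw [Nat.cast_mul]; exact mul_ne_zero n2 n2
  obtain ⟨Z, z3, rfl⟩ := exists_lift r ⟨a.good, h3, n4⟩ (Q := Z') (by rw [mul_nsmul, z1, t3])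
  obtain ⟨Q, q1, q2⟩ := exists_lift r ⟨a.good, h3, n2⟩ t6
  have p2 : r.red (2 • Z) = pt _ _ ((resPlc O).ev e.1) 0 := by rw [map_nsmul, z1]
  have ex := ev_xc r (p2 ▸ t1)
  have eq := ev_xc r (q2 ▸ t4)
  rw [p2, t2] at ex
  rw [q2, t5] at eq
  have ne := sub_ne_zero.2 (rt.ne a.good).1
  have G := rd_good r
  have l3 : (3 : L) ≠ 0 := three_ne_zero
  obtain ⟨w, hw⟩ := IsAlgClosed.exists_pow_nat_eq (xc (2 • Z) - xc Q) two_pos
  have x0 := (ex.sub eq).ne_zero ne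
  have w0 : w ≠ 0 := fun z => x0 (by rw [← hw, z]; ring)
  have G1 : Good (A₀ / w ^ 4) (B₀ / w ^ 6) := ⟨two_ne_zero, fun z => G.disc (by
    field_simp at z; linear_combination z)⟩
  have i := vd_unit G G1 w0 (by field_simp) (by field_simp)
  obtain ⟨d1, d2, d3⟩ := VD.conj l3 i d
  have t := tm_char G1 a.prime.ne_zero
  obtain ⟨C₀, hC⟩ := Finset.card_pos.1 (show 0 < (subs (A₀ / w ^ 4) (B₀ / w ^ 6) l).card by
    rw [t.card_subs a.prime]; omega)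
  have P0 : 2 • Z ≠ 0 := fun z => t1 (by rw [← p2, z, map_zero])
  have Q0 : Q ≠ 0 := fun z => t4 (by rw [← q2, z, map_zero])
  obtain ⟨a1, a2, -⟩ := vd_unit_spec i P0
  obtain ⟨b1, b2, -⟩ := vd_unit_spec i Q0
  have one : xc (i.hom l3 (2 • Z)) - xc (i.hom l3 Q) = 1 := by
    rw [VD.hom_apply, VD.hom_apply, a2, b2, ← sub_div, ← hw, div_self (pow_ne_zero 2 w0)]
  refine ⟨s, ⟨_, _, i.hom l3 (2 • Z), i.hom l3 Q, C₀⟩, ⟨⟨t, hC, ?_, ?_⟩, ⟨a1, b1, fun z => ?_⟩, one,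
    hs, ⟨_, i.hom l3 Z, d1, d2, (map_nsmul _ _ _).symm, ?_⟩, fun O' h =>
      hG L O' _ Ψ (Nat.odd_iff.2 (by omega)) hΨ Ψ0 h _ _ _ _ d1 d2⟩, s1, ?_⟩
  · change 2 • i.hom l3 (2 • Z) = 0
    rw [← map_nsmul, ← mul_nsmul, z3, map_zero]
  · change 2 • i.hom l3 Q = 0
    rw [← map_nsmul, q1, map_zero]
  · change i.hom l3 (2 • Z) = i.hom l3 Q at z
    rw [z, sub_self] at one
    exact zero_ne_one one
  · change _ = c • i.hom l3 Q
    rw [d3, ← map_add, ← map_nsmul]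
    refine congrArg _ (red_inj r n4 ?_ ?_ ?_)
    · rw [smul_add, ← d.hom_apply l3, ← map_nsmul, z3, map_zero, add_zero]
    · rw [smul_comm, mul_nsmul, q1, nsmul_zero, nsmul_zero]
    · rw [map_add, ← s2, z2, map_nsmul, q2]
  · rw [(a.mu he).ev]
    refine (ex.div (ex.sub eq) ne).congr ?_ rfl
    change _ = xc (i.hom l3 (2 • Z)) / (xc (i.hom l3 (2 • Z)) - xc (i.hom l3 Q))
    rw [one, div_one, VD.hom_apply, a2, hw]

theorem core (hN : NTMain) (hM : NormSpec) (hP : PerL) (hV : Vol) (hD : Deuring) (hG : GoodRed)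
    (hR : ∀ e ∈ R, Rt (A : L) (B : L) e.1 e.2.1 e.2.2)
    (gal : ∀ σ : L ≃+* L, ∀ e ∈ R, (σ e.1, σ e.2.1, σ e.2.2) ∈ R) (h5 : 5 ≤ p)
    (hO : O.valuation (p : L) < 1) (hΔ : ¬(p : ℤ) ∣ (Wc A B).Δ) (D4 : D % 4 = 3) (Dp : D < 4 * p)
    (d0 : ¬p ∣ D) (sq : IsSquare (-(D : ZMod p))) {G : Good (A : ResidueField O) B} {χ : EE G}
    (c1 : χ * χ = -(D : EE G)) (c0 : cE _ χ ≠ 0) {e : L × L × L} (he : e ∈ R)
    (h : OrE χ (pt _ _ ((resPlc O).ev e.1) 0) (c • pt _ _ ((resPlc O).ev e.2.1) 0))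
    (h' : ∀ e ∈ R, ¬OrE (-χ) (pt _ _ ((resPlc O).ev e.1) 0) (c • pt _ _ ((resPlc O).ev e.2.1) 0))
    {W : Set ℕ} (hW : Thin W) (ss : ∀ q : ℕ, q.Prime → q ∉ W → 5 ≤ q → ¬(q : ℤ) ∣ (Wc A B).Δ →
      q % 4 = 1 → ¬(q : ℤ) ∣ aZ A B q) :
    {q : ℕ | q.Prime ∧ ¬(q : ℤ) ∣ (Wc A B).Δ ∧
      IsSquare ((aZ A B q ^ 2 - 4 * q) * -(D : ℤ))}.Infinite := by
  classical
  intro fin
  obtain ⟨l, l1, hl, non⟩ := exists_inert_prime D4 p
  have h2 : l ≠ 2 := by omega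
  have a := fun θ => at2_of hR hl h2 O h5 hΔ d0 l1.ne θ
  have a0 : At2 (resPlc O) p D l A B R :=
    ⟨h5, (a 1).alg, sj_res O, G, hR, (a 1).d0, (a 1).l0, hl, h2⟩
  obtain ⟨s, x, b, s1, s2⟩ := exists_base hD hG a0 D4 Dp sq c1 c0 he h
  obtain ⟨⟨τ, hτ⟩, n, θ, θ0, θs, nm⟩ := hM L D s (by omega) b.sq ({x.A, x.B}
    ∪ (insert x.P (insert x.Q x.C)).image xc ∪ (insert x.P (insert x.Q x.C)).image yc)
  choose α β hz using fun T => nm (zz l R x T) fun σ h => zz_gal b hl h2 σ (gal σ) h T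
  have hz' : ∀ T, ∏ i, ((θ i).trans τ) (zz l R x T) = α T - β T * s := fun T => by
    have := congrArg τ (hz T)
    rwa [map_prod, map_add, map_mul, map_ratCast, map_ratCast, hτ, mul_neg, ← sub_eq_add_neg] at this
  have val : ∀ {O : ValuationSubring L} (θ : Fin (n + 1) → L ≃+* L) {z : L},
      (∀ i, ∃ v, v ≠ 0 ∧ Ev (twP (resPlc O) (θ i)) z v) → O.valuation (∏ i, θ i z) = 1 :=
    fun θ z h => by
      rw [map_prod]
      exact Finset.prod_eq_one fun i _ => (h i).elim fun v e => (ev_tw.1 e.2).v_one e.1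
  have u1 : ∀ (θ : Fin (n + 1) → L ≃+* L) T, T ≠ 0 → O.valuation (∏ i, θ i (zz l R x T)) = 1 :=
    fun θ T T0 => val θ fun i => unit_seed (a _) b hV sq non ⟨χ, c1, c0⟩ T0
  have u2 : O.valuation ((α 0 : L) - β 0 * s) = 1 := hz' 0 ▸ val _ fun i =>
    unit_conj (a _) b sq c1 c0 (ev_tw.2 (by simpa [θs, hτ] using s1.neg)) fun e he => by
      have k := fun {u v w : L} (r : Rt (A : L) B u v w) =>
        (ev_tw.1 (KrA.ev_root (a ((θ i).trans τ)).rd r)).ev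
      rw [← k (hR e he), ← k (hR e he).rot]
      exact h' _ (gal _ e he)
  have u3 : O.valuation ((α 0 : L) + β 0 * s) < 1 := by
    choose y o _ m v _ using fun i => b.red (a (θ i))
    refine hz 0 ▸ Ev.v_lt (π := resPlc O) ((Ev.prod _ fun i _ => ev_tw.1 (v i 0)).congr rfl
      (Finset.prod_eq_zero (Finset.mem_univ 0) (Finset.prod_eq_zero he ?_)))
    have e1 := ev_tw.1 (Ev.of_mem ((a (θ 0)).mu he).mem)
    have e2 := ev_tw.1 (m 0)
    rw [θ0] at e1 e2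
    rw [θ0]
    exact sub_eq_zero.2 (e1.ev.symm.trans (s2.unique e2))
  have z0 : (α 0 : L) - β 0 * s ≠ 0 := fun e => by simp [e] at u2
  have z1 : (α 0 : L) + β 0 * s ≠ 0 := fun e => z0 (by
    rw [← hz' 0, ← τ.map_zero, ← e, ← hz 0, map_prod]; rfl)
  have z2 : ∀ T, (α T : L) - β T * s ≠ 0 := fun T e => by
    by_cases T0 : T = 0
    · exact z0 (T0 ▸ e)
    · have := u1 (fun i => (θ i).trans τ) T T0
      rw [hz', e, map_zero] at this
      exact zero_ne_one this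
  obtain ⟨M, hM⟩ := fin.bddAbove
  have Δ0 : (Wc A B).Δ ≠ 0 := fun e => hΔ (e ▸ dvd_zero _)
  have big : ∀ q : ℕ, M + (Wc A B).Δ.natAbs + D + l < q → 5 ≤ q ∧ ¬(q : ℤ) ∣ (Wc A B).Δ ∧
      ¬q ∣ D ∧ q ≠ l ∧ M < q := fun q hq => ⟨by omega, fun e => by
        have := Nat.le_of_dvd (Int.natAbs_pos.2 Δ0) (Int.natCast_dvd.1 e); omega,
      fun e => by have := Nat.le_of_dvd (by omega) e; omega, by omega, by omega⟩
  refine hN L D l (M + (Wc A B).Δ.natAbs + D + l) p s (fun T => ((α T + β T * s) * (α 0 - β 0 * s))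
    / ((α T - β T * s) * (α 0 + β 0 * s))) O (O.valuation ((α 0 : L) + β 0 * s))⁻¹
    (W ∪ {q | q ≤ M + (Wc A B).Δ.natAbs + D + l}) D4 b.sq hl.ne_zero
    (hW.union (thin_finite (Set.finite_le_nat _))) Fact.out hO (by simpa using u3.ne)
    (fun T => ⟨α T * α 0 + D * β T * β 0, β T * α 0 - α T * β 0, ?_⟩) (fun T T0 => ?_)
    (fun T q O' hq q1 q2 q3 => ?_) fun q hq q1 q2 q3 => ?_
  · have e1 : ((α T * α 0 + D * β T * β 0 : ℚ) : L) - (β T * α 0 - α T * β 0 : ℚ) * s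
        = (α T - β T * s) * (α 0 + β 0 * s) := by
      push_cast; linear_combination (β T : L) * β 0 * b.sq
    refine ⟨e1 ▸ mul_ne_zero (z2 T) z1, ?_⟩
    rw [e1]
    congr 1
    push_cast; linear_combination -(β T : L) * β 0 * b.sq
  · rw [map_div₀, map_mul, map_mul, u2, ← hz T, ← hz' T, u1 _ T T0, u1 _ T T0]
    simp
  · obtain ⟨b1, b2, b3, b4, b5⟩ := big q q1
    have := Fact.mk hq
    have := res_charP hq q3
    have := resid_closed O'
    have u : ∀ (θ : Fin (n + 1) → L ≃+* L) T, O'.valuation (∏ i, θ i (zz l R x T)) = 1 :=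
      fun θ T => val θ fun i => unit_split (at2_of hR hl h2 O' b1 b2 b3 b4 _) b q2
        (fun e => (hM ⟨hq, b2, e⟩).not_gt b5) T
    rw [map_div₀, map_mul, map_mul, ← hz T, ← hz' T, ← hz 0, ← hz' 0, u, u, u, u]
    simp
  · obtain ⟨b1, b2, b3, b4, -⟩ := big q (not_le.1 fun e => q1 (Or.inr e))
    obtain ⟨O', q4⟩ := cg_exists_val (L := L) hq
    have := Fact.mk hq
    have := res_charP hq q4
    have := resid_closed O'
    choose m T T0 v v0 hv using fun σ => unit_inert (at2_of hR hl h2 O' b1 b2 b3 b4 σ) b hP q3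
      (ss q hq (fun e => q1 (Or.inl e)) b1 b2 q2)
    let F : Finset (L ≃+* L) := Finset.univ.image θ ∪ Finset.univ.image fun i => (θ i).trans τ
    have key : ∀ σ ∈ F, ∃ u, u ≠ 0 ∧ ∀ t, Ev (resPlc O')
        (σ (zz l R x ((∏ σ ∈ F, T σ) * t)) ^ l ^ ∑ σ ∈ F, m σ) u := fun σ hσ =>
      ⟨_, pow_ne_zero (l ^ ∑ σ ∈ F.erase σ, m σ) (v0 σ), fun t => by
        rw [← Finset.mul_prod_erase _ _ hσ, ← Finset.add_sum_erase _ _ hσ, pow_add, pow_mul,
          mul_assoc, ← map_pow σ]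
        exact (ev_tw.1 (hv σ _)).pow _⟩
    choose u u0 hu using fun i => key (θ i) (by simp [F])
    choose u' u0' hu' using fun i => key ((θ i).trans τ) (by simp [F])
    refine ⟨O', q4, ∑ σ ∈ F, m σ, ∏ σ ∈ F, T σ, Finset.prod_ne_zero_iff.2 fun σ _ => T0 σ,
      fun t => ?_⟩
    have e1 := fun t => Ev.prod Finset.univ fun i _ => hu i t
    have e2 := fun t => Ev.prod Finset.univ fun i _ => hu' i t
    simp only [Finset.prod_pow, hz, hz'] at e1 e2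
    have f1 := e1 0
    have f2 := e2 0
    rw [mul_zero] at f1 f2
    have n1 : ∏ i, u i ≠ 0 := Finset.prod_ne_zero_iff.2 fun i _ => u0 i
    have n2 : ∏ i, u' i ≠ 0 := Finset.prod_ne_zero_iff.2 fun i _ => u0' i
    refine Ev.v_lt (π := resPlc O') (((((e1 t).mul f2).div ((e2 t).mul f1)
      (mul_ne_zero n2 n1)).sub (Ev.one _)).congr ?_ ?_)
    · rw [div_pow, mul_pow, mul_pow]
    · rw [mul_comm, div_self (mul_ne_zero n2 n1), sub_self]

end Pool.Agent.MP_c481b3_nt.H28
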