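import Pool.Agent.MP_c481b3_nt.H28.BaseD

set_option autoImplicit false

namespace Pool.Agent.MP_c481b3_nt.H28

open Pool.Agent.MP_c481b3_nt.H81 Polynomial IsLocalRing

lemma mv_iso {k : Type} [Field k] [DecidableEq k] [IsAlgClosed k] {N : ℕ} {x : Ed k} (t : x.Lv N)
    {A B u : k}
    (d : VD ({0} : Finset (Pt x.A x.B)) u A B) (C : Finset (Pt A B)) :
    Ed.mv N ⟨A, B, vm {0} u A B x.P, vm {0} u A B x.Q, C⟩ = x.mv N := by
  obtain ⟨-, a2, a3⟩ := vd_unit_spec d t.p0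
  have u0 := d.hu
  unfold Ed.mv
  split_ifs with h
  · obtain ⟨-, b2, -⟩ := vd_unit_spec d (t.two h).1
    simp only [Ed.mu, a2, b2]
    rw [← sub_div, div_div_div_cancel_right₀ (pow_ne_zero 2 u0)]
  have a : x.A = u ^ 4 * A := by simpa [vA] using d.hA
  have e1 : t1 (vm {0} u A B x.P) = t1 x.P / u := by
    rw [t1, t1, a2, a3, div_right_comm, ← div_div_div_cancel_right₀ (pow_ne_zero 3 u0) _ (yc x.P)]
    congr 1
    field_simp
    linear_combination -a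
  have e2 : t2 (vm {0} u A B x.P) = t2 x.P / u ^ 2 := by
    rw [t2, t2, a2, e1]; field_simp
  have e3 : t3 (vm {0} u A B x.P) = t3 x.P / u ^ 3 := by rw [t3, t3, a3]; ring
  have f1 : (t1 x.P / u) ^ 3 / (t3 x.P / u ^ 3) = t1 x.P ^ 3 / t3 x.P := by
    rw [div_pow, div_div_div_cancel_right₀ (pow_ne_zero 3 u0)]
  have f2 : (t2 x.P / u ^ 2) ^ 3 / (t3 x.P / u ^ 3) ^ 2 = t2 x.P ^ 3 / t3 x.P ^ 2 := by
    rw [div_pow, div_pow, ← pow_mul, ← pow_mul, div_div_div_cancel_right₀ (pow_ne_zero _ u0)]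
  have f3 : t1 x.P / u * (t2 x.P / u ^ 2) / (t3 x.P / u ^ 3) = t1 x.P * t2 x.P / t3 x.P := by
    rw [div_mul_div_comm, ← pow_succ', div_div_div_cancel_right₀ (pow_ne_zero _ u0)]
  simp only [muN, e1, e2, e3, f1, f2, f3]

variable {L : Type} [Field L] [DecidableEq L] [IsAlgClosed L] [CharZero L]
  {D l n N m c : ℕ} {a : ℤ} {R : Finset L}

omit [CharZero L] in
lemma zy_gal (hR : MuRed) (hN : Lev N) {s : L} {x : Ed L} (b : Bs2 D l n N m a c s x)
    (hl : l.Prime) (h2 : l ≠ 2) (hc : N.Coprime l) (σ : L ≃+* L) (gal : ∀ t ∈ R, σ t ∈ R)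
    (h : ∀ t ∈ ({x.A, x.B} ∪ (insert x.P (insert x.Q x.C)).image xc
      ∪ (insert x.P (insert x.Q x.C)).image yc : Finset L), σ t = t) (T : ℕ) :
    σ (zy l N R x T) = zy l N R x T := by
  have r := rd_triv (σ : L →+* L) (h x.A (by simp)) (h x.B (by simp)) b.ok.tm.good
  have fx : ∀ P ∈ insert x.P (insert x.Q x.C), r.red P = P := fun P hP => by
    by_cases p0 : P = 0
    · rw [p0, map_zero]
    · exact red_eq r p0 p0 ((ev_triv _ _).congr rfl (h _ (Finset.mem_union_left _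
        (Finset.mem_union_right _ (Finset.mem_image_of_mem _ hP))))) ((ev_triv _ _).congr rfl
        (h _ (Finset.mem_union_right _ (Finset.mem_image_of_mem _ hP))))
  have rd : Red (trivP (σ : L →+* L)) x x := ⟨r, fx _ (by simp), fx _ (by simp),
    (Finset.image_congr fun P hP => fx P (by simp [Finset.mem_coe.1 hP])).trans Finset.image_id⟩
  have im : R.image σ = R := Finset.eq_of_subset_of_card_le (Finset.image_subset_iff.2 gal)
    (Finset.card_image_of_injective _ σ.injective).ge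
  refine (ev_triv (σ : L →+* L) _).unique (UL_red hl h2 rd b.ok b.ok T _ _ fun x' y' _ r2 r3 => ?_)
  refine (Ev.prod _ fun e _ => (ev_triv (σ : L →+* L) e).sub
    (r3.mv hR hN (r2.lv hl h2 hc b.ok b.lv) (r2.ok hl h2 b.ok).hP (r2.ok hl h2 b.ok).hQ)).congr rfl ?_
  conv_rhs => rw [← im, Finset.prod_image σ.injective.injOn]
  rfl

omit [DecidableEq L] [IsAlgClosed L] [CharZero L] in
lemma Tg.tw {κ : Type} [Field κ] [DecidableEq κ] {π : Plc L κ} {Φ Ψ : Ed κ → Prop}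
    (H : Tg π N R Φ) (h : ∀ y, Φ y → Ψ y) {σ : L ≃+* L} (gal : ∀ t ∈ R, σ t ∈ R) :
    Tg (twP π σ) N R Ψ := fun t ht =>
  (H _ (gal t ht)).imp fun y e => ⟨e.1, ev_tw.2 e.2.1, h y e.2.2⟩

variable [Algebra.IsAlgebraic ℚ L]

omit [DecidableEq L] [IsAlgClosed L] in
lemma at3_of (hI : MuIso) (hR : MuRed) (hN : Lev N) (hl : l.Prime) (h2 : l ≠ 2) (hc : N.Coprime l)
    (O : ValuationSubring L) {p : ℕ} [Fact p.Prime] [CharP (ResidueField O) p] (h5 : 5 ≤ p)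
    (d0 : ¬p ∣ D) (l0 : ¬p ∣ l) (n0 : ¬p ∣ n) (N0 : ¬p ∣ N) (θ : L ≃+* L) :
    At3 (twP (resPlc O) θ) p D l n N :=
  ⟨h5, res_alg O p, (sj_res O).tw θ, fun e => d0 ((CharP.cast_eq_zero_iff _ p _).1 e),
    fun e => l0 ((CharP.cast_eq_zero_iff _ p _).1 e),
    fun e => n0 ((CharP.cast_eq_zero_iff _ p _).1 e),
    fun e => N0 ((CharP.cast_eq_zero_iff _ p _).1 e), hl, h2, hc, hN, hI, hR⟩

variable {O : ValuationSubring L} {p : ℕ} [Fact p.Prime] [CharP (ResidueField O) p]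
  [DecidableEq (ResidueField O)] [IsAlgClosed (ResidueField O)]
  [DecidableEq (RatFunc (ResidueField O))] [DecidableEq (LL (ResidueField O))]

lemma exists_base2 (hD : Deuring2) (hR : MuRed) (hN : Lev N) (h5 : 5 ≤ p) (hl : l.Prime)
    (N0 : ¬p ∣ m * N) (d0 : ¬p ∣ D) (sq : IsSquare (-(D : ZMod p))) {y : Ed (ResidueField O)}
    (hy : y.Pk N) {χ : EE hy.good} (c1 : χ * χ = -(D : EE hy.good)) (c0 : cE _ χ ≠ 0)
    (h : OrG m a c χ y.P y.Q) : ∃ n s x, ¬p ∣ n ∧ Bs2 D l n N m a c s x ∧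
      Ev (resPlc O) s (cE _ χ) ∧ Ev (resPlc O) (x.mv N) (y.mv N) := by
  have h3 := (small_ne (ResidueField O) h5).2
  have d0' : (D : ResidueField O) ≠ 0 := fun e => d0 ((CharP.cast_eq_zero_iff _ p _).1 e)
  obtain ⟨n, n0, A₀, B₀, r, ⟨C, u, d, rfl, hu⟩, hj⟩ := hD L O p h5 _ _ hy.good D ⟨χ, c1, c0⟩ d0 sq
  obtain ⟨s, d, hs, s1, s2⟩ : ∃ s, VD C s A₀ B₀ ∧ s ^ 2 = -C.card ∧ Ev (resPlc O) s (cE _ χ) ∧
      ∀ P, χ.1 (r.red P) = r.red (vm C s A₀ B₀ P) := by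
    obtain ⟨ψ, k1, k2, k3, k4⟩ := cm_red (sj_res O) r h3 d hu d0'
    rcases pm_of_sq p h3 (res_alg O p) hy.good c1 k1 c0 k3 d0' sq with rfl | rfl
    · exact ⟨u, d, hu, k2, k4⟩
    · refine ⟨-u, d.neg_u, by rw [neg_sq, hu], by simpa using k2.neg, fun P => ?_⟩
      rw [d.vm_neg_u, map_neg, ← k4, EE_neg, neg_neg]
  obtain ⟨Z', z1, z2⟩ := h
  have n4 : ((m * N : ℕ) : ResidueField O) ≠ 0 := fun e => N0 ((CharP.cast_eq_zero_iff _ p _).1 e)
  have n2 : (N : ResidueField O) ≠ 0 := right_ne_zero_of_mul (Nat.cast_mul (α := ResidueField O) m N ▸ n4)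
  obtain ⟨Z, z3, rfl⟩ := exists_lift r ⟨hy.good, h3, n4⟩ (Q := Z') (by rw [mul_nsmul, z1, hy.hP])
  obtain ⟨Q, q1, q2⟩ := exists_lift r ⟨hy.good, h3, n2⟩ hy.hQ
  have p2 : r.red (m • Z) = y.P := by rw [map_nsmul, z1]
  have G := rd_good r
  have l3 : (3 : L) ≠ 0 := three_ne_zero
  have t0 : Ed.Lv N ⟨A₀, B₀, m • Z, Q, C⟩ := ⟨fun z => hy.lv.p0 (by
    rw [← p2, show m • Z = 0 from z, map_zero]), fun e => ⟨fun z => (hy.lv.two e).1 (by
      rw [← q2, show Q = 0 from z, map_zero]), fun z => (hy.lv.two e).2 (by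
        rw [← p2, ← q2, show m • Z = Q from z])⟩, fun e => by
          by_contra z
          exact red_tors_ne r n2 z q1 (q2.trans (hy.lv.odd e))⟩
  have ev := Red.mv hR hN (x := ⟨A₀, B₀, m • Z, Q, C⟩) (y := ⟨y.A, y.B, y.P, y.Q, C.image r.red⟩)
    ⟨r, p2, q2, rfl⟩ ⟨hy.lv.p0, hy.lv.two, hy.lv.odd⟩ hy.hP hy.hQ
  obtain ⟨w, hw⟩ := IsAlgClosed.exists_pow_nat_eq (4 * A₀ ^ 3 + 27 * B₀ ^ 2) (n := 12) (by norm_num)
  have w0 : w ≠ 0 := fun z => G.disc (by rw [← hw, z]; ring)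
  have one : 4 * (A₀ / w ^ 4) ^ 3 + 27 * (B₀ / w ^ 6) ^ 2 = 1 := by
    field_simp; linear_combination -hw
  have G1 : Good (A₀ / w ^ 4) (B₀ / w ^ 6) := ⟨two_ne_zero, one ▸ one_ne_zero⟩
  have i := vd_unit G G1 w0 (by field_simp) (by field_simp)
  obtain ⟨d1, d2, d3⟩ := VD.conj l3 i d
  have t := tm_char G1 hl.ne_zero
  obtain ⟨C₀, hC⟩ := Finset.card_pos.1 (show 0 < (subs (A₀ / w ^ 4) (B₀ / w ^ 6) l).card by
    rw [t.card_subs hl]; omega)
  have inj : ∀ P, i.hom l3 P = 0 → P = 0 := fun P e => by simpa using (i.hom_eq_zero l3).1 e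
  refine ⟨n, s, ⟨_, _, i.hom l3 (m • Z), i.hom l3 Q, C₀⟩, n0, ⟨⟨t, hC, ?_, ?_⟩,
    ⟨fun z => t0.p0 (inj _ z), fun e => ⟨fun z => (t0.two e).1 (inj _ z), fun z => (t0.two e).2
      (sub_eq_zero.1 (inj _ (by rw [map_sub]; exact sub_eq_zero.2 z)))⟩, fun e => ?_⟩, one,
    hs, ⟨_, i.hom l3 Z, d1, d2, (map_nsmul _ _ _).symm, ?_⟩, fun O' h => ?_⟩, s1,
    ev.congr (mv_iso t0 i C₀).symm rfl⟩
  · change N • i.hom l3 (m • Z) = 0
    rw [← map_nsmul, ← mul_nsmul, z3, map_zero]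
  · change N • i.hom l3 Q = 0
    rw [← map_nsmul, q1, map_zero]
  · change i.hom l3 Q = 0
    rw [show Q = 0 from t0.odd e, map_zero]
  · change _ = c • i.hom l3 Q
    rw [d3, ← map_zsmul, ← map_add, ← map_nsmul]
    refine congrArg _ (red_inj r n4 ?_ ?_ ?_)
    · rw [smul_add, ← d.hom_apply l3, ← map_nsmul, smul_comm, z3, map_zero, smul_zero, add_zero]
    · rw [smul_comm, mul_nsmul', q1, nsmul_zero, nsmul_zero]
    · rw [map_add, ← s2, map_zsmul, z2, map_nsmul, q2]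
  · change jj (A₀ / w ^ 4) (B₀ / w ^ 6) ∈ O'
    rw [jj, one, div_one, div_pow, ← pow_mul, hw, ← mul_div_assoc]
    exact hj O' h

open Classical in
theorem core2 (hT : NTMain2) (hM : NormSpec) (hP : PerL) (hV : Vol) (hD : Deuring2) (hI : MuIso)
    (hR : MuRed) (hN : Lev N) (gal : ∀ σ : L ≃+* L, ∀ t ∈ R, σ t ∈ R) (h5 : 5 ≤ p)
    (hO : O.valuation (p : L) < 1) (N0 : ¬p ∣ m * N) (d0 : ¬p ∣ D) (sq : IsSquare (-(D : ZMod p)))
    {y : Ed (ResidueField O)} (hy : y.Pk N) {χ : EE hy.good} (c1 : χ * χ = -(D : EE hy.good))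
    (c0 : cE _ χ ≠ 0) (h : OrG m a c χ y.P y.Q) {t : L} (ht : t ∈ R)
    (et : Ev (resPlc O) t (y.mv N))
    (seed : Tg (resPlc O) N R fun z => NC D z.A z.B ∨ ∃ (hG : Good z.A z.B) (ψ : EE hG),
      ψ * ψ = -(D : EE hG) ∧ cE hG ψ = cE _ χ ∧ ¬OrG m a c (-ψ) z.P z.Q)
    {U : Finset L} (hU : ∀ s : L, s ^ 2 = -D → ∃ τ : L ≃+* L, τ s = -s ∧ ∀ u ∈ U, τ u = u) {M : ℕ}
    (split : ∀ (q : ℕ) (O : ValuationSubring L) [Fact q.Prime] [CharP (ResidueField O) q]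
      [IsAlgClosed (ResidueField O)], M < q → 5 ≤ q → ¬q ∣ D → ¬q ∣ N →
      IsSquare (-(D : ZMod q)) → Tg (resPlc O) N R fun z => NC D z.A z.B)
    (inert : ∀ (q : ℕ) (O : ValuationSubring L) [Fact q.Prime] [CharP (ResidueField O) q]
      [IsAlgClosed (ResidueField O)], M < q → 5 ≤ q → ¬q ∣ N → ¬IsSquare (-(D : ZMod q)) →
      (∀ u ∈ U, Fq O q u) → Tg (resPlc O) N R fun z => ∃ Q : Pt z.A z.B, Q ≠ 0 ∧ q • Q = 0) :
    False := by
  have D0 : D ≠ 0 := fun e => d0 (e ▸ dvd_zero p)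
  obtain ⟨l, l1, hl, non⟩ := exists_inert2 D0 (p + N)
  have h2 : l ≠ 2 := by omega
  have hc : N.Coprime l := (Nat.coprime_primes hN.prime hl).2 (by omega)
  obtain ⟨n, s, x, n0, b, s1, s2⟩ := exists_base2 hD hR hN h5 hl N0 d0 sq hy c1 c0 h
  have g := fun θ => at3_of hI hR hN hl h2 hc O h5 d0 (fun e => by
    have := (Nat.prime_dvd_prime_iff_eq Fact.out hl).1 e; omega) n0 (fun e => N0 (e.mul_left m)) θ
  obtain ⟨τ, hτ, hτ'⟩ := hU s b.sq
  obtain ⟨-, k, θ, θ0, θs, nm⟩ := hM L D s D0 b.sq ({x.A, x.B}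
    ∪ (insert x.P (insert x.Q x.C)).image xc ∪ (insert x.P (insert x.Q x.C)).image yc)
  choose α β hz using fun T => nm (zy l N R x T) fun σ h => zy_gal hR hN b hl h2 hc σ (gal σ) h T
  have hz' : ∀ T, ∏ i, ((θ i).trans τ) (zy l N R x T) = α T - β T * s := fun T => by
    have := congrArg τ (hz T)
    rwa [map_prod, map_add, map_mul, map_ratCast, map_ratCast, hτ, mul_neg, ← sub_eq_add_neg] at this
  have val : ∀ {O : ValuationSubring L} (θ : Fin (k + 1) → L ≃+* L) {z : L},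
      (∀ i, ∃ v, v ≠ 0 ∧ Ev (twP (resPlc O) (θ i)) z v) → O.valuation (∏ i, θ i z) = 1 :=
    fun θ z h => by
      rw [map_prod]
      exact Finset.prod_eq_one fun i _ => (h i).elim fun v e => (ev_tw.1 e.2).v_one e.1
  have u1 : ∀ (θ : Fin (k + 1) → L ≃+* L) T, T ≠ 0 → O.valuation (∏ i, θ i (zy l N R x T)) = 1 :=
    fun θ T T0 => val θ fun i => unit_seed2 (g _) b hV sq non (seed.tw (fun z e => e.imp_right
      fun ⟨G, ψ, e1, e2, _⟩ => ⟨T0, G, ψ, e1, e2 ▸ c0⟩) (gal _))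
  have u2 : O.valuation ((α 0 : L) - β 0 * s) = 1 := hz' 0 ▸ val _ fun i =>
    unit_conj2 (g _) b sq c0 (ev_tw.2 (by simpa [θs, hτ] using s1.neg))
      (seed.tw (fun _ e => e) (gal _))
  have u3 : O.valuation ((α 0 : L) + β 0 * s) < 1 := by
    choose y o _ m v _ using fun i => b.red (g (θ i)) (seed.tw (fun _ e => e) (gal _))
    refine hz 0 ▸ Ev.v_lt (π := resPlc O) ((Ev.prod _ fun i _ => ev_tw.1 (v i 0)).congr rfl
      (Finset.prod_eq_zero (Finset.mem_univ 0) (Finset.prod_eq_zero ht ?_)))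
    have e1 : Ev (twP (resPlc O) (θ 0)) t _ := ev_tw.2 (by rw [θ0]; exact et)
    have e2 := ev_tw.1 (m 0)
    rw [θ0] at e2
    exact sub_eq_zero.2 (e1.ev.trans (s2.unique e2))
  have z0 : (α 0 : L) - β 0 * s ≠ 0 := fun e => by simp [e] at u2
  have z1 : (α 0 : L) + β 0 * s ≠ 0 := fun e => z0 (by
    rw [← hz' 0, ← τ.map_zero, ← e, ← hz 0, map_prod]; rfl)
  have z2 : ∀ T, (α T : L) - β T * s ≠ 0 := fun T e => by
    by_cases T0 : T = 0
    · exact z0 (T0 ▸ e)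
    · have := u1 (fun i => (θ i).trans τ) T T0
      rw [hz', e, map_zero] at this
      exact zero_ne_one this
  have big : ∀ q : ℕ, M + D + l + n + N < q → 5 ≤ q ∧ ¬q ∣ D ∧ ¬q ∣ l ∧ ¬q ∣ n ∧ ¬q ∣ N ∧ M < q :=
    fun q hq => ⟨by omega, fun e => by have := Nat.le_of_dvd (by omega) e; omega,
      fun e => by have := Nat.le_of_dvd hl.pos e; omega,
      fun e => by have := Nat.le_of_dvd (Nat.pos_of_ne_zero fun z : n = 0 => n0 (z ▸ dvd_zero p)) e; omega,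
      fun e => by have := Nat.le_of_dvd hN.prime.pos e; omega, by omega⟩
  refine hT L D l (M + D + l + n + N) p s (fun T => ((α T + β T * s) * (α 0 - β 0 * s))
    / ((α T - β T * s) * (α 0 + β 0 * s))) O (O.valuation ((α 0 : L) + β 0 * s))⁻¹ U τ D0 b.sq hτ hτ'
    hl.ne_zero Fact.out hO (by simpa using u3.ne)
    (fun T => ⟨α T * α 0 + D * β T * β 0, β T * α 0 - α T * β 0, ?_⟩) (fun T T0 => ?_)
    (fun T q O' hq q1 q2 q3 => ?_) fun q O' hq q1 q3 q4 q5 => ?_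
  · have e1 : ((α T * α 0 + D * β T * β 0 : ℚ) : L) - (β T * α 0 - α T * β 0 : ℚ) * s
        = (α T - β T * s) * (α 0 + β 0 * s) := by
      push_cast; linear_combination (β T : L) * β 0 * b.sq
    refine ⟨e1 ▸ mul_ne_zero (z2 T) z1, ?_⟩
    rw [e1]
    congr 1
    push_cast; linear_combination -(β T : L) * β 0 * b.sq
  · rw [map_div₀, map_mul, map_mul, u2, ← hz T, ← hz' T, u1 _ T T0, u1 _ T T0]
    simp
  · obtain ⟨b1, b2, b3, b4, b5, b6⟩ := big q q1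
    have := Fact.mk hq
    have := res_charP hq q3
    have := resid_closed O'
    have u : ∀ (θ : Fin (k + 1) → L ≃+* L) T, O'.valuation (∏ i, θ i (zy l N R x T)) = 1 :=
      fun θ T => val θ fun i => unit_seed2 (at3_of hI hR hN hl h2 hc O' b1 b2 b3 b4 b5 _) b hV q2 non
        ((split q O' b6 b1 b2 b5 q2).tw (fun _ e => Or.inl e) (gal _))
    rw [map_div₀, map_mul, map_mul, ← hz T, ← hz' T, ← hz 0, ← hz' 0, u, u, u, u]
    simp
  · obtain ⟨b1, b2, b3, b4, b5, b6⟩ := big q q1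
    have := Fact.mk hq
    have := res_charP hq q4
    have := resid_closed O'
    choose m T T0 v v0 hv using fun σ => unit_inert2
      (at3_of hI hR hN hl h2 hc O' b1 b2 b3 b4 b5 σ) b hP q3
      ((inert q O' b6 b1 b5 q3 q5).tw (fun _ e => e) (gal _))
    let F : Finset (L ≃+* L) := Finset.univ.image θ ∪ Finset.univ.image fun i => (θ i).trans τ
    have key : ∀ σ ∈ F, ∃ u, u ≠ 0 ∧ ∀ t, Ev (resPlc O')
        (σ (zy l N R x ((∏ σ ∈ F, T σ) * t)) ^ l ^ ∑ σ ∈ F, m σ) u := fun σ hσ =>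
      ⟨_, pow_ne_zero (l ^ ∑ σ ∈ F.erase σ, m σ) (v0 σ), fun t => by
        rw [← Finset.mul_prod_erase _ _ hσ, ← Finset.add_sum_erase _ _ hσ, pow_add, pow_mul,
          mul_assoc, ← map_pow σ]
        exact (ev_tw.1 (hv σ _)).pow _⟩
    choose u u0 hu using fun i => key (θ i) (by simp [F])
    choose u' u0' hu' using fun i => key ((θ i).trans τ) (by simp [F])
    refine ⟨∑ σ ∈ F, m σ, ∏ σ ∈ F, T σ, Finset.prod_ne_zero_iff.2 fun σ _ => T0 σ, fun t => ?_⟩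
    have e1 := fun t => Ev.prod Finset.univ fun i _ => hu i t
    have e2 := fun t => Ev.prod Finset.univ fun i _ => hu' i t
    simp only [Finset.prod_pow, hz, hz'] at e1 e2
    have f1 := e1 0
    have f2 := e2 0
    rw [mul_zero] at f1 f2
    have n1 : ∏ i, u i ≠ 0 := Finset.prod_ne_zero_iff.2 fun i _ => u0 i
    have n2 : ∏ i, u' i ≠ 0 := Finset.prod_ne_zero_iff.2 fun i _ => u0' i
    refine Ev.v_lt (π := resPlc O') (((((e1 t).mul f2).div ((e2 t).mul f1)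
      (mul_ne_zero n2 n1)).sub (Ev.one _)).congr ?_ ?_)
    · rw [div_pow, mul_pow, mul_pow]
    · rw [mul_comm, div_self (mul_ne_zero n2 n1), sub_self]

end Pool.Agent.MP_c481b3_nt.H28
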