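import Pool.Agent.MP_c481b3_nt.H28.Spec5

set_option autoImplicit false

namespace Pool.Agent.MP_c481b3_nt.H28

open NumberField

section cg
variable {L : Type} [Field L]

lemma cg_mem_of_integral (O : ValuationSubring L) {x : L} (hx : IsIntegral ℤ x) : x ∈ O := by
  have h1 : IsIntegral O x := hx.tower_top
  obtain ⟨y, rfl⟩ := (IsIntegrallyClosed.isIntegral_iff (R := O) (K := L)).1 h1
  exact y.2

lemma cg_int_le (O : ValuationSubring L) (c : ℤ) : O.valuation (c : L) ≤ 1 :=
  (O.valuation_le_one_iff _).2 (intCast_mem O c)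

/-- an integer of small value is divisible by the prime below -/
lemma cg_dvd (O : ValuationSubring L) {q : ℕ} (hq : q.Prime) (hv : O.valuation (q : L) < 1)
    {c : ℤ} (hc : O.valuation (c : L) < 1) : (q : ℤ) ∣ c := by
  by_contra h
  have hcop : IsCoprime (q : ℤ) c :=
    (Prime.coprime_iff_not_dvd (Nat.prime_iff_prime_int.1 hq)).2 h
  obtain ⟨u, w, huw⟩ := hcop
  have h1 : (1 : L) = (u : L) * q + (w : L) * c := by exact_mod_cast congrArg (Int.cast : ℤ → L) huw.symm
  have h2 : O.valuation ((u : L) * q) < 1 := by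
    rw [map_mul]; exact lt_of_le_of_lt (mul_le_of_le_one_left' (cg_int_le O u)) hv
  have h3 : O.valuation ((w : L) * c) < 1 := by
    rw [map_mul]; exact lt_of_le_of_lt (mul_le_of_le_one_left' (cg_int_le O w)) hc
  have h4 := O.valuation.map_add_lt h2 h3
  rw [← h1, map_one] at h4
  exact lt_irrefl _ h4

lemma cg_exists_val [CharZero L] {r : ℕ} (hr : r.Prime) :
    ∃ O : ValuationSubring L, O.valuation (r : L) < 1 := by
  let A : Subring L := (Int.castRingHom L).range
  let x : A := ⟨(r : L), ⟨(r : ℤ), by simp⟩⟩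
  have hI : Ideal.span {x} ≠ ⊤ := by
    rw [Ne, Ideal.span_singleton_eq_top, isUnit_iff_exists_inv]
    rintro ⟨⟨y, m, rfl⟩, hy⟩
    have h1 : (r : L) * (m : L) = 1 := by simpa [x] using congrArg Subtype.val hy
    have h2 : (r : ℤ) * m = 1 := by exact_mod_cast h1
    have h3 : (r : ℤ) ∣ 1 := ⟨m, h2.symm⟩
    have h4 : r ∣ 1 := by exact_mod_cast h3
    exact hr.one_lt.ne' (Nat.dvd_one.1 h4)
  obtain ⟨B, -, hB⟩ := Ideal.image_subset_nonunits_valuationSubring _ hI
  refine ⟨B, ?_⟩
  have : (r : L) ∈ B.nonunits := hB ⟨x, Ideal.mem_span_singleton_self x, rfl⟩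
  exact (B.mem_nonunits_iff).1 this

lemma cg_zero [CharZero L] (O : ValuationSubring L) {q : ℕ} (hq : q.Prime)
    (hv : O.valuation (q : L) < 1) {y : L} (hy : IsAlgebraic ℤ y⁻¹)
    (h : ∀ m : ℕ, O.valuation y ≤ O.valuation (q : L) ^ m) : y = 0 := by
  by_contra h0
  obtain ⟨c, hc0, hc⟩ := hy.exists_integral_multiple
  have h1 : O.valuation ((c : L) * y⁻¹) ≤ 1 := by
    rw [O.valuation_le_one_iff]
    have := cg_mem_of_integral O hc
    simpa [zsmul_eq_mul] using this
  have hy0 : O.valuation y ≠ 0 := by simpa using h0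
  have h2 : O.valuation (c : L) ≤ O.valuation y := by
    rw [map_mul, map_inv₀, mul_inv_le_iff₀ (zero_lt_iff.2 hy0), one_mul] at h1
    exact h1
  obtain ⟨e, n, hn, hce⟩ := Nat.exists_eq_pow_mul_and_not_dvd (Int.natAbs_ne_zero.2 hc0) q hq.ne_one
  have h3 : O.valuation (c : L) = O.valuation ((c.natAbs : ℕ) : L) := by
    rcases Int.natAbs_eq c with h | h
    · conv_lhs => rw [h]
      simp
    · conv_lhs => rw [h]
      simp
  have h4 : O.valuation (n : L) = 1 := by
    have h5 := cg_int_le O (n : ℤ)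
    rw [Int.cast_natCast] at h5
    refine le_antisymm h5 (not_lt.1 fun h6 => hn ?_)
    have := cg_dvd O hq hv (c := (n : ℤ)) (by simpa using h6)
    exact_mod_cast this
  have h5 : O.valuation (c : L) = O.valuation (q : L) ^ e := by
    rw [h3, hce]; push_cast; rw [map_mul, map_pow, h4, mul_one]
  have hq0 : O.valuation (q : L) ≠ 0 := by
    simpa using hq.ne_zero
  have h6 := (h5 ▸ h2).trans (h (e + 1))
  rw [pow_succ] at h6
  have h7 : 0 < O.valuation (q : L) ^ e := pow_pos (zero_lt_iff.2 hq0) e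
  have h8 : O.valuation (q : L) ^ e * O.valuation (q : L) < O.valuation (q : L) ^ e * 1 :=
    mul_lt_mul_of_pos_left hv h7
  rw [mul_one] at h8
  exact absurd h6 (not_le.2 h8)

end cg

theorem ctrSpec : CtrSpec := by
  intro K _ _
  have hint : ∀ (O : ValuationSubring (AlgebraicClosure K)) (r : 𝓞 K),
      algebraMap _ (AlgebraicClosure K) r ∈ O := fun O r =>
    cg_mem_of_integral O ((RingOfIntegers.isIntegral r).map (IsScalarTower.toAlgHom ℤ _ _))
  refine ⟨fun O p hp hv => ?_, fun P O O' hP hO hO' z hz => ?_, fun O q hq hv y hy => ?_⟩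
  · have hle : ∀ r : 𝓞 K, O.valuation (algebraMap _ (AlgebraicClosure K) r) ≤ 1 := fun r =>
      (O.valuation_le_one_iff _).2 (hint O r)
    let P : Ideal (𝓞 K) :=
      { carrier := {r | O.valuation (algebraMap _ (AlgebraicClosure K) r) < 1}
        add_mem' := fun {a b} ha hb => by
          simp only [Set.mem_ofPred_eq, map_add] at ha hb ⊢
          exact O.valuation.map_add_lt ha hb
        zero_mem' := by simp
        smul_mem' := fun c a ha => by
          simp only [Set.mem_ofPred_eq, smul_eq_mul, map_mul] at ha ⊢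
          exact lt_of_le_of_lt (mul_le_of_le_one_left' (hle c)) ha }
    have hmem : ∀ r : 𝓞 K, r ∈ P ↔ O.valuation (algebraMap _ (AlgebraicClosure K) r) < 1 :=
      fun r => Iff.rfl
    have hpP : (p : 𝓞 K) ∈ P := by rw [hmem]; simpa using hv
    have hprime : P.IsPrime := by
      refine ⟨fun h => ?_, fun {a b} hab => ?_⟩
      · have : (1 : 𝓞 K) ∈ P := h ▸ Submodule.mem_top
        rw [hmem] at this
        simp at this
      · rw [hmem, map_mul, map_mul] at hab
        rw [hmem, hmem]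
        by_contra hcon
        rw [not_or, not_lt, not_lt] at hcon
        rw [le_antisymm (hle a) hcon.1, le_antisymm (hle b) hcon.2, mul_one] at hab
        exact lt_irrefl _ hab
    have hne : P ≠ ⊥ := by
      intro h
      rw [h, Ideal.mem_bot] at hpP
      exact hp.ne_zero (by exact_mod_cast hpP)
    exact ⟨P, hprime.isMaximal hne, hpP, hint O, fun r => (hmem r).symm⟩
  · have hne : P ≠ ⊥ := Ring.ne_bot_of_isMaximal_of_not_isField hP (RingOfIntegers.not_isField K)
    let v : IsDedekindDomain.HeightOneSpectrum (𝓞 K) := ⟨P, hP.isPrime, hne⟩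
    have unit : ∀ {O : ValuationSubring (AlgebraicClosure K)}, Ctr P O → ∀ d : 𝓞 K, d ∉ P →
        O.valuation (algebraMap _ (AlgebraicClosure K) d) = 1 := fun {O} hO d hd =>
      le_antisymm ((O.valuation_le_one_iff _).2 (hO.1 d)) (not_lt.1 fun h => hd ((hO.2 d).1 h))
    have key : ∀ n d : 𝓞 K, d ∉ P → z * algebraMap _ K d = algebraMap _ K n →
        algebraMap K (AlgebraicClosure K) z ∈ O' := fun n d hd h => by
      have h1 := congrArg (fun t => O'.valuation (algebraMap K (AlgebraicClosure K) t)) h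
      simp only [map_mul, ← IsScalarTower.algebraMap_apply] at h1
      rw [unit hO' d hd, mul_one] at h1
      rw [← O'.valuation_le_one_iff, h1]
      exact (O'.valuation_le_one_iff _).2 (hO'.1 n)
    obtain ⟨n, d, h | h⟩ := v.exists_primeCompl_mul_eq_or_mul_eq (K := K) z
    · exact key n d d.2 h
    · by_cases hn : n ∈ P
      · exfalso
        have h1 := congrArg (fun t => O.valuation (algebraMap K (AlgebraicClosure K) t)) h
        simp only [map_mul, ← IsScalarTower.algebraMap_apply] at h1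
        rw [unit hO d d.2] at h1
        have h2 := (hO.2 n).2 hn
        have h3 := (O.valuation_le_one_iff _).2 hz
        have h4 := lt_of_le_of_lt (mul_le_of_le_one_left' h3) h2
        rw [h1] at h4
        exact lt_irrefl _ h4
      · exact key d n hn h
  · refine cg_zero O hq hv ?_ hy
    have : Algebra.IsAlgebraic ℚ (AlgebraicClosure K) := Algebra.IsAlgebraic.trans ℚ K _
    exact (IsFractionRing.isAlgebraic_iff ℤ ℚ _).2 (Algebra.IsAlgebraic.isAlgebraic _)

lemma cg_small (l : ℕ) (hl : l = 1 ∨ l = 3) (a b : ℤ) (h : a ^ 2 + l * b ^ 2 ∣ 12) :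
    12 * a ^ 11 * b - 220 * l * a ^ 9 * b ^ 3 + 792 * l ^ 2 * a ^ 7 * b ^ 5
      - 792 * l ^ 3 * a ^ 5 * b ^ 7 + 220 * l ^ 4 * a ^ 3 * b ^ 9 - 12 * l ^ 5 * a * b ^ 11 = 0 := by
  have h1 : a ^ 2 + l * b ^ 2 ≤ 12 := Int.le_of_dvd (by norm_num) h
  have hl1 : (1 : ℤ) ≤ l := by rcases hl with rfl | rfl <;> norm_num
  have ha : a ^ 2 ≤ 12 := by nlinarith [sq_nonneg b]
  have hb : b ^ 2 ≤ 12 := by nlinarith [sq_nonneg a, sq_nonneg b]
  have ha1 : a ≤ 3 := by nlinarith
  have ha2 : -3 ≤ a := by nlinarith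
  have hb1 : b ≤ 3 := by nlinarith
  have hb2 : -3 ≤ b := by nlinarith
  rcases hl with rfl | rfl <;> interval_cases a <;> interval_cases b <;> simp_all

lemma cg_dvd12 (l : ℕ) (hl : l = 1 ∨ l = 3) (a b : ℤ) (hab : IsCoprime a b)
    (h : ∀ r : ℕ, r.Prime → (r : ℤ) ∣ a ^ 2 + l * b ^ 2 → r < 5) : a ^ 2 + l * b ^ 2 ∣ 12 := by
  have cop : ∀ r : ℤ, r ∣ a → r ∣ b → r ∣ 1 := fun r h1 h2 => by
    obtain ⟨u, w, huw⟩ := hab
    rw [← huw]; exact dvd_add (h1.mul_left u) (h2.mul_left w)
  have h8 : ¬(8 : ℤ) ∣ a ^ 2 + l * b ^ 2 := by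
    intro h8
    have h2 : ¬((2 : ℤ) ∣ a ∧ (2 : ℤ) ∣ b) := fun h => by
      have := cop 2 h.1 h.2
      omega
    have e1 : a ^ 2 % 8 = (a % 8) ^ 2 % 8 := by
      rw [pow_two, pow_two, Int.mul_emod]
    have e2 : b ^ 2 % 8 = (b % 8) ^ 2 % 8 := by
      rw [pow_two, pow_two, Int.mul_emod]
    have a1 := Int.emod_nonneg a (by norm_num : (8 : ℤ) ≠ 0)
    have a2 := Int.emod_lt_of_pos a (by norm_num : (0 : ℤ) < 8)
    have b1 := Int.emod_nonneg b (by norm_num : (8 : ℤ) ≠ 0)
    have b2 := Int.emod_lt_of_pos b (by norm_num : (0 : ℤ) < 8)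
    generalize a ^ 2 = A at *
    generalize b ^ 2 = B at *
    generalize ha : a % 8 = a' at *
    generalize hb : b % 8 = b' at *
    rcases hl with rfl | rfl <;> interval_cases a' <;> interval_cases b' <;> omega
  have h9 : ¬(9 : ℤ) ∣ a ^ 2 + l * b ^ 2 := by
    intro h9
    have h3 : ¬((3 : ℤ) ∣ a ∧ (3 : ℤ) ∣ b) := fun h => by
      have := cop 3 h.1 h.2
      omega
    have e1 : a ^ 2 % 9 = (a % 9) ^ 2 % 9 := by
      rw [pow_two, pow_two, Int.mul_emod]
    have e2 : b ^ 2 % 9 = (b % 9) ^ 2 % 9 := by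
      rw [pow_two, pow_two, Int.mul_emod]
    have a1 := Int.emod_nonneg a (by norm_num : (9 : ℤ) ≠ 0)
    have a2 := Int.emod_lt_of_pos a (by norm_num : (0 : ℤ) < 9)
    have b1 := Int.emod_nonneg b (by norm_num : (9 : ℤ) ≠ 0)
    have b2 := Int.emod_lt_of_pos b (by norm_num : (0 : ℤ) < 9)
    generalize a ^ 2 = A at *
    generalize b ^ 2 = B at *
    generalize ha : a % 9 = a' at *
    generalize hb : b % 9 = b' at *
    rcases hl with rfl | rfl <;> interval_cases a' <;> interval_cases b' <;> omega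
  generalize a ^ 2 + l * b ^ 2 = n at *
  rw [← Int.natAbs_dvd_natAbs]
  refine (Nat.dvd_iff_prime_pow_dvd_dvd _ _).2 fun p k hp hk => ?_
  have hk' : ((p : ℤ)) ^ k ∣ n := by
    rw [← Int.natAbs_dvd_natAbs, Int.natAbs_pow]; simpa using hk
  rcases Nat.eq_zero_or_pos k with rfl | hk0
  · simp
  have h5 := h p hp ((dvd_pow_self _ hk0.ne').trans hk')
  have h2 := hp.two_le
  interval_cases p
  · have : k < 3 := by
      by_contra hc
      exact h8 ((by exact pow_dvd_pow (2 : ℤ) (not_lt.1 hc) : (2 : ℤ) ^ 3 ∣ 2 ^ k).trans hk')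
    interval_cases k <;> norm_num
  · have : k < 2 := by
      by_contra hc
      exact h9 ((by exact pow_dvd_pow (3 : ℤ) (not_lt.1 hc) : (3 : ℤ) ^ 2 ∣ 3 ^ k).trans hk')
    interval_cases k; norm_num
  · exact absurd hp (by norm_num)

lemma cg_int {L : Type} [Field L] [CharZero L] (l : ℕ) (hl : l = 1 ∨ l = 3) (s : L)
    (hs : s ^ 2 = -l) (a b : ℤ) (hab : IsCoprime a b)
    (h : ∀ (O : ValuationSubring L) (p : ℕ), p.Prime → 5 ≤ p → IsSquare (-(l : ZMod p)) →
      O.valuation (p : L) < 1 → O.valuation ((a : L) + b * s) = O.valuation ((a : L) - b * s)) :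
    ((a : L) + b * s) ^ 12 = ((a : L) - b * s) ^ 12 := by
  have h12 : a ^ 2 + l * b ^ 2 ∣ 12 := by
    refine cg_dvd12 l hl a b hab fun r hr hdvd => ?_
    by_contra hlt
    have h5 : 5 ≤ r := not_lt.1 hlt
    have hri : Prime (r : ℤ) := Nat.prime_iff_prime_int.1 hr
    have cop : (r : ℤ) ∣ a → (r : ℤ) ∣ b → False := fun h1 h2 => by
      obtain ⟨u, w, huw⟩ := hab
      have : (r : ℤ) ∣ 1 := by rw [← huw]; exact dvd_add (h1.mul_left u) (h2.mul_left w)
      exact hri.not_dvd_one this
    have hb : ¬(r : ℤ) ∣ b := fun hb => by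
      refine cop (hri.dvd_of_dvd_pow (n := 2) ?_) hb
      exact (dvd_add_left ((dvd_pow hb two_ne_zero).mul_left _)).1 hdvd
    have ha : ¬(r : ℤ) ∣ a := fun ha => by
      have h1 : (r : ℤ) ∣ l * b ^ 2 := (dvd_add_right (dvd_pow ha two_ne_zero)).1 hdvd
      rcases hri.dvd_or_dvd h1 with h2 | h2
      · have h3 : r ∣ l := by exact_mod_cast h2
        have := Nat.le_of_dvd (by omega) h3
        omega
      · exact hb (hri.dvd_of_dvd_pow h2)
    have := Fact.mk hr
    have hsq : IsSquare (-(l : ZMod r)) := by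
      have h1 : ((a ^ 2 + l * b ^ 2 : ℤ) : ZMod r) = 0 := (ZMod.intCast_zmod_eq_zero_iff_dvd _ _).2 hdvd
      have h2 : ((b : ℤ) : ZMod r) ≠ 0 := fun h => hb ((ZMod.intCast_zmod_eq_zero_iff_dvd _ _).1 h)
      push_cast at h1
      refine ⟨(a : ZMod r) / b, ?_⟩
      field_simp
      linear_combination -h1
    obtain ⟨O, hO⟩ := cg_exists_val (L := L) hr
    have heq := h O r hr h5 hsq hO
    have hn : O.valuation (((a : L) + b * s) * ((a : L) - b * s)) < 1 := by
      obtain ⟨m, hm⟩ := hdvd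
      have h1 : ((a : L) + b * s) * ((a : L) - b * s) = (m : L) * r := by
        have h2 := congrArg (Int.cast : ℤ → L) hm
        push_cast at h2
        linear_combination h2 - (b : L) ^ 2 * hs
      rw [h1, map_mul]
      exact lt_of_le_of_lt (mul_le_of_le_one_left' (cg_int_le O m)) hO
    have h1 : O.valuation ((a : L) - b * s) < 1 := by
      rw [map_mul, heq] at hn
      by_contra hc
      exact absurd hn (not_lt.2 (one_le_mul (not_lt.1 hc) (not_lt.1 hc)))
    have h2 := O.valuation.map_add_lt (heq ▸ h1 : O.valuation ((a : L) + b * s) < 1) h1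
    have h3 : (a : L) + b * s + ((a : L) - b * s) = ((2 * a : ℤ) : L) := by push_cast; ring
    rw [h3] at h2
    rcases hri.dvd_or_dvd (cg_dvd O hr hO h2) with h4 | h4
    · have h5' : r ∣ 2 := by exact_mod_cast h4
      have := Nat.le_of_dvd (by omega) h5'
      omega
    · exact ha h4
  have h0 := congrArg (Int.cast : ℤ → L) (cg_small l hl a b h12)
  push_cast at h0
  have hl' : (l : L) = -s ^ 2 := by rw [hs]; ring
  rw [hl'] at h0
  linear_combination 2 * s * h0

theorem gamCore : GamCore := by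
  intro L _ _ l hl s hs a b h
  -- common denominator
  obtain ⟨c, a', b', hab, ha, hb⟩ : ∃ (c : ℚ) (a' b' : ℤ), IsCoprime a' b' ∧ a = c * a' ∧ b = c * b' := by
    by_cases h0 : Int.gcd (a.num * b.den) (b.num * a.den) = 0
    · rw [Int.gcd_eq_zero_iff] at h0
      have h1 : a = 0 := by simpa using h0.1
      have h2 : b = 0 := by simpa using h0.2
      exact ⟨0, 1, 0, isCoprime_one_left, by simp [h1], by simp [h2]⟩
    · obtain ⟨a', b', h1, h2, h3⟩ := Int.exists_gcd_one (Nat.pos_of_ne_zero h0)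
      generalize Int.gcd (a.num * b.den) (b.num * a.den) = g at *
      refine ⟨(g : ℚ) / (a.den * b.den), a', b', Int.isCoprime_iff_gcd_eq_one.2 h1, ?_, ?_⟩
      · have h4 := congrArg (Int.cast : ℤ → ℚ) h2
        push_cast at h4
        have h5 : (a.num : ℚ) = a * a.den := by simp
        have h6 : (a.den : ℚ) ≠ 0 := by exact_mod_cast a.den_nz
        have h7 : (b.den : ℚ) ≠ 0 := by exact_mod_cast b.den_nz
        field_simp
        rw [h5] at h4
        linear_combination h4
      · have h4 := congrArg (Int.cast : ℤ → ℚ) h3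
        push_cast at h4
        have h5 : (b.num : ℚ) = b * b.den := by simp
        have h6 : (a.den : ℚ) ≠ 0 := by exact_mod_cast a.den_nz
        have h7 : (b.den : ℚ) ≠ 0 := by exact_mod_cast b.den_nz
        field_simp
        rw [h5] at h4
        linear_combination h4
  have e1 : (a : L) + b * s = (c : L) * ((a' : L) + b' * s) := by rw [ha, hb]; push_cast; ring
  have e2 : (a : L) - b * s = (c : L) * ((a' : L) - b' * s) := by rw [ha, hb]; push_cast; ring
  rw [e1, e2] at h ⊢
  by_cases hc : c = 0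
  · simp [hc]
  have hc' : (c : L) ≠ 0 := by exact_mod_cast hc
  rw [mul_pow, mul_pow, cg_int l hl s hs a' b' hab]
  intro O p hp h5 hsq hv
  have := h O p hp h5 hsq hv
  rw [map_mul, map_mul] at this
  exact mul_left_cancel₀ (by simpa using hc') this

end Pool.Agent.MP_c481b3_nt.H28
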