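import Pool.Agent.MP_c481b3_nt.H28.SpecD

set_option autoImplicit false

namespace Pool.Agent.MP_c481b3_nt.H28

open NumberField IntermediateField

namespace CycD

theorem disj {L : Type} [Field L] [CharZero L] (A B : IntermediateField ℚ L) [NumberField A]
    [NumberField B] [hG : IsGalois ℚ A] (h : IsCoprime (discr A) (discr B)) :
    A.LinearDisjoint B := by
  refine @IntermediateField.LinearDisjoint.of_inf_eq_bot ℚ L _ _ _ A B (by convert hG; exact Subsingleton.elim _ _)
    (by convert (inferInstance : FiniteDimensional ℚ A))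
    (by convert (inferInstance : FiniteDimensional ℚ B)) ?_
  let _i1 : Algebra ↥(A ⊓ B) A := (IntermediateField.inclusion (inf_le_left : A ⊓ B ≤ A)).toAlgebra
  let _i2 : Algebra ↥(A ⊓ B) B := (IntermediateField.inclusion (inf_le_right : A ⊓ B ≤ B)).toAlgebra
  have : FiniteDimensional ℚ ↥(A ⊓ B) :=
    FiniteDimensional.of_injective
      (IntermediateField.inclusion (inf_le_left : A ⊓ B ≤ A)).toLinearMap
      (IntermediateField.inclusion_injective (inf_le_left : A ⊓ B ≤ A))
  have : NumberField ↥(A ⊓ B) := NumberField.mk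
  have hu : IsUnit (discr ↥(A ⊓ B)) :=
    h.isUnit_of_dvd' (NumberField.discr_dvd_discr _ _) (NumberField.discr_dvd_discr _ _)
  by_contra hne
  have h1 : 1 < Module.finrank ℚ ↥(A ⊓ B) := by
    refine Nat.one_lt_iff_ne_zero_and_ne_one.mpr ⟨Module.finrank_pos.ne', ?_⟩
    rwa [← IntermediateField.finrank_eq_one_iff] at hne
  have h2 := abs_discr_gt_two h1
  rw [Int.isUnit_iff_abs_eq] at hu
  linarith

end CycD

theorem cycDis : CycDis := by
  intro L _ _ _ _ U n
  have : FiniteDimensional ℚ (adjoin ℚ (U : Set L)) :=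
    IntermediateField.finiteDimensional_adjoin fun x _ =>
      (Algebra.IsAlgebraic.isAlgebraic (R := ℚ) x).isIntegral
  have : NumberField (adjoin ℚ (U : Set L)) := NumberField.mk
  obtain ⟨r, hr, hp⟩ := Nat.exists_infinite_primes
    (n + (discr (adjoin ℚ (U : Set L))).natAbs + 1)
  refine ⟨r, hp, by omega, fun z hz => ?_⟩
  have : Fact r.Prime := ⟨hp⟩
  have : NeZero r := ⟨hp.ne_zero⟩
  have : Algebra.IsIntegral ℚ L := Algebra.IsAlgebraic.isIntegral
  have hc : IsCyclotomicExtension {r} ℚ (adjoin ℚ {z}) :=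
    hz.intermediateField_adjoin_isCyclotomicExtension ℚ
  have : NumberField (adjoin ℚ ({z} : Set L)) := IsCyclotomicExtension.numberField {r} ℚ _
  have : IsGalois ℚ (adjoin ℚ ({z} : Set L)) := IsCyclotomicExtension.isGalois {r} ℚ _
  have hd := IsCyclotomicExtension.Rat.discr_prime r (adjoin ℚ ({z} : Set L))
  have hne : discr (adjoin ℚ (U : Set L)) ≠ 0 := discr_ne_zero _
  have hcop : IsCoprime (r : ℤ) (discr (adjoin ℚ (U : Set L))) := by
    rw [Int.isCoprime_iff_gcd_eq_one, Int.gcd, Int.natAbs_natCast]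
    refine (Nat.Prime.coprime_iff_not_dvd hp).2 fun hdv => ?_
    have := Nat.le_of_dvd (Int.natAbs_pos.2 hne) hdv
    omega
  have hco : IsCoprime (discr (adjoin ℚ ({z} : Set L))) (discr (adjoin ℚ (U : Set L))) := by
    rw [hd]
    exact (isCoprime_one_left.neg_left.pow_left).mul_left hcop.pow_left
  have hs := (CycD.disj _ _ hco).finrank_sup
  have hf : Module.finrank ℚ (adjoin ℚ ({z} : Set L)) = r - 1 := by
    rw [IsCyclotomicExtension.finrank (n := r) _ (Polynomial.cyclotomic.irreducible_rat hp.pos),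
      Nat.totient_prime hp]
  rw [Set.insert_eq, IntermediateField.adjoin_union, hs, hf, mul_comm]

end Pool.Agent.MP_c481b3_nt.H28
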