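import Pool.Agent.MP_c481b3_nt.H28.InertC

set_option autoImplicit false

namespace Pool.Agent.MP_c481b3_nt.H28

open NumberField Filter Topology

namespace DensU

variable (K : Type) [Field K] [NumberField K]

lemma sum_le {x : ℝ} (h : dedekindZeta K x ≠ 0) (F : Finset (Ideal (𝓞 K)))
    (hF : ∀ I ∈ F, I ≠ ⊥) : ∑ I ∈ F, (Ideal.absNorm I : ℝ) ^ (-x) ≤ ‖dedekindZeta K x‖ := by
  classical
  let a : ℕ → ℕ := fun n => Nat.card {I : Ideal (𝓞 K) // Ideal.absNorm I = n}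
  let g : ℕ → ℝ := fun n => if n = 0 then 0 else a n * (n : ℝ) ^ (-x)
  have g0 : ∀ n, 0 ≤ g n := fun n => by
    simp only [g]
    split_ifs <;> positivity
  have hg : LSeries.term (fun n => (a n : ℂ)) x = fun n => (g n : ℂ) := by
    funext n
    rcases eq_or_ne n 0 with rfl | hn
    · simp [g]
    · rw [LSeries.term_of_ne_zero hn]
      simp only [g, if_neg hn]
      rw [Real.rpow_neg n.cast_nonneg, div_eq_mul_inv]
      push_cast
      rw [Complex.ofReal_cpow n.cast_nonneg]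
      simp
  have hz : dedekindZeta K x = ((∑' n, g n : ℝ) : ℂ) := by
    rw [Complex.ofReal_tsum, ← hg]
    rfl
  have hs : Summable g := by
    by_contra hs
    rw [hz, tsum_eq_zero_of_not_summable hs] at h
    simp at h
  rw [hz, Complex.norm_real, Real.norm_of_nonneg (tsum_nonneg g0),
    ← Finset.sum_fiberwise_of_maps_to (g := fun I => Ideal.absNorm I)
      (fun I hI => Finset.mem_image_of_mem _ hI)]
  refine le_trans (Finset.sum_le_sum fun n hn => ?_) (hs.sum_le_tsum _ fun n _ => g0 n)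
  obtain ⟨I, hI, rfl⟩ := Finset.mem_image.1 hn
  rw [Finset.sum_congr rfl (g := fun _ => (Ideal.absNorm I : ℝ) ^ (-x))
    (fun J hJ => by rw [(Finset.mem_filter.1 hJ).2]), Finset.sum_const, nsmul_eq_mul]
  simp only [g, if_neg (mt Ideal.absNorm_eq_zero_iff.1 (hF I hI))]
  refine mul_le_mul_of_nonneg_right (Nat.cast_le.2 ?_) (by positivity)
  have hfin := Ideal.finite_setOfPred_absNorm_eq (S := 𝓞 K) (Ideal.absNorm I)
  rw [← Set.ncard_coe_finset]
  exact Set.ncard_le_ncard (fun J hJ => (Finset.mem_filter.1 hJ).2) hfin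

lemma ev_le : ∃ R : ℝ, 0 < R ∧ ∀ᶠ x : ℝ in 𝓝[>] 1, ∀ F : Finset (Ideal (𝓞 K)),
    (∀ I ∈ F, I ≠ ⊥) → ∑ I ∈ F, (Ideal.absNorm I : ℝ) ^ (-x) ≤ R / (x - 1) := by
  have h := tendsto_sub_one_mul_dedekindZeta_nhdsGT K
  refine ⟨‖(dedekindZeta_residue K : ℂ)‖ + 1, by positivity, ?_⟩
  filter_upwards [h.norm.eventually (gt_mem_nhds (lt_add_one _)),
    h.eventually_ne (Complex.ofReal_ne_zero.2 (dedekindZeta_residue_ne_zero K)),
    self_mem_nhdsWithin] with x h1 h2 h3 F hF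
  have h4 : (0 : ℝ) < x - 1 := sub_pos.2 h3
  refine (sum_le K (right_ne_zero_of_mul h2) F hF).trans ?_
  rw [norm_mul, ← Complex.ofReal_one, ← Complex.ofReal_sub, Complex.norm_real,
    Real.norm_of_nonneg h4.le] at h1
  rw [le_div_iff₀' h4]
  exact h1.le

end DensU

open DensU in
theorem densUp : DensUp := by
  classical
  intro K _ _
  obtain ⟨R, R0, hR⟩ := ev_le K
  obtain ⟨x₀, h0, h1⟩ := (hR.and (Ioc_mem_nhdsGT (show (1 : ℝ) < 2 by norm_num))).exists
  refine ⟨Real.log R + R / (x₀ - 1), ?_⟩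
  filter_upwards [hR, self_mem_nhdsWithin] with x hx x1 S hS
  have x1 : (1 : ℝ) < x := x1
  have nb : ∀ P ∈ S, P ≠ ⊥ := fun P hP =>
    Ring.ne_bot_of_isMaximal_of_not_isField (hS P hP) (RingOfIntegers.not_isField K)
  have n1 : ∀ P ∈ S, (1 : ℝ) ≤ Ideal.absNorm P := fun P hP =>
    Nat.one_le_cast.2 (Nat.pos_of_ne_zero (mt Ideal.absNorm_eq_zero_iff.1 (nb P hP)))
  have inj : Set.InjOn (fun T : Finset (Ideal (𝓞 K)) => ∏ P ∈ T, P) S.powerset := by
    have aux : ∀ T ⊆ S, ∀ T' ⊆ S, ∏ P ∈ T, P = ∏ P ∈ T', P → T ⊆ T' := by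
      intro T hT T' hT' e P hP
      have h2 : ∏ Q ∈ T', Q ≤ P := e ▸ Ideal.le_of_dvd (Finset.dvd_prod_of_mem _ hP)
      obtain ⟨Q, hQ, h3⟩ := (hS P (hT hP)).isPrime.prod_le.1 h2
      rwa [← (hS Q (hT' hQ)).eq_of_le (hS P (hT hP)).ne_top h3]
    intro T hT T' hT' e
    have hT := Finset.mem_powerset.1 hT
    have hT' := Finset.mem_powerset.1 hT'
    exact (aux T hT T' hT' e).antisymm (aux T' hT' T hT e.symm)
  have h2 : ∏ P ∈ S, (1 + (Ideal.absNorm P : ℝ) ^ (-x)) ≤ R / (x - 1) := by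
    refine le_trans (le_of_eq ?_) (hx (S.powerset.image fun T => ∏ P ∈ T, P) fun I hI => ?_)
    · rw [Finset.sum_image inj, Finset.prod_one_add]
      refine Finset.sum_congr rfl fun T _ => ?_
      rw [map_prod, Nat.cast_prod, Real.finsetProd_rpow _ _ fun _ _ => Nat.cast_nonneg _]
    · obtain ⟨T, hT, rfl⟩ := Finset.mem_image.1 hI
      exact Finset.prod_ne_zero_iff.2 fun P hP => nb P (Finset.mem_powerset.1 hT hP)
  have h3 := Real.log_le_log (Finset.prod_pos fun P _ => by positivity) h2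
  rw [Real.log_prod (fun P _ => by positivity), Real.log_div R0.ne' (sub_pos.2 x1).ne'] at h3
  have h4 : ∑ P ∈ S, (Ideal.absNorm P : ℝ) ^ (-x) ≤
      ∑ P ∈ S, (Real.log (1 + (Ideal.absNorm P : ℝ) ^ (-x)) + (Ideal.absNorm P : ℝ) ^ (-x₀)) := by
    refine Finset.sum_le_sum fun P hP => ?_
    have h5 : ((Ideal.absNorm P : ℝ) ^ (-x)) ^ 2 ≤ (Ideal.absNorm P : ℝ) ^ (-x₀) := by
      rw [← Real.rpow_natCast, ← Real.rpow_mul (Nat.cast_nonneg _)]
      refine Real.rpow_le_rpow_of_exponent_le (n1 P hP) ?_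
      push_cast
      linarith [h1.2]
    have h6 : 0 ≤ (Ideal.absNorm P : ℝ) ^ (-x) := by positivity
    generalize (Ideal.absNorm P : ℝ) ^ (-x) = y at h5 h6 ⊢
    have h7 := Real.one_sub_inv_le_log_of_pos (show 0 < 1 + y by positivity)
    have h8 : (1 + y)⁻¹ ≤ 1 - y + y ^ 2 := by
      rw [inv_le_iff_one_le_mul₀ (by positivity)]
      nlinarith [pow_nonneg h6 3]
    linarith
  rw [Finset.sum_add_distrib] at h4
  linarith [h0 S nb]

end Pool.Agent.MP_c481b3_nt.H28
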