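import Pool.Agent.MP_c481b3_nt.H28.SpecD
import Pool.Agent.MP_c481b3_nt.H28.DensU

set_option autoImplicit false

namespace Pool.Agent.MP_c481b3_nt.H28

open NumberField Filter Topology

namespace DensK

variable (K : Type) [Field K] [NumberField K]

lemma ex_fin {x r : ℝ} (h : dedekindZeta K x ≠ 0) (hr : r < ‖dedekindZeta K x‖) :
    ∃ F : Finset (Ideal (𝓞 K)), (∀ I ∈ F, I ≠ ⊥) ∧
      r ≤ ∑ I ∈ F, (Ideal.absNorm I : ℝ) ^ (-x) := by
  classical
  let a : ℕ → ℕ := fun n => Nat.card {I : Ideal (𝓞 K) // Ideal.absNorm I = n}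
  let g : ℕ → ℝ := fun n => if n = 0 then 0 else a n * (n : ℝ) ^ (-x)
  have g0 : ∀ n, 0 ≤ g n := fun n => by
    simp only [g]
    split_ifs <;> positivity
  have hg : LSeries.term (fun n => (a n : ℂ)) x = fun n => (g n : ℂ) := by
    funext n
    rcases eq_or_ne n 0 with rfl | hn
    · simp [g]
    · rw [LSeries.term_of_ne_zero hn]
      simp only [g, if_neg hn]
      rw [Real.rpow_neg n.cast_nonneg, div_eq_mul_inv]
      push_cast
      rw [Complex.ofReal_cpow n.cast_nonneg]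
      simp
  have hz : dedekindZeta K x = ((∑' n, g n : ℝ) : ℂ) := by
    rw [Complex.ofReal_tsum, ← hg]
    rfl
  have hs : Summable g := by
    by_contra hs
    rw [hz, tsum_eq_zero_of_not_summable hs] at h
    simp at h
  rw [hz, Complex.norm_real, Real.norm_of_nonneg (tsum_nonneg g0)] at hr
  obtain ⟨T, hT⟩ := (hs.hasSum.eventually (lt_mem_nhds hr)).exists
  have hfin := fun n => Ideal.finite_setOfPred_absNorm_eq (S := 𝓞 K) n
  refine ⟨(T.erase 0).biUnion fun n => (hfin n).toFinset, fun I hI => ?_, ?_⟩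
  · obtain ⟨n, hn, hI⟩ := Finset.mem_biUnion.1 hI
    have e : Ideal.absNorm I = n := (hfin n).mem_toFinset.1 hI
    exact fun c => (Finset.mem_erase.1 hn).1 (e ▸ Ideal.absNorm_eq_zero_iff.2 c)
  · rw [Finset.sum_biUnion]
    · refine hT.le.trans (le_of_eq ?_)
      rw [← Finset.sum_erase (a := 0) T (by simp [g])]
      refine Finset.sum_congr rfl fun n hn => ?_
      rw [Finset.sum_congr rfl (g := fun _ => (n : ℝ) ^ (-x)) (fun J hJ => by
        rw [show Ideal.absNorm J = n from (hfin n).mem_toFinset.1 hJ]), Finset.sum_const,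
        nsmul_eq_mul]
      simp only [g, if_neg (Finset.mem_erase.1 hn).1]
      rw [← Set.ncard_eq_toFinset_card _ (hfin n)]
      rfl
    · intro n _ m _ hnm
      refine Finset.disjoint_left.2 fun I h1 h2 => hnm ?_
      exact Eq.trans (Eq.symm ((hfin n).mem_toFinset.1 h1)) ((hfin m).mem_toFinset.1 h2)

lemma ev_ge : ∃ c : ℝ, 0 < c ∧ ∀ᶠ x : ℝ in 𝓝[>] 1, ∃ F : Finset (Ideal (𝓞 K)),
    (∀ I ∈ F, I ≠ ⊥) ∧ c / (x - 1) ≤ ∑ I ∈ F, (Ideal.absNorm I : ℝ) ^ (-x) := by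
  have h := tendsto_sub_one_mul_dedekindZeta_nhdsGT K
  have h0 : (dedekindZeta_residue K : ℂ) ≠ 0 :=
    Complex.ofReal_ne_zero.2 (dedekindZeta_residue_ne_zero K)
  have h5 := norm_pos_iff.2 h0
  refine ⟨‖(dedekindZeta_residue K : ℂ)‖ / 2, by positivity, ?_⟩
  filter_upwards [h.norm.eventually (lt_mem_nhds (half_lt_self h5)),
    h.eventually_ne h0, self_mem_nhdsWithin] with x h1 h2 h3
  have h4 : (0 : ℝ) < x - 1 := sub_pos.2 h3
  refine ex_fin K (right_ne_zero_of_mul h2) ?_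
  rw [norm_mul, ← Complex.ofReal_one, ← Complex.ofReal_sub, Complex.norm_real (x - 1),
    Real.norm_of_nonneg h4.le] at h1
  rwa [div_lt_iff₀' h4]

lemma dec (I : Ideal (𝓞 K)) : I ≠ ⊥ → ∃ (T : Finset (Ideal (𝓞 K))) (B : Ideal (𝓞 K)),
    (∀ P ∈ T, P.IsMaximal) ∧ B ≠ ⊥ ∧ I = (∏ P ∈ T, P) * B ^ 2 := by
  classical
  induction I using UniqueFactorizationMonoid.induction_on_prime with
  | h₁ => exact fun h => (h rfl).elim
  | h₂ I hI =>
    intro _
    exact ⟨∅, 1, by simp, one_ne_zero, by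
      rw [isUnit_iff_eq_one.1 hI, Finset.prod_empty, one_pow, one_mul]⟩
  | h₃ J P hJ hP ih =>
    intro _
    obtain ⟨T, B, h1, h2, rfl⟩ := ih hJ
    by_cases c : P ∈ T
    · refine ⟨T.erase P, P * B, fun Q hQ => h1 Q (Finset.mem_of_mem_erase hQ),
        mul_ne_zero hP.ne_zero h2, ?_⟩
      rw [← Finset.mul_prod_erase T _ c]
      ring
    · refine ⟨insert P T, B, fun Q hQ => ?_, h2, ?_⟩
      · rcases Finset.mem_insert.1 hQ with rfl | hQ
        · exact (Ideal.isPrime_of_prime hP).isMaximal hP.ne_zero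
        · exact h1 Q hQ
      · rw [Finset.prod_insert c, mul_assoc]

lemma euler {x : ℝ} (F : Finset (Ideal (𝓞 K))) (hF : ∀ I ∈ F, I ≠ ⊥) :
    ∃ S G : Finset (Ideal (𝓞 K)), (∀ P ∈ S, P.IsMaximal) ∧ (∀ I ∈ G, I ≠ ⊥) ∧
      ∑ I ∈ F, (Ideal.absNorm I : ℝ) ^ (-x) ≤
        Real.exp (∑ P ∈ S, (Ideal.absNorm P : ℝ) ^ (-x)) *
          ∑ I ∈ G, ((Ideal.absNorm I : ℝ) ^ (-x)) ^ 2 := by
  classical
  choose! T B h1 h2 h3 using dec K
  refine ⟨F.biUnion T, F.image B, fun P hP => ?_, fun I hI => ?_, ?_⟩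
  · obtain ⟨I, hI, hP⟩ := Finset.mem_biUnion.1 hP
    exact h1 I (hF I hI) P hP
  · obtain ⟨J, hJ, rfl⟩ := Finset.mem_image.1 hI
    exact h2 J (hF J hJ)
  refine le_trans ?_ (mul_le_mul_of_nonneg_right (Real.prod_one_add_le_exp_sum _
    fun P => by positivity) (Finset.sum_nonneg fun _ _ => by positivity))
  rw [Finset.prod_one_add, Finset.sum_mul_sum, ← Finset.sum_product']
  have inj : Set.InjOn (fun I => (T I, B I)) F := fun I hI J hJ e => by
    have e1 : T I = T J := (Prod.ext_iff.1 e).1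
    have e2 : B I = B J := (Prod.ext_iff.1 e).2
    rw [h3 I (hF I hI), e1, e2, ← h3 J (hF J hJ)]
  refine le_trans (le_of_eq ?_) (Finset.sum_le_sum_of_subset_of_nonneg
    (s := F.image fun I => (T I, B I)) (fun z hz => ?_) fun z _ _ =>
      mul_nonneg (Finset.prod_nonneg fun _ _ => by positivity) (by positivity))
  · rw [Finset.sum_image inj]
    refine Finset.sum_congr rfl fun I hI => ?_
    conv_lhs => rw [h3 I (hF I hI)]
    rw [map_mul, map_prod, map_pow, Nat.cast_mul, Nat.cast_prod, Nat.cast_pow,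
      Real.mul_rpow (Finset.prod_nonneg fun _ _ => Nat.cast_nonneg _) (by positivity),
      Real.finsetProd_rpow _ _ fun _ _ => Nat.cast_nonneg _, ← Real.rpow_pow_comm
        (Nat.cast_nonneg _)]
  · obtain ⟨I, hI, rfl⟩ := Finset.mem_image.1 hz
    exact Finset.mem_product.2 ⟨Finset.mem_powerset.2 (Finset.subset_biUnion_of_mem T hI),
      Finset.mem_image_of_mem _ hI⟩

lemma card_le {p : ℕ} (hp : p.Prime) (T : Finset (Ideal (𝓞 K)))
    (hT : ∀ P ∈ T, P.IsMaximal ∧ (p : 𝓞 K) ∈ P ∧ p ≤ Ideal.absNorm P) :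
    T.card ≤ Module.finrank ℤ (𝓞 K) := by
  have h1 : ∏ P ∈ T, P ∣ Ideal.span {(p : 𝓞 K)} :=
    Finset.prod_primes_dvd _ (fun P hP => Ideal.prime_of_isPrime
      (Ring.ne_bot_of_isMaximal_of_not_isField (hT P hP).1 (RingOfIntegers.not_isField K))
        (hT P hP).1.isPrime) fun P hP => Ideal.dvd_span_singleton.2 (hT P hP).2.1
  have h2 := map_dvd Ideal.absNorm h1
  rw [Ideal.absNorm_span_natCast, map_prod] at h2
  have h3 := (Finset.pow_card_le_prod T _ p fun P hP => (hT P hP).2.2).trans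
    (Nat.le_of_dvd (pow_pos hp.pos _) h2)
  exact (Nat.pow_le_pow_iff_right hp.one_lt).1 h3

lemma high : ∃ C : ℝ, ∀ x : ℝ, 1 < x → ∀ S : Finset (Ideal (𝓞 K)),
    (∀ P ∈ S, P.IsMaximal ∧ ¬(Ideal.absNorm P).Prime) →
      ∑ P ∈ S, (Ideal.absNorm P : ℝ) ^ (-x) ≤ C := by
  classical
  have hs : Summable fun n : ℕ => ((n : ℝ) ^ 2)⁻¹ := Real.summable_nat_pow_inv.2 one_lt_two
  refine ⟨Module.finrank ℤ (𝓞 K) * ∑' n : ℕ, ((n : ℝ) ^ 2)⁻¹, fun x hx S hS => ?_⟩
  have h1 : ∀ P : Ideal (𝓞 K), P ∈ S → ∃ p : ℕ, p.Prime ∧ (p : 𝓞 K) ∈ P ∧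
      p ^ 2 ≤ Ideal.absNorm P := fun P hP => by
    have := (hS P hP).1
    obtain ⟨p, n, n0, h2, h3, h4⟩ := Ideal.exists_prime_and_absNorm_eq_pow P
    refine ⟨p, h3, h2, h4 ▸ Nat.pow_le_pow_right h3.pos ?_⟩
    by_contra c
    obtain rfl : n = 1 := by omega
    exact (hS P hP).2 (by rwa [h4, pow_one])
  choose! π h2 h3 h4 using h1
  rw [← Finset.sum_fiberwise_of_maps_to (g := π) (fun I hI => Finset.mem_image_of_mem _ hI)]
  refine le_trans (Finset.sum_le_sum (g := fun p : ℕ => Module.finrank ℤ (𝓞 K) * ((p : ℝ) ^ 2)⁻¹)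
    fun p hp => ?_) ?_
  · obtain ⟨Q, hQ, rfl⟩ := Finset.mem_image.1 hp
    have q0 : (0 : ℝ) < π Q := Nat.cast_pos.2 (h2 Q hQ).pos
    refine (Finset.sum_le_card_nsmul _ _ (((π Q : ℝ) ^ 2)⁻¹) fun P hP => ?_).trans ?_
    · obtain ⟨hP, e⟩ := Finset.mem_filter.1 hP
      have h5 : (π Q : ℝ) ^ 2 ≤ Ideal.absNorm P := by exact_mod_cast e ▸ h4 P hP
      have h6 : (1 : ℝ) ≤ (π Q : ℝ) ^ 2 := one_le_pow₀ (Nat.one_le_cast.2 (h2 Q hQ).pos)
      refine (Real.rpow_le_rpow_of_exponent_le (h6.trans h5) (show -x ≤ -1 by linarith)).trans ?_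
      rw [Real.rpow_neg_one]
      exact inv_anti₀ (by positivity) h5
    · rw [nsmul_eq_mul]
      refine mul_le_mul_of_nonneg_right (Nat.cast_le.2 (card_le K (h2 Q hQ) _ fun P hP => ?_))
        (by positivity)
      obtain ⟨hP, e⟩ := Finset.mem_filter.1 hP
      exact ⟨(hS P hP).1, e ▸ h3 P hP, e ▸ (Nat.le_self_pow two_ne_zero _).trans (h4 P hP)⟩
  · rw [← Finset.mul_sum]
    exact mul_le_mul_of_nonneg_left (hs.sum_le_tsum _ fun _ _ => by positivity) (by positivity)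

end DensK

open DensK in
theorem densK : DensK := by
  classical
  intro K _ _
  obtain ⟨R, R0, hR⟩ := DensU.ev_le K
  obtain ⟨x₀, h0, h1⟩ := (hR.and (Ioc_mem_nhdsGT (show (1 : ℝ) < 2 by norm_num))).exists
  obtain ⟨c, c0, hc⟩ := ev_ge K
  obtain ⟨C, hC⟩ := high K
  have p0 : 0 < R / (x₀ - 1) := div_pos R0 (sub_pos.2 h1.1)
  refine ⟨C + Real.log (R / (x₀ - 1)) - Real.log c, ?_⟩
  filter_upwards [hc, self_mem_nhdsWithin] with x hx x1
  have x1 : (1 : ℝ) < x := x1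
  obtain ⟨F, hF, h2⟩ := hx
  obtain ⟨S, G, hS, hG, h3⟩ := euler K (x := x) F hF
  have h4 : ∑ I ∈ G, ((Ideal.absNorm I : ℝ) ^ (-x)) ^ 2 ≤ R / (x₀ - 1) := by
    refine le_trans (Finset.sum_le_sum fun I hI => ?_) (h0 G hG)
    rw [← Real.rpow_natCast, ← Real.rpow_mul (Nat.cast_nonneg _)]
    refine Real.rpow_le_rpow_of_exponent_le (Nat.one_le_cast.2 (Nat.pos_of_ne_zero
      (mt Ideal.absNorm_eq_zero_iff.1 (hG I hI)))) ?_
    push_cast
    linarith [h1.2]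
  have h5 := Real.log_le_log (div_pos c0 (sub_pos.2 x1))
    (h2.trans (h3.trans (mul_le_mul_of_nonneg_left h4 (Real.exp_pos _).le)))
  rw [Real.log_div c0.ne' (sub_pos.2 x1).ne', Real.log_mul (Real.exp_pos _).ne' p0.ne',
    Real.log_exp, ← Finset.sum_filter_add_sum_filter_not S fun P => (Ideal.absNorm P).Prime] at h5
  have h6 := hC x x1 (S.filter fun P => ¬(Ideal.absNorm P).Prime) fun P hP =>
    ⟨hS P (Finset.mem_filter.1 hP).1, (Finset.mem_filter.1 hP).2⟩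
  refine ⟨S.filter fun P => (Ideal.absNorm P).Prime, fun P hP =>
    ⟨hS P (Finset.mem_filter.1 hP).1, (Finset.mem_filter.1 hP).2⟩, ?_⟩
  linarith

end Pool.Agent.MP_c481b3_nt.H28
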