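import Pool.Agent.MP_c481b3_nt.H28.InertC

set_option autoImplicit false

namespace Pool.Agent.MP_c481b3_nt.H28

open Filter Topology ArithmeticFunction vonMangoldt

lemma densL_summable {m : ℕ} (c : ZMod m) {x : ℝ} (hx : 1 < x) :
    Summable fun n : ℕ => residueClass c n / (n : ℝ) ^ x := by
  have he : 0 < (x - 1) / 2 := by linarith
  refine ((Real.summable_nat_rpow.2 (show (x - 1) / 2 - x < -1 by linarith)).div_const
    ((x - 1) / 2)).of_nonneg_of_le (fun n => by positivity [residueClass_nonneg c n]) fun n => ?_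
  rcases n.eq_zero_or_pos with rfl | hn
  · rw [residueClass_apply_zero, zero_div]
    positivity
  · rw [Real.rpow_sub (by exact_mod_cast hn), div_right_comm]
    exact div_le_div_of_nonneg_right (((residueClass_le c n).trans vonMangoldt_le_log).trans
      (Real.log_le_rpow_div n.cast_nonneg he)) (by positivity)

lemma densL_trunc {m : ℕ} (c : ZMod m) : ∃ C : ℝ, ∀ x : ℝ, 1 < x → ∃ S : Finset ℕ,
    (∀ q ∈ S, q.Prime ∧ (q : ZMod m) = c) ∧ ∀ t, x ≤ t →
      ∑' n, residueClass c n / (n : ℝ) ^ t ≤ ∑ q ∈ S, Real.log q * (q : ℝ) ^ (-t) + C := by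
  refine ⟨∑' n : ℕ, (if n.Prime then 0 else residueClass c n) / n + 1, fun x hx => ?_⟩
  have u := (densL_summable c hx).hasSum
  obtain ⟨s, hs⟩ := (u.eventually (lt_mem_nhds (sub_one_lt _))).exists
  refine ⟨s.filter fun q : ℕ => q.Prime ∧ (q : ZMod m) = c, fun q hq => (Finset.mem_filter.1 hq).2,
    fun t ht => ?_⟩
  have h1 : HasSum (fun n : ℕ => if n ∈ s.filter fun q : ℕ => q.Prime ∧ (q : ZMod m) = c then
      Real.log n * (n : ℝ) ^ (-t) else 0) (∑ q ∈ s.filter fun q : ℕ => q.Prime ∧ (q : ZMod m) = c,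
        Real.log q * (q : ℝ) ^ (-t)) := by
    rw [← Finset.sum_congr rfl fun n hn => if_pos hn]
    exact hasSum_sum_of_ne_finset_zero fun n hn => if_neg hn
  have h2 : HasSum (fun n : ℕ => if n ∈ s then residueClass c n / (n : ℝ) ^ x else 0)
      (∑ n ∈ s, residueClass c n / (n : ℝ) ^ x) := by
    rw [← Finset.sum_congr rfl fun n hn => if_pos hn]
    exact hasSum_sum_of_ne_finset_zero fun n hn => if_neg hn
  refine (hasSum_le (fun n => ?_) (densL_summable c (hx.trans_le ht)).hasSum
    ((h1.add (summable_residueClass_non_primes_div c).hasSum).add (u.sub h2))).trans (by linarith)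
  have r := residueClass_nonneg c n
  rcases n.eq_zero_or_pos with rfl | hn
  · simp [Nat.not_prime_zero]
  have n1 : (1 : ℝ) ≤ n := by exact_mod_cast hn
  have a1 : residueClass c n / (n : ℝ) ^ t ≤ residueClass c n / (n : ℝ) ^ x :=
    div_le_div_of_nonneg_left r (by positivity) (Real.rpow_le_rpow_of_exponent_le n1 ht)
  have a2 : residueClass c n / (n : ℝ) ^ t ≤ residueClass c n / n :=
    div_le_div_of_nonneg_left r (by positivity) (Real.self_le_rpow_of_one_le n1 (hx.le.trans ht))
  have a3 : 0 ≤ residueClass c n / (n : ℝ) := by positivity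
  by_cases e1 : n ∈ s <;> by_cases e2 : n.Prime <;> simp only [Finset.mem_filter, e1, e2, true_and,
    false_and, if_true, if_false, and_false, sub_self, add_zero, zero_div, zero_add, sub_zero]
  · by_cases e3 : (n : ZMod m) = c
    · rw [if_pos e3, Real.rpow_neg n.cast_nonneg, ← div_eq_mul_inv]
      exact div_le_div_of_nonneg_right ((residueClass_le c n).trans vonMangoldt_le_log)
        (by positivity)
    · simp [residueClass, e3]
  · exact a2
  · exact a1
  · linarith

theorem densLow : DensLow := by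
  intro m c hm hc
  have : NeZero m := ⟨hm⟩
  obtain ⟨C₁, h1⟩ := LSeries_residueClass_lower_bound hc
  obtain ⟨C₂, h2⟩ := densL_trunc c
  refine ⟨|C₁ + C₂|, ?_⟩
  filter_upwards [Ioo_mem_nhdsGT one_lt_two] with x ⟨x1, x2⟩
  obtain ⟨S, hS, h3⟩ := h2 x x1
  refine ⟨S, hS, ?_⟩
  have d : ∀ t, x ≤ t → HasDerivAt (fun t => ∑ q ∈ S, (q : ℝ) ^ (-t) +
      (m.totient : ℝ)⁻¹ * Real.log (t - 1) - (C₁ + C₂) * t)
      (∑ q ∈ S, Real.log q * (-1) * (q : ℝ) ^ (-t) + (m.totient : ℝ)⁻¹ * (1 / (t - 1)) -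
        (C₁ + C₂) * 1) t := fun t ht =>
    ((HasDerivAt.fun_sum fun q hq => (hasDerivAt_neg t).const_rpow
      (by exact_mod_cast (hS q hq).1.pos)).add ((((hasDerivAt_id t).sub_const 1).log
      (by simpa [sub_eq_zero] using (x1.trans_le ht).ne')).const_mul _)).sub
      ((hasDerivAt_id t).const_mul _)
  have a := antitoneOn_of_deriv_nonpos (convex_Icc x 2)
    (fun t ht => (d t ht.1).continuousAt.continuousWithinAt)
    (fun t ht => (d t (interior_subset ht).1).differentiableAt.differentiableWithinAt)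
    (fun t ht => by
      obtain ⟨a, b⟩ := interior_subset ht
      have := (h1 ⟨x1.trans_le a, b⟩).trans (h3 t a)
      simp only [(d t a).deriv, mul_neg, neg_mul, mul_one, Finset.sum_neg_distrib, mul_one_div]
      linarith) ⟨le_rfl, x2.le⟩ ⟨x2.le, le_rfl⟩ x2.le
  have b : 0 ≤ ∑ q ∈ S, (q : ℝ) ^ (-2 : ℝ) := by positivity
  have e : (C₁ + C₂) * (2 - x) ≤ |C₁ + C₂| :=
    (mul_le_mul_of_nonneg_right (le_abs_self _) (by linarith)).trans
      (mul_le_of_le_one_right (abs_nonneg _) (by linarith))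
  simp only [show (2 : ℝ) - 1 = 1 by norm_num, Real.log_one, mul_zero] at a
  rw [neg_div, div_eq_inv_mul]
  linarith

end Pool.Agent.MP_c481b3_nt.H28
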