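import Pool.Agent.MP_c481b3_nt.H28.InertC

set_option autoImplicit false

namespace Pool.Agent.MP_c481b3_nt.H28

open Pool.Agent.MP_c481b3_nt.H81 Polynomial IsLocalRing

namespace Deu

lemma sq_ne_three {D : ℕ} (hD : D % 4 = 3) (f : ℤ) : f ^ 2 ≠ D := fun e => by
  rcases Int.even_or_odd' f with ⟨c, rfl | rfl⟩
  · have : (D : ℤ) = 4 * c ^ 2 := by rw [← e]; ring
    omega
  · have : (D : ℤ) = 4 * (c ^ 2 + c) + 1 := by rw [← e]; ring
    omega

lemma disc_ne {D : ℕ} (hD : D % 4 = 3) (t : ℤ) : 4 * (D : ℤ) - t ^ 2 ≠ 0 := fun e => by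
  rcases Int.even_or_odd' t with ⟨c, rfl | rfl⟩
  · exact sq_ne_three hD c (by linarith)
  · have : 4 * (D : ℤ) = 4 * (c ^ 2 + c) + 1 := by linarith
    omega

lemma not_dvd {p D : ℕ} (hp : p.Prime) (h5 : 5 ≤ p) (hD : D % 4 = 3) (hlt : D < 4 * p)
    (hn : ¬p ∣ D) {s t : ℤ} (h0 : t ^ 2 ≤ 4 * D) (e : s ^ 2 = 4 * D * (4 * D - t ^ 2)) :
    ¬(p : ℤ) ∣ s := by
  intro h
  have hp' : Prime (p : ℤ) := Nat.prime_iff_prime_int.1 hp
  have n4 : ¬(p : ℤ) ∣ 4 * D := by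
    intro x
    rcases hp'.dvd_or_dvd x with x | x
    · have := Int.le_of_dvd (by norm_num) x
      omega
    · exact hn (Int.natCast_dvd_natCast.1 x)
  have h2 : (p : ℤ) ^ 2 ∣ 4 * D - t ^ 2 :=
    hp'.pow_dvd_of_dvd_mul_left 2 n4 (e ▸ pow_dvd_pow_of_dvd h 2)
  obtain ⟨k, hk⟩ := h2
  have ne := disc_ne hD t
  have p0 : (0 : ℤ) < p := by omega
  have k0 : 0 < k := by
    by_contra x
    have : (p : ℤ) ^ 2 * k ≤ 0 := mul_nonpos_of_nonneg_of_nonpos (by positivity) (by omega)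
    omega
  have kp : (p : ℤ) * k < 16 := by
    by_contra x
    have h1 : (p : ℤ) * 16 ≤ p * (p * k) := mul_le_mul_of_nonneg_left (by omega) p0.le
    have h2 := sq_nonneg t
    have h3 : (p : ℤ) * (p * k) = p ^ 2 * k := by ring
    omega
  obtain ⟨c, hc⟩ : Odd (p : ℤ) := by
    have := hp.odd_of_ne_two (by omega)
    exact_mod_cast this
  have k3 : 3 ≤ k := by
    have e1 : (p : ℤ) ^ 2 * k = 4 * ((c ^ 2 + c) * k) + k := by rw [hc]; ring
    rcases Int.even_or_odd' t with ⟨a, rfl | rfl⟩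
    · have : (2 * a) ^ 2 = 4 * a ^ 2 := by ring
      omega
    · have : (2 * a + 1) ^ 2 = 4 * (a ^ 2 + a) + 1 := by ring
      omega
  have p5 : p = 5 := by
    have : (p : ℤ) * 3 ≤ p * k := mul_le_mul_of_nonneg_left k3 p0.le
    omega
  subst p5
  have k4 : k = 3 := by omega
  subst k4
  have h2 := sq_nonneg t
  have d19 : D = 19 := by omega
  subst d19
  rw [hk] at e
  have e' : s ^ 2 = 5700 := by rw [e]; norm_num
  have a1 : |s| ^ 2 = 5700 := by rw [sq_abs, e']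
  have a2 := abs_nonneg s
  rcases le_or_gt |s| 75 with x | x <;> nlinarith

section closed
variable {k : Type} [Field k] [DecidableEq k] [IsAlgClosed k] {A B A₁ B₁ : k}

lemma exists_not_ker {l : ℕ} (t : Tm A B l) (h1 : 1 < l) {f : Pt A B →+ Pt A₁ B₁} (hf : Is l f) :
    ∃ T, l • T = 0 ∧ f T ≠ 0 := by
  obtain ⟨C, u, d, c, e⟩ := hf
  by_contra x
  have : tors A B l ⊆ C := fun T hT => d.eq_zero.1 (by
    rw [← e]
    by_contra y
    exact x ⟨T, t.mem.1 hT, y⟩)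
  have := Finset.card_le_card this
  rw [t.card, c] at this
  nlinarith

variable [DecidableEq (RatFunc k)] [DecidableEq (LL k)]

lemma cmv_of [CharZero k] {hG : Good A B} (χ : EE hG) {D : ℕ} (D0 : D ≠ 0) (hN : NE χ = D)
    (ht : pol NE χ 1 = 0) : CMv D A B := by
  have ch := congrArg (cE hG) ((compRing three_ne_zero hG).char χ)
  rw [ht, hN] at ch
  have e : cE hG χ ^ 2 = -D := by simpa [sq] using ch
  have c0 : cE hG χ ≠ 0 := fun z => by
    rw [z] at e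
    exact D0 (by simpa using e)
  obtain ⟨C, d, c, -⟩ := exists_vd three_ne_zero χ c0
  exact ⟨C, _, d, by exact_mod_cast c.trans hN, e⟩

variable (p : ℕ) [Fact p.Prime] [CharP k p]

lemma nonroot (hV : Vol) (h3 : (3 : k) ≠ 0) (H : ∀ x : k, ∃ n, n ≠ 0 ∧ x ^ p ^ n = x)
    (hG : Good A B) {D : ℕ} (h : CMb hG D) (hD : D % 4 = 3) (D0 : (D : k) ≠ 0)
    (hs : IsSquare (-(D : ZMod p))) :
    ∃ A₁ B₁ : k, Good A₁ B₁ ∧ A₁ ≠ 0 ∧ B₁ ≠ 0 ∧ ∀ C ∈ subs A₁ B₁ D, dl C ≠ 0 := by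
  obtain ⟨l, h1, hl, non⟩ := exists_inert_prime hD (4 * D + 12 + p)
  have l0 : (l : k) ≠ 0 := fun z => by
    have := (Nat.prime_dvd_prime_iff_eq Fact.out hl).1 ((CharP.cast_eq_zero_iff k p l).1 z)
    omega
  have t : Tm A B l := ⟨hG, h3, l0⟩
  obtain ⟨C, hC⟩ : (subs A B l).Nonempty := Finset.card_pos.1 (by rw [t.card_subs hl]; omega)
  obtain ⟨c1, c2⟩ := t.mem_subs.1 hC
  have d := vd_one hG h3 c1 (c2 ▸ hl.odd_of_ne_two (by omega))
  have f1 : Is l (d.hom h3) := c2 ▸ d.is h3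
  obtain ⟨g, g1, g2, g3⟩ := f1.dual h3 l0
  have key := hV k p h3 H A B _ _ hG d.good' D l 1 h D0 hs hl (by omega) l0 non (d.hom h3) g
    (by rwa [pow_one]) (by rwa [pow_one]) (by simpa using g2) (by simpa using g3)
    (exists_not_ker t (by omega) f1) (exists_not_ker (t.other d.good') (by omega) g1)
  have cr := compRing h3 d.good'
  have small : ∀ φ : EE d.good', NE φ ≤ D + 3 → 4 * NE φ - pol NE φ 1 ^ 2 = 0 := by
    intro φ hφ
    by_contra ne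
    have a := cr.cauchy φ 1
    rw [cr.one] at a
    have b := Int.le_of_dvd (by omega) (key φ)
    have c := sq_nonneg (pol NE φ 1)
    have l1 : (4 * D + 12 : ℤ) < l := by omega
    have l2 : (l : ℤ) ≤ l ^ (2 * 1) := le_self_pow₀ (by omega) (by norm_num)
    omega
  have base : ∀ m : ℕ, m = 1 ∧ vB C = 0 ∨ m = 3 ∧ vA C = 0 → False := by
    intro m hm
    obtain ⟨χ, e, -⟩ := base_cm h3 d.good' hm
    have m0 : (0 : ℤ) < m := by omega
    have e' : χ * χ = -((m : ℤ) : EE d.good') := by simpa using e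
    have := small χ (by rw [cr.norm_of_sq m0.le e']; omega)
    rw [cr.norm_of_sq m0.le e', cr.tr_of_sq m0 e'] at this
    omega
  have a0 : vA C ≠ 0 := fun z => base 3 (Or.inr ⟨rfl, z⟩)
  have b0 : vB C ≠ 0 := fun z => base 1 (Or.inl ⟨rfl, z⟩)
  refine ⟨_, _, d.good', a0, b0, fun C' hC' z => ?_⟩
  have t' : Tm (vA C) (vB C) D := ⟨d.good', h3, D0⟩
  obtain ⟨s1, s2⟩ := t'.mem_subs.1 hC'
  obtain ⟨u, d'⟩ := vd_of_dl d.good' h3 a0 b0 s1 (s2 ▸ Nat.odd_iff.2 (by omega)) z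
  obtain ⟨φ, -, -, e⟩ := d'.exists_end (hG := d.good') h3
  rw [s2] at e
  have := small φ (by omega)
  rw [e] at this
  exact disc_ne hD _ this

end closed

section red
variable {L : Type} [Field L] [CharZero L] [IsAlgClosed L] [DecidableEq L]
  {O : ValuationSubring L} [DecidableEq (ResidueField O)] [IsAlgClosed (ResidueField O)]
  {A B : ResidueField O}

omit [CharZero L] [IsAlgClosed L] [DecidableEq L] [DecidableEq (ResidueField O)]
  [IsAlgClosed (ResidueField O)] in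
lemma exists_ev (x : ResidueField O) : ∃ a : L, Ev (resPlc O) a x := by
  obtain ⟨a, ha⟩ := residue_surjective x
  exact ⟨a, a.2, ha ▸ (resPlc O).ev_coe a⟩

omit [CharZero L] [IsAlgClosed (ResidueField O)] in
lemma red_surj {a b : L} (r : Rd (resPlc O) a b A B) (Q : Pt A B) : ∃ P, r.red P = Q := by
  by_cases hQ : Q = 0
  · exact ⟨0, by rw [map_zero, hQ]⟩
  obtain ⟨x, hx⟩ := exists_ev (xc Q)
  obtain ⟨P, P0, hP⟩ := exists_pt (rd_good r) x
  have m : xc P ∈ (resPlc O).O := hP ▸ hx.mem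
  rcases eq_or_neg (r.red_ne P0 m) hQ (by rw [r.xc_red P0 m, hP, hx.ev]) with e | e
  · exact ⟨P, e⟩
  · exact ⟨-P, by rw [map_neg, e, neg_neg]⟩

lemma az_zero_iff {D : ℕ} {Ψ : ℤ[X]} (hΨ : IsUnivPsi D Ψ) (t : Tm A B D) (a0 : A ≠ 0)
    (b0 : B ≠ 0) : az (A ^ 3 / B ^ 2) Ψ = 0 ↔ ∃ C ∈ subs A B D, dl C = 0 := by
  obtain ⟨a, ha⟩ := exists_ev A
  obtain ⟨b, hb⟩ := exists_ev B
  have r := rd_of ha hb t.good
  have e1 := ev_az Ψ ((ha.pow 3).div (hb.pow 2) (pow_ne_zero 2 b0))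
  have e2 := (ev_prod_dl r t).mul (((ha.div hb b0).pow 12).pow (subs a b D).card)
  rw [hΨ.az (rd_good r) (ha.ne_zero a0) (hb.ne_zero b0), Finset.prod_mul_distrib,
    Finset.prod_const] at e1
  rw [e1.unique e2, mul_eq_zero_iff_right (pow_ne_zero _ (pow_ne_zero _ (div_ne_zero a0 b0))),
    Finset.prod_eq_zero_iff]
  exact exists_congr fun C => and_congr Iff.rfl (mul_eq_zero_iff_left (pow_ne_zero _ t.ne))

omit [DecidableEq (ResidueField O)] [IsAlgClosed (ResidueField O)] in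
lemma exists_root {D : ℕ} {Ψ : ℤ[X]} (hΨ : IsUnivPsi D Ψ) (t : Tm A B D) (a0 : A ≠ 0)
    (b0 : B ≠ 0) (ho : Odd D) {i : ℕ} (hi : ((Ψ.coeff i : ℤ) : ResidueField O) ≠ 0)
    (h : az (A ^ 3 / B ^ 2) Ψ = 0) : ∃ a b : L, Rd (resPlc O) a b A B ∧
      ∃ (C : Finset (Pt a b)) (u : L), VD C u a b ∧ C.card = D := by
  obtain ⟨a, ha⟩ := exists_ev A
  obtain ⟨b, hb⟩ := exists_ev B
  have r := rd_of ha hb t.good
  have hw := (ha.pow 3).div (hb.pow 2) (pow_ne_zero 2 b0)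
  have w0 : A ^ 3 / B ^ 2 ≠ 0 := div_ne_zero (pow_ne_zero _ a0) (pow_ne_zero _ b0)
  have e1 := ev_az Ψ hw
  rw [h] at e1
  obtain ⟨w, w1, w2⟩ := exists_root_near O (t := a ^ 3 / b ^ 2) hw.mem
    (Ψ.map (Int.castRingHom L)) (i := i) (by
      rw [az_map, coeff_map, eq_intCast]
      exact e1.v_lt.trans_eq ((Ev.int (resPlc O) _).v_one hi).symm)
  have n1 := hw.ne_zero w0
  have e2 : Ev (resPlc O) (w / (a ^ 3 / b ^ 2) - 1) 0 :=
    ((Ev.of_lt (π := resPlc O) w2).div hw w0).congr (by rw [sub_div, div_self n1]) (zero_div _)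
  have r₀ := rd_mul r e2.v_lt
  have a1 := (rdA r₀).ne_zero a0
  have b1 := (rdB r₀).ne_zero b0
  have n2 := ha.ne_zero a0
  have n3 := hb.ne_zero b0
  have n4 : w ≠ 0 := fun z => a1 (by rw [z]; simp)
  have e3 := hΨ.az (rd_good r₀) a1 b1
  rw [show (a * (w / (a ^ 3 / b ^ 2))) ^ 3 / (b * (w / (a ^ 3 / b ^ 2))) ^ 2 = w by field_simp,
    ← az_map, w1, eq_comm, Finset.prod_eq_zero_iff] at e3
  obtain ⟨C, hC, e4⟩ := e3
  have t₀ := t.up r₀
  rw [mul_eq_zero_iff_right (pow_ne_zero _ (div_ne_zero a1 b1)),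
    mul_eq_zero_iff_left (pow_ne_zero _ t₀.ne)] at e4
  obtain ⟨s1, s2⟩ := t₀.mem_subs.1 hC
  obtain ⟨u, d⟩ := vd_of_dl t₀.good t₀.three a1 b1 s1 (s2 ▸ ho) e4
  exact ⟨_, _, r₀, C, u, d, s2⟩

variable [DecidableEq (RatFunc (ResidueField O))] [DecidableEq (LL (ResidueField O))]
  [DecidableEq (RatFunc L)] [DecidableEq (LL L)]

lemma red_end {a b : L} (r : Rd (resPlc O) a b A B) (h3 : (3 : ResidueField O) ≠ 0)
    {C : Finset (Pt a b)} {u : L} (d : VD C u a b) (n0 : (C.card : ResidueField O) ≠ 0) :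
    ∃ (φ : EE d.good) (ψ : EE r.good), NE φ = C.card ∧ NE ψ = C.card ∧ cE r.good ψ ≠ 0 ∧
      pol NE ψ 1 = pol NE φ 1 ∧ ∀ P, r.red (φ.1 P) = ψ.1 (r.red P) := by
  obtain ⟨φ, a1, a2, a3⟩ := d.exists_end (hG := d.good) three_ne_zero
  have ch := (compRing three_ne_zero d.good).char φ
  obtain ⟨t, ht⟩ : ∃ t, pol NE φ 1 = t := ⟨_, rfl⟩
  rw [ht] at ch
  have e := congrArg (cE d.good) ch
  rw [map_mul, map_sub, map_mul, map_intCast, map_intCast, a2, a3, Int.cast_natCast] at e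
  have m1 := ((Ev.int (resPlc O) t).pow 2).sub ((Ev.ofNat _ 4).mul (Ev.nat _ C.card))
  have m2 : 2 * u - t ∈ O := mem_of_sq (by
    rw [show (2 * u - t) ^ 2 = (t : L) ^ 2 - 4 * C.card by linear_combination 4 * e]
    exact m1.mem)
  have m3 := (((Ev.of_mem (π := resPlc O) m2).add (Ev.int _ t)).div (Ev.ofNat _ 2)
    r.good.two).congr (show _ = u by field_simp; ring) rfl
  have hu := Ev.of_mem m3.mem
  have u0 : (resPlc O).ev u ≠ 0 := fun z => n0 (by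
    have := (hu.mul hu).unique ((((Ev.int _ t).mul hu).sub (Ev.nat _ C.card)).congr e.symm rfl)
    simpa [z] using this)
  have hf := red_sub_ne r d.sub n0
  obtain ⟨ψ, p1, p2, p3⟩ := (d.red r r hu u0 hf).exists_end (hG := r.good) h3
  rw [card_red r d.sub n0] at p3
  have key : ∀ P, r.red (φ.1 P) = ψ.1 (r.red P) := fun P => by
    rw [a1, p1]
    exact d.red_vm r r hu u0 hf P
  refine ⟨φ, ψ, a3, p3, p2 ▸ u0, ?_, key⟩
  have cr := compRing h3 r.good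
  have c1 : ψ * ψ = t * ψ - NE ψ := EE_ext fun Q => by
    obtain ⟨P, rfl⟩ := red_surj r Q
    have := congrArg (fun φ : EE d.good => r.red (φ.1 P)) ch
    simp only [EE_mul, EE_sub, EE_int, map_sub, map_zsmul, key, a3] at this
    simp only [EE_mul, EE_sub, EE_int, p3, this]
  have ψ0 : ψ ≠ 0 := fun z => u0 (by rw [← p2, z, map_zero])
  rw [ht]
  exact cr.int_inj (cr.cancel' ψ0 (sub_left_injective ((cr.char ψ).symm.trans c1)))

end red

end Deu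

open Deu in
theorem deuring_of (hV : Vol) : Deuring := by
  intro L _ _ _ _ _ O p _ _ _ _ _ _ h5 A B hG D h hD hlt hn hs
  classical
  have hp : p.Prime := Fact.out
  obtain ⟨h2, h3⟩ := small_ne (ResidueField O) h5
  have H := res_alg O p
  have D0 : (D : ResidueField O) ≠ 0 := fun z => hn ((CharP.cast_eq_zero_iff _ p D).1 z)
  have D1 : D ≠ 0 := by omega
  have D2 : (0 : ℤ) < D := by omega
  obtain ⟨Ψ, hΨ⟩ := (univ D D1).2
  obtain ⟨i, hi⟩ : ∃ i, ((Ψ.coeff i : ℤ) : ResidueField O) ≠ 0 := by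
    obtain ⟨A₁, B₁, g, a0, b0, hC⟩ := nonroot p hV h3 H hG h hD D0 hs
    by_contra x
    obtain ⟨C, c1, c2⟩ := (az_zero_iff hΨ ⟨g, h3, D0⟩ a0 b0).1 (by
      have : Ψ.map (Int.castRingHom (ResidueField O)) = 0 := by
        ext i
        rw [coeff_map, eq_intCast, coeff_zero]
        by_contra y
        exact x ⟨i, y⟩
      rw [← az_map, this, eval_zero])
    exact hC C c1 c2
  refine ⟨⟨Ψ, hΨ, fun z => hi (by simp [z])⟩, ?_⟩
  obtain ⟨χ, e, c0⟩ := h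
  have cr := compRing h3 hG
  have e' : χ * χ = -((D : ℤ) : EE hG) := by simpa using e
  have hN := cr.norm_of_sq D2.le e'
  have ht := cr.tr_of_sq D2 e'
  obtain ⟨Q, q0, hQ⟩ := tors_of_cm p hG h3 e D0 hs
  have base : ∀ m : ℕ, m = 1 ∧ B = 0 ∨ m = 3 ∧ A = 0 → ∃ s : ℤ, s ^ 2 = 16 * m * D := by
    intro m hm
    obtain ⟨ω, e1, e2, -⟩ := base_cm h3 hG hm
    have m0 : (0 : ℤ) < m := by omega
    have e1' : ω * ω = -((m : ℤ) : EE hG) := by simpa using e1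
    obtain ⟨s, -, e3⟩ := cr.comm_rel (cr.tr_of_sq m0 e1') (ord_comm p hG h3 H q0 hQ χ ω c0 e2)
    rw [cr.norm_of_sq m0.le e1', hN, ht] at e3
    exact ⟨s, mul_right_cancel₀ m0.ne' (by linear_combination e3)⟩
  have four : ∀ s c : ℤ, s ^ 2 = 16 * c → ∃ f, f ^ 2 = c := fun s c e => by
    obtain ⟨f, rfl⟩ : (4 : ℤ) ∣ s := (Int.pow_dvd_pow_iff two_ne_zero).1 ⟨c, by rw [e]; norm_num⟩
    exact ⟨f, by linarith⟩
  by_cases b0 : B = 0
  · obtain ⟨s, e1⟩ := base 1 (Or.inl ⟨rfl, b0⟩)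
    obtain ⟨f, e2⟩ := four s D (by simpa using e1)
    exact absurd e2 (sq_ne_three hD f)
  by_cases a0 : A = 0
  · obtain ⟨s, e1⟩ := base 3 (Or.inr ⟨rfl, a0⟩)
    obtain ⟨f, e2⟩ := four s (3 * D) (by rw [e1]; push_cast; ring)
    obtain ⟨g, rfl⟩ : (3 : ℤ) ∣ f := Int.prime_three.dvd_of_dvd_pow ⟨D, e2⟩
    obtain ⟨b, hb⟩ := exists_ev B
    have r := rd_of ((Ev.zero (resPlc O)).congr rfl a0.symm) hb hG
    obtain ⟨ω, e3, -⟩ := base_cm three_ne_zero (rd_good r) (l := 3) (Or.inr ⟨rfl, rfl⟩)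
    have cr₀ := compRing three_ne_zero (rd_good r)
    have e3' : ω * ω = -((3 : ℤ) : EE (rd_good r)) := by simpa using e3
    refine ⟨_, _, r, cmv_of ((g : EE (rd_good r)) * ω) D1 ?_ ?_⟩
    · rw [cr₀.int_mul, cr₀.norm_of_sq (by norm_num) e3']
      linarith
    · rw [cr₀.pol_int, cr₀.tr_of_sq (by norm_num) e3', mul_zero]
  have t : Tm A B D := ⟨hG, h3, D0⟩
  obtain ⟨C', d', c', -⟩ := exists_vd h3 χ c0
  obtain ⟨a, b, r, C, u, d, c⟩ := exists_root hΨ t a0 b0 (Nat.odd_iff.2 (by omega)) hi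
    ((az_zero_iff hΨ t a0 b0).2
      ⟨C', t.mem_subs.2 ⟨d'.sub, by exact_mod_cast c'.trans hN⟩, d'.dl_eq⟩)
  obtain ⟨φ, ψ, p1, p2, p3, p4, p5⟩ := red_end r h3 d (c ▸ D0)
  rw [c] at p1 p2
  obtain ⟨s, s1, s2⟩ := cr.comm_rel ht (ord_comm p hG h3 H q0 hQ ψ χ p3 c0)
  have cau := cr.cauchy ψ 1
  rw [cr.one, p2] at cau
  rw [hN, p2] at s2
  rw [hN] at s1
  have s3 : s ^ 2 = 4 * D * (4 * D - pol NE ψ 1 ^ 2) :=
    mul_right_cancel₀ D2.ne' (by linear_combination s2)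
  have nd := not_dvd hp h5 hD hlt hn (by linarith) s3
  have n0 : (s.natAbs : ResidueField O) ≠ 0 := fun z =>
    nd (Int.natCast_dvd.2 ((CharP.cast_eq_zero_iff _ p _).1 z))
  have tn : Tm A B s.natAbs := ⟨hG, h3, n0⟩
  have cr₀ := compRing three_ne_zero d.good
  obtain ⟨ω, hω⟩ := div_nat (tn.up r)
    (((2 * D : ℤ) : EE d.good) * ((2 : ℤ) * φ - pol NE φ 1)) fun P hP => by
      by_contra z
      refine red_tors_ne r n0 z (by rw [← map_nsmul, hP, map_zero]) ?_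
      have e1 := congrArg (fun η : EE hG => η.1 (r.red P)) s1
      simp only [EE_mul, EE_sub, EE_int] at e1
      rw [EE_mul, EE_int, map_zsmul, EE_sub, EE_mul, EE_int, EE_int, map_sub, map_zsmul, map_zsmul,
        p5, ← p4, e1, ← map_zsmul, ← map_zsmul, natAbs_nsmul_eq_zero.1 hP, map_zero, map_zero]
  have n1 : ((s.natAbs : ℕ) : ℤ) ≠ 0 := by exact_mod_cast tn.pos
  have hω' := hω.trans (congrArg (· * ω) (Int.cast_natCast s.natAbs).symm)
  have f1 := congrArg NE hω'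
  have f2 := congrArg (pol NE · 1) hω'
  simp only [cr₀.pol_int, cr₀.pure_tr, mul_zero] at f2
  rw [cr₀.int_mul, cr₀.int_mul, cr₀.pure_norm, p1, ← p4] at f1
  refine ⟨a, b, r, cmv_of ω D1 (mul_left_cancel₀ (pow_ne_zero 2 n1) ?_)
    ((mul_eq_zero_iff_left n1).1 f2.symm)⟩
  rw [← f1, Int.natAbs_sq, s3]
  ring

end Pool.Agent.MP_c481b3_nt.H28
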