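import Pool.Agent.MP_c481b3_nt.H28.LocD

set_option autoImplicit false

namespace Pool.Agent.MP_c481b3_nt.H28

open Pool.Agent.MP_c481b3_nt.H81 Polynomial NumberField IsLocalRing IsDedekindDomain Filter
  Topology IntermediateField

/-- the residue lies in the prime field -/
def Fq {L : Type} [Field L] (O : ValuationSubring L) (q : ℕ) (u : L) : Prop :=
  u ∈ O ∧ O.valuation (u ^ q - u) < 1

/-- lower bound for sums over prime ideals of degree one -/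
def DensK : Prop :=
  ∀ (K : Type) [Field K] [NumberField K], ∃ C : ℝ, ∀ᶠ x : ℝ in 𝓝[>] 1,
    ∃ S : Finset (Ideal (𝓞 K)), (∀ P ∈ S, P.IsMaximal ∧ (Ideal.absNorm P).Prime) ∧
      -Real.log (x - 1) - C ≤ ∑ P ∈ S, (Ideal.absNorm P : ℝ) ^ (-x)

/-- a prime of degree one that splits completely in neither of two extensions -/
def NotSplit2 : Prop :=
  ∀ (L : Type) [Field L] [CharZero L] [IsAlgClosed L] [Algebra.IsAlgebraic ℚ L]
    (U T₁ T₂ : Finset L) (n₀ n₁ n₂ : ℕ), n₀ = Module.finrank ℚ (adjoin ℚ (U : Set L)) →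
    n₁ = Module.finrank ℚ (adjoin ℚ (U ∪ T₁ : Set L)) →
    n₂ = Module.finrank ℚ (adjoin ℚ (U ∪ T₂ : Set L)) → n₀ * (n₁ + n₂) < n₁ * n₂ →
    ∀ M : ℕ, ∃ q : ℕ, q.Prime ∧ M < q ∧ ∃ O : ValuationSubring L, O.valuation (q : L) < 1 ∧
      (∀ u ∈ U, Fq O q u) ∧ (∃ t ∈ T₁, ∃ σ : L ≃+* L, (∀ u ∈ U, σ u = u) ∧ ¬Fq O q (σ t)) ∧
      ∃ t ∈ T₂, ∃ σ : L ≃+* L, (∀ u ∈ U, σ u = u) ∧ ¬Fq O q (σ t)

/-- cyclotomic fields of large prime level are disjoint from a given number field -/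
def CycDis : Prop :=
  ∀ (L : Type) [Field L] [CharZero L] [IsAlgClosed L] [Algebra.IsAlgebraic ℚ L] (U : Finset L)
    (n : ℕ), ∃ r : ℕ, r.Prime ∧ n < r ∧ ∀ z : L, IsPrimitiveRoot z r →
      Module.finrank ℚ (adjoin ℚ (insert z (U : Set L)))
        = Module.finrank ℚ (adjoin ℚ (U : Set L)) * (r - 1)

/-- an element of norm one that is no `r`-th power stays so modulo many inert primes -/
def KumK2 : Prop :=
  ∀ (L : Type) [Field L] [CharZero L] [IsAlgClosed L] [Algebra.IsAlgebraic ℚ L] (D : ℕ) (s : L)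
    (U : Finset L) (τ : L ≃+* L), D ≠ 0 → s ^ 2 = -D → τ s = -s → (∀ u ∈ U, τ u = u) →
    ∀ n : ℕ, ∃ r : ℕ, r.Prime ∧ n < r ∧ ∀ a b : ℚ, (a : L) - b * s ≠ 0 →
    (∀ c d : ℚ, ((c : L) + d * s) ^ r ≠ (a + b * s) / (a - b * s)) →
    ∀ M : ℕ, ∃ q : ℕ, q.Prime ∧ M < q ∧ ¬IsSquare (-(D : ZMod q)) ∧ r ∣ q + 1 ∧
      ∃ O : ValuationSubring L, O.valuation (q : L) < 1 ∧ (∀ u ∈ U, Fq O q u) ∧
        ¬O.valuation ((((a : L) + b * s) / (a - b * s)) ^ ((q ^ 2 - 1) / r) - 1) < 1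

/-- the arithmetic contradiction -/
def NTMain2 : Prop :=
  ∀ (L : Type) [Field L] [CharZero L] [IsAlgClosed L] [Algebra.IsAlgebraic ℚ L] (D l M p₀ : ℕ)
    (s : L) (w : ℕ → L) (O₀ : ValuationSubring L) (γ : O₀.ValueGroup) (U : Finset L)
    (τ : L ≃+* L), D ≠ 0 → s ^ 2 = -D → τ s = -s → (∀ u ∈ U, τ u = u) → l ≠ 0 → p₀.Prime →
    O₀.valuation (p₀ : L) < 1 → γ ≠ 1 →
    (∀ T, ∃ a b : ℚ, (a : L) - b * s ≠ 0 ∧ w T = (a + b * s) / (a - b * s)) →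
    (∀ T, T ≠ 0 → O₀.valuation (w T) = γ) →
    (∀ (T p : ℕ) (O : ValuationSubring L), p.Prime → M < p → IsSquare (-(D : ZMod p)) →
      O.valuation (p : L) < 1 → O.valuation (w T) = 1) →
    (∀ (q : ℕ) (O : ValuationSubring L), q.Prime → M < q → ¬IsSquare (-(D : ZMod q)) →
      O.valuation (q : L) < 1 → (∀ u ∈ U, Fq O q u) → ∃ a T : ℕ, T ≠ 0 ∧
        ∀ t, O.valuation (w (T * t) ^ l ^ a - 1) < 1) → False

/-- lifting an ordinary curve together with a square root of `-D` -/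
def Deuring2 : Prop :=
  ∀ (L : Type) [Field L] [CharZero L] [IsAlgClosed L] [Algebra.IsAlgebraic ℚ L] [DecidableEq L]
    (O : ValuationSubring L) (p : ℕ) [Fact p.Prime] [CharP (ResidueField O) p]
    [DecidableEq (ResidueField O)] [IsAlgClosed (ResidueField O)]
    [DecidableEq (RatFunc (ResidueField O))] [DecidableEq (LL (ResidueField O))], 5 ≤ p →
    ∀ (A B : ResidueField O) (hG : Good A B) (D : ℕ), CMb hG D → ¬p ∣ D →
    IsSquare (-(D : ZMod p)) → ∃ n : ℕ, ¬p ∣ n ∧ ∃ A₀ B₀ : L, Rd (resPlc O) A₀ B₀ A B ∧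
      CMv D A₀ B₀ ∧ ∀ O' : ValuationSubring L, O'.valuation ((6 * n : ℕ) : L) = 1 → jj A₀ B₀ ∈ O'

/-! ### level structures of odd prime order -/

section tate
variable {k : Type} [Field k] {A B : k}

/-- the coefficient `a₁` after moving `P` to the origin with horizontal tangent -/
noncomputable def t1 (P : Pt A B) : k := (3 * xc P ^ 2 + A) / yc P

/-- the coefficient `a₂` -/
noncomputable def t2 (P : Pt A B) : k := 3 * xc P - t1 P ^ 2 / 4

/-- the coefficient `a₃` -/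
noncomputable def t3 (P : Pt A B) : k := 2 * yc P

/-- the coordinate on the modular curve of level `N = 3, 5, 7` -/
noncomputable def muN (N : ℕ) (P : Pt A B) : k :=
  if N = 3 then t1 P ^ 3 / t3 P else if N = 5 then t2 P ^ 3 / t3 P ^ 2
    else t2 P ^ 3 / t3 P ^ 2 / (1 - t1 P * t2 P / t3 P)

variable [DecidableEq k]

/-- `h` is the scaled kernel polynomial of a subgroup of order `N` -/
def KerP (N : ℕ) (h : k[X]) (A B : k) : Prop := ∃ D : Finset (Pt A B), IsSub D ∧ D.card = N ∧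
  ∏ P ∈ D.erase 0, (X - C (N * xc P)) = h

end tate

/-- the coordinate determines the pair -/
def MuIso : Prop :=
  ∀ (k : Type) [Field k] [DecidableEq k] [IsAlgClosed k], (3 : k) ≠ 0 → ∀ (N : ℕ) (A B A' B' : k)
    (P : Pt A B) (P' : Pt A' B'), N = 3 ∨ N = 5 ∨ N = 7 → Good A B → Good A' B' → P ≠ 0 →
    N • P = 0 → P' ≠ 0 → N • P' = 0 → muN N P = muN N P' →
    ∃ u, VD ({0} : Finset (Pt A B)) u A' B' ∧ vm {0} u A' B' P = P'

/-- the coordinate is compatible with reduction -/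
def MuRed : Prop :=
  ∀ (L κ : Type) [Field L] [Field κ] [DecidableEq L] [DecidableEq κ] (π : Plc L κ) (N : ℕ)
    (A B : L) (A' B' : κ) (r : Rd π A B A' B') (P : Pt A B), N = 3 ∨ N = 5 ∨ N = 7 →
    r.red P ≠ 0 → N • r.red P = 0 → Ev π (muN N P) (muN N (r.red P))

/-- a rational subgroup has a rational kernel polynomial -/
def KerPol : Prop :=
  ∀ (K : Type) [Field K] [NumberField K] [DecidableEq (AlgebraicClosure K)] (A B : 𝓞 K)
    (D : Finset (Pt (iK A) (iK B))), Good (iK A) (iK B) → IsSub D →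
    (∀ σ : AlgebraicClosure K ≃ₐ[K] AlgebraicClosure K, ∀ P ∈ D, ∃ Q ∈ D, xc Q = σ (xc P)) →
    ∃ h : (𝓞 K)[X], h.map iK = ∏ P ∈ D.erase 0, (X - C (D.card * xc P))

/-- Frobenius on a rational subgroup of prime order -/
def SeedN : Prop :=
  ∀ (k : Type) [Field k] [DecidableEq k] [IsAlgClosed k] [DecidableEq (RatFunc k)]
    [DecidableEq (LL k)] (p : ℕ) [Fact p.Prime] [CharP k p], 5 ≤ p →
    ∀ (A B : k) (hG : Good A B) (hA : A ^ p ^ 1 = A) (hB : B ^ p ^ 1 = B) (N : ℕ) (h : k[X]),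
    N.Prime → N ≠ p → (∀ i, h.coeff i ^ p = h.coeff i) → KerP N h A B →
    ∀ a : ℤ, pol NE (frE hG p 1 hA hB) 1 = a → ∃ c : ℤ, (N : ℤ) ∣ c ^ 2 - a * c + p ∧
      ∀ P : Pt A B, P ≠ 0 → h.eval (N * xc P) = 0 → (frE hG p 1 hA hB).1 P = c • P

/-- Frobenius and a rational point of order two -/
def SeedTwo : Prop :=
  ∀ (k : Type) [Field k] [DecidableEq k] [IsAlgClosed k] [DecidableEq (RatFunc k)]
    [DecidableEq (LL k)] (p : ℕ) [Fact p.Prime] [CharP k p], 5 ≤ p →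
    ∀ (A B δ e r : k) (hG : Good A B) (hA : A ^ p ^ 1 = A) (hB : B ^ p ^ 1 = B), δ ^ p = δ →
    δ ^ 2 = -(4 * A ^ 3 + 27 * B ^ 2) → e ^ p = e → e ^ 3 + A * e + B = 0 → r ^ p = r →
    r ^ 2 = 3 * e ^ 2 + A → ∀ a : ℤ, pol NE (frE hG p 1 hA hB) 1 = a → a ≠ 0 → a % 4 = 0 →
    ∃ (D : ℕ) (χ : EE hG), ¬p ∣ D ∧ IsSquare (-(D : ZMod p)) ∧ χ * χ = -(D : EE hG) ∧
      cE hG χ ≠ 0 ∧ IsSquare ((a ^ 2 - 4 * p) * -(D : ℤ)) ∧ OrE χ (pt A B e 0) 0 ∧
      ¬OrE (-χ) (pt A B e 0) 0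

lemma exists_inert2 {D : ℕ} (hD : D ≠ 0) (M : ℕ) :
    ∃ l, M < l ∧ l.Prime ∧ ¬IsSquare (-(D : ZMod l)) := by
  obtain ⟨e, he⟩ : ∃ e, 4 * D = e + 1 := ⟨4 * D - 1, by omega⟩
  have c : e.Coprime (4 * D) := by rw [he]; simp
  obtain ⟨l, h1, h2, h3⟩ := Nat.forall_exists_prime_gt_and_modEq M (by omega) c
  have := Fact.mk h2
  have h4 : l % 4 = 3 := by
    have := h3.of_mul_right D
    unfold Nat.ModEq at this
    omega
  have ol : Odd l := Nat.odd_iff.2 (by omega)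
  have oe : Odd e := Nat.odd_iff.2 (by omega)
  have e1 : jacobiSym (D : ℤ) e = 1 := by
    have : (D : ℤ) ≡ (2 * D) ^ 2 [ZMOD e] := Int.modEq_iff_dvd.2 ⟨D, by
      have : (e : ℤ) = 4 * D - 1 := by omega
      rw [this]; ring⟩
    rw [jacobiSym.mod_left' this, jacobiSym.sq_one']
    exact Int.isCoprime_iff_gcd_eq_one.1 ⟨2, -1, by
      have : (e : ℤ) = 4 * D - 1 := by omega
      rw [this]; ring⟩
  have e2 : jacobiSym (-(D : ℤ)) l = -1 := by
    rw [jacobiSym.neg _ ol, ZMod.χ₄_nat_three_mod_four h4, jacobiSym.mod_right' D ol, h3,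
      ← jacobiSym.mod_right' D oe, e1, mul_one]
  exact ⟨l, h1, h2, by simpa using ZMod.nonsquare_of_jacobiSym_eq_neg_one e2⟩

end Pool.Agent.MP_c481b3_nt.H28
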