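import Pool.Agent.MP_c481b3_nt.H28.DeuC
import Pool.Agent.MP_c481b3_nt.H28.SpecD

set_option autoImplicit false

namespace Pool.Agent.MP_c481b3_nt.H28

open Pool.Agent.MP_c481b3_nt.H81 Polynomial IsLocalRing

namespace DeuD
open Deu

lemma exists_deg {p D : ℕ} [Fact p.Prime] (h5 : 5 ≤ p) (hn : ¬p ∣ D) :
    ∃ m : ℕ, Odd (m ^ 2 + D) ∧ ¬IsSquare ((m ^ 2 + D : ℕ) : ZMod p) := by
  have hp : p.Prime := Fact.out
  have D0 : (D : ZMod p) ≠ 0 := fun z => hn ((ZMod.natCast_eq_zero_iff D p).1 z)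
  obtain ⟨x, hx⟩ : ∃ x : ZMod p, ¬IsSquare (x ^ 2 + D) := by
    by_contra h
    have h1 : ∀ x : ZMod p, IsSquare (x ^ 2 + D) := fun x => by
      by_contra y
      exact h ⟨x, y⟩
    have h2 : ∀ k : ℕ, IsSquare ((k : ZMod p) * D) := fun k => by
      induction k with
      | zero => simp
      | succ k ih =>
        obtain ⟨r, hr⟩ := ih
        have := h1 r
        rwa [sq, ← hr, show (k : ZMod p) * D + D = ((k + 1 : ℕ) : ZMod p) * D by
          push_cast; ring] at this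
    obtain ⟨y, hy⟩ := FiniteField.exists_nonsquare (F := ZMod p) (by
      rw [ZMod.ringChar_zmod_n]; omega)
    have := h2 (y / D).val
    rw [ZMod.natCast_zmod_val, div_mul_cancel₀ _ D0] at this
    exact hy this
  by_cases ho : Odd (x.val ^ 2 + D)
  · exact ⟨x.val, ho, by simpa using hx⟩
  refine ⟨x.val + p, ?_, by simpa using hx⟩
  obtain ⟨c, hc⟩ := hp.odd_of_ne_two (by omega)
  obtain ⟨e, he⟩ := Nat.not_odd_iff_even.1 ho
  refine ⟨e + x.val * p + 2 * c ^ 2 + 2 * c, ?_⟩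
  have : (x.val + p) ^ 2 = x.val ^ 2 + 2 * (x.val * p) + p ^ 2 := by ring
  have h2 : p ^ 2 = 4 * c ^ 2 + 4 * c + 1 := by rw [hc]; ring
  omega

lemma not_dvd_disc {p n : ℕ} [Fact p.Prime] (h5 : 5 ≤ p) (hn : ¬IsSquare (n : ZMod p)) (t : ℤ) :
    ¬(p : ℤ) ∣ 4 * n - t ^ 2 := by
  intro h
  have e := (ZMod.intCast_zmod_eq_zero_iff_dvd _ p).2 h
  push_cast at e
  have h2 : (2 : ZMod p) ≠ 0 := (small_ne (ZMod p) h5).1
  exact hn ⟨t / 2, by field_simp; linear_combination e⟩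

section closed
variable {k : Type} [Field k] [DecidableEq k] [IsAlgClosed k] {A B : k}
  [DecidableEq (RatFunc k)] [DecidableEq (LL k)] (p : ℕ) [Fact p.Prime] [CharP k p]

lemma nonroot2 (hV : Vol) (h3 : (3 : k) ≠ 0) (H : ∀ x : k, ∃ n, n ≠ 0 ∧ x ^ p ^ n = x)
    (hG : Good A B) {D n : ℕ} (h : CMb hG D) (D0 : (D : k) ≠ 0)
    (hs : IsSquare (-(D : ZMod p))) (ho : Odd n) (n0 : (n : k) ≠ 0)
    (hn : ∀ t : ℤ, 4 * (n : ℤ) - t ^ 2 ≠ 0) :
    ∃ A₁ B₁ : k, Good A₁ B₁ ∧ A₁ ≠ 0 ∧ B₁ ≠ 0 ∧ ∀ C ∈ subs A₁ B₁ n, dl C ≠ 0 := by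
  obtain ⟨l, h1, hl, non⟩ := exists_inert2 (D := D) (by rintro rfl; simp at D0) (4 * n + 12 + p)
  have l0 : (l : k) ≠ 0 := fun z => by
    have := (Nat.prime_dvd_prime_iff_eq Fact.out hl).1 ((CharP.cast_eq_zero_iff k p l).1 z)
    omega
  have t : Tm A B l := ⟨hG, h3, l0⟩
  obtain ⟨C, hC⟩ : (subs A B l).Nonempty := Finset.card_pos.1 (by rw [t.card_subs hl]; omega)
  obtain ⟨c1, c2⟩ := t.mem_subs.1 hC
  have d := vd_one hG h3 c1 (c2 ▸ hl.odd_of_ne_two (by omega))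
  have f1 : Is l (d.hom h3) := c2 ▸ d.is h3
  obtain ⟨g, g1, g2, g3⟩ := f1.dual h3 l0
  have key := hV k p h3 H A B _ _ hG d.good' D l 1 h D0 hs hl (by omega) l0 non (d.hom h3) g
    (by rwa [pow_one]) (by rwa [pow_one]) (by simpa using g2) (by simpa using g3)
    (exists_not_ker t (by omega) f1) (exists_not_ker (t.other d.good') (by omega) g1)
  have cr := compRing h3 d.good'
  have small : ∀ φ : EE d.good', NE φ ≤ n + 3 → 4 * NE φ - pol NE φ 1 ^ 2 = 0 := by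
    intro φ hφ
    by_contra ne
    have a := cr.cauchy φ 1
    rw [cr.one] at a
    have b := Int.le_of_dvd (by omega) (key φ)
    have c := sq_nonneg (pol NE φ 1)
    have l1 : (4 * n + 12 : ℤ) < l := by omega
    have l2 : (l : ℤ) ≤ l ^ (2 * 1) := le_self_pow₀ (by omega) (by norm_num)
    omega
  have base : ∀ m : ℕ, m = 1 ∧ vB C = 0 ∨ m = 3 ∧ vA C = 0 → False := by
    intro m hm
    obtain ⟨χ, e, -⟩ := base_cm h3 d.good' hm
    have m0 : (0 : ℤ) < m := by omega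
    have e' : χ * χ = -((m : ℤ) : EE d.good') := by simpa using e
    have := small χ (by rw [cr.norm_of_sq m0.le e']; omega)
    rw [cr.norm_of_sq m0.le e', cr.tr_of_sq m0 e'] at this
    omega
  have a0 : vA C ≠ 0 := fun z => base 3 (Or.inr ⟨rfl, z⟩)
  have b0 : vB C ≠ 0 := fun z => base 1 (Or.inl ⟨rfl, z⟩)
  refine ⟨_, _, d.good', a0, b0, fun C' hC' z => ?_⟩
  have t' : Tm (vA C) (vB C) n := ⟨d.good', h3, n0⟩
  obtain ⟨s1, s2⟩ := t'.mem_subs.1 hC'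
  obtain ⟨u, d'⟩ := vd_of_dl d.good' h3 a0 b0 s1 (s2 ▸ ho) z
  obtain ⟨φ, -, -, e⟩ := d'.exists_end (hG := d.good') h3
  rw [s2] at e
  have := small φ (by omega)
  rw [e] at this
  exact hn _ this

end closed

end DeuD

open Deu DeuD in
theorem deuring2_of (hV : Vol) (hR : GoodRed) : Deuring2 := by
  intro L _ _ _ _ _ O p _ _ _ _ _ _ h5 A B hG D h hn hs
  classical
  have hp : p.Prime := Fact.out
  obtain ⟨h2, h3⟩ := small_ne (ResidueField O) h5
  have H := res_alg O p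
  have D0 : (D : ResidueField O) ≠ 0 := fun z => hn ((CharP.cast_eq_zero_iff _ p D).1 z)
  have D1 : D ≠ 0 := by rintro rfl; simp at hn
  have D2 : (0 : ℤ) < D := by omega
  have p1' : ¬p ∣ 1 := fun z => by have := Nat.le_of_dvd one_pos z; omega
  obtain ⟨m, ho, hm⟩ := exists_deg h5 hn
  obtain ⟨n, hn'⟩ : ∃ n, n = m ^ 2 + D := ⟨_, rfl⟩
  rw [← hn'] at ho hm
  have pn : ¬p ∣ n := fun z => hm (by rw [(ZMod.natCast_eq_zero_iff n p).2 z]; exact IsSquare.zero)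
  have n0 : (n : ResidueField O) ≠ 0 := fun z => pn ((CharP.cast_eq_zero_iff _ p n).1 z)
  have n1 : n ≠ 0 := by omega
  have nd := not_dvd_disc h5 hm
  obtain ⟨Ψ, hΨ⟩ := (univ n n1).2
  obtain ⟨i, hi⟩ : ∃ i, ((Ψ.coeff i : ℤ) : ResidueField O) ≠ 0 := by
    obtain ⟨A₁, B₁, g, a0, b0, hC⟩ := nonroot2 p hV h3 H hG h D0 hs ho n0
      fun t z => nd t (z ▸ dvd_zero _)
    by_contra x
    obtain ⟨C, c1, c2⟩ := (az_zero_iff hΨ ⟨g, h3, n0⟩ a0 b0).1 (by
      have : Ψ.map (Int.castRingHom (ResidueField O)) = 0 := by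
        ext i
        rw [coeff_map, eq_intCast, coeff_zero]
        by_contra y
        exact x ⟨i, y⟩
      rw [← az_map, this, eval_zero])
    exact hC C c1 c2
  have Ψ0 : Ψ ≠ 0 := fun z => hi (by simp [z])
  obtain ⟨χ, e, c0⟩ := h
  have cr := compRing h3 hG
  have e' : χ * χ = -((D : ℤ) : EE hG) := by simpa using e
  have hN := cr.norm_of_sq D2.le e'
  have ht := cr.tr_of_sq D2 e'
  obtain ⟨Q, q0, hQ⟩ := tors_of_cm p hG h3 e D0 hs
  have base : ∀ m : ℕ, m = 1 ∧ B = 0 ∨ m = 3 ∧ A = 0 → ∃ s : ℤ, s ^ 2 = 16 * m * D := by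
    intro m hm
    obtain ⟨ω, e1, e2, -⟩ := base_cm h3 hG hm
    have m0 : (0 : ℤ) < m := by omega
    have e1' : ω * ω = -((m : ℤ) : EE hG) := by simpa using e1
    obtain ⟨s, -, e3⟩ := cr.comm_rel (cr.tr_of_sq m0 e1') (ord_comm p hG h3 H q0 hQ χ ω c0 e2)
    rw [cr.norm_of_sq m0.le e1', hN, ht] at e3
    exact ⟨s, mul_right_cancel₀ m0.ne' (by linear_combination e3)⟩
  have four : ∀ s c : ℤ, s ^ 2 = 16 * c → ∃ f, f ^ 2 = c := fun s c e => by
    obtain ⟨f, rfl⟩ : (4 : ℤ) ∣ s := (Int.pow_dvd_pow_iff two_ne_zero).1 ⟨c, by rw [e]; norm_num⟩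
    exact ⟨f, by linarith⟩
  by_cases b0 : B = 0
  · obtain ⟨s, e1⟩ := base 1 (Or.inl ⟨rfl, b0⟩)
    obtain ⟨f, e2⟩ := four s D (by simpa using e1)
    obtain ⟨a, ha⟩ := exists_ev A
    have r := rd_of ha ((Ev.zero (resPlc O)).congr rfl b0.symm) hG
    obtain ⟨ω, e3, -⟩ := base_cm three_ne_zero (rd_good r) (l := 1) (Or.inl ⟨rfl, rfl⟩)
    have cr₀ := compRing three_ne_zero (rd_good r)
    have e3' : ω * ω = -((1 : ℤ) : EE (rd_good r)) := by simpa using e3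
    refine ⟨1, p1', _, _, r, cmv_of ((f : EE (rd_good r)) * ω) D1 ?_ ?_, fun O' _ => ?_⟩
    · rw [cr₀.int_mul, cr₀.norm_of_sq (by norm_num) e3']
      linarith
    · rw [cr₀.pol_int, cr₀.tr_of_sq (by norm_num) e3', mul_zero]
    · have a1 : a ≠ 0 := fun z => (rd_good r).disc (by simp [z])
      rw [show jj a 0 = ((1728 : ℕ) : L) by rw [jj]; field_simp; push_cast; ring]
      exact natCast_mem O' _
  by_cases a0 : A = 0
  · obtain ⟨s, e1⟩ := base 3 (Or.inr ⟨rfl, a0⟩)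
    obtain ⟨f, e2⟩ := four s (3 * D) (by rw [e1]; push_cast; ring)
    obtain ⟨g, rfl⟩ : (3 : ℤ) ∣ f := Int.prime_three.dvd_of_dvd_pow ⟨D, e2⟩
    obtain ⟨b, hb⟩ := exists_ev B
    have r := rd_of ((Ev.zero (resPlc O)).congr rfl a0.symm) hb hG
    obtain ⟨ω, e3, -⟩ := base_cm three_ne_zero (rd_good r) (l := 3) (Or.inr ⟨rfl, rfl⟩)
    have cr₀ := compRing three_ne_zero (rd_good r)
    have e3' : ω * ω = -((3 : ℤ) : EE (rd_good r)) := by simpa using e3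
    refine ⟨1, p1', _, _, r, cmv_of ((g : EE (rd_good r)) * ω) D1 ?_ ?_, fun O' _ => ?_⟩
    · rw [cr₀.int_mul, cr₀.norm_of_sq (by norm_num) e3']
      linarith
    · rw [cr₀.pol_int, cr₀.tr_of_sq (by norm_num) e3', mul_zero]
    · rw [show jj 0 b = 0 by simp [jj]]
      exact zero_mem O'
  have t : Tm A B n := ⟨hG, h3, n0⟩
  have hα : NE (((m : ℤ) : EE hG) + χ) = n := by
    rw [CompRing.add NE, cr.int, ← mul_one ((m : ℤ) : EE hG), cr.pol_int, CompRing.pol_comm, ht,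
      hN, hn']
    push_cast
    ring
  have cα : cE hG (((m : ℤ) : EE hG) + χ) ≠ 0 := fun z => n0 (by
    have e1 := congrArg (cE hG) e
    rw [map_mul, map_neg, map_natCast] at e1
    rw [map_add, map_intCast, Int.cast_natCast] at z
    rw [hn']
    push_cast
    linear_combination ((m : ResidueField O) - cE hG χ) * z + e1)
  obtain ⟨C', d', c', -⟩ := exists_vd h3 _ cα
  obtain ⟨a, b, r, C, u, d, c⟩ := exists_root hΨ t a0 b0 ho hi
    ((az_zero_iff hΨ t a0 b0).2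
      ⟨C', t.mem_subs.2 ⟨d'.sub, by exact_mod_cast c'.trans hα⟩, d'.dl_eq⟩)
  obtain ⟨φ, ψ, p1, p2, p3, p4, p5⟩ := red_end r h3 d (c ▸ n0)
  rw [c] at p1 p2
  obtain ⟨s, s1, s2⟩ := cr.comm_rel ht (ord_comm p hG h3 H q0 hQ ψ χ p3 c0)
  rw [hN, p2] at s2
  rw [hN] at s1
  have s3 : s ^ 2 = 4 * D * (4 * n - pol NE ψ 1 ^ 2) :=
    mul_right_cancel₀ D2.ne' (by linear_combination s2)
  have ns : ¬(p : ℤ) ∣ s := fun z => by
    have hp' : Prime (p : ℤ) := Nat.prime_iff_prime_int.1 hp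
    rcases hp'.dvd_or_dvd (s3 ▸ dvd_pow z two_ne_zero) with x | x
    · rcases hp'.dvd_or_dvd x with x | x
      · have := Int.le_of_dvd (by norm_num) x
        omega
      · exact hn (Int.natCast_dvd_natCast.1 x)
    · exact nd _ x
  have s0 : (s.natAbs : ResidueField O) ≠ 0 := fun z =>
    ns (Int.natCast_dvd.2 ((CharP.cast_eq_zero_iff _ p _).1 z))
  have tn : Tm A B s.natAbs := ⟨hG, h3, s0⟩
  have cr₀ := compRing three_ne_zero d.good
  obtain ⟨ω, hω⟩ := div_nat (tn.up r)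
    (((2 * D : ℤ) : EE d.good) * ((2 : ℤ) * φ - pol NE φ 1)) fun P hP => by
      by_contra z
      refine red_tors_ne r s0 z (by rw [← map_nsmul, hP, map_zero]) ?_
      have e1 := congrArg (fun η : EE hG => η.1 (r.red P)) s1
      simp only [EE_mul, EE_sub, EE_int] at e1
      rw [EE_mul, EE_int, map_zsmul, EE_sub, EE_mul, EE_int, EE_int, map_sub, map_zsmul, map_zsmul,
        p5, ← p4, e1, ← map_zsmul, ← map_zsmul, natAbs_nsmul_eq_zero.1 hP, map_zero, map_zero]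
  have s4 : ((s.natAbs : ℕ) : ℤ) ≠ 0 := by exact_mod_cast tn.pos
  have hω' := hω.trans (congrArg (· * ω) (Int.cast_natCast s.natAbs).symm)
  have f1 := congrArg NE hω'
  have f2 := congrArg (pol NE · 1) hω'
  simp only [cr₀.pol_int, cr₀.pure_tr, mul_zero] at f2
  rw [cr₀.int_mul, cr₀.int_mul, cr₀.pure_norm, p1, ← p4] at f1
  refine ⟨n, pn, a, b, r, cmv_of ω D1 (mul_left_cancel₀ (pow_ne_zero 2 s4) ?_)
    ((mul_eq_zero_iff_left s4).1 f2.symm), fun O' hO => hR L O' n Ψ ho hΨ Ψ0 hO a b u C d c⟩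
  rw [← f1, Int.natAbs_sq, s3]
  ring

end Pool.Agent.MP_c481b3_nt.H28
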