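import Pool.Agent.MP_c481b3_nt.H28.Dual

set_option autoImplicit false

namespace Pool.Agent.MP_c481b3_nt.H28

open Pool.Agent.MP_c481b3_nt.H81 Polynomial

variable {k : Type*} [Field k] [DecidableEq (RatFunc k)] {A B : k}

lemma vi_subst_le {R : RatFunc k} (hR : 1 < vi R) {r : RatFunc k} (hr : vi r ≤ 1) :
    vi (subst hR r) ≤ 1 := by
  by_cases h0 : r = 0
  · simp [h0]
  set w := (vi (k := k)).comap (subst hR).toRingHom with hw
  have : w.IsTrivialOn k := ⟨fun a ha => by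
    change vi (subst hR (algebraMap k (RatFunc k) a)) = 1
    rw [(subst hR).commutes]
    exact RatFunc.inftyValuation.C k ha⟩
  have h1 : 1 < w RatFunc.X := by
    change 1 < vi (subst hR RatFunc.X)
    rwa [subst_X]
  have h2 := RatFunc.valuation_eq_valuation_X_zpow_intDegree_of_one_lt_valuation_X h1 h0
  change w r ≤ 1
  rw [h2]
  refine zpow_le_one_of_nonpos₀ h1.le ?_
  rw [vi_eq h0, ← WithZero.exp_zero, WithZero.exp_le_exp] at hr
  exact hr

lemma exists_subst (p : ℕ) [Fact p.Prime] [CharP k p] {R : RatFunc k} (hR : 1 < vi R)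
    (e : R = RatFunc.X ^ p) {r : RatFunc k} (h : DD r = 0) : ∃ s, subst hR s = r := by
  have n0 := ap_ne r.denom_ne_zero
  rw [DD, div_eq_zero_iff, or_iff_left (pow_ne_zero 2 n0), map_eq_zero_iff _ ap_inj,
    sub_eq_zero] at h
  have h1 : derivative r.denom = 0 := by
    by_contra h0
    have := natDegree_le_of_dvd
      (r.isCoprime_num_denom.symm.dvd_of_dvd_mul_left (h ▸ dvd_mul_left _ _)) h0
    have h2 : r.denom.natDegree ≠ 0 := fun e => h0 (derivative_of_natDegree_zero e)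
    exact absurd (natDegree_derivative_lt h2) (not_lt.2 this)
  have h2 : derivative r.num = 0 := by
    rw [h1, mul_zero] at h
    exact (mul_eq_zero.1 h).resolve_right r.denom_ne_zero
  have key : ∀ g : k[X], derivative g = 0 → subst hR (ap (contract p g)) = ap g := by
    intro g hg
    conv_rhs => rw [← expand_contract p hg (Fact.out : p.Prime).ne_zero]
    rw [subst_ap, e, ← RatFunc.algebraMap_X, ← map_pow, aeval_algebraMap_apply]
    rfl
  exact ⟨ap (contract p r.num) / ap (contract p r.denom), by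
    rw [map_div₀, key _ h1, key _ h2, RatFunc.num_div_denom]⟩

omit [DecidableEq (RatFunc k)] in
lemma DD_pow (r : RatFunc k) (n : ℕ) : DD (r ^ (n + 1)) = (n + 1) * r ^ n * DD r := by
  induction n with
  | zero => simp
  | succ n ih => rw [pow_succ, DD_mul, ih]; push_cast; ring

variable [DecidableEq (LL k)]

lemma gp_ext (hG : Good A B) {g g' : Gp A B} (e : g.pt hG = g'.pt hG) (h : Tw A B) :
    g.ev hG h = g'.ev hG h := by
  have e1 := congrArg xc e
  have e2 := congrArg yc e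
  rw [Gp.xc_pt, Gp.xc_pt] at e1
  rw [Gp.yc_pt, Gp.yc_pt] at e2
  have e3 : ∀ r, g.σ r = g'.σ r := by
    have e4 : ∀ q : k[X], g.σ (ap q) = g'.σ (ap q) := fun q => by
      rw [← RatFunc.aeval_X_left_eq_algebraMap, ← aeval_algHom_apply, ← aeval_algHom_apply, e1]
    intro r
    rw [← r.num_div_denom, map_div₀, map_div₀, e4, e4]
  by_cases h0 : h = 0
  · simp [h0]
  exact pt_ext (g.ev_ne hG h0) (g'.ev_ne hG h0) (by rw [Gp.xc_ev, Gp.xc_ev, e3])
    (by rw [Gp.yc_ev, Gp.yc_ev, e3, e2])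

variable [DecidableEq k] [IsAlgClosed k]

lemma exists_gp (hG : Good A B) {Q : Pt (cL A) (cL B)} (hne : ∀ P, Q ≠ io hG P) :
    ∃ g : Gp A B, g.pt hG = Q := by
  have h0 : Q ≠ 0 := by simpa using hne 0
  have hx : ∀ c, cL c ≠ xc Q := by
    intro c hc
    obtain ⟨P', h1, h2⟩ := exists_pt hG c
    rcases eq_or_neg h0 (io_ne hG h1) (by rw [xc_io, h2, hc]) with e | e
    · exact hne P' e
    · exact hne (-P') (by rw [map_neg, e])
  have hinj : Function.Injective (aeval (xc Q) : k[X] →ₐ[k] LL k) := by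
    rw [injective_iff_map_eq_zero]
    intro p hp
    by_contra hp0
    obtain ⟨c, hc⟩ := mem_range_of_alg (cL (k := k)) hp0 hp
    exact hx c hc
  set σ := RatFunc.liftAlgHom (aeval (xc Q) : k[X] →ₐ[k] LL k)
    (nonZeroDivisors_le_comap_nonZeroDivisors_of_injective _ hinj) with hσ
  have hX : σ RatFunc.X = xc Q := by
    rw [hσ, RatFunc.liftAlgHom_apply]; simp
  have hC : ∀ a, σ (RatFunc.C a) = cL a := σ.commutes
  refine ⟨⟨σ, yc Q, ?_⟩, pt_ext (Gp.pt_ne _ _) h0 ?_ ?_⟩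
  · rw [eqn h0, ff, map_add, map_add, map_mul, map_pow, hX, hC, hC]
  · rw [Gp.xc_pt]; exact hX
  · rw [Gp.yc_pt]

omit [DecidableEq (RatFunc k)] [DecidableEq (LL k)] in
lemma frP_bij (hG : Good A B) (p n : ℕ) [Fact p.Prime] [CharP k p] (hA : A ^ p ^ n = A)
    (hB : B ^ p ^ n = B) : Function.Bijective (frP hG p n hA hB) := by
  refine ⟨Sc.injective _, fun Q => ?_⟩
  by_cases h0 : Q = 0
  · exact ⟨0, by rw [h0, map_zero]⟩
  have q0 : 0 < p ^ n := pow_pos (Fact.out : p.Prime).pos n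
  obtain ⟨x, hx⟩ := IsAlgClosed.exists_pow_nat_eq (xc Q) q0
  obtain ⟨y, hy⟩ := IsAlgClosed.exists_pow_nat_eq (yc Q) q0
  have e : y ^ 2 = x ^ 3 + A * x + B := (iterateFrobenius k p n).injective (by
    rw [map_add, map_add, map_mul, map_pow, map_pow]
    simp only [iterateFrobenius_def, hx, hy, hA, hB]
    exact eqn h0)
  exact ⟨pt A B x y, pt_ext (Sc.map_ne _ (pt_ne hG e)) h0 (by rw [xc_frP, xc_pt hG e, hx])
    (by rw [yc_frP, yc_pt hG e, hy])⟩

/-- an inseparable endomorphism factors through the Frobenius -/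
theorem div_frob (hG : Good A B) (p : ℕ) [Fact p.Prime] [CharP k p] (hA : A ^ p ^ 1 = A)
    (hB : B ^ p ^ 1 = B) (φ : EE hG) (hc : cE hG φ = 0) :
    ∃ ψ : EE hG, φ = ψ * frE hG p 1 hA hB := by
  by_cases h0 : φ = 0
  · exact ⟨0, by rw [h0, zero_mul]⟩
  obtain ⟨m, hm⟩ := odd_char hG p 1
  obtain ⟨g0, gR, gS⟩ := frob_tw hG p 1 hA hB hm
  have ind := frob_ind hG p 1 hA hB hm
  set g := tw A B (RatFunc.X ^ p ^ 1) (ff A B ^ m) with hg
  have gm : g ∈ Hinf A B := Or.inr (by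
    rw [gR, map_pow]
    exact one_lt_pow₀ one_lt_vi_X (pow_ne_zero 1 (Fact.out : p.Prime).ne_zero))
  obtain ⟨hm', ψ, a⟩ := hOf_spec φ
  have n0 := hOf_ne h0
  have hS := Hinf.S_ne hm' n0
  have f0 := ff_ne (A := A) (B := B)
  have q := eqnT n0
  have d1 : DD (Rr (hOf φ)) = 0 := by
    have := cE_spec φ
    rw [hc, map_zero, cc, div_eq_zero_iff] at this
    exact this.resolve_right hS
  have q2 : ff A B ^ (2 * m + 1) * (Ss (hOf φ) / ff A B ^ m) ^ 2 = ff A B * Ss (hOf φ) ^ 2 := by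
    field_simp; ring
  have d2 : DD (Ss (hOf φ) / ff A B ^ m) = 0 := by
    have e := congrArg DD (q2.trans q)
    have z : (((2 * m : ℕ) : RatFunc k) + 1) = 0 := by
      have : CharP (RatFunc k) p := charP_of_injective_ringHom (RatFunc.C (K := k)).injective p
      rw [← Nat.cast_succ, Nat.succ_eq_add_one, ← hm, pow_one, CharP.cast_eq_zero]
    rw [DD_mul, DD_pow, z, DD_sq, DD_add, DD_add, DD_C, DD_C_mul, DD_pow, d1] at e
    simp only [zero_mul, mul_zero, zero_add, mul_eq_zero] at e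
    exact (e.resolve_left (pow_ne_zero _ f0)).resolve_left
      (not_or.2 ⟨hG.tw.two, div_ne_zero hS (pow_ne_zero _ f0)⟩)
  obtain ⟨R1, hR1⟩ := exists_subst p (Hinf.lt gm g0) (by rw [gR, pow_one]) d1
  obtain ⟨S1, hS1⟩ := exists_subst p (Hinf.lt gm g0) (by rw [gR, pow_one]) d2
  obtain ⟨k0, kR, kS⟩ := tw_spec hG (R := R1) (S := S1) ((subst (Hinf.lt gm g0)).injective (by
    change subst _ _ = subst _ _
    rw [map_mul, map_pow, hS1, map_add, map_add, map_pow, map_mul, hR1, subst_C, subst_C, ← q,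
      ← q2, subst_ff, ← eqnT g0, gS]
    ring))
  have km : tw A B R1 S1 ∈ Hinf A B := Or.inr (by
    rw [kR]
    by_contra hle
    have := vi_subst_le (Hinf.lt gm g0) (not_lt.1 hle)
    rw [hR1] at this
    exact absurd (Hinf.lt hm' n0) (not_lt.2 this))
  have e : cmp hG gm g0 (tw A B R1 S1) = hOf φ := by
    refine pt_ext (Sc.map_ne _ k0) n0 ((div_left_inj' f0).1 ?_)
      ((div_left_inj' (pow_ne_zero 2 f0)).1 ?_)
    · exact (Rr_cmp hG gm g0 _).trans (by rw [kR, hR1]; rfl)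
    · refine (Ss_cmp hG gm g0 _).trans ?_
      rw [kS, hS1, gS, div_mul_cancel₀ _ (pow_ne_zero _ f0)]; rfl
  set e1 := AddEquiv.ofBijective _ (frP_bij hG p 1 hA hB) with he1
  set e2 := AddEquiv.ofBijective _ (frP_bij (hG.map cL) p 1 (by rw [← map_pow, hA])
    (by rw [← map_pow, hB])) with he2
  refine ⟨⟨φ.1.comp e1.symm.toAddMonoidHom, tw A B R1 S1, km, ψ.comp e2.symm.toAddMonoidHom,
    fun P => ?_, fun γ => ?_, fun π x0 c Q => ?_⟩, EE_ext fun P => ?_⟩
  · obtain ⟨P, rfl⟩ := e1.surjective P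
    change ψ (e2.symm (io hG (e1 P))) = io hG (φ.1 (e1.symm (e1 P)))
    rw [show io hG (e1 P) = e2 (io hG P) from (ind.inc P).symm, e1.symm_apply_apply,
      e2.symm_apply_apply]
    exact a.inc P
  · obtain ⟨γ', h1⟩ := exists_gp hG (Q := e2.symm (γ.pt hG)) fun P h => γ.ne_io hG (e1 P) (by
      rw [show io hG (e1 P) = e2 (io hG P) from (ind.inc P).symm, ← h, e2.apply_symm_apply])
    change ψ (e2.symm (γ.pt hG)) = _
    rw [← h1, a.gen, ← e, ← after_ev]
    refine gp_ext hG ?_ _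
    rw [after_pt, ← ind.gen, h1]
    exact e2.apply_symm_apply _
  · obtain ⟨Q, rfl⟩ := e2.surjective Q
    change (c.rd hG).red (ψ (e2.symm (e2 Q))) = φ.1 (e1.symm ((c.rd hG).red (e2 Q)))
    rw [show (c.rd hG).red (e2 Q) = e1 ((c.rd hG).red Q) from ind.red π x0 c Q,
      e1.symm_apply_apply, e2.symm_apply_apply]
    exact a.red π x0 c Q
  · change φ.1 P = φ.1 (e1.symm (e1 P))
    rw [e1.symm_apply_apply]

end Pool.Agent.MP_c481b3_nt.H28
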