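import Pool.Agent.MP_c481b3_nt.H28.EndB

set_option autoImplicit false

namespace Pool.Agent.MP_c481b3_nt.H28

open Pool.Agent.MP_c481b3_nt.H81 Polynomial

variable {k : Type*} [Field k] [DecidableEq k] [IsAlgClosed k] {A B : k}

section ring
variable [DecidableEq (RatFunc k)] [DecidableEq (LL k)] {hG : Good A B}

lemma EE_mul (φ ψ : EE hG) (P : Pt A B) : (φ * ψ).1 P = φ.1 (ψ.1 P) := rfl

lemma EE_add (φ ψ : EE hG) (P : Pt A B) : (φ + ψ).1 P = φ.1 P + ψ.1 P := rfl

lemma EE_sub (φ ψ : EE hG) (P : Pt A B) : (φ - ψ).1 P = φ.1 P - ψ.1 P := rfl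

lemma EE_neg (φ : EE hG) (P : Pt A B) : (-φ).1 P = -φ.1 P := rfl

lemma EE_int (n : ℤ) (P : Pt A B) : (n : EE hG).1 P = n • P := by
  rw [SubringClass.coe_intCast, AddMonoid.End.intCast_apply]

lemma EE_nat (n : ℕ) (P : Pt A B) : (n : EE hG).1 P = n • P := by
  rw [SubringClass.coe_natCast, AddMonoid.End.natCast_apply]

lemma EE_ext {φ ψ : EE hG} (h : ∀ P, φ.1 P = ψ.1 P) : φ = ψ := Subtype.ext (AddMonoidHom.ext h)

end ring

section mul
variable {n : ℕ} (t : Tm A B n)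
include t

lemma Tm.vd_aux : ∃ d : VD (tors A B n) n A B, ∀ P, d.hom t.three P = n • P := by
  classical
  obtain ⟨C, d, -, h⟩ := exists_vd t.three (n : EE t.good) (by simpa using t.ne)
  have h1 : ∀ P, vm C (cE t.good n) A B P = n • P := fun P => by
    rw [← d.hom_apply t.three, ← h]; exact EE_nat n P
  have h2 : C = tors A B n := by
    ext P
    rw [t.mem, ← h1, d.eq_zero]
  rw [map_natCast, h2] at d h1
  exact ⟨d, h1⟩

lemma Tm.vd : VD (tors A B n) n A B := t.vd_aux.choose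

lemma Tm.vm_eq (P : Pt A B) : vm (tors A B n) n A B P = n • P := t.vd_aux.choose_spec P

lemma Tm.nsmul_surj (P : Pt A B) : ∃ Q, n • Q = P := by
  obtain ⟨Q, h⟩ := t.vd.surj t.three P
  exact ⟨Q, (t.vm_eq Q).symm.trans h⟩

variable {C : Finset (Pt A B)} {u A₁ B₁ : k} (d : VD C u A₁ B₁) (hc : C.card = n)
include hc

/-- the dual isogeny -/
lemma VD.dual : VD ((tors A B n).image (d.hom t.three)) (n / u) A B :=
  d.quot t.three t.sub (t.subset d.sub hc) t.vd

lemma VD.dual_card : ((tors A B n).image (d.hom t.three)).card = n := by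
  have := d.card_image t.three t.sub (t.subset d.sub hc)
  rw [t.card, hc, sq] at this
  exact (Nat.eq_of_mul_eq_mul_right (Nat.pos_of_ne_zero t.pos) this).symm

lemma VD.dual_comp (P : Pt A B) : (d.dual t hc).hom t.three (d.hom t.three P) = n • P := by
  rw [d.comp_vm t.three t.sub (t.subset d.sub hc), mul_div_cancel₀ _ d.hu, t.vm_eq]

lemma VD.comp_dual (P : Pt A₁ B₁) : d.hom t.three ((d.dual t hc).hom t.three P) = n • P := by
  obtain ⟨Q, rfl⟩ := d.surj t.three P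
  rw [d.dual_comp t hc, map_nsmul]

lemma VD.dual_dual : (tors A₁ B₁ n).image ((d.dual t hc).hom t.three) = C := by
  have t' := t.other d.good'
  refine Finset.eq_of_subset_of_card_le (fun P hP => ?_) ?_
  · obtain ⟨Q, hQ, rfl⟩ := Finset.mem_image.1 hP
    rw [← d.hom_eq_zero t.three, d.comp_dual t hc, t'.mem.1 hQ]
  · rw [hc]
    exact ((d.dual t hc).dual_card t' (d.dual_card t hc)).ge

end mul

variable [DecidableEq (RatFunc k)] [DecidableEq (LL k)] {hG : Good A B}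

/-- an endomorphism that kills the points of order `n` is divisible by `n` -/
theorem div_nat {n : ℕ} (t : Tm A B n) (φ : EE hG) (h : ∀ P, n • P = 0 → φ.1 P = 0) :
    ∃ ψ : EE hG, φ = n * ψ := by
  have key : ∀ φ : EE hG, cE hG φ ≠ 0 → (∀ P, n • P = 0 → φ.1 P = 0) → ∃ ψ : EE hG, φ = n * ψ := by
    intro φ hc h
    obtain ⟨H, d, -, e⟩ := exists_vd t.three φ hc
    have hs : tors A B n ⊆ H := fun P hP => by
      rw [← d.hom_eq_zero t.three, ← e]; exact h P (t.mem.1 hP)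
    have d' := t.vd.quot t.three d.sub hs d
    obtain ⟨ψ, h1, -, -⟩ := d'.exists_end (hG := hG) t.three
    refine ⟨ψ, EE_ext fun P => ?_⟩
    have := t.vd.comp_vm t.three d.sub hs d' P
    rw [mul_div_cancel₀ _ t.ne, VD.hom_apply t.vd, t.vm_eq, map_nsmul] at this
    rw [EE_mul, EE_nat, h1, e]
    exact this.symm
  by_cases hc : cE hG φ = 0
  · obtain ⟨ψ, e⟩ := key (φ + n) (by simpa [hc] using t.ne) fun P hP => by
      rw [EE_add, h P hP, EE_nat, hP, add_zero]
    exact ⟨ψ - 1, by rw [mul_sub, ← e]; simp⟩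
  · exact key φ hc h

section frob
variable (hG) (p n : ℕ) [Fact p.Prime] [CharP k p] (hA : A ^ p ^ n = A) (hB : B ^ p ^ n = B)

/-- the Frobenius map on points -/
noncomputable def frP : Pt A B →+ Pt A B := (Sc.ofHom (iterateFrobenius k p n) hA hB hG).map

omit [IsAlgClosed k] [DecidableEq (RatFunc k)] [DecidableEq (LL k)] in
lemma xc_frP (P : Pt A B) : xc (frP hG p n hA hB P) = xc P ^ p ^ n := xc_ofHom _ _ _ _ P

omit [IsAlgClosed k] [DecidableEq (RatFunc k)] [DecidableEq (LL k)] in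
lemma yc_frP (P : Pt A B) : yc (frP hG p n hA hB P) = yc P ^ p ^ n := yc_ofHom _ _ _ _ P

omit [IsAlgClosed k] [DecidableEq (LL k)] [DecidableEq k] in
include hG hA hB in
lemma frob_tw {m : ℕ} (hm : p ^ n = 2 * m + 1) :
    tw A B (RatFunc.X ^ p ^ n) (ff A B ^ m) ≠ 0 ∧
      Rr (tw A B (RatFunc.X ^ p ^ n) (ff A B ^ m)) = RatFunc.X ^ p ^ n ∧
      Ss (tw A B (RatFunc.X ^ p ^ n) (ff A B ^ m)) = ff A B ^ m :=
  tw_spec hG (by
    rw [← pow_mul, ← pow_succ', mul_comm m, ← hm, ff, add_pow_char_pow, add_pow_char_pow, mul_pow,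
      ← map_pow, ← map_pow, hA, hB, ← pow_mul, ← pow_mul, mul_comm 3])

omit [IsAlgClosed k] in
lemma frob_ind {m : ℕ} (hm : p ^ n = 2 * m + 1) :
    Ind hG (tw A B (RatFunc.X ^ p ^ n) (ff A B ^ m)) (frP hG p n hA hB)
      (frP (hG.map cL) p n (by rw [← map_pow, hA]) (by rw [← map_pow, hB])) := by
  obtain ⟨g0, gR, gS⟩ := frob_tw hG p n hA hB hm
  have n1 : ∀ {P}, P ≠ 0 → frP hG p n hA hB P ≠ 0 := Sc.map_ne _
  have n2 : ∀ {P}, P ≠ 0 → frP (hG.map cL) p n (by rw [← map_pow, hA]) (by rw [← map_pow, hB]) P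
    ≠ 0 := Sc.map_ne _
  refine ⟨fun P => ?_, fun a => ?_, fun π x0 a Q => ?_⟩
  · by_cases hP : P = 0
    · simp [hP]
    exact pt_ext (n2 (io_ne hG hP)) (io_ne hG (n1 hP))
      (by rw [xc_frP, xc_io, xc_io, xc_frP, map_pow])
      (by rw [yc_frP, yc_io, yc_io, yc_frP, map_pow])
  · exact pt_ext (n2 (a.pt_ne hG)) (a.ev_ne hG g0) (by rw [xc_frP, a.xc_pt, a.xc_ev, gR, map_pow])
      (by rw [yc_frP, a.yc_pt, a.yc_ev, gS, map_pow, ← a.hη, ← pow_mul, ← pow_succ', hm])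
  · by_cases hx : (a.rd hG).red Q = 0
    · rw [hx, map_zero]
      by_cases hQ : Q = 0
      · simp [hQ]
      refine Rd.red_of_not _ fun h => Rd.red_ne _ hQ ?_ hx
      rw [xc_frP] at h
      exact π.mem_of_pow (by omega) h
    · exact red_eq _ (n2 (red_mem _ hx).1) (n1 hx)
        (by rw [xc_frP, xc_frP]; exact (ev_xc _ hx).pow _)
        (by rw [yc_frP, yc_frP]; exact (ev_yc _ hx).pow _)

omit [IsAlgClosed k] [DecidableEq (RatFunc k)] [DecidableEq (LL k)] [DecidableEq k] in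
include hG in
lemma odd_char : Odd (p ^ n) := by
  refine ((Fact.out : p.Prime).odd_of_ne_two ?_).pow
  rintro rfl
  exact hG.two (by simpa using CharP.cast_eq_zero k 2)

variable (hn : n ≠ 0)

/-- the Frobenius endomorphism -/
noncomputable def frE : EE hG :=
  ⟨frP hG p n hA hB, _, Or.inr (by
    rw [(frob_tw hG p n hA hB (odd_char hG p n).choose_spec).2.1, map_pow]
    exact one_lt_pow₀ one_lt_vi_X (pow_ne_zero n (Fact.out : p.Prime).ne_zero)), _,
    frob_ind hG p n hA hB (odd_char hG p n).choose_spec⟩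

lemma hOf_frE : hOf (frE hG p n hA hB)
    = tw A B (RatFunc.X ^ p ^ n) (ff A B ^ (odd_char hG p n).choose) :=
  hOf_eq ⟨Or.inr (by
    rw [(frob_tw hG p n hA hB (odd_char hG p n).choose_spec).2.1, map_pow]
    exact one_lt_pow₀ one_lt_vi_X (pow_ne_zero n (Fact.out : p.Prime).ne_zero)), _,
    frob_ind hG p n hA hB (odd_char hG p n).choose_spec⟩

lemma NE_frE : NE (frE hG p n hA hB) = p ^ n := by
  rw [NE, hOf_frE, dg, (frob_tw hG p n hA hB (odd_char hG p n).choose_spec).2.1,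
    ← RatFunc.algebraMap_X, ← map_pow, RatFunc.num_algebraMap, natDegree_X_pow, Nat.cast_pow]

include hn in
lemma cE_frE : cE hG (frE hG p n hA hB) = 0 := by
  apply (RatFunc.C (K := k)).injective
  rw [← cE_spec, hOf_frE, cc, (frob_tw hG p n hA hB (odd_char hG p n).choose_spec).2.1,
    ← RatFunc.algebraMap_X, ← map_pow, DD_ap, derivative_X_pow]
  simp [hn]

include hn in
lemma tr_frE (h3 : (3 : k) ≠ 0) : pol NE (frE hG p n hA hB) 1 = p ^ n + 1
    - Nat.card {P : Pt A B // xc P ^ p ^ n = xc P ∧ yc P ^ p ^ n = yc P} := by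
  obtain ⟨C, d, h1, h2⟩ := exists_vd h3 (frE hG p n hA hB - 1) (by simp [cE_frE hG p n hA hB hn])
  have hc : Nat.card {P : Pt A B // xc P ^ p ^ n = xc P ∧ yc P ^ p ^ n = yc P} = C.card := by
    refine Nat.subtype_card C fun P => ?_
    rw [← d.hom_eq_zero h3, ← h2]
    change frP hG p n hA hB P - P = 0 ↔ _
    rw [sub_eq_zero]
    refine ⟨fun h => by rw [← xc_frP hG p n hA hB, ← yc_frP hG p n hA hB, h]; exact ⟨rfl, rfl⟩,
      fun h => ?_⟩
    by_cases hP : P = 0
    · simp [hP]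
    exact pt_ext (Sc.map_ne _ hP) hP (by rw [xc_frP, h.1]) (by rw [yc_frP, h.2])
  rw [hc, h1, (compRing h3 hG).sub, NE_frE, NE_one]
  ring

end frob

end Pool.Agent.MP_c481b3_nt.H28
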