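import Pool.Agent.MP_c481b3_nt.H28.Two

set_option autoImplicit false

namespace Pool.Agent.MP_c481b3_nt.H28

open Pool.Agent.MP_c481b3_nt.H81 Polynomial

variable {k : Type*} [Field k] [DecidableEq (RatFunc k)] {A B : k}

lemma aeval_inj {R : RatFunc k} (hR : 1 < vi R) :
    Function.Injective (aeval R : k[X] →ₐ[k] RatFunc k) :=
  transcendental_iff_injective.1 (R.transcendental_of_ne_C (by
    rintro ⟨c, rfl⟩
    exact absurd hR (not_lt.2 (vi_C c))))

/-- substitution of a rational function with a pole at infinity -/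
noncomputable def subst {R : RatFunc k} (hR : 1 < vi R) : RatFunc k →ₐ[k] RatFunc k :=
  RatFunc.liftAlgHom (aeval R : k[X] →ₐ[k] RatFunc k)
    (nonZeroDivisors_le_comap_nonZeroDivisors_of_injective _ (aeval_inj hR))

section subst
variable {R : RatFunc k} (hR : 1 < vi R)

lemma subst_ap (p : k[X]) : subst hR (ap p) = aeval R p := by
  have := RatFunc.liftAlgHom_apply_div (aeval R : k[X] →ₐ[k] RatFunc k)
    (nonZeroDivisors_le_comap_nonZeroDivisors_of_injective _ (aeval_inj hR)) p 1
  simpa [subst] using this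

lemma subst_X : subst hR RatFunc.X = R := by simpa using subst_ap hR X

lemma subst_C (a : k) : subst hR (RatFunc.C a) = RatFunc.C a := (subst hR).commutes a

lemma subst_ff : subst hR (ff A B) = R ^ 3 + RatFunc.C A * R + RatFunc.C B := by
  simp [ff, subst_X, subst_C]

lemma vi_subst {r : RatFunc k} (hr : 1 < vi r) : 1 < vi (subst hR r) := by
  have h0 : r ≠ 0 := by rintro rfl; simp at hr
  set w := (vi (k := k)).comap (subst hR).toRingHom with hw
  have : w.IsTrivialOn k := ⟨fun a ha => by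
    change vi (subst hR (algebraMap k (RatFunc k) a)) = 1
    rw [(subst hR).commutes]
    exact RatFunc.inftyValuation.C k ha⟩
  have h1 : 1 < w RatFunc.X := by
    change 1 < vi (subst hR RatFunc.X)
    rwa [subst_X]
  have h2 := RatFunc.valuation_eq_valuation_X_zpow_intDegree_of_one_lt_valuation_X h1 h0
  change 1 < w r
  rw [h2]
  refine one_lt_zpow₀ h1 ?_
  rw [vi_eq h0, ← WithZero.exp_zero, WithZero.exp_lt_exp] at hr
  exact hr

omit [DecidableEq (RatFunc k)] in
lemma DD_aeval (R : RatFunc k) (p : k[X]) : DD (aeval R p) = aeval R (derivative p) * DD R := by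
  induction p using Polynomial.induction_on with
  | C a => simpa using DD_C a
  | add p q hp hq => rw [map_add, DD_add, hp, hq, derivative_add, map_add, add_mul]
  | monomial n a h =>
    rw [pow_succ, ← mul_assoc, map_mul, DD_mul, h, derivative_mul (f := C a * X ^ n), map_add,
      map_mul _ _ X, aeval_X, derivative_X, mul_one]
    ring

lemma DD_subst (r : RatFunc k) : DD (subst hR r) = subst hR (DD r) * DD R := by
  have e := num_eq r
  have e1 := congrArg (fun t => DD (subst hR t)) e
  have e2 := congrArg (fun t => subst hR (DD t)) e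
  simp only [map_mul, DD_mul, map_add, DD_ap, subst_ap, DD_aeval] at e1 e2
  have h0 : aeval R r.denom ≠ 0 := (map_ne_zero_iff _ (aeval_inj hR)).2 r.denom_ne_zero
  refine mul_right_cancel₀ h0 ?_
  linear_combination DD R * e2 - e1

end subst

/-- the scaling attached to a rational map -/
noncomputable def scOf (hG : Good A B) {g : Tw A B} (hg : g ∈ Hinf A B) (g0 : g ≠ 0) :
    Sc (RatFunc.C A * ff A B ^ 2) (RatFunc.C B * ff A B ^ 3) (RatFunc.C A * ff A B ^ 2)
      (RatFunc.C B * ff A B ^ 3) where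
  σ := (subst (Hinf.lt hg g0)).toRingHom
  u := Ss g
  hu := Hinf.S_ne hg g0
  hA := by
    change subst _ _ = _
    rw [map_mul, map_pow, subst_C, subst_ff, ← eqnT g0]; ring
  hB := by
    change subst _ _ = _
    rw [map_mul, map_pow, subst_C, subst_ff, ← eqnT g0]; ring
  good := hG.tw

section cmp
variable (hG : Good A B) {g : Tw A B} (hg : g ∈ Hinf A B) (g0 : g ≠ 0)

/-- composition with a rational map -/
noncomputable def cmp : Tw A B →+ Tw A B := (scOf hG hg g0).map

lemma Rr_cmp (h : Tw A B) : Rr (cmp hG hg g0 h) = subst (Hinf.lt hg g0) (Rr h) := by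
  rw [show Rr h = xc h / ff A B from rfl, map_div₀, subst_ff, ← eqnT g0, Rr, cmp, Sc.xc_map,
    div_div, mul_comm (ff A B)]
  rfl

lemma Ss_cmp (h : Tw A B) : Ss (cmp hG hg g0 h) = subst (Hinf.lt hg g0) (Ss h) * Ss g := by
  rw [Ss, Ss, cmp, Sc.yc_map, map_div₀, map_pow, subst_ff, ← eqnT g0]
  change subst (Hinf.lt hg g0) (yc h) / Ss g ^ 3 / _ = _
  have := Hinf.S_ne hg g0
  have := ff_ne (A := A) (B := B)
  field_simp

lemma cmp_mem {h : Tw A B} (hh : h ∈ Hinf A B) : cmp hG hg g0 h ∈ Hinf A B := by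
  by_cases h0 : h = 0
  · rw [h0, map_zero]; exact zero_mem _
  · exact Or.inr (by rw [Rr_cmp]; exact vi_subst _ (Hinf.lt hh h0))

lemma cc_cmp (h : Tw A B) : cc (cmp hG hg g0 h) = subst (Hinf.lt hg g0) (cc h) * cc g := by
  rw [cc, cc, cc, Rr_cmp, Ss_cmp, DD_subst, map_div₀, div_mul_div_comm]

/-- the image of a generic point is a generic point -/
noncomputable def after (γ : Gp A B) : Gp A B where
  σ := γ.σ.comp (subst (Hinf.lt hg g0))
  η := γ.η * γ.σ (Ss g)
  hη := by rw [AlgHom.comp_apply, subst_ff, ← eqnT g0, mul_pow, γ.hη, map_mul, map_pow]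

variable [DecidableEq (LL k)]

lemma after_ev (γ : Gp A B) (h : Tw A B) : (after hg g0 γ).ev hG h = γ.ev hG (cmp hG hg g0 h) := by
  by_cases h0 : h = 0
  · simp [h0]
  refine pt_ext (Gp.ev_ne _ hG h0) (Gp.ev_ne _ hG (Sc.map_ne _ h0)) ?_ ?_
  · rw [Gp.xc_ev, Gp.xc_ev, Rr_cmp]; rfl
  · rw [Gp.yc_ev, Gp.yc_ev, Ss_cmp, map_mul]
    change γ.η * γ.σ (Ss g) * γ.σ (subst (Hinf.lt hg g0) (Ss h)) = _
    ring

lemma after_pt (γ : Gp A B) : (after hg g0 γ).pt hG = γ.ev hG g := by
  refine pt_ext (Gp.pt_ne _ hG) (Gp.ev_ne _ hG g0) ?_ ?_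
  · rw [Gp.xc_pt, Gp.xc_ev]
    change γ.σ (subst (Hinf.lt hg g0) _) = _
    rw [subst_X]
  · rw [Gp.yc_pt, Gp.yc_ev]; rfl

end cmp

/-- the action on the invariant differential is a constant -/
theorem cc_const [IsAlgClosed k] (hG : Good A B) {h : Tw A B} (hh : h ∈ Hinf A B) :
    ∃ c, cc h = RatFunc.C c := by
  classical
  by_cases h0 : h = 0
  · exact ⟨0, by simp [h0, cc]⟩
  have hR := Hinf.lt hh h0
  have hS := Hinf.S_ne hh h0
  have q := eqnT h0
  set a := (Rr h).num with ha
  set b := (Rr h).denom with hb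
  have b0 : b ≠ 0 := (Rr h).denom_ne_zero
  have ab : IsCoprime a b := (Rr h).isCoprime_num_denom
  obtain ⟨W, hW⟩ : ∃ W, W = derivative a * b - a * derivative b := ⟨_, rfl⟩
  obtain ⟨F, hF⟩ : ∃ F, F = a ^ 3 + C A * a * b ^ 2 + C B * b ^ 3 := ⟨_, rfl⟩
  have n0 := ap_ne b0
  have e1 : DD (Rr h) = ap W / ap b ^ 2 := by rw [hW]; rfl
  have e2 : ap F = ff A B * Ss h ^ 2 * ap b ^ 3 := by
    rw [q, hF]
    simp only [map_add, map_mul, map_pow, RatFunc.algebraMap_C, ha, num_eq]
    ring
  have f0 := ff_ne (A := A) (B := B)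
  have F0 : F ≠ 0 := fun e => by
    rw [e, map_zero] at e2
    exact mul_ne_zero (mul_ne_zero f0 (pow_ne_zero 2 hS)) (pow_ne_zero 3 n0) e2.symm
  have p0 : fp A B ≠ 0 := fun e => f0 (by rw [← ap_fp, e, map_zero])
  by_cases W0 : W = 0
  · exact ⟨0, by rw [cc, e1, W0]; simp⟩
  have s0 := (Ss h).denom_ne_zero
  have s1 := RatFunc.num_ne_zero hS
  have e3 : fp A B * (b * F) * ((Ss h).denom * (Ss h).denom)
      = (fp A B * ((Ss h).num * (b * b))) * (fp A B * ((Ss h).num * (b * b))) := by
    apply ap_inj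
    simp only [map_mul, e2, num_eq, ap_fp]
    ring
  have dv : b * F ∣ fp A B * (W * W) := by
    rw [IsAlgClosed.dvd_iff_roots_le_roots (mul_ne_zero b0 F0) (mul_ne_zero p0 (mul_ne_zero W0 W0)),
      Multiset.le_iff_count]
    intro x
    have e := congrArg (rootMultiplicity x) e3
    have t := mul_ne_zero p0 (mul_ne_zero s1 (mul_ne_zero b0 b0))
    rw [rootMultiplicity_mul (mul_ne_zero (mul_ne_zero p0 (mul_ne_zero b0 F0)) (mul_ne_zero s0 s0)),
      rootMultiplicity_mul (mul_ne_zero p0 (mul_ne_zero b0 F0)),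
      rootMultiplicity_mul (mul_ne_zero s0 s0), rootMultiplicity_mul (mul_ne_zero t t)] at e
    rw [count_roots, count_roots, rootMultiplicity_mul (mul_ne_zero p0 (mul_ne_zero W0 W0)),
      rootMultiplicity_mul (mul_ne_zero W0 W0)]
    have key : rootMultiplicity x (b * F) - 1 ≤ rootMultiplicity x W := by
      rw [rootMultiplicity_mul (mul_ne_zero b0 F0)]
      by_cases hx : b.eval x = 0
      · have hax : a.eval x ≠ 0 := fun h => cop_eval ab x h hx
        rw [rootMultiplicity_eq_zero (p := F) (by simp [hF, hx, hax]), add_zero,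
          le_rootMultiplicity_iff W0, hW]
        have d := b.pow_rootMultiplicity_dvd x
        exact dvd_sub (((pow_dvd_pow _ (Nat.sub_le _ _)).trans d).mul_left _)
          ((pow_sub_one_dvd_derivative_of_pow_dvd d).mul_left _)
      · rw [rootMultiplicity_eq_zero (p := b) hx, zero_add]
        by_cases hx' : F.eval x = 0
        · have d := F.pow_rootMultiplicity_dvd x
          have e4 : (3 * a ^ 2 + C A * b ^ 2) * W = derivative F * b - 3 * F * derivative b := by
            rw [hW, hF]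
            simp only [derivative_add, derivative_mul, derivative_pow, derivative_C, map_natCast]
            push_cast
            ring
          have h5 : ¬(3 * a ^ 2 + C A * b ^ 2).IsRoot x := by
            intro h5
            rw [hF] at hx'
            simp only [IsRoot, eval_add, eval_mul, eval_pow, eval_C, eval_ofNat] at h5 hx'
            refine hG.not_sing (x := a.eval x / b.eval x) ?_ ?_
            · field_simp; linear_combination hx'
            · field_simp; linear_combination h5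
          have h6 : 3 * a ^ 2 + C A * b ^ 2 ≠ 0 := fun e => h5 (by rw [e]; simp)
          have h7 := rootMultiplicity_mul (x := x) (mul_ne_zero h6 W0)
          rw [rootMultiplicity_eq_zero h5, zero_add] at h7
          rw [← h7, le_rootMultiplicity_iff (mul_ne_zero h6 W0), e4]
          exact dvd_sub ((pow_sub_one_dvd_derivative_of_pow_dvd d).mul_right _)
            ((((pow_dvd_pow _ (Nat.sub_le _ _)).trans d).mul_left _).mul_right _)
        · rw [rootMultiplicity_eq_zero (p := F) hx']; omega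
    omega
  obtain ⟨G, hGe⟩ := dv
  have e5 : cc h ^ 2 = ap G := by
    have := congrArg ap hGe
    simp only [map_mul, e2, ap_fp] at this
    rw [cc, e1]
    field_simp
    refine mul_left_cancel₀ f0 ?_
    linear_combination this
  have G0 : G ≠ 0 := by
    rintro rfl
    exact mul_ne_zero p0 (mul_ne_zero W0 W0) (by simpa using hGe)
  have v1 : vi (ap G) ≤ 1 := by
    have a1 : ap G * (Rr h ^ 3 + RatFunc.C A * Rr h + RatFunc.C B) = ff A B * DD (Rr h) ^ 2 := by
      rw [← e5, ← q, cc]; field_simp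
    have a2 := congrArg vi a1
    rw [map_mul, map_mul, v_cubic vi (vi_C A) (vi_C B) hR, vi_ff, map_pow] at a2
    have a3 := vi_DD (Rr h)
    have a4 : vi (RatFunc.X : RatFunc k) ≤ vi (Rr h) := by
      rw [vi_eq (Hinf.R_ne hh h0), ← WithZero.exp_zero, WithZero.exp_lt_exp] at hR
      rw [vi_eq (Hinf.R_ne hh h0), vi_X, WithZero.exp_le_exp]
      omega
    have a5 : vi (ap G) * vi (Rr h) ^ 3 ≤ 1 * vi (Rr h) ^ 3 := by
      calc _ = (vi (DD (Rr h)) * vi (RatFunc.X : RatFunc k)) ^ 2 * vi (RatFunc.X : RatFunc k) := by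
            rw [a2, mul_pow, pow_succ _ 2]; ac_rfl
        _ ≤ vi (Rr h) ^ 2 * vi (Rr h) := by gcongr
        _ = _ := by rw [one_mul, ← pow_succ]
    exact le_of_mul_le_mul_right a5 (pow_pos (lt_trans zero_lt_one hR) 3)
  rw [vi_ap G0, ← WithZero.exp_zero, WithZero.exp_le_exp] at v1
  obtain ⟨c, hc⟩ := IsAlgClosed.exists_pow_nat_eq (G.coeff 0) two_pos
  rw [eq_C_of_natDegree_eq_zero (p := G) (by omega), RatFunc.algebraMap_C, ← hc, map_pow,
    sq_eq_sq_iff_eq_or_eq_neg] at e5
  rcases e5 with e | e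
  · exact ⟨c, e⟩
  · exact ⟨-c, by rw [e, map_neg]⟩

end Pool.Agent.MP_c481b3_nt.H28
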