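import Pool.Agent.MP_c481b3_nt.H28.EndA
import Pool.Agent.MP_c481b3_nt.H28.Comp

set_option autoImplicit false

namespace Pool.Agent.MP_c481b3_nt.H28

open Pool.Agent.MP_c481b3_nt.H81 Polynomial

variable {k : Type*} [Field k] [DecidableEq (RatFunc k)] [DecidableEq (LL k)] [DecidableEq k]
  [IsAlgClosed k] {A B : k}

section ind
variable {hG : Good A B} {h : Tw A B} {φ : Pt A B →+ Pt A B}
  {ψ : Pt (cL A) (cL B) →+ Pt (cL A) (cL B)}

lemma exists_red (hG : Good A B) {P : Pt A B} (hP : P ≠ 0) :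
    ∃ (π : Plc (LL k) k) (a : At π (xc P)), (a.rd hG).red ((G0 A B).pt hG) = P ∨
      (a.rd hG).red ((G0 A B).pt hG) = -P := by
  obtain ⟨π, a⟩ := exists_at (xc P)
  obtain ⟨n0, x1⟩ := red_G0 hG a
  exact ⟨π, a, eq_or_neg n0 hP x1⟩

lemma ind_ext {φ' : Pt A B →+ Pt A B} {ψ' : Pt (cL A) (cL B) →+ Pt (cL A) (cL B)}
    (a : Ind hG h φ ψ) (b : Ind hG h φ' ψ') : φ = φ' := by
  ext P
  by_cases hP : P = 0
  · simp [hP]
  obtain ⟨π, c, e⟩ := exists_red hG hP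
  have := (a.red π _ c ((G0 A B).pt hG)).symm.trans
    ((congrArg _ ((a.gen _).trans (b.gen _).symm)).trans (b.red π _ c _))
  rcases e with e | e
  · rwa [e] at this
  · rw [e, map_neg, map_neg] at this; exact neg_injective this

lemma ind_uniq {h' : Tw A B} {ψ' : Pt (cL A) (cL B) →+ Pt (cL A) (cL B)}
    (a : Ind hG h φ ψ) (b : Ind hG h' φ ψ') : h = h' := by
  by_contra h0
  have h1 := sub_ne_zero.2 h0
  have d0 := (Rr (h - h')).denom_ne_zero
  obtain ⟨x, hx⟩ := Infinite.exists_notMem_finset (Rr (h - h')).denom.roots.toFinset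
  obtain ⟨P, p1, rfl⟩ := exists_pt hG x
  exact hx (by simpa [d0] using ((a.sub b).ker_iff h1 p1).1 (by simp))

omit [IsAlgClosed k] in
lemma ind_zero (hG : Good A B) : Ind hG 0 0 0 :=
  ⟨fun P => by simp, fun g => by simp, fun π x0 a Q => by simp⟩

omit [IsAlgClosed k] in
lemma ind_one (hG : Good A B) : Ind hG (g1 A B) (AddMonoidHom.id _) (AddMonoidHom.id _) :=
  ⟨fun _ => rfl, fun _ => rfl, fun _ _ _ _ => rfl⟩

omit [IsAlgClosed k] in
lemma ind_add {h' : Tw A B} {φ' : Pt A B →+ Pt A B} {ψ' : Pt (cL A) (cL B) →+ Pt (cL A) (cL B)}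
    (a : Ind hG h φ ψ) (b : Ind hG h' φ' ψ') : Ind hG (h + h') (φ + φ') (ψ + ψ') :=
  ⟨fun P => by simp [a.inc, b.inc], fun g => by simp [a.gen, b.gen],
    fun π x0 c Q => by simp [a.red π x0 c, b.red π x0 c]⟩

omit [IsAlgClosed k] in
lemma ind_neg (a : Ind hG h φ ψ) : Ind hG (-h) (-φ) (-ψ) :=
  ⟨fun P => by simp [a.inc], fun g => by simp [a.gen], fun π x0 c Q => by simp [a.red π x0 c]⟩

omit [IsAlgClosed k] in
lemma ind_comp {g : Tw A B} {φ' : Pt A B →+ Pt A B} {ψ' : Pt (cL A) (cL B) →+ Pt (cL A) (cL B)}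
    (a : Ind hG h φ ψ) (b : Ind hG g φ' ψ') (hg : g ∈ Hinf A B) (g0 : g ≠ 0) :
    Ind hG (cmp hG hg g0 h) (φ.comp φ') (ψ.comp ψ') :=
  ⟨fun P => by simp [a.inc, b.inc],
    fun γ => by rw [AddMonoidHom.comp_apply, b.gen, ← after_pt hG hg g0, a.gen, after_ev],
    fun π x0 c Q => by simp [a.red π x0 c, b.red π x0 c]⟩

lemma ind_velu {C : Finset (Pt A B)} {u : k} (d : VD C u A B) (h3 : (3 : k) ≠ 0) :
    ∃ h ∈ Hinf A B, cc h = RatFunc.C u ∧
      Rr h = RatFunc.C (u ^ 2)⁻¹ * vX C RatFunc.C RatFunc.X ∧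
      Ss h = RatFunc.C (u ^ 3)⁻¹ * vS C RatFunc.C RatFunc.X ∧ h ≠ 0 ∧
      ∃ ψ, Ind d.good h (d.hom h3) ψ := by
  have u0 : RatFunc.C u ≠ 0 := (_root_.map_ne_zero _).2 d.hu
  obtain ⟨g0, gR, gS⟩ := tw_spec d.good (R := RatFunc.C (u ^ 2)⁻¹ * vX C RatFunc.C RatFunc.X)
    (S := RatFunc.C (u ^ 3)⁻¹ * vS C RatFunc.C RatFunc.X) (by
      have := velu_ode d.good d.sub
      rw [d.hA, d.hB] at this
      simp only [map_mul, map_pow, map_inv₀] at this ⊢
      field_simp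
      linear_combination this)
  have gm : tw A B (RatFunc.C (u ^ 2)⁻¹ * vX C RatFunc.C RatFunc.X)
      (RatFunc.C (u ^ 3)⁻¹ * vS C RatFunc.C RatFunc.X) ∈ Hinf A B := Or.inr (by
    rw [gR, map_mul, show vi (RatFunc.C (u ^ 2)⁻¹) = 1 from
      RatFunc.inftyValuation.C k (inv_ne_zero (pow_ne_zero 2 d.hu)), one_mul, vi_vX]
    exact one_lt_vi_X)
  have h3' : (3 : LL k) ≠ 0 := by simpa [map_ofNat] using (map_ne_zero (cL (k := k))).2 h3
  refine ⟨_, gm, ?_, gR, gS, g0, (d.base cL).hom h3', fun P => ?_, fun g => ?_,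
    fun π x0 c Q => (kp_of_at c).red_vm d Q⟩
  · have s0 := Hinf.S_ne gm g0
    rw [cc, gR, DD_C_mul, DD_vX, div_eq_iff s0, gS]
    simp only [map_pow, map_inv₀]
    field_simp
  · have := d.red_vm (rd_triv cL rfl rfl (d.good.map cL)) (rd_triv cL rfl rfl (d.good.map cL))
      (ev_triv cL u) ((_root_.map_ne_zero cL).2 d.hu) (fun P hP => by
        rw [red_triv cL rfl rfl (d.good.map cL)]; exact Sc.map_ne _ (Finset.mem_erase.1 hP).1) P
    rw [Finset.image_congr fun P _ => red_triv cL rfl rfl (d.good.map cL) P,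
      red_triv cL rfl rfl (d.good.map cL), red_triv cL rfl rfl (d.good.map cL)] at this
    exact this.symm
  · have hm : g.pt d.good ∉ C.image (Sc.ofHom cL rfl rfl (d.good.map cL)).map := by
      intro hm
      obtain ⟨P, -, e⟩ := Finset.mem_image.1 hm
      exact g.ne_io d.good P e.symm
    obtain ⟨a1, a2, a3⟩ := (d.base cL).spec hm
    obtain ⟨b1, b2⟩ := vX_image cL rfl rfl (d.good.map cL) C (xc (g.pt d.good))
    have c1 : g.σ (vX C RatFunc.C RatFunc.X) = vX C cL (g.σ RatFunc.X) :=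
      (map_vX g.σ.toRingHom C _ _).trans (by rw [g.comp]; rfl)
    have c2 : g.σ (vS C RatFunc.C RatFunc.X) = vS C cL (g.σ RatFunc.X) :=
      (map_vS g.σ.toRingHom C _ _).trans (by rw [g.comp]; rfl)
    refine pt_ext a1 (g.ev_ne d.good g0) ?_ ?_
    · rw [VD.hom_apply, a2, b1, g.xc_ev, gR, map_mul, g.σ_C, g.xc_pt, c1, map_inv₀, map_pow,
        div_eq_inv_mul]
    · rw [VD.hom_apply, a3, b2, g.yc_ev, gS, map_mul, g.σ_C, g.xc_pt, g.yc_pt, c2, map_inv₀,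
        map_pow, div_eq_inv_mul, mul_left_comm]

theorem ind_kernel (a : Ind hG h φ ψ) (hh : h ∈ Hinf A B) {c : k} (hc : c ≠ 0)
    (hcc : cc h = RatFunc.C c) (h3 : (3 : k) ≠ 0) :
    ∃ (C : Finset (Pt A B)) (d : VD C c A B), C.card = dg h ∧ φ = d.hom h3 := by
  obtain ⟨C, hm, h1, h2, h4⟩ := a.kernel hh hc hcc h3
  have hsub : IsSub C := ⟨(hm 0).2 (map_zero φ), fun P hP Q hQ => (hm _).2 (by
    rw [map_sub, (hm P).1 hP, (hm Q).1 hQ, sub_zero])⟩
  have d : VD C c A B := ⟨hG, hsub, hc, h2, h4, hG⟩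
  refine ⟨C, d, h1, ?_⟩
  obtain ⟨h', m', c', r', s', n', ψ', b⟩ := ind_velu d h3
  have h0 : h ≠ 0 := by
    rintro rfl
    exact hc ((map_eq_zero RatFunc.C).1 (by rw [← hcc]; simp [cc]))
  have hR := Hinf.lt hh h0
  have hS := Hinf.S_ne hh h0
  have hD : DD (Rr h) = RatFunc.C c * Ss h := by rw [← hcc, cc, div_mul_cancel₀ _ hS]
  have q := eqnT h0
  have ode : ff A B * DD (Rr h) ^ 2
      = RatFunc.C (c ^ 2) * (Rr h ^ 3 + RatFunc.C A * Rr h + RatFunc.C B) := by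
    rw [hD, ← q, map_pow]; ring
  have c2 := pow_ne_zero 2 hc
  obtain ⟨β, hβ⟩ := liouville hG hsub
    (G := RatFunc.C (c ^ 2) * Rr h - vX C RatFunc.C RatFunc.X)
    (by
      rw [← sub_sub_sub_cancel_right _ _ RatFunc.X]
      exact (vi (k := k)).map_sub_le (ode_lead hR c2 ode) (vX_sub C))
    (by
      intro π x0 c0 hx
      rw [map_sub, map_mul, aL_C]
      refine sub_mem (mul_mem (c0.c_mem _) ((c0.mem_iff _).2 fun hb => ?_)) (velu_mem c0 hx).1
      obtain ⟨P, h1, h2⟩ := exists_pt hG x0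
      exact hx P (Finset.mem_erase.2 ⟨h1, (hm P).2 ((a.ker_iff h0 h1).2 (by rwa [h2]))⟩) h2)
    (by
      intro P hP g hg
      rw [map_sub, map_mul, map_sub, map_mul, (velu_gen hG hsub hP hg).1, g.σ_C, aL_C,
        ← g.xc_ev hG, ← a.gen, hg, map_add, a.inc, (hm P).1 hP, map_zero, add_zero, a.gen,
        Gp.xc_ev, G0_σ])
  have e1 : vX C RatFunc.C RatFunc.X = RatFunc.C (c ^ 2) * Rr h - RatFunc.C β := by
    rw [← hβ]; ring
  have e2 : vS C RatFunc.C RatFunc.X = RatFunc.C (c ^ 2) * (RatFunc.C c * Ss h) := by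
    rw [← DD_vX, e1, DD_sub, DD_C_mul, DD_C, sub_zero, hD]
  have o := velu_ode hG hsub
  rw [e1, e2] at o
  obtain ⟨z1, -, -⟩ := quad_zero hR (a := -3 * β * c ^ 4)
    (b := 3 * β ^ 2 * c ^ 2 + vA C * c ^ 2 - c ^ 6 * A)
    (c := -β ^ 3 - vA C * β + vB C - c ^ 6 * B) (by
      simp only [map_add, map_sub, map_mul, map_neg, map_pow, map_ofNat] at o ⊢
      linear_combination RatFunc.C c ^ 6 * q - o)
  have hβ0 : β = 0 := by simpa [h3, hc] using z1
  have c0 : RatFunc.C c ≠ 0 := (_root_.map_ne_zero _).2 hc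
  have f0 := ff_ne (A := A) (B := B)
  have e : h' = h := by
    rw [e1, hβ0, map_zero, sub_zero, ← mul_assoc, ← map_mul, inv_mul_cancel₀ c2, map_one,
      one_mul] at r'
    rw [e2, ← mul_assoc, ← mul_assoc, ← map_mul, ← map_mul,
      show (c ^ 3)⁻¹ * c ^ 2 * c = 1 by field_simp, map_one, one_mul] at s'
    exact pt_ext n' h0 ((div_left_inj' f0).1 r') ((div_left_inj' (pow_ne_zero 2 f0)).1 s')
  exact ind_ext a (e ▸ b)

end ind

/-- the map on points is induced by the rational map -/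
def IsE (hG : Good A B) (φ : AddMonoid.End (Pt A B)) (h : Tw A B) : Prop :=
  h ∈ Hinf A B ∧ ∃ ψ, Ind hG h φ ψ

/-- the endomorphism ring -/
noncomputable def EE (hG : Good A B) : Subring (AddMonoid.End (Pt A B)) where
  carrier := {φ | ∃ h, IsE hG φ h}
  zero_mem' := ⟨0, zero_mem _, 0, ind_zero hG⟩
  one_mem' := ⟨g1 A B, g1_mem hG, _, ind_one hG⟩
  neg_mem' := by
    rintro φ ⟨h, m, ψ, a⟩
    exact ⟨-h, neg_mem m, _, ind_neg a⟩
  add_mem' := by
    rintro φ φ' ⟨h, m, ψ, a⟩ ⟨h', m', ψ', b⟩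
    exact ⟨h + h', add_mem m m', _, ind_add a b⟩
  mul_mem' := by
    rintro φ φ' ⟨h, m, ψ, a⟩ ⟨h', m', ψ', b⟩
    by_cases h0 : h' = 0
    · subst h0
      rw [show φ' = 0 from ind_ext b (ind_zero hG), mul_zero]
      exact ⟨0, zero_mem _, 0, ind_zero hG⟩
    · exact ⟨_, cmp_mem hG m' h0 m, _, ind_comp a b m' h0⟩

variable {hG : Good A B}

/-- the rational map of an endomorphism -/
noncomputable def hOf (φ : EE hG) : Tw A B := φ.2.choose

lemma hOf_spec (φ : EE hG) : IsE hG φ.1 (hOf φ) := φ.2.choose_spec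

lemma hOf_eq {φ : EE hG} {h : Tw A B} (a : IsE hG φ.1 h) : hOf φ = h := by
  obtain ⟨-, _, b⟩ := hOf_spec φ
  obtain ⟨-, _, c⟩ := a
  exact ind_uniq b c

lemma hOf_sub (φ φ' : EE hG) : hOf (φ - φ') = hOf φ - hOf φ' := by
  obtain ⟨m, _, a⟩ := hOf_spec φ
  obtain ⟨m', _, b⟩ := hOf_spec φ'
  exact hOf_eq ⟨sub_mem m m', _, a.sub b⟩

lemma hOf_zero : hOf (0 : EE hG) = 0 := hOf_eq ⟨zero_mem _, 0, ind_zero hG⟩

lemma hOf_one : hOf (1 : EE hG) = g1 A B := hOf_eq ⟨g1_mem hG, _, ind_one hG⟩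

lemma hOf_add (φ φ' : EE hG) : hOf (φ + φ') = hOf φ + hOf φ' := by
  rw [← sub_neg_eq_add, hOf_sub, ← zero_sub, hOf_sub, hOf_zero, zero_sub, sub_neg_eq_add]

lemma hOf_ne {φ : EE hG} (h0 : φ ≠ 0) : hOf φ ≠ 0 := by
  intro e
  obtain ⟨-, _, a⟩ := hOf_spec φ
  rw [e] at a
  exact h0 (Subtype.ext (ind_ext a (ind_zero hG)))

lemma hOf_mul (φ : EE hG) {φ' : EE hG} (h0 : φ' ≠ 0) :
    hOf (φ * φ') = cmp hG (hOf_spec φ').1 (hOf_ne h0) (hOf φ) := by
  obtain ⟨m, _, a⟩ := hOf_spec φ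
  obtain ⟨m', _, b⟩ := hOf_spec φ'
  exact hOf_eq ⟨cmp_mem hG m' _ m, _, ind_comp a b m' _⟩

/-- the degree -/
noncomputable def NE (φ : EE hG) : ℤ := dg (hOf φ)

/-- the action on the invariant differential -/
noncomputable def cE0 (φ : EE hG) : k := (cc_const hG (hOf_spec φ).1).choose

lemma cE0_spec (φ : EE hG) : cc (hOf φ) = RatFunc.C (cE0 φ) :=
  (cc_const hG (hOf_spec φ).1).choose_spec

/-- the action on the invariant differential as a ring homomorphism -/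
noncomputable def cE (hG : Good A B) : EE hG →+* k where
  toFun := cE0
  map_one' := (RatFunc.C (K := k)).injective (by rw [← cE0_spec, hOf_one, cc_g1 hG, map_one])
  map_zero' := (RatFunc.C (K := k)).injective (by rw [← cE0_spec, hOf_zero]; simp [cc])
  map_add' φ φ' := (RatFunc.C (K := k)).injective (by
    rw [map_add, ← cE0_spec, ← cE0_spec, ← cE0_spec, hOf_add]
    exact (ccHom A B).map_add ⟨_, (hOf_spec φ).1⟩ ⟨_, (hOf_spec φ').1⟩)
  map_mul' φ φ' := (RatFunc.C (K := k)).injective (by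
    by_cases h0 : φ' = 0
    · rw [h0, mul_zero, map_mul, ← cE0_spec, hOf_zero]; simp [cc]
    · rw [map_mul, ← cE0_spec, hOf_mul φ h0, cc_cmp, cE0_spec, cE0_spec, subst_C])

lemma cE_spec (φ : EE hG) : cc (hOf φ) = RatFunc.C (cE hG φ) := cE0_spec φ

variable (h3 : (3 : k) ≠ 0)
include h3

/-- a separable endomorphism is a quotient map -/
theorem exists_vd (φ : EE hG) (hc : cE hG φ ≠ 0) :
    ∃ (C : Finset (Pt A B)) (d : VD C (cE hG φ) A B), (C.card : ℤ) = NE φ ∧ φ.1 = d.hom h3 := by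
  obtain ⟨m, _, a⟩ := hOf_spec φ
  obtain ⟨C, d, h1, h2⟩ := ind_kernel a m hc (cE_spec φ) h3
  exact ⟨C, d, by rw [h1, NE], h2⟩

/-- a quotient map onto the same curve is an endomorphism -/
theorem VD.exists_end {C : Finset (Pt A B)} {u : k} (d : VD C u A B) :
    ∃ φ : EE hG, φ.1 = d.hom h3 ∧ cE hG φ = u ∧ NE φ = C.card := by
  obtain ⟨h, m, c, -, -, -, a⟩ := ind_velu d h3
  set φ : EE hG := ⟨d.hom h3, h, m, a⟩ with hφ
  have e : cE hG φ = u := (RatFunc.C (K := k)).injective (by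
    rw [← cE_spec, hOf_eq (φ := φ) ⟨m, a⟩, c])
  refine ⟨φ, rfl, e, ?_⟩
  obtain ⟨C', d', h1, h2⟩ := exists_vd h3 φ (e ▸ d.hu)
  rw [← h1]
  congr 2
  ext P
  rw [← d'.hom_eq_zero h3, ← d.hom_eq_zero h3, ← h2]

lemma NE_mul_sep {φ φ' : EE hG} (a : cE hG φ ≠ 0) (b : cE hG φ' ≠ 0) :
    NE (φ * φ') = NE φ * NE φ' := by
  obtain ⟨C, d, c1, c2⟩ := exists_vd h3 φ a
  obtain ⟨C', d', d1, d2⟩ := exists_vd h3 φ' b
  obtain ⟨H, e, e1, e2⟩ := exists_vd h3 (φ * φ') (by rw [map_mul]; exact mul_ne_zero a b)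
  have hm : ∀ P, P ∈ H ↔ d'.hom h3 P ∈ C := fun P => by
    rw [← e.hom_eq_zero h3, ← d.hom_eq_zero h3, ← e2, ← c2, ← d2]; rfl
  have hs : C' ⊆ H := fun P hP => (hm P).2 (by rw [(d'.hom_eq_zero h3).2 hP]; exact d.sub.zero)
  have hi : H.image (d'.hom h3) = C := by
    ext Q
    rw [Finset.mem_image]
    constructor
    · rintro ⟨P, hP, rfl⟩
      exact (hm P).1 hP
    · intro hQ
      obtain ⟨P, rfl⟩ := d'.surj h3 Q
      exact ⟨P, (hm P).2 hQ, rfl⟩
  rw [← e1, ← c1, ← d1, d'.card_image h3 e.sub hs, hi, Nat.cast_mul]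

omit h3 in
lemma NE_par (φ φ' : EE hG) : NE (φ + φ') + NE (φ - φ') = 2 * NE φ + 2 * NE φ' := by
  rw [NE, NE, NE, NE, hOf_add, hOf_sub]
  exact_mod_cast dg_par hG (hOf_spec φ).1 (hOf_spec φ').1

omit h3 in
lemma NE_one : NE (1 : EE hG) = 1 := by rw [NE, hOf_one, dg_g1 hG]; rfl

theorem compRing (hG : Good A B) : CompRing (EE hG) NE := by
  have h1 : ∀ φ φ' : EE hG, cE hG φ' ≠ 0 → NE (φ * φ') = NE φ * NE φ' := by
    intro φ φ' b
    by_cases a : cE hG φ = 0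
    · have e1 := NE_par (φ * φ') φ'
      have e2 := NE_par φ 1
      rw [← add_one_mul, ← sub_one_mul, NE_mul_sep h3 (by simp [a]) b,
        NE_mul_sep h3 (by simp [a]) b] at e1
      rw [NE_one] at e2
      have : 2 * NE (φ * φ') = 2 * (NE φ * NE φ') := by linear_combination NE φ' * e2 - e1
      omega
    · exact NE_mul_sep h3 a b
  refine ⟨fun φ φ' => ?_, NE_par, NE_one, fun φ => Int.natCast_nonneg _, fun φ e => ?_⟩
  · by_cases b : cE hG φ' = 0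
    · have e1 := NE_par (φ * φ') φ
      have e2 := NE_par φ' 1
      rw [← mul_add_one, ← mul_sub_one, h1 _ _ (by simp [b]), h1 _ _ (by simp [b])] at e1
      rw [NE_one] at e2
      have : 2 * NE (φ * φ') = 2 * (NE φ * NE φ') := by linear_combination NE φ * e2 - e1
      omega
    · exact h1 φ φ' b
  · by_contra h0
    have := Hinf.deg_lt (hOf_spec φ).1 (hOf_ne h0)
    rw [NE, dg] at e
    omega

end Pool.Agent.MP_c481b3_nt.H28
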