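import Pool.Agent.MP_c481b3_nt.H81.Lift

set_option autoImplicit false

namespace Pool.Agent.MP_c481b3_nt.H28

open Pool.Agent.MP_c481b3_nt.H81 Polynomial

variable {L κ : Type*} [Field L] [Field κ]

/-- `a` is integral at the place and has the value `b` -/
structure Ev (π : Plc L κ) (a : L) (b : κ) : Prop where
  mem : a ∈ π.O
  ev : π.ev a = b

namespace Ev
variable {π : Plc L κ} {a a' : L} {b b' : κ}

lemma of_mem (h : a ∈ π.O) : Ev π a (π.ev a) := ⟨h, rfl⟩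

lemma add (h : Ev π a b) (h' : Ev π a' b') : Ev π (a + a') (b + b') :=
  ⟨add_mem h.mem h'.mem, by rw [π.ev_add h.mem h'.mem, h.ev, h'.ev]⟩

lemma sub (h : Ev π a b) (h' : Ev π a' b') : Ev π (a - a') (b - b') :=
  ⟨sub_mem h.mem h'.mem, by rw [π.ev_sub h.mem h'.mem, h.ev, h'.ev]⟩

lemma mul (h : Ev π a b) (h' : Ev π a' b') : Ev π (a * a') (b * b') :=
  ⟨mul_mem h.mem h'.mem, by rw [π.ev_mul h.mem h'.mem, h.ev, h'.ev]⟩

lemma neg (h : Ev π a b) : Ev π (-a) (-b) := ⟨neg_mem h.mem, by rw [π.ev_neg h.mem, h.ev]⟩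

lemma pow (h : Ev π a b) (n : ℕ) : Ev π (a ^ n) (b ^ n) :=
  ⟨pow_mem h.mem n, by rw [π.ev_pow h.mem, h.ev]⟩

lemma div (h : Ev π a b) (h' : Ev π a' b') (h0 : b' ≠ 0) : Ev π (a / a') (b / b') :=
  ⟨π.div_mem h.mem h'.mem (by rwa [h'.ev]),
    by rw [π.ev_div h.mem h'.mem (by rwa [h'.ev]), h.ev, h'.ev]⟩

lemma nat (π : Plc L κ) (n : ℕ) : Ev π n n := ⟨natCast_mem _ n, π.ev_nat n⟩

lemma zero (π : Plc L κ) : Ev π 0 0 := by simpa using nat π 0

lemma one (π : Plc L κ) : Ev π 1 1 := by simpa using nat π 1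

lemma int (π : Plc L κ) (n : ℤ) : Ev π n n := by
  obtain ⟨m, rfl | rfl⟩ := n.eq_nat_or_neg
  · simpa using nat π m
  · simpa using (nat π m).neg

lemma ofNat (π : Plc L κ) (n : ℕ) [n.AtLeastTwo] : Ev π (OfNat.ofNat n) (OfNat.ofNat n) := nat π n

lemma sum {ι : Type*} (s : Finset ι) {f : ι → L} {g : ι → κ} (h : ∀ i ∈ s, Ev π (f i) (g i)) :
    Ev π (∑ i ∈ s, f i) (∑ i ∈ s, g i) :=
  ⟨sum_mem fun i hi => (h i hi).mem, by
    rw [π.ev_sum s f fun i hi => (h i hi).mem]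
    exact Finset.sum_congr rfl fun i hi => (h i hi).ev⟩

lemma prod {ι : Type*} (s : Finset ι) {f : ι → L} {g : ι → κ} (h : ∀ i ∈ s, Ev π (f i) (g i)) :
    Ev π (∏ i ∈ s, f i) (∏ i ∈ s, g i) := by
  classical
  induction s using Finset.induction_on with
  | empty => simpa using one π
  | insert a s ha ih =>
    rw [Finset.prod_insert ha, Finset.prod_insert ha]
    exact (h a (Finset.mem_insert_self _ _)).mul (ih fun i hi => h i (Finset.mem_insert_of_mem hi))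

lemma unique (h : Ev π a b) (h' : Ev π a b') : b = b' := h.ev.symm.trans h'.ev

lemma ne_zero (h : Ev π a b) (hb : b ≠ 0) : a ≠ 0 := by
  rintro rfl
  exact hb (h.unique (zero π))

lemma v_one (h : Ev π a b) (hb : b ≠ 0) : π.O.valuation a = 1 :=
  π.v_eq_one h.mem (by rwa [h.ev])

lemma v_le (h : Ev π a b) : π.O.valuation a ≤ 1 := (π.O.valuation_le_one_iff a).2 h.mem

lemma v_lt (h : Ev π a 0) : π.O.valuation a < 1 := (π.ev_eq_zero h.mem).1 h.ev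

lemma of_lt (h : π.O.valuation a < 1) : Ev π a 0 :=
  ⟨(π.O.valuation_le_one_iff a).1 h.le, (π.ev_eq_zero ((π.O.valuation_le_one_iff a).1 h.le)).2 h⟩

lemma congr (h : Ev π a b) (h1 : a = a') (h2 : b = b') : Ev π a' b' := h1 ▸ h2 ▸ h

lemma inv_of_not (h : a ∉ π.O) : Ev π a⁻¹ 0 := by
  refine of_lt ?_
  rw [← π.O.valuation_le_one_iff, not_le] at h
  rw [map_inv₀]
  exact inv_lt_one_of_one_lt₀ h

end Ev

/-- a field embedding seen as a place -/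
noncomputable def trivP (σ : L →+* κ) : Plc L κ where
  O := ⊤
  ρ := σ.comp (⊤ : ValuationSubring L).subtype
  loc a := by
    rw [← ValuationSubring.valuation_lt_one_iff, IsLocalRing.mem_maximalIdeal, mem_nonunits_iff]
    simp only [RingHom.comp_apply, map_eq_zero]
    refine ⟨fun h => ?_, fun h => ?_⟩
    · rw [show a = 0 from h]; exact not_isUnit_zero
    · by_contra h0
      exact h (IsUnit.of_mul_eq_one ⟨(a : L)⁻¹, trivial⟩ (Subtype.ext (mul_inv_cancel₀ fun e => h0 (Subtype.ext e))))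

lemma ev_triv (σ : L →+* κ) (a : L) : Ev (trivP σ) a (σ a) :=
  ⟨trivial, (trivP σ).ev_coe ⟨a, trivial⟩⟩

variable {A B : L} {A' B' : κ}

lemma rd_triv (σ : L →+* κ) (hA : σ A = A') (hB : σ B = B') (hG : Good A' B') :
    Rd (trivP σ) A B A' B' :=
  ⟨trivial, trivial, (ev_triv σ A).ev.trans hA, (ev_triv σ B).ev.trans hB, hG⟩

lemma rdA {π : Plc L κ} (r : Rd π A B A' B') : Ev π A A' := ⟨r.mA, r.hA⟩

lemma rdB {π : Plc L κ} (r : Rd π A B A' B') : Ev π B B' := ⟨r.mB, r.hB⟩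

lemma rd_of {π : Plc L κ} (a : Ev π A A') (b : Ev π B B') (hG : Good A' B') : Rd π A B A' B' :=
  ⟨a.mem, b.mem, a.ev, b.ev, hG⟩

lemma rd_good {π : Plc L κ} (r : Rd π A B A' B') : Good A B :=
  ⟨(Ev.ofNat π 2).ne_zero r.good.two,
    (((Ev.ofNat π 4).mul ((rdA r).pow 3)).add
      ((Ev.ofNat π 27).mul ((rdB r).pow 2))).ne_zero r.good.disc⟩

variable [DecidableEq L] [DecidableEq κ]

lemma red_triv (σ : L →+* κ) (hA : σ A = A') (hB : σ B = B') (hG : Good A' B') (P : Pt A B) :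
    (rd_triv σ hA hB hG).red P = (Sc.ofHom σ hA hB hG).map P := by
  by_cases hP : P = 0
  · simp [hP]
  exact pt_ext (Rd.red_ne _ hP trivial) (Sc.map_ne _ hP)
    (by rw [Rd.xc_red _ hP (ev_triv σ _).mem, xc_ofHom, (ev_triv σ _).ev])
    (by rw [Rd.yc_red _ hP (ev_triv σ _).mem, yc_ofHom, (ev_triv σ _).ev])

variable {π : Plc L κ} (r : Rd π A B A' B')

lemma red_mem {P : Pt A B} (h : r.red P ≠ 0) : P ≠ 0 ∧ xc P ∈ π.O :=
  ⟨fun e => h (by rw [e, map_zero]), by_contra fun e => h (r.red_of_not e)⟩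

lemma ev_xc {P : Pt A B} (h : r.red P ≠ 0) : Ev π (xc P) (xc (r.red P)) :=
  ⟨(red_mem r h).2, (r.xc_red (red_mem r h).1 (red_mem r h).2).symm⟩

lemma ev_yc {P : Pt A B} (h : r.red P ≠ 0) : Ev π (yc P) (yc (r.red P)) :=
  ⟨r.y_mem (red_mem r h).2, (r.yc_red (red_mem r h).1 (red_mem r h).2).symm⟩

lemma red_eq {P : Pt A B} {Q : Pt A' B'} (hP : P ≠ 0) (hQ : Q ≠ 0) (hx : Ev π (xc P) (xc Q))
    (hy : Ev π (yc P) (yc Q)) : r.red P = Q :=
  pt_ext (r.red_ne hP hx.mem) hQ (by rw [r.xc_red hP hx.mem, hx.ev])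
    (by rw [r.yc_red hP hx.mem, hy.ev])

lemma isSub_image {M : Type*} [Field M] [DecidableEq M] {A₁ B₁ : M} (f : Pt A B →+ Pt A₁ B₁)
    {C : Finset (Pt A B)} (h : IsSub C) : IsSub (C.image f) := by
  refine ⟨Finset.mem_image.2 ⟨0, h.zero, map_zero _⟩, ?_⟩
  simp only [Finset.mem_image]
  rintro _ ⟨P, hP, rfl⟩ _ ⟨Q, hQ, rfl⟩
  exact ⟨P - Q, h.sub P hP Q hQ, map_sub _ _ _⟩

lemma injOn_of_ne {M : Type*} [Field M] [DecidableEq M] {A₁ B₁ : M} (f : Pt A B →+ Pt A₁ B₁)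
    {C : Finset (Pt A B)} (h : IsSub C) (hf : ∀ P ∈ C.erase 0, f P ≠ 0) : Set.InjOn f C := by
  intro P hP Q hQ e
  by_contra h0
  exact hf (P - Q) (Finset.mem_erase.2 ⟨sub_ne_zero.2 h0, h.sub P hP Q hQ⟩)
    (by rw [map_sub, e, sub_self])

lemma image_erase {M : Type*} [Field M] [DecidableEq M] {A₁ B₁ : M} (f : Pt A B →+ Pt A₁ B₁)
    {C : Finset (Pt A B)} (hf : ∀ P ∈ C.erase 0, f P ≠ 0) :
    (C.image f).erase 0 = (C.erase 0).image f := by
  ext Q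
  simp only [Finset.mem_erase, Finset.mem_image]
  constructor
  · rintro ⟨h0, P, hP, rfl⟩
    exact ⟨P, ⟨fun e => h0 (by rw [e, map_zero]), hP⟩, rfl⟩
  · rintro ⟨P, hP, rfl⟩
    exact ⟨hf P (Finset.mem_erase.2 hP), P, hP.2, rfl⟩

lemma ev_ca {P : Pt A B} (h : r.red P ≠ 0) : Ev π (ca P) (ca (r.red P)) :=
  ((Ev.ofNat π 3).mul ((ev_xc r h).pow 2)).add (rdA r)

lemma ev_cb {P : Pt A B} (h : r.red P ≠ 0) : Ev π (cb P) (cb (r.red P)) :=
  (Ev.ofNat π 2).mul ((((ev_xc r h).pow 3).add ((rdA r).mul (ev_xc r h))).add (rdB r))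

variable {C : Finset (Pt A B)} (hC : IsSub C) (hf : ∀ P ∈ C.erase 0, r.red P ≠ 0)
include hC hf

lemma ev_sum_sub {f : Pt A B → L} {g : Pt A' B' → κ}
    (h : ∀ P ∈ C.erase 0, Ev π (f P) (g (r.red P))) :
    Ev π (∑ P ∈ C.erase 0, f P) (∑ P ∈ (C.image r.red).erase 0, g P) := by
  rw [image_erase r.red hf, Finset.sum_image
    ((injOn_of_ne r.red hC hf).mono (Finset.coe_subset.2 (Finset.erase_subset _ _)))]
  exact Ev.sum _ h

lemma ev_prod_sub {f : Pt A B → L} {g : Pt A' B' → κ}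
    (h : ∀ P ∈ C.erase 0, Ev π (f P) (g (r.red P))) :
    Ev π (∏ P ∈ C.erase 0, f P) (∏ P ∈ (C.image r.red).erase 0, g P) := by
  rw [image_erase r.red hf, Finset.prod_image
    ((injOn_of_ne r.red hC hf).mono (Finset.coe_subset.2 (Finset.erase_subset _ _)))]
  exact Ev.prod _ h

lemma ev_vA : Ev π (vA C) (vA (C.image r.red)) :=
  (rdA r).sub ((Ev.ofNat π 5).mul (ev_sum_sub r hC hf fun P hP => ev_ca r (hf P hP)))

lemma ev_vB : Ev π (vB C) (vB (C.image r.red)) :=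
  (rdB r).sub ((Ev.ofNat π 7).mul
    (ev_sum_sub r hC hf (g := fun P => ca P * xc P + cb P) fun P hP =>
      ((ev_ca r (hf P hP)).mul (ev_xc r (hf P hP))).add (ev_cb r (hf P hP))))

lemma ev_dl : Ev π (dl C) (dl (C.image r.red)) :=
  (((ev_vA r hC hf).pow 3).mul ((rdB r).pow 2)).sub (((rdA r).pow 3).mul ((ev_vB r hC hf).pow 2))

lemma ev_vX {ξ : L} {ξ' : κ} (hξ : Ev π ξ ξ') (hne : ∀ P ∈ C.erase 0, ξ' ≠ xc (r.red P)) :
    Ev π (vX C (RingHom.id L) ξ) (vX (C.image r.red) (RingHom.id κ) ξ') :=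
  hξ.add (ev_sum_sub r hC hf
    (g := fun P => ca P / (ξ' - xc P) + cb P / (ξ' - xc P) ^ 2) fun P hP =>
      ((ev_ca r (hf P hP)).div (hξ.sub (ev_xc r (hf P hP))) (sub_ne_zero.2 (hne P hP))).add
      ((ev_cb r (hf P hP)).div ((hξ.sub (ev_xc r (hf P hP))).pow 2)
        (pow_ne_zero 2 (sub_ne_zero.2 (hne P hP)))))

lemma ev_vS {ξ : L} {ξ' : κ} (hξ : Ev π ξ ξ') (hne : ∀ P ∈ C.erase 0, ξ' ≠ xc (r.red P)) :
    Ev π (vS C (RingHom.id L) ξ) (vS (C.image r.red) (RingHom.id κ) ξ') :=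
  (Ev.one π).sub (ev_sum_sub r hC hf
    (g := fun P => ca P / (ξ' - xc P) ^ 2 + 2 * cb P / (ξ' - xc P) ^ 3) fun P hP =>
      ((ev_ca r (hf P hP)).div ((hξ.sub (ev_xc r (hf P hP))).pow 2)
        (pow_ne_zero 2 (sub_ne_zero.2 (hne P hP)))).add
      (((Ev.ofNat π 2).mul (ev_cb r (hf P hP))).div ((hξ.sub (ev_xc r (hf P hP))).pow 3)
        (pow_ne_zero 3 (sub_ne_zero.2 (hne P hP)))))

omit hC in
lemma vX_not_mem {ξ : L} (hξ : ξ ∉ π.O) : vX C (RingHom.id L) ξ ∉ π.O := by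
  intro h
  refine hξ ?_
  have : ∑ P ∈ C.erase 0, (ca P / (ξ - xc P) + cb P / (ξ - xc P) ^ 2) ∈ π.O := by
    refine sum_mem fun P hP => ?_
    have h1 : ξ - xc P ∉ π.O := fun e => hξ (by simpa using add_mem e (ev_xc r (hf P hP)).mem)
    have h2 := (Ev.inv_of_not h1).mem
    rw [div_eq_mul_inv, div_eq_mul_inv, ← inv_pow]
    exact add_mem (mul_mem (ev_ca r (hf P hP)).mem h2)
      (mul_mem (ev_cb r (hf P hP)).mem (pow_mem h2 2))
  simpa [vX] using sub_mem h this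

end Pool.Agent.MP_c481b3_nt.H28
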