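import Pool.Agent.MP_c481b3_nt.H28.Spec2

set_option autoImplicit false

namespace Pool.Agent.MP_c481b3_nt.H28

open Polynomial

section Top

variable {R : Type} [CommRing R]

/-- the degree is at most `k` and the coefficient at `k` is `c` -/
def TopC (p : R[X]) (k : ℕ) (c : R) : Prop := p.natDegree ≤ k ∧ p.coeff k = c

theorem TopC.mul {p q : R[X]} {k l : ℕ} {c e : R} (hp : TopC p k c) (hq : TopC q l e) :
    TopC (p * q) (k + l) (c * e) :=
  ⟨natDegree_mul_le.trans (Nat.add_le_add hp.1 hq.1), by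
    rw [coeff_mul_add_eq_of_natDegree_le hp.1 hq.1, hp.2, hq.2]⟩

theorem TopC.add {p q : R[X]} {k : ℕ} {c e : R} (hp : TopC p k c) (hq : TopC q k e) :
    TopC (p + q) k (c + e) :=
  ⟨(natDegree_add_le _ _).trans (max_le hp.1 hq.1), by rw [coeff_add, hp.2, hq.2]⟩

theorem TopC.sub {p q : R[X]} {k : ℕ} {c e : R} (hp : TopC p k c) (hq : TopC q k e) :
    TopC (p - q) k (c - e) :=
  ⟨(natDegree_sub_le _ _).trans (max_le hp.1 hq.1), by rw [coeff_sub, hp.2, hq.2]⟩

theorem TopC.raise {p : R[X]} {k l : ℕ} {c : R} (hp : TopC p k c) (h : k < l) : TopC p l 0 :=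
  ⟨hp.1.trans h.le, coeff_eq_zero_of_natDegree_lt (hp.1.trans_lt h)⟩

theorem TopC.cast {p : R[X]} {k l : ℕ} {c e : R} (hp : TopC p k c) (h : k = l) (h' : c = e) :
    TopC p l e := h ▸ h' ▸ hp

theorem TopC.const (a : R) : TopC (C a) 0 a := ⟨(natDegree_C a).le, coeff_C_zero⟩

theorem TopC.pow {p : R[X]} {k : ℕ} {c : R} (hp : TopC p k c) (j : ℕ) :
    TopC (p ^ j) (j * k) (c ^ j) := by
  induction j with
  | zero => simpa using TopC.const (1 : R)
  | succ j ih =>
    rw [pow_succ, pow_succ, Nat.succ_mul]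
    exact ih.mul hp

theorem TopC.sum_zero {α : Type} (s : Finset α) (f : α → R[X]) (k : ℕ)
    (h : ∀ a ∈ s, TopC (f a) k 0) : TopC (∑ a ∈ s, f a) k 0 := by
  classical
  induction s using Finset.induction_on with
  | empty => exact ⟨by simp, by simp⟩
  | insert a s ha ih =>
    rw [Finset.sum_insert ha]
    exact ((h a (Finset.mem_insert_self _ _)).add
      (ih fun b hb => h b (Finset.mem_insert_of_mem hb))).cast rfl (add_zero _)

theorem topC_of_monic {n : R[X]} {m : ℕ} (hn : n.Monic) (hm : n.natDegree = m) : TopC n m 1 :=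
  ⟨hm.le, by rw [← hm]; exact hn⟩

theorem topC_of_lt {d : R[X]} {m : ℕ} {γ : R} (hd : d.natDegree < m) (hγ : d.coeff (m - 1) = γ) :
    TopC d (m - 1) γ := ⟨by omega, hγ⟩

/-- a polynomial of small degree vanishing at many points with unit differences is zero -/
theorem eq_zero_of_unit_diff {ι : Type} (x : ι → R) (Z : Finset ι) :
    ∀ p : R[X], (∀ i ∈ Z, ∀ j ∈ Z, i ≠ j → IsUnit (x i - x j)) → p.natDegree < Z.card →
      (∀ i ∈ Z, p.eval (x i) = 0) → p = 0 := by
  classical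
  induction Z using Finset.induction_on with
  | empty => intro p _ h; simp at h
  | insert a s ha ih =>
    intro p hu hdeg hz
    have hroot : p.IsRoot (x a) := hz a (Finset.mem_insert_self _ _)
    have hfac : (X - C (x a)) * (p /ₘ (X - C (x a))) = p := mul_divByMonic_eq_iff_isRoot.2 hroot
    rw [Finset.card_insert_of_notMem ha] at hdeg
    rcases Nat.eq_zero_or_pos p.natDegree with h0 | h0
    · rw [eq_C_of_natDegree_eq_zero h0] at hroot ⊢
      have : p.coeff 0 = 0 := by simpa [IsRoot] using hroot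
      rw [this, C_0]
    · have : Nontrivial R := by
        by_contra hnt
        rw [not_nontrivial_iff_subsingleton] at hnt
        rw [natDegree_of_subsingleton] at h0
        exact absurd h0 (lt_irrefl _)
      have hq : (p /ₘ (X - C (x a))).natDegree = p.natDegree - 1 := by
        rw [natDegree_divByMonic p (monic_X_sub_C _), natDegree_X_sub_C]
      have hq0 : p /ₘ (X - C (x a)) = 0 := by
        refine ih _ (fun i hi j hj hij => hu i (Finset.mem_insert_of_mem hi) j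
          (Finset.mem_insert_of_mem hj) hij) (by omega) fun i hi => ?_
        have h1 := hz i (Finset.mem_insert_of_mem hi)
        rw [← hfac, eval_mul, eval_sub, eval_X, eval_C] at h1
        have hia : i ≠ a := fun h => ha (h ▸ hi)
        exact (hu i (Finset.mem_insert_of_mem hi) a (Finset.mem_insert_self _ _)
          hia).mul_right_eq_zero.1 h1
      rw [← hfac, hq0, mul_zero]

/-- the homogenised substitution of the fraction `n / d` into `p` -/
noncomputable def homSub (p n d : R[X]) (k : ℕ) : R[X] :=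
  ∑ i ∈ Finset.range (k + 1), C (p.coeff i) * n ^ i * d ^ (k - i)

theorem eval_homSub {p n d : R[X]} {k : ℕ} (hp : p.natDegree ≤ k) {a b : R}
    (h : n.eval a = d.eval a * b) : (homSub p n d k).eval a = d.eval a ^ k * p.eval b := by
  rw [homSub, eval_finsetSum, eval_eq_sum_range' (Nat.lt_succ_of_le hp), Finset.mul_sum]
  refine Finset.sum_congr rfl fun i hi => ?_
  have hik : i ≤ k := Nat.lt_succ_iff.1 (Finset.mem_range.1 hi)
  obtain ⟨j, rfl⟩ := Nat.exists_eq_add_of_le hik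
  simp only [eval_mul, eval_C, eval_pow, h, Nat.add_sub_cancel_left]
  ring

theorem topC_term {n d : R[X]} {m : ℕ} {γ : R} (hn : TopC n m 1) (hd : TopC d (m - 1) γ) (c : R)
    (i j : ℕ) : TopC (C c * n ^ i * d ^ j) (i * m + j * (m - 1)) (c * γ ^ j) :=
  (((TopC.const c).mul (hn.pow i)).mul (hd.pow j)).cast (by omega) (by ring)

theorem term_deg {m i j : ℕ} (hm : 1 ≤ m) : i * m + j * (m - 1) + j = m * (i + j) := by
  obtain ⟨t, rfl⟩ := Nat.exists_eq_add_of_le' hm
  simp only [Nat.add_sub_cancel]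
  ring

theorem topC_homSub_top {p n d : R[X]} {m k : ℕ} {γ : R} (hm : 1 ≤ m) (hn : TopC n m 1)
    (hd : TopC d (m - 1) γ) : TopC (homSub p n d k) (m * k) (p.coeff k) := by
  rw [homSub, Finset.sum_range_succ]
  refine ((TopC.sum_zero _ _ (m * k) fun i hi => ?_).add
    ((topC_term hn hd (p.coeff k) k (k - k)).cast ?_ rfl)).cast rfl ?_
  · have hik : i < k := Finset.mem_range.1 hi
    refine (topC_term hn hd _ i (k - i)).raise ?_
    have h1 := term_deg (i := i) (j := k - i) hm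
    rw [show i + (k - i) = k by omega] at h1
    omega
  · rw [Nat.sub_self, zero_mul, add_zero, mul_comm]
  · rw [Nat.sub_self, pow_zero, mul_one, zero_add]

theorem topC_homSub_next {p n d : R[X]} {m k : ℕ} {γ : R} (hm : 1 ≤ m) (hk : 1 ≤ k)
    (hn : TopC n m 1) (hd : TopC d (m - 1) γ) (hp : p.coeff k = 0) :
    TopC (homSub p n d k) (m * k - 1) (γ * p.coeff (k - 1)) := by
  obtain ⟨k, rfl⟩ := Nat.exists_eq_add_of_le' hk
  rw [homSub, Finset.sum_range_succ, Finset.sum_range_succ, hp, C_0, zero_mul, zero_mul, add_zero]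
  refine ((TopC.sum_zero _ _ (m * (k + 1) - 1) fun i hi => ?_).add
    ((topC_term hn hd (p.coeff k) k (k + 1 - k)).cast ?_ rfl)).cast rfl ?_
  · have hik : i < k := Finset.mem_range.1 hi
    refine (topC_term hn hd _ i (k + 1 - i)).raise ?_
    have h1 := term_deg (i := i) (j := k + 1 - i) hm
    rw [show i + (k + 1 - i) = k + 1 by omega] at h1
    omega
  · have h1 := term_deg (i := k) (j := k + 1 - k) hm
    rw [show k + (k + 1 - k) = k + 1 by omega] at h1
    omega
  · rw [show k + 1 - k = 1 by omega, Nat.add_sub_cancel, pow_one, zero_add, mul_comm]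

end Top

theorem fdComp : FDComp := by
  intro R _ ι Z x ξ ζ m m' γ γ' ⟨n, d, hn, hnm, hd, hγ, hz⟩ ⟨n', d', hn', hnm', hd', hγ', hz'⟩
  have hm : 1 ≤ m := by omega
  have hm' : 1 ≤ m' := by omega
  have : Nontrivial R := by
    by_contra hnt
    rw [not_nontrivial_iff_subsingleton] at hnt
    rw [natDegree_of_subsingleton] at hnm
    omega
  have tn := topC_of_monic hn hnm
  have td := topC_of_lt hd hγ
  have hN : TopC (homSub n' n d m') (m * m') 1 :=
    (topC_homSub_top hm tn td).cast rfl (topC_of_monic hn' hnm').2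
  have hD : TopC (homSub d' n d m') (m * m' - 1) (γ * γ') :=
    (topC_homSub_next hm hm' tn td (coeff_eq_zero_of_natDegree_lt hd')).cast rfl (by rw [hγ'])
  have hpos : 1 ≤ m * m' := Nat.mul_pos hm hm'
  refine ⟨homSub n' n d m', homSub d' n d m', monic_of_natDegree_le_of_coeff_eq_one _ hN.1 hN.2,
    natDegree_eq_of_le_of_coeff_ne_zero hN.1 (by rw [hN.2]; exact one_ne_zero),
    by have := hD.1; omega, hD.2, fun i hi => ?_⟩
  obtain ⟨hu, he⟩ := hz i hi
  obtain ⟨hu', he'⟩ := hz' i hi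
  rw [eval_homSub hnm'.le he, eval_homSub hd'.le he, he']
  exact ⟨(hu.pow _).mul hu', by ring⟩

theorem fdUniq : FDUniq := by
  intro R _ ι Z x ξ m m' γ γ' hu hc ⟨n, d, hn, hnm, hd, hγ, hz⟩ ⟨n', d', hn', hnm', hd', hγ', hz'⟩
  have tn := topC_of_monic hn hnm
  have td := topC_of_lt hd hγ
  have tn' := topC_of_monic hn' hnm'
  have td' := topC_of_lt hd' hγ'
  have hP : TopC (n' * d - n * d') (m + m' - 1) (1 * γ - 1 * γ') :=
    ((tn'.mul td).cast (by omega) rfl).sub ((tn.mul td').cast (by omega) rfl)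
  have h0 : n' * d - n * d' = 0 := by
    refine eq_zero_of_unit_diff x Z _ hu (by have := hP.1; omega) fun i hi => ?_
    simp only [eval_sub, eval_mul, (hz i hi).2, (hz' i hi).2]
    ring
  have h1 := hP.2
  rw [h0, coeff_zero] at h1
  linear_combination -h1

theorem fdTri : FDTri := by
  intro R _ ι Z x ξ₁ ξ₂ ξ₃ m₁ m₂ m₃ γ₁ γ₂ γ₃ A B hu hc ⟨n₁, d₁, hn₁, hm₁, hd₁, hγ₁, hz₁⟩
    ⟨n₂, d₂, hn₂, hm₂, hd₂, hγ₂, hz₂⟩ ⟨n₃, d₃, hn₃, hm₃, hd₃, hγ₃, hz₃⟩ hid
  have tn₁ := topC_of_monic hn₁ hm₁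
  have tn₂ := topC_of_monic hn₂ hm₂
  have tn₃ := topC_of_monic hn₃ hm₃
  have td₁ := topC_of_lt hd₁ hγ₁
  have td₂ := topC_of_lt hd₂ hγ₂
  have td₃ := topC_of_lt hd₃ hγ₃
  have hddd := (td₁.mul td₂).mul td₃
  have hU : TopC (C A * (d₁ * d₂ * d₃) - (n₁ * n₂ * d₃ + n₁ * n₃ * d₂ + n₂ * n₃ * d₁))
      (m₁ + m₂ + m₃ - 1) (0 - (1 * 1 * γ₃ + 1 * 1 * γ₂ + 1 * 1 * γ₁)) :=
    (((TopC.const A).mul hddd).raise (by omega)).sub
      (((((tn₁.mul tn₂).mul td₃).cast (by omega) rfl).add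
        (((tn₁.mul tn₃).mul td₂).cast (by omega) rfl)).add
        (((tn₂.mul tn₃).mul td₁).cast (by omega) rfl))
  have hV : TopC (n₁ * d₂ * d₃ + n₂ * d₁ * d₃ + n₃ * d₁ * d₂)
      (m₁ + m₂ + m₃ - 2) (1 * γ₂ * γ₃ + 1 * γ₁ * γ₃ + 1 * γ₁ * γ₂) :=
    ((((tn₁.mul td₂).mul td₃).cast (by omega) rfl).add
      (((tn₂.mul td₁).mul td₃).cast (by omega) rfl)).add
      (((tn₃.mul td₁).mul td₂).cast (by omega) rfl)
  have hW : TopC (n₁ * n₂ * n₃ + C B * (d₁ * d₂ * d₃)) (m₁ + m₂ + m₃) (1 * 1 * 1 + 0) :=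
    ((tn₁.mul tn₂).mul tn₃).add (((TopC.const B).mul hddd).raise (by omega))
  have hP := ((hU.mul hU).cast (l := 2 * (m₁ + m₂ + m₃) - 2) (by omega) rfl).sub
    ((((TopC.const (4 : R)).mul hV).mul hW).cast (by omega) rfl)
  have h0 := eq_zero_of_unit_diff x Z _ hu (hP.1.trans_lt (by omega)) fun i hi => by
    simp only [eval_sub, eval_add, eval_mul, eval_C, (hz₁ i hi).2, (hz₂ i hi).2, (hz₃ i hi).2]
    linear_combination (d₁.eval (x i) * d₂.eval (x i) * d₃.eval (x i)) ^ 2 * hid i hi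
  have h1 := hP.2
  rw [h0, coeff_zero] at h1
  linear_combination -h1

end Pool.Agent.MP_c481b3_nt.H28
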