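import Pool.Agent.MP_c481b3_nt.H28.Spec5

set_option autoImplicit false

namespace Pool.Agent.MP_c481b3_nt.H28

open NumberField IntermediateField Polynomial

lemma gam_val_one {L : Type} [Field L] (O : ValuationSubring L) (x : L) :
    O.valuation x = 1 ↔ x ≠ 0 ∧ x ∈ O ∧ x⁻¹ ∈ O := by
  constructor
  · intro h
    refine ⟨?_, (O.valuation_le_one_iff x).1 h.le, (O.valuation_le_one_iff _).1 ?_⟩
    · rintro rfl
      simp at h
    · rw [map_inv₀, h, inv_one]
  · rintro ⟨h0, h1, h2⟩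
    have a1 := (O.valuation_le_one_iff x).2 h1
    have a2 := (O.valuation_le_one_iff _).2 h2
    rw [map_inv₀] at a2
    have h3 : O.valuation x ≠ 0 := by simpa using h0
    exact le_antisymm a1 ((inv_le_one₀ (zero_lt_iff.2 h3)).1 a2)

lemma gam_val_lt {L : Type} [Field L] (O : ValuationSubring L) (θ : L ≃+* L) (p : ℕ)
    (h : O.valuation (p : L) < 1) : (O.comap (θ : L →+* L)).valuation (p : L) < 1 := by
  rw [← ValuationSubring.mem_nonunits_iff, ValuationSubring.mem_nonunits_iff_or] at h ⊢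
  rcases h with h | h
  · exact Or.inl h
  · refine Or.inr fun h' => h ?_
    rw [ValuationSubring.mem_comap] at h'
    simpa using h'

lemma gam_one {K : Type} [Field K] [CharZero K] (l : ℕ) (hl : 0 < l) (s : K) (hs : s ^ 2 = -l)
    (y : K) (hy : y ∈ ℚ⟮s⟯) : ∃ a b : ℚ, y = a + b * s := by
  induction hy using IntermediateField.adjoin_induction with
  | mem x hx => exact ⟨0, 1, by simpa using hx⟩
  | algebraMap x => exact ⟨x, 0, by simp⟩
  | add x y _ _ hx hy =>
    obtain ⟨a, b, rfl⟩ := hx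
    obtain ⟨c, d, rfl⟩ := hy
    exact ⟨a + c, b + d, by push_cast; ring⟩
  | inv x _ hx =>
    obtain ⟨a, b, rfl⟩ := hx
    by_cases h : a ^ 2 + l * b ^ 2 = 0
    · have hl' : (0 : ℚ) < l := by exact_mod_cast hl
      have hb : b = 0 := by
        by_contra hb
        have : 0 < (l : ℚ) * b ^ 2 := by positivity
        nlinarith [sq_nonneg a]
      have ha : a = 0 := by simpa [hb] using h
      exact ⟨0, 0, by simp [ha, hb]⟩
    · refine ⟨a / (a ^ 2 + l * b ^ 2), -b / (a ^ 2 + l * b ^ 2), ?_⟩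
      have h' : (a : K) ^ 2 + l * (b : K) ^ 2 ≠ 0 := by exact_mod_cast h
      apply inv_eq_of_mul_eq_one_right
      push_cast
      rw [← mul_div_right_comm, ← add_div, ← mul_div_assoc, div_eq_one_iff_eq h']
      linear_combination (-(b : K) ^ 2) * hs
  | mul x y _ _ hx hy =>
    obtain ⟨a, b, rfl⟩ := hx
    obtain ⟨c, d, rfl⟩ := hy
    exact ⟨a * c - l * b * d, a * d + b * c, by
      push_cast; linear_combination ((b : K) * d) * hs⟩

lemma gam_alg (K : Type) [Field K] [NumberField K] :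
    Algebra.IsAlgebraic ℚ (AlgebraicClosure K) :=
  Algebra.IsAlgebraic.trans ℚ K (AlgebraicClosure K)

lemma gam_normal (K : Type) [Field K] [NumberField K] : Normal ℚ (AlgebraicClosure K) := by
  have := gam_alg K
  have : IsAlgClosure ℚ (AlgebraicClosure K) := ⟨inferInstance, inferInstance⟩
  infer_instance

lemma gam_two (K : Type) [Field K] [NumberField K] (l : ℕ) (hl : 0 < l)
    (s : AlgebraicClosure K) (hs : s ^ 2 = -l) :
    ∃ τ : AlgebraicClosure K ≃+* AlgebraicClosure K, τ s = -s := by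
  have := gam_normal K
  have := gam_alg K
  have hirr : Irreducible (X ^ 2 - C (-(l : ℚ))) := by
    apply X_pow_sub_C_irreducible_of_prime Nat.prime_two
    intro b hb
    have hl' : (0 : ℚ) < l := by exact_mod_cast hl
    nlinarith [sq_nonneg b]
  have hmin : X ^ 2 - C (-(l : ℚ)) = minpoly ℚ (-s) := by
    apply minpoly.eq_of_irreducible_of_monic hirr
    · simp [hs]
    · exact monic_X_pow_sub_C _ two_ne_zero
  obtain ⟨τ, hτ⟩ := minpoly.exists_algEquiv_of_root (K := ℚ) (x := s) (y := -s)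
    (Algebra.IsAlgebraic.isAlgebraic _) (by rw [← hmin]; simp [hs])
  exact ⟨τ.toRingEquiv, hτ⟩

lemma gam_three (K : Type) [Field K] [NumberField K] (σ : K →+* AlgebraicClosure K) :
    ∃ θ : AlgebraicClosure K ≃+* AlgebraicClosure K, ∀ z, θ (algebraMap K _ z) = σ z := by
  have := gam_normal K
  have := gam_alg K
  let φ := σ.toRatAlgHom.liftNormal (AlgebraicClosure K)
  refine ⟨RingEquiv.ofBijective φ (Algebra.IsAlgebraic.algHom_bijective φ), fun z => ?_⟩
  exact σ.toRatAlgHom.liftNormal_commutes (AlgebraicClosure K) z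

theorem gam_of (hC : CtrSpec) (hG : GamCore) : Gam := by
  intro K _ _ l hl s hs
  have hl0 : 0 < l := by omega
  have hs' : (algebraMap K (AlgebraicClosure K) s) ^ 2 = -l := by
    rw [← map_pow, hs]; simp
  obtain ⟨τ, hτ⟩ := gam_two K l hl0 _ hs'
  refine ⟨fun y => gam_one l hl0 s hs y y.2, ⟨τ, hτ⟩, gam_three K, ?_⟩
  intro z hz a b hab
  obtain ⟨c1, c2, -⟩ := hC K
  have key : ∀ (O : ValuationSubring (AlgebraicClosure K)) (p : ℕ), p.Prime → 5 ≤ p →
      IsSquare (-(l : ZMod p)) → O.valuation (p : AlgebraicClosure K) < 1 →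
      ∀ σ : K →+* AlgebraicClosure K, O.valuation (σ z) = 1 := by
    intro O p hp h5 hsq hv σ
    obtain ⟨θ, hθ⟩ := gam_three K σ
    obtain ⟨P, hP, hpP, hc⟩ := c1 _ p hp (gam_val_lt O θ p hv)
    obtain ⟨O₁, hc₁, hz₁⟩ := hz P p hP hp h5 hsq hpP
    rw [gam_val_one] at hz₁ ⊢
    obtain ⟨h0, h1, h2⟩ := hz₁
    rw [← map_inv₀] at h2
    have k1 := c2 P _ _ hP hc₁ hc z h1
    have k2 := c2 P _ _ hP hc₁ hc z⁻¹ h2
    rw [ValuationSubring.mem_comap] at k1 k2
    refine ⟨by simpa using h0, ?_, ?_⟩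
    · rw [← hθ]; exact k1
    · rw [← map_inv₀, ← hθ]; exact k2
  have hn : ((a : AlgebraicClosure K) + b * algebraMap K _ s)
      = ∏ σ : K →ₐ[ℚ⟮s⟯] AlgebraicClosure K, σ z := by
    rw [← Algebra.norm_eq_prod_embeddings,
      IsScalarTower.algebraMap_apply ℚ⟮s⟯ K (AlgebraicClosure K)]
    change _ = algebraMap K (AlgebraicClosure K) ((Algebra.norm ℚ⟮s⟯ z : ℚ⟮s⟯) : K)
    rw [hab]
    simp
  have hn' : ((a : AlgebraicClosure K) - b * algebraMap K _ s)
      = ∏ σ : K →ₐ[ℚ⟮s⟯] AlgebraicClosure K, τ (σ z) := by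
    rw [← map_prod, ← hn, map_add, map_mul, hτ, map_ratCast, map_ratCast]
    ring
  have := hG (AlgebraicClosure K) l hl _ hs' a b (by
    intro O p hp h5 hsq hv
    rw [hn, hn', map_prod, map_prod]
    refine Finset.prod_congr rfl fun σ _ => ?_
    exact (key O p hp h5 hsq hv σ.toRingHom).trans
      (key O p hp h5 hsq hv (τ.toRingHom.comp σ.toRingHom)).symm)
  apply (algebraMap K (AlgebraicClosure K)).injective
  simpa using this

end Pool.Agent.MP_c481b3_nt.H28
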