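import Pool.Agent.MP_c481b3_nt.H28.FFb
import Pool.Agent.MP_c481b3_nt.H28.CtrGam
import Pool.Agent.MP_c481b3_nt.H28.Gam

set_option autoImplicit false

namespace Pool.Agent.MP_c481b3_nt.H28

open Pool.Agent.MP_c481b3_nt.H81 Polynomial NumberField IsLocalRing WqAux IntermediateField

lemma jj_bs {L : Type} [Field L] [CharZero L] [IsAlgClosed L] {l j₀ j₁ : ℕ}
    (hl : l = 1 ∧ j₀ = 1728 ∧ j₁ = 287496 ∨ l = 3 ∧ j₀ = 0 ∧ j₁ = 54000) {s : L} (hs : s ^ 2 = -l) :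
    JJ (bs l s) = j₀ ∧ JJ (wq (rt (bs l s))) = j₁ ∧ JJ (wq (rt (sw (bs l s)))) = j₁ := by
  obtain ⟨st, sp⟩ := bs_spec (hl.imp And.left And.left) hs two_ne_zero three_ne_zero
  obtain ⟨-, a1, a2⟩ := wr_val st.rt.swap (wr_wq (rt (bs l s)))
  obtain ⟨-, b1, b2⟩ := wr_val st.rt.rot.rot (wr_wq (rt (sw (bs l s))))
  have r1 := st.rt.swap.root
  have r2 := st.rt.rot.rot.root
  rw [JJ, JJ, JJ, a1, a2, b1, b2]
  rcases hl with ⟨rfl, rfl, rfl⟩ | ⟨rfl, rfl, rfl⟩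
  · obtain ⟨-, c1, c2⟩ := sp.resolve_right (by simp)
    rw [c1, c2]
    norm_num [bs, jj]
  · obtain ⟨-, c1, c2⟩ := sp.resolve_left (by simp)
    rw [c1, c2] at r1 r2 ⊢
    have key : ∀ e : L, 0 ^ 2 = e ^ 3 + 0 * e + -1 →
        jj (0 - 5 * (3 * e ^ 2 + 0)) (-1 - 7 * ((3 * e ^ 2 + 0) * e)) = ((54000 : ℕ) : L) := by
      intro e h
      rw [jj, show (0 - 5 * (3 * e ^ 2 + 0)) ^ 3 = -3375 by
        linear_combination 3375 * (e ^ 3 + 1) * h,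
        show -1 - 7 * ((3 * e ^ 2 + 0) * e) = -22 by linear_combination 21 * h]
      norm_num
    exact ⟨by simp [jj], key _ r1, key _ r2⟩

variable {K : Type} [Field K] [NumberField K] {A B : 𝓞 K}

lemma fac_unit {L : Type} [Field L] [IsAlgClosed L] {O : ValuationSubring L} {q : ℕ}
    [Fact q.Prime] [CharP (ResidueField O) q] [DecidableEq (ResidueField O)] (h5 : 5 ≤ q)
    (hq : ∀ P : Ideal (𝓞 K), P.IsMaximal → (q : 𝓞 K) ∈ P →
      (Wc A B).Δ ∉ P ∧ ¬(q : ℤ) ∣ aP A B P ∨ (Wc A B).Δ ∈ P ∧ A ∉ P)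
    (ψ : 𝓞 K →+* L) (h : ∀ r, ψ r ∈ O) {t : L} {A' B' : ResidueField O}
    (e : Ev (resPlc O) t (jj A' B')) (f : FS q A' B') :
    O.valuation (ψ (4 * A ^ 3 + 27 * B ^ 2) * t - ψ (6912 * A ^ 3)) = 1 := by
  classical
  have := resid_closed O
  obtain ⟨h2, h3⟩ := small_ne (ResidueField O) h5
  obtain ⟨φ, hφ⟩ := exists_phi (resPlc O) ψ h
  have m : (q : 𝓞 K) ∈ RingHom.ker φ := by simp
  have hP : (RingHom.ker φ).IsMaximal := (RingHom.ker_isPrime φ).isMaximal fun e => by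
    rw [e, Ideal.mem_bot, Nat.cast_eq_zero] at m
    omega
  refine (((hφ _).mul e).sub (hφ _)).v_one fun z => ?_
  simp only [map_add, map_mul, map_pow, map_ofNat] at z
  rcases hq _ hP m with ⟨a, b⟩ | ⟨a, b⟩
  · obtain ⟨n, hG, hA, hB, n0, -, tr⟩ := loc_hom q h3 φ hP (fun _ => Iff.rfl) a
    obtain ⟨u, u1⟩ := is_iso h3 hG f.1 (jj_eq h3 hG f.1 (by
      rw [jj, div_eq_iff hG.disc]; linear_combination -z))
    have cr := compRing h3 hG
    obtain ⟨Q, q0, q1⟩ := exists_tors h3 hG (frE hG q n hA hB - (aP A B (RingHom.ker φ) : ℤ)) (by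
      rwa [map_sub, cE_frE _ _ _ _ _ n0, map_intCast, zero_sub, neg_ne_zero, Ne,
        CharP.intCast_eq_zero_iff _ q]) (p := q) Fact.out (by
      rw [cr.sub, NE_frE, ← mul_one (aP A B (RingHom.ker φ) : EE hG), cr.pol_int', tr, mul_one,
        cr.int, ← sq, sub_add_cancel]
      exact dvd_pow_self _ n0)
    exact q0 ((one_nsmul Q).symm.trans (u1.ker (f.tors (by rw [← map_nsmul, q1, map_zero]))))
  · rw [RingHom.mem_ker, Wc_disc] at a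
    simp only [map_add, map_mul, map_pow, map_ofNat, map_neg] at a
    refine b (pow_eq_zero_iff three_ne_zero |>.1 (mul_left_cancel₀
      (mul_ne_zero (pow_ne_zero 12 h2) (pow_ne_zero 3 h3)) ?_))
    linear_combination -16 * z - jj A' B' * a

/-- the algebraic closure -/
abbrev Kb (K : Type) [Field K] := AlgebraicClosure K

/-- the homogeneous form of the relative norm polynomial -/
noncomputable def mm (A B : 𝓞 K) (s : K) (τ : (Kb K) →+* (Kb K)) (t : (Kb K)) : (Kb K) :=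
  ∏ σ : K →ₐ[ℚ⟮s⟯] (Kb K), (τ (σ ((4 * A ^ 3 + 27 * B ^ 2 : 𝓞 K) : K)) * t - τ (σ ((6912 * A ^ 3 : 𝓞 K) : K)))

variable {l : ℕ} (hl : l = 1 ∨ l = 3) {s : K} (hs : s ^ 2 = -l)

lemma mm_eq (hΔ : (Wc A B).Δ ≠ 0) (τ : (Kb K) →+* (Kb K)) : ∃ c, c ≠ 0 ∧ ∀ t,
    ∏ σ : K →ₐ[ℚ⟮s⟯] (Kb K), (τ (σ (jj (A : K) B)) - t) = mm A B s τ t * c := by
  have d : ((4 * A ^ 3 + 27 * B ^ 2 : 𝓞 K) : K) ≠ 0 := fun e =>
    hΔ (by rw [Wc_disc, RingOfIntegers.coe_eq_zero_iff.1 e, mul_zero])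
  refine ⟨∏ σ : K →ₐ[ℚ⟮s⟯] (Kb K), -(τ (σ ((4 * A ^ 3 + 27 * B ^ 2 : 𝓞 K) : K)))⁻¹, Finset.prod_ne_zero_iff.2
    fun σ _ => neg_ne_zero.2 (inv_ne_zero ((map_ne_zero τ).2 ((map_ne_zero σ).2 d))), fun t => ?_⟩
  rw [mm, ← Finset.prod_mul_distrib]
  refine Finset.prod_congr rfl fun σ _ => ?_
  have e : τ (σ ((4 * A ^ 3 + 27 * B ^ 2 : 𝓞 K) : K)) ≠ 0 := (map_ne_zero τ).2 ((map_ne_zero σ).2 d)
  rw [show jj (A : K) B = ((6912 * A ^ 3 : 𝓞 K) : K) / ((4 * A ^ 3 + 27 * B ^ 2 : 𝓞 K) : K)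
    by simp [jj, map_ofNat], map_div₀, map_div₀]
  field_simp
  ring

include hl hs

lemma nm_lin (z : K) : ∃ a b : ℚ, ((Algebra.norm ℚ⟮s⟯ z : ℚ⟮s⟯) : K) = a + b * s ∧
    ∀ τ : (Kb K) →+* (Kb K), ∏ σ : K →ₐ[ℚ⟮s⟯] (Kb K), τ (σ z) = a + b * τ (algebraMap K (Kb K) s) := by
  obtain ⟨a, b, e⟩ := (gam_of ctrSpec gamCore K l hl s hs).1 (Algebra.norm ℚ⟮s⟯ z)
  refine ⟨a, b, e, fun τ => ?_⟩
  rw [← map_prod, ← Algebra.norm_eq_prod_embeddings,
    show algebraMap ℚ⟮s⟯ (Kb K) (Algebra.norm ℚ⟮s⟯ z) = algebraMap K (Kb K) ((Algebra.norm ℚ⟮s⟯ z : ℚ⟮s⟯) : K)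
      from rfl, e]
  simp

lemma mm_nice {O : ValuationSubring (Kb K)} {q : ℕ} [Fact q.Prime] [CharP (ResidueField O) q]
    [DecidableEq (ResidueField O)] (h5 : 5 ≤ q) (H : Inert O q l (algebraMap K (Kb K) s))
    (hq : ∀ P : Ideal (𝓞 K), P.IsMaximal → (q : 𝓞 K) ∈ P →
      (Wc A B).Δ ∉ P ∧ ¬(q : ℤ) ∣ aP A B P ∨ (Wc A B).Δ ∈ P ∧ A ∉ P)
    (τ : (Kb K) →+* (Kb K)) (ε : ℤ) (e1 : ε * ε = 1) (e2 : τ (algebraMap K (Kb K) s) = ε * algebraMap K (Kb K) s) :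
    Nice O q (algebraMap K (Kb K) s) (mm A B s τ) := by
  have mem : ∀ (σ : K →ₐ[ℚ⟮s⟯] (Kb K)) (r : 𝓞 K), τ (σ r) ∈ O := fun σ r => cg_mem_of_integral O
    ((r.isIntegral_coe.map (τ.comp (σ : K →+* (Kb K))).toIntAlgHom))
  have cg : ∀ γ t t', Cg O γ t t' → Cg O γ (mm A B s τ t) (mm A B s τ t') := fun γ t t' c =>
    Cg.prod _ fun σ => ((Cg.refl γ (mem σ _)).mul c).sub (Cg.refl γ (mem σ _))
  refine ⟨cg, fun a b => ?_, fun t A' B' e f => ?_⟩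
  · obtain ⟨u, v, -, h⟩ := nm_lin hl hs
      (((4 * A ^ 3 + 27 * B ^ 2 : 𝓞 K) : K) * (a + ε * b * s) - ((6912 * A ^ 3 : 𝓞 K) : K))
    have e : mm A B s τ (a + b * algebraMap K (Kb K) s) = u + (v * ε : ℚ) * algebraMap K (Kb K) s := by
      rw [Rat.cast_mul, Rat.cast_intCast, mul_assoc, ← e2, ← h]
      refine Finset.prod_congr rfl fun σ _ => ?_
      have : σ s = algebraMap K (Kb K) s := σ.commutes ⟨s, mem_adjoin_simple_self ℚ s⟩
      have e3 : (ε : (Kb K)) * ε = 1 := by exact_mod_cast e1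
      simp only [map_sub, map_mul (σ : K →ₐ[ℚ⟮s⟯] (Kb K)), map_mul τ, map_add σ (a : K), map_add τ,
        map_intCast, this, e2]
      linear_combination -τ (σ ((4 * A ^ 3 + 27 * B ^ 2 : 𝓞 K) : K)) * b * algebraMap K (Kb K) s * e3
    rw [e]
    exact w_rat H _ _ (e ▸ (cg 1 _ _ (Cg.refl 1 ((O.valuation_le_one_iff _).1 (v_lin H a b)))).l)
  · rw [mm, map_prod]
    exact Finset.prod_eq_one fun σ _ => fac_unit h5 hq
      ((τ.comp (σ : K →+* (Kb K))).comp (algebraMap _ K)) (mem σ) e f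

omit hl in
theorem ff_main {j₀ j₁ : ℕ}
    (hj : l = 1 ∧ j₀ = 1728 ∧ j₁ = 287496 ∨ l = 3 ∧ j₀ = 0 ∧ j₁ = 54000) (hΔ : (Wc A B).Δ ≠ 0)
    {q : ℕ} (hp : q.Prime) (h5 : 5 ≤ q) (non : ¬IsSquare (-(l : ZMod q)))
    (hq : ∀ P : Ideal (𝓞 K), P.IsMaximal → (q : 𝓞 K) ∈ P →
      (Wc A B).Δ ∉ P ∧ ¬(q : ℤ) ∣ aP A B P ∨ (Wc A B).Δ ∈ P ∧ A ∉ P)
    (hn : ∀ r : ℚ, ((Algebra.norm ℚ⟮s⟯ ((jj (A : K) B - j₁) / (jj (A : K) B - j₀)) : ℚ⟮s⟯) : K) ^ 12
      ≠ r) : (Exc A B l).Infinite := by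
  classical
  intro fin
  have hl : l = 1 ∨ l = 3 := hj.imp And.left And.left
  have : Algebra.IsAlgebraic ℚ (Kb K) := gam_alg K
  set s' := algebraMap K (Kb K) s with hs'
  have h2 : s' ^ 2 = -l := by rw [hs', ← map_pow, hs, map_neg, map_natCast]
  obtain ⟨-, ⟨τ, hτ⟩, -, gam⟩ := gam_of ctrSpec gamCore K l hl s hs
  obtain ⟨n, units⟩ := split_units hΔ hl h2 fin
  choose g hg using exists_rat h2
  have emb : ∀ (σ : K →+* (Kb K)) (i : ℕ), σ (aeval (jj (A : K) B) (g i))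
      = UU^[i] (fun y => σ (jj (A : K) B) - JJ y) (bs l s') := fun σ i => by
    rw [← hg]; exact (aeval_algHom_apply σ.toRatAlgHom _ _).symm
  have ej : algebraMap K (Kb K) (jj (A : K) B) = jj (iK A) (iK B) := by simp [jj, iK_eq, map_ofNat]
  obtain ⟨O, hO⟩ := @cg_exists_val (Kb K) _ _ _ hp
  have := res_charP hp hO
  have : Fact q.Prime := ⟨hp⟩
  have H : Inert O q l s' := ⟨hp, by omega, non, h2, hO⟩
  have fin := inert_main H h5 hl (mm_nice hl hs h5 H hq (RingHom.id (Kb K)) 1 rfl (by simp))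
    (mm_nice hl hs h5 H hq τ (-1) rfl (by simpa using hτ)) ⟨n, fun i hi => by
      set ρ := aeval (jj (A : K) B) (g (i + 1)) / aeval (jj (A : K) B) (g i) ^ 2 with hρ
      have u := units i hi
      rw [← ej, ← emb, ← emb, ← map_pow, ← map_div₀, ← hρ] at u
      have r0 : ρ ≠ 0 := by
        obtain ⟨O₁, h₁⟩ := @cg_exists_val (Kb K) _ _ 13 (by norm_num)
        obtain ⟨P, p1, p2, -⟩ := (ctrSpec K).1 O₁ 13 (by norm_num) h₁
        obtain ⟨O₂, -, h⟩ := u P 13 p1 (by norm_num) (by norm_num) (by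
          rcases hl with rfl | rfl
          exacts [⟨5, by decide⟩, ⟨6, by decide⟩]) p2
        intro e
        simp [e] at h
      obtain ⟨a, b, e, h⟩ := nm_lin hl hs ρ
      have e1 := congrArg (algebraMap K (Kb K)) (gam ρ u a b e)
      have key : ∀ τ : (Kb K) →+* (Kb K), ∏ σ : K →ₐ[ℚ⟮s⟯] (Kb K), τ (σ ρ) = UU^[i + 1]
          (fun y => mm A B s τ (JJ y)) (bs l s') / UU^[i] (fun y => mm A B s τ (JJ y)) (bs l s') ^ 2 :=
        fun τ => by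
          obtain ⟨c, c0, hc⟩ := mm_eq (s := s) hΔ τ
          have k : ∀ i, ∏ σ : K →ₐ[ℚ⟮s⟯] (Kb K), τ (σ (aeval (jj (A : K) B) (g i)))
              = UU^[i] (fun y => mm A B s τ (JJ y)) (bs l s') * c ^ 2 ^ i := fun i => by
            rw [← UU_const (x := bs l s'), ← UU_mul]
            simp only [← hc, UU_prod]
            exact Finset.prod_congr rfl fun σ _ => emb (τ.comp (σ : K →+* (Kb K))) i
          simp only [hρ, map_div₀, map_pow, Finset.prod_div_distrib, Finset.prod_pow, k]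
          rw [mul_pow, ← pow_mul, ← pow_succ, mul_div_mul_right _ _ (pow_ne_zero _ c0)]
      rw [UU_pow, UU_div, UU_pow, ← Function.iterate_succ_apply, UU_div, UU_div, div_pow _ _ 2,
        div_div_div_comm, ← key, ← key, div_pow, div_eq_one_iff_eq (pow_ne_zero _
          (Finset.prod_ne_zero_iff.2 fun σ _ => by simpa using r0)), h, h]
      simpa [hτ, sub_eq_add_neg] using e1⟩
  have one := sub_eq_zero.1 ((ctrSpec K).2.2 O q hp hO _ fin)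
  obtain ⟨c0, c1, c2⟩ := jj_bs hj h2
  obtain ⟨a, b, -, h⟩ := nm_lin hl hs ((jj (A : K) B - j₁) / (jj (A : K) B - j₀))
  have key : ∀ τ : (Kb K) →+* (Kb K), mm A B s τ j₁ / mm A B s τ j₀ = a + b * τ s' := fun τ => by
    obtain ⟨c, c0, hc⟩ := mm_eq (s := s) hΔ τ
    rw [← h, ← mul_div_mul_right _ _ c0, ← hc, ← hc, ← Finset.prod_div_distrib]
    simp
  rw [UU, c0, c1, c2, ← sq, ← div_pow, div_div_div_comm, key, key, ← pow_mul, ← pow_mul] at one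
  have e := gamCore (Kb K) l hl s' h2 a b fun O _ _ _ _ _ => by
    have := congrArg O.valuation one
    rw [map_pow, map_one, pow_eq_one_iff_left (mul_ne_zero two_ne_zero (mul_ne_zero (by norm_num)
      (left_ne_zero_of_mul (exp_pos H 0).ne'))), map_div₀] at this
    simpa [hs', hτ, sub_eq_add_neg] using eq_of_div_eq_one this
  obtain ⟨u, v, e1, h'⟩ := nm_lin hl hs (((jj (A : K) B - j₁) / (jj (A : K) B - j₀)) ^ 12)
  simp only [map_pow, Finset.prod_pow, h] at h'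
  have e2 := h' (RingHom.id (Kb K))
  have e3 := h' τ
  simp only [RingHom.id_apply, RingHom.coe_coe, hτ, mul_neg, ← sub_eq_add_neg] at e2 e3
  refine hn u ?_
  rw [map_pow] at e1
  rw [← SubmonoidClass.coe_pow, e1, add_eq_left]
  refine (algebraMap K (Kb K)).injective (mul_left_cancel₀ two_ne_zero ?_)
  rw [map_mul, map_ratCast, map_zero]
  linear_combination e3 - e2 + e

end Pool.Agent.MP_c481b3_nt.H28
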