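import Pool.Agent.MP_c481b3_nt.H28.VComp

set_option autoImplicit false

namespace Pool.Agent.MP_c481b3_nt.H28

open Pool.Agent.MP_c481b3_nt.H81 Polynomial

variable {k : Type*} [Field k] {A B e₁ e₂ e₃ : k}

/-- the coefficient `A` in terms of differences of roots -/
def fa (p q : k) : k := -(p ^ 2 - p * q + q ^ 2) / 3

/-- the coefficient `B` in terms of differences of roots -/
def fb (p q : k) : k := -((p + q) * (q - 2 * p) * (p - 2 * q)) / 27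

lemma fa_mul (p q s : k) : fa (p * s) (q * s) = fa p q * s ^ 2 := by simp only [fa]; ring

lemma fb_mul (p q s : k) : fb (p * s) (q * s) = fb p q * s ^ 3 := by simp only [fb]; ring

lemma map_fa {M : Type*} [Field M] (σ : k →+* M) (p q : k) : σ (fa p q) = fa (σ p) (σ q) := by
  simp [fa, map_ofNat]

lemma map_fb {M : Type*} [Field M] (σ : k →+* M) (p q : k) : σ (fb p q) = fb (σ p) (σ q) := by
  simp [fb, map_ofNat]

lemma ev_fa {κ : Type*} [Field κ] {π : Plc k κ} (h3 : (3 : κ) ≠ 0) {p q : k} {p' q' : κ}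
    (hp : Ev π p p') (hq : Ev π q q') : Ev π (fa p q) (fa p' q') :=
  (((hp.pow 2).sub (hp.mul hq)).add (hq.pow 2)).neg.div (Ev.ofNat π 3) h3

lemma ev_fb {κ : Type*} [Field κ] {π : Plc k κ} (h3 : (3 : κ) ≠ 0) {p q : k} {p' q' : κ}
    (hp : Ev π p p') (hq : Ev π q q') : Ev π (fb p q) (fb p' q') :=
  (((hp.add hq).mul (hq.sub ((Ev.ofNat π 2).mul hp))).mul
    (hp.sub ((Ev.ofNat π 2).mul hq))).neg.div (Ev.ofNat π 27)
    (by rw [show (27 : κ) = 3 ^ 3 by norm_num]; exact pow_ne_zero 3 h3)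

/-- the three roots of the cubic -/
structure Rt (A B e₁ e₂ e₃ : k) : Prop where
  s1 : e₁ + e₂ + e₃ = 0
  s2 : A = e₁ * e₂ + e₁ * e₃ + e₂ * e₃
  s3 : B = -(e₁ * e₂ * e₃)

lemma exists_rt [IsAlgClosed k] (A B : k) : ∃ e₁ e₂ e₃, Rt A B e₁ e₂ e₃ := by
  obtain ⟨a, ha⟩ := IsAlgClosed.exists_root (X ^ 3 + C A * X + C B : k[X])
    (degree_ne_of_natDegree_ne (n := 0) (by
      rw [show (X ^ 3 + C A * X + C B : k[X]).natDegree = 3 by compute_degree!]; norm_num))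
  obtain ⟨b, hb⟩ := IsAlgClosed.exists_root (X ^ 2 + C a * X + C (a ^ 2 + A) : k[X])
    (degree_ne_of_natDegree_ne (n := 0) (by
      rw [show (X ^ 2 + C a * X + C (a ^ 2 + A) : k[X]).natDegree = 2 by compute_degree!]; norm_num))
  simp only [IsRoot, eval_add, eval_pow, eval_X, eval_mul, eval_C] at ha hb
  exact ⟨a, b, -a - b, by ring, by linear_combination hb, by linear_combination ha - a * hb⟩

lemma Rt.rot (h : Rt A B e₁ e₂ e₃) : Rt A B e₂ e₃ e₁ :=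
  ⟨by linear_combination h.s1, by linear_combination h.s2, by linear_combination h.s3⟩

lemma Rt.disc (h : Rt A B e₁ e₂ e₃) :
    4 * A ^ 3 + 27 * B ^ 2 = -((e₁ - e₂) * (e₁ - e₃) * (e₂ - e₃)) ^ 2 := by
  have : e₃ = -e₁ - e₂ := by linear_combination h.s1
  rw [h.s2, h.s3, this]; ring

lemma Rt.ne (h : Rt A B e₁ e₂ e₃) (hG : Good A B) : e₁ ≠ e₂ ∧ e₁ ≠ e₃ ∧ e₂ ≠ e₃ := by
  have := hG.disc
  rw [h.disc] at this
  refine ⟨?_, ?_, ?_⟩ <;> rintro rfl <;> simp at this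

lemma Rt.root (h : Rt A B e₁ e₂ e₃) : (0 : k) ^ 2 = e₁ ^ 3 + A * e₁ + B := by
  rw [h.s2, h.s3]; linear_combination -e₁ ^ 2 * h.s1

lemma Rt.eq_fa (h : Rt A B e₁ e₂ e₃) (h3 : (3 : k) ≠ 0) :
    A = fa (e₁ - e₂) (e₁ - e₃) ∧ B = fb (e₁ - e₂) (e₁ - e₃) := by
  have : e₃ = -e₁ - e₂ := by linear_combination h.s1
  have h27 : (27 : k) ≠ 0 := by rw [show (27 : k) = 3 ^ 3 by norm_num]; exact pow_ne_zero 3 h3
  rw [h.s2, h.s3, this, fa, fb]
  constructor <;> field_simp <;> ring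

lemma rt_of_roots (h1 : e₁ ^ 3 + A * e₁ + B = 0) (h2 : e₂ ^ 3 + A * e₂ + B = 0)
    (h3 : e₃ ^ 3 + A * e₃ + B = 0) (n1 : e₁ ≠ e₂) (n2 : e₁ ≠ e₃) (n3 : e₂ ≠ e₃) :
    Rt A B e₁ e₂ e₃ := by
  have a : e₁ ^ 2 + e₁ * e₂ + e₂ ^ 2 + A = 0 :=
    mul_left_cancel₀ (sub_ne_zero.2 n1) (by linear_combination h1 - h2)
  have b : e₁ ^ 2 + e₁ * e₃ + e₃ ^ 2 + A = 0 :=
    mul_left_cancel₀ (sub_ne_zero.2 n2) (by linear_combination h1 - h3)
  have c : e₁ + e₂ + e₃ = 0 := mul_left_cancel₀ (sub_ne_zero.2 n3) (by linear_combination a - b)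
  exact ⟨c, by linear_combination a - (e₁ + e₂) * c, by
    linear_combination h1 - e₁ * a + e₁ * e₂ * c⟩

variable [DecidableEq k]

/-- the denominator of the product formula -/
noncomputable def Dn (D : Finset (Pt A B)) (e : k) : k := ∏ P ∈ D.erase 0, (e - xc P)

/-- the numerator of the product formula -/
noncomputable def Nm (D : Finset (Pt A B)) (e : k) (T : Pt A B) : k := ∏ P ∈ D, (e - xc (T + P))

lemma Rt.two (h : Rt A B e₁ e₂ e₃) (hG : Good A B) :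
    pt A B e₁ 0 ≠ 0 ∧ xc (pt A B e₁ 0) = e₁ ∧ 2 • pt A B e₁ 0 = 0 := by
  refine ⟨pt_ne hG h.root, xc_pt hG h.root, ?_⟩
  have := pt_neg hG h.root
  rw [neg_zero] at this
  rw [two_nsmul]
  nth_rewrite 1 [this]
  exact neg_add_cancel _

lemma two_not_mem {D : Finset (Pt A B)} (hD : IsSub D) (ho : Odd D.card) {T : Pt A B} (h0 : T ≠ 0)
    (h2 : 2 • T = 0) : T ∉ D := by
  intro h
  obtain ⟨m, hm⟩ := ho
  have := hD.nsmul_card h
  rw [hm, add_nsmul, mul_nsmul, h2, nsmul_zero, zero_add, one_nsmul] at this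
  exact h0 this

lemma two_add_ne {D : Finset (Pt A B)} (hD : IsSub D) (ho : Odd D.card) {T T' P : Pt A B}
    (h0 : T ≠ 0) (h2 : 2 • T = 0) (h0' : T' ≠ 0) (h2' : 2 • T' = 0) (hx : xc T ≠ xc T')
    (hP : P ∈ D) : T' + P ≠ 0 ∧ xc T ≠ xc (T' + P) := by
  have a : T' + P ≠ 0 := fun e => two_not_mem hD ho h0' h2' ((IsSub_add_iff hD hP).1 (e ▸ hD.zero))
  refine ⟨a, fun e => ?_⟩
  have hT : -T = T := by rw [neg_eq_iff_add_eq_zero, ← two_nsmul, h2]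
  have b : T' + P = T := by
    rcases eq_or_neg a h0 e.symm with e | e
    · exact e
    · rw [e, hT]
  refine two_not_mem hD ho (T := T - T') (fun e => hx (by rw [sub_eq_zero.1 e]))
    (by rw [nsmul_sub, h2, h2', sub_zero]) ?_
  rw [← b, add_sub_cancel_left]; exact hP

variable [IsAlgClosed k]

theorem velu_pq (hG : Good A B) (h3 : (3 : k) ≠ 0) (h : Rt A B e₁ e₂ e₃) {D : Finset (Pt A B)}
    (hD : IsSub D) (ho : Odd D.card) : Dn D e₁ ≠ 0 ∧ Good (vA D) (vB D) ∧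
      vA D * Dn D e₁ ^ 2 = fa (Nm D e₁ (pt A B e₂ 0)) (Nm D e₁ (pt A B e₃ 0)) ∧
      vB D * Dn D e₁ ^ 3 = fb (Nm D e₁ (pt A B e₂ 0)) (Nm D e₁ (pt A B e₃ 0)) := by
  have key : ∀ {a b c : k}, Rt A B a b c → (∀ P ∈ D.erase 0, a ≠ xc P) ∧
      X1 D a ^ 3 + vA D * X1 D a + vB D = 0 := by
    intro a b c r
    obtain ⟨a1, a2, a3⟩ := r.two hG
    have := (off1 hD (two_not_mem hD ho a1 a3)).2
    rw [a2] at this
    refine ⟨this, ?_⟩
    rw [← velu_eq hG hD this, ← r.root]; simp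
  have key2 : ∀ {a b c a' b' c' : k}, Rt A B a b c → Rt A B a' b' c' → a ≠ a' →
      (X1 D a - X1 D a') * Dn D a = Nm D a (pt A B a' 0) ∧ X1 D a ≠ X1 D a' := by
    intro a b c a' b' c' r r' hne
    obtain ⟨a1, a2, a3⟩ := r.two hG
    obtain ⟨b1, b2, b3⟩ := r'.two hG
    have := prod_formula hG h3 hD (two_not_mem hD ho b1 b3) (key r).1
    rw [b2] at this
    refine ⟨this, fun e => ?_⟩
    rw [e, sub_self, zero_mul] at this
    obtain ⟨P, hP, e⟩ := Finset.prod_eq_zero_iff.1 this.symm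
    exact (two_add_ne hD ho a1 a3 b1 b3 (by rwa [a2, b2]) hP).2 (by rw [a2]; exact sub_eq_zero.1 e)
  obtain ⟨n1, n2, n3⟩ := h.ne hG
  obtain ⟨p1, p2⟩ := key2 h h.rot n1
  obtain ⟨q1, q2⟩ := key2 h h.rot.rot n2
  obtain ⟨-, r2⟩ := key2 h.rot h.rot.rot n3
  have r := rt_of_roots (key h).2 (key h.rot).2 (key h.rot.rot).2 p2 q2 r2
  refine ⟨Finset.prod_ne_zero_iff.2 fun P hP => sub_ne_zero.2 ((key h).1 P hP), ⟨hG.two, ?_⟩, ?_, ?_⟩
  · rw [r.disc]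
    exact neg_ne_zero.2 (pow_ne_zero 2 (mul_ne_zero (mul_ne_zero (sub_ne_zero.2 p2)
      (sub_ne_zero.2 q2)) (sub_ne_zero.2 r2)))
  · rw [← p1, ← q1, fa_mul, ← (r.eq_fa h3).1]
  · rw [← p1, ← q1, fb_mul, ← (r.eq_fa h3).2]

lemma good_velu (hG : Good A B) (h3 : (3 : k) ≠ 0) {D : Finset (Pt A B)} (hD : IsSub D)
    (ho : Odd D.card) : Good (vA D) (vB D) := by
  obtain ⟨a, b, c, h⟩ := exists_rt A B
  exact (velu_pq hG h3 h hD ho).2.1

lemma vd_one (hG : Good A B) (h3 : (3 : k) ≠ 0) {D : Finset (Pt A B)} (hD : IsSub D)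
    (ho : Odd D.card) : VD D 1 (vA D) (vB D) :=
  ⟨hG, hD, one_ne_zero, by simp, by simp, good_velu hG h3 hD ho⟩

end Pool.Agent.MP_c481b3_nt.H28
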