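import Pool.Agent.MP_c481b3_nt.H28.Spec4
import Pool.Agent.MP_c481b3_nt.H28.Two

set_option autoImplicit false

namespace Pool.Agent.MP_c481b3_nt.H28

open Pool.Agent.MP_c481b3_nt.H81 Polynomial

namespace KrA

section basic
variable {L κ : Type*} [Field L] [Field κ] [DecidableEq L] [DecidableEq κ] {π : Plc L κ}
  {A B e₁ e₂ e₃ : L} {A' B' : κ} (r : Rd π A B A' B')

/-- the points of `D` that reduce to zero -/
noncomputable def Kr (D : Finset (Pt A B)) : Finset (Pt A B) := D.filter fun P => r.red P = 0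

lemma mem_Kr {D : Finset (Pt A B)} {P : Pt A B} : P ∈ Kr r D ↔ P ∈ D ∧ r.red P = 0 :=
  Finset.mem_filter

lemma Kr_sub {D : Finset (Pt A B)} (hD : IsSub D) : IsSub (Kr r D) := isSub_ker r.red hD

lemma Kr_subset (D : Finset (Pt A B)) : Kr r D ⊆ D := Finset.filter_subset _ _

lemma card_Kr {D : Finset (Pt A B)} (hD : IsSub D) :
    D.card = (D.image r.red).card * (Kr r D).card := card_hom r.red hD

lemma Dn_one {D : Finset (Pt A B)} (hD : IsSub D) (h : D.card = 1) (e : L) : Dn D e = 1 := by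
  have : D.erase 0 = ∅ := by
    rw [← Finset.card_eq_zero, Finset.card_erase_of_mem hD.zero, h]
  rw [Dn, this, Finset.prod_empty]

lemma v_triv {D : Finset (Pt A B)} (h : Kr r D = D) :
    vA (D.image r.red) = A' ∧ vB (D.image r.red) = B' := by
  have : (D.image r.red).erase 0 = ∅ := by
    refine Finset.eq_empty_of_forall_notMem fun Q hQ => ?_
    obtain ⟨h0, hQ⟩ := Finset.mem_erase.1 hQ
    obtain ⟨P, hP, rfl⟩ := Finset.mem_image.1 hQ
    exact h0 ((mem_Kr r).1 (h.symm ▸ hP)).2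
  simp [vA, vB, this]

include r in
lemma ev_root (h : Rt A B e₁ e₂ e₃) : Ev π e₁ (π.ev e₁) := by
  obtain ⟨a1, a2, a3⟩ := h.two (rd_good r)
  have := red_tors_ne r (n := 2) (by simpa using r.good.two) a1 a3
  exact Ev.of_mem (a2 ▸ (ev_xc r this).mem)

include r in
lemma rt_red (h : Rt A B e₁ e₂ e₃) : Rt A' B' (π.ev e₁) (π.ev e₂) (π.ev e₃) := by
  have a := ev_root r h
  have b := ev_root r h.rot
  have c := ev_root r h.rot.rot
  exact ⟨((a.add b).add c).unique ((Ev.zero π).congr h.s1.symm rfl),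
    (rdA r).unique ((((a.mul b).add (a.mul c)).add (b.mul c)).congr h.s2.symm rfl),
    (rdB r).unique (((a.mul b).mul c).neg.congr h.s3.symm rfl)⟩

lemma red_pt (h : Rt A B e₁ e₂ e₃) : r.red (pt A B e₁ 0) = pt A' B' (π.ev e₁) 0 := by
  obtain ⟨a1, a2, -⟩ := h.two (rd_good r)
  obtain ⟨b1, b2, -⟩ := (rt_red r h).two r.good
  exact red_eq r a1 b1 (by rw [a2, b2]; exact ev_root r h)
    (by rw [yc_pt (rd_good r) h.root, yc_pt r.good (rt_red r h).root]; exact Ev.zero π)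

variable {D : Finset (Pt A B)}

lemma odd_image (hD : IsSub D) (ho : Odd D.card) : Odd (D.image r.red).card := by
  rw [card_Kr r hD] at ho
  exact (Nat.odd_mul.1 ho).1

lemma ev_Nm {a b c : L} (h : Rt A B e₁ e₂ e₃) (h' : Rt A B a b c) (hD : IsSub D)
    (ho : Odd D.card) : Ev π (Nm D e₁ (pt A B a 0))
      (Nm (D.image r.red) (π.ev e₁) (pt A' B' (π.ev a) 0) ^ (Kr r D).card) := by
  obtain ⟨c1, -, c3⟩ := (rt_red r h').two r.good
  rw [Nm, Nm, ← Finset.prod_pow, Kr,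
    ← prod_hom r.red hD fun Q => π.ev e₁ - xc (pt A' B' (π.ev a) 0 + Q)]
  refine Ev.prod _ fun P hP => (ev_root r h).sub ?_
  have e : r.red (pt A B a 0 + P) = pt A' B' (π.ev a) 0 + r.red P := by rw [map_add, red_pt r h']
  rw [← e]
  refine ev_xc r fun e0 => two_not_mem (isSub_image _ hD) (odd_image r hD ho) c1 c3 ?_
  rw [e] at e0
  rw [← IsSub_add_iff (isSub_image _ hD) (Finset.mem_image_of_mem r.red hP), e0]
  exact (isSub_image _ hD).zero

lemma ev_Dn (h : Rt A B e₁ e₂ e₃) (hD : IsSub D) : ∃ U, Dn D e₁ = Dn (Kr r D) e₁ * U ∧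
    Ev π U (Dn (D.image r.red) (π.ev e₁) ^ (Kr r D).card) := by
  refine ⟨∏ P ∈ (D.erase 0).filter fun P => ¬r.red P = 0, (e₁ - xc P), ?_, ?_⟩
  · rw [Dn, Dn, Kr, ← Finset.filter_erase, Finset.prod_filter_mul_prod_filter_not]
  · have e1 : Dn (D.image r.red) (π.ev e₁)
        = ∏ Q ∈ D.image r.red, if Q = 0 then 1 else π.ev e₁ - xc Q := by
      rw [Dn, ← Finset.mul_prod_erase _ _ (isSub_image r.red hD).zero, if_pos rfl, one_mul]
      exact Finset.prod_congr rfl fun Q hQ => by rw [if_neg (Finset.mem_erase.1 hQ).1]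
    have e2 : (D.erase 0).filter (fun P => ¬r.red P = 0) = D.filter fun P => ¬r.red P = 0 := by
      rw [Finset.filter_erase, Finset.erase_eq_of_notMem]
      simp
    rw [e1, ← Finset.prod_pow, Kr,
      ← prod_hom r.red hD fun Q => if Q = 0 then 1 else π.ev e₁ - xc Q, e2, Finset.prod_ite,
      Finset.prod_const_one, one_mul]
    exact Ev.prod _ fun P hP => (ev_root r h).sub (ev_xc r (Finset.mem_filter.1 hP).2)

end basic

section main
variable {L κ : Type*} [Field L] [Field κ] [DecidableEq L] [DecidableEq κ] [IsAlgClosed L]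
  [IsAlgClosed κ] {π : Plc L κ} {A B e₁ e₂ e₃ : L} {A' B' : κ} (r : Rd π A B A' B')
  {l : ℕ} [Fact l.Prime] [CharP κ l]

lemma ev_main (h3 : (3 : κ) ≠ 0) (h : Rt A B e₁ e₂ e₃) {D : Finset (Pt A B)} (hD : IsSub D)
    (ho : Odd D.card) {i : ℕ} (hk : (Kr r D).card = l ^ i) :
    Ev π (vA D * Dn (Kr r D) e₁ ^ 2) (vA (D.image r.red) ^ l ^ i) ∧
    Ev π (vB D * Dn (Kr r D) e₁ ^ 3) (vB (D.image r.red) ^ l ^ i) ∧
    Good (vA (D.image r.red) ^ l ^ i) (vB (D.image r.red) ^ l ^ i) := by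
  obtain ⟨-, -, a1, a2⟩ := velu_pq (rd_good r) ((Ev.ofNat π 3).ne_zero h3) h hD ho
  obtain ⟨b0, bG, b1, b2⟩ :=
    velu_pq r.good h3 (rt_red r h) (isSub_image r.red hD) (odd_image r hD ho)
  obtain ⟨U, u1, u2⟩ := ev_Dn r h hD
  have n2 := ev_Nm r h h.rot hD ho
  have n3 := ev_Nm r h h.rot.rot hD ho
  rw [hk] at u2 n2 n3
  have u0 := pow_ne_zero (l ^ i) b0
  have u3 := u2.ne_zero u0
  have c1 := congrArg (iterateFrobenius κ l i) b1
  have c2 := congrArg (iterateFrobenius κ l i) b2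
  rw [map_fa] at c1
  rw [map_fb] at c2
  simp only [map_mul, map_pow, iterateFrobenius_def] at c1 c2
  refine ⟨((ev_fa h3 n2 n3).div (u2.pow 2) (pow_ne_zero 2 u0)).congr ?_ ?_,
    ((ev_fb h3 n2 n3).div (u2.pow 3) (pow_ne_zero 3 u0)).congr ?_ ?_,
    bG.map (iterateFrobenius κ l i)⟩
  · rw [← a1, u1]; field_simp
  · rw [← c1]; field_simp
  · rw [← a2, u1]; field_simp
  · rw [← c2]; field_simp

omit [DecidableEq L] [DecidableEq κ] [IsAlgClosed L] [IsAlgClosed κ] in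
include r in
lemma unit_of {H : L} {a b : κ} (h1 : Ev π (H ^ 2 * A) a) (h2 : Ev π (H ^ 3 * B) b)
    (hG : Good a b) : ∃ h, h ≠ 0 ∧ Ev π H h ∧ h ^ 2 * A' = a ∧ h ^ 3 * B' = b := by
  have d := ((Ev.ofNat π 4).mul ((rdA r).pow 3)).add ((Ev.ofNat π 27).mul ((rdB r).pow 2))
  have d' := (((Ev.ofNat π 4).mul (h1.pow 3)).add ((Ev.ofNat π 27).mul (h2.pow 2))).div d
    r.good.disc
  have d0 := (rd_good r).disc
  rw [show (4 * (H ^ 2 * A) ^ 3 + 27 * (H ^ 3 * B) ^ 2) / (4 * A ^ 3 + 27 * B ^ 2) = H ^ 6 by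
    field_simp] at d'
  have m := Ev.of_mem (π.mem_of_pow (by norm_num) d'.mem)
  refine ⟨_, fun e => ?_, m, ((m.pow 2).mul (rdA r)).unique h1, ((m.pow 3).mul (rdB r)).unique h2⟩
  have := (m.pow 6).unique d'
  rw [e] at this
  exact div_ne_zero hG.disc r.good.disc (by simpa using this.symm)

omit [Fact l.Prime] [DecidableEq κ] [IsAlgClosed κ] in
lemma three_ne (hl : l.Prime) (h5 : 5 ≤ l) : (3 : κ) ≠ 0 := fun e => by
  have : l ∣ 3 := (CharP.cast_eq_zero_iff κ l 3).1 (by simpa using e)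
  have := Nat.le_of_dvd (by norm_num) this
  omega

variable [CharZero L]

omit [DecidableEq L] [DecidableEq κ] [IsAlgClosed L] [IsAlgClosed κ] [CharP κ l] in
include r in
lemma tm : Tm A B l :=
  ⟨rd_good r, three_ne_zero, Nat.cast_ne_zero.2 (Fact.out : l.Prime).ne_zero⟩

lemma tors_main (h5 : 5 ≤ l) (h : Rt A B e₁ e₂ e₃) :
    ∃ (i : ℕ) (c : κ), (i = 1 ∨ i = 2) ∧ (Kr r (tors A B l)).card = l ^ i ∧ c ≠ 0 ∧
      Ev π ((l : L) ^ 2 * Dn (Kr r (tors A B l)) e₁) c ∧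
      c ^ 2 * A' = vA ((tors A B l).image r.red) ^ l ^ i ∧
      c ^ 3 * B' = vB ((tors A B l).image r.red) ^ l ^ i := by
  have hl : l.Prime := Fact.out
  have t : Tm A B l := tm r
  have hd := card_dvd (Kr_sub r t.sub) t.sub (Kr_subset r _)
  rw [t.card, Nat.dvd_prime_pow hl] at hd
  obtain ⟨i, hi, hk⟩ := hd
  have ho : Odd (tors A B l).card := by
    rw [t.card]; exact (hl.odd_of_ne_two (by omega)).pow
  obtain ⟨a1, a2, a3⟩ := ev_main r (three_ne hl h5) h t.sub ho hk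
  rw [t.vd.hA] at a1
  rw [t.vd.hB] at a2
  obtain ⟨c, c0, c1, c2, c3⟩ := unit_of r (H := (l : L) ^ 2 * Dn (Kr r (tors A B l)) e₁)
    (a1.congr (by ring) rfl) (a2.congr (by ring) rfl) a3
  refine ⟨i, c, ?_, hk, c0, c1, c2, c3⟩
  have : i ≠ 0 := by
    rintro rfl
    rw [Dn_one (Kr_sub r t.sub) (by simpa using hk), mul_one] at c1
    have := c1.unique ((Ev.nat π l).pow 2)
    rw [CharP.cast_eq_zero] at this
    exact c0 (by simpa using this)
  omega

include r in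
lemma ev_prod (h5 : 5 ≤ l) (hne : A' ^ (3 * l ^ 2) * B' ^ 2 ≠ A' ^ 3 * B' ^ (2 * l ^ 2)) :
    Ev π ((∏ D ∈ subs A B l, dl D) / (l : L) ^ 12)
      (-(A' ^ (3 * l) * B' ^ 2 - A' ^ 3 * B' ^ (2 * l)) ^ 2) := by
  have hl : l.Prime := Fact.out
  have t : Tm A B l := tm r
  obtain ⟨e₁, e₂, e₃, h⟩ := exists_rt A B
  obtain ⟨i, c, hi, hk, c0, c1, c2, c3⟩ := tors_main r h5 h
  set K := Kr r (tors A B l) with hK
  set C₀ := (tors A B l).image r.red with hC
  rcases hi with rfl | rfl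
  swap
  · have e : K = tors A B l :=
      Finset.eq_of_subset_of_card_le (Kr_subset r _) (by rw [hk, t.card])
    obtain ⟨v1, v2⟩ := v_triv r e
    rw [← hC] at v1 v2
    rw [v1] at c2
    rw [v2] at c3
    refine absurd ?_ hne
    rw [mul_comm 3, mul_comm 2, pow_mul, pow_mul, ← c2, ← c3]
    ring
  rw [pow_one] at hk c2 c3
  have kS : IsSub K := Kr_sub r t.sub
  have kM : K ∈ subs A B l := t.mem_subs.2 ⟨kS, hk⟩
  have cC : C₀.card = l := by
    have := card_Kr r t.sub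
    rw [t.card, ← hK, ← hC, hk, sq] at this
    exact (Nat.eq_of_mul_eq_mul_right hl.pos this).symm
  have o1 : ∀ D ∈ (subs A B l).erase K, Ev π (dl D) (dl C₀) := by
    intro D hD
    obtain ⟨d0, hD⟩ := Finset.mem_erase.1 hD
    obtain ⟨d1, d2⟩ := t.mem_subs.1 hD
    have hf : ∀ P ∈ D.erase 0, r.red P ≠ 0 := fun P hP e =>
      d0 (eq_of_mem hl d1 d2 kS hk (Finset.mem_erase.1 hP).1 (Finset.mem_erase.1 hP).2
        ((mem_Kr r).2 ⟨t.subset d1 d2 (Finset.mem_erase.1 hP).2, e⟩))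
    have e : D.image r.red = C₀ := Finset.eq_of_subset_of_card_le
      (Finset.image_subset_image (t.subset d1 d2))
      (by rw [cC, Finset.card_image_of_injOn (injOn_of_ne r.red d1 hf), d2])
    exact e ▸ ev_dl r d1 hf
  have o2 := Ev.prod _ o1
  rw [Finset.prod_const, Finset.card_erase_of_mem kM, t.card_subs hl, Nat.add_sub_cancel] at o2
  have kk : Kr r K = K := Finset.filter_true_of_mem fun P hP => ((mem_Kr r).1 hP).2
  obtain ⟨a1, a2, -⟩ := ev_main r (three_ne hl h5) h kS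
    (by rw [hk]; exact hl.odd_of_ne_two (by omega)) (i := 1) (by rw [kk, hk, pow_one])
  rw [kk, (v_triv r kk).1, pow_one] at a1
  rw [kk, (v_triv r kk).2, pow_one] at a2
  have o3 := (((a1.pow 3).mul ((rdB r).pow 2)).sub (((rdA r).pow 3).mul (a2.pow 2))).div
    (c1.pow 6) (pow_ne_zero 6 c0)
  have l0 := t.ne
  have d0 : Dn K e₁ ≠ 0 := right_ne_zero_of_mul (c1.ne_zero c0)
  refine (o3.mul o2).congr ?_ ?_
  · rw [← Finset.mul_prod_erase _ _ kM, dl]
    field_simp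
  · rw [dl, sub_pow_char, mul_pow, mul_pow, ← pow_mul (vA C₀), ← pow_mul (vB C₀), mul_comm 3 l,
      mul_comm 2 l, pow_mul (vA C₀), pow_mul (vB C₀), ← c2, ← c3]
    field_simp
    ring

end main

end KrA

open KrA

theorem ssl : SSl := by
  intro L κ _ _ _ _ _ _ _ π A B A' B' r hs l hl h5 l0 D u d hc hu Q' hQ'
  have := Fact.mk hl
  have : CharP κ l := (CharP.charP_iff_prime_eq_zero hl).2 l0
  have t : Tm A B l := tm r
  have lo : Odd l := hl.odd_of_ne_two (by omega)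
  have z : Ev π l 0 := l0 ▸ Ev.nat π l
  obtain ⟨e₁, e₂, e₃, h⟩ := exists_rt A B
  obtain ⟨i, c, hi, hk, c0, c1, -, -⟩ := tors_main r h5 h
  have vA' : vA D = l ^ 2 * A := by rw [d.hA, show u ^ 4 = (u ^ 2) ^ 2 by ring, hu]; ring
  have vB' : vB D = -(l ^ 3 * B) := by rw [d.hB, show u ^ 6 = (u ^ 2) ^ 3 by ring, hu]; ring
  have hd := card_dvd (Kr_sub r d.sub) d.sub (Kr_subset r _)
  rw [hc, Nat.dvd_prime hl] at hd
  have kD : Kr r D = D := by
    rcases hd with hd | hd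
    · obtain ⟨a1, a2, a3⟩ := ev_main r (l := l) (three_ne hl h5) h d.sub (hc ▸ lo) (i := 0)
        (by simpa using hd)
      rw [Dn_one (Kr_sub r d.sub) hd, vA'] at a1
      rw [Dn_one (Kr_sub r d.sub) hd, vB'] at a2
      have b1 := a1.unique (((z.pow 2).mul (rdA r)).mul ((Ev.one π).pow 2))
      have b2 := a2.unique (((z.pow 3).mul (rdB r)).neg.mul ((Ev.one π).pow 3))
      refine absurd ?_ a3.disc
      rw [b1, b2]; simp
    · exact Finset.eq_of_subset_of_card_le (Kr_subset r _) (by rw [hd, hc])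
  have kT : Kr r (tors A B l) = tors A B l := by
    rcases hi with rfl | rfl
    · have e : D = Kr r (tors A B l) := Finset.eq_of_subset_of_card_le
        (fun P hP => (mem_Kr r).2 ⟨t.subset d.sub hc hP, ((mem_Kr r).1 (kD.symm ▸ hP)).2⟩)
        (by rw [hk, hc, pow_one])
      obtain ⟨a1, a2, -⟩ := ev_main r (l := l) (three_ne hl h5) h d.sub (hc ▸ lo) (i := 1)
        (by rw [kD, hc, pow_one])
      rw [kD, vA'] at a1
      rw [kD, vB'] at a2
      rw [← e] at c1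
      have b1 := ((c1.pow 2).mul (rdA r)).unique (((z.pow 2).mul a1).congr (by ring) rfl)
      have b2 := ((c1.pow 3).mul (rdB r)).unique (((z.pow 3).mul a2).neg.congr (by ring) rfl)
      have b3 : A' = 0 := by simpa [c0] using b1
      have b4 : B' = 0 := by simpa [c0] using b2
      refine absurd ?_ r.good.disc
      rw [b3, b4]; simp
    · exact Finset.eq_of_subset_of_card_le (Kr_subset r _) (by rw [hk, t.card])
  by_contra q0
  obtain ⟨Q, hQ, q1⟩ : ∃ Q : Pt A B, l • r.red Q = 0 ∧ r.red Q ≠ 0 := by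
    obtain ⟨ξ, hξ⟩ := hs (xc Q')
    obtain ⟨P, p0, p1⟩ := exists_pt (rd_good r) (ξ : L)
    have p2 : r.red P ≠ 0 := r.red_ne p0 (p1 ▸ ξ.2)
    have p3 : xc (r.red P) = xc Q' := by rw [← (ev_xc r p2).ev, p1, π.ev_coe, hξ]
    refine ⟨P, ?_, p2⟩
    rcases eq_or_neg p2 q0 p3 with e | e
    · rw [e, hQ']
    · rw [e, smul_neg, hQ', neg_zero]
  rw [kT] at c1
  have z0 : ∀ P ∈ tors A B l, r.red P = 0 := fun P hP => ((mem_Kr r).1 (kT.symm ▸ hP)).2
  have nm : ∀ P ∈ (tors A B l).erase 0, xc P ∉ π.O := fun P hP e =>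
    r.red_ne (Finset.mem_erase.1 hP).1 e (z0 P (Finset.mem_erase.1 hP).2)
  have x1 := ev_xc r q1
  obtain ⟨b1, b2, b3⟩ := h.rot.two (rd_good r)
  have tn : pt A B e₂ 0 ∉ tors A B l := two_not_mem t.sub (by rw [t.card]; exact lo.pow) b1 b3
  have pf := prod_formula (rd_good r) t.three t.sub tn (ξ := xc Q)
    fun P hP e => nm P hP (e ▸ x1.mem)
  have w1 : Ev π (∏ P ∈ (tors A B l).erase 0, ((xc Q - xc P) / (e₁ - xc P)))
      (∏ _P ∈ (tors A B l).erase 0, 1) := Ev.prod _ fun P hP => by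
    have n1 : e₁ - xc P ∉ π.O := fun e =>
      nm P hP (by simpa using sub_mem (ev_root r h).mem e)
    have n2 : e₁ - xc P ≠ 0 := fun e => n1 (e ▸ zero_mem _)
    refine ((Ev.one π).add ((x1.sub (ev_root r h)).mul (Ev.inv_of_not n1))).congr ?_ (by simp)
    field_simp
    ring
  have d0 : Dn (tors A B l) e₁ ≠ 0 := right_ne_zero_of_mul (c1.ne_zero c0)
  have w2 : Ev π ((l : L) ^ 2 * ∏ P ∈ (tors A B l).erase 0, (xc Q - xc P)) c := by
    refine (c1.mul w1).congr ?_ (by simp)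
    rw [Dn] at d0
    rw [Finset.prod_div_distrib, Dn, mul_assoc, mul_div_cancel₀ _ d0]
  have w3 : ∏ P ∈ tors A B l, (xc Q - xc (pt A B e₂ 0 + P)) ∈ π.O :=
    prod_mem fun P hP => sub_mem x1.mem (ev_xc r (by
      rw [map_add, z0 P hP, add_zero, red_pt r h.rot]
      exact ((rt_red r h.rot).two r.good).1)).mem
  have w4 := ((Ev.of_mem w3).div w2 c0).mem
  have w0 := right_ne_zero_of_mul (w2.ne_zero c0)
  have l1 := t.ne
  obtain ⟨s1, s2, -⟩ := t.vd.spec (P := Q) fun e => q1 (z0 Q e)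
  obtain ⟨-, s3, -⟩ := t.vd.spec tn
  rw [t.vm_eq] at s1 s2 s3
  have s4 : l • pt A B e₂ 0 = pt A B e₂ 0 := by
    obtain ⟨m, hm⟩ := lo
    rw [hm, add_nsmul, mul_nsmul, b3, nsmul_zero, zero_add, one_nsmul]
  rw [s4] at s3
  refine r.red_ne s1 ?_ (by rw [map_nsmul, hQ])
  have := add_mem w4 (show xc (pt A B e₂ 0) ∈ π.O by rw [b2]; exact (ev_root r h.rot).mem)
  rw [← pf] at this
  nth_rewrite 2 [s3] at this
  rw [s2]
  refine (congrArg (· ∈ π.O) ?_).mp this
  field_simp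
  ring

lemma kron_aux {L κ : Type} [Field L] [Field κ] [IsAlgClosed L] [IsAlgClosed κ] [CharZero L]
    (π : Plc L κ) (hs : Function.Surjective π.ρ) {l : ℕ} (l0 : (l : κ) = 0) {Ψ : ℤ[X]}
    (hl : l.Prime) (h5 : 5 ≤ l) (hΨ : IsUnivPsi l Ψ) :
    ∃ (a : ℕ) (Ψ₁ : ℤ[X]), Ψ = C ((l : ℤ) ^ a) * Ψ₁ ∧
      Ψ₁.map (Int.castRingHom (ZMod l)) = -(X ^ (2 * l + 2) * (X ^ l - X)) ^ 2 := by
  classical
  have := Fact.mk hl
  have hp : Prime (l : ℤ) := Nat.prime_iff_prime_int.1 hl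
  have v1 : π.O.valuation (l : L) < 1 := ((Ev.nat π l).congr rfl l0).v_lt
  have : CharP κ l := (CharP.charP_iff_prime_eq_zero hl).2 l0
  have l1 : (l : L) ≠ 0 := Nat.cast_ne_zero.2 hl.ne_zero
  have two : (2 : κ) ≠ 0 := fun e => by
    have : l ∣ 2 := (CharP.cast_eq_zero_iff κ l 2).1 (by simpa using e)
    have := Nat.le_of_dvd (by norm_num) this
    omega
  set bad : κ[X] := X * (C 4 * X + C 27) * (X ^ l ^ 2 - X) with hbad
  have b0 : bad ≠ 0 := by
    refine mul_ne_zero (mul_ne_zero X_ne_zero fun e => ?_) (FiniteField.X_pow_card_pow_sub_X_ne_zero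
      κ two_ne_zero hl.one_lt)
    have := congrArg (coeff · 1) e
    simp only [coeff_add, coeff_C_mul, coeff_X_one, mul_one, coeff_C_succ, add_zero,
      coeff_zero] at this
    exact pow_ne_zero 2 two (by rw [← this]; norm_num)
  have key : ∀ w' : κ, bad.eval w' ≠ 0 → ∃ w Z : L, Ev π w w' ∧
      aeval w Ψ = l ^ (6 * l + 18) * Z ∧ Ev π Z (-(w' ^ (2 * l + 2) * (w' ^ l - w')) ^ 2) ∧
      -(w' ^ (2 * l + 2) * (w' ^ l - w')) ^ 2 ≠ 0 := by
    intro w' hw
    simp only [hbad, eval_mul, eval_X, eval_add, eval_C, eval_sub, eval_pow, mul_ne_zero_iff,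
      sub_ne_zero] at hw
    obtain ⟨⟨w0, w1⟩, w2⟩ := hw
    obtain ⟨w, e⟩ : ∃ w : L, Ev π w w' := by
      obtain ⟨w, hw⟩ := hs w'
      exact ⟨w, w.2, (π.ev_coe w).trans hw⟩
    have r : Rd π w w w' w' := rd_of e e ⟨two, by
      rw [show 4 * w' ^ 3 + 27 * w' ^ 2 = w' ^ 2 * (4 * w' + 27) by ring]
      exact mul_ne_zero (pow_ne_zero 2 w0) w1⟩
    have x0 := e.ne_zero w0
    have h1 := hΨ L w w (rd_good r) x0 x0
    rw [div_self x0, show w ^ 3 / w ^ 2 = w by field_simp] at h1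
    simp only [one_pow, mul_one] at h1
    rw [Finset.prod_mul_distrib, Finset.prod_const, (tm r).card_subs hl] at h1
    refine ⟨w, _, e, ?_, (ev_prod r h5 fun h => w2 ?_).congr rfl (by ring), ?_⟩
    · rw [h1]; field_simp; ring
    · refine mul_left_cancel₀ (pow_ne_zero (2 * l ^ 2 + 2) w0) ?_
      linear_combination h
    · refine neg_ne_zero.2 (pow_ne_zero 2 (mul_ne_zero (pow_ne_zero _ w0) (sub_ne_zero.2 ?_)))
      exact fun h => w2 (by rw [sq, pow_mul, h, h])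
  have ex : ∀ p : κ[X], p ≠ 0 → ∃ w', p.eval w' ≠ 0 := fun p hp => by
    by_contra! h
    exact hp (Polynomial.funext fun x => by rw [h, eval_zero])
  have Ψ0 : Ψ ≠ 0 := by
    rintro rfl
    obtain ⟨w', hw⟩ := ex bad b0
    obtain ⟨w, Z, -, k1, k2, k3⟩ := key w' hw
    rw [map_zero] at k1
    exact mul_ne_zero (pow_ne_zero _ l1) (k2.ne_zero k3) k1.symm
  obtain ⟨a, Ψ₁, n1, n2⟩ := WfDvdMonoid.max_power_factor Ψ0 (prime_C_iff.2 hp).irreducible
  refine ⟨a, Ψ₁, by rw [n2, map_pow], ?_⟩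
  have m0 : Ψ₁.map (Int.castRingHom κ) ≠ 0 := fun e => n1 ((C_dvd_iff_dvd_coeff _ _).2 fun n => by
    have := congrArg (coeff · n) e
    simp only [coeff_map, coeff_zero, eq_intCast] at this
    exact (CharP.intCast_eq_zero_iff κ l _).1 this)
  have m1 : Ψ₁.map (Int.castRingHom κ) = -(X ^ (2 * l + 2) * (X ^ l - X)) ^ 2 := by
    refine mul_left_cancel₀ (mul_ne_zero b0 m0) (Polynomial.funext fun w' => ?_)
    rw [eval_mul, eval_mul (q := -_)]
    by_cases hw : (bad * Ψ₁.map (Int.castRingHom κ)).eval w' = 0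
    · rw [hw, zero_mul, zero_mul]
    rw [eval_mul, mul_eq_zero, not_or] at hw
    obtain ⟨w, Z, k0, k1, k2, k3⟩ := key w' hw.1
    have e0 : (Ψ₁.map (Int.castRingHom κ)).eval w' = aeval w' Ψ₁ := by
      rw [aeval_def, eval_map]; rfl
    have k4 := ev_eval₂ Ψ₁ k0
    rw [n2, map_mul, map_pow, aeval_C, eq_intCast, Int.cast_natCast] at k1
    have k5 := congrArg π.O.valuation k1
    rw [map_mul, map_mul, k4.v_one (e0 ▸ hw.2), k2.v_one k3, mul_one, mul_one, map_pow,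
      map_pow] at k5
    have k6 : a = 6 * l + 18 := (pow_right_strictAnti₀
      (zero_lt_iff.2 ((Valuation.ne_zero_iff _).2 l1)) v1).injective k5
    rw [k6] at k1
    have k7 := (k4.congr (mul_left_cancel₀ (pow_ne_zero _ l1) k1) rfl).unique k2
    rw [e0, k7]
    simp
  refine Polynomial.map_injective (ZMod.castHom (dvd_refl l) κ) (RingHom.injective _) ?_
  rw [Polynomial.map_map, RingHom.ext_int ((ZMod.castHom (dvd_refl l) κ).comp _)
    (Int.castRingHom κ), m1]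
  simp

theorem kron : Kron := by
  intro l Ψ hl h5 hΨ
  obtain ⟨O, -, h2⟩ := exists_val (Int.castRingHom (AlgebraicClosure ℚ)) (RingHom.injective_int _)
    (Ideal.span {(l : ℤ)})
    (PrincipalIdealRing.isMaximal_of_irreducible (Nat.prime_iff_prime_int.1 hl).irreducible)
  have := resid_closed O
  have v1 : O.valuation (l : AlgebraicClosure ℚ) < 1 := by
    simpa using (h2 l).2 (Ideal.mem_span_singleton_self _)
  exact kron_aux (resPlc O) IsLocalRing.residue_surjective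
    ((Ev.nat (resPlc O) l).unique (Ev.of_lt v1)) hl h5 hΨ

end Pool.Agent.MP_c481b3_nt.H28
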