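import Pool.Agent.MP_c481b3_nt.H28.Spec4

set_option autoImplicit false

namespace Pool.Agent.MP_c481b3_nt.H28

open Pool.Agent.MP_c481b3_nt.H81 Polynomial

namespace ModSqAux

lemma fd_map {R S : Type} [CommRing R] [CommRing S] [Nontrivial S] (φ : R →+* S) {ι : Type}
    {Z : Finset ι} {x ξ : ι → R} {ξ' : ι → S} {m : ℕ} {γ : R} (h : FD Z x ξ m γ)
    (e : ∀ i ∈ Z, φ (ξ i) = ξ' i) : FD Z (fun i => φ (x i)) ξ' m (φ γ) := by
  obtain ⟨n, d, h1, h2, h3, h4, h5⟩ := h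
  refine ⟨n.map φ, d.map φ, h1.map φ, by rw [h1.natDegree_map, h2],
    natDegree_map_le.trans_lt h3, by rw [coeff_map, h4], fun i hi => ?_⟩
  rw [eval_map, eval_map, eval₂_at_apply, eval₂_at_apply, (h5 i hi).2, map_mul, e i hi]
  exact ⟨(h5 i hi).1.map φ, rfl⟩

lemma fd_congr {R : Type} [CommRing R] {ι : Type} {Z : Finset ι} {x ξ ξ' : ι → R} {m : ℕ} {γ : R}
    (h : FD Z x ξ m γ) (e : ∀ i ∈ Z, ξ i = ξ' i) : FD Z x ξ' m γ := by
  obtain ⟨n, d, h1, h2, h3, h4, h5⟩ := h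
  exact ⟨n, d, h1, h2, h3, h4, fun i hi => e i hi ▸ h5 i hi⟩

lemma eq_zero_of_lt {G : Type*} [AddCommGroup G] {q n : ℕ} (hq : q.Prime) (h0 : n ≠ 0)
    (hn : n < q) {Q : G} (h1 : q • Q = 0) (h2 : n • Q = 0) : Q = 0 := by
  by_contra hQ
  have := Fact.mk hq
  have h3 := addOrderOf_dvd_of_nsmul_eq_zero h2
  rw [addOrderOf_eq_prime h1 hQ] at h3
  exact absurd (Nat.le_of_dvd (Nat.pos_of_ne_zero h0) h3) (not_le.2 hn)

open Classical in
/-- an element of the field as an element of the valuation ring -/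
noncomputable def toO {L : Type} [Field L] (O : ValuationSubring L) (x : L) : O :=
  if h : x ∈ O then ⟨x, h⟩ else 0

lemma coe_toO {L : Type} [Field L] {O : ValuationSubring L} {x : L} (h : x ∈ O) :
    (toO O x : L) = x := by rw [toO, dif_pos h]

variable {L κ : Type} [Field L] [Field κ] [DecidableEq L] [DecidableEq κ] [IsAlgClosed L]
  [IsAlgClosed κ] {π : Plc L κ} {A B : L} {A' B' : κ} (r : Rd π A B A' B')

omit [DecidableEq L] [DecidableEq κ] [IsAlgClosed L] [IsAlgClosed κ] in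
lemma unit_of_ev {a : π.O} {b : κ} (h : Ev π a b) (hb : b ≠ 0) : IsUnit a :=
  (π.O.valuation_eq_one_iff a).2 (h.v_one hb)

lemma fd_vm {A₁ B₁ u : L} {A₁' B₁' u' : κ} (r₁ : Rd π A₁ B₁ A₁' B₁') {D : Finset (Pt A B)}
    (d : VD D u A₁ B₁) (hu : Ev π u u') (hu' : u' ≠ 0) (hf : ∀ P ∈ D.erase 0, r.red P ≠ 0)
    {ι : Type} (Z : Finset ι) (Q : ι → Pt A B) (hQ : ∀ i ∈ Z, r.red (Q i) ∉ D.image r.red) :
    FD Z (fun i => toO π.O (xc (Q i))) (fun i => toO π.O (xc (vm D u A₁ B₁ (Q i)))) D.card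
      (toO π.O u ^ 2) := by
  have inj : Function.Injective π.O.subtype := Subtype.val_injective
  have hX : (X : L[X]) ∈ (mapRingHom π.O.subtype).range := ⟨X, map_X _⟩
  have hC : ∀ a ∈ π.O, (C a : L[X]) ∈ (mapRingHom π.O.subtype).range := fun a ha =>
    ⟨C ⟨a, ha⟩, map_C _⟩
  have hp : ∀ s : Finset (Pt A B), s ⊆ D.erase 0 →
      ∏ P ∈ s, (X - C (xc P)) ∈ (mapRingHom π.O.subtype).range := fun s hs =>
    prod_mem fun P hP => sub_mem hX (hC _ (ev_xc r (hf P (hs hP))).mem)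
  obtain ⟨d₀, hd⟩ : dP D ∈ (mapRingHom π.O.subtype).range := hp _ subset_rfl
  obtain ⟨n₀, hn⟩ : nP D ∈ (mapRingHom π.O.subtype).range :=
    add_mem (mul_mem hX (hp _ subset_rfl)) (sum_mem fun P hP => add_mem
      (mul_mem (hC _ (ev_ca r (hf P hP)).mem) (hp _ (Finset.erase_subset _ _)))
      (mul_mem (hC _ (ev_cb r (hf P hP)).mem)
        (hp _ ((Finset.erase_subset _ _).trans (Finset.erase_subset _ _)))))
  rw [coe_mapRingHom] at hd hn
  obtain ⟨n1, n2⟩ := nP_spec d.sub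
  have d1 : d₀.Monic := monic_of_injective inj (hd ▸ dP_monic D)
  have d2 : d₀.natDegree + 1 = D.card := by
    rw [← natDegree_map_eq_of_injective inj, hd, dP_deg d.sub]
  have d' := d.red r r₁ hu hu' hf
  refine ⟨n₀, C (toO π.O u ^ 2) * d₀, monic_of_injective inj (hn ▸ n1),
    by rw [← natDegree_map_eq_of_injective inj, hn, n2],
    (natDegree_C_mul_le _ _).trans_lt (by omega), ?_, fun i hi => ?_⟩
  · rw [coeff_C_mul, ← d2, Nat.add_sub_cancel, d1.coeff_natDegree, mul_one]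
  obtain ⟨c1, c2⟩ := off1 d'.sub (hQ i hi)
  have hP : Q i ∉ D := fun h => hQ i hi (Finset.mem_image_of_mem _ h)
  have x1 := ev_xc r c1
  have e1 : ∀ g : π.O[X], ((g.eval (toO π.O (xc (Q i))) : π.O) : L)
      = (g.map π.O.subtype).eval (xc (Q i)) := fun g => by
    conv_rhs => rw [← coe_toO x1.mem]
    exact (eval_map_apply π.O.subtype _).symm
  have x2 : xc (vm D u A₁ B₁ (Q i)) ∈ π.O := (ev_xc r₁ (by
    rw [d.red_vm r r₁ hu hu' hf]
    exact (d'.spec (hQ i hi)).1)).mem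
  have e2 : (((C (toO π.O u ^ 2) * d₀).eval (toO π.O (xc (Q i))) : π.O) : L)
      = u ^ 2 * (dP D).eval (xc (Q i)) := by
    rw [eval_mul, eval_C, MulMemClass.coe_mul, SubmonoidClass.coe_pow, coe_toO hu.mem, e1, hd]
  constructor
  · refine unit_of_ev (b := u' ^ 2 * ∏ P ∈ D.erase 0, (xc (r.red (Q i)) - xc (r.red P))) ?_ ?_
    · rw [e2, dP_eval]
      exact (hu.pow 2).mul (Ev.prod _ fun P hP => x1.sub (ev_xc r (hf P hP)))
    · exact mul_ne_zero (pow_ne_zero 2 hu') (Finset.prod_ne_zero_iff.2 fun P hP => sub_ne_zero.2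
        (c2 _ (Finset.mem_erase.2
          ⟨hf P hP, Finset.mem_image_of_mem _ (Finset.mem_of_mem_erase hP)⟩)))
  · refine Subtype.ext ?_
    have := d.hu
    rw [MulMemClass.coe_mul, e2, e1, hn, coe_toO x2, nP_eval d.good d.sub (off1 d.sub hP).2,
      (d.spec hP).2.1]
    field_simp

/-- a lift of the points killed by `q` -/
structure Lf (q : ℕ) (F : Pt A' B' → Pt A B) : Prop where
  prime : q.Prime
  tm : Tm A' B' q
  tor : ∀ P, q • P = 0 → q • F P = 0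
  red : ∀ P, q • P = 0 → r.red (F P) = P

variable {r} {q : ℕ} {F : Pt A' B' → Pt A B} (h : Lf r q F)
include h

omit [IsAlgClosed L] [IsAlgClosed κ] in
lemma Lf.eq {P : Pt A' B'} {Q : Pt A B} (hQ : q • Q = 0) (e : r.red Q = P) : F P = Q := by
  have hP : q • P = 0 := by rw [← e, ← map_nsmul, hQ, map_zero]
  exact red_inj r h.tm.ne (h.tor P hP) hQ (by rw [h.red P hP, e])

omit [IsAlgClosed L] [IsAlgClosed κ] in
lemma Lf.ev {P : Pt A' B'} (hP : q • P = 0) (h0 : P ≠ 0) : Ev π (xc (F P)) (xc P) := by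
  have := ev_xc r (P := F P) (by rwa [h.red P hP])
  rwa [h.red P hP] at this

omit [IsAlgClosed L] [IsAlgClosed κ] in
lemma Lf.neg {P : Pt A' B'} (hP : q • P = 0) : xc (F (-P)) = xc (F P) := by
  rw [h.eq (P := -P) (Q := -F P) (by rw [smul_neg, h.tor P hP, neg_zero])
    (by rw [map_neg, h.red P hP]), xc_neg]

lemma Lf.mul {n : ℕ} (t : Tm A' B' n) (hn : n < q) {ι : Type} (Z : Finset ι) (Q : ι → Pt A' B')
    (hQ : ∀ i ∈ Z, Q i ≠ 0 ∧ q • Q i = 0) :
    FD Z (fun i => toO π.O (xc (F (Q i)))) (fun i => toO π.O (xc (F (n • Q i)))) (n ^ 2)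
      ((n : π.O) ^ 2) := by
  have t' := t.up r
  have := fd_vm r r t'.vd (Ev.nat π n) t.ne (fun P hP => red_tors_ne r t.ne
    (Finset.mem_erase.1 hP).1 (t'.mem.1 (Finset.mem_erase.1 hP).2)) Z (fun i => F (Q i))
    (fun i hi hm => by
      rw [image_tors r t, h.red _ (hQ i hi).2, t.mem] at hm
      exact (hQ i hi).1 (eq_zero_of_lt h.prime t.pos hn (hQ i hi).2 hm))
  rw [t'.card, show toO π.O n = n from Subtype.ext (by rw [coe_toO (natCast_mem _ n)]; simp)]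
    at this
  refine fd_congr this fun i hi => ?_
  rw [t'.vm_eq, h.eq (P := n • Q i) (Q := n • F (Q i))
    (by rw [smul_comm, h.tor _ (hQ i hi).2, smul_zero])
    (by rw [map_nsmul, h.red _ (hQ i hi).2])]

omit [IsAlgClosed L] in
lemma Lf.vm_tor {l : ℕ} (t : Tm A' B' l) (hl : l < q) {E : Finset (Pt A' B')} (hE : E.card = l)
    {u' : κ} (d : VD E u' A' B') {P : Pt A' B'} (hP : P ≠ 0 ∧ q • P = 0) :
    P ∉ E ∧ vm E u' A' B' P ≠ 0 ∧ q • vm E u' A' B' P = 0 := by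
  have h1 : P ∉ E := fun hm =>
    hP.1 (eq_zero_of_lt h.prime t.pos hl hP.2 (hE ▸ d.sub.nsmul_card hm))
  exact ⟨h1, (d.spec h1).1, by rw [← d.hom_apply t.three, ← map_nsmul, hP.2, map_zero]⟩

lemma Lf.iso [CharZero L] (hU : Univ) (a0 : A' ≠ 0) (b0 : B' ≠ 0) {l : ℕ} (t : Tm A' B' l)
    (hl : l < q) {D : Finset (Pt A B)} (hD : D ∈ subs A B l) {u' : κ}
    (d : VD (D.image r.red) u' A' B') {R : Type} [CommRing R] [Nontrivial R] (φ : π.O →+* R)
    (hφ : ∀ a : π.O, π.O.valuation a ≤ π.O.valuation (dl D) → φ a = 0) :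
    ∃ u : π.O, Ev π u u' ∧ ∀ {ι : Type} (Z : Finset ι) (Q : ι → Pt A' B'),
      (∀ i ∈ Z, Q i ≠ 0 ∧ q • Q i = 0) →
      FD Z (fun i => φ (toO π.O (xc (F (Q i)))))
        (fun i => φ (toO π.O (xc (F (vm (D.image r.red) u' A' B' (Q i)))))) l (φ (u ^ 2)) := by
  obtain ⟨c1, c2⟩ := (t.up r).mem_subs.1 hD
  have hc : (D.card : κ) ≠ 0 := c2 ▸ t.ne
  obtain ⟨u, ρ, e1, e2, e3, d₁⟩ := lift_vd r a0 b0 c1 hc d
  obtain ⟨⟨G, hG⟩, -⟩ := hU q h.prime.ne_zero
  have hf := red_sub_ne r c1 hc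
  have hE : (D.image r.red).card = l := by rw [card_red r c1 hc, c2]
  refine ⟨toO π.O u, by rwa [coe_toO e1.mem], fun Z Q hQ => ?_⟩
  have := fd_vm r (rd_mul r e3) d₁ e1 d.hu hf Z (fun i => F (Q i)) fun i hi => by
    rw [h.red _ (hQ i hi).2]
    exact (h.vm_tor t hl hE d (hQ i hi)).1
  rw [c2] at this
  refine fd_map φ this fun i hi => ?_
  obtain ⟨-, v1, v2⟩ := h.vm_tor t hl hE d (hQ i hi)
  have e4 : (rd_mul r e3).red (vm D u (A * ρ) (B * ρ) (F (Q i)))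
      = vm (D.image r.red) u' A' B' (Q i) := by
    rw [d₁.red_vm r (rd_mul r e3) e1 d.hu hf, h.red _ (hQ i hi).2]
  have e5 := tors_cong r a0 b0 h.tm hG e3 (h.tor _ v2)
    (Q := vm D u (A * ρ) (B * ρ) (F (Q i)))
    (by rw [← d₁.hom_apply (t.up r).three, ← map_nsmul, h.tor _ (hQ i hi).2, map_zero])
    (by rw [e4, h.red _ v2])
  rw [eq_comm, ← sub_eq_zero, ← map_sub]
  refine hφ _ ?_
  rw [AddSubgroupClass.coe_sub, coe_toO (h.ev v2 v1).mem,
    coe_toO (ev_xc (rd_mul r e3) (by rwa [e4])).mem, ← e2]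
  exact e5

omit [IsAlgClosed L] [IsAlgClosed κ] in
lemma Lf.col {P₁ P₂ P₃ : Pt A' B'} (h₁ : P₁ ≠ 0 ∧ q • P₁ = 0) (h₂ : P₂ ≠ 0 ∧ q • P₂ = 0)
    (h₃ : P₃ ≠ 0 ∧ q • P₃ = 0) (e : P₁ + P₂ = P₃) :
    (toO π.O A - (toO π.O (xc (F P₁)) * toO π.O (xc (F P₂))
      + toO π.O (xc (F P₁)) * toO π.O (xc (F P₃))
      + toO π.O (xc (F P₂)) * toO π.O (xc (F P₃)))) ^ 2
      = 4 * (toO π.O (xc (F P₁)) + toO π.O (xc (F P₂)) + toO π.O (xc (F P₃)))
        * (toO π.O (xc (F P₁)) * toO π.O (xc (F P₂)) * toO π.O (xc (F P₃)) + toO π.O B) := by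
  have n : ∀ {P : Pt A' B'}, P ≠ 0 ∧ q • P = 0 → F P ≠ 0 := fun hP e =>
    hP.1 (by rw [← h.red _ hP.2, e, map_zero])
  have e1 : F P₃ = F P₁ + F P₂ := h.eq (by rw [smul_add, h.tor _ h₁.2, h.tor _ h₂.2, add_zero])
    (by rw [map_add, h.red _ h₁.2, h.red _ h₂.2, e])
  obtain ⟨l, m, hc⟩ := col_of_sum (n h₁) (n h₂) (neg_ne_zero.2 (n h₃)) (by rw [e1, add_neg_cancel])
  have := hc.sym
  rw [xc_neg] at this
  refine Subtype.ext ?_
  push_cast
  rw [coe_toO r.mA, coe_toO r.mB, coe_toO (h.ev h₁.2 h₁.1).mem, coe_toO (h.ev h₂.2 h₂.1).mem,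
    coe_toO (h.ev h₃.2 h₃.1).mem]
  exact this

end ModSqAux

open ModSqAux

theorem modSq_of (hU : Univ) (h1 : FDComp) (h2 : FDUniq) (h3 : FDTri) : ModSq := by
  intro L κ _ _ _ _ _ _ _ π A B A' B' r p l l' t hp p0 hl hl' tl tl' t0 a0 b0 D hD D' hD' u u' d d'
    hu hu' s s' st w hw hw1 hw2
  set M := 2 * (l * l' + l' * l + t.natAbs ^ 2) + (l * l + l ^ 2) + (l' * l' + l' ^ 2) with hM
  obtain ⟨q, hq, hq'⟩ := Nat.exists_infinite_primes (2 * M + t.natAbs + l + l' + p + 1)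
  have tq : Tm A' B' q := ⟨tl.good, tl.three, fun e => by
    have := (Nat.isCoprime_iff_coprime.2 ((Nat.coprime_primes hp hq').2 (by omega))).map
      (Int.castRingHom κ)
    rw [map_natCast, map_natCast, p0, e] at this
    exact not_isCoprime_zero_zero this⟩
  have tt : Tm A' B' t.natAbs := ⟨tl.good, tl.three, fun e => t0 (by
    rcases Int.natAbs_eq t with e' | e'
    · rw [e', Int.cast_natCast, e]
    · rw [e', Int.cast_neg, Int.cast_natCast, e, neg_zero])⟩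
  choose! F hF hF' using fun (P : Pt A' B') (hP : q • P = 0) => exists_lift r tq hP
  have h : Lf r q F := ⟨hq', tq, hF, hF'⟩
  obtain ⟨P, hP⟩ : ((tors A' B' q).erase 0).Nonempty := by
    rw [← Finset.card_pos, Finset.card_erase_of_mem tq.sub.zero, tq.card]
    have := hq'.two_le
    have : 2 * 2 ≤ q * q := Nat.mul_le_mul this this
    rw [sq]; omega
  rw [Finset.mem_erase, tq.mem] at hP
  have hQ : ∀ i ∈ Finset.range M, (i + 1) • P ≠ 0 ∧ q • (i + 1) • P = 0 := fun i hi =>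
    ⟨fun e => hP.1 (eq_zero_of_lt hq' i.succ_ne_zero
      (by have := Finset.mem_range.1 hi; omega) hP.2 e), by rw [smul_comm, hP.2, smul_zero]⟩
  have wm : w ∈ π.O := (π.O.valuation_le_one_iff w).1 hw.le
  set I : Ideal π.O := Ideal.span {⟨w, wm⟩} with hI
  have hm : ∀ a : π.O, Ideal.Quotient.mk I a = 0 ↔ π.O.valuation a ≤ π.O.valuation w := fun a => by
    rw [Ideal.Quotient.eq_zero_iff_mem, hI, Ideal.mem_span_singleton, π.O.valuation_le_iff]
    exact ⟨fun ⟨c, e⟩ => ⟨c, by rw [e, mul_comm]; rfl⟩,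
      fun ⟨c, e⟩ => ⟨c, Subtype.ext (by rw [← e, mul_comm]; rfl)⟩⟩
  have : Nontrivial (π.O ⧸ I) := ⟨⟨1, 0, fun e => by
    have := (hm 1).1 (by rw [map_one, e])
    rw [OneMemClass.coe_one, map_one] at this
    exact absurd hw (not_lt.2 this)⟩⟩
  set φ := Ideal.Quotient.mk I with hφ
  have dist : ∀ i ∈ Finset.range M, ∀ j ∈ Finset.range M, i ≠ j →
      IsUnit (φ (toO π.O (xc (F ((i + 1) • P)))) - φ (toO π.O (xc (F ((j + 1) • P))))) := by
    intro i hi j hj hij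
    rw [← map_sub]
    refine (unit_of_ev (b := xc ((i + 1) • P) - xc ((j + 1) • P)) ?_ (sub_ne_zero.2 fun e => ?_)).map φ
    · have e1 := h.ev (hQ i hi).2 (hQ i hi).1
      have e2 := h.ev (hQ j hj).2 (hQ j hj).1
      rw [AddSubgroupClass.coe_sub, coe_toO e1.mem, coe_toO e2.mem]
      exact e1.sub e2
    · have hi' := Finset.mem_range.1 hi
      have hj' := Finset.mem_range.1 hj
      rcases eq_or_neg (hQ i hi).1 (hQ j hj).1 e with e | e
      · have := Fact.mk hq'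
        have e1 := nsmul_eq_nsmul_iff_modEq.1 e
        rw [addOrderOf_eq_prime hP.2 hP.1] at e1
        exact hij (by have := e1.eq_of_lt_of_lt (by omega) (by omega); omega)
      · rw [eq_neg_iff_add_eq_zero, ← add_nsmul] at e
        exact hP.1 (eq_zero_of_lt hq' (by omega) (by omega) hP.2 e)
  have key : ∀ {l : ℕ}, Tm A' B' l → l < q → l * l + l ^ 2 ≤ M → ∀ D ∈ subs A B l, ∀ u : κ,
      VD (D.image r.red) u A' B' → u ^ 2 = -l →
      (∀ P, vm (D.image r.red) u A' B' (vm (D.image r.red) u A' B' P) = -(l • P)) →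
      π.O.valuation (dl D) ≤ π.O.valuation w →
      (∀ P, P ≠ 0 ∧ q • P = 0 →
        vm (D.image r.red) u A' B' P ≠ 0 ∧ q • vm (D.image r.red) u A' B' P = 0) ∧
      ∀ Q : ℕ → Pt A' B', (∀ i ∈ Finset.range M, Q i ≠ 0 ∧ q • Q i = 0) →
        FD (Finset.range M) (fun i => φ (toO π.O (xc (F (Q i)))))
          (fun i => φ (toO π.O (xc (F (vm (D.image r.red) u A' B' (Q i)))))) l (-l) := by
    intro l tl lq lM D hD u d hu s hw1
    obtain ⟨c1, c2⟩ := (tl.up r).mem_subs.1 hD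
    have hE : (D.image r.red).card = l := by rw [card_red r c1 (c2 ▸ tl.ne), c2]
    have k1 := fun P hP => (h.vm_tor tl lq hE d (P := P) hP).2
    obtain ⟨v, hv, k2⟩ := h.iso hU a0 b0 tl lq hD d φ fun a ha => (hm a).2 (ha.trans hw1)
    have f1 := h1 _ _ _ _ _ _ _ _ _ _ (k2 _ _ hQ) (k2 _ _ fun i hi => k1 _ (hQ i hi))
    have f2 := fd_map φ (h.mul tl lq _ _ hQ) (fun i hi => by
      rw [← h.neg (by rw [smul_comm, (hQ i hi).2, smul_zero]), ← s])
    have f3 := h2 _ _ _ _ _ _ _ _ _ dist (by rwa [Finset.card_range]) f1 f2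
    have f4 : IsUnit (φ (v ^ 2 - l)) := by
      refine (unit_of_ev (b := u ^ 2 - l) ?_ ?_).map φ
      · exact ((hv.pow 2).sub (Ev.nat π l)).congr (by simp) rfl
      · rw [hu, show (-l - l : κ) = -(2 * l) by ring]
        exact neg_ne_zero.2 (mul_ne_zero tl.good.two tl.ne)
    have f5 : φ (v ^ 2) = -l := by
      rw [map_sub, map_natCast] at f4
      rw [map_pow _ (l : π.O), map_natCast] at f3
      exact f4.mul_left_cancel (by linear_combination f3)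
    exact ⟨k1, fun Q hQ => f5 ▸ k2 _ Q hQ⟩
  obtain ⟨k1, k2⟩ := key tl (by omega) (by omega) D hD u d hu s hw1
  obtain ⟨k1', k2'⟩ := key tl' (by omega) (by omega) D' hD' u' d' hu' s' hw2
  have g1 := h1 _ _ _ _ _ _ _ _ _ _ (k2' _ hQ) (k2 _ fun i hi => k1' _ (hQ i hi))
  have g2 := h1 _ _ _ _ _ _ _ _ _ _ (k2 _ hQ) (k2' _ fun i hi => k1 _ (hQ i hi))
  have tz : ∀ Q : Pt A' B', t • Q = t.natAbs • Q ∨ t • Q = -(t.natAbs • Q) := fun Q => by
    rcases Int.natAbs_eq t with e | e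
    · exact Or.inl (by rw [← natCast_zsmul, ← e])
    · exact Or.inr (by rw [← natCast_zsmul, ← neg_zsmul, ← e])
  have tn : ∀ Q : Pt A' B', Q ≠ 0 ∧ q • Q = 0 → t.natAbs • Q ≠ 0 ∧ q • t.natAbs • Q = 0 :=
    fun Q hQ => ⟨fun e => hQ.1 (eq_zero_of_lt hq' tt.pos (by omega) hQ.2 e),
      by rw [smul_comm, hQ.2, smul_zero]⟩
  have g3 := fd_map φ (h.mul tt (by omega) _ _ hQ)
    (ξ' := fun i => φ (toO π.O (xc (F (t • (i + 1) • P))))) (fun i hi => by
      rcases tz ((i + 1) • P) with e | e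
      · rw [e]
      · rw [e, h.neg (tn _ (hQ i hi)).2])
  have g4 := h3 _ _ _ _ _ _ _ _ _ _ _ _ _ (φ (toO π.O A)) (φ (toO π.O B)) dist
    (by rw [Finset.card_range]; omega) g1 g2 g3 fun i hi => by
      have := congrArg φ (h.col (k1 _ (k1' _ (hQ i hi))) (k1' _ (k1 _ (hQ i hi)))
        (P₃ := t • (i + 1) • P) (by
          obtain ⟨n1, n2⟩ := tn _ (hQ i hi)
          rcases tz ((i + 1) • P) with e | e <;> rw [e]
          · exact ⟨n1, n2⟩
          · exact ⟨neg_ne_zero.2 n1, by rw [smul_neg, n2, neg_zero]⟩) (st _))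
      simpa only [map_pow, map_sub, map_add, map_mul, map_ofNat] using this
  have g5 : IsUnit (t : π.O ⧸ I) := by
    have := (unit_of_ev (π := π) (a := (t : π.O)) ((Ev.int π t).congr (by simp) rfl) t0).map φ
    rwa [map_intCast] at this
  have g6 : φ ((t.natAbs : π.O) ^ 2) = (t : π.O ⧸ I) ^ 2 := by
    rw [map_pow, map_natCast, ← Int.cast_natCast, ← Int.cast_pow, Int.natAbs_sq, Int.cast_pow]
  rw [g6] at g4
  have g7 := (hm ((t ^ 2 - 4 * l * l' : ℤ) : π.O)).1 (by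
    rw [map_intCast]
    push_cast
    exact (g5.pow 2).mul_left_cancel (by linear_combination g4))
  rwa [SubringClass.coe_intCast] at g7

end Pool.Agent.MP_c481b3_nt.H28
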