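import Pool.Agent.MP_c481b3_nt.H28.Spec

set_option autoImplicit false

namespace Pool.Agent.MP_c481b3_nt.H28

open Polynomial

section comb
variable {α : Type*}

lemma restrict_iter {s : Finset α} {f : α → α} (hf : ∀ x ∈ s, f x ∈ s) (n : ℕ) (x : s) :
    (((fun y : s => (⟨f y, hf y y.2⟩ : s))^[n] x : s) : α) = f^[n] x := by
  induction n with
  | zero => rfl
  | succ n ih => rw [Function.iterate_succ_apply', Function.iterate_succ_apply', ← ih]

/-- fixed points of a self-map of a finite set whose order is a power of two -/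
lemma card_fix [DecidableEq α] (s : Finset α) (f : α → α) (hf : ∀ x ∈ s, f x ∈ s) (a : ℕ)
    (h : ∀ x ∈ s, f^[2 ^ a] x = x) : s.card % 2 = (s.filter fun x => f x = x).card % 2 := by
  set g : Function.End s := fun y : s => (⟨f y, hf y y.2⟩ : s) with hg
  have h1 : g ^ 2 ^ a = 1 := by
    refine (hom_coe_pow (fun g : Function.End s => g) rfl (fun _ _ => rfl) g (2 ^ a)).trans ?_
    funext x
    exact Subtype.ext ((restrict_iter hf _ x).trans (h x x.2))
  have h2 := Equiv.Perm.card_fixedPoints_modEq (p := 2) h1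
  rw [Fintype.card_coe] at h2
  refine h2.trans (by
    rw [Fintype.card_subtype]
    congr 1
    refine Finset.card_bij (fun x _ => (x : α)) (fun x hx => ?_) (fun x _ y _ e => Subtype.ext e)
      fun y hy => ?_
    · exact Finset.mem_filter.2 ⟨x.2, congrArg Subtype.val (Finset.mem_filter.1 hx).2⟩
    · obtain ⟨h3, h4⟩ := Finset.mem_filter.1 hy
      exact ⟨⟨y, h3⟩, Finset.mem_filter.2 ⟨Finset.mem_univ _, Subtype.ext h4⟩, rfl⟩)

/-- fixed points of an odd power of a permutation of a finite set -/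
lemma exists_odd [DecidableEq α] (s : Finset α) (f : α → α) (hf : ∀ x ∈ s, f x ∈ s)
    (inj : Set.InjOn f s) :
    ∃ m, Odd m ∧ s.card % 2 = (s.filter fun x => f^[m] x = x).card % 2 := by
  have hb : Function.Bijective (fun y : s => (⟨f y, hf y y.2⟩ : s)) :=
    Finite.injective_iff_bijective.1 fun x y e =>
      Subtype.ext (inj x.2 y.2 (congrArg Subtype.val e))
  set g : Equiv.Perm s := Equiv.ofBijective _ hb with hg
  obtain ⟨a, m, hm, e⟩ := Nat.exists_eq_two_pow_mul_odd (orderOf_pos g).ne'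
  refine ⟨m, hm, card_fix s _ (fun x hx => ?_) a fun x hx => ?_⟩
  · exact restrict_iter hf m ⟨x, hx⟩ ▸ Subtype.property _
  · rw [← Function.iterate_mul, mul_comm, ← e, ← restrict_iter hf _ ⟨x, hx⟩]
    change ((g^[orderOf g] ⟨x, hx⟩ : s) : α) = x
    rw [← Equiv.Perm.coe_pow, pow_orderOf_eq_one]
    rfl

/-- a symmetric relation that is a function -/
lemma card_rel (s : Finset α) (R : α → α → Prop) [DecidablePred fun x => R x x]
    (tot : ∀ x ∈ s, ∃ y ∈ s, R x y) (sy : ∀ x ∈ s, ∀ y ∈ s, R x y → R y x)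
    (fn : ∀ x ∈ s, ∀ y ∈ s, ∀ z ∈ s, R x y → R x z → y = z) :
    s.card % 2 = (s.filter fun x => R x x).card % 2 := by
  classical
  choose! f h1 h2 using tot
  rw [card_fix s f h1 1 fun x hx =>
    fn _ (h1 x hx) _ (h1 _ (h1 x hx)) _ hx (h2 _ (h1 x hx)) (sy _ hx _ (h1 x hx) (h2 x hx))]
  congr 2
  refine Finset.filter_congr fun x hx => ⟨fun e => ?_, fun e => fn _ hx _ (h1 x hx) _ hx (h2 x hx) e⟩
  have := h2 x hx
  rwa [e] at this

end comb

section val
variable {L : Type} [Field L] (O : ValuationSubring L)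

lemma disc_finset (hR : Unram) {F : Subfield L} {w : L} (hw : w ∈ F) (w0 : w ≠ 0)
    (w1 : O.valuation w < 1) (hd : Discrete O F w) {f : L[X]} (hm : f.Monic)
    (hc : ∀ i, f.coeff i ∈ F ∧ f.coeff i ∈ O) (S : Finset L)
    (hS : ∀ x ∈ S, f.eval x = 0 ∧ O.valuation (f.derivative.eval x) = 1) :
    ∃ F' : Subfield L, F ≤ F' ∧ Discrete O F' w ∧ ∀ x ∈ S, x ∈ F' := by
  classical
  induction S using Finset.induction_on with
  | empty => exact ⟨F, le_rfl, hd, by simp⟩
  | insert x S _ ih =>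
    obtain ⟨F', h1, h2, h3⟩ := ih fun y hy => hS y (Finset.mem_insert_of_mem hy)
    have hx := hS x (Finset.mem_insert_self _ _)
    have le : F' ≤ Subfield.closure (insert x (F' : Set L)) := fun y hy =>
      Subfield.subset_closure (Set.mem_insert_of_mem _ hy)
    refine ⟨_, h1.trans le, hR L O F' w (h1 hw) w0 w1 h2 f x hm
      (fun i => ⟨h1 (hc i).1, (hc i).2⟩) hx.1 hx.2, fun y hy => ?_⟩
    rcases Finset.mem_insert.1 hy with rfl | hy
    · exact Subfield.subset_closure (Set.mem_insert _ _)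
    · exact le (h3 y hy)

lemma eval₂_mem {S : Type*} [SetLike S L] [SubringClass S L] (s : S) {a : L} (ha : a ∈ s)
    (g : ℤ[X]) : eval₂ (Int.castRingHom L) a g ∈ s := by
  rw [eval₂_eq_sum_range]
  exact sum_mem fun i _ => mul_mem (intCast_mem s _) (pow_mem ha i)

lemma v_map (σ : L →+* L) (hσ : ∀ x, σ x ∈ O ↔ x ∈ O) {w x : L} (w0 : w ≠ 0) (hw : σ w = w)
    {j : ℕ} (h : O.valuation x = O.valuation w ^ j) :
    O.valuation (σ x) = O.valuation w ^ j := by
  have v0 : O.valuation w ^ j ≠ 0 := pow_ne_zero _ ((Valuation.ne_zero_iff _).2 w0)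
  have x0 : x ≠ 0 := fun e => v0 (by rw [← h, e, map_zero])
  have s0 : O.valuation (σ x) ≠ 0 := (Valuation.ne_zero_iff _).2 ((_root_.map_ne_zero σ).2 x0)
  have h1 : σ (x / w ^ j) ∈ O := (hσ _).2 (by
    rw [← O.valuation_le_one_iff, map_div₀, map_pow, h, div_self v0])
  have h2 : σ (w ^ j / x) ∈ O := (hσ _).2 (by
    rw [← O.valuation_le_one_iff, map_div₀, map_pow, h, div_self v0])
  rw [← O.valuation_le_one_iff, map_div₀, map_pow, hw, map_div₀, map_pow] at h1 h2
  exact le_antisymm ((div_le_one₀ (zero_lt_iff.2 v0)).1 h1) ((div_le_one₀ (zero_lt_iff.2 s0)).1 h2)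

/-- congruence of integral elements -/
structure Cg (γ : O.ValueGroup) (a b : L) : Prop where
  l : a ∈ O
  r : b ∈ O
  le : O.valuation (a - b) ≤ γ

namespace Cg
variable {O} {γ : O.ValueGroup} {a b a' b' : L}

lemma refl (γ : O.ValueGroup) (h : a ∈ O) : Cg O γ a a := ⟨h, h, by simp⟩

lemma ofNat (γ : O.ValueGroup) (n : ℕ) [n.AtLeastTwo] :
    Cg O γ (OfNat.ofNat n) (OfNat.ofNat n) := refl γ (natCast_mem O n)

lemma add (h : Cg O γ a b) (h' : Cg O γ a' b') : Cg O γ (a + a') (b + b') :=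
  ⟨add_mem h.l h'.l, add_mem h.r h'.r, by
    rw [add_sub_add_comm]; exact Valuation.map_add_le _ h.le h'.le⟩

lemma sub (h : Cg O γ a b) (h' : Cg O γ a' b') : Cg O γ (a - a') (b - b') :=
  ⟨sub_mem h.l h'.l, sub_mem h.r h'.r, by
    rw [sub_sub_sub_comm]; exact Valuation.map_sub_le _ h.le h'.le⟩

lemma mul (h : Cg O γ a b) (h' : Cg O γ a' b') : Cg O γ (a * a') (b * b') :=
  ⟨mul_mem h.l h'.l, mul_mem h.r h'.r, by
    rw [show a * a' - b * b' = a * (a' - b') + (a - b) * b' by ring]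
    refine Valuation.map_add_le _ ?_ ?_
    · rw [map_mul]
      exact (mul_le_of_le_one_left' ((O.valuation_le_one_iff a).2 h.l)).trans h'.le
    · rw [map_mul]
      exact (mul_le_of_le_one_right' ((O.valuation_le_one_iff b').2 h'.r)).trans h.le⟩

lemma pow (h : Cg O γ a b) (n : ℕ) : Cg O γ (a ^ n) (b ^ n) := by
  induction n with
  | zero => simpa using refl γ (one_mem O)
  | succ n ih => rw [pow_succ, pow_succ]; exact ih.mul h

lemma sum {ι : Type*} (s : Finset ι) {f g : ι → L} (h : ∀ i ∈ s, Cg O γ (f i) (g i)) :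
    Cg O γ (∑ i ∈ s, f i) (∑ i ∈ s, g i) :=
  ⟨sum_mem fun i hi => (h i hi).l, sum_mem fun i hi => (h i hi).r, by
    rw [← Finset.sum_sub_distrib]
    exact Valuation.map_sum_le _ fun i hi => (h i hi).le⟩

end Cg

end val

end Pool.Agent.MP_c481b3_nt.H28
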