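import Pool.Agent.MP_c481b3_nt.H28.Spec4
import Pool.Agent.MP_c481b3_nt.H28.ParA

set_option autoImplicit false

namespace Pool.Agent.MP_c481b3_nt.H28

open Pool.Agent.MP_c481b3_nt.H81 Polynomial

section du
variable {k : Type} [Field k] [DecidableEq k] {A B : k}

/-- `E` is the kernel of the dual of an endomorphism with kernel `D` -/
def Du (l : ℕ) (D E : Finset (Pt A B)) : Prop :=
  ∃ u, VD D u A B ∧ E = (tors A B l).image (vm D u A B)

lemma dl_mem {F : Subfield k} (hA : A ∈ F) (hB : B ∈ F) {C : Finset (Pt A B)}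
    (h : ∀ P ∈ C.erase 0, xc P ∈ F) : dl C ∈ F := by
  have h1 : ∀ P ∈ C.erase 0, ca P ∈ F := fun P hP =>
    add_mem (mul_mem (ofNat_mem F 3) (pow_mem (h P hP) 2)) hA
  have h2 : ∀ P ∈ C.erase 0, cb P ∈ F := fun P hP =>
    mul_mem (ofNat_mem F 2) (add_mem (add_mem (pow_mem (h P hP) 3) (mul_mem hA (h P hP))) hB)
  have h3 : vA C ∈ F := sub_mem hA (mul_mem (ofNat_mem F 5) (sum_mem h1))
  have h4 : vB C ∈ F := sub_mem hB (mul_mem (ofNat_mem F 7)
    (sum_mem fun P hP => add_mem (mul_mem (h1 P hP) (h P hP)) (h2 P hP)))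
  exact sub_mem (mul_mem (pow_mem h3 3) (pow_mem hB 2)) (mul_mem (pow_mem hA 3) (pow_mem h4 2))

variable [IsAlgClosed k] {l : ℕ} (t : Tm A B l) {D E E' : Finset (Pt A B)}
include t

lemma Du.mem (h : Du l D E) (hc : D.card = l) : E ∈ subs A B l := by
  obtain ⟨u, d, rfl⟩ := h
  exact t.mem_subs.2 ⟨(VD.dual t d hc).sub, VD.dual_card t d hc⟩

lemma Du.symm (h : Du l D E) (hc : D.card = l) : Du l E D := by
  obtain ⟨u, d, rfl⟩ := h
  exact ⟨_, VD.dual t d hc, (VD.dual_dual t d hc).symm⟩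

lemma Du.uniq (a0 : A ≠ 0) (b0 : B ≠ 0) (h : Du l D E) (h' : Du l D E') : E = E' := by
  obtain ⟨u, d, rfl⟩ := h
  obtain ⟨u', d', rfl⟩ := h'
  rcases d.u_eq d' a0 b0 with rfl | rfl
  · rfl
  · ext Q
    simp only [Finset.mem_image, d.vm_neg_u]
    constructor
    · rintro ⟨P, hP, rfl⟩
      exact ⟨-P, t.sub.neg hP, by rw [d.neg, neg_neg]⟩
    · rintro ⟨P, hP, rfl⟩
      exact ⟨-P, t.sub.neg hP, d.neg P⟩

lemma du_iff_sd (hl : l.Prime) (a0 : A ≠ 0) (b0 : B ≠ 0) (hc : D.card = l) : Du l D D ↔ SD l D := by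
  classical
  constructor
  · rintro ⟨u, d, e⟩
    have e' : (tors A B l).image (d.hom t.three) = D := e.symm
    have d' : VD D (l / u) A B := e' ▸ VD.dual t d hc
    have h1 : ∀ P, vm D (l / u) A B (vm D u A B P) = l • P := fun P => by
      have := VD.dual_comp t d hc P
      rw [VD.hom_apply, e'] at this
      exact this
    rcases d.u_eq d' a0 b0 with h | h
    · obtain ⟨φ, h2, -, h3⟩ := d.exists_end (hG := t.good) t.three
      refine absurd (EE_ext fun P => ?_) ((compRing t.three t.good).sq_ne hl (h3.trans (by rw [hc])))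
      rw [EE_mul, EE_nat, h2, ← h1 P, h]
      rfl
    · refine ⟨u, d, ?_, fun P => ?_⟩
      · rw [div_eq_iff d.hu] at h
        linear_combination h
      · rw [← h1 P, h, d.vm_neg_u, neg_neg]
  · rintro ⟨u, d, -, h⟩
    refine ⟨u, d, (Finset.eq_of_subset_of_card_le (fun Q hQ => ?_) ?_).symm⟩
    · obtain ⟨P, hP, rfl⟩ := Finset.mem_image.1 hQ
      rw [← d.eq_zero, h, t.mem.1 hP, neg_zero]
    · rw [hc]
      exact (VD.dual_card t d hc).ge

end du

section red
variable {L κ : Type} [Field L] [Field κ] [DecidableEq L] [DecidableEq κ] [IsAlgClosed L]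
  [IsAlgClosed κ] {π : Plc L κ} {A B : L} {A' B' : κ} (r : Rd π A B A' B') {l : ℕ}
  (t : Tm A' B' l)
include t

lemma red_dual {C : Finset (Pt A B)} {u A₁ B₁ : L} {u' A₁' B₁' : κ} (d : VD C u A₁ B₁)
    (r₁ : Rd π A₁ B₁ A₁' B₁') (hu : Ev π u u') (hu' : u' ≠ 0) (hc : C.card = l) :
    ((tors A B l).image (vm C u A₁ B₁)).image r₁.red
      = (tors A' B' l).image (vm (C.image r.red) u' A₁' B₁') := by
  rw [← image_tors r t, Finset.image_image, Finset.image_image]
  exact Finset.image_congr fun P _ =>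
    d.red_vm r r₁ hu hu' (red_sub_ne r d.sub (hc ▸ t.ne)) P

omit [IsAlgClosed κ] in
/-- subgroups of nearby curves with the same reduction are congruent -/
lemma dl_cong [CharZero L] (a0 : A' ≠ 0) (b0 : B' ≠ 0) {G : ℤ[X][X]} (hG : IsUnivX l G) {ρ : L}
    (h : π.O.valuation (ρ - 1) < 1) {E : Finset (Pt A B)} {E₁ : Finset (Pt (A * ρ) (B * ρ))}
    (hE : IsSub E) (hc : E.card = l) (hE₁ : IsSub E₁) (hc₁ : E₁.card = l)
    (e : E.image r.red = E₁.image (rd_mul r h).red) :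
    π.O.valuation (dl E - dl E₁) ≤ π.O.valuation (ρ - 1) := by
  set r₁ := rd_mul r h
  have h1 : Ev π ρ 1 := by simpa using (Ev.of_lt h).add (Ev.one π)
  have n0 := red_sub_ne r hE (hc ▸ t.ne)
  have n1 := red_sub_ne r₁ hE₁ (hc₁ ▸ t.ne)
  have hb : ∀ P ∈ E, ∃ Q ∈ E₁, r₁.red Q = r.red P := fun P hP =>
    Finset.mem_image.1 (e ▸ Finset.mem_image_of_mem r.red hP)
  choose! β b1 b2 using hb
  have b3 : ∀ P ∈ E.erase 0, β P ∈ E₁.erase 0 := fun P hP =>
    Finset.mem_erase.2 ⟨fun e0 => n0 P hP (by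
      rw [← b2 P (Finset.mem_of_mem_erase hP), e0, map_zero]), b1 P (Finset.mem_of_mem_erase hP)⟩
  have b4 : Set.InjOn β (E.erase 0 : Finset _) := fun P hP Q hQ e0 =>
    injOn_of_ne r.red hE n0 (Finset.mem_of_mem_erase hP) (Finset.mem_of_mem_erase hQ) (by
      rw [← b2 P (Finset.mem_of_mem_erase hP), ← b2 Q (Finset.mem_of_mem_erase hQ), e0])
  have b5 : (E.erase 0).image β = E₁.erase 0 := by
    refine Finset.eq_of_subset_of_card_le (Finset.image_subset_iff.2 b3) ?_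
    rw [Finset.card_image_of_injOn b4, Finset.card_erase_of_mem hE.zero,
      Finset.card_erase_of_mem hE₁.zero, hc, hc₁]
  have cm : ∀ {a : L}, a ∈ π.O → Cg π.O (π.O.valuation (ρ - 1)) a (a * ρ) := fun {a} ha =>
    ⟨ha, mul_mem ha h1.mem, by
      rw [show a - a * ρ = -(a * (ρ - 1)) by ring, Valuation.map_neg, map_mul]
      exact mul_le_of_le_one_left' ((π.O.valuation_le_one_iff a).2 ha)⟩
  have cA := cm r.mA
  have cB := cm r.mB
  have cx : ∀ P ∈ E.erase 0, Cg π.O (π.O.valuation (ρ - 1)) (xc P) (xc (β P)) := fun P hP =>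
    ⟨(red_mem r (n0 P hP)).2, (red_mem r₁ (n1 _ (b3 P hP))).2,
      tors_cong r a0 b0 t hG h (hc ▸ hE.nsmul_card (Finset.mem_of_mem_erase hP))
        (hc₁ ▸ hE₁.nsmul_card (b1 P (Finset.mem_of_mem_erase hP)))
        (b2 P (Finset.mem_of_mem_erase hP)).symm⟩
  have c1 : ∀ P ∈ E.erase 0, Cg π.O (π.O.valuation (ρ - 1)) (ca P) (ca (β P)) := fun P hP =>
    ((Cg.ofNat _ 3).mul ((cx P hP).pow 2)).add cA
  have c2 : ∀ P ∈ E.erase 0, Cg π.O (π.O.valuation (ρ - 1)) (cb P) (cb (β P)) := fun P hP =>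
    (Cg.ofNat _ 2).mul ((((cx P hP).pow 3).add (cA.mul (cx P hP))).add cB)
  have c3 : Cg π.O (π.O.valuation (ρ - 1)) (vA E) (vA E₁) := by
    rw [vA, vA, ← b5, Finset.sum_image b4]
    exact cA.sub ((Cg.ofNat _ 5).mul (Cg.sum _ c1))
  have c4 : Cg π.O (π.O.valuation (ρ - 1)) (vB E) (vB E₁) := by
    rw [vB, vB, ← b5, Finset.sum_image b4]
    exact cB.sub ((Cg.ofNat _ 7).mul
      (Cg.sum _ fun P hP => ((c1 P hP).mul (cx P hP)).add (c2 P hP)))
  exact (((c3.pow 3).mul (cB.pow 2)).sub ((cA.pow 3).mul (c4.pow 2))).le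

/-- the dual subgroup is as close to a kernel of an endomorphism as the subgroup itself -/
lemma du_le [CharZero L] (a0 : A' ≠ 0) (b0 : B' ≠ 0) {G : ℤ[X][X]} (hG : IsUnivX l G)
    {D E : Finset (Pt A B)} (hD : D ∈ subs A B l) (hE : E ∈ subs A B l)
    (h : Du l (D.image r.red) (E.image r.red)) :
    π.O.valuation (dl E) ≤ π.O.valuation (dl D) := by
  obtain ⟨u', d', e⟩ := h
  have t' := t.up r
  obtain ⟨d1, d2⟩ := t'.mem_subs.1 hD
  obtain ⟨e1, e2⟩ := t'.mem_subs.1 hE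
  obtain ⟨u, ρ, hu, h1, h2, d⟩ := lift_vd r a0 b0 d1 (d2 ▸ t.ne) d'
  have h3 : Ev π ρ 1 := by simpa using (Ev.of_lt h2).add (Ev.one π)
  have d₁ := VD.dual t' d d2
  have h4 := dl_cong r t a0 b0 hG h2 e1 e2 d₁.sub (VD.dual_card t' d d2)
    (e.trans (red_dual r t d (rd_mul r h2) hu d'.hu d2).symm)
  rw [← h1, ← sub_add_cancel (dl E) (dl ((tors A B l).image (d.hom t'.three)))]
  refine Valuation.map_add_le _ h4 ?_
  rw [dl, d₁.hA, d₁.hB, show ((l / u) ^ 4 * A) ^ 3 * (B * ρ) ^ 2 - (A * ρ) ^ 3 * ((l / u) ^ 6 * B) ^ 2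
    = -((l / u) ^ 12 * A ^ 3 * B ^ 2 * ρ ^ 2 * (ρ - 1)) by ring, Valuation.map_neg, map_mul]
  exact mul_le_of_le_one_left' ((((((Ev.nat π l).div hu d'.hu).pow 12).mul ((rdA r).pow 3)).mul
    ((rdB r).pow 2)).mul (h3.pow 2)).v_le

omit [IsAlgClosed κ] in
include r in
/-- the values of the subgroups lie in an unramified extension -/
lemma dl_val [CharZero L] (hR : Unram) (a0 : A' ≠ 0) (b0 : B' ≠ 0) {G : ℤ[X][X]}
    (hG : IsUnivX l G) {F : Subfield L} {w : L} (hA : A ∈ F) (hB : B ∈ F) (hw : w ∈ F)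
    (w0 : w ≠ 0) (w1 : π.O.valuation w < 1) (hd : Discrete π.O F w) {D : Finset (Pt A B)}
    (hD : D ∈ subs A B l) (h0 : dl D ≠ 0) : ∃ j : ℕ, π.O.valuation (dl D) = π.O.valuation w ^ j := by
  have t' := t.up r
  have a1 := (rdA r).ne_zero a0
  have b1 := (rdB r).ne_zero b0
  have g1 := hG L A B (rd_good r) a1 b1
  have c1 : Ev π (l * (A / B)) (l * (A' / B')) := (Ev.nat π l).mul ((rdA r).div (rdB r) b0)
  have c0 : (l : κ) * (A' / B') ≠ 0 := mul_ne_zero t.ne (div_ne_zero a0 b0)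
  have t1 : Ev π (A ^ 3 / B ^ 2) _ := ((rdA r).pow 3).div ((rdB r).pow 2) (pow_ne_zero 2 b0)
  obtain ⟨F', f1, f2, f3⟩ := disc_finset π.O hR hw w0 w1 hd
    (f := G.map (eval₂RingHom (Int.castRingHom L) (A ^ 3 / B ^ 2)))
    (g1 ▸ monic_prod_of_monic _ _ fun _ _ => monic_X_sub_C _)
    (fun i => by
      rw [coeff_map, coe_eval₂RingHom]
      exact ⟨eval₂_mem F (div_mem (pow_mem hA 3) (pow_mem hB 2)) _, eval₂_mem π.O t1.mem _⟩)
    (((tors A B l).erase 0).image fun P => l * xc P * (A / B)) (by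
      intro z hz
      obtain ⟨P, hP, rfl⟩ := Finset.mem_image.1 hz
      obtain ⟨p0, p2⟩ := Finset.mem_erase.1 hP
      have p3 := t'.mem.1 p2
      have p1 := red_tors_ne r t.ne p0 p3
      rw [g1, ← Finset.mul_prod_erase _ _ (Finset.mem_image_of_mem xc hP)]
      refine ⟨by simp, ?_⟩
      rw [derivative_mul, derivative_X_sub_C, one_mul, eval_add, eval_mul, eval_sub, eval_X, eval_C,
        sub_self, zero_mul, add_zero, eval_prod, map_prod]
      refine Finset.prod_eq_one fun x hx => ?_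
      obtain ⟨x1, x2⟩ := Finset.mem_erase.1 hx
      obtain ⟨R, hR, rfl⟩ := Finset.mem_image.1 x2
      obtain ⟨r0, r1⟩ := Finset.mem_erase.1 hR
      have r2 := t'.mem.1 r1
      have r3 := red_tors_ne r t.ne r0 r2
      rw [show eval (l * xc P * (A / B)) (X - C (l * xc R * (A / B)))
        = l * (A / B) * (xc P - xc R) by simp; ring]
      refine (c1.mul ((ev_xc r p1).sub (ev_xc r r3))).v_one (mul_ne_zero c0 (sub_ne_zero.2 ?_))
      intro e'
      rcases eq_or_neg p1 r3 e' with e' | e'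
      · exact x1 (by rw [red_inj r t.ne p3 r2 e'])
      · rw [← map_neg] at e'
        exact x1 (by rw [red_inj r t.ne p3 (by rw [smul_neg, r2, neg_zero]) e', xc_neg]))
  obtain ⟨d1, d2⟩ := t'.mem_subs.1 hD
  have h1 : dl D ∈ F' := dl_mem (f1 hA) (f1 hB) fun P hP => by
    have h2 := f3 _ (Finset.mem_image_of_mem _ (Finset.erase_subset_erase _ (t'.subset d1 d2) hP))
    have h3 := div_mem h2 (mul_mem (natCast_mem F' l) (div_mem (f1 hA) (f1 hB)))
    rwa [mul_right_comm, mul_div_cancel_left₀ _ (c1.ne_zero c0)] at h3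
  obtain ⟨n, hn⟩ := f2 _ h1 h0
  have h4 := (ev_dl r d1 (red_sub_ne r d1 (d2 ▸ t.ne))).v_le
  rw [hn, zpow_le_one_iff_right_of_lt_one₀ (zero_lt_iff.2 ((Valuation.ne_zero_iff _).2 w0)) w1]
    at h4
  lift n to ℕ using h4
  exact ⟨n, by rw [hn, zpow_natCast]⟩

omit t [IsAlgClosed L] [IsAlgClosed κ] in
lemma red_semiconj {σ : L →+* L} {τ : κ →+* κ} (hA : τ A' = A') (hB : τ B' = B') (sA : σ A = A)
    (sB : σ B = B) (hσ : ∀ x, σ x ∈ π.O ↔ x ∈ π.O) (hτ : ∀ x y, Ev π x y → Ev π (σ x) (τ y)) :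
    Function.Semiconj r.red (Sc.ofHom σ sA sB (rd_good r)).map (Sc.ofHom τ hA hB r.good).map := by
  intro P
  by_cases h : r.red P = 0
  · rw [h, map_zero]
    by_cases p0 : P = 0
    · simp [p0]
    refine r.red_of_not fun hx => r.red_ne p0 ?_ h
    rwa [xc_ofHom, hσ] at hx
  · exact red_eq r (Sc.map_ne _ (red_mem r h).1) (Sc.map_ne _ h)
      (by rw [xc_ofHom, xc_ofHom]; exact hτ _ _ (ev_xc r h))
      (by rw [yc_ofHom, yc_ofHom]; exact hτ _ _ (ev_yc r h))

end red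

lemma du_map {κ : Type} [Field κ] [DecidableEq κ] [IsAlgClosed κ] {A B : κ} {l : ℕ}
    (t : Tm A B l) {τ : κ →+* κ} (hA : τ A = A) (hB : τ B = B) {D : Finset (Pt A B)}
    (hc : D.card = l) (h : Du l D D) :
    Du l (D.image (Sc.ofHom τ hA hB t.good).map) (D.image (Sc.ofHom τ hA hB t.good).map) := by
  obtain ⟨u, d, e⟩ := h
  have r := rd_triv τ hA hB t.good
  have e0 : (r.red : Pt A B → Pt A B) = (Sc.ofHom τ hA hB t.good).map :=
    funext (red_triv τ hA hB t.good)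
  have u0 := (_root_.map_ne_zero τ).2 d.hu
  rw [← e0]
  refine ⟨τ u, d.red r r (ev_triv τ u) u0 (red_sub_ne r d.sub (hc ▸ t.ne)), ?_⟩
  rw [← red_dual r t d r (ev_triv τ u) u0 hc, ← e]

theorem parity_of (hU : Univ) (hR : Unram) : Parity := by
  classical
  intro L κ _ _ _ _ _ _ _ π A B A' B' r l hl l2 t a0 b0 F w hA hB hw w0 w1 hd σ τ tA tB sA sB sw hσ
    hτ h0
  obtain ⟨⟨G, hG⟩, -⟩ := hU l t.pos
  have t' := t.up r
  have h1 : ∀ D ∈ subs A B l, ∃ j : ℕ, π.O.valuation (dl D) = π.O.valuation w ^ j :=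
    fun D hD => dl_val r t hR a0 b0 hG hA hB hw w0 w1 hd hD (h0 D hD)
  refine ⟨h1, fun n hn => ?_⟩
  choose! j hj using h1
  have inj := pow_right_injective₀ (zero_lt_iff.2 ((Valuation.ne_zero_iff _).2 w0)) w1.ne
  have h2 : n = ∑ D ∈ subs A B l, j D := inj (by
    beta_reduce
    rw [← hn, map_prod, Finset.prod_congr rfl hj, Finset.prod_pow_eq_pow_sum])
  set S := (Sc.ofHom σ sA sB (rd_good r)).map with hS
  set T := (Sc.ofHom τ tA tB r.good).map with hT
  have sc : Function.Semiconj r.red S T := red_semiconj r tA tB sA sB hσ hτ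
  have cr : ∀ D ∈ subs A B l, (D.image r.red).card = l := fun D hD =>
    (t.mem_subs.1 (red_subs r t hD)).2
  have mS : ∀ D ∈ subs A B l, D.image S ∈ subs A B l ∧ j (D.image S) = j D := fun D hD => by
    obtain ⟨d1, d2⟩ := t'.mem_subs.1 hD
    obtain ⟨c1, c2, c3⟩ := map_sub_data σ sA sB (rd_good r) d1
    have m := t'.mem_subs.2 ⟨c1, c2.trans d2⟩
    exact ⟨m, inj (by
      beta_reduce
      rw [← hj _ m, c3, v_map π.O σ hσ w0 sw (hj D hD)])⟩
  have rS : ∀ (D : Finset (Pt A B)) (m : ℕ),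
      (D.image S^[m]).image r.red = (D.image r.red).image T^[m] := fun D m => by
    rw [Finset.image_image, Finset.image_image]
    exact Finset.image_congr fun P _ => sc.iterate_right m P
  set s₁ := (subs A B l).filter fun D => Odd (j D) with hs₁
  have p1 : n % 2 = s₁.card % 2 := by
    have := Finset.even_sum_iff_even_card_odd (s := subs A B l) j
    rw [← h2, Nat.even_iff, Nat.even_iff] at this
    rw [hs₁]
    omega
  have p2 := card_rel s₁ (fun D E => Du l (D.image r.red) (E.image r.red))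
    (fun D hD => by
      obtain ⟨d0, d3⟩ := Finset.mem_filter.1 hD
      obtain ⟨d1, d2⟩ := t'.mem_subs.1 d0
      have e1 : dl (D.image r.red) = 0 := by
        refine (ev_dl r d1 (red_sub_ne r d1 (d2 ▸ t.ne))).unique (Ev.of_lt ?_)
        rw [hj D d0]
        exact pow_lt_one₀ zero_le w1 d3.pos.ne'
      obtain ⟨u, d⟩ := vd_of_dl r.good t.three a0 b0 (isSub_image _ d1)
        (by rw [cr D d0]; exact hl.odd_of_ne_two l2) e1
      have e2 : Du l (D.image r.red) _ := ⟨u, d, rfl⟩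
      obtain ⟨E, e3, e4⟩ := exists_lift_sub r t (e2.mem t (cr D d0))
      rw [← e4] at e2
      refine ⟨E, Finset.mem_filter.2 ⟨e3, ?_⟩, e2⟩
      rwa [show j E = j D from inj (by
        beta_reduce
        rw [← hj E e3, ← hj D d0]
        exact le_antisymm (du_le r t a0 b0 hG d0 e3 e2)
          (du_le r t a0 b0 hG e3 d0 (e2.symm t (cr D d0))))])
    (fun D hD E _ h => h.symm t (cr D (Finset.mem_filter.1 hD).1))
    (fun D _ E hE E' hE' h h' => subs_inj r t (Finset.mem_filter.1 hE).1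
      (Finset.mem_filter.1 hE').1 (h.uniq t a0 b0 h'))
  obtain ⟨m, hm, p3⟩ := exists_odd (s₁.filter fun D => Du l (D.image r.red) (D.image r.red))
    (Finset.image S)
    (fun D hD => by
      obtain ⟨d0, d4⟩ := Finset.mem_filter.1 hD
      obtain ⟨d0, d3⟩ := Finset.mem_filter.1 d0
      refine Finset.mem_filter.2 ⟨Finset.mem_filter.2 ⟨(mS D d0).1, (mS D d0).2 ▸ d3⟩, ?_⟩
      rw [show (D.image S).image r.red = (D.image r.red).image T from rS D 1]
      exact du_map t tA tB (cr D d0) d4)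
    (Finset.image_injective (Sc.injective _)).injOn
  refine ⟨m, hm, ?_⟩
  rw [p1, p2, p3]
  congr 2
  ext D
  simp only [hs₁, Finset.mem_filter, Finset.iterate_image, and_assoc]
  refine and_congr_right fun hD => and_congr ?_ (and_congr (du_iff_sd t hl a0 b0 (cr D hD)) ?_)
  · refine ⟨fun h => ⟨_, h, hj D hD⟩, ?_⟩
    rintro ⟨i, h, e⟩
    rwa [show j D = i from inj ((hj D hD).symm.trans e)]
  · refine ⟨fun e P hP => ?_, fun h => ?_⟩
    · have := Finset.mem_image_of_mem T^[m] hP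
      rwa [← rS, e] at this
    · have m1 : D.image S^[m] ∈ subs A B l := by
        rw [← Finset.iterate_image]
        exact Set.MapsTo.iterate (s := (subs A B l : Set _)) (fun D hD => (mS D hD).1) m hD
      refine subs_inj r t m1 hD ?_
      refine Finset.eq_of_subset_of_card_le ?_ (by rw [cr _ m1, cr _ hD])
      beta_reduce
      rw [rS]
      exact Finset.image_subset_iff.2 h

end Pool.Agent.MP_c481b3_nt.H28
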