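import Pool.Agent.MP_c481b3_nt.H28.Spec2

set_option autoImplicit false

namespace Pool.Agent.MP_c481b3_nt.H28

namespace Seed

open CompRing

theorem crt {m n : ℤ} (h : IsCoprime m n) (a b : ℤ) : ∃ x, m ∣ x - a ∧ n ∣ x - b := by
  obtain ⟨u, v, e⟩ := h
  exact ⟨b * u * m + a * v * n, ⟨(b - a) * u, by linear_combination a * e⟩,
    ⟨(a - b) * v, by linear_combination b * e⟩⟩

theorem form_dvd {m x y a b : ℤ} (p n : ℤ) (hx : m ∣ x - a) (hy : m ∣ y - b) :
    m ∣ (x ^ 2 + p * y ^ 2) * n - (a ^ 2 + p * b ^ 2) * n := by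
  obtain ⟨u, hu⟩ := hx
  obtain ⟨v, hv⟩ := hy
  exact ⟨(u * (x + a) + p * v * (y + b)) * n, by
    linear_combination (x + a) * n * hu + p * (y + b) * n * hv⟩

theorem dvd_shift {m a b c : ℤ} (h1 : m ∣ a - b) (h2 : m ∣ b + c) : m ∣ a + c := by
  have := dvd_add h1 h2
  rwa [show a - b + (b + c) = a + c by ring] at this

theorem dvd_shift' {m a b c : ℤ} (h1 : m ∣ a - b) (h2 : m ∣ b - c) : m ∣ a - c := by
  have := dvd_add h1 h2
  rwa [sub_add_sub_cancel] at this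

theorem exists_form {q : ℕ} (hq : q.Prime) (h2 : q ≠ 2) {p n : ℤ} (hp : ¬(q : ℤ) ∣ p)
    (hn : ¬(q : ℤ) ∣ n) : ∃ a b : ℤ, (q : ℤ) ∣ (a ^ 2 + p * b ^ 2) * n + 1 := by
  have := Fact.mk hq
  have h1 : ((n : ℤ) : ZMod q) ≠ 0 := fun e => hn ((ZMod.intCast_zmod_eq_zero_iff_dvd _ _).1 e)
  have h3 : ((p : ℤ) : ZMod q) ≠ 0 := fun e => hp ((ZMod.intCast_zmod_eq_zero_iff_dvd _ _).1 e)
  obtain ⟨a, b, e⟩ := FiniteField.exists_root_sum_quadratic (R := ZMod q)
    (f := Polynomial.C (n : ZMod q) * Polynomial.X ^ 2 + Polynomial.C 1)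
    (g := Polynomial.C ((p : ZMod q) * n) * Polynomial.X ^ 2)
    (by
      rw [Polynomial.degree_add_C (by rw [Polynomial.degree_C_mul_X_pow _ h1]; norm_num),
        Polynomial.degree_C_mul_X_pow _ h1]
      rfl)
    (Polynomial.degree_C_mul_X_pow _ (mul_ne_zero h3 h1))
    (by rw [ZMod.card]; exact hq.eq_two_or_odd.resolve_left h2)
  refine ⟨a.cast, b.cast, (ZMod.intCast_zmod_eq_zero_iff_dvd _ _).1 ?_⟩
  simp only [Polynomial.eval_add, Polynomial.eval_mul, Polynomial.eval_C, Polynomial.eval_pow,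
    Polynomial.eval_X] at e
  push_cast
  linear_combination e

theorem cop_prime {q : ℕ} (hq : q.Prime) {a : ℤ} (h : ¬(q : ℤ) ∣ a) : IsCoprime (q : ℤ) a :=
  (Nat.prime_iff_prime_int.1 hq).irreducible.coprime_iff_not_dvd.2 h

theorem not_dvd_prime {q p : ℕ} (hq : q.Prime) (hp : p.Prime) (h : q ≠ p) : ¬(q : ℤ) ∣ p :=
  fun e => h ((Nat.prime_dvd_prime_iff_eq hq hp).1 (Int.natCast_dvd_natCast.1 e))

theorem exists_xy {p : ℕ} (hp : p.Prime) {n : ℤ} (x0 y0 : ℤ) (M : ℕ)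
    (hn : ∀ q : ℕ, q.Prime → q ≤ M → ¬(q : ℤ) ∣ n) :
    ∃ x y : ℤ, (8 * p : ℤ) ∣ x - x0 ∧ (8 * p : ℤ) ∣ y - y0 ∧ ∀ q : ℕ, q.Prime → q ≤ M → q ≠ 2 →
      q ≠ p → (q : ℤ) ∣ (x ^ 2 + p * y ^ 2) * n + 1 := by
  induction M with
  | zero => exact ⟨x0, y0, by simp, by simp, fun q hq h => absurd hq.pos (by omega)⟩
  | succ M ih =>
    obtain ⟨x, y, hx, hy, h⟩ := ih fun q hq hM => hn q hq (by omega)
    by_cases hc : (M + 1).Prime ∧ M + 1 ≠ 2 ∧ M + 1 ≠ p
    · obtain ⟨hq, h2, hqp⟩ := hc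
      obtain ⟨a, b, e⟩ := exists_form hq h2 (not_dvd_prime hq hp hqp) (hn _ hq le_rfl)
      have h8 : ¬((M + 1 : ℕ) : ℤ) ∣ 2 := not_dvd_prime hq Nat.prime_two h2
      have hf : ¬((M + 1 : ℕ) : ℤ) ∣ (M.factorial : ℤ) := fun e =>
        absurd (hq.dvd_factorial.1 (Int.natCast_dvd_natCast.1 e)) (by omega)
      have hco : IsCoprime (8 * p * M.factorial : ℤ) ((M + 1 : ℕ) : ℤ) := by
        refine (((cop_prime hq h8).pow_right (n := 3)).mul_right
          (cop_prime hq (not_dvd_prime hq hp hqp))).mul_right (cop_prime hq hf) |>.symm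
      obtain ⟨x', h1, h2'⟩ := crt hco x a
      obtain ⟨y', h3, h4⟩ := crt hco y b
      refine ⟨x', y', ?_, ?_, fun q hq' hM hq2 hqp' => ?_⟩
      · exact dvd_shift' ((dvd_mul_right _ _).trans h1) hx
      · exact dvd_shift' ((dvd_mul_right _ _).trans h3) hy
      · rcases Nat.lt_or_eq_of_le hM with hM | rfl
        · have hd : (q : ℤ) ∣ 8 * p * M.factorial :=
            (Int.natCast_dvd_natCast.2 (hq'.dvd_factorial.2 (by omega))).mul_left _
          exact dvd_shift (form_dvd p n (hd.trans h1) (hd.trans h3)) (h q hq' (by omega) hq2 hqp')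
        · exact dvd_shift (form_dvd p n h2' h4) e
    · refine ⟨x, y, hx, hy, fun q hq hM hq2 hqp => ?_⟩
      rcases Nat.lt_or_eq_of_le hM with hM | rfl
      · exact h q hq (by omega) hq2 hqp
      · exact absurd ⟨hq, hq2, hqp⟩ hc

variable {R : Type} [Ring R] {N : R → ℤ} {p : ℕ} {π : R}

/-- the element anticommutes with `π` -/
def An (π φ : R) : Prop := φ * π = -(π * φ)

theorem An.add {a b : R} (ha : An π a) (hb : An π b) : An π (a + b) := by
  rw [An, add_mul, mul_add, ha, hb, neg_add]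

theorem An.int {a : R} (ha : An π a) (n : ℤ) : An π (n * a) := by
  rw [An, mul_assoc, ha, mul_neg, (Int.cast_commute n π).left_comm]

theorem An.neg {a : R} (ha : An π a) : An π (-a) := by
  rw [An, neg_mul, ha, mul_neg]

theorem An.pi {a : R} (ha : An π a) : An π (π * a) := by
  rw [An, mul_assoc, ha, mul_neg]

theorem An.lin {a : R} (ha : An π a) (x y : ℤ) : An π ((x + y * π) * a) := by
  rw [add_mul, mul_assoc]
  exact (ha.int x).add (ha.pi.int y)

theorem An.comm {a b : R} (ha : An π a) (hb : An π b) : a * b * π = π * (a * b) := by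
  rw [mul_assoc, hb, mul_neg, ← mul_assoc, ha, neg_mul, neg_neg, mul_assoc]

theorem An.of_int (h : CompRing R N) {a : R} {n : ℤ} (hn : n ≠ 0) (ha : An π (n * a)) :
    An π a :=
  h.cancel (h.int_ne hn) (by
    rw [← mul_assoc, ha, mul_neg, (Int.cast_commute n π).left_comm])

/-- the hypotheses at the seed prime -/
structure Ctx (N : R → ℤ) (p : ℕ) (π : R) : Prop where
  h : CompRing R N
  hp : p.Prime
  h4 : p % 4 = 1
  sq : π * π = -(p : R)
  h1 : ∃ φ, An π φ ∧ ¬(p : ℤ) ∣ N φ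
  h2 : ∀ φ, An π φ → ¬(p : ℤ) ∣ N φ → ¬IsSquare ((-N φ : ℤ) : ZMod p)
  h3 : ∀ (r : ℕ) (φ : R), r.Prime → r ≠ p → An π φ → (r : ℤ) ∣ N φ →
    (∃ ψ, φ = r * ψ) ∨ ∃ (m : ℤ) (ψ : R), (r : ℤ) ∣ m ^ 2 + p ∧ (π - m) * φ = r * ψ
  h5 : ∀ φ, An π φ → N φ ≠ 2

namespace Ctx

variable (c : Ctx N p π)
include c

theorem ppos : (0 : ℤ) < p := by exact_mod_cast c.hp.pos

theorem pprime : Prime (p : ℤ) := Nat.prime_iff_prime_int.1 c.hp

theorem not_dvd_two : ¬(p : ℤ) ∣ 2 :=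
  not_dvd_prime (p := 2) c.hp Nat.prime_two fun e => by have := c.h4; omega

theorem npi : N π = p := c.h.norm_of_sq c.ppos.le (by rw [c.sq, Int.cast_natCast])

theorem pi_ne : π ≠ 0 := fun e => by
  have := c.npi
  rw [e, c.h.zero] at this
  exact c.ppos.ne this

theorem tr_pi : pol N π 1 = 0 := by
  have a := c.h.char π
  rw [c.sq, c.npi, Int.cast_natCast, eq_sub_iff_add_eq, neg_add_cancel] at a
  by_contra h0
  exact c.h.mul_ne (c.h.int_ne h0) c.pi_ne a.symm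

theorem pol_pi_int (n : ℤ) : pol N π n = 0 := by
  have := c.h.pol_int' n 1 π
  rwa [mul_one, c.tr_pi, mul_zero] at this

theorem nlin (x y : ℤ) : N (x + y * π) = x ^ 2 + p * y ^ 2 := by
  rw [CompRing.add N, c.h.int, c.h.int_mul, c.npi, c.h.pol_int', pol_comm, c.pol_pi_int]
  ring

theorem tr {a : R} (ha : An π a) : pol N a 1 = 0 := c.h.tr_anti c.pi_ne ha

theorem sqa {a : R} (ha : An π a) : a * a = -(N a : R) := c.h.sq_anti c.pi_ne ha

theorem descent {r : ℕ} (hr : r.Prime) (hrp : r ≠ p) (n : ℕ) :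
    ∀ φ, An π φ → ¬(r : ℤ) ^ n ∣ N φ → ∃ ψ, An π ψ ∧ ¬(r : ℤ) ∣ N ψ := by
  have hr' : Prime (r : ℤ) := Nat.prime_iff_prime_int.1 hr
  have r0 : (r : ℤ) ≠ 0 := hr'.ne_zero
  induction n with
  | zero => exact fun φ _ h => absurd (by simp) h
  | succ n ih =>
    intro φ hφ hn
    by_cases hd : (r : ℤ) ∣ N φ
    swap
    · exact ⟨φ, hφ, hd⟩
    have key : ∀ (m : ℤ) (ψ : R), (r : ℤ) ∣ m ^ 2 + p → ¬(r : ℤ) ^ 2 ∣ m ^ 2 + p →
        (π - m) * φ = r * ψ → ∃ ψ, An π ψ ∧ ¬(r : ℤ) ∣ N ψ := by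
      rintro m ψ ⟨k, hk⟩ h2 e
      have e1 : (((-m : ℤ) : R) + ((1 : ℤ) : R) * π) * φ = ((r : ℤ) : R) * ψ := by
        rw [Int.cast_natCast, ← e, Int.cast_one, one_mul, Int.cast_neg, neg_add_eq_sub]
      refine ih ψ (An.of_int c.h r0 (e1 ▸ hφ.lin _ _)) fun h => hn ?_
      have e2 := congrArg N e1
      rw [c.h.mul, c.nlin, c.h.int_mul] at e2
      have e3 : k * N φ = r * N ψ := mul_left_cancel₀ r0 (by linear_combination e2 - N φ * hk)
      have hk' : ¬(r : ℤ) ∣ k := fun ⟨j, hj⟩ => h2 ⟨j, by rw [hk, hj]; ring⟩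
      refine (cop_prime hr hk').pow_left.dvd_of_dvd_mul_left ?_
      rw [e3, pow_succ']
      exact mul_dvd_mul_left _ h
    rcases c.h3 r φ hr hrp hφ hd with ⟨ψ, e⟩ | ⟨m, ψ, hm, e⟩
    · rw [← Int.cast_natCast] at e
      refine ih ψ (An.of_int c.h r0 (e ▸ hφ)) fun h => hn ?_
      rw [e, c.h.int_mul, pow_succ', pow_two, mul_assoc]
      exact mul_dvd_mul_left _ (h.mul_left _)
    · by_cases h2 : (r : ℤ) ^ 2 ∣ m ^ 2 + p
      swap
      · exact key m ψ hm h2 e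
      refine key (m + r) (ψ - φ) ?_ (fun h3 => ?_) ?_
      · obtain ⟨k, hk⟩ := hm
        exact ⟨k + 2 * m + r, by linear_combination hk⟩
      · obtain ⟨k, hk⟩ := h2
        obtain ⟨j, hj⟩ := h3
        have h4 : 2 * m = r * (j - k - 1) :=
          mul_left_cancel₀ r0 (by linear_combination hj - hk)
        rcases hr'.dvd_or_dvd ⟨_, h4⟩ with h5 | ⟨i, hi⟩
        · have h6 : r = 2 := by
            by_contra h6
            exact not_dvd_prime hr Nat.prime_two h6 h5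
          subst h6
          have := c.h4
          obtain ⟨a, rfl | rfl⟩ := Int.even_or_odd' m
          · have : 4 * a ^ 2 + p = 4 * k := by push_cast at hk; linear_combination hk
            omega
          · have : 4 * (a ^ 2 + a) + 1 + p = 4 * k := by push_cast at hk; linear_combination hk
            omega
        · exact not_dvd_prime hr c.hp hrp
            ⟨r * k - r * i ^ 2, by linear_combination hk - (m + r * i) * hi⟩
      · rw [Int.cast_add, Int.cast_natCast, ← sub_sub, sub_mul, e, mul_sub]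

theorem exists_not_dvd {r : ℕ} (hr : r.Prime) : ∃ ψ, An π ψ ∧ ¬(r : ℤ) ∣ N ψ := by
  by_cases hrp : r = p
  · exact hrp ▸ c.h1
  obtain ⟨φ, hφ, h0⟩ := c.h1
  have h1 : 0 < N φ := lt_of_le_of_ne (c.h.nonneg φ) fun e => h0 (e ▸ dvd_zero _)
  refine c.descent hr hrp (N φ).toNat φ hφ fun h => ?_
  have h2 := Int.le_of_dvd h1 h
  have h3 : ((N φ).toNat : ℤ) < (r : ℤ) ^ (N φ).toNat := by
    exact_mod_cast Nat.lt_pow_self hr.one_lt
  omega

theorem exists_cop (n : ℕ) : n ≠ 0 → ∃ φ, An π φ ∧ IsCoprime (N φ) n := by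
  induction n using induction_on_primes with
  | zero => exact fun h => absurd rfl h
  | one => exact fun _ => ⟨0, by simp [An], by simpa using isCoprime_one_right⟩
  | prime_mul r a hr ih =>
    intro h0
    obtain ⟨φ, hφ, hc⟩ := ih (right_ne_zero_of_mul h0)
    rw [Nat.cast_mul]
    by_cases hd : (r : ℤ) ∣ a
    · exact ⟨φ, hφ, (hc.of_isCoprime_of_dvd_right hd).mul_right hc⟩
    obtain ⟨ψ, hψ, hr'⟩ := c.exists_not_dvd hr
    have h1 := cop_prime hr hd
    refine ⟨(r : ℤ) * φ + (a : ℤ) * ψ, (hφ.int _).add (hψ.int _), ?_⟩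
    rw [CompRing.add N, c.h.int_mul, c.h.int_mul, c.h.pol_int, c.h.pol_int']
    refine IsCoprime.mul_right ?_ ?_
    · have := ((h1.symm.pow_left (m := 2)).mul_left (cop_prime hr hr').symm).add_mul_left_left
        (r * N φ + a * pol N φ ψ)
      rwa [show (a : ℤ) ^ 2 * N ψ + r * (r * N φ + a * pol N φ ψ) =
        r ^ 2 * N φ + r * (a * pol N φ ψ) + a ^ 2 * N ψ by ring] at this
    · have := ((h1.pow_left (m := 2)).mul_left hc).add_mul_left_left (r * pol N φ ψ + a * N ψ)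
      rwa [show (r : ℤ) ^ 2 * N φ + a * (r * pol N φ ψ + a * N ψ) =
        r ^ 2 * N φ + r * (a * pol N φ ψ) + a ^ 2 * N ψ by ring] at this

theorem pol_pi_self (a : R) : pol N a (π * a) = 0 := by
  have := c.h.pol_mul' a 1 π
  rwa [one_mul, pol_comm 1 π, c.tr_pi, mul_zero] at this

theorem exists_strict {a : R} (ha : An π a) (h0 : 0 < N a) :
    ∃ χ, An π χ ∧ IsCoprime (N χ) (N a) ∧ pol N a χ ^ 2 < 4 * N a * N χ := by
  obtain ⟨χ, hχ, hc⟩ := c.exists_cop (N a).toNat (by omega)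
  rw [Int.toNat_of_nonneg h0.le] at hc
  have key : ∀ s : ℤ, 0 < s * pol N χ (π * a) + s ^ 2 * (N a * (p * N a)) →
      ∃ χ, An π χ ∧ IsCoprime (N χ) (N a) ∧ pol N a χ ^ 2 < 4 * N a * N χ := by
    intro s hs
    have e : N (χ + ((s * N a : ℤ) : R) * (π * a)) =
        N χ + N a * (s * pol N χ (π * a) + s ^ 2 * (N a * (p * N a))) := by
      rw [CompRing.add N, c.h.int_mul, c.h.pol_int', c.h.mul, c.npi]
      ring
    refine ⟨χ + ((s * N a : ℤ) : R) * (π * a), hχ.add (ha.pi.int _), ?_, ?_⟩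
    · rw [e]
      exact hc.add_mul_left_left _
    · rw [e, c.h.pol_add', c.h.pol_int', c.pol_pi_self, mul_zero, add_zero]
      have := c.h.cauchy a χ
      have := mul_pos h0 (mul_pos h0 hs)
      nlinarith
  have hpos : 0 < N a * (p * N a) := mul_pos h0 (mul_pos c.ppos h0)
  rcases le_total 0 (pol N χ (π * a)) with h | h
  · exact key 1 (by linarith)
  · exact key (-1) (by linarith)

theorem exists_prime (hW : Weber) {a : R} (ha : An π a) {m : ℤ} (hm : m ≠ 0) (h0 : 0 < N a)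
    (hc : IsCoprime (N a) m) (B : ℕ) :
    ∃ (l : ℕ) (x k : ℤ) (u : R), l.Prime ∧ B < l ∧ An π u ∧ N (x * a + m * u) = l ∧
      (l : ℤ) = x ^ 2 * N a + m * k := by
  obtain ⟨χ, hχ, h1, h2⟩ := c.exists_strict ha h0
  have hinf := hW (N a) (m * pol N a χ) (m ^ 2 * N χ) h0
    (by have := sq_pos_of_ne_zero hm; nlinarith)
    fun r h3 _ h5 => (hc.pow_right.mul_right h1.symm).isUnit_of_dvd' h3 h5
  obtain ⟨l, ⟨hl, x, y, e⟩, hB⟩ := hinf.exists_gt B
  refine ⟨l, x, x * y * pol N a χ + m * y ^ 2 * N χ, y * χ, hl, hB, hχ.int y, ?_, ?_⟩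
  · rw [CompRing.add N, c.h.int_mul, c.h.int_mul, c.h.int_mul, c.h.pol_int, c.h.pol_int',
      c.h.pol_int', e]
    ring
  · rw [e]
    ring

theorem nonres {a : R} (ha : An π a) {l : ℕ} (hl : l.Prime) (hlp : l ≠ p) (e : N a = l) :
    jacobiSym (-(l : ℤ)) p = -1 := by
  have := Fact.mk c.hp
  have := c.h2 a ha (e ▸ not_dvd_prime c.hp hl hlp.symm)
  rw [e] at this
  exact ZMod.nonsquare_iff_jacobiSym_eq_neg_one.2 this

theorem three_mod_four {a : R} (ha : An π a) {l : ℕ} (hl : l.Prime) (hlp : l ≠ p) (h2 : l ≠ 2)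
    (e : N a = l) : l % 4 = 3 := by
  have hl' : Prime (l : ℤ) := Nat.prime_iff_prime_int.1 hl
  have hodd : Odd l := hl.odd_of_ne_two h2
  have hpodd : Odd p := Nat.odd_iff.2 (by have := c.h4; omega)
  have h1 := c.nonres ha hl hlp e
  rw [jacobiSym.neg _ hpodd, ZMod.χ₄_nat_one_mod_four c.h4, one_mul,
    ← jacobiSym.quadratic_reciprocity_one_mod_four c.h4 hodd] at h1
  rcases c.h3 l a hl hlp ha (e ▸ dvd_rfl) with ⟨ψ, e1⟩ | ⟨m, ψ, ⟨k, hk⟩, -⟩
  · rw [e1, c.h.mul, c.h.nat, pow_two, mul_assoc] at e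
    have h3 : (l : ℤ) * N ψ = 1 := mul_left_cancel₀ hl'.ne_zero (by rw [e, mul_one])
    exact absurd (IsUnit.of_mul_eq_one _ h3) hl'.not_isUnit
  have hm : ¬(l : ℤ) ∣ m := fun ⟨i, hi⟩ => not_dvd_prime hl c.hp hlp
    ⟨k - l * i ^ 2, by linear_combination hk - (m + l * i) * hi⟩
  have h3 : jacobiSym (-(p : ℤ)) l = 1 := by
    rw [jacobiSym.mod_left' (a₂ := m ^ 2) (Int.modEq_iff_dvd.2 ⟨k, by linear_combination hk⟩)]
    exact jacobiSym.sq_one' (Int.isCoprime_iff_gcd_eq_one.1 (cop_prime hl hm).symm)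
  rw [jacobiSym.neg _ hodd, h1] at h3
  by_contra h4
  rw [ZMod.χ₄_nat_one_mod_four (by have := Nat.odd_iff.1 hodd; omega)] at h3
  norm_num at h3

theorem pol_mul_one {a b : R} (ha : An π a) : pol N (a * b) 1 = -pol N a b := by
  have := c.h.pol_four a b 1 1
  rw [one_mul, mul_one, one_mul, c.tr ha, zero_mul] at this
  omega

/-- the product of two anticommuting elements lies in the plane of `1` and `π` -/
theorem plane {a b : R} (ha : An π a) (hb : An π b) :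
    (p : R) * (((2 : ℤ) : R) * (a * b) + (pol N a b : ℤ)) = (pol N π (a * b) : ℤ) * π ∧
      p * (4 * N a * N b - pol N a b ^ 2) = pol N π (a * b) ^ 2 := by
  set θ : R := ((2 : ℤ) : R) * (a * b) + (pol N a b : ℤ) with hθ
  have t1 : ∀ n : ℤ, pol N (n : R) 1 = 2 * n := fun n => by
    have := c.h.pol_int n 1 1
    rw [mul_one, c.h.pol_self, c.h.one] at this
    omega
  have h1 : pol N θ 1 = 0 := by
    rw [hθ, c.h.pol_add, c.h.pol_int, c.pol_mul_one ha, t1]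
    ring
  have h2 : θ * π = π * θ := by
    rw [hθ, add_mul, mul_add, mul_assoc, ha.comm hb, (Int.cast_commute 2 π).left_comm,
      (Int.cast_commute _ π).eq]
  have h3 := c.h.anticomm c.tr_pi h1
  rw [h2, hθ, c.h.pol_add', c.h.pol_int', c.pol_pi_int, add_zero, ← hθ] at h3
  have h4 : π * θ = ((-pol N π (a * b) : ℤ) : R) := by
    refine c.h.cancel (c.h.int_ne two_ne_zero) ?_
    rw [← Int.cast_mul, mul_neg, Int.cast_neg, ← h3, Int.cast_ofNat, two_mul]
  have h5 : N θ = 4 * N a * N b - pol N a b ^ 2 := by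
    have := c.h.pol_int' (pol N a b) 1 (a * b)
    rw [mul_one, c.pol_mul_one ha] at this
    rw [hθ, CompRing.add N, c.h.int_mul, c.h.int, c.h.pol_int, this, c.h.mul]
    ring
  constructor
  · have h6 := congrArg (π * ·) h4
    simp only [← mul_assoc, c.sq, Int.cast_neg, mul_neg, neg_mul, neg_inj] at h6
    rw [h6, (Int.cast_commute _ π).eq]
  · have h6 := congrArg N h4
    rw [c.h.mul, c.npi, c.h.int, h5] at h6
    rw [h6]
    ring

theorem p_dvd {a b : R} (ha : An π a) (hb : An π b) : (p : ℤ) ∣ pol N π (a * b) :=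
  c.pprime.dvd_of_dvd_pow (n := 2) ⟨_, (c.plane ha hb).2.symm⟩

theorem rel {a b : R} (ha : An π a) (hb : An π b) {l : ℤ} (ea : N a = l) (eb : N b = l) :
    ∃ t k : ℤ, (l : R) * b = (t + k * π) * a ∧ t ^ 2 + p * k ^ 2 = l ^ 2 := by
  obtain ⟨h1, h2⟩ := c.plane ha hb
  obtain ⟨k, hk⟩ := c.p_dvd ha hb
  rw [hk] at h1 h2
  rw [ea, eb] at h2
  have h3 : pol N a b ^ 2 + p * k ^ 2 = 4 * l ^ 2 :=
    mul_left_cancel₀ c.ppos.ne' (by linear_combination -h2)
  have h4 : ((2 : ℤ) : R) * (a * b) + (pol N a b : ℤ) = (k : R) * π := by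
    refine c.h.cancel (c.h.int_ne c.ppos.ne') ?_
    rw [Int.cast_natCast, h1, Int.cast_mul, Int.cast_natCast, mul_assoc]
  obtain ⟨d, hd⟩ : ∃ d : ℤ, (p : ℤ) = 4 * d + 1 := ⟨p / 4, by have := c.h4; omega⟩
  obtain ⟨t, ht | ht⟩ := Int.even_or_odd' (pol N a b) <;>
    obtain ⟨j, rfl | rfl⟩ := Int.even_or_odd' k <;> rw [ht] at h3 h4
  · refine ⟨t, j, ?_, by linarith⟩
    have h5 : a * b = (j : R) * π - t := by
      refine c.h.cancel (c.h.int_ne two_ne_zero) ?_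
      rw [eq_sub_of_add_eq h4, mul_sub, Int.cast_mul, Int.cast_mul, mul_assoc]
    have h6 := congrArg (a * ·) h5
    simp only [← mul_assoc, c.sqa ha, ea] at h6
    rw [mul_sub, ← (Int.cast_commute j a).left_comm, ha, ← (Int.cast_commute t a).eq, neg_mul,
      mul_neg, ← neg_add', neg_inj] at h6
    rw [h6, add_mul, mul_assoc, add_comm]
  · have : 4 * (t ^ 2 + d * (2 * j + 1) ^ 2 + j ^ 2 + j) + 1 = 4 * l ^ 2 := by
      rw [hd] at h3; linear_combination h3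
    omega
  · have : 4 * (t ^ 2 + t + p * j ^ 2) + 1 = 4 * l ^ 2 := by linear_combination h3
    omega
  · have : 4 * (t ^ 2 + t + d * (2 * j + 1) ^ 2 + j ^ 2 + j) + 2 = 4 * l ^ 2 := by
      rw [hd] at h3; linear_combination h3
    omega

theorem uniq_aux {a b : R} (ha : An π a) (hb : An π b) {l : ℕ} (hl : l.Prime) (ea : N a = l)
    (eb : N b = l) (hn : ¬(p : ℤ) ∣ N (a + b)) : b = a ∨ b = -a := by
  have hl' : Prime (l : ℤ) := Nat.prime_iff_prime_int.1 hl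
  have l0 := hl'.ne_zero
  obtain ⟨t, k, e, h1⟩ := c.rel ha hb ea eb
  have hk0 : k = 0 → b = a ∨ b = -a := by
    rintro rfl
    rw [Int.cast_zero, zero_mul, add_zero] at e
    rcases sq_eq_sq_iff_eq_or_eq_neg.1 (show t ^ 2 = (l : ℤ) ^ 2 by linarith) with rfl | rfl
    · exact Or.inl (c.h.cancel (c.h.int_ne l0) e)
    · exact Or.inr (c.h.cancel (c.h.int_ne l0) (by rw [e, Int.cast_neg, neg_mul, mul_neg]))
  by_contra hne
  have k0 : k ≠ 0 := fun h => hne (hk0 h)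
  obtain ⟨g, x, y, g0, hxy, hx, hy⟩ := Int.exists_gcd_one' (m := l + t) (n := k)
    (Int.gcd_pos_of_ne_zero_right _ k0)
  have g0' : (g : ℤ) ≠ 0 := by omega
  have hlg : ¬(l : ℤ) ∣ g := by
    rintro ⟨i, hi⟩
    have h2 : (x * i - 1) ^ 2 + p * (y * i) ^ 2 = 1 := by
      refine mul_left_cancel₀ (pow_ne_zero 2 l0) ?_
      have ht : t = l * (x * i - 1) := by rw [hi] at hx; linear_combination hx
      rw [ht, hy, hi] at h1
      linear_combination h1
    have h3 : y * i ≠ 0 := fun h => k0 (by rw [hy, hi]; linear_combination l * h)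
    have h4 := sq_pos_of_ne_zero h3
    have h5 : (2 : ℤ) ≤ p := by exact_mod_cast c.hp.two_le
    nlinarith [sq_nonneg (x * i - 1)]
  obtain ⟨u, v, huv⟩ := cop_prime hl hlg
  have e1 : ((l : ℤ) : R) * (a + b) = (g : ℤ) * ((x + y * π) * a) := by
    rw [mul_add, e, ← add_mul, ← add_assoc, ← Int.cast_add, hx, hy, ← mul_assoc, mul_add,
      ← mul_assoc, ← Int.cast_mul, ← Int.cast_mul, mul_comm x, mul_comm y]
  obtain ⟨χ, hχ, e2⟩ : ∃ χ, An π χ ∧ a + b = (g : ℤ) * χ := by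
    refine ⟨u * ((x + y * π) * a) + v * (a + b), ((ha.lin x y).int u).add ((ha.add hb).int v), ?_⟩
    rw [mul_add, (Int.cast_commute g (u : R)).left_comm, ← e1, ← mul_assoc, ← mul_assoc, ← add_mul,
      ← Int.cast_mul, ← Int.cast_mul, ← Int.cast_add, mul_comm (g : ℤ), huv, Int.cast_one, one_mul]
  have e3 : ((l : ℤ) : R) * χ = (x + y * π) * a := by
    refine c.h.cancel (c.h.int_ne g0') ?_
    rw [← e1, e2, (Int.cast_commute g _).left_comm]
  have e4 := congrArg N e3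
  rw [c.h.int_mul, c.h.mul, c.nlin, ea] at e4
  have e5 : l * N χ = x ^ 2 + p * y ^ 2 := mul_left_cancel₀ l0 (by linear_combination e4)
  have e6 : g * N χ = 2 * x := by
    refine mul_left_cancel₀ (mul_ne_zero l0 g0') ?_
    have ht : t = x * g - l := by linear_combination hx
    rw [ht, hy] at h1
    linear_combination (g : ℤ) ^ 2 * e5 + h1
  have hpd : ¬(p : ℤ) ∣ N χ := fun h => hn (by rw [e2, c.h.int_mul]; exact h.mul_left _)
  have d1 : N χ ∣ 4 * x ^ 2 := ⟨2 * x * g, by linear_combination -2 * x * e6⟩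
  have d2 : N χ ∣ 4 * y ^ 2 := by
    refine (cop_prime c.hp hpd).symm.dvd_of_dvd_mul_left ⟨4 * l - 2 * x * g, ?_⟩
    linear_combination -4 * e5 + 2 * x * e6
  obtain ⟨r, s, hrs⟩ := (Int.isCoprime_iff_gcd_eq_one.2 hxy).pow (m := 2) (n := 2)
  have d3 : N χ ∣ 4 := by
    have := dvd_add (d1.mul_left r) (d2.mul_left s)
    rwa [show r * (4 * x ^ 2) + s * (4 * y ^ 2) = 4 by linear_combination 4 * hrs] at this
  have := Fact.mk c.hp
  obtain ⟨i, hi⟩ := (ZMod.exists_sq_eq_neg_one_iff (p := p)).2 (by have := c.h4; omega)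
  have d4 := Int.le_of_dvd (by norm_num) d3
  have d5 := c.h.nonneg χ
  have d6 := c.h2 χ hχ hpd
  have d7 := c.h5 χ hχ
  generalize N χ = d at *
  interval_cases d
  · exact hpd (dvd_zero _)
  · exact d6 ⟨i, by push_cast; exact hi⟩
  · exact d7 rfl
  · norm_num at d3
  · exact d6 ⟨2 * i, by push_cast; linear_combination 4 * hi⟩

theorem uniq {a b : R} (ha : An π a) (hb : An π b) {l : ℕ} (hl : l.Prime) (hlp : l ≠ p)
    (ea : N a = l) (eb : N b = l) : b = a ∨ b = -a := by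
  by_cases h1 : (p : ℤ) ∣ N (a + b)
  swap
  · exact c.uniq_aux ha hb hl ea eb h1
  by_cases h2 : (p : ℤ) ∣ N (a + -b)
  · have h3 := c.h.par a b
    rw [ea, eb, sub_eq_add_neg] at h3
    have h4 : (p : ℤ) ∣ 2 * (2 * l) := by
      rw [show (2 : ℤ) * (2 * l) = N (a + b) + N (a + -b) by linarith]
      exact dvd_add h1 h2
    exact absurd (((c.pprime.dvd_or_dvd h4).resolve_left c.not_dvd_two |>
      c.pprime.dvd_or_dvd).resolve_left c.not_dvd_two) (not_dvd_prime c.hp hl hlp.symm)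
  · rcases c.uniq_aux ha hb.neg hl ea (by rw [c.h.neg, eb]) h2 with h | h
    · exact Or.inr (neg_eq_iff_eq_neg.1 h)
    · exact Or.inl (neg_injective h)

theorem pos_of_cop {a : R} {m : ℤ} (hc : IsCoprime (N a) (8 * m)) : 0 < N a :=
  lt_of_le_of_ne (c.h.nonneg a) fun e => by
    obtain ⟨u, v, h⟩ := hc
    rw [← e] at h
    have : 8 * (v * m) = 1 := by linear_combination h
    omega

theorem mod_four (hW : Weber) {a : R} (ha : An π a) (hc : IsCoprime (N a) 8) : N a % 4 = 3 := by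
  obtain ⟨l, x, k, u, hl, hB, hu, e, e1⟩ := c.exists_prime hW ha (m := 8) (by norm_num)
    (c.pos_of_cop (m := 1) (by simpa using hc)) hc (p + 2)
  have h1 := c.three_mod_four ((ha.int x).add (hu.int 8)) hl (by omega) (by omega) e
  obtain ⟨y, rfl | rfl⟩ := Int.even_or_odd' x
  · have : (l : ℤ) = 4 * (y ^ 2 * N a + 2 * k) := by linear_combination e1
    omega
  · have : (l : ℤ) = 4 * ((y ^ 2 + y) * N a + 2 * k) + N a := by linear_combination e1
    omega

theorem seed (hW : Weber) (M : ℕ) {a : R} (ha : An π a)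
    (hc : IsCoprime (N a) (8 * (p * M.factorial))) (e : ℤ) (he : ¬(p : ℤ) ∣ 1 + p * e ^ 2) :
    ∃ (l : ℕ) (x : ℤ) (u : R), ¬(p : ℤ) ∣ x ∧ An π u ∧
      SeedEl N p π M l (x * ((((1 : ℤ) : R) + e * π) * a) + (p : ℤ) * u) := by
  have h8 : IsCoprime (N a) 8 := hc.of_mul_right_left
  have h4 := c.mod_four hW ha h8
  have hp8 : IsCoprime (8 : ℤ) p := ((cop_prime c.hp c.not_dvd_two).pow_right (n := 3)).symm
  obtain ⟨d, hd⟩ : ∃ d : ℤ, (p : ℤ) = 4 * d + 1 := ⟨p / 4, by have := c.h4; omega⟩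
  obtain ⟨b, hb⟩ : ∃ b : ℤ, (8 : ℤ) ∣ (1 ^ 2 + p * b ^ 2) * N a - 7 := by
    obtain ⟨j, hj | hj⟩ : ∃ j : ℤ, N a = 8 * j + 7 ∨ N a = 8 * j + 3 := ⟨N a / 8, by omega⟩
    · exact ⟨0, j, by linear_combination hj⟩
    · exact ⟨2, 2 * d * N a + 5 * j + 1, by linear_combination 4 * N a * hd + 5 * hj⟩
  obtain ⟨y0, hy8, hyp⟩ := crt hp8 b e
  have hq : ∀ q : ℕ, q.Prime → q ≤ M → (q : ℤ) ∣ 8 * (p * M.factorial) := fun q hq hM =>
    ((Int.natCast_dvd_natCast.2 (hq.dvd_factorial.2 hM)).mul_left _).mul_left _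
  obtain ⟨x1, y1, hx1, hy1, hres⟩ := exists_xy c.hp (n := N a) 1 y0 M fun q hq' hM hd =>
    (Nat.prime_iff_prime_int.1 hq').not_isUnit (hc.isUnit_of_dvd' hd (hq q hq' hM))
  have n1 : N ((x1 + y1 * π) * a) = (x1 ^ 2 + p * y1 ^ 2) * N a := by rw [c.h.mul, c.nlin]
  have m8 : (8 : ℤ) ∣ (x1 ^ 2 + p * y1 ^ 2) * N a - 7 :=
    dvd_shift' (form_dvd p (N a) ((dvd_mul_right 8 _).trans hx1)
      (dvd_shift' ((dvd_mul_right 8 _).trans hy1) hy8)) hb
  obtain ⟨s, hs⟩ : (p : ℤ) ∣ x1 - 1 := (dvd_mul_left _ 8).trans hx1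
  obtain ⟨w, hw⟩ : (p : ℤ) ∣ y1 - e := dvd_shift' ((dvd_mul_left _ 8).trans hy1) hyp
  have hc1 : IsCoprime ((x1 ^ 2 + p * y1 ^ 2) * N a) (8 * (p * M.factorial)) := by
    rw [Int.isCoprime_iff_gcd_eq_one]
    by_contra h
    obtain ⟨q, hq', hd⟩ := Nat.exists_prime_and_dvd h
    have d1 := (Int.natCast_dvd_natCast.2 hd).trans (Int.gcd_dvd_left _ _)
    have d2 := (Int.natCast_dvd_natCast.2 hd).trans (Int.gcd_dvd_right _ _)
    have q' := Nat.prime_iff_prime_int.1 hq'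
    by_cases q2 : q = 2
    · subst q2
      omega
    by_cases qp : q = p
    · subst qp
      rcases q'.dvd_or_dvd d1 with h1 | ⟨j, hj⟩
      · obtain ⟨j, hj⟩ := h1
        exact q'.not_dvd_one ⟨j - y1 ^ 2 - s * (x1 + 1), by linear_combination hj - (x1 + 1) * hs⟩
      · exact q'.not_isUnit (hc.isUnit_of_dvd' ⟨j, hj⟩ d2)
    have d3 : (q : ℤ) ∣ M.factorial := ((q'.dvd_or_dvd ((q'.dvd_or_dvd d2).resolve_left fun h =>
      not_dvd_prime hq' Nat.prime_two q2 (q'.dvd_of_dvd_pow (n := 3) h))).resolve_left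
        (not_dvd_prime hq' c.hp qp))
    exact q'.not_dvd_one ((dvd_add_right d1).1 (hres q hq'
      (hq'.dvd_factorial.1 (Int.natCast_dvd_natCast.1 d3)) q2 qp))
  rw [← n1] at hc1
  obtain ⟨l, x, k, u, hl, hB, hu, e1, e2⟩ := c.exists_prime hW (ha.lin x1 y1)
    (m := 8 * (p * M.factorial)) (mul_ne_zero (by norm_num) (mul_ne_zero c.ppos.ne'
      (by exact_mod_cast M.factorial_ne_zero))) (c.pos_of_cop hc1) hc1 (M + p + 2)
  rw [n1] at e2
  have hx : ∀ q : ℕ, q.Prime → q ≠ l → (q : ℤ) ∣ 8 * (p * M.factorial) → ¬(q : ℤ) ∣ x :=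
    fun q hq' hql h1 h2 => not_dvd_prime hq' hl hql (by
      rw [e2]
      exact dvd_add (((dvd_pow h2 two_ne_zero)).mul_right _) (h1.mul_right _))
  have e3 : (x : R) * ((x1 + y1 * π) * a) + ((8 * (p * M.factorial) : ℤ) : R) * u =
      x * ((((1 : ℤ) : R) + e * π) * a) +
        (p : ℤ) * (x * ((s + w * π) * a) + ((8 * M.factorial : ℤ) : R) * u) := by
    rw [show x1 = 1 + p * s by linear_combination hs, show y1 = e + p * w by linear_combination hw,
      show (8 * (p * M.factorial) : ℤ) = p * (8 * M.factorial) by ring]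
    simp only [add_mul, smul_mul_assoc, ← Int.smul_one_eq_cast, one_mul]
    module
  have han := ((ha.lin x1 y1).int x).add (hu.int (8 * (p * M.factorial)))
  rw [e3] at e1 han
  have hlp : l ≠ p := by omega
  refine ⟨l, x, _, hx p c.hp hlp.symm ((dvd_mul_right _ _).mul_left _),
    ((ha.lin s w).int x).add (hu.int (8 * M.factorial)), hl, by omega, ?_, fun q hq' hM q2 qp => ?_,
    c.nonres han hl hlp e1, han, e1, fun ψ hψ eψ => c.uniq han hψ hl hlp e1 eψ⟩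
  · obtain ⟨j, hj⟩ := m8
    have h2 := hx 2 Nat.prime_two (by omega) ⟨4 * (p * M.factorial), by push_cast; ring⟩
    obtain ⟨y, rfl⟩ : Odd x := Int.not_even_iff_odd.1 fun h => h2 h.two_dvd
    obtain ⟨z, hz⟩ := Int.even_mul_succ_self y
    have : (l : ℤ) = 8 * ((2 * y + 1) ^ 2 * j + 7 * z + p * M.factorial * k) + 7 := by
      linear_combination e2 + (2 * y + 1) ^ 2 * hj + 28 * hz
    omega
  · obtain ⟨j, hj⟩ := hres q hq' hM q2 qp
    obtain ⟨i, hi⟩ := hq q hq' hM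
    rw [jacobiSym.mod_left' (a₂ := x ^ 2) (Int.modEq_iff_dvd.2 ⟨x ^ 2 * j + i * k, by
      linear_combination e2 + x ^ 2 * hj + k * hi⟩)]
    exact jacobiSym.sq_one' (Int.isCoprime_iff_gcd_eq_one.1
      (cop_prime hq' (hx q hq' (by omega) ⟨i, hi⟩)).symm)

theorem main (hW : Weber) (M : ℕ) : ∃ (l l' : ℕ) (φ φ' : R) (t : ℤ),
    SeedEl N p π M l φ ∧ SeedEl N p π M l' φ' ∧
      φ * φ' + φ' * φ = t ∧ ¬(p : ℤ) ∣ t ∧ ¬(p : ℤ) ^ 2 ∣ t ^ 2 - 4 * l * l' := by
  obtain ⟨a, ha, hc⟩ := c.exists_cop (8 * (p * M.factorial))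
    (mul_ne_zero (by norm_num) (mul_ne_zero c.hp.ne_zero M.factorial_ne_zero))
  push_cast at hc
  have h1 : ∀ e : ℤ, ¬(p : ℤ) ∣ 1 + p * e ^ 2 := fun e h =>
    c.pprime.not_dvd_one ((dvd_add_left (dvd_mul_right _ _)).1 h)
  obtain ⟨l, x, u, hx, hu, S⟩ := c.seed hW M ha hc 0 (h1 0)
  obtain ⟨l', x', u', hx', hu', S'⟩ := c.seed hW M ha hc 1 (h1 1)
  rw [Int.cast_zero, zero_mul, add_zero, Int.cast_one, one_mul] at S
  rw [Int.cast_one, one_mul, add_mul, one_mul] at S'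
  have hn : ¬(p : ℤ) ∣ 2 * x * x' * N a := fun h =>
    (c.pprime.dvd_or_dvd h).elim (fun h => (c.pprime.dvd_or_dvd h).elim
      (fun h => (c.pprime.dvd_or_dvd h).elim c.not_dvd_two hx) hx') fun h =>
      c.pprime.not_isUnit (hc.isUnit_of_dvd' h ((dvd_mul_right _ _).mul_left _))
  have hb : An π (a + π * a) := ha.add ha.pi
  refine ⟨l, l', _, _, _, S, S', (c.h.anticomm (c.tr S.anti) (c.tr S'.anti)).trans
    (Int.cast_neg _).symm, fun h => hn ?_, fun h => hn ?_⟩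
  · simp only [c.h.pol_add, c.h.pol_add', c.h.pol_int, c.h.pol_int', c.h.pol_self,
      c.pol_pi_self] at h
    obtain ⟨j, hj⟩ := h
    exact ⟨-j - (x * pol N a u' + x' * (pol N u a + pol N u (π * a)) + p * pol N u u'), by
      linear_combination -hj⟩
  · have h2 := (c.plane S.anti S'.anti).2
    rw [S.norm, S'.norm] at h2
    obtain ⟨i1, e1⟩ := c.p_dvd ha hu'
    obtain ⟨i2, e2⟩ := c.p_dvd hu hb
    obtain ⟨i3, e3⟩ := c.p_dvd hu hu'
    have e4 : pol N π (a * (a + π * a)) = N a * (2 * p) := by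
      rw [mul_add, ← mul_assoc, ha, neg_mul, mul_assoc, c.sqa ha, mul_neg, neg_neg,
        ← (Int.cast_commute _ π).eq, c.h.pol_add', c.h.pol_neg', c.pol_pi_int, c.h.pol_int',
        c.h.pol_self, c.npi]
      ring
    have e5 : ((x : R) * a + (p : ℤ) * u) * (x' * (a + π * a) + (p : ℤ) * u') =
        ((x * x' : ℤ) : R) * (a * (a + π * a)) + ((x * p : ℤ) : R) * (a * u') +
          (((p * x' : ℤ) : R) * (u * (a + π * a)) + ((p * p : ℤ) : R) * (u * u')) := by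
      generalize a + π * a = b
      simp only [← zsmul_eq_mul, add_mul, mul_add, smul_mul_assoc, mul_smul_comm]
      module
    obtain ⟨j, hj⟩ := h
    rw [neg_sq] at hj
    generalize pol N ((x : R) * a + (p : ℤ) * u) (x' * (a + π * a) + (p : ℤ) * u') = t at h2 hj
    rw [e5, c.h.pol_add', c.h.pol_add', c.h.pol_add', c.h.pol_int', c.h.pol_int', c.h.pol_int',
      c.h.pol_int', e1, e2, e3, e4] at h2
    have h3 : (2 * x * x' * N a + p * (x * i1 + x' * i2 + p * i3)) ^ 2 = p * -j :=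
      mul_left_cancel₀ (pow_ne_zero 2 c.ppos.ne') (by linear_combination -h2 - p * hj)
    exact (dvd_add_left (dvd_mul_right _ _)).1 (c.pprime.dvd_of_dvd_pow ⟨_, h3⟩)

end Ctx

end Seed

theorem seedAlg_of (hW : Weber) : SeedAlg := fun _ _ _ h _ _ hp h4 hs h1 h2 h3 h5 M =>
  Seed.Ctx.main ⟨h, hp, h4, hs, h1, h2, h3, h5⟩ hW M

end Pool.Agent.MP_c481b3_nt.H28
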