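import Pool.Agent.MP_c481b3_nt.H28.FrobLift

set_option autoImplicit false

namespace Pool.Agent.MP_c481b3_nt.H28

open Polynomial

section

variable {A L : Type} [CommRing A] [Field L] [Algebra A L] (O : ValuationSubring L)

theorem val_aeval_le (hA : ∀ r : A, algebraMap A L r ∈ O) {x : L} (hx : x ∈ O) (g : A[X]) :
    O.valuation (aeval x g) ≤ 1 := by
  rw [O.valuation_le_one_iff, aeval_eq_sum_range]
  refine sum_mem fun i _ => ?_
  rw [Algebra.smul_def]
  exact mul_mem (hA _) (pow_mem hx _)

/-- below the degree of the residual minimal polynomial, a small value forces divisibility -/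
theorem dvd_of_small (hA : ∀ r : A, algebraMap A L r ∈ O) (w : A)
    (hw : O.valuation (algebraMap A L w) < 1)
    (hdiv : ∀ a : A, IsUnit a ∨ w ∣ a) {x : L} (hx : x ∈ O) (n : ℕ)
    (hmin : ∀ g : A[X], g.Monic → O.valuation (aeval x g) < 1 → n ≤ g.natDegree) :
    ∀ d : ℕ, d ≤ n → ∀ g : A[X], g.degree < d → O.valuation (aeval x g) < 1 → C w ∣ g := by
  intro d
  induction d with
  | zero =>
    intro _ g hg _
    have : g = 0 := by
      rw [← degree_eq_bot]
      exact Nat.WithBot.lt_zero_iff.1 (by exact_mod_cast hg)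
    rw [this]
    exact dvd_zero _
  | succ d ih =>
    intro hd g hg hv
    have hgd : g.degree ≤ d := by
      have : g.degree < Order.succ (d : WithBot ℕ) := by
        rw [← WithBot.coe_natCast, WithBot.orderSucc_coe]
        exact_mod_cast hg
      exact Order.le_of_lt_succ this
    rcases hdiv (g.coeff d) with hu | ⟨c, hc⟩
    · exfalso
      obtain ⟨u, hu⟩ := hu
      have hm : (C (↑u⁻¹ : A) * g).Monic := by
        apply monic_of_degree_le d
        · exact (degree_mul_le _ _).trans (by
            calc _ ≤ 0 + (d : WithBot ℕ) := add_le_add degree_C_le hgd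
              _ = _ := zero_add _)
        · rw [coeff_C_mul, ← hu, Units.inv_mul]
      have hv' : O.valuation (aeval x (C (↑u⁻¹ : A) * g)) < 1 := by
        rw [map_mul, map_mul]
        calc _ ≤ 1 * O.valuation (aeval x g) := by
              gcongr
              exact val_aeval_le O hA hx _
          _ < 1 := by rwa [one_mul]
      have h1 := hmin _ hm hv'
      have h2 : (C (↑u⁻¹ : A) * g).natDegree ≤ d :=
        (natDegree_C_mul_le _ _).trans (natDegree_le_iff_degree_le.2 hgd)
      omega
    · have h1 : (g - C w * monomial d c).degree < d := by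
        rw [degree_lt_iff_coeff_zero]
        intro m hm
        rw [coeff_sub, coeff_C_mul, coeff_monomial]
        rcases eq_or_lt_of_le hm with rfl | hlt
        · rw [if_pos rfl, hc, sub_self]
        · rw [if_neg hlt.ne, mul_zero, sub_zero]
          exact coeff_eq_zero_of_degree_lt (hgd.trans_lt (by exact_mod_cast hlt))
      have h2 : O.valuation (aeval x (g - C w * monomial d c)) < 1 := by
        rw [map_sub]
        refine lt_of_le_of_lt (Valuation.map_sub _ _ _) (max_lt hv ?_)
        rw [map_mul, map_mul, aeval_C]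
        calc _ ≤ O.valuation (algebraMap A L w) * 1 := by
              gcongr
              exact val_aeval_le O hA hx _
          _ < 1 := by rwa [mul_one]
      have h3 := ih (by omega) _ h1 h2
      have h4 : g = (g - C w * monomial d c) + C w * monomial d c := by ring
      rw [h4]
      exact dvd_add h3 (dvd_mul_right _ _)

/-- one step of the descent -/
theorem val_step [Nontrivial A] (hA : ∀ r : A, algebraMap A L r ∈ O) (w : A)
    (hw : O.valuation (algebraMap A L w) < 1)
    (hdiv : ∀ a : A, IsUnit a ∨ w ∣ a) {x : L} (hx : x ∈ O) (f : A[X]) (hf : f.Monic)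
    (hfx : aeval x f = 0) (hf' : O.valuation (aeval x (derivative f)) = 1) (g : A[X]) :
    O.valuation (aeval x g) = 1 ∨
      ∃ g' : A[X], O.valuation (aeval x g)
        = O.valuation (algebraMap A L w) * O.valuation (aeval x g') := by
  classical
  have hex : ∃ n : ℕ, ∃ h : A[X], h.Monic ∧ O.valuation (aeval x h) < 1 ∧ h.natDegree = n :=
    ⟨_, f, hf, by rw [hfx, map_zero]; exact zero_lt_one, rfl⟩
  obtain ⟨h, hm, hv, hn⟩ := Nat.find_spec hex
  have hmin : ∀ g : A[X], g.Monic → O.valuation (aeval x g) < 1 → h.natDegree ≤ g.natDegree := by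
    intro g hg hgv
    rw [hn]
    exact Nat.find_min' hex ⟨g, hg, hgv, rfl⟩
  have hle := val_aeval_le O hA hx
  have hsmall : ∀ a b : A[X], O.valuation (aeval x a) < 1 → O.valuation (aeval x (a * b)) < 1 := by
    intro a b ha
    rw [map_mul, map_mul]
    calc _ ≤ O.valuation (aeval x a) * 1 := by
          gcongr
          exact hle _
      _ < 1 := by rwa [mul_one]
  have hadd : ∀ a b : A[X], O.valuation (aeval x a) < 1 → O.valuation (aeval x b) < 1 →
      O.valuation (aeval x (a + b)) < 1 := by
    intro a b ha hb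
    rw [map_add]
    exact lt_of_le_of_lt (Valuation.map_add _ _ _) (max_lt ha hb)
  have hCw : O.valuation (aeval x (C w)) < 1 := by rwa [aeval_C]
  have key : ∀ g : A[X], O.valuation (aeval x g) < 1 → ∃ q r : A[X], g = h * q + C w * r := by
    intro g hg
    have h1 : g %ₘ h + h * (g /ₘ h) = g := modByMonic_add_div g h
    have h2 : (g %ₘ h).degree < h.natDegree := by
      rw [← degree_eq_natDegree hm.ne_zero]
      exact degree_modByMonic_lt g hm
    have h3 : O.valuation (aeval x (g %ₘ h)) < 1 := by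
      have : g %ₘ h = g + h * (-(g /ₘ h)) := by rw [mul_neg, ← sub_eq_add_neg, eq_sub_iff_add_eq, h1]
      rw [this]
      exact hadd _ _ hg (hsmall _ _ hv)
    obtain ⟨r, hr⟩ := dvd_of_small O hA w hw hdiv hx _ hmin _ le_rfl _ h2 h3
    exact ⟨g /ₘ h, r, by rw [← hr, add_comm, h1]⟩
  obtain ⟨q, r, hqr⟩ := key f (by rw [hfx, map_zero]; exact zero_lt_one)
  have hq : O.valuation (aeval x q) = 1 := by
    refine le_antisymm (hle _) (not_lt.1 fun hq => ?_)
    have h1 : derivative f = (q * derivative h + h * derivative q) + C w * derivative r := by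
      rw [hqr, derivative_add, derivative_mul, derivative_mul, derivative_C]; ring
    rw [h1] at hf'
    exact absurd hf' (ne_of_lt (hadd _ _ (hadd _ _ (hsmall _ _ hq) (hsmall _ _ hv))
      (hsmall _ _ hCw)))
  rcases eq_or_lt_of_le (hle g) with h1 | h1
  · exact Or.inl h1
  · right
    obtain ⟨q', r', hqr'⟩ := key g h1
    refine ⟨r' * q - r * q', ?_⟩
    have h2 : aeval x g * aeval x q = algebraMap A L w * aeval x (r' * q - r * q') := by
      have h3 : aeval x h * aeval x q + algebraMap A L w * aeval x r = 0 := by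
        rw [← hfx, hqr, map_add, map_mul, map_mul, aeval_C]
      rw [hqr', map_add, map_mul, map_mul, aeval_C, map_sub, map_mul, map_mul]
      linear_combination (aeval x q') * h3
    rw [← map_mul, ← h2, map_mul, hq, mul_one]

end

theorem unram : Unram := by
  intro L _ O F w hwF hw0 hw hD f x hf hc hfx hf'
  let A : Subring L := F.toSubring ⊓ O.toSubring
  have hA : ∀ r : A, algebraMap A L r ∈ O := fun r => r.2.2
  have hvw0 : O.valuation w ≠ 0 := (Valuation.ne_zero_iff _).2 hw0
  have hvw : 0 < O.valuation w := zero_lt_iff.2 hvw0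
  have hwO : w ∈ O := (O.valuation_le_one_iff _).1 hw.le
  let w' : A := ⟨w, hwF, hwO⟩
  have hdiv : ∀ a : A, IsUnit a ∨ w' ∣ a := by
    intro a
    by_cases ha : (a : L) = 0
    · right
      have : a = 0 := Subtype.ext ha
      rw [this]
      exact dvd_zero _
    obtain ⟨n, hn⟩ := hD a a.2.1 ha
    have ha1 : O.valuation (a : L) ≤ 1 := (O.valuation_le_one_iff _).2 a.2.2
    rcases eq_or_lt_of_le ha1 with h1 | h1
    · left
      have hi : (a : L)⁻¹ ∈ O := by
        rw [← O.valuation_le_one_iff, map_inv₀, h1, inv_one]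
      exact IsUnit.of_mul_eq_one (⟨(a : L)⁻¹, F.inv_mem a.2.1, hi⟩ : A)
        (Subtype.ext (mul_inv_cancel₀ ha))
    · right
      have hn1 : 1 ≤ n := by
        by_contra hn1
        have h2 : O.valuation w ^ (0 : ℤ) ≤ O.valuation w ^ n :=
          zpow_le_zpow_right_of_le_one₀ hvw hw.le (by omega)
        rw [zpow_zero, ← hn] at h2
        exact absurd h1 (not_lt.2 h2)
      have hi : (a : L) / w ∈ O := by
        rw [← O.valuation_le_one_iff, map_div₀, div_le_one₀ hvw, hn]
        have h2 : O.valuation w ^ n ≤ O.valuation w ^ (1 : ℤ) :=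
          zpow_le_zpow_right_of_le_one₀ hvw hw.le hn1
        rwa [zpow_one] at h2
      refine ⟨⟨(a : L) / w, F.div_mem a.2.1 hwF, hi⟩, Subtype.ext ?_⟩
      change (a : L) = w * ((a : L) / w)
      field_simp
  have hlift : f ∈ lifts (algebraMap A L) := by
    rw [lifts_iff_coeff_lifts]
    intro i
    exact ⟨⟨f.coeff i, (hc i).1, (hc i).2⟩, rfl⟩
  obtain ⟨f₀, hf₀, -, hf₀m⟩ := lifts_and_degree_eq_and_monic hlift hf
  have hfx₀ : aeval x f₀ = 0 := by rw [← eval_map_algebraMap, hf₀, hfx]
  have hf'₀ : O.valuation (aeval x (derivative f₀)) = 1 := by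
    rw [← eval_map_algebraMap, ← derivative_map, hf₀, hf']
  have hxi : IsIntegral A x := ⟨f₀, hf₀m, hfx₀⟩
  have hx : x ∈ O := mem_of_isIntegral O hA hxi
  have step := val_step O hA w' hw hdiv hx f₀ hf₀m hfx₀ hf'₀
  have hww : algebraMap A L w' = w := rfl
  rw [hww] at step
  have descent : ∀ n : ℕ, ∀ g : A[X], (∃ k : ℤ, O.valuation (aeval x g) = O.valuation w ^ k) ∨
      O.valuation (aeval x g) ≤ O.valuation w ^ n := by
    intro n
    induction n with
    | zero => exact fun g => Or.inr (by rw [pow_zero]; exact val_aeval_le O hA hx g)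
    | succ n ih =>
      intro g
      rcases step g with h1 | ⟨g', h1⟩
      · exact Or.inl ⟨0, by rw [zpow_zero, h1]⟩
      · rcases ih g' with ⟨k, hk⟩ | hk
        · exact Or.inl ⟨k + 1, by rw [h1, hk, zpow_add_one₀ hvw0, mul_comm]⟩
        · right
          rw [h1, pow_succ']
          gcongr
  have hpoly : ∀ g : A[X], aeval x g ≠ 0 → ∃ k : ℤ, O.valuation (aeval x g) = O.valuation w ^ k := by
    intro g hg
    have hgi : IsIntegral A (aeval x g) :=
      IsIntegral.of_mem_of_fg _ hxi.fg_adjoin_singleton _ (aeval_mem_adjoin_singleton A x)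
    let y : integralClosure A L := ⟨aeval x g, hgi⟩
    have hy0 : y ≠ 0 := fun h => hg (congrArg Subtype.val h)
    have hyalg : IsAlgebraic A y := (integralClosure.isIntegral y).isAlgebraic
    obtain ⟨r, hr0, t, ht⟩ := hyalg.exists_nonzero_dvd (mem_nonZeroDivisors_of_ne_zero hy0)
    have ht' : (r : L) = aeval x g * (t : L) := congrArg Subtype.val ht
    have hr0' : (r : L) ≠ 0 := fun h => hr0 (Subtype.ext h)
    obtain ⟨m, hm⟩ := hD r r.2.1 hr0'
    rcases descent (m.toNat + 1) g with h1 | h1
    · exact h1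
    · exfalso
      have htO : O.valuation (t : L) ≤ 1 :=
        (O.valuation_le_one_iff _).2 (mem_of_isIntegral O hA t.2)
      have h2 : O.valuation w ^ m ≤ O.valuation w ^ ((m.toNat + 1 : ℕ) : ℤ) := by
        rw [← hm, ht', map_mul, zpow_natCast]
        calc _ ≤ O.valuation w ^ (m.toNat + 1) * 1 := by gcongr
          _ = _ := mul_one _
      have h3 : O.valuation w ^ ((m.toNat + 1 : ℕ) : ℤ) < O.valuation w ^ m :=
        zpow_lt_zpow_right_of_lt_one₀ hvw hw (by omega)
      exact absurd h2 (not_le.2 h3)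
  let R : Subring L := (aeval x : A[X] →ₐ[A] L).toRingHom.range
  have hAR : ∀ a : A, (a : L) ∈ Subfield.closure (R : Set L) := fun a =>
    Subfield.subset_closure ⟨C a, aeval_C x a⟩
  have hle : Subfield.closure (insert x (F : Set L)) ≤ Subfield.closure (R : Set L) := by
    rw [Subfield.closure_le]
    rintro y (rfl | hy)
    · exact Subfield.subset_closure ⟨X, aeval_X y⟩
    · rcases O.mem_or_inv_mem y with h1 | h1
      · exact hAR ⟨y, hy, h1⟩
      · have h2 := (Subfield.closure (R : Set L)).inv_mem (hAR ⟨y⁻¹, F.inv_mem hy, h1⟩)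
        simpa using h2
  intro y hy hy0
  obtain ⟨a, ha, b, hb, rfl⟩ := Subfield.mem_closure_iff.1 (hle hy)
  rw [Subring.closure_eq] at ha hb
  obtain ⟨g₁, rfl⟩ := ha
  obtain ⟨g₂, rfl⟩ := hb
  obtain ⟨k₁, hk₁⟩ := hpoly g₁ (div_ne_zero_iff.1 hy0).1
  obtain ⟨k₂, hk₂⟩ := hpoly g₂ (div_ne_zero_iff.1 hy0).2
  refine ⟨k₁ - k₂, ?_⟩
  rw [map_div₀, zpow_sub₀ hvw0, ← hk₁, ← hk₂]
  rfl

end Pool.Agent.MP_c481b3_nt.H28
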