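import Mathlib

set_option autoImplicit false

namespace Pool.Agent.MP_c481b3_nt.H28.W

lemma odd_of_unit {A n : ℕ} (h : IsUnit (n : ZMod (4 * A))) : Odd n := by
  rw [ZMod.isUnit_iff_coprime] at h
  have : Nat.Coprime n 2 := Nat.Coprime.coprime_dvd_right (Dvd.intro (2 * A) (by ring)) h
  exact (Nat.coprime_two_right).1 this

open Classical in
/-- the quadratic character of `ℚ(√-A)` modulo `4A` -/
noncomputable def chi (A : ℕ) [NeZero (4 * A)] : DirichletCharacter ℂ (4 * A) where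
  toFun x := if IsUnit x then (jacobiSym (-(A : ℤ)) x.val : ℂ) else 0
  map_one' := by
    have h1 : 1 < 4 * A := by have := NeZero.ne (4 * A); omega
    rw [if_pos isUnit_one, ZMod.val_one'' (by omega)]
    simp
  map_mul' x y := by
    by_cases hx : IsUnit x
    · by_cases hy : IsUnit y
      · have hx' : Odd x.val := odd_of_unit (A := A) (by simpa using hx)
        have hy' : Odd y.val := odd_of_unit (A := A) (by simpa using hy)
        rw [if_pos hx, if_pos hy, if_pos (hx.mul hy), ZMod.val_mul]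
        have := jacobiSym.mod_right (-(A : ℤ)) (hx'.mul hy')
        rw [Int.natAbs_neg, Int.natAbs_natCast] at this
        rw [← this, jacobiSym.mul_right' _ hx'.pos.ne' hy'.pos.ne']
        push_cast; rfl
      · rw [if_neg hy, if_neg (fun h => hy (isUnit_of_mul_isUnit_right h)), mul_zero]
    · rw [if_neg hx, if_neg (fun h => hx (isUnit_of_mul_isUnit_left h)), zero_mul]
  map_nonunit' x hx := if_neg hx

lemma chi_nat (A : ℕ) [NeZero (4 * A)] (n : ℕ) (h : IsUnit (n : ZMod (4 * A))) :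
    chi A n = (jacobiSym (-(A : ℤ)) n : ℂ) := by
  have := jacobiSym.mod_right (-(A : ℤ)) (odd_of_unit h)
  rw [Int.natAbs_neg, Int.natAbs_natCast] at this
  rw [this, ← ZMod.val_natCast]
  exact if_pos h

lemma chi_sq (A : ℕ) [NeZero (4 * A)] : chi A ^ 2 = 1 := by
  ext u
  have h : IsUnit (((u : ZMod (4 * A)).val : ℕ) : ZMod (4 * A)) := by simp
  have h1 := chi_nat A _ h
  rw [ZMod.natCast_zmod_val] at h1
  rw [MulChar.pow_apply_coe, h1, MulChar.one_apply_coe]
  have hc := ZMod.val_coe_unit_coprime u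
  have : (-(A : ℤ)).gcd ((u : ZMod (4 * A)).val : ℕ) = 1 := by
    rw [Int.neg_gcd, Int.gcd_natCast_natCast]
    exact (Nat.Coprime.coprime_dvd_right (Dvd.intro_left 4 rfl) hc).symm
  exact_mod_cast congrArg (fun z : ℤ => (z : ℂ)) (jacobiSym.sq_one this)

lemma chi_ne_one (A : ℕ) [NeZero (4 * A)] : chi A ≠ 1 := by
  have hA : 0 < A := by have := NeZero.ne (4 * A); omega
  intro h
  obtain ⟨b, hb⟩ : ∃ b, 4 * A = b + 1 := ⟨4 * A - 1, by omega⟩
  have hu : IsUnit ((b : ℕ) : ZMod (4 * A)) := by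
    rw [ZMod.isUnit_iff_coprime, hb]; simp
  have ho : Odd b := odd_of_unit hu
  have h1 := chi_nat A b hu
  rw [h, MulChar.one_apply hu, jacobiSym.neg _ ho, ZMod.χ₄_nat_three_mod_four (by omega)] at h1
  have h2 : jacobiSym (4 * A) b = 1 := by
    rw [jacobiSym.mod_left' (a₂ := 1), jacobiSym.one_left]
    have : (4 * A : ℤ) = 1 + b * 1 := by omega
    rw [this, Int.add_mul_emod_self_left]
  rw [jacobiSym.mul_left, jacobiSym.at_four ho, one_mul] at h2
  rw [h2] at h1
  norm_num at h1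

lemma chi_unit (A : ℕ) [NeZero (4 * A)] {x : ZMod (4 * A)} (h : chi A x ≠ 0) : IsUnit x := by
  by_contra hx
  exact h (MulChar.map_nonunit _ hx)

lemma chi_split (A : ℕ) [NeZero (4 * A)] {l : ℕ} (hl : l.Prime) (h : chi A l = 1) :
    ∃ t : ℤ, (l : ℤ) ∣ t ^ 2 + A := by
  have := Fact.mk hl
  have hu := chi_unit A (x := l) (by rw [h]; exact one_ne_zero)
  rw [chi_nat A l hu] at h
  obtain ⟨r, hr⟩ := ZMod.isSquare_of_jacobiSym_eq_one (a := -(A : ℤ)) (p := l) (by exact_mod_cast h)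
  refine ⟨r.val, (ZMod.intCast_zmod_eq_zero_iff_dvd _ _).1 ?_⟩
  push_cast at hr ⊢
  rw [ZMod.natCast_zmod_val]
  linear_combination -hr

lemma chi_inert (A : ℕ) [NeZero (4 * A)] {l : ℕ} (hl : l.Prime) (h : chi A l = -1) (x y : ℤ)
    (hxy : (l : ℤ) ∣ x ^ 2 + A * y ^ 2) : (l : ℤ) ∣ x ∧ (l : ℤ) ∣ y := by
  have := Fact.mk hl
  have hu := chi_unit A (x := l) (by rw [h]; norm_num)
  rw [chi_nat A l hu] at h
  exact jacobiSym.prime_dvd_of_eq_neg_one (a := -(A : ℤ)) (by exact_mod_cast h)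
    (by simpa using hxy)

lemma chi_zero (A : ℕ) [NeZero (4 * A)] {x : ZMod (4 * A)} (h : chi A x = 0) : ¬ IsUnit x :=
  fun hx => (hx.map (chi A)).ne_zero h

end Pool.Agent.MP_c481b3_nt.H28.W
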