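import Pool.Agent.MP_c481b3_nt.H28.WIdeal

set_option autoImplicit false

open Ideal

namespace Pool.Agent.MP_c481b3_nt.H28.W

/-- invertible ideals of norm prime to `4A` -/
def M (A : ℕ) : Submonoid (Ideal (O A)) where
  carrier := {I | ∃ n : ℕ, IsUnit (n : ZMod (4 * A)) ∧ HasN I n}
  mul_mem' := by
    rintro I J ⟨n, hn, h⟩ ⟨k, hk, h'⟩
    exact ⟨n * k, by rw [Nat.cast_mul]; exact hn.mul hk, h.mul h'⟩
  one_mem' := ⟨1, by simp, by rw [one_eq_top]; exact hasN_top⟩

variable {A : ℕ}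

/-- the norm -/
noncomputable def nm (I : M A) : ℕ := I.2.choose

lemma nm_unit (I : M A) : IsUnit (nm I : ZMod (4 * A)) := I.2.choose_spec.1

lemma nm_hasN (I : M A) : HasN I.1 (nm I) := I.2.choose_spec.2

lemma nm_eq {I : M A} {n : ℕ} : nm I = n ↔ HasN I.1 n :=
  ⟨fun h => h ▸ nm_hasN I, fun h => (nm_hasN I).unique h⟩

lemma nm_ne (I : M A) : nm I ≠ 0 := ne_zero_of_unit (nm_unit I)

lemma nm_mul (I J : M A) : nm (I * J) = nm I * nm J := nm_eq.2 ((nm_hasN I).mul (nm_hasN J))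

lemma nm_one : nm (1 : M A) = 1 := nm_eq.2 (by simpa using hasN_top)

lemma nm_pow (I : M A) (k : ℕ) : nm (I ^ k) = nm I ^ k := by
  induction k with
  | zero => simpa using nm_one
  | succ k ih => rw [pow_succ, nm_mul, ih, pow_succ]

/-- conjugation -/
def cjM (I : M A) : M A := ⟨cj I.1, nm I, nm_unit I, (nm_hasN I).conj⟩

lemma nm_cjM (I : M A) : nm (cjM I) = nm I := nm_eq.2 (nm_hasN I).conj

/-- the ideal `Jd a b` as an element of `M` -/
def JM (a : ℕ) (b : ℤ) (h : (a : ℤ) ∣ b ^ 2 + A) (hu : IsUnit (a : ZMod (4 * A))) : M A :=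
  ⟨Jd a b, a, hu, hasN_Jd h hu⟩

lemma nm_JM (a : ℕ) (b : ℤ) (h : (a : ℤ) ∣ b ^ 2 + A) (hu : IsUnit (a : ZMod (4 * A))) :
    nm (JM a b h hu) = a := nm_eq.2 (hasN_Jd h hu)

lemma fib_finite (n : ℕ) : {I : M A | nm I = n}.Finite := by
  rcases eq_or_ne n 0 with rfl | hn
  · exact Set.finite_empty.subset fun I hI => nm_ne I hI
  · refine ((finite_above (A := A) n hn).preimage Subtype.val_injective.injOn).subset ?_
    exact fun I hI => (nm_eq.1 hI).mem

/-- ideals of norm `n` -/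
noncomputable def fib (A n : ℕ) : Finset (M A) := (fib_finite n).toFinset

lemma mem_fib {n : ℕ} {I : M A} : I ∈ fib A n ↔ nm I = n := by simp [fib]

lemma sup_nat {I : Ideal (O A)} {n k : ℕ} (hc : n.Coprime k) (h : HasN I (n * k)) :
    HasN (I ⊔ span {(n : O A)}) n := by
  have hco : span {(n : O A)} ⊔ span {(k : O A)} = ⊤ :=
    (sup_eq_top_iff_isCoprime _ _).2 (Nat.Coprime.cast hc)
  unfold HasN at *
  rw [cj_sup, cj_nat, Ideal.sup_mul, Ideal.mul_sup, Ideal.mul_sup, h, Nat.cast_mul,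
    ← span_singleton_mul_span_singleton]
  apply le_antisymm
  · exact sup_le (sup_le mul_le_left mul_le_right) (sup_le mul_le_left mul_le_left)
  · calc span {(n : O A)} = span {(n : O A)} * (span {(n : O A)} ⊔ span {(k : O A)}) := by
          rw [hco, mul_top]
      _ ≤ _ := by
          rw [Ideal.mul_sup]
          exact sup_le (le_sup_of_le_right le_sup_right) (le_sup_of_le_left le_sup_left)

lemma sup_mul_sup {I : Ideal (O A)} {n k : ℕ} (hc : n.Coprime k) (h : HasN I (n * k)) :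
    (I ⊔ span {(n : O A)}) * (I ⊔ span {(k : O A)}) = I := by
  have hco : span {(n : O A)} ⊔ span {(k : O A)} = ⊤ :=
    (sup_eq_top_iff_isCoprime _ _).2 (Nat.Coprime.cast hc)
  rw [Ideal.sup_mul, Ideal.mul_sup, Ideal.mul_sup, span_singleton_mul_span_singleton]
  apply le_antisymm
  · refine sup_le (sup_le mul_le_left mul_le_left) (sup_le mul_le_right ?_)
    rw [span_singleton_le_iff_mem, ← Nat.cast_mul]; exact h.mem
  · calc I = (span {(n : O A)} ⊔ span {(k : O A)}) * I := by rw [hco, top_mul]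
      _ ≤ _ := by
          rw [Ideal.sup_mul, mul_comm (span {(k : O A)})]
          exact sup_le (le_sup_of_le_right le_sup_left) (le_sup_of_le_left le_sup_right)

lemma mul_sup_nat {I J : Ideal (O A)} {n k : ℕ} (hc : n.Coprime k) (h : HasN I n)
    (h' : HasN J k) : I * J ⊔ span {(n : O A)} = I := by
  have hco : J ⊔ cj I = ⊤ := by
    rw [eq_top_iff, ← (sup_eq_top_iff_isCoprime _ _).2 (Nat.Coprime.cast (R := O A) hc.symm)]
    exact sup_le_sup ((span_singleton_le_iff_mem _).2 h'.mem)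
      ((span_singleton_le_iff_mem _).2 h.conj.mem)
  rw [← h, ← Ideal.mul_sup, hco, mul_top]

lemma sum_fib_mul (f : M A →* ℂ) {n k : ℕ} (hc : n.Coprime k) :
    ∑ I ∈ fib A (n * k), f I = (∑ I ∈ fib A n, f I) * ∑ I ∈ fib A k, f I := by
  rw [Finset.sum_mul_sum, ← Finset.sum_product']
  symm
  refine Finset.sum_bij (fun p _ => p.1 * p.2) (fun p hp => ?_) (fun p hp q hq e => ?_)
    (fun I hI => ?_) (fun p _ => (map_mul f _ _).symm)
  · obtain ⟨h1, h2⟩ := Finset.mem_product.1 hp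
    rw [mem_fib] at *
    rw [nm_mul, h1, h2]
  · obtain ⟨h1, h2⟩ := Finset.mem_product.1 hp
    obtain ⟨h3, h4⟩ := Finset.mem_product.1 hq
    rw [mem_fib, nm_eq] at h1 h2 h3 h4
    have e' : p.1.1 * p.2.1 = q.1.1 * q.2.1 := congrArg Subtype.val e
    refine Prod.ext (Subtype.ext ?_) (Subtype.ext ?_)
    · rw [← mul_sup_nat hc h1 h2, e', mul_sup_nat hc h3 h4]
    · rw [← mul_sup_nat hc.symm h2 h1, mul_comm, e', mul_comm, mul_sup_nat hc.symm h4 h3]
  · rw [mem_fib] at hI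
    have hu := nm_unit I
    rw [hI, Nat.cast_mul] at hu
    rw [nm_eq] at hI
    have h1 := sup_nat hc hI
    have h2 := sup_nat hc.symm (mul_comm n k ▸ hI)
    exact ⟨(⟨_, n, isUnit_of_mul_isUnit_left hu, h1⟩, ⟨_, k, isUnit_of_mul_isUnit_right hu, h2⟩),
      Finset.mem_product.2 ⟨mem_fib.2 (nm_eq.2 h1), mem_fib.2 (nm_eq.2 h2)⟩,
      Subtype.ext (sup_mul_sup hc hI)⟩

lemma eq_one_of_nm {I : M A} (h : nm I = 1) : I = 1 :=
  Subtype.ext ((nm_eq.1 h).eq_top.trans one_eq_top.symm)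

lemma fib_one : fib A 1 = {1} := by
  ext I
  rw [mem_fib, Finset.mem_singleton]
  exact ⟨eq_one_of_nm, fun h => h ▸ nm_one⟩

lemma fib_nonunit {n : ℕ} (h : ¬ IsUnit (n : ZMod (4 * A))) : fib A n = ∅ := by
  ext I
  simp only [mem_fib, Finset.notMem_empty, iff_false]
  rintro rfl
  exact h (nm_unit I)

variable [hA : Fact (1 < A)]

lemma M_cancel {I J K : M A} (h : I * J = I * K) : J = K :=
  Subtype.ext ((nm_hasN I).cancel (nm_ne I) (congrArg Subtype.val h))

lemma M_dvd {I L : M A} (h : I.1 ≤ L.1) : ∃ J : M A, I = L * J := by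
  obtain ⟨J, hJ⟩ := (nm_hasN L).exists_mul (nm_ne L) h
  obtain ⟨k, hk⟩ := (nm_hasN L).dvd (hJ ▸ nm_hasN I)
  have hu := nm_unit I
  rw [hk, Nat.cast_mul] at hu
  exact ⟨⟨J, k, isUnit_of_mul_isUnit_right hu,
    (nm_hasN L).of_mul (nm_ne L) (hk ▸ hJ ▸ nm_hasN I)⟩, Subtype.ext hJ⟩

omit hA in
lemma le_or_of_prime {I P : Ideal (O A)} {l k : ℕ} (hP : P.IsPrime) (hl : (l : O A) ∈ P)
    (h : HasN I (l ^ (k + 1))) : I ≤ P ∨ I ≤ cj P := by
  have : I * cj I ≤ P := by
    rw [h, span_singleton_le_iff_mem, Nat.cast_pow]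
    exact P.pow_mem_of_mem hl _ (Nat.succ_pos k)
  rcases hP.mul_le.1 this with h1 | h1
  · exact Or.inl h1
  · exact Or.inr (cj_cj I ▸ cj_mono h1)

lemma split_ex {L : M A} {l : ℕ} (hL : nm L = l) (hP : L.1.IsPrime) (k : ℕ) :
    ∀ I : M A, nm I = l ^ k → ∃ i, i ≤ k ∧ I = L ^ i * cjM L ^ (k - i) := by
  induction k with
  | zero => exact fun I hI => ⟨0, le_rfl, by simpa using eq_one_of_nm hI⟩
  | succ k ih =>
    intro I hI
    have hl : l ≠ 0 := hL ▸ nm_ne L
    rcases le_or_of_prime hP (nm_eq.1 hL).mem (nm_eq.1 hI) with h | h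
    · obtain ⟨J, rfl⟩ := M_dvd h
      rw [nm_mul, hL, pow_succ'] at hI
      obtain ⟨i, hi, rfl⟩ := ih J (mul_left_cancel₀ hl hI)
      exact ⟨i + 1, by omega, by rw [Nat.add_sub_add_right, pow_succ', mul_assoc]⟩
    · obtain ⟨J, rfl⟩ := M_dvd (L := cjM L) h
      rw [nm_mul, nm_cjM, hL, pow_succ'] at hI
      obtain ⟨i, hi, rfl⟩ := ih J (mul_left_cancel₀ hl hI)
      exact ⟨i, by omega, by rw [Nat.succ_sub hi, pow_succ', mul_left_comm]⟩

lemma split_inj {L : M A} (hP : L.1 ≠ ⊤) (hc : L.1 ⊔ cj L.1 = ⊤) {k i j : ℕ} (hij : i < j)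
    (hj : j ≤ k) : L ^ i * cjM L ^ (k - i) ≠ L ^ j * cjM L ^ (k - j) := by
  intro h
  obtain ⟨d, rfl⟩ := Nat.exists_eq_add_of_lt hij
  obtain ⟨e, rfl⟩ := Nat.exists_eq_add_of_le hj
  rw [show i + d + 1 + e - i = e + (d + 1) by omega, Nat.add_sub_cancel_left, add_assoc, pow_add,
    pow_add L, mul_assoc, mul_comm (L ^ (d + 1))] at h
  have h1 : cj L.1 ^ (d + 1) = L.1 ^ (d + 1) := congrArg Subtype.val (M_cancel (M_cancel h))
  have h2 := pow_sup_pow_eq_top (m := d + 1) (n := d + 1) hc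
  rw [h1, sup_idem] at h2
  exact hP (top_unique (h2 ▸ pow_le_self (Nat.succ_ne_zero d)))

lemma sum_fib_split (f : M A →* ℂ) {L : M A} {l : ℕ} (hL : nm L = l) (hP : L.1.IsPrime)
    (hc : L.1 ⊔ cj L.1 = ⊤) (k : ℕ) : ∑ I ∈ fib A (l ^ k), f I
      = ∑ i ∈ Finset.range (k + 1), f L ^ i * f (cjM L) ^ (k - i) := by
  symm
  refine Finset.sum_bij (fun i _ => L ^ i * cjM L ^ (k - i)) (fun i hi => ?_)
    (fun i hi j hj e => ?_) (fun I hI => ?_) (fun i _ => by rw [map_mul, map_pow, map_pow])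
  · rw [Finset.mem_range] at hi
    rw [mem_fib, nm_mul, nm_pow, nm_pow, nm_cjM, hL, ← pow_add]
    congr 1; omega
  · rw [Finset.mem_range] at hi hj
    rcases lt_trichotomy i j with h | h | h
    · exact absurd e (split_inj hP.ne_top hc h (by omega))
    · exact h
    · exact absurd e.symm (split_inj hP.ne_top hc h (by omega))
  · obtain ⟨i, hi, rfl⟩ := split_ex hL hP k I (mem_fib.1 hI)
    exact ⟨i, Finset.mem_range.2 (by omega), rfl⟩

lemma inert_ex {L : M A} {l : ℕ} (hl : 1 < l) (hL : L.1 = span {(l : O A)}) (hP : L.1.IsPrime)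
    (k : ℕ) : ∀ I : M A, nm I = l ^ k → ∃ j, k = 2 * j ∧ I = L ^ j := by
  have hn : nm L = l * l := nm_eq.2 (hL ▸ hasN_nat l)
  induction k using Nat.strong_induction_on with
  | _ k ih =>
    intro I hI
    rcases k with _ | k
    · exact ⟨0, rfl, by simpa using eq_one_of_nm hI⟩
    have h : I.1 ≤ L.1 := by
      rcases le_or_of_prime hP (hL ▸ mem_span_singleton_self _) (nm_eq.1 hI) with h | h
      · exact h
      · rwa [hL, cj_nat, ← hL] at h
    obtain ⟨J, rfl⟩ := M_dvd h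
    rw [nm_mul, hn, pow_succ', mul_assoc] at hI
    have h1 := mul_left_cancel₀ (by omega) hI
    rcases k with _ | k
    · have := Nat.eq_one_of_mul_eq_one_right h1
      omega
    rw [pow_succ'] at h1
    obtain ⟨j, hj, rfl⟩ := ih k (by omega) J (mul_left_cancel₀ (by omega) h1)
    exact ⟨j + 1, by omega, (pow_succ' _ _).symm⟩

lemma sum_fib_inert (f : M A →* ℂ) {L : M A} {l : ℕ} (hl : 1 < l) (hL : L.1 = span {(l : O A)})
    (hP : L.1.IsPrime) (hf : f L = 1) (k : ℕ) :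
    ∑ I ∈ fib A (l ^ k), f I = if Even k then 1 else 0 := by
  have hn : nm L = l * l := nm_eq.2 (hL ▸ hasN_nat l)
  split_ifs with hk
  · obtain ⟨j, rfl⟩ := hk
    have : fib A (l ^ (j + j)) = {L ^ j} := by
      ext I
      rw [mem_fib, Finset.mem_singleton]
      constructor
      · intro hI
        obtain ⟨i, hi, rfl⟩ := inert_ex hl hL hP _ I hI
        rw [show i = j by omega]
      · rintro rfl
        rw [nm_pow, hn, mul_pow, pow_add]
    rw [this, Finset.sum_singleton, map_pow, hf, one_pow]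
  · refine Finset.sum_eq_zero fun I hI => ?_
    obtain ⟨i, hi, -⟩ := inert_ex hl hL hP _ I (mem_fib.1 hI)
    exact absurd ⟨i, by omega⟩ hk

/-- equivalence of ideals -/
def Eqv (I J : Ideal (O A)) : Prop :=
  ∃ α β : O A, α ≠ 0 ∧ β ≠ 0 ∧ span {α} * I = span {β} * J

omit hA in
lemma Eqv.refl (I : Ideal (O A)) : Eqv I I := ⟨1, 1, one_ne_zero, one_ne_zero, rfl⟩

omit hA in
lemma Eqv.symm {I J : Ideal (O A)} : Eqv I J → Eqv J I :=
  fun ⟨α, β, h1, h2, h⟩ => ⟨β, α, h2, h1, h.symm⟩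

lemma Eqv.trans {I J K : Ideal (O A)} : Eqv I J → Eqv J K → Eqv I K := by
  rintro ⟨α, β, h1, h2, h⟩ ⟨γ, δ, h3, h4, h'⟩
  refine ⟨γ * α, β * δ, mul_ne_zero h3 h1, mul_ne_zero h2 h4, ?_⟩
  rw [← span_singleton_mul_span_singleton, ← span_singleton_mul_span_singleton, mul_assoc, h,
    mul_left_comm, h', mul_assoc]

lemma Eqv.mul {I J K L : Ideal (O A)} : Eqv I J → Eqv K L → Eqv (I * K) (J * L) := by
  rintro ⟨α, β, h1, h2, h⟩ ⟨γ, δ, h3, h4, h'⟩
  refine ⟨α * γ, β * δ, mul_ne_zero h1 h3, mul_ne_zero h2 h4, ?_⟩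
  rw [← span_singleton_mul_span_singleton, ← span_singleton_mul_span_singleton, mul_mul_mul_comm,
    h, h', mul_mul_mul_comm]

variable (A) in
/-- the congruence on `M` -/
def con : Con (M A) where
  r I J := Eqv I.1 J.1
  iseqv := ⟨fun I => Eqv.refl I.1, Eqv.symm, Eqv.trans⟩
  mul' := Eqv.mul

lemma con_span {I : M A} {z : O A} (h : I.1 = span {z}) : con A I 1 := by
  refine ⟨1, z, one_ne_zero, ?_, by simp [h]⟩
  rintro rfl
  have := (nm_hasN I).mem
  rw [h, mem_span_singleton, zero_dvd_iff, Nat.cast_eq_zero] at this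
  exact nm_ne I this

variable (A) in
/-- the ring class group -/
def G : Type := (con A).Quotient

noncomputable instance : CommGroup (G A) :=
  @commGroupOfIsUnit (con A).Quotient _ (by
    intro g
    obtain ⟨I, rfl⟩ := (con A).mk'_surjective g
    refine IsUnit.of_mul_eq_one ((con A).mk' (cjM I)) ?_
    exact (Con.eq _).2 (con_span (I := I * cjM I) (nm_hasN I)))

/-- the class of an ideal -/
def cls : M A →* G A := (con A).mk'

lemma cls_eq {I J : M A} : cls I = cls J ↔ Eqv I.1 J.1 := Con.eq _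

lemma cls_surj : Function.Surjective (cls : M A → G A) := (con A).mk'_surjective

lemma cls_span {I : M A} {z : O A} (h : I.1 = span {z}) : cls I = 1 :=
  (cls_eq.2 (con_span h)).trans (map_one _)

lemma cls_cjM (I : M A) : cls (cjM I) = (cls I)⁻¹ :=
  eq_inv_of_mul_eq_one_right (by rw [← map_mul]; exact cls_span (nm_hasN I))

lemma cls_eq_one {I : M A} (h : cls I = 1) : ∃ z : O A, I.1 = span {z} := by
  obtain ⟨α, β, h1, -, e⟩ := cls_eq.1 (h.trans (map_one cls).symm)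
  simp only [OneMemClass.coe_one, mul_one] at e
  obtain ⟨z, -, hz⟩ := mem_span_singleton_mul.1 (e ▸ mem_span_singleton_self β)
  refine ⟨z, (span_singleton_mul_right_inj h1).1 ?_⟩
  rw [e, span_singleton_mul_span_singleton, hz]

lemma exists_rep (g : G A) : ∃ a b h hu, cls (JM a b h hu) = g := by
  obtain ⟨I, rfl⟩ := cls_surj g
  obtain ⟨k, a, b, hk, h, hu, e⟩ := (nm_hasN I).structure (nm_unit I)
  exact ⟨a, b, h, hu, cls_eq.2 ⟨k, 1, Nat.cast_ne_zero.2 hk, one_ne_zero, by simp [e, JM]⟩⟩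

instance : Finite (G A) := by
  have key : ∀ g : G A, ∃ K : Ideal (O A), (((1 + A).factorial : ℕ) : O A) ∈ K ∧
      ∃ I : M A, cls I = g⁻¹ ∧ Eqv K I.1 := by
    intro g
    obtain ⟨a, b, h, hu, rfl⟩ := exists_rep g
    have ha := ne_zero_of_unit hu
    obtain ⟨z, hz0, hz, hn⟩ := short_vec h ha
    obtain ⟨K, hK⟩ := (hasN_Jd h hu).exists_mul ha ((span_singleton_le_iff_mem _).2 hz)
    obtain ⟨j, hj⟩ := (hasN_Jd h hu).dvd (hK ▸ hasN_span z)
    have hKj : HasN K j := (hasN_Jd h hu).of_mul ha (hj ▸ hK ▸ hasN_span z)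
    have hj0 : 0 < j := by
      rcases Nat.eq_zero_or_pos j with rfl | h0
      · rw [mul_zero, Int.natAbs_eq_zero,
          Zsqrtd.norm_eq_zero_iff (by have := hA.out; omega)] at hj
        exact absurd hj hz0
      · exact h0
    have hj1 : j ≤ 1 + A := by
      rw [← norm_nat, hj] at hn
      have : a * j ≤ a * (1 + A) := by rw [mul_comm a (1 + A)]; exact_mod_cast hn
      exact Nat.le_of_mul_le_mul_left this (Nat.pos_of_ne_zero ha)
    obtain ⟨c, hc⟩ := Nat.dvd_factorial hj0 hj1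
    refine ⟨K, ?_, cjM (JM a b h hu), cls_cjM _, a, z, Nat.cast_ne_zero.2 ha, hz0, ?_⟩
    · rw [hc, Nat.cast_mul]; exact K.mul_mem_right _ hKj.mem
    · rw [hK, ← hasN_Jd h hu, mul_right_comm]; rfl
  choose K hK I hI hE using key
  have hfin := (finite_above (A := A) _ (Nat.factorial_ne_zero (1 + A))).to_subtype
  refine Finite.of_injective (fun g => (⟨K g, hK g⟩ :
    {I : Ideal (O A) | (((1 + A).factorial : ℕ) : O A) ∈ I})) fun g g' e => ?_
  have e' : K g = K g' := congrArg Subtype.val e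
  have := cls_eq.2 ((hE g).symm.trans (e' ▸ hE g'))
  rwa [hI, hI, inv_inj] at this

end Pool.Agent.MP_c481b3_nt.H28.W
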