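import Mathlib

set_option autoImplicit false

open MeasureTheory Set Pointwise

namespace Pool.Agent.MP_c481b3_nt.H28.W

/-- the unit tile with lower left corner `p + z` -/
def tile (z : ℝ × ℝ) (p : ℤ × ℤ) : Set (ℝ × ℝ) :=
  Ico (p.1 + z.1) (p.1 + z.1 + 1) ×ˢ Ico (p.2 + z.2) (p.2 + z.2 + 1)

lemma mem_tile {z : ℝ × ℝ} {p : ℤ × ℤ} {q : ℝ × ℝ} :
    q ∈ tile z p ↔ ⌊q.1 - z.1⌋ = p.1 ∧ ⌊q.2 - z.2⌋ = p.2 := by
  simp only [tile, mem_prod, mem_Ico, Int.floor_eq_iff]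
  constructor
  · rintro ⟨⟨a, b⟩, c, d⟩
    exact ⟨⟨by linarith, by linarith⟩, by linarith, by linarith⟩
  · rintro ⟨⟨a, b⟩, c, d⟩
    exact ⟨⟨by linarith, by linarith⟩, by linarith, by linarith⟩

lemma vol_tiles (z : ℝ × ℝ) (S : Finset (ℤ × ℤ)) :
    volume (⋃ p ∈ S, tile z p) = S.card := by
  rw [measure_biUnion_finset]
  · have : ∀ p ∈ S, volume (tile z p) = 1 := by
      intro p _
      simp [tile, Measure.volume_eq_prod, Measure.prod_prod]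
    rw [Finset.sum_congr rfl this]; simp
  · intro p _ q _ hpq
    rw [Function.onFun, Set.disjoint_left]
    intro x hx hx'
    rw [mem_tile] at hx hx'
    exact hpq (Prod.ext (hx.1.symm.trans hx'.1) (hx.2.symm.trans hx'.2))
  · intro p _
    exact measurableSet_Ico.prod measurableSet_Ico

variable (Φ : (ℝ × ℝ) →ₗ[ℝ] ℂ)

lemma vol_ball (ρ : ℝ) (hρ : 0 < ρ) :
    volume {q : ℝ × ℝ | ‖Φ q‖ ≤ ρ} = ENNReal.ofReal (ρ ^ 2) * volume {q : ℝ × ℝ | ‖Φ q‖ ≤ 1} := by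
  have : {q : ℝ × ℝ | ‖Φ q‖ ≤ ρ} = ρ • {q : ℝ × ℝ | ‖Φ q‖ ≤ 1} := by
    ext q
    rw [mem_smul_set_iff_inv_smul_mem₀ hρ.ne']
    simp only [mem_ofPred_eq, map_smul, norm_smul, norm_inv, Real.norm_eq_abs, abs_of_pos hρ]
    rw [inv_mul_le_iff₀ hρ, mul_one]
  rw [this, Measure.addHaar_smul_of_nonneg _ hρ.le]
  simp

lemma tile_near {z : ℝ × ℝ} {p : ℤ × ℤ} {q : ℝ × ℝ} (h : q ∈ tile z p) :
    ‖Φ q - Φ ((p.1 : ℝ) + z.1, (p.2 : ℝ) + z.2)‖ ≤ ‖Φ (1, 0)‖ + ‖Φ (0, 1)‖ := by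
  obtain ⟨⟨a, b⟩, c, d⟩ := h
  have : Φ q - Φ ((p.1 : ℝ) + z.1, (p.2 : ℝ) + z.2)
      = (q.1 - (p.1 + z.1)) • Φ (1, 0) + (q.2 - (p.2 + z.2)) • Φ (0, 1) := by
    rw [← map_smul, ← map_smul, ← map_add, ← map_sub]
    congr 1
    ext <;> simp
  rw [this]
  refine (norm_add_le _ _).trans (add_le_add ?_ ?_)
  · rw [norm_smul, Real.norm_eq_abs]
    exact mul_le_of_le_one_left (norm_nonneg _) (abs_le.2 ⟨by linarith, by linarith⟩)
  · rw [norm_smul, Real.norm_eq_abs]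
    exact mul_le_of_le_one_left (norm_nonneg _) (abs_le.2 ⟨by linarith, by linarith⟩)

/-- Lattice points in an ellipse. -/
lemma lattice_count (V : ℝ) (hV0 : 0 ≤ V)
    (hV : volume {q : ℝ × ℝ | ‖Φ q‖ ≤ 1} = ENNReal.ofReal V) :
    ∃ C : ℝ, 0 ≤ C ∧ ∀ (z : ℝ × ℝ) (R : ℝ), 0 ≤ R → ∃ S : Finset (ℤ × ℤ),
      (∀ p, p ∈ S ↔ ‖Φ ((p.1 : ℝ) + z.1, (p.2 : ℝ) + z.2)‖ ≤ R) ∧
      |(S.card : ℝ) - V * R ^ 2| ≤ C * (R + 1) := by
  set d := ‖Φ (1, 0)‖ + ‖Φ (0, 1)‖ + 1 with hd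
  have hd0 : 0 < d := by positivity
  refine ⟨V * (2 * d + d ^ 2), by positivity, fun z R hR => ?_⟩
  have up : ∀ S : Finset (ℤ × ℤ), (∀ p ∈ S, ‖Φ ((p.1 : ℝ) + z.1, (p.2 : ℝ) + z.2)‖ ≤ R) →
      (S.card : ℝ) ≤ (R + d) ^ 2 * V := by
    intro S hS
    have h1 : (⋃ p ∈ S, tile z p) ⊆ {q : ℝ × ℝ | ‖Φ q‖ ≤ R + d} := by
      intro q hq
      obtain ⟨p, hp, hq⟩ := mem_iUnion₂.1 hq
      have := tile_near Φ hq
      have h2 := norm_sub_norm_le (Φ q) (Φ ((p.1 : ℝ) + z.1, (p.2 : ℝ) + z.2))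
      have := hS p hp
      simp only [mem_ofPred_eq]
      linarith
    have h2 := measure_mono (μ := volume) h1
    rw [vol_tiles, vol_ball Φ _ (by linarith), hV, ← ENNReal.ofReal_mul (by positivity),
      ← ENNReal.ofReal_natCast] at h2
    exact (ENNReal.ofReal_le_ofReal_iff (by positivity)).1 h2
  have fin : {p : ℤ × ℤ | ‖Φ ((p.1 : ℝ) + z.1, (p.2 : ℝ) + z.2)‖ ≤ R}.Finite := by
    by_contra hinf
    obtain ⟨n, hn⟩ := exists_nat_gt ((R + d) ^ 2 * V)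
    obtain ⟨S, hS, hc⟩ := Set.Infinite.exists_subset_card_eq hinf n
    have := up S fun p hp => hS hp
    rw [hc] at this
    linarith
  refine ⟨fin.toFinset, fun p => by simp, ?_⟩
  have h1 := up fin.toFinset fun p hp => by simpa using hp
  have h2 : V * R ^ 2 - 2 * d * R * V ≤ fin.toFinset.card := by
    rcases lt_or_ge d R with h | h
    · have h3 : {q : ℝ × ℝ | ‖Φ q‖ ≤ R - d} ⊆ ⋃ p ∈ fin.toFinset, tile z p := by
        intro q hq
        have hq' : q ∈ tile z (⌊q.1 - z.1⌋, ⌊q.2 - z.2⌋) := mem_tile.2 ⟨rfl, rfl⟩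
        refine mem_iUnion₂.2 ⟨_, ?_, hq'⟩
        have := tile_near Φ hq'
        rw [norm_sub_rev] at this
        have h2 := norm_sub_norm_le
          (Φ (((⌊q.1 - z.1⌋ : ℤ) : ℝ) + z.1, ((⌊q.2 - z.2⌋ : ℤ) : ℝ) + z.2)) (Φ q)
        simp only [mem_ofPred_eq] at hq
        simp only [Finite.mem_toFinset, mem_ofPred_eq]
        linarith
      have h4 := measure_mono (μ := volume) h3
      rw [vol_tiles, vol_ball Φ _ (by linarith), hV, ← ENNReal.ofReal_mul (by positivity),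
        ← ENNReal.ofReal_natCast] at h4
      have h5 := (ENNReal.ofReal_le_ofReal_iff (by positivity)).1 h4
      nlinarith [mul_nonneg hV0 (sq_nonneg d)]
    · have : (0 : ℝ) ≤ fin.toFinset.card := by positivity
      nlinarith [mul_nonneg hV0 hR, mul_nonneg (mul_nonneg hV0 hR) hd0.le]
  have h3 : 0 ≤ V * d ^ 2 * R := by positivity
  have h4 : 0 ≤ V * d := by positivity
  have h5 : 0 ≤ V * d ^ 2 := by positivity
  rw [abs_le]
  constructor <;> nlinarith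

/-- the base embedding `(s, t) ↦ s + t √A i` -/
noncomputable def Φ0 (A : ℝ) : (ℝ × ℝ) →ₗ[ℝ] ℂ where
  toFun q := ⟨q.1, q.2 * √A⟩
  map_add' p q := by apply Complex.ext <;> simp [add_mul]
  map_smul' t q := by apply Complex.ext <;> simp [mul_assoc]

lemma norm_Φ0 (A : ℝ) (hA : 0 ≤ A) (q : ℝ × ℝ) : ‖Φ0 A q‖ ^ 2 = q.1 ^ 2 + A * q.2 ^ 2 := by
  rw [Complex.sq_norm, Complex.normSq_apply]
  simp only [Φ0, LinearMap.coe_mk, AddHom.coe_mk]
  have := Real.mul_self_sqrt hA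
  linear_combination q.2 ^ 2 * this

lemma vol_Φ0 (A : ℝ) (hA : 1 ≤ A) : ∃ V : ℝ, 0 ≤ V ∧
    volume {q : ℝ × ℝ | ‖Φ0 A q‖ ≤ 1} = ENNReal.ofReal V := by
  refine ⟨(volume {q : ℝ × ℝ | ‖Φ0 A q‖ ≤ 1}).toReal, ENNReal.toReal_nonneg,
    (ENNReal.ofReal_toReal ?_).symm⟩
  refine (measure_mono (t := Icc (-1) 1 ×ˢ Icc (-1) 1) ?_).trans_lt ?_ |>.ne
  · intro q hq
    have h1 := norm_Φ0 A (by linarith) q
    have h2 : ‖Φ0 A q‖ ^ 2 ≤ 1 := pow_le_one₀ (norm_nonneg _) hq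
    have h3 : q.2 ^ 2 ≤ A * q.2 ^ 2 := by nlinarith [sq_nonneg q.2]
    exact ⟨abs_le.1 ((sq_le_one_iff_abs_le_one _).1 (by nlinarith [sq_nonneg q.2])),
      abs_le.1 ((sq_le_one_iff_abs_le_one _).1 (by nlinarith [sq_nonneg q.1]))⟩
  · exact (isCompact_Icc.prod isCompact_Icc).measure_lt_top

/-- the unimodular shear -/
noncomputable def shear (a b : ℝ) : (ℝ × ℝ) →ₗ[ℝ] (ℝ × ℝ) :=
  Matrix.toLin (Module.Basis.finTwoProd ℝ) (Module.Basis.finTwoProd ℝ) !![√a, b / √a; 0, 1 / √a]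

lemma vol_shear (A a b : ℝ) (ha : 0 < a) :
    volume {q : ℝ × ℝ | ‖(Φ0 A ∘ₗ shear a b) q‖ ≤ 1} = volume {q : ℝ × ℝ | ‖Φ0 A q‖ ≤ 1} := by
  have hs : 0 < √a := Real.sqrt_pos.2 ha
  have hdet : LinearMap.det (shear a b) = 1 := by
    rw [shear, LinearMap.det_toLin, Matrix.det_fin_two_of]
    field_simp; ring
  have := Measure.addHaar_preimage_linearMap (volume : Measure (ℝ × ℝ))
    (f := shear a b) (by rw [hdet]; exact one_ne_zero) {q : ℝ × ℝ | ‖Φ0 A q‖ ≤ 1}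
  rw [hdet] at this
  simpa using this

lemma norm_shear (A a b : ℝ) (hA : 0 ≤ A) (ha : 0 < a) (q : ℝ × ℝ) :
    a * ‖(Φ0 A ∘ₗ shear a b) q‖ ^ 2 = (a * q.1 + b * q.2) ^ 2 + A * q.2 ^ 2 := by
  have hs : 0 < √a := Real.sqrt_pos.2 ha
  rw [LinearMap.comp_apply, norm_Φ0 A hA, shear, Matrix.toLin_finTwoProd_apply]
  obtain ⟨s, hs0, rfl⟩ : ∃ s : ℝ, 0 < s ∧ a = s ^ 2 := ⟨√a, hs, (Real.sq_sqrt ha.le).symm⟩
  rw [Real.sqrt_sq hs0.le]
  field_simp
  ring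

open Classical in
/-- Counting the points of an ellipse in good residue classes: the main term does not depend on
`(a, b)`. -/
lemma good_count (A m : ℕ) [NeZero m] (hA : 1 ≤ A) : ∃ ρ : ℝ, ∀ (a : ℕ) (b : ℤ),
    IsUnit (a : ZMod m) → 0 < a → ∃ C : ℝ, ∀ N : ℕ, ∃ P : Finset (ℤ × ℤ),
      (∀ p, p ∈ P ↔ ((a * p.1 + b * p.2) ^ 2 + A * p.2 ^ 2 ≤ a * N ∧
        IsUnit ((((a * p.1 + b * p.2) ^ 2 + A * p.2 ^ 2 : ℤ) : ZMod m)))) ∧
      |(P.card : ℝ) - ρ * N| ≤ C * (√(N : ℝ) + 1) := by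
  obtain ⟨V, hV0, hV⟩ := vol_Φ0 A (by exact_mod_cast hA)
  have hm : (0 : ℝ) < m := by exact_mod_cast Nat.pos_of_ne_zero (NeZero.ne m)
  have hm1 : (1 : ℝ) ≤ m := by exact_mod_cast Nat.pos_of_ne_zero (NeZero.ne m)
  set G0 : Finset (ZMod m × ZMod m) :=
    Finset.univ.filter fun x => IsUnit (x.1 ^ 2 + (A : ZMod m) * x.2 ^ 2) with hG0
  refine ⟨G0.card * (V / m ^ 2), fun a b hau ha => ?_⟩
  have haR : (0 : ℝ) < a := by exact_mod_cast ha
  obtain ⟨C, hC0, hC⟩ := lattice_count (Φ0 A ∘ₗ shear a b) V hV0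
    ((vol_shear A a b haR).trans hV)
  set G1 : Finset (ZMod m × ZMod m) := Finset.univ.filter fun x =>
    IsUnit (((a : ZMod m) * x.1 + (b : ZMod m) * x.2) ^ 2 + (A : ZMod m) * x.2 ^ 2) with hG1
  have hcard : G1.card = G0.card := by
    refine Finset.card_bij (fun x _ => ((a : ZMod m) * x.1 + (b : ZMod m) * x.2, x.2))
      (fun x hx => by simpa [hG0, hG1] using hx) (fun x _ y _ h => ?_) (fun y hy => ?_)
    · obtain ⟨h1, h2⟩ := Prod.mk.inj h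
      rw [h2, add_left_inj] at h1
      exact Prod.ext (hau.mul_left_cancel h1) h2
    · obtain ⟨u, hu⟩ := hau.exists_right_inv
      have e : (a : ZMod m) * (u * (y.1 - b * y.2)) + b * y.2 = y.1 := by
        linear_combination (y.1 - b * y.2) * hu
      refine ⟨(u * (y.1 - b * y.2), y.2), ?_, ?_⟩
      · simp only [hG1, Finset.mem_filter, Finset.mem_univ, true_and, e]
        simpa [hG0] using hy
      · simp only [e]
  refine ⟨G0.card * C, fun N => ?_⟩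
  have hR : 0 ≤ √(N : ℝ) / m := by positivity
  choose S hS hS' using fun x : ZMod m × ZMod m =>
    hC ((x.1.val : ℝ) / m, (x.2.val : ℝ) / m) (√(N : ℝ) / m) hR
  let f : ZMod m × ZMod m → ℤ × ℤ → ℤ × ℤ := fun x p => (x.1.val + m * p.1, x.2.val + m * p.2)
  have hf : ∀ x, Function.Injective (f x) := by
    intro x p q h
    obtain ⟨h1, h2⟩ := Prod.mk.inj h
    have hm0 : (m : ℤ) ≠ 0 := by exact_mod_cast NeZero.ne m
    exact Prod.ext (mul_left_cancel₀ hm0 (add_left_cancel h1))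
      (mul_left_cancel₀ hm0 (add_left_cancel h2))
  have hfx : ∀ x p, (((f x p).1 : ZMod m), ((f x p).2 : ZMod m)) = x := by
    intro x p
    ext <;> simp [f]
  have key : ∀ x p, p ∈ S x ↔
      ((a : ℤ) * (f x p).1 + b * (f x p).2) ^ 2 + A * (f x p).2 ^ 2 ≤ a * N := by
    intro x p
    rw [hS]
    have h1 := norm_shear A a b (by positivity) haR
      ((p.1 : ℝ) + (x.1.val : ℝ) / m, (p.2 : ℝ) + (x.2.val : ℝ) / m)
    set ν := ‖(Φ0 A ∘ₗ shear a b)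
      ((p.1 : ℝ) + (x.1.val : ℝ) / m, (p.2 : ℝ) + (x.2.val : ℝ) / m)‖ with hν
    have hν0 : 0 ≤ ν := norm_nonneg _
    have h2 : ((((a : ℤ) * (f x p).1 + b * (f x p).2) ^ 2 + A * (f x p).2 ^ 2 : ℤ) : ℝ)
        = a * (m * ν) ^ 2 := by
      have : (a : ℝ) * (m * ν) ^ 2 = m ^ 2 * (a * ν ^ 2) := by ring
      rw [this, h1]
      simp only [f]
      push_cast
      field_simp
      ring
    rw [← Int.cast_le (R := ℝ), h2, le_div_iff₀ hm, Real.le_sqrt (by positivity) (by positivity)]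
    push_cast
    rw [mul_le_mul_iff_right₀ haR, mul_comm ν]
  refine ⟨G1.biUnion fun x => (S x).image (f x), fun p => ?_, ?_⟩
  · simp only [Finset.mem_biUnion, Finset.mem_image]
    constructor
    · rintro ⟨x, hx, q, hq, rfl⟩
      refine ⟨(key x q).1 hq, ?_⟩
      have h1 := congrArg Prod.fst (hfx x q)
      have h2 := congrArg Prod.snd (hfx x q)
      simp only at h1 h2
      push_cast
      rw [h1, h2]
      simpa [hG1] using hx
    · rintro ⟨h1, h2⟩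
      obtain ⟨k1, hk1⟩ := (ZMod.intCast_eq_iff m p.1 _).1 rfl
      obtain ⟨k2, hk2⟩ := (ZMod.intCast_eq_iff m p.2 _).1 rfl
      have e : f ((p.1 : ZMod m), (p.2 : ZMod m)) (k1, k2) = p := Prod.ext hk1.symm hk2.symm
      refine ⟨((p.1 : ZMod m), (p.2 : ZMod m)), ?_, (k1, k2), ?_, e⟩
      · simp only [hG1, Finset.mem_filter, Finset.mem_univ, true_and]
        push_cast at h2
        exact h2
      · rw [key, e]; exact h1
  · rw [Finset.card_biUnion]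
    · have e1 : ∀ x ∈ G1, ((S x).image (f x)).card = (S x).card := fun x _ =>
        Finset.card_image_of_injective _ (hf x)
      rw [Finset.sum_congr rfl e1, ← hcard]
      have e2 : ((∑ x ∈ G1, (S x).card : ℕ) : ℝ) - G1.card * (V / m ^ 2) * N
          = ∑ x ∈ G1, (((S x).card : ℝ) - V * (√(N : ℝ) / m) ^ 2) := by
        rw [Finset.sum_sub_distrib, Finset.sum_const, div_pow, Real.sq_sqrt (by positivity)]
        push_cast
        simp only [nsmul_eq_mul]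
        ring
      rw [e2]
      refine (Finset.abs_sum_le_sum_abs _ _).trans ?_
      refine (Finset.sum_le_card_nsmul _ _ (C * (√(N : ℝ) + 1)) fun x _ => (hS' x).trans ?_).trans ?_
      · have : √(N : ℝ) / m ≤ √(N : ℝ) := div_le_self (by positivity) hm1
        gcongr
      · simp only [nsmul_eq_mul]
        exact le_of_eq (by ring)
    · intro x _ y _ hxy
      rw [Function.onFun, Finset.disjoint_left]
      intro p hp hp'
      obtain ⟨q, -, rfl⟩ := Finset.mem_image.1 hp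
      obtain ⟨q', -, h⟩ := Finset.mem_image.1 hp'
      exact hxy ((hfx x q).symm.trans (h ▸ hfx y q'))

end Pool.Agent.MP_c481b3_nt.H28.W
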