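import Pool.Agent.MP_c481b3_nt.H28.Spec
import Pool.Agent.MP_c481b3_nt.H28.WClass
import Pool.Agent.MP_c481b3_nt.H28.WChar
import Pool.Agent.MP_c481b3_nt.H28.WCount

set_option autoImplicit false

open Ideal

namespace Pool.Agent.MP_c481b3_nt.H28

namespace W

variable {A : ℕ}

open Classical in
/-- ideals of norm at most `N` -/
noncomputable def ball (A N : ℕ) : Finset (M A) := (Finset.Icc 1 N).biUnion (fib A)

lemma mem_ball {N : ℕ} {I : M A} : I ∈ ball A N ↔ nm I ≤ N := by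
  simp only [ball, Finset.mem_biUnion, mem_fib, Finset.mem_Icc]
  exact ⟨fun ⟨n, h, e⟩ => e ▸ h.2, fun h => ⟨_, ⟨Nat.pos_of_ne_zero (nm_ne I), h⟩, rfl⟩⟩

lemma sum_ball (f : M A → ℂ) (N : ℕ) :
    ∑ n ∈ Finset.Icc 1 N, ∑ I ∈ fib A n, f I = ∑ I ∈ ball A N, f I := by
  classical
  rw [ball, Finset.sum_biUnion]
  intro n _ k _ h
  rw [Function.onFun, Finset.disjoint_left]
  intro I h1 h2
  exact h ((mem_fib.1 h1).symm.trans (mem_fib.1 h2))

/-- the element of `Jd a b` with coordinates `p` -/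
def del (A a : ℕ) (b : ℤ) (p : ℤ × ℤ) : O A := ⟨a * p.1 + b * p.2, p.2⟩

lemma del_norm (a : ℕ) (b : ℤ) (p : ℤ × ℤ) :
    (del A a b p).norm = (a * p.1 + b * p.2) ^ 2 + A * p.2 ^ 2 := norm_O _

lemma del_inj {a : ℕ} (ha : a ≠ 0) (b : ℤ) : Function.Injective (del A a b) := by
  intro p q h
  have h1 : (a : ℤ) * p.1 + b * p.2 = a * q.1 + b * q.2 := congrArg Zsqrtd.re h
  have h2 : p.2 = q.2 := congrArg Zsqrtd.im h
  rw [h2, add_left_inj] at h1
  exact Prod.ext (mul_left_cancel₀ (by exact_mod_cast ha) h1) h2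

lemma del_neg (a : ℕ) (b : ℤ) (p : ℤ × ℤ) : del A a b (-p) = -del A a b p := by
  ext <;> simp [del]; ring

lemma mem_Jd_del {a : ℕ} {b : ℤ} (h : (a : ℤ) ∣ b ^ 2 + A) {z : O A} :
    z ∈ Jd a b ↔ ∃ p, del A a b p = z := by
  rw [mem_Jd h]
  constructor
  · rintro ⟨x, hx⟩
    refine ⟨(x, z.im), ?_⟩
    ext
    · simp only [del]; linear_combination -hx
    · rfl
  · rintro ⟨p, rfl⟩
    exact ⟨p.1, by simp [del]⟩

lemma norm_of_span {I : M A} {z : O A} (h : I.1 = span {z}) : z.norm = nm I := by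
  rw [← norm_nat, nm_eq.2 (h ▸ hasN_span z)]

variable [hA : Fact (1 < A)]

open Classical in
lemma class_count : ∃ ρ : ℝ, ∀ g : G A, ∃ C : ℝ, ∀ N : ℕ,
    |(((ball A N).filter fun I => cls I = g).card : ℝ) - ρ * N| ≤ C * (√(N : ℝ) + 1) := by
  obtain ⟨ρ, hρ⟩ := good_count A (4 * A) hA.out.le
  refine ⟨ρ / 2, fun g => ?_⟩
  obtain ⟨a, b, h, hu, hg⟩ := exists_rep g⁻¹
  have ha := ne_zero_of_unit hu
  obtain ⟨C, hC⟩ := hρ a b hu (Nat.pos_of_ne_zero ha)
  refine ⟨C / 2, fun N => ?_⟩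
  obtain ⟨P, hP, hPc⟩ := hC N
  simp only [← del_norm] at hP
  have key : ((ball A N).filter fun I => cls I = g).card * 2 = P.card * 1 := by
    refine Finset.card_mul_eq_card_mul
      (fun I p => (I * JM a b h hu).1 = span {del A a b p}) (fun I hI => ?_) (fun p hp => ?_)
    · obtain ⟨hI, hIg⟩ := Finset.mem_filter.1 hI
      rw [mem_ball] at hI
      obtain ⟨z, hz⟩ := cls_eq_one (I := I * JM a b h hu) (by rw [map_mul, hIg, hg, mul_inv_cancel])
      have hzJ : z ∈ Jd a b :=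
        mul_le_right (I := I.1) (J := Jd a b) (hz.ge (mem_span_singleton_self z))
      obtain ⟨p, rfl⟩ := (mem_Jd_del h).1 hzJ
      have hmem : ∀ q, (I * JM a b h hu).1 = span {del A a b q} → q ∈ P := by
        intro q hq
        rw [hP, norm_of_span hq, Int.cast_natCast]
        refine ⟨?_, nm_unit _⟩
        rw [nm_mul, nm_JM, mul_comm]
        exact_mod_cast Nat.mul_le_mul_left a hI
      have hne : p ≠ -p := by
        intro e
        have : p = 0 := Prod.ext (by have := congrArg Prod.fst e; simp at this ⊢; omega)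
          (by have := congrArg Prod.snd e; simp at this ⊢; omega)
        have h1 := norm_of_span hz
        rw [del_norm, this] at h1
        exact nm_ne (I * JM a b h hu) (by simpa using h1.symm)
      rw [Finset.card_eq_two]
      refine ⟨p, -p, hne, ?_⟩
      ext q
      simp only [Finset.mem_bipartiteAbove, Finset.mem_insert, Finset.mem_singleton]
      constructor
      · rintro ⟨-, hq⟩
        obtain ⟨u, hu'⟩ := span_singleton_eq_span_singleton.1 (hz.symm.trans hq)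
        rcases unit_O u.isUnit with e | e
        · left; exact del_inj ha b (by rw [← hu', e, mul_one])
        · right; exact del_inj ha b (by rw [← hu', e, del_neg, mul_neg_one])
      · rintro (rfl | rfl)
        · exact ⟨hmem _ hz, hz⟩
        · have : (I * JM a b h hu).1 = span {del A a b (-p)} := by
            rw [del_neg, span_singleton_neg]; exact hz
          exact ⟨hmem _ this, this⟩
    · obtain ⟨h1, h2⟩ := (hP p).1 hp
      rw [← norm_nat, Int.cast_natCast] at h2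
      let Z : M A := ⟨span {del A a b p}, _, h2, hasN_span _⟩
      obtain ⟨I, hI⟩ := M_dvd (I := Z) (L := JM a b h hu)
        ((span_singleton_le_iff_mem _).2 ((mem_Jd_del h).2 ⟨p, rfl⟩))
      rw [Finset.card_eq_one]
      refine ⟨I, ?_⟩
      ext K
      simp only [Finset.mem_bipartiteBelow, Finset.mem_singleton, Finset.mem_filter, mem_ball]
      constructor
      · rintro ⟨-, hK⟩
        exact M_cancel (I := JM a b h hu) (by rw [← hI, mul_comm]; exact Subtype.ext hK)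
      · rintro rfl
        refine ⟨⟨?_, ?_⟩, by rw [mul_comm, ← hI]⟩
        · rw [norm_of_span (I := Z) rfl, hI, nm_mul, nm_JM] at h1
          exact Nat.le_of_mul_le_mul_left (by exact_mod_cast h1) (Nat.pos_of_ne_zero ha)
        · have := cls_span (I := Z) rfl
          rw [hI, map_mul, hg, inv_mul_eq_one] at this
          exact this.symm
  have key' : (((ball A N).filter fun I => cls I = g).card : ℝ) = P.card / 2 := by
    have : ((((ball A N).filter fun I => cls I = g).card * 2 : ℕ) : ℝ) = (P.card * 1 : ℕ) := by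
      rw [key]
    push_cast at this
    linarith
  rw [key', abs_le] at *
  constructor <;> linarith [hPc.1, hPc.2]

/-- a character of the class group as a function on ideals -/
noncomputable def fx (ξ : G A →* ℂˣ) : M A →* ℂ := (Units.coeHom ℂ).comp (ξ.comp cls)

/-- the coefficients of the `L`-series -/
noncomputable def rr (ξ : G A →* ℂˣ) : ArithmeticFunction ℂ :=
  ⟨fun n => ∑ I ∈ fib A n, fx ξ I, by
    rw [fib_nonunit fun h => ne_zero_of_unit h rfl, Finset.sum_empty]⟩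

lemma rr_bound (ξ : G A →* ℂˣ) (hξ : ξ ≠ 1) :
    ∃ C : ℝ, ∀ N : ℕ, ‖∑ n ∈ Finset.Icc 1 N, rr ξ n‖ ≤ C * √(N : ℝ) := by
  classical
  have := Fintype.ofFinite (G A)
  obtain ⟨ρ, hρ⟩ := class_count (A := A)
  choose C hC using hρ
  refine ⟨∑ g, ‖(ξ g : ℂ)‖ * (|C g| * 2), fun N => ?_⟩
  rcases Nat.eq_zero_or_pos N with rfl | hN
  · simp
  have h0 : ∑ g, (ξ g : ℂ) = 0 := sum_hom_units_eq_zero ((Units.coeHom ℂ).comp ξ) (by
    intro e
    apply hξ
    ext g
    simpa using DFunLike.congr_fun e g)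
  have h1 : ∑ n ∈ Finset.Icc 1 N, rr ξ n = ∑ g, (ξ g : ℂ) *
      (((((ball A N).filter fun I => cls I = g).card : ℝ) - ρ * N : ℝ) : ℂ) := by
    have e1 : ∑ n ∈ Finset.Icc 1 N, rr ξ n = ∑ I ∈ ball A N, fx ξ I := sum_ball _ N
    rw [e1, ← Finset.sum_fiberwise (g := fun I : M A => cls I)]
    simp only [Complex.ofReal_sub, mul_sub, Finset.sum_sub_distrib, ← Finset.sum_mul, h0,
      zero_mul, sub_zero]
    refine Finset.sum_congr rfl fun g _ => ?_
    rw [Finset.sum_congr rfl (g := fun _ => (ξ g : ℂ)) fun I hI => by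
      rw [← (Finset.mem_filter.1 hI).2]; rfl]
    simp [mul_comm]
  rw [h1, Finset.sum_mul]
  refine (norm_sum_le _ _).trans (Finset.sum_le_sum fun g _ => ?_)
  rw [norm_mul, mul_assoc, Complex.norm_real, Real.norm_eq_abs]
  refine mul_le_mul_of_nonneg_left ((hC g N).trans ?_) (norm_nonneg _)
  have h2 : 1 ≤ √(N : ℝ) := Real.one_le_sqrt.2 (by exact_mod_cast hN)
  nlinarith [le_abs_self (C g), abs_nonneg (C g)]

lemma core (H : AbsDirichlet) {a : ℕ} {b : ℤ} (h : (a : ℤ) ∣ b ^ 2 + A)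
    (hu : IsUnit (a : ZMod (4 * A))) :
    {l : ℕ | l.Prime ∧ ∃ x y : ℤ, (a * x + b * y) ^ 2 + A * y ^ 2 = l * a}.Infinite := by
  classical
  have ex : ∀ l : ℕ, ∃ L : M A, l.Prime → chi A l = 1 →
      nm L = l ∧ L.1.IsPrime ∧ L.1 ⊔ cj L.1 = ⊤ := by
    intro l
    by_cases hl : l.Prime ∧ chi A l = 1
    · obtain ⟨t, ht⟩ := chi_split A hl.1 hl.2
      have hlu := chi_unit A (x := l) (by rw [hl.2]; exact one_ne_zero)
      exact ⟨JM l t ht hlu, fun _ _ => ⟨nm_JM _ _ _ _, Jd_prime ht hl.1, Jd_sup ht hlu⟩⟩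
    · exact ⟨1, fun h1 h2 => absurd ⟨h1, h2⟩ hl⟩
  choose L hL using ex
  refine (H (G A) (4 * A) (chi A) (chi_ne_one A) (chi_sq A) (fun l => cls (L l)) rr
    (fun ξ => ⟨?_, fun hc => sum_fib_mul (fx ξ) hc⟩) (fun ξ l k hl hχ => ?_)
    (fun ξ l k hl hχ => ?_) (fun ξ l k hl hχ hk => ?_) rr_bound (cls (JM a b h hu))).mono ?_
  · change ∑ I ∈ fib A 1, fx ξ I = 1
    rw [fib_one, Finset.sum_singleton, map_one]
  · obtain ⟨h1, h2, h3⟩ := hL l hl hχ
    refine (sum_fib_split (fx ξ) h1 h2 h3 k).trans (Finset.sum_congr rfl fun i _ => ?_)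
    simp [fx, cls_cjM]
  · have hlu := chi_unit A (x := l) (by rw [hχ]; norm_num)
    let Z : M A := ⟨span {(l : O A)}, l * l, by rw [Nat.cast_mul]; exact hlu.mul hlu, hasN_nat l⟩
    exact sum_fib_inert (fx ξ) (L := Z) hl.one_lt rfl (span_prime hl (chi_inert A hl hχ))
      (by simp [fx, cls_span (I := Z) rfl]) k
  · change ∑ I ∈ fib A (l ^ k), fx ξ I = 0
    rw [fib_nonunit, Finset.sum_empty]
    rw [Nat.cast_pow, isUnit_pow_iff hk]
    exact chi_zero A hχ
  · rintro l ⟨hl, hχ, hγ⟩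
    obtain ⟨I, hI, hIc⟩ : ∃ I : M A, nm I = l ∧ cls I = (cls (JM a b h hu))⁻¹ := by
      rcases hγ with e | e
      · exact ⟨cjM (L l), (nm_cjM _).trans (hL l hl hχ).1, by rw [cls_cjM]; exact congrArg _ e⟩
      · exact ⟨L l, (hL l hl hχ).1, e⟩
    obtain ⟨z, hz⟩ := cls_eq_one (I := I * JM a b h hu) (by rw [map_mul, hIc, inv_mul_cancel])
    have hzJ : z ∈ Jd a b :=
      mul_le_right (I := I.1) (J := Jd a b) (hz.ge (mem_span_singleton_self z))
    obtain ⟨p, rfl⟩ := (mem_Jd_del h).1 hzJ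
    refine ⟨hl, p.1, p.2, ?_⟩
    rw [← del_norm, norm_of_span hz, nm_mul, nm_JM, hI, Nat.cast_mul]

omit hA in
/-- a primitive form properly represents a number prime to a given one -/
lemma exists_cop (a b c : ℤ) (hp : ∀ r : ℤ, r ∣ a → r ∣ b → r ∣ c → IsUnit r) (m : ℕ)
    (hm : m ≠ 0) : ∃ p q : ℤ, IsCoprime p q ∧
      (a * p ^ 2 + b * p * q + c * q ^ 2).natAbs.Coprime m := by
  classical
  let S1 : Finset ℕ := m.primeFactors.filter fun l : ℕ => (l : ℤ) ∣ a ∧ ¬ (l : ℤ) ∣ c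
  let S2 : Finset ℕ := m.primeFactors.filter fun l : ℕ => ¬ (l : ℤ) ∣ a
  have dv : ∀ (S : Finset ℕ) (l : ℕ), l.Prime → (∀ x ∈ S, x.Prime) →
      ((l : ℤ) ∣ ((∏ x ∈ S, x : ℕ) : ℤ) ↔ l ∈ S) := by
    intro S l hl hS
    rw [Int.natCast_dvd_natCast, Prime.dvd_finsetProd_iff hl.prime]
    exact ⟨fun ⟨x, hx, hd⟩ => (Nat.prime_dvd_prime_iff_eq hl (hS x hx)).1 hd ▸ hx,
      fun h => ⟨l, h, dvd_rfl⟩⟩
  have p1 : ∀ x ∈ S1, x.Prime := fun x hx => Nat.prime_of_mem_primeFactors (Finset.mem_filter.1 hx).1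
  have p2 : ∀ x ∈ S2, x.Prime := fun x hx => Nat.prime_of_mem_primeFactors (Finset.mem_filter.1 hx).1
  refine ⟨(∏ x ∈ S1, x : ℕ), (∏ x ∈ S2, x : ℕ), ?_, ?_⟩
  · rw [Nat.isCoprime_iff_coprime]
    refine Nat.coprime_of_dvd fun l hl h1 h2 => ?_
    have h1 := (dv S1 l hl p1).1 (Int.natCast_dvd_natCast.2 h1)
    have h2 := (dv S2 l hl p2).1 (Int.natCast_dvd_natCast.2 h2)
    exact (Finset.mem_filter.1 h2).2 (Finset.mem_filter.1 h1).2.1
  · refine Nat.coprime_of_dvd fun l hl h1 h2 => ?_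
    rw [← Int.natCast_dvd] at h1
    have hl' : Prime (l : ℤ) := Nat.prime_iff_prime_int.1 hl
    have hlm : l ∈ m.primeFactors := Nat.mem_primeFactors.2 ⟨hl, h2, hm⟩
    have d1 := dv S1 l hl p1
    have d2 := dv S2 l hl p2
    simp only [S1, S2, Finset.mem_filter, hlm, true_and] at d1 d2
    generalize ((∏ x ∈ S1, x : ℕ) : ℤ) = p at *
    generalize ((∏ x ∈ S2, x : ℕ) : ℤ) = q at *
    by_cases ha : (l : ℤ) ∣ a
    · have hq : ¬ (l : ℤ) ∣ q := fun h => d2.1 h ha
      by_cases hc : (l : ℤ) ∣ c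
      · have hp' : ¬ (l : ℤ) ∣ p := fun h => (d1.1 h).2 hc
        have hb : ¬ (l : ℤ) ∣ b := fun h => hl'.not_isUnit (hp _ ha h hc)
        have : (l : ℤ) ∣ b * p * q := by
          have := (h1.sub (hc.mul_right (q ^ 2))).sub (ha.mul_right (p ^ 2))
          rwa [add_sub_cancel_right, add_sub_cancel_left] at this
        rcases hl'.dvd_or_dvd this with h | h
        · exact (hl'.dvd_or_dvd h).elim hb hp'
        · exact hq h
      · have hp' := d1.2 ⟨ha, hc⟩
        have : (l : ℤ) ∣ c * q ^ 2 := by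
          have := h1.sub ((ha.mul_right (p ^ 2)).add ((hp'.mul_left b).mul_right q))
          rwa [add_sub_cancel_left] at this
        exact (hl'.dvd_or_dvd this).elim hc fun h => hq (hl'.dvd_of_dvd_pow h)
    · have hq := d2.2 ha
      have hp' : ¬ (l : ℤ) ∣ p := fun h => ha (d1.1 h).1
      have : (l : ℤ) ∣ a * p ^ 2 := by
        simpa using (h1.sub ((dvd_pow hq two_ne_zero).mul_left c)).sub (hq.mul_left (b * p))
      exact (hl'.dvd_or_dvd this).elim ha fun h => hp' (hl'.dvd_of_dvd_pow h)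

end W

open W in
theorem weber_of (H : AbsDirichlet) : Weber := by
  intro a b c ha hD hp
  obtain ⟨A, hA⟩ := Int.eq_ofNat_of_zero_le (show 0 ≤ 4 * a * c - b ^ 2 by linarith)
  have hA1 : 1 < A := by
    have h0 : (0 : ℤ) < A := by linarith
    by_contra h
    have h1 : A = 1 := by omega
    subst h1
    have h2 : b ^ 2 % 4 = 3 := by
      have : b ^ 2 = 3 + 4 * (a * c - 1) := by push_cast at hA; linarith
      omega
    rcases Int.even_or_odd' b with ⟨k, rfl | rfl⟩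
    · have : (2 * k) ^ 2 = 4 * k ^ 2 := by ring
      omega
    · have : (2 * k + 1) ^ 2 = 4 * (k ^ 2 + k) + 1 := by ring
      omega
  have := Fact.mk hA1
  obtain ⟨p, q, ⟨s, r, hpq⟩, hc⟩ := exists_cop a b c hp (4 * A) (by omega)
  have hpos : 0 ≤ a * p ^ 2 + b * p * q + c * q ^ 2 := by
    have e : 4 * a * (a * p ^ 2 + b * p * q + c * q ^ 2) = (2 * a * p + b * q) ^ 2 + A * q ^ 2 := by
      rw [← hA]; ring
    have : 0 ≤ 4 * a * (a * p ^ 2 + b * p * q + c * q ^ 2) := by rw [e]; positivity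
    exact nonneg_of_mul_nonneg_right this (by linarith)
  obtain ⟨a', ha'⟩ := Int.eq_ofNat_of_zero_le hpos
  rw [ha', Int.natAbs_natCast, ← ZMod.isUnit_iff_coprime] at hc
  have e : (-2 * a * p * r + b * (p * s - q * r) + 2 * c * q * s) ^ 2 + A
      = a' * (4 * (a * r ^ 2 - b * r * s + c * s ^ 2)) := by
    rw [← hA, ← ha']
    linear_combination -(4 * a * c - b ^ 2) * (s * p + r * q + 1) * hpq
  refine (core H ⟨_, e⟩ hc).mono ?_
  rintro l ⟨hl, x, y, hxy⟩
  refine ⟨hl, p * x - 2 * r * y, q * x + 2 * s * y, ?_⟩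
  have h0 : (a' : ℤ) ≠ 0 := by exact_mod_cast ne_zero_of_unit hc
  apply mul_right_cancel₀ h0
  rw [← hxy]
  linear_combination y ^ 2 * e - (a' * x ^ 2) * ha'

end Pool.Agent.MP_c481b3_nt.H28
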