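import Pool.Agent.MP_c481b3_nt.H28.LocC
import Pool.Agent.MP_c481b3_nt.H28.Kron
import Pool.Agent.MP_c481b3_nt.H28.Parity
import Pool.Agent.MP_c481b3_nt.H28.ModSq
import Pool.Agent.MP_c481b3_nt.H28.FDAlg
import Pool.Agent.MP_c481b3_nt.H28.SeedAlg
import Pool.Agent.MP_c481b3_nt.H28.WeberAlg
import Pool.Agent.MP_c481b3_nt.H28.AbsDir
import Pool.Agent.MP_c481b3_nt.H28.Unram

set_option autoImplicit false

namespace Pool.Agent.MP_c481b3_nt.H28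

open Pool.Agent.MP_c481b3_nt.H81 Polynomial NumberField

lemma dvd_of_mem {R : Type} [CommRing R] {P : Ideal R} (hP : P.IsMaximal) {q N : ℕ} (hq : q.Prime)
    (h1 : (q : R) ∈ P) (h2 : (N : R) ∈ P) : q ∣ N := by
  by_contra h
  obtain ⟨a, b, e⟩ := (Nat.Coprime.cast (R := R) ((Nat.Prime.coprime_iff_not_dvd hq).2 h))
  exact hP.ne_top ((Ideal.eq_top_iff_one P).2 (e ▸ P.add_mem (P.mul_mem_left a h1)
    (P.mul_mem_left b h2)))

lemma jacobi_not_dvd {l N : ℕ} (hl : l.Prime) (h : jacobiSym (-(l : ℤ)) N = -1) : ¬l ∣ N := by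
  rintro ⟨m, rfl⟩
  rcases eq_or_ne m 0 with rfl | m0
  · simp at h
  rw [jacobiSym.mul_right' _ hl.ne_zero m0, jacobiSym.mod_left _ l, Int.neg_emod_self,
    jacobiSym.zero_left hl.one_lt] at h
  omega

variable {K : Type} [Field K] [NumberField K]

lemma exists_char {P : Ideal (𝓞 K)} (hP : P.IsMaximal) :
    ∃ q n : ℕ, q.Prime ∧ (q : 𝓞 K) ∈ P ∧ Ideal.absNorm P = q ^ n := by
  have : Finite (𝓞 K ⧸ P) := P.finiteQuotientOfFreeOfNeBot (Ring.ne_bot_of_isMaximal_of_not_isField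
    hP (RingOfIntegers.not_isField K))
  let := Ideal.Quotient.field P
  let := Fintype.ofFinite (𝓞 K ⧸ P)
  obtain ⟨p, hp, n, pp, hq⟩ := FiniteField.card' (𝓞 K ⧸ P)
  refine ⟨p, n, pp, Ideal.Quotient.eq_zero_iff_mem.1 (by simp), ?_⟩
  rw [Ideal.absNorm_apply, Submodule.cardQuot_apply, Nat.card_eq_fintype_card, hq]

lemma le_norm {P I : Ideal (𝓞 K)} (hP : P.IsMaximal) {q : ℕ} (hq : q.Prime) (h : (q : 𝓞 K) ∈ P)
    (h0 : I ≠ ⊥) (hI : I ≤ P) : q ≤ Ideal.absNorm I :=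
  Nat.le_of_dvd (Nat.pos_of_ne_zero (Ideal.absNorm_eq_zero_iff.not.2 h0))
    (dvd_of_mem hP hq h (hI I.absNorm_mem))

theorem main [IsTotallyComplex K] [DecidableEq (AlgebraicClosure K)] {A B : 𝓞 K}
    (H : NoCM (iK A) (iK B))
    (hK : IntermediateField.adjoin ℚ {((A ^ 3 : 𝓞 K) : K) / ((B ^ 2 : 𝓞 K) : K)} = ⊤)
    {P₀ : Ideal (𝓞 K)} (hm : P₀.IsMaximal) {p : ℕ} (pp : p.Prime) (hp : p % 4 = 1)
    (hN : Ideal.absNorm P₀ = p) (hu : (p : 𝓞 K) ∉ P₀ ^ 2) (hΔ : (Wc A B).Δ ∉ P₀) (hA : A ∉ P₀)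
    (hB : B ∉ P₀) (hj : 392 * A ^ 3 + 3375 * B ^ 2 ∉ P₀) (ha : aP A B P₀ = 0)
    (ho : ∀ P : Ideal (𝓞 K), P.IsMaximal → (p : 𝓞 K) ∈ P → P ≠ P₀ → ¬IsSquare (Ideal.absNorm P) →
      A ∉ P ∧ B ∉ P ∧ (Wc A B).Δ ∉ P ∧ aP A B P ≠ 0) :
    {P : Ideal (𝓞 K) | P.IsMaximal ∧ (Wc A B).Δ ∉ P ∧ aP A B P = 0}.Infinite := by
  classical
  intro fin
  have hP := parity_of univ unram
  have ne : ∀ {r : 𝓞 K}, r ∉ P₀ → r ≠ 0 := fun h e => h (e ▸ P₀.zero_mem)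
  have ne' : ∀ {r : 𝓞 K}, r ∉ P₀ → iK r ≠ 0 := fun h => (map_ne_zero_iff _ iK_inj).2 (ne h)
  obtain ⟨d, hd⟩ := degOne K _ _ hK
  obtain ⟨M, M1, M2, M3⟩ : ∃ M, d ≤ M ∧ 5 ≤ M ∧ ∀ (P : Ideal (𝓞 K)) (q : ℕ), P.IsMaximal →
      q.Prime → (q : 𝓞 K) ∈ P → M < q → A ∉ P ∧ B ∉ P ∧ (Wc A B).Δ ∉ P ∧ aP A B P ≠ 0 := by
    refine ⟨fin.toFinset.sup Ideal.absNorm + Ideal.absNorm (Ideal.span {A * B * (Wc A B).Δ}) + d
      + 5, by omega, by omega, fun P q h1 h2 h3 h4 => ?_⟩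
    have h5 : A * B * (Wc A B).Δ ∉ P := fun h => by
      have := le_norm h1 h2 h3 (Ideal.span_singleton_eq_bot.not.2
        (mul_ne_zero (mul_ne_zero (ne hA) (ne hB)) (ne hΔ))) ((Ideal.span_singleton_le_iff_mem P).2 h)
      omega
    have h6 : (Wc A B).Δ ∉ P := fun h => h5 (P.mul_mem_left _ h)
    refine ⟨fun h => h5 (P.mul_mem_right _ (P.mul_mem_right _ h)),
      fun h => h5 (P.mul_mem_right _ (P.mul_mem_left _ h)), h6, fun h => ?_⟩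
    have h7 := le_norm h1 h2 h3 (Ring.ne_bot_of_isMaximal_of_not_isField h1
      (RingOfIntegers.not_isField K)) le_rfl
    have h8 := Finset.le_sup (f := Ideal.absNorm) (fin.mem_toFinset.2 ⟨h1, h6, h⟩)
    omega
  obtain ⟨l, hl, l1, l8, res, nonres, seed⟩ := seed_odd hP (modSq_of univ fdComp fdUniq fdTri)
    (seedAlg_of (weber_of absDirichlet)) H hm pp hp hN hu hΔ hA hB hj ha M
  have := Fact.mk hl
  have l5 : 5 ≤ l := by omega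
  obtain ⟨-, Ψ, hΨ⟩ := univ l hl.ne_zero
  obtain ⟨a, Ψ₁, e1, e2⟩ := kron l Ψ hl l5 hΨ
  have S0 : (X ^ (2 * l + 2) * (X ^ l - X) : (ZMod l)[X]) ≠ 0 :=
    mul_ne_zero (pow_ne_zero _ X_ne_zero) (FiniteField.X_pow_card_sub_X_ne_zero _ hl.one_lt)
  obtain ⟨F, G, e3, sq⟩ := exists_sqfree (-Ψ₁) (by
    rintro e
    rw [neg_eq_zero.1 e, Polynomial.map_zero] at e2
    exact pow_ne_zero 2 S0 (neg_eq_zero.1 e2.symm))
  have e4 : (G ^ 2 * F).map (Int.castRingHom (ZMod l)) = (X ^ (2 * l + 2) * (X ^ l - X)) ^ 2 := by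
    rw [← e3, Polynomial.map_neg, e2, neg_neg]
  have e5 : Ψ = C (-(l : ℤ) ^ a) * (G ^ 2 * F) := by rw [← e3, e1, C_neg]; ring
  have F0 : F.map (Int.castRingHom (ZMod l)) ≠ 0 := fun e => pow_ne_zero 2 S0 (by
    rw [← e4, Polynomial.map_mul, e, mul_zero])
  have G0 : G ≠ 0 := fun e => pow_ne_zero 2 S0 (by rw [← e4, e]; simp)
  obtain ⟨R, Z, e6⟩ := square_mod hl S0 e4
  obtain ⟨D, D1, D2, D3, D4⟩ : ∃ D, F.natDegree ≤ 2 * D ∧ R.natDegree ≤ D ∧ Z.natDegree ≤ 2 * D ∧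
      G.natDegree ≤ D := ⟨F.natDegree + R.natDegree + Z.natDegree + G.natDegree, by omega, by omega,
    by omega, by omega⟩
  have a0 := ne' hA
  have b0 := ne' hB
  have b2 : iK (B ^ 2) ≠ 0 := by rw [map_pow]; exact pow_ne_zero 2 b0
  obtain ⟨x, hx⟩ := homog_az iK (A ^ 3) (B ^ 2) b2 F D1
  obtain ⟨y, hy⟩ := homog_az iK (A ^ 3) (B ^ 2) b2 R D2
  obtain ⟨z, hz⟩ := homog_az iK (A ^ 3) (B ^ 2) b2 Z D3
  obtain ⟨g, hg⟩ := homog_az iK (A ^ 3) (B ^ 2) b2 G D4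
  rw [map_pow iK A, map_pow iK B] at hx hy hz hg
  obtain ⟨O₀, q₀, n₀, c₀⟩ := exists_loc hm hΔ
  have gd := rd_good c₀.rd
  have e7 := hΨ.az gd a0 b0
  rw [e5, map_mul, map_mul, map_pow, eq_intCast, map_intCast] at e7
  simp only [Finset.prod_mul_distrib, Finset.prod_const] at e7
  set N := (subs (iK A) (iK B) l).card
  have eq : iK (((l : 𝓞 K) ^ a * B ^ (12 * N)) * x * g ^ 2)
      = iK (-((B ^ 2) ^ (4 * D) * ((l : 𝓞 K) ^ 6 * A ^ 12) ^ N))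
        * ∏ D ∈ subs (iK A) (iK B) l, dl D := by
    simp only [map_mul, map_pow, map_neg, map_natCast, hx, hg]
    push_cast at e7
    rw [div_pow, div_pow, ← mul_div_assoc, eq_div_iff (by positivity)] at e7
    linear_combination (-(iK B ^ 2) ^ (4 * D)) * e7
  have us : ∀ P : Ideal (𝓞 K), P.IsMaximal → jacobiSym (-(l : ℤ)) (Ideal.absNorm P) = -1 →
      A ∉ P → B ∉ P → (l : 𝓞 K) ^ a * B ^ (12 * N) ∉ P ∧
        -((B ^ 2) ^ (4 * D) * (l ^ 6 * A ^ 12) ^ N) ∉ P := by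
    intro P h1 h2 h3 h4
    have h5 : (l : 𝓞 K) ∉ P := fun h => jacobi_not_dvd hl h2 (dvd_of_mem h1 hl h P.absNorm_mem)
    have := h1.isPrime
    rw [Ideal.neg_mem_iff]
    exact ⟨P.primeCompl.mul_mem (P.primeCompl.pow_mem h5 _) (P.primeCompl.pow_mem h4 _),
      P.primeCompl.mul_mem (P.primeCompl.pow_mem (P.primeCompl.pow_mem h4 _) _)
        (P.primeCompl.pow_mem (P.primeCompl.mul_mem (P.primeCompl.pow_mem h5 _)
          (P.primeCompl.pow_mem h3 _)) _)⟩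
  obtain ⟨u1, u2⟩ := us P₀ hm (hN ▸ nonres) hA hB
  have n0 : (l ^ a * B ^ (12 * N)) * x * g ^ 2 ≠ 0 := fun e => mul_ne_zero (ne' u2)
    (Finset.prod_ne_zero_iff.2 (dl_ne_of_noCM H gd hl (by omega))) (by rw [← eq, e, map_zero])
  have g0 : g ≠ 0 := by rintro rfl; simp at n0
  have x0 : x ≠ 0 := by rintro rfl; simp at n0
  obtain ⟨P, p1, p2, p3, p4, p5⟩ := globalPar K l hl l8 x y z (iK_inj (by
      rw [map_add, map_mul, map_pow, hx, hy, hz, e6, map_add, map_mul, map_pow, eq_intCast,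
        map_intCast, map_natCast, Int.cast_natCast]
      ring)) (fun P h1 h2 h3 => by
      obtain ⟨k1, k2, k3, k4⟩ := M3 P l h1 hl h2 l1
      obtain ⟨O, q, n, c⟩ := exists_loc h1 k3
      obtain rfl := (Nat.prime_dvd_prime_iff_eq c.prime hl).1 (c.nat_mem.1 h2)
      have v := (c.lt x).2 h3
      rw [hx, map_mul, map_pow, map_pow, c.v_one k2, one_pow, one_pow, one_mul] at v
      have h4 := hd q P hl (by omega) h1 h2 (fun h => k2 (h1.isPrime.mem_of_pow_mem 2 h))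
        (c.rat_of_root k1 k2 e4 v)
      rw [c.norm, hl.pow_eq_iff] at h4
      exact k4 (c.at_l hP ssl l5 h4.2 k1 k2 hΨ (neg_ne_zero.2 (pow_ne_zero _
        (Nat.cast_ne_zero.2 hl.ne_zero))) e5 G0 F0 sq v))
    P₀ hm (by rw [hN, Nat.odd_iff]; omega) (hN ▸ nonres) (seed _ _ x g u1 u2 x0 g0 eq)
  obtain ⟨q, n, q1, q2, q3⟩ := exists_char p1
  obtain ⟨q5, k1, k2, k3, k4⟩ : 5 ≤ q ∧ A ∉ P ∧ B ∉ P ∧ (Wc A B).Δ ∉ P ∧ aP A B P ≠ 0 := by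
    by_cases h : q = p
    · subst h
      refine ⟨by have := pp.two_le; omega, ho P p1 q2 p2 ?_⟩
      rintro ⟨r, hr⟩
      rw [hr, ← _root_.sq, jacobiSym.pow_right] at p4
      linarith [sq_nonneg (jacobiSym (-(l : ℤ)) r)]
    rw [q3] at p3 p4
    obtain ⟨j1, j2⟩ := jacobi_pow p4
    have h1 : M < q := lt_of_not_ge fun h1 => by
      rw [res q q1 h1 (by
        rintro rfl
        exact absurd (Nat.odd_pow_iff j1.pos.ne' |>.1 p3) (by decide)) h] at j2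
      omega
    exact ⟨by omega, M3 P q p1 q1 q2 h1⟩
  obtain ⟨O, q', n', c⟩ := exists_loc p1 k3
  obtain rfl := (Nat.prime_dvd_prime_iff_eq c.prime q1).1 (c.nat_mem.1 q2)
  have := Fact.mk q1
  have := c.char
  obtain ⟨v1, v2⟩ := us P p1 p4 k1 k2
  exact k4 (c.odd_zero hP H q5 k1 k2 hl (by omega) p4 v1 v2 g0 eq p5)

end Pool.Agent.MP_c481b3_nt.H28
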