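import Pool.Agent.MP_c481b3_nt.H28.WkB
import Pool.Agent.MP_c481b3_nt.H28.Main

set_option autoImplicit false

namespace Pool.Agent.MP_c481b3_nt.H28

open Pool.Agent.MP_c481b3_nt.H81 Polynomial NumberField IsLocalRing

section
variable {L : Type} [Field L] {O : ValuationSubring L} {p : ℕ}

lemma res_charP (hp : p.Prime) (h : O.valuation (p : L) < 1) : CharP (ResidueField O) p :=
  have : Fact p.Prime := ⟨hp⟩
  (CharP.charP_iff_prime_eq_zero hp).2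
    ((Ev.nat (resPlc O) p).unique (Ev.of_lt (π := resPlc O) h))

lemma small_ne (κ : Type) [Field κ] [CharP κ p] (h5 : 5 ≤ p) : (2 : κ) ≠ 0 ∧ (3 : κ) ≠ 0 :=
  ⟨fun e => absurd (Nat.le_of_dvd two_pos ((CharP.cast_eq_zero_iff κ p 2).1 (by simpa using e)))
    (by omega), fun e => absurd (Nat.le_of_dvd three_pos
      ((CharP.cast_eq_zero_iff κ p 3).1 (by simpa using e))) (by omega)⟩

/-- the value is congruent to an invariant of the given level -/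
def Bad (O : ValuationSubring L) (l : ℕ) (s t : L) (i : ℕ) : Prop :=
  ∃ y, Rch (bs l s) i y ∧ O.valuation (t - JJ y) < 1

variable (hp : p.Prime) (h5 : 5 ≤ p) (hv : O.valuation (p : L) < 1) {l : ℕ} (hl : l = 1 ∨ l = 3)
  {s : L} (hs : s ^ 2 = -l)
include hp h5 hv hl hs

lemma rch_red : ∃ s' : ResidueField O, s' ^ 2 = -l ∧ Ev (resPlc O) s s' ∧ ∀ i y, Rch (bs l s) i y →
    ∃ y', Rch (bs l s') i y' ∧ Ev (resPlc O) (JJ y) (JJ y') := by
  have := res_charP hp hv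
  obtain ⟨h2, h3⟩ := small_ne (ResidueField O) h5
  have n := (Ev.nat (resPlc O) l).neg
  have e := Ev.of_mem (π := resPlc O) (mem_of_sq (hs ▸ n.mem))
  have e2 := (e.pow 2).unique (hs ▸ n)
  refine ⟨_, e2, e, fun i y hy => ?_⟩
  obtain ⟨y', a, b⟩ := (ev_bs l e h2).rch hy
  exact ⟨y', b, ev_jj a.sA a.sB (b.st (bs_spec hl e2 h2 h3).1).good⟩

variable [IsAlgClosed L]

lemma rho_val {t : L} {i : ℕ} (a : ¬Bad O l s t i) (b : ¬Bad O l s t (i + 1)) :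
    O.valuation (UU^[i + 1] (fun y => t - JJ y) (bs l s) /
      UU^[i] (fun y => t - JJ y) (bs l s) ^ 2) = 1 := by
  obtain ⟨s', -, -, h⟩ := rch_red hp h5 hv hl hs
  obtain ⟨c, c0, hc⟩ : ∃ c : L, O.valuation c ≠ 0 ∧ ∀ i, ¬Bad O l s t i → ∀ y, Rch (bs l s) i y →
      O.valuation ((t - JJ y) / c) = 1 := by
    by_cases ht : O.valuation t ≤ 1
    · refine ⟨1, by simp, fun i hi y hy => ?_⟩
      obtain ⟨y', -, e⟩ := h i y hy
      rw [div_one]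
      exact le_antisymm (Valuation.map_sub_le _ ht e.v_le) (not_lt.1 fun e => hi ⟨y, hy, e⟩)
    · have t0 := (zero_lt_one.trans (not_le.1 ht)).ne'
      refine ⟨t, t0, fun i hi y hy => ?_⟩
      obtain ⟨y', -, e⟩ := h i y hy
      rw [map_div₀, Valuation.map_sub_eq_of_lt_left O.valuation (e.v_le.trans_lt (not_le.1 ht)),
        div_self t0]
  have key : ∀ i, ¬Bad O l s t i →
      O.valuation (UU^[i] (fun y => t - JJ y) (bs l s)) = O.valuation c ^ 2 ^ i := fun i hi => by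
    have := UU_mem (MonoidHom.mker O.valuation.toMonoidWithZeroHom.toMonoidHom) i _ (hc i hi)
    rw [UU_div, UU_const] at this
    have e : O.valuation (_ / _) = 1 := this
    rwa [map_div₀, map_pow, div_eq_one_iff_eq (pow_ne_zero _ c0)] at e
  rw [map_div₀, map_pow, key _ a, key _ b, ← pow_mul, ← pow_succ, div_self (pow_ne_zero _ c0)]

variable [CharZero L] [Algebra.IsAlgebraic ℚ L] (sq : IsSquare (-(l : ZMod p)))
include sq

lemma bad_bound (t : L) : ∃ n, ∀ i, n ≤ i → ¬Bad O l s t i := by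
  classical
  by_cases h0 : ∃ j, Bad O l s t j
  swap
  · exact ⟨0, fun i _ e => h0 ⟨i, e⟩⟩
  obtain ⟨j, z, z1, z2⟩ := h0
  refine ⟨3 * j + 3, fun i hi ⟨y, y1, y2⟩ => ?_⟩
  have := res_charP hp hv
  have : Fact p.Prime := ⟨hp⟩
  have := resid_closed O
  obtain ⟨h2, h3⟩ := small_ne (ResidueField O) h5
  obtain ⟨s', e2, -, h⟩ := rch_red hp h5 hv hl hs
  obtain ⟨st, sp⟩ := bs_spec hl e2 h2 h3
  obtain ⟨y', a1, a2⟩ := h i y y1
  obtain ⟨z', b1, b2⟩ := h j z z1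
  have e : JJ y' = JJ z' := (((Ev.of_lt (π := resPlc O) y2).add a2).congr (sub_add_cancel _ _)
    (zero_add _)).unique (((Ev.of_lt (π := resPlc O) z2).add b2).congr (sub_add_cancel _ _)
      (zero_add _))
  obtain ⟨f, f1, T, t1, t2⟩ := a1.is h3 st
  obtain ⟨g, g1, -⟩ := b1.is h3 st
  have gy := (a1.st st).good
  have gz := (b1.st st).good
  obtain ⟨u, u1⟩ := is_iso h3 gy gz (jj_eq h3 gy gz e)
  refine absurd (level h3 p (res_alg O p) st.good gz (sp.imp (fun h => ⟨h.1, h.2.2⟩)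
    fun h => ⟨h.1, h.2.1⟩) sq (one_mul (2 ^ i) ▸ f1.comp h3 u1) g1 t1 fun e => ?_) (by omega)
  have := u1.ker (P := f T) e
  rw [one_nsmul, t2] at this
  exact ((a1.st st).rt.two gy).1 this

end

variable {K : Type} [Field K] [NumberField K]

omit [NumberField K] in
lemma exists_phi {L κ : Type} [Field L] [Field κ] (π : Plc L κ) (ψ : 𝓞 K →+* L)
    (h : ∀ r, ψ r ∈ π.O) : ∃ φ : 𝓞 K →+* κ, ∀ r, Ev π (ψ r) (φ r) :=
  ⟨π.ρ.comp (ψ.codRestrict π.O h), fun r => ⟨h r, π.ev_coe ⟨ψ r, h r⟩⟩⟩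

/-- the primes with the given Frobenius field -/
def Exc (A B : 𝓞 K) (l : ℕ) : Set (Ideal (𝓞 K)) := {P | P.IsMaximal ∧ (Wc A B).Δ ∉ P ∧
  ∃ t : ℤ, t ≠ 0 ∧ aP A B P ^ 2 - 4 * Ideal.absNorm P = -l * t ^ 2}

lemma bad_exc {A B : 𝓞 K} {P : Ideal (𝓞 K)} {O : ValuationSubring (AlgebraicClosure K)}
    (hP : P.IsMaximal) (c : Ctr P O) (hΔ : (Wc A B).Δ ∉ P) {p : ℕ} (hp : p.Prime) (h5 : 5 ≤ p)
    (hv : (p : 𝓞 K) ∈ P) {l : ℕ} (hl : l = 1 ∨ l = 3) {s : AlgebraicClosure K} (hs : s ^ 2 = -l)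
    (sq : IsSquare (-(l : ZMod p))) {i : ℕ} (h : Bad O l s (jj (iK A) (iK B)) i) :
    P ∈ Exc A B l := by
  classical
  have hv' : O.valuation (p : AlgebraicClosure K) < 1 := by simpa using (c.2 _).2 hv
  have := res_charP hp hv'
  have : Fact p.Prime := ⟨hp⟩
  have : Algebra.IsAlgebraic ℚ (AlgebraicClosure K) := Algebra.IsAlgebraic.trans ℚ K _
  obtain ⟨h2, h3⟩ := small_ne (ResidueField O) h5
  obtain ⟨s', e2, -, h'⟩ := rch_red hp h5 hv' hl hs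
  obtain ⟨st, sp⟩ := bs_spec hl e2 h2 h3
  obtain ⟨y, y1, y2⟩ := h
  obtain ⟨y', a1, a2⟩ := h' i y y1
  obtain ⟨φ, hφ⟩ := exists_phi (resPlc O) iK c.1
  obtain ⟨n, hG, hA, hB, n0, nm, tr⟩ := loc_hom p h3 φ hP (fun r => ⟨fun e =>
    (c.2 r).1 (e ▸ hφ r).v_lt, fun e => (hφ r).unique (Ev.of_lt ((c.2 r).2 e))⟩) hΔ
  have e : JJ y' = jj (φ A) (φ B) := (((Ev.of_lt (π := resPlc O) y2).add a2).congr
    (sub_add_cancel _ _) (zero_add _)).unique (ev_jj (hφ A) (hφ B) hG)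
  obtain ⟨f, f1, -⟩ := a1.is h3 st
  have gy := (a1.st st).good
  obtain ⟨u, u1⟩ := is_iso h3 gy hG (jj_eq h3 gy hG e)
  obtain ⟨t, t0, ht⟩ := frob_field h3 p (res_alg O p) st.good hG (sp.imp (fun h => ⟨h.1, h.2.2⟩)
    fun h => ⟨h.1, h.2.1⟩) sq (one_mul (2 ^ i) ▸ f1.comp h3 u1) n0 hA hB
  exact ⟨hP, hΔ, t, t0, by rw [← tr, nm, Nat.cast_pow, ht]⟩

theorem split_units {A B : 𝓞 K} (hΔ : (Wc A B).Δ ≠ 0) {l : ℕ} (hl : l = 1 ∨ l = 3)
    {s : AlgebraicClosure K} (hs : s ^ 2 = -l) (fin : (Exc A B l).Finite) :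
    ∃ n, ∀ i, n ≤ i → ∀ (P : Ideal (𝓞 K)) (p : ℕ), P.IsMaximal → p.Prime → 5 ≤ p →
      IsSquare (-(l : ZMod p)) → (p : 𝓞 K) ∈ P → ∃ O, Ctr P O ∧
        O.valuation (UU^[i + 1] (fun y => jj (iK A) (iK B) - JJ y) (bs l s) /
          UU^[i] (fun y => jj (iK A) (iK B) - JJ y) (bs l s) ^ 2) = 1 := by
  have : Algebra.IsAlgebraic ℚ (AlgebraicClosure K) := Algebra.IsAlgebraic.trans ℚ K _
  have inj : Function.Injective (iK (K := K)) :=
    (algebraMap K _).injective.comp RingOfIntegers.coe_injective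
  have f2 := fin.union (Ideal.finite_setOfPred_absNorm_le (S := 𝓞 K)
    (Ideal.absNorm (Ideal.span {(Wc A B).Δ})))
  obtain ⟨n, hn⟩ := Filter.eventually_atTop.1 ((Filter.eventually_all_finite f2
    (l := Filter.atTop) (p := fun P i => ∀ p : ℕ, P.IsMaximal → p.Prime → 5 ≤ p →
      IsSquare (-(l : ZMod p)) → (p : 𝓞 K) ∈ P → ∃ O, Ctr P O ∧ ∀ j, i ≤ j →
        ¬Bad O l s (jj (iK A) (iK B)) j)).2 fun P _ => by
    by_cases h : ∃ p : ℕ, P.IsMaximal ∧ p.Prime ∧ 5 ≤ p ∧ IsSquare (-(l : ZMod p)) ∧ (p : 𝓞 K) ∈ P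
    · obtain ⟨p, a1, a2, a3, a4, a5⟩ := h
      obtain ⟨O, c⟩ := exists_val iK inj P a1
      obtain ⟨n, hn⟩ := bad_bound a2 a3 (by simpa using (c.2 _).2 a5) hl hs a4 (jj (iK A) (iK B))
      exact Filter.eventually_atTop.2 ⟨n, fun i hi _ _ _ _ _ _ =>
        ⟨O, c, fun j hj => hn j (hi.trans hj)⟩⟩
    · exact Filter.Eventually.of_forall fun i p a1 a2 a3 a4 a5 => absurd ⟨p, a1, a2, a3, a4, a5⟩ h)
  refine ⟨n, fun i hi P p a1 a2 a3 a4 a5 => ?_⟩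
  obtain ⟨O, c, h⟩ : ∃ O, Ctr P O ∧ ∀ j, i ≤ j → ¬Bad O l s (jj (iK A) (iK B)) j := by
    refine (em _).elim (fun h => hn i hi P h p a1 a2 a3 a4 a5) fun h => ?_
    obtain ⟨O, c⟩ := exists_val iK inj P a1
    refine ⟨O, c, fun j _ e => h (Or.inl (bad_exc a1 c (fun d => h (Or.inr ?_)) a2 a3 a5 hl hs a4 e))⟩
    exact Nat.le_of_dvd (Nat.pos_of_ne_zero (by simpa using hΔ))
      (Ideal.absNorm_dvd_absNorm_of_le ((Ideal.span_singleton_le_iff_mem _).2 d))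
  exact ⟨O, c, rho_val a2 a3 (by simpa using (c.2 _).2 a5) hl hs (h i le_rfl) (h _ i.le_succ)⟩

end Pool.Agent.MP_c481b3_nt.H28
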