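import Pool.Agent.MP_c481b3_nt.H28.Spec5

set_option autoImplicit false

namespace Pool.Agent.MP_c481b3_nt.H28

namespace WqAux

variable {L : Type} [Field L] {O : ValuationSubring L} {q l : ℕ} {s : L}

lemma lt1 {a b : O.ValueGroup} (ha : a ≤ 1) (hb : b < 1) : a * b < 1 :=
  (mul_le_of_le_one_left' ha).trans_lt hb

lemma v_nat (O : ValuationSubring L) (a : ℕ) : O.valuation (a : L) ≤ 1 :=
  (O.valuation_le_one_iff _).2 (natCast_mem O a)

lemma v_int (O : ValuationSubring L) (a : ℤ) : O.valuation (a : L) ≤ 1 :=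
  (O.valuation_le_one_iff _).2 (intCast_mem O a)

lemma v_s (H : Inert O q l s) : O.valuation s ≤ 1 := by
  have h : O.valuation s ^ 2 ≤ 1 := by
    rw [← map_pow, H.sq, Valuation.map_neg]
    exact v_nat O l
  exact (pow_le_one_iff two_ne_zero).1 h

lemma v_lin (H : Inert O q l s) (a b : ℤ) : O.valuation ((a : L) + b * s) ≤ 1 :=
  Valuation.map_add_le _ (v_int O a) (by rw [map_mul]; exact mul_le_one' (v_int O b) (v_s H))

lemma dvd_of_lt (H : Inert O q l s) {a : ℤ} (h : O.valuation (a : L) < 1) : (q : ℤ) ∣ a := by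
  by_contra hn
  obtain ⟨u, w, huw⟩ := (Nat.prime_iff_prime_int.1 H.prime).irreducible.coprime_iff_not_dvd.2 hn
  have e : (1 : L) = u * q + w * a := by exact_mod_cast congrArg (Int.cast : ℤ → L) huw.symm
  have : O.valuation (1 : L) < 1 := by
    rw [e]
    refine Valuation.map_add_lt _ ?_ ?_ <;> rw [map_mul]
    · exact lt1 (v_int O u) H.lt
    · exact lt1 (v_int O w) h
  simp at this

lemma v_unit (H : Inert O q l s) {a : ℤ} (h : ¬(q : ℤ) ∣ a) : O.valuation (a : L) = 1 :=
  (v_int O a).eq_or_lt.resolve_right fun h' => h (dvd_of_lt H h')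

lemma v_two (H : Inert O q l s) : O.valuation (2 : L) = 1 := by
  have := v_unit H (a := 2) fun h => H.two
    ((Nat.prime_dvd_prime_iff_eq H.prime Nat.prime_two).1 (by exact_mod_cast h))
  simpa using this

lemma dvd_lin (H : Inert O q l s) {a b : ℤ} (h : O.valuation ((a : L) + b * s) < 1) :
    (q : ℤ) ∣ a ∧ (q : ℤ) ∣ b := by
  have := Fact.mk H.prime
  have e : ((a ^ 2 + l * b ^ 2 : ℤ) : L) = (a + b * s) * (a + (-b : ℤ) * s) := by
    push_cast
    linear_combination (b : L) ^ 2 * H.sq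
  have h1 : (q : ℤ) ∣ a ^ 2 + l * b ^ 2 := dvd_of_lt H (by
    rw [e, map_mul]
    exact mul_lt_one_of_lt_of_le h (v_lin H _ _))
  have h2 := (ZMod.intCast_zmod_eq_zero_iff_dvd _ q).2 h1
  push_cast at h2
  have hb : (b : ZMod q) = 0 := by
    by_contra hb
    refine H.non ⟨a / b, ?_⟩
    field_simp
    linear_combination -h2
  rw [hb] at h2
  exact ⟨(ZMod.intCast_zmod_eq_zero_iff_dvd _ q).1 (by simpa using h2),
    (ZMod.intCast_zmod_eq_zero_iff_dvd _ q).1 hb⟩

lemma split_le {x y : L} {c : O.ValueGroup} (h1 : O.valuation (x - y) ≤ c)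
    (h2 : O.valuation y ≤ c) : O.valuation x ≤ c := by
  have := Valuation.map_add_le _ h1 h2
  rwa [sub_add_cancel] at this

lemma trans_le {x y z : L} {c : O.ValueGroup} (h1 : O.valuation (x - y) ≤ c)
    (h2 : O.valuation (y - z) ≤ c) : O.valuation (x - z) ≤ c := by
  have := Valuation.map_add_le _ h1 h2
  rwa [sub_add_sub_cancel] at this

lemma w_le (H : Inert O q l s) {x : L} (h : InW O q s x) : O.valuation x ≤ 1 := by
  obtain ⟨a, b, h⟩ := h 0
  exact split_le (by simpa using h) (v_lin H a b)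

lemma w_lt (H : Inert O q l s) {x : L} (h : InW O q s x) (hx : O.valuation x < 1) :
    O.valuation x ≤ O.valuation (q : L) := by
  obtain ⟨a, b, h⟩ := h 1
  rw [pow_one] at h
  have h1 : O.valuation ((a : L) + b * s) < 1 := by
    have := Valuation.map_sub_lt _ hx (h.trans_lt H.lt)
    rwa [sub_sub_cancel] at this
  obtain ⟨⟨a', rfl⟩, ⟨b', rfl⟩⟩ := dvd_lin H h1
  refine split_le h ?_
  have e : (((q * a' : ℤ) : L) + (q * b' : ℤ) * s) = q * (a' + b' * s) := by push_cast; ring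
  rw [e, map_mul]
  exact mul_le_of_le_one_right' (v_lin H a' b')

lemma w_lin (a b : ℤ) : InW O q s (a + b * s) := fun _ => ⟨a, b, by simp⟩

/-- the ring of limits -/
def WW (H : Inert O q l s) : Subring L where
  carrier := {x | InW O q s x}
  zero_mem' := by simpa using w_lin (O := O) (q := q) (s := s) 0 0
  one_mem' := by simpa using w_lin (O := O) (q := q) (s := s) 1 0
  add_mem' {x y} hx hy m := by
    obtain ⟨a, b, h1⟩ := hx m
    obtain ⟨c, d, h2⟩ := hy m
    refine ⟨a + c, b + d, ?_⟩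
    have := Valuation.map_add_le _ h1 h2
    convert this using 2
    push_cast; ring
  neg_mem' {x} hx m := by
    obtain ⟨a, b, h1⟩ := hx m
    refine ⟨-a, -b, ?_⟩
    rw [← Valuation.map_neg] at h1
    convert h1 using 2
    push_cast; ring
  mul_mem' {x y} hx hy m := by
    obtain ⟨a, b, h1⟩ := hx m
    obtain ⟨c, d, h2⟩ := hy m
    refine ⟨a * c - l * b * d, a * d + b * c, ?_⟩
    have e : x * y - (((a * c - l * b * d : ℤ) : L) + (a * d + b * c : ℤ) * s) =
        x * (y - (c + d * s)) + (x - (a + b * s)) * (c + d * s) := by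
      push_cast
      linear_combination (b : L) * d * H.sq
    rw [e]
    refine Valuation.map_add_le _ ?_ ?_ <;> rw [map_mul]
    · exact mul_le_of_le_one_of_le (w_le H hx) h2
    · exact mul_le_of_le_of_le_one h1 (v_lin H c d)

lemma mem_WW (H : Inert O q l s) {x : L} : x ∈ WW H ↔ InW O q s x := Iff.rfl

lemma w_lim {x : L}
    (h : ∀ m : ℕ, ∃ y, InW O q s y ∧ O.valuation (x - y) ≤ O.valuation (q : L) ^ m) :
    InW O q s x := fun m => by
  obtain ⟨y, hy, h1⟩ := h m
  obtain ⟨a, b, h2⟩ := hy m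
  exact ⟨a, b, trans_le h1 h2⟩

lemma pow_sub_le {x y : L} (hx : O.valuation x ≤ 1) (hy : O.valuation y ≤ 1) (n : ℕ) :
    O.valuation (x ^ n - y ^ n) ≤ O.valuation (x - y) := by
  rw [← (Commute.all x y).mul_geom_sum₂, map_mul]
  refine mul_le_of_le_one_right' (Valuation.map_sum_le _ fun i _ => ?_)
  rw [map_mul, map_pow, map_pow]
  exact mul_le_one' (pow_le_one' hx _) (pow_le_one' hy _)

lemma pow_q (H : Inert O q l s) {y : L} (hy : O.valuation (y - 1) ≤ O.valuation (q : L)) (m : ℕ) :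
    O.valuation (y ^ q ^ m - 1) ≤ O.valuation (q : L) ^ (m + 1) := by
  induction m with
  | zero => simpa using hy
  | succ m ih =>
    set z := y ^ q ^ m with hz
    have h1 : O.valuation (z - 1) ≤ O.valuation (q : L) :=
      ih.trans (by rw [pow_succ]; exact mul_le_of_le_one_left' (pow_le_one' H.lt.le _))
    have h2 : O.valuation z ≤ 1 := split_le (h1.trans H.lt.le) (by simp)
    rw [pow_succ, pow_mul, ← hz, ← mul_geom_sum, map_mul, pow_succ]
    refine mul_le_mul' ih (split_le (y := (q : L)) ?_ le_rfl)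
    have e : (∑ i ∈ Finset.range q, z ^ i) - q = ∑ i ∈ Finset.range q, (z ^ i - 1 ^ i) := by
      simp [Finset.sum_sub_distrib]
    rw [e]
    exact Valuation.map_sum_le _ fun i _ => (pow_sub_le h2 (by simp) i).trans h1

open IsLocalRing in
lemma res_eq {x y : O} : residue O x = residue O y ↔ O.valuation ((x : L) - y) < 1 := by
  rw [← sub_eq_zero, ← map_sub, residue_eq_zero_iff, O.valuation_lt_one_iff]
  rfl

open IsLocalRing in
lemma res_char (H : Inert O q l s) : CharP (ResidueField O) q := by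
  rw [CharP.charP_iff_prime_eq_zero H.prime]
  have := (res_eq (O := O) (x := (q : O)) (y := 0)).2 (by simpa using H.lt)
  rwa [map_natCast, map_zero] at this

lemma s_mem (H : Inert O q l s) : s ∈ O := (O.valuation_le_one_iff _).1 (v_s H)

open IsLocalRing in
lemma res_frob (H : Inert O q l s) (a b : ℤ) :
    ((a : ResidueField O) + b * residue O ⟨s, s_mem H⟩) ^ q ^ 2 =
      a + b * residue O ⟨s, s_mem H⟩ := by
  have := Fact.mk H.prime
  have := res_char H
  have hi : ∀ c : ℤ, (c : ResidueField O) ^ q ^ 2 = c := fun c => by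
    have := map_intCast (iterateFrobenius (ResidueField O) q 2) c
    rwa [iterateFrobenius_def] at this
  have h1 : (residue O ⟨s, s_mem H⟩) ^ 2 = ((-l : ℤ) : ResidueField O) := by
    rw [← map_pow, ← map_intCast (residue O)]
    congr 1
    ext
    simpa using H.sq
  have h2 : ((-l : ℤ) : ResidueField O) ^ (q - 1) = 1 := by
    have h0 : ((-l : ℤ) : ZMod q) ≠ 0 := fun h => H.non (by
      have : (-(l : ZMod q)) = 0 := by simpa using h
      rw [this]; exact IsSquare.zero)
    have := congrArg (ZMod.castHom (dvd_refl q) (ResidueField O)) (ZMod.pow_card_sub_one_eq_one h0)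
    rwa [map_pow, map_intCast, map_one] at this
  obtain ⟨k, hk⟩ := H.prime.odd_of_ne_two H.two
  have e : q ^ 2 = 2 * ((q - 1) * (k + 1)) + 1 := by
    rw [show q - 1 = 2 * k by omega, hk]; ring
  rw [add_pow_char_pow, mul_pow, hi, hi, e, pow_succ, pow_mul, h1, pow_mul, h2, one_pow, one_mul]

lemma lin_frob (H : Inert O q l s) (a b : ℤ) :
    O.valuation (((a : L) + b * s) ^ q ^ 2 - (a + b * s)) < 1 := by
  have := (res_eq (x := ((a : O) + (b : O) * (⟨s, s_mem H⟩ : O)) ^ q ^ 2)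
    (y := (a : O) + (b : O) * (⟨s, s_mem H⟩ : O))).1 (by simpa using res_frob H a b)
  simpa using this

lemma w_frob (H : Inert O q l s) {x : L} (h : InW O q s x) (hx : O.valuation x = 1) :
    O.valuation (x ^ (q ^ 2 - 1) - 1) ≤ O.valuation (q : L) := by
  refine w_lt H ((WW H).sub_mem ((WW H).pow_mem h _) (WW H).one_mem) ?_
  obtain ⟨a, b, h1⟩ := h 1
  rw [pow_one] at h1
  have h2 := h1.trans_lt H.lt
  have h3 := (pow_sub_le hx.le (v_lin H a b) (q ^ 2)).trans_lt h2
  have h4 := Valuation.map_sub_lt _ (Valuation.map_add_lt _ h3 (lin_frob H a b)) h2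
  have e : x ^ q ^ 2 - (a + b * s) ^ q ^ 2 + ((a + b * s) ^ q ^ 2 - (a + b * s)) -
      (x - (a + b * s)) = x * (x ^ (q ^ 2 - 1) - 1) := by
    rw [mul_sub, ← pow_succ', Nat.sub_add_cancel (Nat.one_le_pow _ _ H.prime.pos)]
    ring
  rwa [e, map_mul, hx, one_mul] at h4

lemma w_pow (H : Inert O q l s) {x : L} (h : InW O q s x) (hx : O.valuation x = 1) (m : ℕ) :
    O.valuation ((x ^ (q ^ 2 - 1)) ^ q ^ m - 1) ≤ O.valuation (q : L) ^ m :=
  (pow_q H (w_frob H h hx) m).trans (by rw [pow_succ]; exact mul_le_of_le_one_right' H.lt.le)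

lemma exp_pos (H : Inert O q l s) (m : ℕ) : 0 < (q ^ 2 - 1) * q ^ m :=
  Nat.mul_pos (Nat.sub_pos_of_lt (Nat.one_lt_pow two_ne_zero H.prime.one_lt))
    (Nat.pow_pos H.prime.pos)

lemma w_inv (H : Inert O q l s) {x : L} (h : InW O q s x) (hx : O.valuation x = 1) :
    InW O q s x⁻¹ := by
  refine w_lim fun m => ⟨x ^ ((q ^ 2 - 1) * q ^ m - 1), (WW H).pow_mem h _, ?_⟩
  have h0 : x ≠ 0 := by rintro rfl; simp at hx
  have e : x⁻¹ - x ^ ((q ^ 2 - 1) * q ^ m - 1) = -(x⁻¹ * ((x ^ (q ^ 2 - 1)) ^ q ^ m - 1)) := by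
    rw [← pow_mul]
    obtain ⟨k, hk⟩ := Nat.exists_eq_succ_of_ne_zero (exp_pos H m).ne'
    rw [hk, Nat.succ_sub_one, pow_succ]
    field_simp
    ring
  rw [e, Valuation.map_neg, map_mul, map_inv₀, hx, inv_one, one_mul]
  exact w_pow H h hx m

lemma w_div [CharZero L] (H : Inert O q l s) (d : ℕ) (hd : 0 < d) (a b : ℤ)
    (h : O.valuation (((a : L) + b * s) / d) ≤ 1) : InW O q s (((a : L) + b * s) / d) := by
  induction d using Nat.strong_induction_on generalizing a b with
  | _ d ih =>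
    by_cases hq : q ∣ d
    · obtain ⟨d', rfl⟩ := hq
      have hd' : 0 < d' := Nat.pos_of_mul_pos_left hd
      have q0 : (q : L) ≠ 0 := Nat.cast_ne_zero.2 H.prime.ne_zero
      have d0 : (d' : L) ≠ 0 := Nat.cast_ne_zero.2 hd'.ne'
      have h1 : O.valuation ((a : L) + b * s) < 1 := by
        have e : (a : L) + b * s = (a + b * s) / (q * d' : ℕ) * d' * q := by
          push_cast; field_simp
        rw [e, map_mul, map_mul]
        exact lt1 (mul_le_one' h (v_nat O d')) H.lt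
      obtain ⟨⟨a', rfl⟩, ⟨b', rfl⟩⟩ := dvd_lin H h1
      have e : (((q * a' : ℤ) : L) + (q * b' : ℤ) * s) / (q * d' : ℕ) = (a' + b' * s) / d' := by
        push_cast; field_simp
      rw [e] at h ⊢
      exact ih d' (lt_mul_of_one_lt_left hd' H.prime.one_lt) hd' a' b' h
    · have h1 := v_unit H (a := d) (by exact_mod_cast hq)
      rw [Int.cast_natCast] at h1
      rw [div_eq_mul_inv]
      exact (WW H).mul_mem (w_lin a b) (w_inv H (natCast_mem (WW H) d) h1)

lemma w_rat [CharZero L] (H : Inert O q l s) (a b : ℚ) (h : (a : L) + b * s ∈ O) :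
    InW O q s (a + b * s) := by
  have e : (a : L) + b * s =
      (((a.num * b.den : ℤ) : L) + (b.num * a.den : ℤ) * s) / (a.den * b.den : ℕ) := by
    have h1 : (a.den : L) ≠ 0 := Nat.cast_ne_zero.2 a.den_ne_zero
    have h2 : (b.den : L) ≠ 0 := Nat.cast_ne_zero.2 b.den_ne_zero
    rw [Rat.cast_def, Rat.cast_def]
    push_cast
    field_simp
  rw [e] at h ⊢
  exact w_div H _ (Nat.mul_pos a.den_pos b.den_pos) _ _ ((O.valuation_le_one_iff _).2 h)

open IsLocalRing Polynomial in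
lemma exists_res (H : Inert O q l s) {r : L} (hr : O.valuation r ≤ 1)
    (h : O.valuation (r ^ q ^ 2 - r) < 1) : ∃ a b : ℤ, O.valuation (r - (a + b * s)) < 1 := by
  classical
  have hrO : r ∈ O := (O.valuation_le_one_iff _).1 hr
  let f : Fin q × Fin q → ResidueField O := fun p =>
    ((p.1 : ℤ) : ResidueField O) + (p.2 : ℤ) * residue O ⟨s, s_mem H⟩
  have hf : ∀ p, f p = residue O (((p.1 : ℤ) : O) + (p.2 : ℤ) * ⟨s, s_mem H⟩) := fun p => by
    simp only [f, map_add, map_mul, map_intCast]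
  have hinj : Function.Injective f := by
    intro p p' hp
    rw [hf, hf, res_eq] at hp
    have h1 := dvd_lin H (a := (p.1 : ℤ) - p'.1) (b := (p.2 : ℤ) - p'.2) (by
      convert hp using 2
      push_cast; ring)
    have h2 : ∀ i j : Fin q, (q : ℤ) ∣ (i : ℤ) - j → i = j := fun i j hij => by
      have := Int.eq_zero_of_abs_lt_dvd hij (by
        have := i.2; have := j.2; rw [abs_lt]; constructor <;> omega)
      exact Fin.ext (by omega)
    exact Prod.ext (h2 _ _ h1.1) (h2 _ _ h1.2)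
  have hq : 1 < q ^ 2 := Nat.one_lt_pow two_ne_zero H.prime.one_lt
  have hne := FiniteField.X_pow_card_sub_X_ne_zero (ResidueField O) hq
  have hroot : ∀ z : ResidueField O, z ^ q ^ 2 = z →
      z ∈ (X ^ q ^ 2 - X : (ResidueField O)[X]).roots.toFinset := fun z hz => by
    rw [Multiset.mem_toFinset, mem_roots hne]
    simp [hz]
  have heq : Finset.univ.image f = (X ^ q ^ 2 - X : (ResidueField O)[X]).roots.toFinset := by
    refine Finset.eq_of_subset_of_card_le (fun z hz => ?_) ?_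
    · obtain ⟨p, -, rfl⟩ := Finset.mem_image.1 hz
      exact hroot _ (res_frob H _ _)
    · rw [Finset.card_image_of_injective _ hinj]
      refine (Multiset.toFinset_card_le _).trans ((card_roots' _).trans ?_)
      rw [FiniteField.X_pow_card_sub_X_natDegree_eq _ hq]
      simp [sq]
  have h1 := hroot (residue O ⟨r, hrO⟩) (by
    rw [← map_pow, res_eq]
    simpa using h)
  rw [← heq] at h1
  obtain ⟨p, -, hp⟩ := Finset.mem_image.1 h1
  rw [hf, eq_comm, res_eq] at hp
  exact ⟨p.1, p.2, by simpa using hp⟩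

lemma v_near {r b : L} (hr : O.valuation r = 1) (h : O.valuation (r - b) < 1) :
    O.valuation b = 1 := by
  have := Valuation.map_sub_eq_of_lt_left O.valuation (x := r) (y := r - b) (by rwa [hr])
  rwa [sub_sub_cancel, hr] at this

lemma w_hensel (H : Inert O q l s) {r : L} (h : InW O q s (r ^ 2)) (hr : O.valuation r = 1)
    (hf : O.valuation (r ^ q ^ 2 - r) < 1) : InW O q s r := by
  have key : ∀ m : ℕ, ∃ y, InW O q s y ∧ O.valuation (r - y) ≤ O.valuation (q : L) ^ (m + 1) := by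
    intro m
    induction m with
    | zero =>
      obtain ⟨a, b, h1⟩ := exists_res H hr.le hf
      refine ⟨_, w_lin a b, ?_⟩
      have h2 : O.valuation (r + (a + b * s)) = 1 := v_near (r := 2 * r)
        (by rw [map_mul, v_two H, hr, one_mul]) (by convert h1 using 2; ring)
      have h3 : O.valuation (r ^ 2 - (a + b * s) ^ 2) = O.valuation (r - (a + b * s)) := by
        rw [sq_sub_sq, map_mul, h2, one_mul]
      rw [← h3, zero_add, pow_one]
      exact w_lt H ((WW H).sub_mem h ((WW H).pow_mem (w_lin a b) 2)) (by rwa [h3])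
    | succ m ih =>
      obtain ⟨y, hy, h1⟩ := ih
      have h2 : O.valuation (r - y) ≤ O.valuation (q : L) :=
        h1.trans (by rw [pow_succ]; exact mul_le_of_le_one_left' (pow_le_one' H.lt.le _))
      have h3 : O.valuation (2 * y) = 1 := by
        rw [map_mul, v_two H, v_near hr (h2.trans_lt H.lt), one_mul]
      have h4 : 2 * y ≠ 0 := by rintro h0; simp [h0] at h3
      refine ⟨y + (r ^ 2 - y ^ 2) * (2 * y)⁻¹, (WW H).add_mem hy ((WW H).mul_mem
        ((WW H).sub_mem h ((WW H).pow_mem hy 2))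
        (w_inv H ((WW H).mul_mem (ofNat_mem (WW H) 2) hy) h3)), ?_⟩
      have e : r - (y + (r ^ 2 - y ^ 2) * (2 * y)⁻¹) = -((r - y) * (r - y) * (2 * y)⁻¹) := by
        have := left_ne_zero_of_mul h4
        have := right_ne_zero_of_mul h4
        field_simp
        ring
      rw [e, Valuation.map_neg, map_mul, map_mul, map_inv₀, h3, inv_one, mul_one, pow_succ]
      exact mul_le_mul' h1 h2
  refine w_lim fun m => ?_
  obtain ⟨y, hy, h1⟩ := key m
  exact ⟨y, hy, h1.trans (by rw [pow_succ]; exact mul_le_of_le_one_right' H.lt.le)⟩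

/-! The period argument. -/

/-- the ideal of elements of valuation at most `c` -/
def II (O : ValuationSubring L) (c : O.ValueGroup) : Ideal O where
  carrier := {x | O.valuation (x : L) ≤ c}
  zero_mem' := by simp
  add_mem' {x y} hx hy := Valuation.map_add_le O.valuation (x := x) (y := y) hx hy
  smul_mem' a x hx := by
    change O.valuation ((a : L) * x) ≤ c
    rw [map_mul]
    exact mul_le_of_le_one_of_le (O.valuation_le_one a) hx

open Classical in
/-- reduction -/
noncomputable def rho (O : ValuationSubring L) (c : O.ValueGroup) (x : L) : O ⧸ II O c :=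
  if h : x ∈ O then Ideal.Quotient.mk _ ⟨x, h⟩ else 0

lemma rho_eq {c : O.ValueGroup} {x y : L} (hx : O.valuation x ≤ 1) (hy : O.valuation y ≤ 1) :
    rho O c x = rho O c y ↔ O.valuation (x - y) ≤ c := by
  rw [O.valuation_le_one_iff] at hx hy
  rw [rho, rho, dif_pos hx, dif_pos hy, Ideal.Quotient.eq]
  rfl

lemma rho_mul {c : O.ValueGroup} {x y : L} (hx : O.valuation x ≤ 1) (hy : O.valuation y ≤ 1) :
    rho O c (x * y) = rho O c x * rho O c y := by
  rw [O.valuation_le_one_iff] at hx hy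
  rw [rho, rho, rho, dif_pos hx, dif_pos hy, dif_pos (mul_mem hx hy), ← map_mul]
  rfl

lemma rho_one {c : O.ValueGroup} : rho O c 1 = 1 := by
  rw [rho, dif_pos O.one_mem]
  rfl

lemma rho_pow {c : O.ValueGroup} {x : L} (hx : O.valuation x ≤ 1) (n : ℕ) :
    rho O c (x ^ n) = rho O c x ^ n := by
  induction n with
  | zero => simpa using rho_one
  | succ n ih => rw [pow_succ, rho_mul (by rw [map_pow]; exact pow_le_one' hx n) hx, ih, pow_succ]

lemma rho_finite (H : Inert O q l s) (m : ℕ) :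
    (rho O (O.valuation (q : L) ^ m) '' {x | InW O q s x}).Finite := by
  have hQ : (0 : ℤ) < (q : ℤ) ^ m := pow_pos (by exact_mod_cast H.prime.pos) m
  refine ((((Set.finite_Ico (0 : ℤ) ((q : ℤ) ^ m)).prod (Set.finite_Ico (0 : ℤ) ((q : ℤ) ^ m))).image
    fun p => rho O (O.valuation (q : L) ^ m) (p.1 + p.2 * s))).subset ?_
  rintro _ ⟨x, hx, rfl⟩
  obtain ⟨a, b, h⟩ := hx m
  refine ⟨(a % q ^ m, b % q ^ m), ⟨⟨Int.emod_nonneg _ hQ.ne', Int.emod_lt_of_pos _ hQ⟩,
    ⟨Int.emod_nonneg _ hQ.ne', Int.emod_lt_of_pos _ hQ⟩⟩, ?_⟩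
  rw [eq_comm, rho_eq (w_le H hx) (v_lin H _ _)]
  refine trans_le h ?_
  have e : (a : L) + b * s - (((a % q ^ m : ℤ) : L) + (b % q ^ m : ℤ) * s) =
      q ^ m * (((a / q ^ m : ℤ) : L) + (b / q ^ m : ℤ) * s) := by
    rw [Int.emod_def, Int.emod_def]
    push_cast
    ring
  rw [e, map_mul, map_pow]
  exact mul_le_of_le_one_right' (v_lin H _ _)

lemma finite_fun {X Y Z : Type} (cls : X → Y) (hc : (Set.range cls).Finite) {T : Set Z}
    (hT : T.Finite) :
    {G : X → Z | (∀ x, G x ∈ T) ∧ ∀ x y, cls x = cls y → G x = G y}.Finite := by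
  have := hc.to_subtype
  have := hT.to_subtype
  refine (Set.finite_range fun (K : Set.range cls → T) (x : X) =>
    (K ⟨cls x, x, rfl⟩ : Z)).subset ?_
  rintro G ⟨h1, h2⟩
  exact ⟨fun y => ⟨G y.2.choose, h1 _⟩, funext fun x =>
    h2 _ _ (⟨x, rfl⟩ : cls x ∈ Set.range cls).choose_spec⟩

lemma exists_period {X : Type} {F : Set X} (hF : F.Finite) {U : X → X} (h1 : Set.MapsTo U F F)
    (h2 : Set.InjOn U F) {G : X} (hG : G ∈ F) (n : ℕ) : ∃ i, n ≤ i ∧ U^[i] G = G := by
  have := hF.to_subtype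
  obtain ⟨N, hN, h⟩ := (h1.restrict_inj.2 h2).mem_periodicPts ⟨G, hG⟩
  refine ⟨N * n, Nat.le_mul_of_pos_left n hN, ?_⟩
  have := congrArg Subtype.val (h.mul_const n).eq
  rwa [Set.MapsTo.coe_iterate_restrict] at this

lemma root_near (H : Inert O q l s) {r r' : L} {c : O.ValueGroup} (hr : O.valuation r = 1)
    (hr' : O.valuation r' = 1) (h : O.valuation (r ^ 2 - r' ^ 2) ≤ c) :
    O.valuation (r - r') ≤ c ∨ O.valuation (r + r') ≤ c := by
  rw [sq_sub_sq, map_mul] at h
  rcases (Valuation.map_sub_le _ hr.le hr'.le).eq_or_lt with h1 | h1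
  · rw [h1, mul_one] at h
    exact Or.inr h
  · have h2 : O.valuation (r + r') = 1 := v_near (r := 2 * r)
      (by rw [map_mul, v_two H, hr, one_mul]) (by convert h1 using 2; ring)
    rw [h2, one_mul] at h
    exact Or.inl h

lemma wr_back {x y : L × L × L} (h : Wr x y) (h0 : x.1 + x.2.1 + x.2.2 = 0) :
    Wr y (4 * x.1, 4 * x.2.1, 4 * x.2.2) := by
  obtain ⟨r, hr, rfl⟩ := h
  refine ⟨x.2.1 - x.2.2, ?_, ?_⟩
  · linear_combination 4 * hr - (5 * x.1 - x.2.1 - x.2.2) * h0
  · refine Prod.ext ?_ (Prod.ext ?_ ?_)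
    · ring
    · linear_combination 2 * h0
    · linear_combination 2 * h0

lemma wr_sw {x y : L × L × L} (h : Wr (sw x) y) : Wr x y := by
  obtain ⟨r, hr, rfl⟩ := h
  exact ⟨r, by rw [hr, sw, mul_comm], rfl⟩

end WqAux

open WqAux

theorem wSpec : WSpec := fun _ _ _ O _ _ _ H =>
  ⟨⟨WW H, fun _ => Iff.rfl⟩, fun _ hx => (O.valuation_le_one_iff _).1 (w_le H hx),
    fun _ => w_inv H, w_rat H, fun _ => w_lim, fun _ => w_hensel H⟩

theorem period : Period := by
  intro L _ _ _ O q l s H S hS hsw hrt hwr g hg hgsw hgc x0 hx0 ⟨n, hn⟩ m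
  set c := O.valuation (q : L) ^ m with hc
  let ρ := rho O c
  let T := ρ '' {x | InW O q s x}
  have hT : T.Finite := rho_finite H m
  let cls : S → _ := fun x => (ρ x.1.1, ρ x.1.2.1, ρ x.1.2.2)
  have hcls : (Set.range cls).Finite := (hT.prod (hT.prod hT)).subset (by
    rintro _ ⟨x, rfl⟩
    exact ⟨⟨_, (hS _ x.2).1, rfl⟩, ⟨_, (hS _ x.2).2.1, rfl⟩, ⟨_, (hS _ x.2).2.2.1, rfl⟩⟩)
  have clsiff : ∀ x y : S, cls x = cls y ↔ O.valuation (x.1.1 - y.1.1) ≤ c ∧
      O.valuation (x.1.2.1 - y.1.2.1) ≤ c ∧ O.valuation (x.1.2.2 - y.1.2.2) ≤ c := fun x y => by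
    simp only [cls, Prod.mk.injEq, ρ]
    rw [rho_eq (w_le H (hS _ x.2).1) (w_le H (hS _ y.2).1),
      rho_eq (w_le H (hS _ x.2).2.1) (w_le H (hS _ y.2).2.1),
      rho_eq (w_le H (hS _ x.2).2.2.1) (w_le H (hS _ y.2).2.2.1)]
  let swS : S → S := fun x => ⟨sw x, hsw _ x.2⟩
  let rtS : S → S := fun x => ⟨rt x, hrt _ x.2⟩
  let wS : S → S := fun x => ⟨wq x, hwr _ x.2 _ (wr_wq _)⟩
  let F : Set (S → O ⧸ II O c) := {G | ((∀ x, G x ∈ T) ∧ ∀ x y, cls x = cls y → G x = G y) ∧
    (∀ x, G (swS x) = G x) ∧ ∀ x, G x ^ q ^ m = 1}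
  have hF : F.Finite := (finite_fun cls hcls hT).subset fun G hG => hG.1
  have key : ∀ G ∈ F, ∀ x x' y y' : S, cls x = cls x' → Wr x.1 y.1 → Wr x'.1 y'.1 →
      G y = G y' := by
    rintro G hG x x' y y' hxx ⟨r, hr, hy⟩ ⟨r', hr', hy'⟩
    obtain ⟨c1, c2, c3⟩ := (clsiff _ _).1 hxx
    have u : ∀ (z : S) (t : L), t ^ 2 = (z.1.1 - z.1.2.1) * (z.1.1 - z.1.2.2) →
        O.valuation t = 1 := fun z t ht => by
      have := (hS _ z.2).2.2.2.2
      rw [← ht, map_pow] at this
      exact (pow_eq_one_iff.1 this).resolve_right two_ne_zero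
    have h2 : ∀ t, O.valuation t ≤ c → O.valuation (2 * t) ≤ c := fun t ht => by
      rwa [map_mul, v_two H, one_mul]
    have hd : O.valuation (r ^ 2 - r' ^ 2) ≤ c := by
      have e : r ^ 2 - r' ^ 2 = (x.1.1 - x.1.2.1) * ((x.1.1 - x'.1.1) - (x.1.2.2 - x'.1.2.2)) +
          ((x.1.1 - x'.1.1) - (x.1.2.1 - x'.1.2.1)) * (x'.1.1 - x'.1.2.2) := by
        rw [hr, hr']; ring
      rw [e]
      refine Valuation.map_add_le _ ?_ ?_ <;> rw [map_mul]
      · exact mul_le_of_le_one_of_le (Valuation.map_sub_le _ (w_le H (hS _ x.2).1)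
          (w_le H (hS _ x.2).2.1)) (Valuation.map_sub_le _ c1 c3)
      · exact mul_le_of_le_of_le_one (Valuation.map_sub_le _ c1 c2)
          (Valuation.map_sub_le _ (w_le H (hS _ x'.2).1) (w_le H (hS _ x'.2).2.2.1))
    have d1 : O.valuation (-2 * x.1.1 - -2 * x'.1.1) ≤ c := by
      rw [← Valuation.map_neg]
      convert h2 _ c1 using 2
      ring
    rcases root_near H (u x r hr) (u x' r' hr') hd with h | h
    · refine hG.1.2 _ _ ((clsiff _ _).2 ?_)
      rw [hy, hy']
      refine ⟨d1, ?_, ?_⟩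
      · convert Valuation.map_add_le _ c1 (h2 _ h) using 2
        ring
      · convert Valuation.map_sub_le _ c1 (h2 _ h) using 2
        ring
    · rw [← hG.2.1 y']
      refine hG.1.2 _ _ ((clsiff _ _).2 ?_)
      simp only [swS, sw]
      rw [hy, hy']
      refine ⟨d1, ?_, ?_⟩
      · convert Valuation.map_add_le _ c1 (h2 _ h) using 2
        ring
      · convert Valuation.map_sub_le _ c1 (h2 _ h) using 2
        ring
  let A : (S → O ⧸ II O c) → S → O ⧸ II O c := fun G x => G (wS x)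
  let B : (S → O ⧸ II O c) → S → O ⧸ II O c := fun G x => G (rtS x) * G (rtS (swS x))
  have hA : Set.MapsTo A F F := fun G hG =>
    ⟨⟨fun x => hG.1.1 _, fun x y h => key G hG x y _ _ h (wr_wq _) (wr_wq _)⟩,
      fun x => key G hG x x _ _ rfl (wr_sw (wr_wq _)) (wr_wq _), fun x => hG.2.2 _⟩
  have hB : Set.MapsTo B F F := by
    refine fun G hG => ⟨⟨fun x => ?_, fun x y h => ?_⟩, fun x => mul_comm _ _, fun x => ?_⟩
    · obtain ⟨a, ha, ea⟩ := hG.1.1 (rtS x)
      obtain ⟨b, hb, eb⟩ := hG.1.1 (rtS (swS x))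
      exact ⟨a * b, (WW H).mul_mem ha hb, by
        simp only [B, ← ea, ← eb]; exact rho_mul (w_le H ha) (w_le H hb)⟩
    · obtain ⟨c1, c2, c3⟩ := (clsiff _ _).1 h
      simp only [B]
      rw [hG.1.2 (rtS x) (rtS y) ((clsiff _ _).2 ⟨c2, c1, c3⟩),
        hG.1.2 (rtS (swS x)) (rtS (swS y)) ((clsiff _ _).2 ⟨c3, c1, c2⟩)]
    · simp only [B, mul_pow, hG.2.2, one_mul]
  have iB : Set.InjOn B F := by
    have e : ∀ G ∈ F, ∀ x, B (B G) x = G x ^ 2 * B G x := fun G hG x => by
      have e1 : G (rtS (swS (rtS x))) = G (rtS (swS x)) := hG.2.1 (rtS (swS x))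
      have e2 : G (rtS (swS (rtS (swS x)))) = G (rtS x) := hG.2.1 (rtS x)
      have e3 : G (rtS (rtS (swS x))) = G x := hG.2.1 x
      have e4 : G (rtS (rtS x)) = G x := rfl
      simp only [B]
      rw [e1, e2, e3, e4]
      ring
    obtain ⟨k, hk⟩ := (H.prime.odd_of_ne_two H.two).pow (n := m)
    intro G hG G' hG' h
    funext x
    have h1 := e G hG x
    rw [h, e G' hG'] at h1
    have h2 := (IsUnit.of_pow_eq_one ((hB hG').2.2 x) (pow_pos H.prime.pos m).ne').mul_right_cancel h1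
    have e2 : ∀ a : O ⧸ II O c, a ^ q ^ m = 1 → a = (a ^ 2) ^ (k + 1) := fun a ha => by
      rw [← pow_mul, show 2 * (k + 1) = q ^ m + 1 by omega, pow_succ, ha, one_mul]
    rw [e2 _ (hG.2.2 x), e2 _ (hG'.2.2 x), h2]
  have iA : Set.InjOn A F := by
    let fo : S → S := fun x => ⟨(4 * x.1.1, 4 * x.1.2.1, 4 * x.1.2.2),
      hwr _ (wS x).2 _ (wr_back (wr_wq _) (hS _ x.2).2.2.2.1)⟩
    have e : ∀ G ∈ F, ∀ x, G (fo x) = A G (wS x) := fun G hG x =>
      key G hG (wS x) (wS x) _ _ rfl (wr_back (wr_wq _) (hS _ x.2).2.2.2.1) (wr_wq _)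
    have e1 : ∀ N x, (fo^[N] x).1 = (4 ^ N * x.1.1, 4 ^ N * x.1.2.1, 4 ^ N * x.1.2.2) := by
      intro N x
      induction N with
      | zero => simp
      | succ N ih => simp only [Function.iterate_succ_apply', fo, ih, pow_succ', mul_assoc]
    have h4 : O.valuation (4 : L) = 1 := by
      rw [show (4 : L) = 2 * 2 by norm_num, map_mul, v_two H, one_mul]
    have e2 : ∀ x, cls (fo^[(q ^ 2 - 1) * q ^ m] x) = cls x := fun x => by
      have := w_pow H (ofNat_mem (WW H) 4) h4 m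
      rw [← pow_mul] at this
      have u : ∀ t, InW O q s t → O.valuation (4 ^ ((q ^ 2 - 1) * q ^ m) * t - t) ≤ c := by
        intro t ht
        rw [← sub_one_mul, map_mul]
        exact mul_le_of_le_of_le_one this (w_le H ht)
      rw [clsiff, e1]
      exact ⟨u _ (hS _ x.2).1, u _ (hS _ x.2).2.1, u _ (hS _ x.2).2.2.1⟩
    intro G hG G' hG' h
    funext x
    obtain ⟨k, hk⟩ := Nat.exists_eq_succ_of_ne_zero (exp_pos H m).ne'
    rw [← hG.1.2 _ _ (e2 x), ← hG'.1.2 _ _ (e2 x), hk, Function.iterate_succ_apply', e G hG,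
      e G' hG', h]
  let G0 : S → O ⧸ II O c := fun x => ρ (g x ^ (q ^ 2 - 1))
  have hG0 : G0 ∈ F := by
    refine ⟨⟨fun x => ⟨_, (WW H).pow_mem (hg _ x.2).1 _, rfl⟩, fun x y h => ?_⟩,
      fun x => by simp only [G0, swS, hgsw _ x.2], fun x => ?_⟩
    · obtain ⟨c1, c2, c3⟩ := (clsiff _ _).1 h
      simp only [G0, ρ]
      rw [rho_pow (hg _ x.2).2.le, rho_pow (hg _ y.2).2.le,
        (rho_eq (hg _ x.2).2.le (hg _ y.2).2.le).2 (hgc m _ x.2 _ y.2 c1 c2 c3)]
    · have u : O.valuation (g x ^ (q ^ 2 - 1)) ≤ 1 := by rw [map_pow, (hg _ x.2).2, one_pow]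
      simp only [G0, ρ]
      rw [← rho_pow u, ← rho_one, rho_eq (by rw [map_pow]; exact pow_le_one' u _) (by simp)]
      exact w_pow H (hg _ x.2).1 (hg _ x.2).2 m
  obtain ⟨i, hi, hper⟩ := exists_period hF (hB.comp hA) (iB.comp iA hA) hG0 n
  have comp : ∀ j, ∀ x : S, O.valuation (UU^[j] g x) ≤ 1 ∧
      (B ∘ A)^[j] G0 x = ρ (UU^[j] g x ^ (q ^ 2 - 1)) := by
    intro j
    induction j with
    | zero => exact fun x => ⟨(hg _ x.2).2.le, rfl⟩
    | succ j ih =>
      intro x
      have a1 := ih (wS (rtS x))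
      have a2 := ih (wS (rtS (swS x)))
      rw [Function.iterate_succ_apply', Function.iterate_succ_apply']
      refine ⟨by rw [UU, map_mul]; exact mul_le_one' a1.1 a2.1, ?_⟩
      rw [UU, mul_pow]
      refine Eq.trans ?_ (rho_mul (by rw [map_pow]; exact pow_le_one' a1.1 _)
        (by rw [map_pow]; exact pow_le_one' a2.1 _)).symm
      exact congrArg₂ (· * ·) a1.2 a2.2
  have fin := (comp i ⟨x0, hx0⟩).2
  rw [hper, hn i hi, one_pow] at fin
  exact (rho_eq (by rw [map_pow, (hg _ hx0).2, one_pow]) (by simp)).1 fin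

end Pool.Agent.MP_c481b3_nt.H28
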