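import Pool.Agent.MP_c481b3_nt.H28.FFa
import Pool.Agent.MP_c481b3_nt.H28.Wq

set_option autoImplicit false

namespace Pool.Agent.MP_c481b3_nt.H28

open Pool.Agent.MP_c481b3_nt.H81 Polynomial NumberField IsLocalRing WqAux

variable {L : Type} [Field L] {O : ValuationSubring L} {γ : O.ValueGroup} {a b a' b' : L}

lemma Cg.neg (h : Cg O γ a b) : Cg O γ (-a) (-b) := by
  simpa using (Cg.refl γ (zero_mem O)).sub h

lemma Cg.div (h : Cg O γ a b) (h' : Cg O γ a' b') (u : O.valuation a' = 1)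
    (u' : O.valuation b' = 1) : Cg O γ (a / a') (b / b') := by
  have a0 : a' ≠ 0 := fun e => by simp [e] at u
  have b0 : b' ≠ 0 := fun e => by simp [e] at u'
  rw [div_eq_mul_inv, div_eq_mul_inv]
  refine h.mul ⟨(O.valuation_le_one_iff _).1 (by rw [map_inv₀, u, inv_one]),
    (O.valuation_le_one_iff _).1 (by rw [map_inv₀, u', inv_one]), ?_⟩
  rw [inv_sub_inv a0 b0, map_div₀, map_mul, u, u', mul_one, div_one, Valuation.map_sub_swap]
  exact h'.le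

lemma Cg.prod {ι : Type} (s : Finset ι) {f g : ι → L} (h : ∀ i, Cg O γ (f i) (g i)) :
    Cg O γ (∏ i ∈ s, f i) (∏ i ∈ s, g i) := by
  classical
  induction s using Finset.induction_on with
  | empty => simpa using Cg.refl γ (one_mem O)
  | insert a s ha ih => rw [Finset.prod_insert ha, Finset.prod_insert ha]; exact (h a).mul ih

variable {q l : ℕ} {s : L} [Fact q.Prime] [CharP (ResidueField O) q]
  [DecidableEq (ResidueField O)]

/-- the states over the unramified quadratic ring with supersingular reduction -/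
def SS (O : ValuationSubring L) (q : ℕ) (s : L) [Fact q.Prime] [CharP (ResidueField O) q]
    [DecidableEq (ResidueField O)] : Set (L × L × L) :=
  {x | InW O q s x.1 ∧ InW O q s x.2.1 ∧ InW O q s x.2.2 ∧ x.1 + x.2.1 + x.2.2 = 0 ∧
    ∃ x', Ev3 (resPlc O) x x' ∧ FS q (sA x') (sB x')}

/-- the functions to which the periodicity applies -/
structure Nice (O : ValuationSubring L) (q : ℕ) (s : L) [Fact q.Prime] [CharP (ResidueField O) q]
    [DecidableEq (ResidueField O)] (M : L → L) : Prop where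
  cg : ∀ γ t t', Cg O γ t t' → Cg O γ (M t) (M t')
  lin : ∀ a b : ℤ, InW O q s (M (a + b * s))
  unit : ∀ t A B, Ev (resPlc O) t (jj A B) → FS q A B → O.valuation (M t) = 1

variable {x y : L × L × L}

omit [Fact q.Prime] [CharP (ResidueField O) q] [DecidableEq (ResidueField O)] in
lemma Ev3.rt' {x' : ResidueField O × ResidueField O × ResidueField O} (e : Ev3 (resPlc O) x x')
    (h : x.1 + x.2.1 + x.2.2 = 0) : Rt (H28.sA x') (H28.sB x') x'.1 x'.2.1 x'.2.2 :=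
  ⟨((e.1.add e.2.1).add e.2.2).unique (h ▸ Ev.zero _), rfl, rfl⟩

lemma SS.sw (h : x ∈ SS O q s) : sw x ∈ SS O q s := by
  obtain ⟨a, b, c, d, x', e, f⟩ := h
  exact ⟨a, c, b, by rw [← d]; simp only [H28.sw]; ring, _, e.sw, by rwa [sA_sw, sB_sw]⟩

lemma SS.rt (h : x ∈ SS O q s) : rt x ∈ SS O q s := by
  obtain ⟨a, b, c, d, x', e, f⟩ := h
  exact ⟨b, a, c, by rw [← d]; simp only [H28.rt]; ring, _, e.rt, by rwa [sA_rt, sB_rt]⟩

lemma SS.unit (h : x ∈ SS O q s) : O.valuation ((x.1 - x.2.1) * (x.1 - x.2.2)) = 1 := by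
  obtain ⟨a, b, c, d, x', e, f⟩ := h
  obtain ⟨n1, n2, -⟩ := (e.rt' d).ne f.1
  exact ((e.1.sub e.2.1).mul (e.1.sub e.2.2)).v_one
    (mul_ne_zero (sub_ne_zero.2 n1) (sub_ne_zero.2 n2))

lemma SS.disc (h : x ∈ SS O q s) : O.valuation (4 * sA x ^ 3 + 27 * sB x ^ 2) = 1 := by
  obtain ⟨a, b, c, d, x', e, f⟩ := h
  exact (((Ev.ofNat _ 4).mul (e.sA.pow 3)).add ((Ev.ofNat _ 27).mul (e.sB.pow 2))).v_one f.1.disc

lemma SS.cg (hx : x ∈ SS O q s) (hy : y ∈ SS O q s) (a : Cg O γ (sA x) (sA y))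
    (b : Cg O γ (sB x) (sB y)) : Cg O γ (JJ x) (JJ y) :=
  ((Cg.ofNat γ 6912).mul (a.pow 3)).div (((Cg.ofNat γ 4).mul (a.pow 3)).add
    ((Cg.ofNat γ 27).mul (b.pow 2))) (SS.disc hx) (SS.disc hy)

lemma Nice.one {M : L → L} (n : Nice O q s M) (h : x ∈ SS O q s) : O.valuation (M (JJ x)) = 1 := by
  obtain ⟨a, b, c, d, x', e, f⟩ := h
  exact n.unit _ _ _ (ev_jj e.sA e.sB f.1) f

variable (H : Inert O q l s)
include H

lemma Nice.inW {M : L → L} (n : Nice O q s M) (h : x ∈ SS O q s) : InW O q s (M (JJ x)) := by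
  have d := SS.disc h
  obtain ⟨a, b, c, -⟩ := h
  rw [← mem_WW H] at a b c
  have hA : sA x ∈ WW H := add_mem (add_mem (mul_mem a b) (mul_mem a c)) (mul_mem b c)
  have hB : sB x ∈ WW H := neg_mem (mul_mem (mul_mem a b) c)
  have hJ : InW O q s (JJ x) := by
    rw [JJ, jj, div_eq_mul_inv, ← mem_WW H]
    exact mul_mem (mul_mem (natCast_mem _ 6912) (pow_mem hA 3)) (w_inv H ((WW H).add_mem
      (mul_mem (natCast_mem _ 4) (pow_mem hA 3)) (mul_mem (natCast_mem _ 27) (pow_mem hB 2))) d)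
  refine w_lim fun m => ?_
  obtain ⟨u, v, e⟩ := hJ m
  exact ⟨_, n.lin u v, (n.cg _ _ _ ⟨(O.valuation_le_one_iff _).1 (w_le H hJ),
    (O.valuation_le_one_iff _).1 (v_lin H u v), e⟩).le⟩

variable [IsAlgClosed L] (h5 : 5 ≤ q)
include h5

lemma SS.wr (h : x ∈ SS O q s) (w : Wr x y) : y ∈ SS O q s := by
  have u := SS.unit h
  obtain ⟨a, b, c, d, x', e, f⟩ := h
  obtain ⟨h2, h3⟩ := small_ne (ResidueField O) h5
  have := resid_closed O
  obtain ⟨y', e', w'⟩ := e.wr w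
  have f' := f.step h3 (e.rt' d) w'
  have st := (wr_st (e.rt' d) f.1 w').rt
  obtain ⟨r, hr, rfl⟩ := w
  have h4 : (4 : ResidueField O) ≠ 0 := by
    rw [show (4 : ResidueField O) = 2 * 2 by norm_num]; exact mul_ne_zero h2 h2
  have l4 := (Ev.ofNat (resPlc O) 4).ne_zero h4
  have er : Ev (resPlc O) r ((y'.2.1 - y'.2.2) / 4) :=
    ((e'.2.1.sub e'.2.2).div (Ev.ofNat _ 4) h4).congr (by field_simp; ring) rfl
  rw [← mem_WW H] at a b c
  have hw : r ∈ WW H := w_hensel H (hr ▸ (WW H).mul_mem (sub_mem a b) (sub_mem a c))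
    (by rwa [← hr, map_pow, pow_eq_one_iff_left two_ne_zero] at u)
    (((er.pow (q ^ 2)).sub er).congr rfl (by
      rw [← iterateFrobenius_def, map_div₀, map_sub, map_ofNat, iterateFrobenius_def,
        iterateFrobenius_def, f'.root st.swap, f'.root st.rot.rot, sub_self])).v_lt
  have t : (2 : L) ∈ WW H := natCast_mem _ 2
  exact ⟨(WW H).mul_mem (neg_mem t) a, (WW H).add_mem a (mul_mem t hw),
    (WW H).sub_mem a (mul_mem t hw), by ring, y', e', f'⟩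

lemma SS.cg_wq (hx : x ∈ SS O q s) (hy : y ∈ SS O q s) (a : Cg O γ (sA x) (sA y))
    (b : Cg O γ (sB x) (sB y)) (c : Cg O γ x.1 y.1) : Cg O γ (JJ (wq x)) (JJ (wq y)) := by
  obtain ⟨-, a1, a2⟩ := wr_val ⟨hx.2.2.2.1, rfl, rfl⟩ (wr_wq x)
  obtain ⟨-, b1, b2⟩ := wr_val ⟨hy.2.2.2.1, rfl, rfl⟩ (wr_wq y)
  have t := ((Cg.ofNat γ 3).mul (c.pow 2)).add a
  refine SS.cg (SS.wr H h5 hx (wr_wq x)) (SS.wr H h5 hy (wr_wq y)) ?_ ?_
  · rw [a1, b1]; exact a.sub ((Cg.ofNat γ 5).mul t)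
  · rw [a2, b2]; exact b.sub ((Cg.ofNat γ 7).mul (t.mul c))

omit [IsAlgClosed L] in
lemma bs_mem [IsAlgClosed (ResidueField O)] (hl : l = 1 ∨ l = 3) : bs l s ∈ SS O q s := by
  classical
  obtain ⟨h2, h3⟩ := small_ne (ResidueField O) h5
  have e := Ev.of_mem (π := resPlc O) (s_mem H)
  have e2 := (e.pow 2).unique (H.sq ▸ (Ev.nat (resPlc O) l).neg)
  obtain ⟨st, sp⟩ := bs_spec hl e2 h2 h3
  have t := Ev.ofNat (resPlc O) 2
  obtain ⟨st', -⟩ := bs_spec hl H.sq (t.ne_zero h2) ((Ev.ofNat (resPlc O) 3).ne_zero h3)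
  have o : Odd (q ^ 1) := (H.prime.odd_of_ne_two H.two).pow
  have f := fs_base (q := q) h3 st.good (sp.imp (fun h => ⟨h.1, h.2.2⟩) fun h => ⟨h.1, h.2.1⟩) H.non
    (by rcases sp with h | h <;> rw [h.2.1]; exacts [o.neg_one_pow, zero_pow o.pos.ne'])
    (by rcases sp with h | h <;> rw [h.2.2]; exacts [zero_pow o.pos.ne', o.neg_one_pow])
  have i : (2 : L)⁻¹ ∈ WW H := w_inv H (natCast_mem (WW H) 2) (t.v_one h2)
  have s1 : s ∈ WW H := (mem_WW H).2 (by simpa using w_lin (O := O) (q := q) (s := s) 0 1)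
  have o1 := one_mem (WW H)
  suffices h : (bs l s).1 ∈ WW H ∧ (bs l s).2.1 ∈ WW H ∧ (bs l s).2.2 ∈ WW H from
    ⟨h.1, h.2.1, h.2.2, st'.sum, _, ev_bs l e h2, f⟩
  unfold bs
  split_ifs
  · exact ⟨zero_mem _, o1, neg_mem o1⟩
  · simp only [div_eq_mul_inv]
    exact ⟨o1, mul_mem (add_mem (neg_mem o1) s1) i, mul_mem (sub_mem (neg_mem o1) s1) i⟩

theorem inert_main [CharZero L] (hl : l = 1 ∨ l = 3) {M N : L → L} (m : Nice O q s M)
    (n : Nice O q s N) (h : ∃ k : ℕ, ∀ i, k ≤ i → UU^[i] (fun x =>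
      (UU (fun y => M (JJ y) / N (JJ y)) x / (M (JJ x) / N (JJ x)) ^ 2) ^ 12) (bs l s) = 1) (k : ℕ) :
    O.valuation (((UU (fun y => M (JJ y) / N (JJ y)) (bs l s) /
      (M (JJ (bs l s)) / N (JJ (bs l s))) ^ 2) ^ 12) ^ (q ^ 2 - 1) - 1)
        ≤ O.valuation (q : L) ^ k := by
  have := resid_closed O
  have one : ∀ x ∈ SS O q s, O.valuation (M (JJ x) / N (JJ x)) = 1 := fun x hx => by
    rw [map_div₀, m.one hx, n.one hx, div_one]
  have inW : ∀ x ∈ SS O q s, M (JJ x) / N (JJ x) ∈ WW H := fun x hx => by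
    rw [div_eq_mul_inv]
    exact mul_mem (m.inW H hx) (w_inv H (n.inW H hx) (n.one hx))
  have w1 : ∀ x ∈ SS O q s, wq (rt x) ∈ SS O q s := fun x hx => SS.wr H h5 (SS.rt hx) (wr_wq _)
  refine period L O q l s H (SS O q s) (fun x hx => ⟨hx.1, hx.2.1, hx.2.2.1, hx.2.2.2.1, SS.unit hx⟩)
    (fun x => SS.sw) (fun x => SS.rt) (fun x hx y => SS.wr H h5 hx) _ (fun x hx => ⟨?_, ?_⟩)
    (fun x _ => by rw [UU_sw, JJ_sw]) (fun k x hx y hy c1 c2 c3 => ?_) _ (bs_mem H h5 hl) h k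
  · rw [div_eq_mul_inv, ← inv_pow]
    exact (WW H).pow_mem (mul_mem (mul_mem (inW _ (w1 x hx)) (inW _ (w1 _ (SS.sw hx))))
      (pow_mem (w_inv H (inW x hx) (one x hx)) 2)) 12
  · rw [map_pow, map_div₀, UU, map_mul, map_pow, one x hx, one _ (w1 x hx), one _ (w1 _ (SS.sw hx))]
    simp
  · have mem : ∀ z, InW O q s z → z ∈ O := fun z h => (O.valuation_le_one_iff _).1 (w_le H h)
    have d1 : Cg O _ _ _ := ⟨mem _ hx.1, mem _ hy.1, c1⟩
    have d2 : Cg O _ _ _ := ⟨mem _ hx.2.1, mem _ hy.2.1, c2⟩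
    have d3 : Cg O _ _ _ := ⟨mem _ hx.2.2.1, mem _ hy.2.2.1, c3⟩
    have a : Cg O _ (sA x) (sA y) := ((d1.mul d2).add (d1.mul d3)).add (d2.mul d3)
    have b : Cg O _ (sB x) (sB y) := ((d1.mul d2).mul d3).neg
    have key : ∀ x ∈ SS O q s, ∀ y ∈ SS O q s, Cg O (O.valuation (q : L) ^ k) (JJ x) (JJ y) →
        Cg O (O.valuation (q : L) ^ k) (M (JJ x) / N (JJ x)) (M (JJ y) / N (JJ y)) :=
      fun x hx y hy c => (m.cg _ _ _ c).div (n.cg _ _ _ c) (n.one hx) (n.one hy)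
    refine ((((key _ (w1 x hx) _ (w1 y hy) (SS.cg_wq H h5 (SS.rt hx) (SS.rt hy) ?_ ?_ d2)).mul
      (key _ (w1 _ (SS.sw hx)) _ (w1 _ (SS.sw hy)) (SS.cg_wq H h5 (SS.rt (SS.sw hx))
        (SS.rt (SS.sw hy)) ?_ ?_ d3))).div ((key x hx y hy (SS.cg hx hy a b)).pow 2) ?_ ?_).pow
          12).le
    · rwa [sA_rt, sA_rt]
    · rwa [sB_rt, sB_rt]
    · rwa [sA_rt, sA_rt, sA_sw, sA_sw]
    · rwa [sB_rt, sB_rt, sB_sw, sB_sw]
    · rw [map_pow, one x hx, one_pow]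
    · rw [map_pow, one y hy, one_pow]

end Pool.Agent.MP_c481b3_nt.H28
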