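import Pool.Agent.MP_c481b3_nt.H28.Spec

set_option autoImplicit false

namespace Pool.Agent.MP_c481b3_nt.H28

open NumberField
open scoped Pointwise

/-- an element integral over a ring mapping into `O` lies in `O` -/
theorem mem_of_isIntegral {A L : Type} [CommRing A] [Field L] [Algebra A L]
    (O : ValuationSubring L) (hA : ∀ r : A, algebraMap A L r ∈ O) {x : L}
    (hx : IsIntegral A x) : x ∈ O := by
  let : Algebra A O := ((algebraMap A L).codRestrict O hA).toAlgebra
  have : IsScalarTower A O L := IsScalarTower.of_algebraMap_eq (fun _ => rfl)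
  have h1 : IsIntegral O x := hx.tower_top
  obtain ⟨y, hy⟩ := IsIntegrallyClosed.algebraMap_eq_of_integral h1
  rw [← hy]
  exact y.2

/-- the pull back of the maximal ideal of `O` -/
def cen {B L : Type} [CommRing B] [Field L] [Algebra B L]
    (O : ValuationSubring L) (hB : ∀ r : B, algebraMap B L r ∈ O) : Ideal B :=
  (IsLocalRing.maximalIdeal O).comap ((algebraMap B L).codRestrict O hB)

theorem mem_cen {B L : Type} [CommRing B] [Field L] [Algebra B L]
    (O : ValuationSubring L) (hB : ∀ r : B, algebraMap B L r ∈ O) (b : B) :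
    b ∈ cen O hB ↔ O.valuation (algebraMap B L b) < 1 := by
  rw [cen, Ideal.mem_comap, ValuationSubring.valuation_lt_one_iff]
  rfl

theorem cen_isPrime {B L : Type} [CommRing B] [Field L] [Algebra B L]
    (O : ValuationSubring L) (hB : ∀ r : B, algebraMap B L r ∈ O) : (cen O hB).IsPrime :=
  Ideal.comap_isPrime _ _

theorem val_eq_one_of_not_mem_cen {B L : Type} [CommRing B] [Field L] [Algebra B L]
    (O : ValuationSubring L) (hB : ∀ r : B, algebraMap B L r ∈ O) {b : B}
    (hb : b ∉ cen O hB) : O.valuation (algebraMap B L b) = 1 := by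
  rw [mem_cen] at hb
  exact le_antisymm ((O.valuation_le_one_iff _).2 (hB b)) (not_lt.1 hb)

/-- in a Dedekind domain mapping into `O`, a quotient lying in `O` has a unit denominator -/
theorem exists_unit_den {D L : Type} [CommRing D] [IsDedekindDomain D] [Field L] [Algebra D L]
    (O : ValuationSubring L) (hD : ∀ r : D, algebraMap D L r ∈ O) (h0 : cen O hD ≠ ⊥)
    {x : L} (hx : x ∈ O) {n d : D} (hd : algebraMap D L d ≠ 0)
    (hxd : x * algebraMap D L d = algebraMap D L n) :
    ∃ b s : D, O.valuation (algebraMap D L s) = 1 ∧ x * algebraMap D L s = algebraMap D L b := by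
  have := cen_isPrime O hD
  have : IsDiscreteValuationRing (Localization.AtPrime (cen O hD)) :=
    IsLocalization.AtPrime.isDiscreteValuationRing_of_dedekind_domain D h0 _
  have hinj : Function.Injective (algebraMap D (Localization.AtPrime (cen O hD))) :=
    IsLocalization.injective _ (cen O hD).primeCompl_le_nonZeroDivisors
  obtain ⟨c, hc⟩ := ValuationRing.cond (algebraMap D (Localization.AtPrime (cen O hD)) n)
    (algebraMap D (Localization.AtPrime (cen O hD)) d)
  obtain ⟨⟨r, s⟩, hrs⟩ := IsLocalization.surj (cen O hD).primeCompl c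
  simp only at hrs
  have hs1 : O.valuation (algebraMap D L s) = 1 := val_eq_one_of_not_mem_cen O hD s.2
  rcases hc with hc | hc
  · have h1 : n * r = d * s := by
      apply hinj
      rw [map_mul, map_mul, ← hrs, ← hc]; ring
    have h2 : x * algebraMap D L r = algebraMap D L s := by
      apply mul_left_cancel₀ hd
      rw [← map_mul, ← h1, map_mul, ← hxd]; ring
    refine ⟨s, r, ?_, h2⟩
    have h3 : O.valuation x * O.valuation (algebraMap D L r) = 1 := by
      rw [← map_mul, h2, hs1]
    have h4 := (O.valuation_le_one_iff _).2 hx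
    have h5 := (O.valuation_le_one_iff _).2 (hD r)
    refine le_antisymm h5 ?_
    calc (1 : O.ValueGroup) = O.valuation x * O.valuation (algebraMap D L r) := h3.symm
      _ ≤ 1 * O.valuation (algebraMap D L r) := by gcongr
      _ = _ := one_mul _
  · have h1 : d * r = n * s := by
      apply hinj
      rw [map_mul, map_mul, ← hrs, ← hc]; ring
    refine ⟨r, s, hs1, ?_⟩
    apply mul_left_cancel₀ hd
    rw [← map_mul, h1, map_mul, ← hxd]; ring

theorem exists_frac {K : Type} [Field K] [NumberField K] (P : Ideal (𝓞 K)) (hP : P.IsMaximal)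
    (O : ValuationSubring (AlgebraicClosure K))
    (h2 : ∀ r : 𝓞 K, O.valuation (algebraMap _ (AlgebraicClosure K) r) < 1 ↔ r ∈ P)
    {x : AlgebraicClosure K} (hx : x ∈ O) :
    ∃ b s : AlgebraicClosure K, IsIntegral ℤ b ∧ IsIntegral ℤ s ∧ O.valuation s = 1 ∧
      x * s = b := by
  have hxi : IsIntegral K x := Algebra.IsIntegral.isIntegral x
  let E : IntermediateField K (AlgebraicClosure K) := IntermediateField.adjoin K {x}
  have : FiniteDimensional K E := IntermediateField.adjoin.finiteDimensional hxi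
  have : NumberField E := NumberField.of_module_finite K E
  have hint : ∀ r : 𝓞 E, IsIntegral ℤ (algebraMap (𝓞 E) (AlgebraicClosure K) r) := fun r =>
    map_isIntegral_int _ (RingOfIntegers.isIntegral r)
  have hD : ∀ r : 𝓞 E, algebraMap (𝓞 E) (AlgebraicClosure K) r ∈ O := fun r =>
    mem_of_isIntegral O (fun z => by simp) (hint r)
  have h0 : cen O hD ≠ ⊥ := by
    obtain ⟨p, hp, hp0⟩ := Submodule.exists_mem_ne_zero_of_ne_bot
      (Ring.ne_bot_of_isMaximal_of_not_isField hP (RingOfIntegers.not_isField K))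
    have hq : algebraMap (𝓞 E) (AlgebraicClosure K) (algebraMap (𝓞 K) (𝓞 E) p)
        = algebraMap (𝓞 K) (AlgebraicClosure K) p := rfl
    intro hb
    have : algebraMap (𝓞 K) (𝓞 E) p ∈ cen O hD := by
      rw [mem_cen, hq]; exact (h2 p).2 hp
    rw [hb, Ideal.mem_bot] at this
    rw [this, map_zero] at hq
    have h3 : algebraMap K (AlgebraicClosure K) (algebraMap (𝓞 K) K p) = 0 := hq.symm
    rw [map_eq_zero] at h3
    exact hp0 (RingOfIntegers.coe_eq_zero_iff.1 h3)
  obtain ⟨n, d, hd, hnd⟩ := IsFractionRing.div_surjective (A := 𝓞 E)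
    (⟨x, IntermediateField.mem_adjoin_simple_self K x⟩ : E)
  have hd0 : algebraMap (𝓞 E) E d ≠ 0 :=
    RingOfIntegers.coe_ne_zero_iff.2 (nonZeroDivisors.ne_zero hd)
  have hd1 : algebraMap (𝓞 E) (AlgebraicClosure K) d ≠ 0 := by
    have : algebraMap (𝓞 E) (AlgebraicClosure K) d
      = algebraMap E (AlgebraicClosure K) (algebraMap (𝓞 E) E d) := rfl
    rw [this]
    exact (map_ne_zero _).2 hd0
  have hxd : x * algebraMap (𝓞 E) (AlgebraicClosure K) d
      = algebraMap (𝓞 E) (AlgebraicClosure K) n := by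
    have h4 := congrArg (algebraMap E (AlgebraicClosure K)) ((div_eq_iff hd0).1 hnd)
    rw [map_mul] at h4
    exact h4.symm
  obtain ⟨b, s, hs, hbs⟩ := exists_unit_den O hD h0 hx hd1 hxd
  exact ⟨_, _, hint b, hint s, hs, hbs⟩

theorem frobLift : FrobLift := by
  intro K _ _ P hP O h1 h2
  let L := AlgebraicClosure K
  let B := integralClosure (𝓞 K) L
  have hB : ∀ r : B, algebraMap B L r ∈ O := fun r => mem_of_isIntegral O h1 r.2
  let Q : Ideal B := cen O hB
  have : Q.IsPrime := cen_isPrime O hB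
  have : Q.LiesOver P := ⟨by
    ext r
    rw [Ideal.under_def, Ideal.mem_comap, mem_cen, ← h2]
    rfl⟩
  let : TopologicalSpace B := ⊥
  have : DiscreteTopology B := ⟨rfl⟩
  have : ContinuousSMul (L ≃ₐ[K] L) B := by
    rw [continuousSMul_iff_stabilizer_isOpen]
    intro b
    have h := stabilizer_isOpen_of_isIntegral (K := K) (b : L)
    have h' : MulAction.stabilizer (L ≃ₐ[K] L) b = MulAction.stabilizer (L ≃ₐ[K] L) (b : L) := by
      ext g
      rw [MulAction.mem_stabilizer_iff, MulAction.mem_stabilizer_iff, Subtype.ext_iff]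
      rfl
    rw [h']
    exact h
  have : Algebra.IsInvariant (𝓞 K) B (L ≃ₐ[K] L) := ⟨by
    intro b hb
    obtain ⟨k, hk⟩ := (InfiniteGalois.mem_range_algebraMap_iff_fixed (k := K) (b : L)).2
      (fun g => congrArg Subtype.val (hb g))
    have hb' : IsIntegral (𝓞 K) (algebraMap K L k) := by rw [hk]; exact b.2
    rw [isIntegral_algebraMap_iff (algebraMap K L).injective] at hb'
    obtain ⟨a, rfl⟩ := IsIntegrallyClosed.algebraMap_eq_of_integral hb'
    exact ⟨a, Subtype.ext hk⟩⟩
  have : Q.IsMaximal := Ideal.IsMaximal.of_liesOver_isMaximal Q P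
  let : Field (𝓞 K ⧸ P) := Ideal.Quotient.field P
  let : Field (B ⧸ Q) := Ideal.Quotient.field Q
  have : Finite (𝓞 K ⧸ P) := Ideal.finiteQuotientOfFreeOfNeBot P
    (Ring.ne_bot_of_isMaximal_of_not_isField hP (RingOfIntegers.not_isField K))
  let : Fintype (𝓞 K ⧸ P) := Fintype.ofFinite _
  have : Algebra.IsAlgebraic (𝓞 K ⧸ P) (B ⧸ Q) := Algebra.IsIntegral.isAlgebraic
  obtain ⟨⟨σ, hσ⟩, hσ'⟩ := Ideal.Quotient.stabilizerHom_surjective_of_profinite
    (G := L ≃ₐ[K] L) P Q (FiniteField.frobeniusAlgEquivOfAlgebraic (𝓞 K ⧸ P) (B ⧸ Q))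
  have hq : Fintype.card (𝓞 K ⧸ P) = Ideal.absNorm P := by
    rw [Ideal.absNorm_apply, Submodule.cardQuot_apply, Nat.card_eq_fintype_card]
  have hcong : ∀ b : B, O.valuation (σ (b : L) - (b : L) ^ Ideal.absNorm P) < 1 := by
    intro b
    have h3 := DFunLike.congr_fun hσ' (Ideal.Quotient.mk Q b)
    rw [Ideal.Quotient.stabilizerHom_apply, FiniteField.coe_frobeniusAlgEquivOfAlgebraic, hq] at h3
    simp only [] at h3
    rw [← map_pow, Ideal.Quotient.eq] at h3
    exact (mem_cen O hB _).1 h3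
  have hstab : ∀ τ : L ≃ₐ[K] L, τ ∈ MulAction.stabilizer (L ≃ₐ[K] L) Q → ∀ s : B,
      O.valuation (s : L) = 1 → O.valuation (τ (s : L)) = 1 := by
    intro τ hτ s hs
    have h3 : τ • s ∉ Q := by
      intro h4
      rw [← MulAction.mem_stabilizer_iff.1 hτ, Ideal.smul_mem_pointwise_smul_iff] at h4
      have h5 := (mem_cen O hB _).1 h4
      exact absurd hs (ne_of_lt h5)
    exact val_eq_one_of_not_mem_cen O hB h3
  have hfrac : ∀ x ∈ O, ∃ b s : B, O.valuation (s : L) = 1 ∧ x * (s : L) = b := by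
    intro x hx
    obtain ⟨b, s, hb, hs, hs1, hbs⟩ := exists_frac P hP O h2 hx
    exact ⟨⟨b, hb.tower_top⟩, ⟨s, hs.tower_top⟩, hs1, hbs⟩
  have hmem : ∀ τ : L ≃ₐ[K] L, τ ∈ MulAction.stabilizer (L ≃ₐ[K] L) Q → ∀ x ∈ O, τ x ∈ O := by
    intro τ hτ x hx
    obtain ⟨b, s, hs, hbs⟩ := hfrac x hx
    have h3 := hstab τ hτ s hs
    have h4 : τ x * τ (s : L) = τ (b : L) := by rw [← map_mul, hbs]
    have h5 : O.valuation (τ (b : L)) ≤ 1 := (O.valuation_le_one_iff _).2 (hB (τ • b))
    rw [← h4, map_mul, h3, mul_one] at h5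
    exact (O.valuation_le_one_iff _).1 h5
  refine ⟨σ, fun x => ⟨fun hx => ?_, hmem σ hσ x⟩, fun x hx => ?_⟩
  · have h3 := hmem σ⁻¹ (inv_mem hσ) _ hx
    simpa using h3
  · obtain ⟨b, s, hs, hbs⟩ := hfrac x hx
    have h3 := hstab σ hσ s hs
    have h4 : σ x * σ (s : L) = σ (b : L) := by rw [← map_mul, hbs]
    have h5 : (σ x - x ^ Ideal.absNorm P) * σ (s : L)
        = (σ (b : L) - (b : L) ^ Ideal.absNorm P)
          - x ^ Ideal.absNorm P * (σ (s : L) - (s : L) ^ Ideal.absNorm P) := by
      rw [← h4, ← hbs]; ring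
    have h6 : O.valuation ((σ x - x ^ Ideal.absNorm P) * σ (s : L)) < 1 := by
      rw [h5]
      refine lt_of_le_of_lt (Valuation.map_sub _ _ _) (max_lt (hcong b) ?_)
      rw [map_mul]
      have h7 : O.valuation (x ^ Ideal.absNorm P) ≤ 1 :=
        (O.valuation_le_one_iff _).2 (pow_mem hx _)
      calc _ ≤ 1 * O.valuation (σ (s : L) - (s : L) ^ Ideal.absNorm P) := by gcongr
        _ < 1 := by rw [one_mul]; exact hcong s
    rwa [map_mul, h3, mul_one] at h6

end Pool.Agent.MP_c481b3_nt.H28
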