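import Pool.Agent.MP_c481b3_nt.H28.Spec6
import Pool.Agent.MP_c481b3_nt.H28.CtrGam

set_option autoImplicit false

namespace Pool.Agent.MP_c481b3_nt.H28

lemma g2_dvd (d : ℕ) (hd : Squarefree d) (h8 : d % 8 ≠ 7) (h3 : d % 3 ≠ 2) (a b : ℤ)
    (hab : IsCoprime a b)
    (h : ∀ r : ℕ, r.Prime → 5 ≤ r → ¬r ∣ d → ¬(r : ℤ) ∣ a ^ 2 + d * b ^ 2) :
    a ^ 2 + d * b ^ 2 ∣ 4 * a ^ 2 := by
  have cop : ∀ r : ℤ, r ∣ a → r ∣ b → r ∣ 1 := fun r h1 h2 => by
    obtain ⟨u, w, huw⟩ := hab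
    rw [← huw]; exact dvd_add (h1.mul_left u) (h2.mul_left w)
  rw [← Int.natAbs_dvd_natAbs]
  refine (Nat.dvd_iff_prime_pow_dvd_dvd _ _).2 fun p k hp hk => ?_
  have hk' : ((p : ℤ)) ^ k ∣ a ^ 2 + d * b ^ 2 := by
    rw [← Int.natAbs_dvd_natAbs, Int.natAbs_pow]; simpa using hk
  suffices hs : ((p : ℤ)) ^ k ∣ 4 * a ^ 2 by
    rw [← Int.natAbs_dvd_natAbs, Int.natAbs_pow] at hs; simpa using hs
  rcases Nat.eq_zero_or_pos k with rfl | hk0
  · simp
  have hpi : Prime (p : ℤ) := Nat.prime_iff_prime_int.1 hp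
  have hp1 : (p : ℤ) ∣ a ^ 2 + d * b ^ 2 := (dvd_pow_self _ hk0.ne').trans hk'
  by_cases hpd : p ∣ d
  · have hpd' : (p : ℤ) ∣ (d : ℤ) := by exact_mod_cast hpd
    have ha : (p : ℤ) ∣ a :=
      hpi.dvd_of_dvd_pow ((dvd_add_left (hpd'.mul_right _)).1 hp1)
    have hb : ¬(p : ℤ) ∣ b := fun hb => hpi.not_dvd_one (cop _ ha hb)
    have hk2 : k < 2 := by
      by_contra hc
      have h1 : (p : ℤ) ^ 2 ∣ a ^ 2 + d * b ^ 2 := (pow_dvd_pow _ (not_lt.1 hc)).trans hk'
      have h2 : (p : ℤ) ^ 2 ∣ d * b ^ 2 := (dvd_add_right (pow_dvd_pow_of_dvd ha 2)).1 h1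
      have h4 : IsCoprime ((p : ℤ) ^ 2) (b ^ 2) :=
        ((hpi.coprime_iff_not_dvd).2 hb).pow
      have h5 : (p : ℤ) ^ 2 ∣ (d : ℤ) := h4.dvd_of_dvd_mul_right h2
      have h6 : p * p ∣ d := by rw [← pow_two]; exact_mod_cast h5
      exact hp.one_lt.ne' (Nat.isUnit_iff.1 (hd p h6))
    have hk1 : k = 1 := by omega
    rw [hk1, pow_one]
    exact (dvd_pow ha two_ne_zero).mul_left _
  · have h5 : p < 5 := by
      by_contra hc
      exact h p hp (not_lt.1 hc) hpd hp1
    have h2 := hp.two_le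
    interval_cases p
    · have hk3 : k < 3 := by
        by_contra hc
        have h8' : (8 : ℤ) ∣ a ^ 2 + d * b ^ 2 :=
          (by exact pow_dvd_pow (2 : ℤ) (not_lt.1 hc) : (2 : ℤ) ^ 3 ∣ 2 ^ k).trans hk'
        have h2' : ¬((2 : ℤ) ∣ a ∧ (2 : ℤ) ∣ b) := fun h => by
          have := cop 2 h.1 h.2
          omega
        have e1 : a ^ 2 % 8 = (a % 8) ^ 2 % 8 := by
          rw [pow_two, pow_two, Int.mul_emod]
        have e2 : b ^ 2 % 8 = (b % 8) ^ 2 % 8 := by
          rw [pow_two, pow_two, Int.mul_emod]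
        have e3 : ((d : ℤ) * b ^ 2) % 8 = ((d : ℤ) % 8) * (b ^ 2 % 8) % 8 := Int.mul_emod _ _ _
        rw [e2] at e3
        have hd1 : (d : ℤ) % 8 = 1 ∨ (d : ℤ) % 8 = 3 ∨ (d : ℤ) % 8 = 5 := by omega
        have a1 := Int.emod_nonneg a (by norm_num : (8 : ℤ) ≠ 0)
        have a2 := Int.emod_lt_of_pos a (by norm_num : (0 : ℤ) < 8)
        have b1 := Int.emod_nonneg b (by norm_num : (8 : ℤ) ≠ 0)
        have b2 := Int.emod_lt_of_pos b (by norm_num : (0 : ℤ) < 8)
        clear e2 hk hk' hp1 h cop hab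
        generalize (d : ℤ) * b ^ 2 = B at *
        generalize a ^ 2 = A at *
        generalize ha : a % 8 = a' at *
        generalize hb : b % 8 = b' at *
        rcases hd1 with h1 | h1 | h1 <;> rw [h1] at e3 <;> interval_cases a' <;>
          interval_cases b' <;> omega
      have h4 : ((2 : ℕ) : ℤ) ^ k ∣ 4 := by
        interval_cases k <;> norm_num
      exact h4.mul_right _
    · exfalso
      have h3' : ¬((3 : ℤ) ∣ a ∧ (3 : ℤ) ∣ b) := fun h => by
        have := cop 3 h.1 h.2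
        omega
      have e1 : a ^ 2 % 3 = (a % 3) ^ 2 % 3 := by
        rw [pow_two, pow_two, Int.mul_emod]
      have e2 : b ^ 2 % 3 = (b % 3) ^ 2 % 3 := by
        rw [pow_two, pow_two, Int.mul_emod]
      have e3 : ((d : ℤ) * b ^ 2) % 3 = ((d : ℤ) % 3) * (b ^ 2 % 3) % 3 := Int.mul_emod _ _ _
      rw [e2] at e3
      have hd1 : (d : ℤ) % 3 = 1 := by omega
      rw [hd1] at e3
      have hp2 : (3 : ℤ) ∣ a ^ 2 + d * b ^ 2 := by exact_mod_cast hp1
      have a1 := Int.emod_nonneg a (by norm_num : (3 : ℤ) ≠ 0)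
      have a2 := Int.emod_lt_of_pos a (by norm_num : (0 : ℤ) < 3)
      have b1 := Int.emod_nonneg b (by norm_num : (3 : ℤ) ≠ 0)
      have b2 := Int.emod_lt_of_pos b (by norm_num : (0 : ℤ) < 3)
      clear e2 hk hk' hp1 h cop hab
      generalize (d : ℤ) * b ^ 2 = B at *
      generalize a ^ 2 = A at *
      generalize ha : a % 3 = a' at *
      generalize hb : b % 3 = b' at *
      interval_cases a' <;> interval_cases b' <;> omega
    · exact absurd hp (by norm_num)

lemma g2_pow {L : Type} [Field L] (x y : L) (t : ℤ) (h0 : 0 ≤ t) (h4 : t ≤ 4)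
    (h : (x + y) ^ 2 = (t : L) * (x * y)) : x ^ 12 = y ^ 12 := by
  interval_cases t <;> push_cast at h
  · have h1 : x + y = 0 := by
      rw [zero_mul] at h
      exact pow_eq_zero_iff two_ne_zero |>.1 h
    have h2 : x = -y := by linear_combination h1
    rw [h2]; ring
  · linear_combination (x - y) * (x ^ 9 + x ^ 6 * y ^ 3 + x ^ 3 * y ^ 6 + y ^ 9) * h
  · linear_combination (x ^ 2 - y ^ 2) * (x ^ 8 + x ^ 4 * y ^ 4 + y ^ 8) * h
  · linear_combination (x + y) * (x ^ 3 - y ^ 3) * (x ^ 6 + y ^ 6) * h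
  · have h1 : (x - y) ^ 2 = 0 := by linear_combination h
    have h2 : x = y := sub_eq_zero.1 (pow_eq_zero_iff two_ne_zero |>.1 h1)
    rw [h2]

lemma g2_int {L : Type} [Field L] [CharZero L] (d : ℕ) (hd : Squarefree d) (h8 : d % 8 ≠ 7)
    (h3 : d % 3 ≠ 2) (s : L) (hs : s ^ 2 = -d) (a b : ℤ) (hab : IsCoprime a b)
    (h : ∀ (O : ValuationSubring L) (p : ℕ), p.Prime → 5 ≤ p → ¬p ∣ d → IsSquare (-(d : ZMod p)) →
      O.valuation (p : L) < 1 → O.valuation ((a : L) + b * s) = O.valuation ((a : L) - b * s)) :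
    ((a : L) + b * s) ^ 12 = ((a : L) - b * s) ^ 12 := by
  have h12 : a ^ 2 + d * b ^ 2 ∣ 4 * a ^ 2 := by
    refine g2_dvd d hd h8 h3 a b hab fun r hr h5 hrd hdvd => ?_
    have hri : Prime (r : ℤ) := Nat.prime_iff_prime_int.1 hr
    have cop : (r : ℤ) ∣ a → (r : ℤ) ∣ b → False := fun h1 h2 => by
      obtain ⟨u, w, huw⟩ := hab
      have : (r : ℤ) ∣ 1 := by rw [← huw]; exact dvd_add (h1.mul_left u) (h2.mul_left w)
      exact hri.not_dvd_one this
    have hb : ¬(r : ℤ) ∣ b := fun hb => by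
      refine cop (hri.dvd_of_dvd_pow (n := 2) ?_) hb
      exact (dvd_add_left ((dvd_pow hb two_ne_zero).mul_left _)).1 hdvd
    have ha : ¬(r : ℤ) ∣ a := fun ha => by
      have h1 : (r : ℤ) ∣ d * b ^ 2 := (dvd_add_right (dvd_pow ha two_ne_zero)).1 hdvd
      rcases hri.dvd_or_dvd h1 with h2 | h2
      · exact hrd (by exact_mod_cast h2)
      · exact hb (hri.dvd_of_dvd_pow h2)
    have := Fact.mk hr
    have hsq : IsSquare (-(d : ZMod r)) := by
      have h1 : ((a ^ 2 + d * b ^ 2 : ℤ) : ZMod r) = 0 :=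
        (ZMod.intCast_zmod_eq_zero_iff_dvd _ _).2 hdvd
      have h2 : ((b : ℤ) : ZMod r) ≠ 0 := fun h => hb ((ZMod.intCast_zmod_eq_zero_iff_dvd _ _).1 h)
      push_cast at h1
      refine ⟨(a : ZMod r) / b, ?_⟩
      field_simp
      linear_combination -h1
    obtain ⟨O, hO⟩ := cg_exists_val (L := L) hr
    have heq := h O r hr h5 hrd hsq hO
    have hn : O.valuation (((a : L) + b * s) * ((a : L) - b * s)) < 1 := by
      obtain ⟨m, hm⟩ := hdvd
      have h1 : ((a : L) + b * s) * ((a : L) - b * s) = (m : L) * r := by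
        have h2 := congrArg (Int.cast : ℤ → L) hm
        push_cast at h2
        linear_combination h2 - (b : L) ^ 2 * hs
      rw [h1, map_mul]
      exact lt_of_le_of_lt (mul_le_of_le_one_left' (cg_int_le O m)) hO
    have h1 : O.valuation ((a : L) - b * s) < 1 := by
      rw [map_mul, heq] at hn
      by_contra hc
      exact absurd hn (not_lt.2 (one_le_mul (not_lt.1 hc) (not_lt.1 hc)))
    have h2 := O.valuation.map_add_lt (heq ▸ h1 : O.valuation ((a : L) + b * s) < 1) h1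
    have h3 : (a : L) + b * s + ((a : L) - b * s) = ((2 * a : ℤ) : L) := by push_cast; ring
    rw [h3] at h2
    rcases hri.dvd_or_dvd (cg_dvd O hr hO h2) with h4 | h4
    · have h5' : r ∣ 2 := by exact_mod_cast h4
      have := Nat.le_of_dvd (by omega) h5'
      omega
    · exact ha h4
  obtain ⟨t, ht⟩ := h12
  have hd1 : (1 : ℤ) ≤ d := by
    have := hd.ne_zero
    omega
  have h1 : 0 ≤ (d : ℤ) * b ^ 2 := by positivity
  have hn : 0 < a ^ 2 + d * b ^ 2 := by
    by_contra hc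
    have h2 : a ^ 2 = 0 := by nlinarith [sq_nonneg a]
    have h4 : b ^ 2 = 0 := by nlinarith [sq_nonneg a, sq_nonneg b]
    rw [pow_eq_zero_iff two_ne_zero] at h2 h4
    rw [h2, h4] at hab
    exact not_isCoprime_zero_zero hab
  have ht0 : 0 ≤ t := by
    by_contra hc
    nlinarith [sq_nonneg a]
  have ht4 : t ≤ 4 := by
    by_contra hc
    nlinarith [sq_nonneg a]
  refine g2_pow _ _ t ht0 ht4 ?_
  have h2 := congrArg (Int.cast : ℤ → L) ht
  push_cast at h2
  linear_combination h2 + (t : L) * (b : L) ^ 2 * hs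

theorem gamCore2 : GamCore2 := by
  intro L _ _ d hd h8 h3 s hs a b h
  obtain ⟨c, a', b', hab, ha, hb⟩ :
      ∃ (c : ℚ) (a' b' : ℤ), IsCoprime a' b' ∧ a = c * a' ∧ b = c * b' := by
    by_cases h0 : Int.gcd (a.num * b.den) (b.num * a.den) = 0
    · rw [Int.gcd_eq_zero_iff] at h0
      have h1 : a = 0 := by simpa using h0.1
      have h2 : b = 0 := by simpa using h0.2
      exact ⟨0, 1, 0, isCoprime_one_left, by simp [h1], by simp [h2]⟩
    · obtain ⟨a', b', h1, h2, h3⟩ := Int.exists_gcd_one (Nat.pos_of_ne_zero h0)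
      generalize Int.gcd (a.num * b.den) (b.num * a.den) = g at *
      refine ⟨(g : ℚ) / (a.den * b.den), a', b', Int.isCoprime_iff_gcd_eq_one.2 h1, ?_, ?_⟩
      · have h4 := congrArg (Int.cast : ℤ → ℚ) h2
        push_cast at h4
        have h5 : (a.num : ℚ) = a * a.den := by simp
        have h6 : (a.den : ℚ) ≠ 0 := by exact_mod_cast a.den_nz
        have h7 : (b.den : ℚ) ≠ 0 := by exact_mod_cast b.den_nz
        field_simp
        rw [h5] at h4
        linear_combination h4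
      · have h4 := congrArg (Int.cast : ℤ → ℚ) h3
        push_cast at h4
        have h5 : (b.num : ℚ) = b * b.den := by simp
        have h6 : (a.den : ℚ) ≠ 0 := by exact_mod_cast a.den_nz
        have h7 : (b.den : ℚ) ≠ 0 := by exact_mod_cast b.den_nz
        field_simp
        rw [h5] at h4
        linear_combination h4
  have e1 : (a : L) + b * s = (c : L) * ((a' : L) + b' * s) := by rw [ha, hb]; push_cast; ring
  have e2 : (a : L) - b * s = (c : L) * ((a' : L) - b' * s) := by rw [ha, hb]; push_cast; ring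
  rw [e1, e2] at h ⊢
  by_cases hc : c = 0
  · simp [hc]
  have hc' : (c : L) ≠ 0 := by exact_mod_cast hc
  rw [mul_pow, mul_pow, g2_int d hd h8 h3 s hs a' b' hab]
  intro O p hp h5 hpd hsq hv
  have := h O p hp h5 hpd hsq hv
  rw [map_mul, map_mul] at this
  exact mul_left_cancel₀ (by simpa using hc') this

end Pool.Agent.MP_c481b3_nt.H28
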