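import Pool.Agent.MP_c481b3_nt.H28.Spec6
import Pool.Agent.MP_c481b3_nt.H28.Wq

set_option autoImplicit false

namespace Pool.Agent.MP_c481b3_nt.H28

open WqAux

namespace Per2Aux

variable {L : Type} [Field L] {O : ValuationSubring L} {q : ℕ} {W : Subring L}

lemma exists_inert [IsAlgClosed L] (hq : q.Prime) (h2 : q ≠ 2) (hlt : O.valuation (q : L) < 1) :
    ∃ (l : ℕ) (s : L), Inert O q l s := by
  have := Fact.mk hq
  obtain ⟨a, ha⟩ := FiniteField.exists_nonsquare (F := ZMod q) (by rwa [ZMod.ringChar_zmod_n])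
  obtain ⟨s, hs⟩ := IsAlgClosed.exists_pow_nat_eq (-((-a).val : L)) two_pos
  exact ⟨(-a).val, s, hq, h2, by simpa using ha, hs, hlt⟩

lemma le_one (hW : WR O q W) {x : L} (hx : x ∈ W) : O.valuation x ≤ 1 :=
  (O.valuation_le_one_iff _).2 (hW.le x hx)

lemma exists_exp (hW : WR O q W) : ∃ N : ℕ, N ≠ 0 ∧ ∀ x ∈ W, O.valuation x = 1 →
    O.valuation (x ^ N - 1) ≤ O.valuation (q : L) := by
  obtain ⟨F, hF⟩ := hW.fin 1
  refine ⟨F.card.factorial, Nat.factorial_ne_zero _, fun x hx h1 => ?_⟩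
  choose! y hy using hF
  have key : ∀ i j : ℕ, i < j → j ≤ F.card → y (x ^ i) = y (x ^ j) →
      O.valuation (x ^ F.card.factorial - 1) ≤ O.valuation (q : L) := fun i j hij hj h => by
    obtain ⟨d, rfl⟩ := Nat.exists_eq_add_of_lt hij
    have h2 := (hy _ (W.pow_mem hx i)).2
    have h3 := (hy _ (W.pow_mem hx (i + d + 1))).2
    rw [← h] at h3
    rw [← Valuation.map_neg, neg_sub] at h2
    have h4 := trans_le h3 h2
    rw [add_assoc, pow_add, ← mul_sub_one, map_mul, map_pow, h1, one_pow, one_mul, pow_one] at h4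
    obtain ⟨k, hk⟩ := Nat.dvd_factorial d.succ_pos (show d + 1 ≤ F.card by omega)
    have h5 := pow_sub_le (O := O) (x := x ^ (d + 1)) (y := 1)
      (by rw [map_pow, h1, one_pow]) (by simp) k
    rw [one_pow, ← pow_mul] at h5
    rw [hk]
    exact h5.trans h4
  obtain ⟨i, hi, j, hj, hne, h⟩ := Finset.exists_ne_map_eq_of_card_lt_of_maps_to
    (s := Finset.range (F.card + 1)) (t := F) (by simp) (f := fun i => y (x ^ i))
    fun i _ => (hy _ (W.pow_mem hx i)).1
  rw [Finset.mem_range] at hi hj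
  rcases lt_or_gt_of_ne hne with h' | h'
  · exact key i j h' (by omega) h
  · exact key j i h' (by omega) h.symm

lemma rho_fin (hW : WR O q W) (hlt : O.valuation (q : L) < 1) (m : ℕ) :
    (rho O (O.valuation (q : L) ^ m) '' (W : Set L)).Finite := by
  obtain ⟨F, hF⟩ := hW.fin m
  refine (F.finite_toSet.image (rho O (O.valuation (q : L) ^ m))).subset ?_
  rintro _ ⟨x, hx, rfl⟩
  obtain ⟨y, hy, h⟩ := hF x hx
  refine ⟨y, hy, ((rho_eq (le_one hW hx) ?_).2 h).symm⟩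
  rw [← Valuation.map_neg, neg_sub] at h
  exact split_le (h.trans (pow_le_one' hlt.le m)) (le_one hW hx)

lemma uniform_period {X : Type} {F : Set X} (hF : F.Finite) {U : X → X} (h1 : Set.MapsTo U F F)
    (h2 : Set.InjOn U F) : ∃ T : ℕ, T ≠ 0 ∧ ∀ G ∈ F, ∀ t, U^[T * t] G = G := by
  have := hF.to_subtype
  let e : Equiv.Perm F := Equiv.ofBijective (h1.restrict U F F)
    (Finite.injective_iff_bijective.1 (h1.restrict_inj.2 h2))
  refine ⟨orderOf e, (orderOf_pos e).ne', fun G hG t => ?_⟩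
  have h3 : (e ^ (orderOf e * t)) ⟨G, hG⟩ = ⟨G, hG⟩ := by
    rw [pow_mul, pow_orderOf_eq_one, one_pow]; rfl
  rw [Equiv.Perm.coe_pow] at h3
  have h4 := congrArg Subtype.val h3
  rwa [show (⇑e : F → F) = h1.restrict U F F from rfl, Set.MapsTo.coe_iterate_restrict] at h4

end Per2Aux

open Per2Aux

theorem period2 : Period2 := by
  intro L _ _ _ O q W hq hq2 hlt hW S hS hsw hrt hwr
  obtain ⟨l, s, H⟩ := exists_inert hq hq2 hlt
  obtain ⟨N, hN0, hN⟩ := exists_exp hW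
  refine ⟨N, hN0, fun m => ?_⟩
  have wpow : ∀ x ∈ W, O.valuation x = 1 →
      O.valuation ((x ^ N) ^ q ^ m - 1) ≤ O.valuation (q : L) ^ m := fun x hx h1 =>
    (pow_q H (hN x hx h1) m).trans (by rw [pow_succ]; exact mul_le_of_le_one_right' hlt.le)
  set c := O.valuation (q : L) ^ m with hc
  let ρ := rho O c
  let T := ρ '' (W : Set L)
  have hT : T.Finite := rho_fin hW hlt m
  let cls : S → _ := fun x => (ρ x.1.1, ρ x.1.2.1, ρ x.1.2.2)
  have hcls : (Set.range cls).Finite := (hT.prod (hT.prod hT)).subset (by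
    rintro _ ⟨x, rfl⟩
    exact ⟨⟨_, (hS _ x.2).1, rfl⟩, ⟨_, (hS _ x.2).2.1, rfl⟩, ⟨_, (hS _ x.2).2.2.1, rfl⟩⟩)
  have clsiff : ∀ x y : S, cls x = cls y ↔ O.valuation (x.1.1 - y.1.1) ≤ c ∧
      O.valuation (x.1.2.1 - y.1.2.1) ≤ c ∧ O.valuation (x.1.2.2 - y.1.2.2) ≤ c := fun x y => by
    simp only [cls, Prod.mk.injEq, ρ]
    rw [rho_eq (le_one hW (hS _ x.2).1) (le_one hW (hS _ y.2).1),
      rho_eq (le_one hW (hS _ x.2).2.1) (le_one hW (hS _ y.2).2.1),
      rho_eq (le_one hW (hS _ x.2).2.2.1) (le_one hW (hS _ y.2).2.2.1)]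
  let swS : S → S := fun x => ⟨sw x, hsw _ x.2⟩
  let rtS : S → S := fun x => ⟨rt x, hrt _ x.2⟩
  let wS : S → S := fun x => ⟨wq x, hwr _ x.2 _ (wr_wq _)⟩
  let F : Set (S → O ⧸ II O c) := {G | ((∀ x, G x ∈ T) ∧ ∀ x y, cls x = cls y → G x = G y) ∧
    (∀ x, G (swS x) = G x) ∧ ∀ x, G x ^ q ^ m = 1}
  have hF : F.Finite := (finite_fun cls hcls hT).subset fun G hG => hG.1
  have key : ∀ G ∈ F, ∀ x x' y y' : S, cls x = cls x' → Wr x.1 y.1 → Wr x'.1 y'.1 →
      G y = G y' := by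
    rintro G hG x x' y y' hxx ⟨r, hr, hy⟩ ⟨r', hr', hy'⟩
    obtain ⟨c1, c2, c3⟩ := (clsiff _ _).1 hxx
    have u : ∀ (z : S) (t : L), t ^ 2 = (z.1.1 - z.1.2.1) * (z.1.1 - z.1.2.2) →
        O.valuation t = 1 := fun z t ht => by
      have := (hS _ z.2).2.2.2.2
      rw [← ht, map_pow] at this
      exact (pow_eq_one_iff.1 this).resolve_right two_ne_zero
    have h2 : ∀ t, O.valuation t ≤ c → O.valuation (2 * t) ≤ c := fun t ht => by
      rwa [map_mul, v_two H, one_mul]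
    have hd : O.valuation (r ^ 2 - r' ^ 2) ≤ c := by
      have e : r ^ 2 - r' ^ 2 = (x.1.1 - x.1.2.1) * ((x.1.1 - x'.1.1) - (x.1.2.2 - x'.1.2.2)) +
          ((x.1.1 - x'.1.1) - (x.1.2.1 - x'.1.2.1)) * (x'.1.1 - x'.1.2.2) := by
        rw [hr, hr']; ring
      rw [e]
      refine Valuation.map_add_le _ ?_ ?_ <;> rw [map_mul]
      · exact mul_le_of_le_one_of_le (Valuation.map_sub_le _ (le_one hW (hS _ x.2).1)
          (le_one hW (hS _ x.2).2.1)) (Valuation.map_sub_le _ c1 c3)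
      · exact mul_le_of_le_of_le_one (Valuation.map_sub_le _ c1 c2)
          (Valuation.map_sub_le _ (le_one hW (hS _ x'.2).1) (le_one hW (hS _ x'.2).2.2.1))
    have d1 : O.valuation (-2 * x.1.1 - -2 * x'.1.1) ≤ c := by
      rw [← Valuation.map_neg]
      convert h2 _ c1 using 2
      ring
    rcases root_near H (u x r hr) (u x' r' hr') hd with h | h
    · refine hG.1.2 _ _ ((clsiff _ _).2 ?_)
      rw [hy, hy']
      refine ⟨d1, ?_, ?_⟩
      · convert Valuation.map_add_le _ c1 (h2 _ h) using 2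
        ring
      · convert Valuation.map_sub_le _ c1 (h2 _ h) using 2
        ring
    · rw [← hG.2.1 y']
      refine hG.1.2 _ _ ((clsiff _ _).2 ?_)
      simp only [swS, sw]
      rw [hy, hy']
      refine ⟨d1, ?_, ?_⟩
      · convert Valuation.map_add_le _ c1 (h2 _ h) using 2
        ring
      · convert Valuation.map_sub_le _ c1 (h2 _ h) using 2
        ring
  let A : (S → O ⧸ II O c) → S → O ⧸ II O c := fun G x => G (wS x)
  let B : (S → O ⧸ II O c) → S → O ⧸ II O c := fun G x => G (rtS x) * G (rtS (swS x))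
  have hA : Set.MapsTo A F F := fun G hG =>
    ⟨⟨fun x => hG.1.1 _, fun x y h => key G hG x y _ _ h (wr_wq _) (wr_wq _)⟩,
      fun x => key G hG x x _ _ rfl (wr_sw (wr_wq _)) (wr_wq _), fun x => hG.2.2 _⟩
  have hB : Set.MapsTo B F F := by
    refine fun G hG => ⟨⟨fun x => ?_, fun x y h => ?_⟩, fun x => mul_comm _ _, fun x => ?_⟩
    · obtain ⟨a, ha, ea⟩ := hG.1.1 (rtS x)
      obtain ⟨b, hb, eb⟩ := hG.1.1 (rtS (swS x))
      exact ⟨a * b, W.mul_mem ha hb, by
        simp only [B, ← ea, ← eb]; exact rho_mul (le_one hW ha) (le_one hW hb)⟩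
    · obtain ⟨c1, c2, c3⟩ := (clsiff _ _).1 h
      simp only [B]
      rw [hG.1.2 (rtS x) (rtS y) ((clsiff _ _).2 ⟨c2, c1, c3⟩),
        hG.1.2 (rtS (swS x)) (rtS (swS y)) ((clsiff _ _).2 ⟨c3, c1, c2⟩)]
    · simp only [B, mul_pow, hG.2.2, one_mul]
  have iB : Set.InjOn B F := by
    have e : ∀ G ∈ F, ∀ x, B (B G) x = G x ^ 2 * B G x := fun G hG x => by
      have e1 : G (rtS (swS (rtS x))) = G (rtS (swS x)) := hG.2.1 (rtS (swS x))
      have e2 : G (rtS (swS (rtS (swS x)))) = G (rtS x) := hG.2.1 (rtS x)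
      have e3 : G (rtS (rtS (swS x))) = G x := hG.2.1 x
      have e4 : G (rtS (rtS x)) = G x := rfl
      simp only [B]
      rw [e1, e2, e3, e4]
      ring
    obtain ⟨k, hk⟩ := (H.prime.odd_of_ne_two H.two).pow (n := m)
    intro G hG G' hG' h
    funext x
    have h1 := e G hG x
    rw [h, e G' hG'] at h1
    have h2 := (IsUnit.of_pow_eq_one ((hB hG').2.2 x) (pow_pos H.prime.pos m).ne').mul_right_cancel h1
    have e2 : ∀ a : O ⧸ II O c, a ^ q ^ m = 1 → a = (a ^ 2) ^ (k + 1) := fun a ha => by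
      rw [← pow_mul, show 2 * (k + 1) = q ^ m + 1 by omega, pow_succ, ha, one_mul]
    rw [e2 _ (hG.2.2 x), e2 _ (hG'.2.2 x), h2]
  have iA : Set.InjOn A F := by
    let fo : S → S := fun x => ⟨(4 * x.1.1, 4 * x.1.2.1, 4 * x.1.2.2),
      hwr _ (wS x).2 _ (wr_back (wr_wq _) (hS _ x.2).2.2.2.1)⟩
    have e : ∀ G ∈ F, ∀ x, G (fo x) = A G (wS x) := fun G hG x =>
      key G hG (wS x) (wS x) _ _ rfl (wr_back (wr_wq _) (hS _ x.2).2.2.2.1) (wr_wq _)
    have e1 : ∀ N x, (fo^[N] x).1 = (4 ^ N * x.1.1, 4 ^ N * x.1.2.1, 4 ^ N * x.1.2.2) := by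
      intro N x
      induction N with
      | zero => simp
      | succ N ih => simp only [Function.iterate_succ_apply', fo, ih, pow_succ', mul_assoc]
    have h4 : O.valuation (4 : L) = 1 := by
      rw [show (4 : L) = 2 * 2 by norm_num, map_mul, v_two H, one_mul]
    have e2 : ∀ x, cls (fo^[N * q ^ m] x) = cls x := fun x => by
      have := wpow 4 (ofNat_mem W 4) h4
      rw [← pow_mul] at this
      have u : ∀ t ∈ W, O.valuation (4 ^ (N * q ^ m) * t - t) ≤ c := by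
        intro t ht
        rw [← sub_one_mul, map_mul]
        exact mul_le_of_le_of_le_one this (le_one hW ht)
      rw [clsiff, e1]
      exact ⟨u _ (hS _ x.2).1, u _ (hS _ x.2).2.1, u _ (hS _ x.2).2.2.1⟩
    intro G hG G' hG' h
    funext x
    obtain ⟨k, hk⟩ := Nat.exists_eq_succ_of_ne_zero (mul_ne_zero hN0 (pow_ne_zero m hq.ne_zero))
    rw [← hG.1.2 _ _ (e2 x), ← hG'.1.2 _ _ (e2 x), hk, Function.iterate_succ_apply', e G hG,
      e G' hG', h]
  obtain ⟨P, hP0, hP⟩ := uniform_period hF (hB.comp hA) (iB.comp iA hA)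
  refine ⟨P, hP0, fun g hg hgsw hgc t x0 hx0 => ?_⟩
  let G0 : S → O ⧸ II O c := fun x => ρ (g x ^ N)
  have hG0 : G0 ∈ F := by
    refine ⟨⟨fun x => ⟨_, W.pow_mem (hg _ x.2).1 _, rfl⟩, fun x y h => ?_⟩,
      fun x => by simp only [G0, swS, hgsw _ x.2], fun x => ?_⟩
    · obtain ⟨c1, c2, c3⟩ := (clsiff _ _).1 h
      simp only [G0, ρ]
      rw [rho_pow (hg _ x.2).2.le, rho_pow (hg _ y.2).2.le,
        (rho_eq (hg _ x.2).2.le (hg _ y.2).2.le).2 (hgc _ x.2 _ y.2 c1 c2 c3)]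
    · have u : O.valuation (g x ^ N) ≤ 1 := by rw [map_pow, (hg _ x.2).2, one_pow]
      simp only [G0, ρ]
      rw [← rho_pow u, ← rho_one, rho_eq (by rw [map_pow]; exact pow_le_one' u _) (by simp)]
      exact wpow _ (hg _ x.2).1 (hg _ x.2).2
  have comp : ∀ j, ∀ x : S, O.valuation (UU^[j] g x) ≤ 1 ∧
      (B ∘ A)^[j] G0 x = ρ (UU^[j] g x ^ N) := by
    intro j
    induction j with
    | zero => exact fun x => ⟨(hg _ x.2).2.le, rfl⟩
    | succ j ih =>
      intro x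
      have a1 := ih (wS (rtS x))
      have a2 := ih (wS (rtS (swS x)))
      rw [Function.iterate_succ_apply', Function.iterate_succ_apply']
      refine ⟨by rw [UU, map_mul]; exact mul_le_one' a1.1 a2.1, ?_⟩
      rw [UU, mul_pow]
      refine Eq.trans ?_ (rho_mul (by rw [map_pow]; exact pow_le_one' a1.1 _)
        (by rw [map_pow]; exact pow_le_one' a2.1 _)).symm
      exact congrArg₂ (· * ·) a1.2 a2.2
  have fin := comp (P * t) ⟨x0, hx0⟩
  rw [hP G0 hG0 t] at fin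
  exact (rho_eq (by rw [map_pow]; exact pow_le_one' fin.1 _)
    (by rw [map_pow, (hg _ hx0).2, one_pow])).1 fin.2.symm

end Pool.Agent.MP_c481b3_nt.H28
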