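import Pool.Agent.MP_c481b3_nt.H28.Spec5

set_option autoImplicit false

namespace Pool.Agent.MP_c481b3_nt.H28

/-- a henselian subring of the valuation ring with finite quotients -/
structure WR {L : Type} [Field L] (O : ValuationSubring L) (q : ℕ) (W : Subring L) : Prop where
  le : ∀ x ∈ W, x ∈ O
  inv : ∀ x ∈ W, O.valuation x = 1 → x⁻¹ ∈ W
  fin : ∀ m : ℕ, ∃ F : Finset L, ∀ x ∈ W, ∃ y ∈ F, O.valuation (x - y) ≤ O.valuation (q : L) ^ m
  hen : ∀ r, r ^ 2 ∈ W → O.valuation r = 1 → (∃ a ∈ W, O.valuation (r - a) < 1) → r ∈ W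

/-- every finite set of integral algebraic numbers lies in such a ring -/
def WExist : Prop :=
  ∀ (L : Type) [Field L] [CharZero L] [Algebra.IsAlgebraic ℚ L] (O : ValuationSubring L) (q : ℕ),
    q.Prime → q ≠ 2 → O.valuation (q : L) < 1 → ∀ T : Finset L, (∀ t ∈ T, t ∈ O) →
    ∃ W : Subring L, WR O q W ∧ ∀ t ∈ T, t ∈ W

/-- the iterated products are periodic modulo every power of `q` -/
def Period2 : Prop :=
  ∀ (L : Type) [Field L] [CharZero L] [IsAlgClosed L] (O : ValuationSubring L) (q : ℕ)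
    (W : Subring L), q.Prime → q ≠ 2 → O.valuation (q : L) < 1 → WR O q W →
    ∀ S : Set (L × L × L),
    (∀ x ∈ S, x.1 ∈ W ∧ x.2.1 ∈ W ∧ x.2.2 ∈ W ∧ x.1 + x.2.1 + x.2.2 = 0 ∧
      O.valuation ((x.1 - x.2.1) * (x.1 - x.2.2)) = 1) →
    (∀ x ∈ S, sw x ∈ S) → (∀ x ∈ S, rt x ∈ S) → (∀ x ∈ S, ∀ y, Wr x y → y ∈ S) →
    ∃ N : ℕ, N ≠ 0 ∧ ∀ m : ℕ, ∃ T : ℕ, T ≠ 0 ∧ ∀ g : L × L × L → L,
      (∀ x ∈ S, g x ∈ W ∧ O.valuation (g x) = 1) → (∀ x ∈ S, g (sw x) = g x) →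
      (∀ x ∈ S, ∀ y ∈ S, O.valuation (x.1 - y.1) ≤ O.valuation (q : L) ^ m →
        O.valuation (x.2.1 - y.2.1) ≤ O.valuation (q : L) ^ m →
        O.valuation (x.2.2 - y.2.2) ≤ O.valuation (q : L) ^ m →
        O.valuation (g x - g y) ≤ O.valuation (q : L) ^ m) →
      ∀ t : ℕ, ∀ x ∈ S, O.valuation (UU^[T * t] g x ^ N - g x ^ N) ≤ O.valuation (q : L) ^ m

/-- an element of `ℚ(s)` that is symmetric at all split primes has a rational power -/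
def GamCore2 : Prop :=
  ∀ (L : Type) [Field L] [CharZero L] (d : ℕ), Squarefree d → d % 8 ≠ 7 → d % 3 ≠ 2 →
    ∀ s : L, s ^ 2 = -d → ∀ a b : ℚ,
    (∀ (O : ValuationSubring L) (p : ℕ), p.Prime → 5 ≤ p → ¬p ∣ d → IsSquare (-(d : ZMod p)) →
      O.valuation (p : L) < 1 → O.valuation ((a : L) + b * s) = O.valuation ((a : L) - b * s)) →
    ((a : L) + b * s) ^ 12 = ((a : L) - b * s) ^ 12

end Pool.Agent.MP_c481b3_nt.H28
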