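import Pool.Agent.MP_c481b3_nt.H28.Wq
import Pool.Agent.MP_c481b3_nt.H28.Spec6

set_option autoImplicit false

namespace Pool.Agent.MP_c481b3_nt.H28

namespace WExAux

open WqAux Polynomial

variable {L : Type} [Field L]

lemma prim_root [CharZero L] [Algebra.IsAlgebraic ℚ L] (t : L) :
    ∃ p : ℤ[X], p.IsPrimitive ∧ aeval t p = 0 := by
  classical
  obtain ⟨p, hp, h⟩ : IsAlgebraic ℤ t :=
    (IsFractionRing.isAlgebraic_iff ℤ ℚ L).2 (Algebra.IsAlgebraic.isAlgebraic t)
  refine ⟨p.primPart, p.isPrimitive_primPart, ?_⟩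
  rw [p.eq_C_content_mul_primPart, map_mul, aeval_C] at h
  refine (mul_eq_zero.1 h).resolve_left ?_
  simpa using fun h0 => hp (content_eq_zero_iff.1 h0)

lemma quot_finite [CharZero L] [Algebra.IsAlgebraic ℚ L] {q : ℕ} (hq : q.Prime) (T : Finset L) :
    Finite (Subring.closure (T : Set L) ⧸
      Ideal.span {(q : Subring.closure (T : Set L))}) := by
  classical
  have := Fact.mk hq
  set R := Subring.closure (T : Set L) with hR
  set A := R ⧸ Ideal.span {(q : R)}
  let π : R →+* A := Ideal.Quotient.mk _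
  have h0 : (q : A) = 0 := by
    rw [← map_natCast π]
    exact Ideal.Quotient.eq_zero_iff_mem.2 (Ideal.mem_span_singleton_self _)
  let _ : Algebra (ZMod q) A := (ZMod.castHom (ringChar.dvd h0) A).toAlgebra
  let S : Set A := Set.range fun t : T => π ⟨t, Subring.subset_closure t.2⟩
  have hS : ∀ x ∈ S, IsIntegral (ZMod q) x := by
    rintro _ ⟨t, rfl⟩
    obtain ⟨p, hp, ht⟩ := prim_root (t : L)
    refine IsAlgebraic.isIntegral ⟨p.map (Int.castRingHom (ZMod q)), fun h => ?_, ?_⟩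
    · have h1 : C (q : ℤ) ∣ p := by
        rw [C_dvd_iff_dvd_coeff]
        intro i
        have := congrArg (fun f => coeff f i) h
        simpa [ZMod.intCast_zmod_eq_zero_iff_dvd] using this
      have := hp _ h1
      rw [Int.isUnit_iff_natAbs_eq] at this
      exact hq.one_lt.ne' (by simpa using this)
    · have h1 : aeval (⟨t, Subring.subset_closure t.2⟩ : R) p = 0 := by
        apply Subtype.val_injective
        have := aeval_algHom_apply R.subtype.toIntAlgHom (⟨t, Subring.subset_closure t.2⟩ : R) p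
        simpa [ht] using this.symm
      have h2 := aeval_algHom_apply π.toIntAlgHom (⟨t, Subring.subset_closure t.2⟩ : R) p
      rw [h1, map_zero] at h2
      rw [aeval_def, eval₂_map, ← h2, aeval_def]
      congr 1
      exact RingHom.ext_int _ _
  have hfg := fg_adjoin_of_finite (Set.finite_range _) hS
  have htop : Algebra.adjoin (ZMod q) S = ⊤ := by
    rw [eq_top_iff]
    rintro x -
    obtain ⟨⟨x, hx⟩, rfl⟩ := Ideal.Quotient.mk_surjective x
    change π ⟨x, hx⟩ ∈ _
    induction hx using Subring.closure_induction with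
    | mem x hx => exact Algebra.subset_adjoin ⟨⟨x, hx⟩, rfl⟩
    | zero => exact (map_zero π).symm ▸ zero_mem _
    | one => exact (map_one π).symm ▸ one_mem _
    | add x y hx hy h1 h2 => exact (map_add π ⟨x, hx⟩ ⟨y, hy⟩).symm ▸ add_mem h1 h2
    | neg x hx h1 => exact (map_neg π ⟨x, hx⟩).symm ▸ neg_mem h1
    | mul x y hx hy h1 h2 => exact (map_mul π ⟨x, hx⟩ ⟨y, hy⟩).symm ▸ mul_mem h1 h2
  rw [htop, Algebra.top_toSubmodule] at hfg
  have : Module.Finite (ZMod q) A := ⟨hfg⟩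
  exact Module.finite_of_finite (ZMod q)

lemma fin_of_quot {O : ValuationSubring L} {q : ℕ} {R : Subring L} (hR : ∀ x ∈ R, x ∈ O)
    (h : Finite (R ⧸ Ideal.span {(q : R)})) (m : ℕ) :
    ∃ F : Finset L, ∀ x ∈ R, ∃ y ∈ F, O.valuation (x - y) ≤ O.valuation (q : L) ^ m := by
  classical
  have := Ideal.finite_quotient_pow (I := Ideal.span {(q : R)})
    (Submodule.fg_span_singleton _) m
  have := Fintype.ofFinite (R ⧸ Ideal.span {(q : R)} ^ m)
  refine ⟨Finset.univ.image fun z : R ⧸ Ideal.span {(q : R)} ^ m => (Quotient.out z : R), ?_⟩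
  intro x hx
  refine ⟨_, Finset.mem_image_of_mem _ (Finset.mem_univ (Ideal.Quotient.mk _ ⟨x, hx⟩)), ?_⟩
  have h1 := Ideal.Quotient.eq.1 (Ideal.Quotient.mk_out
    (Ideal.Quotient.mk (Ideal.span {(q : R)} ^ m) ⟨x, hx⟩)).symm
  generalize Quotient.out (Ideal.Quotient.mk (Ideal.span {(q : R)} ^ m) ⟨x, hx⟩) = y at h1 ⊢
  rw [Ideal.span_singleton_pow, Ideal.mem_span_singleton'] at h1
  obtain ⟨a, ha⟩ := h1
  have e : x - y = a * (q : L) ^ m := by simpa using (congrArg Subtype.val ha).symm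
  rw [e, map_mul, map_pow]
  exact mul_le_of_le_one_left' ((O.valuation_le_one_iff _).2 (hR _ a.2))

variable {O : ValuationSubring L} {q : ℕ} {R : Subring L}

/-- limits of elements of `R` -/
def Lim (O : ValuationSubring L) (q : ℕ) (R : Subring L) (x : L) : Prop :=
  ∀ m : ℕ, ∃ a ∈ R, O.valuation (x - a) ≤ O.valuation (q : L) ^ m

lemma lim_le (hR : ∀ x ∈ R, x ∈ O) {x : L} (h : Lim O q R x) : O.valuation x ≤ 1 := by
  obtain ⟨a, ha, h⟩ := h 0
  exact split_le (by simpa using h) ((O.valuation_le_one_iff _).2 (hR a ha))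

lemma lim_self {x : L} (h : x ∈ R) : Lim O q R x := fun _ => ⟨x, h, by simp⟩

/-- the ring of limits -/
def LW (q : ℕ) (hR : ∀ x ∈ R, x ∈ O) : Subring L where
  carrier := {x | Lim O q R x}
  zero_mem' := lim_self R.zero_mem
  one_mem' := lim_self R.one_mem
  add_mem' {x y} hx hy m := by
    obtain ⟨a, ha, h1⟩ := hx m
    obtain ⟨b, hb, h2⟩ := hy m
    refine ⟨a + b, add_mem ha hb, ?_⟩
    rw [add_sub_add_comm]
    exact Valuation.map_add_le _ h1 h2
  neg_mem' {x} hx m := by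
    obtain ⟨a, ha, h1⟩ := hx m
    refine ⟨-a, neg_mem ha, ?_⟩
    rw [← Valuation.map_neg] at h1
    convert h1 using 2
    ring
  mul_mem' {x y} hx hy m := by
    obtain ⟨a, ha, h1⟩ := hx m
    obtain ⟨b, hb, h2⟩ := hy m
    refine ⟨a * b, mul_mem ha hb, ?_⟩
    rw [show x * y - a * b = x * (y - b) + (x - a) * b by ring]
    refine Valuation.map_add_le _ ?_ ?_ <;> rw [map_mul]
    · exact mul_le_of_le_one_of_le (lim_le hR hx) h2
    · exact mul_le_of_le_of_le_one h1 ((O.valuation_le_one_iff _).2 (hR b hb))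

lemma lim_lim {x : L}
    (h : ∀ m : ℕ, ∃ y, Lim O q R y ∧ O.valuation (x - y) ≤ O.valuation (q : L) ^ m) :
    Lim O q R x := fun m => by
  obtain ⟨y, hy, h1⟩ := h m
  obtain ⟨a, ha, h2⟩ := hy m
  exact ⟨a, ha, trans_le h1 h2⟩

lemma pigeon {W : Subring L} {c : O.ValueGroup}
    (h : ∃ F : Finset L, ∀ x ∈ W, ∃ y ∈ F, O.valuation (x - y) ≤ c) {x : L} (hx : x ∈ W) :
    ∃ i k : ℕ, O.valuation x ^ i * O.valuation (1 - x ^ (k + 1)) ≤ c := by
  obtain ⟨F, hF⟩ := h
  choose f h1 h2 using fun n : ℕ => hF _ (pow_mem hx n)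
  obtain ⟨i, j, hij, e⟩ := Set.Finite.exists_lt_map_eq_of_forall_mem (t := (F : Set L)) h1
    F.finite_toSet
  obtain ⟨k, rfl⟩ := Nat.exists_eq_add_of_lt hij
  refine ⟨i, k, ?_⟩
  have := Valuation.map_sub_le _ (h2 i) (h2 (i + k + 1))
  rw [e] at this
  rw [← map_pow, ← map_mul]
  convert this using 2
  ring

lemma two_unit (hq : q.Prime) (h2 : q ≠ 2) (hv : O.valuation (q : L) < 1) :
    O.valuation (2 : L) = 1 := by
  obtain ⟨k, hk⟩ := hq.odd_of_ne_two h2
  refine (v_nat O 2).eq_or_lt.resolve_right fun h => ?_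
  have e : (1 : L) = q - k * 2 := by rw [hk]; push_cast; ring
  have : O.valuation (1 : L) < 1 := by
    rw [e]
    refine Valuation.map_sub_lt _ hv ?_
    rw [map_mul]
    exact lt1 (v_nat O k) (by simpa using h)
  simp at this

lemma wr_lw (hq : q.Prime) (h2 : q ≠ 2) (hv : O.valuation (q : L) < 1) (hR : ∀ x ∈ R, x ∈ O)
    (hf : ∀ m : ℕ, ∃ F : Finset L, ∀ x ∈ R, ∃ y ∈ F,
      O.valuation (x - y) ≤ O.valuation (q : L) ^ m) : WR O q (LW q hR) := by
  have fin : ∀ m : ℕ, ∃ F : Finset L, ∀ x ∈ LW q hR, ∃ y ∈ F,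
      O.valuation (x - y) ≤ O.valuation (q : L) ^ m := fun m => by
    obtain ⟨F, hF⟩ := hf m
    refine ⟨F, fun x hx => ?_⟩
    obtain ⟨a, ha, h1⟩ := hx m
    obtain ⟨y, hy, h2⟩ := hF a ha
    exact ⟨y, hy, trans_le h1 h2⟩
  have inv : ∀ x ∈ LW q hR, O.valuation x = 1 → x⁻¹ ∈ LW q hR := fun x hx h1 => by
    refine lim_lim fun m => ?_
    obtain ⟨i, k, h⟩ := pigeon (fin m) hx
    refine ⟨x ^ k, pow_mem hx k, ?_⟩
    have h0 : x ≠ 0 := by rintro rfl; simp at h1
    rw [show x⁻¹ - x ^ k = x⁻¹ * (1 - x ^ (k + 1)) by field_simp; ring, map_mul, map_inv₀, h1]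
    simpa [h1] using h
  refine ⟨fun x hx => (O.valuation_le_one_iff _).1 (lim_le hR hx), inv, fin, ?_⟩
  rintro r h hr ⟨a, ha, hra⟩
  have v2 := two_unit hq h2 hv
  have h3 : O.valuation (r ^ 2 - a ^ 2) = O.valuation (r - a) := by
    have : O.valuation (r + a) = 1 := v_near (r := 2 * r)
      (by rw [map_mul, v2, hr, one_mul]) (by convert hra using 2; ring)
    rw [sq_sub_sq, map_mul, this, one_mul]
  obtain ⟨i, k, hi⟩ := pigeon (fin 1) (sub_mem h (pow_mem ha 2))
  rw [Valuation.map_one_sub_of_lt _ (by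
    rw [map_pow, h3]; exact pow_lt_one' hra k.succ_ne_zero), h3, mul_one, pow_one] at hi
  have key : ∀ n : ℕ, ∃ y ∈ LW q hR, O.valuation (r - y) ≤ O.valuation (r - a) ^ (n + 1) := by
    intro n
    induction n with
    | zero => exact ⟨a, ha, by simp⟩
    | succ n ih =>
      obtain ⟨y, hy, h1⟩ := ih
      have h4 : O.valuation (r - y) ≤ O.valuation (r - a) :=
        h1.trans (by rw [pow_succ]; exact mul_le_of_le_one_left' (pow_le_one' hra.le _))
      have h5 : O.valuation (2 * y) = 1 := by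
        rw [map_mul, v2, v_near hr (h4.trans_lt hra), one_mul]
      have h6 : 2 * y ≠ 0 := by rintro h0; simp [h0] at h5
      refine ⟨y + (r ^ 2 - y ^ 2) * (2 * y)⁻¹, add_mem hy (mul_mem (sub_mem h (pow_mem hy 2))
        (inv _ (mul_mem (ofNat_mem _ 2) hy) h5)), ?_⟩
      have e : r - (y + (r ^ 2 - y ^ 2) * (2 * y)⁻¹) = -((r - y) * (r - y) * (2 * y)⁻¹) := by
        have := left_ne_zero_of_mul h6
        have := right_ne_zero_of_mul h6
        field_simp
        ring
      rw [e, Valuation.map_neg, map_mul, map_mul, map_inv₀, h5, inv_one, mul_one, pow_succ]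
      exact mul_le_mul' h1 h4
  refine lim_lim fun m => ?_
  obtain ⟨y, hy, h1⟩ := key (i * m)
  refine ⟨y, hy, h1.trans ?_⟩
  rw [pow_succ, pow_mul]
  exact (mul_le_of_le_one_right' hra.le).trans (pow_le_pow_left' hi m)

end WExAux

open WExAux

theorem wExist : WExist := by
  intro L _ _ _ O q hq h2 hv T hT
  have hR : ∀ x ∈ Subring.closure (T : Set L), x ∈ O := fun x hx =>
    (Subring.closure_le (t := O.toSubring)).2 (fun t ht => hT t ht) hx
  exact ⟨LW q hR, wr_lw hq h2 hv hR (fin_of_quot hR (quot_finite hq T)),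
    fun t ht => lim_self (Subring.subset_closure ht)⟩

end Pool.Agent.MP_c481b3_nt.H28
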