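import Pool.Agent.MP_c481b3_nt.H28.GIn
import Pool.Agent.MP_c481b3_nt.H28.WEx
import Pool.Agent.MP_c481b3_nt.H28.Gam2
import Pool.Agent.MP_c481b3_nt.H28.Per2

set_option autoImplicit false

namespace Pool.Agent.MP_c481b3_nt.H28

open Pool.Agent.MP_c481b3_nt.H81 Polynomial NumberField IsLocalRing IntermediateField
  IsDedekindDomain

lemma exists_model {R κ : Type} [CommRing R] [Field κ] (φ : R →+* κ) (h2 : (2 : κ) ≠ 0)
    (h3 : (3 : κ) ≠ 0) (c : R) : ∃ A B : R, Good (φ A) (φ B) ∧ jj (φ A) (φ B) = φ c := by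
  have a4 : (4 : κ) ≠ 0 := by convert pow_ne_zero 2 h2 using 1; norm_num
  have a27 : (27 : κ) ≠ 0 := by convert pow_ne_zero 3 h3 using 1; norm_num
  by_cases h0 : φ c = 0
  · exact ⟨0, 1, ⟨h2, by simpa using a27⟩, by simp [jj, h0]⟩
  by_cases h1 : φ c = 1728
  · exact ⟨1, 0, ⟨h2, by simpa using a4⟩, by simp [jj, h1, div_eq_iff a4]; norm_num⟩
  have g : Good (φ (3 * c * (1728 - c))) (φ (2 * c * (1728 - c) ^ 2)) := ⟨h2, by
    simp only [map_mul, map_sub, map_pow, map_ofNat]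
    convert mul_ne_zero (mul_ne_zero (pow_ne_zero 4 a4) (pow_ne_zero 2 a27)) (mul_ne_zero
      (pow_ne_zero 2 h0) (pow_ne_zero 3 (sub_ne_zero.2 (Ne.symm h1)))) using 1
    ring⟩
  refine ⟨_, _, g, ?_⟩
  rw [jj, div_eq_iff g.disc]
  simp only [map_mul, map_sub, map_pow, map_ofNat]
  ring

lemma not_ss {K L : Type} [Field K] [NumberField K] [Field L] [IsAlgClosed L]
    {O : ValuationSubring L} {q r : ℕ} [Fact q.Prime] [CharP (ResidueField O) q]
    [DecidableEq (ResidueField O)] (h5 : 5 ≤ q) {j : K}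
    (hq : ∀ v : HeightOneSpectrum (𝓞 K), (q : 𝓞 K) ∈ v.asIdeal → ∀ A B : 𝓞 K,
      (Wc A B).Δ ∉ v.asIdeal → v.valuation K (j - jj (A : K) B) < 1 → ¬(q : ℤ) ∣ aP A B v.asIdeal)
    (ψ : K →+* L) (A' B' : ResidueField O) (f : FG q r A' B') : ¬Ev (resPlc O) (ψ j) (jj A' B') := by
  classical
  intro e
  have := resid_closed O
  obtain ⟨h2, h3⟩ := small_ne (ResidueField O) h5
  obtain ⟨φ, hφ, hP, m⟩ := exists_phi' (O := O) (Fact.out : q.Prime) ψ
  let v : HeightOneSpectrum (𝓞 K) := ⟨RingHom.ker φ, hP.isPrime,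
    Ring.ne_bot_of_isMaximal_of_not_isField hP (RingOfIntegers.not_isField K)⟩
  have key : ∀ (z : K) (z' : ResidueField O), Ev (resPlc O) (ψ z) z' →
      ∃ n d : 𝓞 K, φ d ≠ 0 ∧ z * d = n ∧ z' * φ d = φ n := fun z z' hz => by
    have k : ∀ n d : 𝓞 K, z * d = n → z' * φ d = φ n := fun n d h =>
      (hz.mul (hφ d)).unique (by rw [← map_mul, h]; exact hφ n)
    obtain ⟨n, d, h | h⟩ := v.exists_primeCompl_mul_eq_or_mul_eq (K := K) z
    · exact ⟨n, d, d.2, h, k _ _ h⟩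
    · exact ⟨d, n, fun e => d.2 ((k _ _ h).symm.trans (by rw [e, mul_zero])), h, k _ _ h⟩
  obtain ⟨n, d, d0, -, e1⟩ := key _ _ e
  obtain ⟨y, w, hw, e2⟩ := hP.exists_inv (x := d) d0
  obtain ⟨A, B, g, e3⟩ := exists_model φ h2 h3 (n * y)
  have e4 : jj (φ A) (φ B) = jj A' B' := by
    have := congrArg φ e2
    rw [map_add, map_mul, map_one, show φ w = 0 from hw] at this
    rw [e3, map_mul, ← e1]
    linear_combination jj A' B' * this
  have hΔ : (Wc A B).Δ ∉ RingHom.ker φ := fun e => mul_ne_zero (neg_ne_zero.2 (pow_ne_zero 4 h2))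
    g.disc (by simpa [Wc_disc, map_ofNat, show (2 : ResidueField O) ^ 4 = 16 by norm_num] using e)
  obtain ⟨n, hG, hA, hB, n0, -, tr⟩ := loc_hom q h3 φ hP (fun _ => Iff.rfl) hΔ
  have b := hq v m A B hΔ (by
    obtain ⟨n, d, d0, e5, e6⟩ := key (j - jj (A : K) B) 0 (by
      rw [map_sub, jj_map, ← sub_self (jj A' B')]
      exact e.sub (e4 ▸ ev_jj (hφ A) (hφ B) g))
    have := congrArg (v.valuation K) e5
    rw [map_mul, (v.valuation_eq_one_iff_notMem (K := K) (r := d)).2 d0, mul_one] at this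
    rw [this]
    exact (v.valuation_lt_one_iff_mem n).2 (e6.symm.trans (zero_mul _)))
  obtain ⟨u, u1⟩ := is_iso h3 hG f.1 (jj_eq h3 hG f.1 e4)
  have cr := compRing h3 hG
  obtain ⟨Q, q0, q1⟩ := exists_tors h3 hG (frE hG q n hA hB - (aP A B (RingHom.ker φ) : ℤ)) (by
    rwa [map_sub, cE_frE _ _ _ _ _ n0, map_intCast, zero_sub, neg_ne_zero, Ne,
      CharP.intCast_eq_zero_iff _ q]) (p := q) Fact.out (by
    rw [cr.sub, NE_frE, ← mul_one (aP A B (RingHom.ker φ) : EE hG), cr.pol_int', tr, mul_one,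
      cr.int, ← sq, sub_add_cancel]
    exact dvd_pow_self _ n0)
  exact q0 ((one_nsmul Q).symm.trans (u1.ker (f.tors (by rw [← map_nsmul, q1, map_zero]))))

variable {K : Type} [Field K] [NumberField K] {d : ℕ} {s : K}

lemma nm_lin' (d0 : 0 < d) (hs : s ^ 2 = -d) (z : K) :
    ∃ a b : ℚ, ((Algebra.norm ℚ⟮s⟯ z : ℚ⟮s⟯) : K) = a + b * s ∧
      ∀ τ : AlgebraicClosure K →+* AlgebraicClosure K,
        ∏ σ : K →ₐ[ℚ⟮s⟯] AlgebraicClosure K, τ (σ z) = a + b * τ (algebraMap K _ s) := by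
  obtain ⟨a, b, e⟩ := gam_one d d0 s hs _ (Algebra.norm ℚ⟮s⟯ z).2
  refine ⟨a, b, e, fun τ => ?_⟩
  rw [← map_prod, ← Algebra.norm_eq_prod_embeddings,
    show algebraMap ℚ⟮s⟯ (AlgebraicClosure K) (Algebra.norm ℚ⟮s⟯ z)
      = algebraMap K _ ((Algebra.norm ℚ⟮s⟯ z : ℚ⟮s⟯) : K) from rfl, e]
  simp

theorem gf_main {K₀ : Type} [Field K₀] [NumberField K₀] (ι : K₀ →+* K)
    [DecidableEq (AlgebraicClosure K)] (sf : Squarefree d) (h8 : d % 8 ≠ 7) (h3 : d % 3 ≠ 2)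
    (hs : s ^ 2 = -d) {e : ℕ} {A₀ B₀ : K}
    (cm : CMv (d * 4 ^ e) (algebraMap K (AlgebraicClosure K) A₀) (algebraMap K _ B₀))
    (hi : IsIntegral ℤ (jj A₀ B₀)) {A B : 𝓞 K₀} (hΔ : (Wc A B).Δ ≠ 0)
    {q : ℕ} (hp : q.Prime) (h5 : 5 ≤ q) (non : ¬IsSquare (-(d : ZMod q)))
    (hq : ∀ v : HeightOneSpectrum (𝓞 K₀), (q : 𝓞 K₀) ∈ v.asIdeal → ∀ A' B' : 𝓞 K₀,
      (Wc A' B').Δ ∉ v.asIdeal → v.valuation K₀ (jj (A : K₀) B - jj (A' : K₀) B') < 1 →
        ¬(q : ℤ) ∣ aP A' B' v.asIdeal)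
    (hn : ∀ r : ℚ, ((Algebra.norm ℚ⟮s⟯ (Phi2 (ι (jj (A : K₀) B)) (jj A₀ B₀) /
      (ι (jj (A : K₀) B) - jj A₀ B₀) ^ 3) : ℚ⟮s⟯) : K) ^ 12 ≠ r) : (Exc A B d).Infinite := by
  classical
  intro fin
  have := gam_alg K
  have d0 := Nat.pos_of_ne_zero sf.ne_zero
  set s' := algebraMap K (AlgebraicClosure K) s with hs'
  have h2 : s' ^ 2 = -d := by rw [hs', ← map_pow, hs, map_neg, map_natCast]
  obtain ⟨τ, hτ⟩ := gam_two K d d0 _ h2
  set j := ι (jj (A : K₀) B) with hj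
  obtain ⟨e₁, e₂, e₃, R⟩ := exists_rt (algebraMap K (AlgebraicClosure K) A₀) (algebraMap K _ B₀)
  have G := cm.choose_spec.choose_spec.1.good
  have st : St (e₁, e₂, e₃) := ⟨R.s1, by rwa [R.s2, R.s3] at G⟩
  have c0 := sub_ne_zero.2 (R.ne G).1
  have eJ : JJ (e₁, e₂, e₃) = algebraMap K _ (jj A₀ B₀) := by rw [jj_map, R.s2, R.s3]; rfl
  let X := fun θ : AlgebraicClosure K →+* AlgebraicClosure K => mp θ (θ (e₁ - e₂)⁻¹) (e₁, e₂, e₃)
  have c1 : ∀ θ : AlgebraicClosure K →+* AlgebraicClosure K, θ (e₁ - e₂)⁻¹ ≠ 0 := fun θ =>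
    (map_ne_zero θ).2 (inv_ne_zero c0)
  have hX : ∀ θ, Base (d * 4 ^ e) (X θ) := fun θ => base_of (st.mp θ (c1 θ))
    (by simp only [X, mp]; rw [← mul_sub, ← map_sub, ← map_mul, inv_mul_cancel₀ c0, map_one])
    (by rw [JJ_mp θ (c1 θ), eJ]; exact hi.map (θ.comp (algebraMap K _)).toIntAlgHom)
    ((cm.map θ).iso (st.mp θ (c1 θ)).good (by rw [sA_mp, sB_mp, R.s2, R.s3, sA, sB]; ring))
  have ex : ∀ i, ∃ z : K, algebraMap K _ z = ZZ (algebraMap K _ j) (e₁, e₂, e₃) i := fun i =>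
    (InfiniteGalois.mem_range_algebraMap_iff_fixed _).2 fun θ => by
      have a := ZZ_mp (θ : AlgebraicClosure K →+* AlgebraicClosure K) one_ne_zero
        (algebraMap K _ j) (e₁, e₂, e₃) i
      simp only [mp, one_mul, RingHom.coe_coe, AlgEquiv.commutes] at a
      rw [← a]
      exact ZZ_perm R ⟨by rw [← map_add, ← map_add, R.s1, map_zero],
        by simpa using congrArg θ R.s2, by simpa using congrArg θ R.s3⟩ _ _
  choose z hz using ex
  choose θ hθ using gam_three K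
  have emb : ∀ (σ : K →+* AlgebraicClosure K) i, σ (z i) = ZZ (σ j) (X (θ σ)) i := fun σ i => by
    rw [← hθ σ (z i), ← hθ σ j, hz]; exact (ZZ_mp (θ σ : _ →+* _) (c1 _) _ _ i).symm
  obtain ⟨n, units⟩ := split_gen hΔ sf h8 (hX (RingHom.id _)) ((algebraMap K _).comp ι) z
    (fun i => (hz i).trans (ZZ_mp (RingHom.id _) (c1 _) _ _ i).symm) fin
  obtain ⟨O, hO⟩ := cg_exists_val (L := AlgebraicClosure K) hp
  have := res_charP hp hO
  have : Fact q.Prime := ⟨hp⟩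
  have := resid_closed O
  obtain ⟨t2, t3⟩ := small_ne (ResidueField O) h5
  have q0 : ¬q ∣ d := fun h => non (by simp [(ZMod.natCast_eq_zero_iff d q).2 h])
  have red : ∀ σ : K →+* AlgebraicClosure K, ∃ x' r, Ev3 (resPlc O) (X (θ σ)) x' ∧ r ≠ 0 ∧
      FG q r (sA x') (sB x') := fun σ => by
    obtain ⟨x', a, b⟩ := (hX (θ σ)).red O q hp h5 hO
    obtain ⟨r, r0, f⟩ := exists_fg t3 q (res_alg O q) b.good ((hX (θ σ)).cm.red
      (rd_of a.sA a.sB b.good) t3 (de_ne q0 t2)) fun ⟨w, hw⟩ => non ⟨w / 2 ^ e, by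
        have : (2 : ZMod q) ≠ 0 := (small_ne _ h5).1
        push_cast at hw
        rw [show (4 : ZMod q) = 2 ^ 2 by norm_num, pow_right_comm] at hw
        field_simp
        linear_combination hw⟩
    exact ⟨x', r, a, r0, f⟩
  choose x' r ev r0 fg using red
  have R0 : ∏ σ, r σ ≠ 0 := Finset.prod_ne_zero_iff.2 fun σ _ => r0 σ
  have Q1 : 1 < q ^ ∏ σ, r σ := Nat.one_lt_pow R0 hp.one_lt
  have ne := FiniteField.X_pow_card_sub_X_ne_zero (AlgebraicClosure K) Q1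
  obtain ⟨W, hW, hT⟩ := wExist _ O q hp (by omega) hO ((Finset.univ.biUnion fun σ =>
    {(X (θ σ)).1, (X (θ σ)).2.1, (X (θ σ)).2.2, if σ j ∈ O then σ j else (σ j)⁻¹})
      ∪ (Polynomial.X ^ q ^ ∏ σ, r σ - Polynomial.X : (AlgebraicClosure K)[X]).roots.toFinset)
      fun t ht => by
    rcases Finset.mem_union.1 ht with ht | ht
    · obtain ⟨σ, -, ht⟩ := Finset.mem_biUnion.1 ht
      simp only [Finset.mem_insert, Finset.mem_singleton] at ht
      rcases ht with rfl | rfl | rfl | rfl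
      exacts [(ev σ).1.mem, (ev σ).2.1.mem, (ev σ).2.2.mem, by
        split_ifs with h
        exacts [h, (O.mem_or_inv_mem _).resolve_left h]]
    · have e : t ^ q ^ ∏ σ, r σ = t := by
        simpa [sub_eq_zero] using (mem_roots ne).1 (Multiset.mem_toFinset.1 ht)
      rw [← O.valuation_le_one_iff]
      by_contra h
      have := pow_lt_pow_right₀ (not_le.1 h) Q1
      rw [← map_pow, ← map_pow, e, pow_one] at this
      exact this.false
  have mem : ∀ (σ : K →+* AlgebraicClosure K) t, t ∈ ({(X (θ σ)).1, (X (θ σ)).2.1, (X (θ σ)).2.2,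
      if σ j ∈ O then σ j else (σ j)⁻¹} : Finset _) → t ∈ W := fun σ t ht =>
    hT t (Finset.mem_union_left _ (Finset.mem_biUnion.2 ⟨σ, Finset.mem_univ _, ht⟩))
  obtain ⟨N, N0, hN⟩ := inert_gen hW h5 R0 (fun t ht => hT t (Finset.mem_union_right _
    (Multiset.mem_toFinset.2 ((mem_roots ne).2 (by simp [ht]))))) period2 hO
  have sym : ∀ i, n ≤ i → (∏ σ : K →ₐ[ℚ⟮s⟯] AlgebraicClosure K, σ (z (i + 1) / z i ^ 2)) ^ 12
      = (∏ σ : K →ₐ[ℚ⟮s⟯] AlgebraicClosure K, τ (σ (z (i + 1) / z i ^ 2))) ^ 12 := fun i hi => by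
    obtain ⟨a, b, -, h⟩ := nm_lin' d0 hs (z (i + 1) / z i ^ 2)
    have a1 := h (RingHom.id _)
    have a2 := h τ
    simp only [RingHom.id_apply, RingHom.coe_coe, ← hs', hτ, mul_neg, ← sub_eq_add_neg] at a1 a2
    rw [a1, a2]
    refine gamCore2 _ d sf h8 h3 s' h2 a b fun O p b1 b2 b3 b4 b5 => ?_
    rw [← a1, ← a2, map_prod, map_prod]
    exact Finset.prod_congr rfl fun σ _ => (units i hi O p b1 b2 b3 b4 b5 σ.toRingHom).trans
      (units i hi O p b1 b2 b3 b4 b5 (τ.toRingHom.comp σ.toRingHom)).symm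
  have one := sub_eq_zero.1 ((ctrSpec K).2.2 O q hp hO
    ((∏ σ : K →ₐ[ℚ⟮s⟯] AlgebraicClosure K, σ (z 1 / z 0 ^ 2) ^ N) ^ 12
      - (∏ σ : K →ₐ[ℚ⟮s⟯] AlgebraicClosure K, τ (σ (z 1 / z 0 ^ 2)) ^ N) ^ 12) fun m => by
    obtain ⟨T, T0, h⟩ := hN m
    have key : ∀ σ : K →+* AlgebraicClosure K, Cg O (O.valuation (q : AlgebraicClosure K) ^ m)
        (σ (z (T * n + 1) / z (T * n) ^ 2) ^ N) (σ (z 1 / z 0 ^ 2) ^ N) := fun σ => by
      simp only [map_div₀, map_pow, emb]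
      refine h (σ j) (fun e => mem σ _ (by simp [e])) (fun e => mem σ _ (by simp [e]))
        (not_ss h5 hq (σ.comp ι)) _ ⟨mem σ _ (by simp), mem σ _ (by simp), mem σ _ (by simp),
          (hX _).st.sum, _, ev σ, ?_⟩ n
      rw [← Finset.mul_prod_erase _ _ (Finset.mem_univ σ)]
      exact (fg σ).mul (Finset.prod_ne_zero_iff.2 fun σ _ => r0 σ)
    have a := ((Cg.prod Finset.univ fun σ : K →ₐ[ℚ⟮s⟯] AlgebraicClosure K =>
      key σ.toRingHom).pow 12).le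
    have b := ((Cg.prod Finset.univ fun σ : K →ₐ[ℚ⟮s⟯] AlgebraicClosure K =>
      key (τ.toRingHom.comp σ.toRingHom)).pow 12).le
    have c := congrArg (· ^ N) (sym (T * n) (Nat.le_mul_of_pos_left n (Nat.pos_of_ne_zero T0)))
    simp only [pow_right_comm _ 12, ← Finset.prod_pow _ N] at c
    rw [Valuation.map_sub_swap] at a
    exact WqAux.trans_le a (c ▸ b))
  set g := Phi2 j (jj A₀ B₀) / (j - jj A₀ B₀) ^ 3 with hg
  have e0 : z 1 / z 0 ^ 2 = g ^ 2 := (algebraMap K (AlgebraicClosure K)).injective (by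
    rw [map_div₀, map_pow, hz, hz, ZZ_zero_one R G, ← jj_map, hg]
    simp [Phi2, map_ofNat])
  obtain ⟨a, b, -, h⟩ := nm_lin' d0 hs g
  have a1 := h (RingHom.id _)
  have a2 := h τ
  simp only [RingHom.id_apply, RingHom.coe_coe, ← hs', hτ, mul_neg, ← sub_eq_add_neg] at a1 a2
  simp only [e0, map_pow, Finset.prod_pow, a1, a2, ← pow_mul] at one
  have e := gamCore2 _ d sf h8 h3 s' h2 a b fun O _ _ _ _ _ _ => by
    have := congrArg O.valuation one
    rwa [map_pow, map_pow, pow_left_inj₀ zero_le zero_le (by positivity)] at this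
  obtain ⟨u, v, e1, h'⟩ := nm_lin' d0 hs (g ^ 12)
  have e2 := h' (RingHom.id _)
  have e3 := h' τ
  simp only [RingHom.id_apply, RingHom.coe_coe, ← hs', hτ, mul_neg, ← sub_eq_add_neg, map_pow,
    Finset.prod_pow, a1, a2] at e2 e3
  refine hn u ?_
  rw [map_pow] at e1
  rw [← SubmonoidClass.coe_pow, e1, add_eq_left]
  refine (algebraMap K (AlgebraicClosure K)).injective (mul_left_cancel₀ two_ne_zero ?_)
  rw [map_mul, map_ratCast, map_zero]
  linear_combination e3 - e2 + e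

end Pool.Agent.MP_c481b3_nt.H28
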