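import Pool.Agent.MP_c481b3_nt.H28.GSp
import Pool.Agent.MP_c481b3_nt.H28.Spec6

set_option autoImplicit false

namespace Pool.Agent.MP_c481b3_nt.H28

open Pool.Agent.MP_c481b3_nt.H81 Polynomial NumberField IsLocalRing

variable {L : Type} [Field L] {O : ValuationSubring L} {γ : O.ValueGroup}
  {q r : ℕ} {W : Subring L} [Fact q.Prime] [CharP (ResidueField O) q]
  [DecidableEq (ResidueField O)] {x y : L × L × L}

/-- the states over the ring with supersingular reduction -/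
def SG (O : ValuationSubring L) (q r : ℕ) (W : Subring L) [Fact q.Prime] [CharP (ResidueField O) q]
    [DecidableEq (ResidueField O)] : Set (L × L × L) :=
  {x | x.1 ∈ W ∧ x.2.1 ∈ W ∧ x.2.2 ∈ W ∧ x.1 + x.2.1 + x.2.2 = 0 ∧
    ∃ x', Ev3 (resPlc O) x x' ∧ FG q r (sA x') (sB x')}

lemma SG.sw (h : x ∈ SG O q r W) : sw x ∈ SG O q r W := by
  obtain ⟨a, b, c, d, x', e, f⟩ := h
  exact ⟨a, c, b, by rw [← d]; simp only [H28.sw]; ring, _, e.sw, by rwa [sA_sw, sB_sw]⟩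

lemma SG.rt (h : x ∈ SG O q r W) : rt x ∈ SG O q r W := by
  obtain ⟨a, b, c, d, x', e, f⟩ := h
  exact ⟨b, a, c, by rw [← d]; simp only [H28.rt]; ring, _, e.rt, by rwa [sA_rt, sB_rt]⟩

lemma SG.unit (h : x ∈ SG O q r W) : O.valuation ((x.1 - x.2.1) * (x.1 - x.2.2)) = 1 := by
  obtain ⟨a, b, c, d, x', e, f⟩ := h
  obtain ⟨n1, n2, -⟩ := (e.rt' d).ne f.1
  exact ((e.1.sub e.2.1).mul (e.1.sub e.2.2)).v_one
    (mul_ne_zero (sub_ne_zero.2 n1) (sub_ne_zero.2 n2))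

lemma SG.disc (h : x ∈ SG O q r W) : O.valuation (4 * sA x ^ 3 + 27 * sB x ^ 2) = 1 := by
  obtain ⟨a, b, c, d, x', e, f⟩ := h
  exact (((Ev.ofNat _ 4).mul (e.sA.pow 3)).add ((Ev.ofNat _ 27).mul (e.sB.pow 2))).v_one f.1.disc

lemma SG.cg (hx : x ∈ SG O q r W) (hy : y ∈ SG O q r W) (a : Cg O γ (sA x) (sA y))
    (b : Cg O γ (sB x) (sB y)) : Cg O γ (JJ x) (JJ y) :=
  ((Cg.ofNat γ 6912).mul (a.pow 3)).div (((Cg.ofNat γ 4).mul (a.pow 3)).add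
    ((Cg.ofNat γ 27).mul (b.pow 2))) (SG.disc hx) (SG.disc hy)

variable (hW : WR O q W)
include hW

lemma SG.jj (h : x ∈ SG O q r W) : JJ x ∈ W := by
  have d := SG.disc h
  obtain ⟨a, b, c, -⟩ := h
  have hA : sA x ∈ W := add_mem (add_mem (mul_mem a b) (mul_mem a c)) (mul_mem b c)
  have hB : sB x ∈ W := neg_mem (mul_mem (mul_mem a b) c)
  rw [JJ, H28.jj, div_eq_mul_inv]
  exact mul_mem (mul_mem (natCast_mem _ 6912) (pow_mem hA 3)) (hW.inv _ (W.add_mem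
    (mul_mem (natCast_mem _ 4) (pow_mem hA 3)) (mul_mem (natCast_mem _ 27) (pow_mem hB 2))) d)

variable [IsAlgClosed L] (h5 : 5 ≤ q) (r0 : r ≠ 0) (hT : ∀ z : L, z ^ q ^ r = z → z ∈ W)
include h5 r0 hT

lemma SG.wr (h : x ∈ SG O q r W) (w : Wr x y) : y ∈ SG O q r W := by
  have u := SG.unit h
  obtain ⟨a, b, c, d, x', e, f⟩ := h
  obtain ⟨h2, h3⟩ := small_ne (ResidueField O) h5
  have := resid_closed O
  obtain ⟨y', e', w'⟩ := e.wr w
  have f' := f.step h3 (e.rt' d) w'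
  have st := (wr_st (e.rt' d) f.1 w').rt
  obtain ⟨t, hr, rfl⟩ := w
  have h4 : (4 : ResidueField O) ≠ 0 := by
    rw [show (4 : ResidueField O) = 2 * 2 by norm_num]; exact mul_ne_zero h2 h2
  have l4 := (Ev.ofNat (resPlc O) 4).ne_zero h4
  have er : Ev (resPlc O) t ((y'.2.1 - y'.2.2) / 4) :=
    ((e'.2.1.sub e'.2.2).div (Ev.ofNat _ 4) h4).congr (by field_simp; ring) rfl
  have hw : t ∈ W := hW.hen _ (hr ▸ W.mul_mem (sub_mem a b) (sub_mem a c))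
    (by rwa [← hr, map_pow, pow_eq_one_iff_left two_ne_zero] at u) (by
      have v : O.valuation _ < 1 := (((er.pow (q ^ r)).sub er).congr rfl (by
        rw [← iterateFrobenius_def, map_div₀, map_sub, map_ofNat, iterateFrobenius_def,
          iterateFrobenius_def, f'.root st.swap, f'.root st.rot.rot, sub_self])).v_lt
      have hq : 1 < q ^ r := Nat.one_lt_pow r0 (by omega)
      have mo : (X ^ q ^ r - X : L[X]).Monic := (monic_X_pow _).sub_of_left (by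
        rw [degree_X, degree_X_pow]; exact_mod_cast hq)
      have ev := (IsAlgClosed.splits (X ^ q ^ r - X : L[X])).eval_eq_prod_roots_of_monic mo t
      rw [eval_sub, eval_pow, eval_X] at ev
      rw [ev, map_multiset_prod, Multiset.map_map] at v
      by_contra hc
      refine v.not_ge (Multiset.one_le_prod_map fun z hz => not_lt.1 fun e => hc ⟨z, hT z ?_, e⟩)
      simpa [sub_eq_zero] using (mem_roots mo.ne_zero).1 hz)
  have t : (2 : L) ∈ W := natCast_mem _ 2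
  exact ⟨W.mul_mem (neg_mem t) a, W.add_mem a (mul_mem t hw), W.sub_mem a (mul_mem t hw), by ring,
    y', e', f'⟩

lemma SG.cg_wq (hx : x ∈ SG O q r W) (hy : y ∈ SG O q r W) (a : Cg O γ (sA x) (sA y))
    (b : Cg O γ (sB x) (sB y)) (c : Cg O γ x.1 y.1) : Cg O γ (JJ (wq x)) (JJ (wq y)) := by
  obtain ⟨-, a1, a2⟩ := wr_val ⟨hx.2.2.2.1, rfl, rfl⟩ (wr_wq x)
  obtain ⟨-, b1, b2⟩ := wr_val ⟨hy.2.2.2.1, rfl, rfl⟩ (wr_wq y)
  have t := ((Cg.ofNat γ 3).mul (c.pow 2)).add a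
  refine SG.cg (SG.wr hW h5 r0 hT hx (wr_wq x)) (SG.wr hW h5 r0 hT hy (wr_wq y)) ?_ ?_
  · rw [a1, b1]; exact a.sub ((Cg.ofNat γ 5).mul t)
  · rw [a2, b2]; exact b.sub ((Cg.ofNat γ 7).mul (t.mul c))

theorem inert_gen [CharZero L] (hP : Period2) (hv : O.valuation (q : L) < 1) :
    ∃ N : ℕ, N ≠ 0 ∧ ∀ m : ℕ, ∃ T : ℕ, T ≠ 0 ∧ ∀ a : L, (a ∈ O → a ∈ W) → (a ∉ O → a⁻¹ ∈ W) →
      (∀ A B, FG q r A B → ¬Ev (resPlc O) a (jj A B)) → ∀ x ∈ SG O q r W, ∀ t : ℕ,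
      Cg O (O.valuation (q : L) ^ m) ((ZZ a x (T * t + 1) / ZZ a x (T * t) ^ 2) ^ N)
        ((ZZ a x 1 / ZZ a x 0 ^ 2) ^ N) := by
  obtain ⟨N, N0, hN⟩ := hP L O q W Fact.out (by omega) hv hW (SG O q r W)
    (fun x hx => ⟨hx.1, hx.2.1, hx.2.2.1, hx.2.2.2.1, SG.unit hx⟩) (fun x => SG.sw) (fun x => SG.rt)
    fun x hx y => SG.wr hW h5 r0 hT hx
  refine ⟨N, N0, fun m => ?_⟩
  obtain ⟨T, T0, hT'⟩ := hN m
  refine ⟨T, T0, fun a a1 a2 a3 => ?_⟩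
  obtain ⟨c, u, v, c0, u1, v1, e, one⟩ : ∃ c u v : L, c ≠ 0 ∧ u ∈ W ∧ v ∈ W ∧
      (∀ t, a - t = (u - v * t) * c) ∧ ∀ x ∈ SG O q r W, O.valuation (u - v * JJ x) = 1 := by
    by_cases ha : a ∈ O
    · refine ⟨1, a, 1, one_ne_zero, a1 ha, one_mem _, by simp, ?_⟩
      rintro x ⟨-, -, -, -, x', e, f⟩
      have := Ev.of_mem (π := resPlc O) ha
      rw [one_mul]
      exact (this.sub (ev_jj e.sA e.sB f.1)).v_one fun z => a3 _ _ f (sub_eq_zero.1 z ▸ this)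
    · have a0 : a ≠ 0 := fun e => ha (e ▸ zero_mem _)
      refine ⟨a, 1, a⁻¹, a0, one_mem _, a2 ha, fun t => by field_simp, ?_⟩
      rintro x ⟨-, -, -, -, x', e, f⟩
      exact ((Ev.one _).sub ((Ev.inv_of_not ha).mul (ev_jj e.sA e.sB f.1))).v_one (by simp)
  have inW : ∀ x ∈ SG O q r W, u - v * JJ x ∈ W := fun x hx =>
    sub_mem u1 (mul_mem v1 (SG.jj hW hx))
  have w1 : ∀ x ∈ SG O q r W, wq (rt x) ∈ SG O q r W := fun x hx =>
    SG.wr hW h5 r0 hT (SG.rt hx) (wr_wq _)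
  have gW : ∀ x ∈ SG O q r W, UU (fun y => u - v * JJ y) x / (u - v * JJ x) ^ 2 ∈ W := fun x hx => by
    rw [div_eq_mul_inv, ← inv_pow]
    exact W.mul_mem (mul_mem (inW _ (w1 x hx)) (inW _ (w1 _ (SG.sw hx))))
      (pow_mem (hW.inv _ (inW x hx) (one x hx)) 2)
  have main := hT' (fun x => UU (fun y => u - v * JJ y) x / (u - v * JJ x) ^ 2)
    (fun x hx => ⟨gW x hx, by
      rw [map_div₀, UU, map_mul, map_pow, one x hx, one _ (w1 x hx), one _ (w1 _ (SG.sw hx))]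
      simp⟩) (fun x _ => by rw [UU_sw, JJ_sw]) fun x hx y hy c1 c2 c3 => by
    have d1 : Cg O _ _ _ := ⟨hW.le _ hx.1, hW.le _ hy.1, c1⟩
    have d2 : Cg O _ _ _ := ⟨hW.le _ hx.2.1, hW.le _ hy.2.1, c2⟩
    have d3 : Cg O _ _ _ := ⟨hW.le _ hx.2.2.1, hW.le _ hy.2.2.1, c3⟩
    have a : Cg O _ (sA x) (sA y) := ((d1.mul d2).add (d1.mul d3)).add (d2.mul d3)
    have b : Cg O _ (sB x) (sB y) := ((d1.mul d2).mul d3).neg
    have key : ∀ x y, Cg O (O.valuation (q : L) ^ m) x y →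
        Cg O (O.valuation (q : L) ^ m) (u - v * x) (u - v * y) :=
      fun x y c => (Cg.refl _ (hW.le _ u1)).sub ((Cg.refl _ (hW.le _ v1)).mul c)
    refine (((key _ _ (SG.cg_wq hW h5 r0 hT (SG.rt hx) (SG.rt hy) ?_ ?_ d2)).mul
      (key _ _ (SG.cg_wq hW h5 r0 hT (SG.rt (SG.sw hx)) (SG.rt (SG.sw hy)) ?_ ?_ d3))).div
        ((key _ _ (SG.cg hx hy a b)).pow 2) ?_ ?_).le
    · rwa [sA_rt, sA_rt]
    · rwa [sB_rt, sB_rt]
    · rwa [sA_rt, sA_rt, sA_sw, sA_sw]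
    · rwa [sB_rt, sB_rt, sB_sw, sB_sw]
    · rw [map_pow, one x hx, one_pow]
    · rw [map_pow, one y hy, one_pow]
  have k1 : ∀ i x, UU^[i + 1] (fun y => a - JJ y) x / UU^[i] (fun y => a - JJ y) x ^ 2
      = UU^[i] (fun x => UU (fun y => u - v * JJ y) x / (u - v * JJ x) ^ 2) x := fun i x => by
    simp only [e, UU_mul, UU_const]
    rw [UU_div, UU_pow, ← Function.iterate_succ_apply, mul_pow, ← pow_mul, ← pow_succ,
      mul_div_mul_right _ _ (pow_ne_zero _ c0)]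
  have k2 : ∀ x ∈ SG O q r W, ∀ t, Cg O (O.valuation (q : L) ^ m)
      ((UU^[T * t + 1] (fun y => a - JJ y) x / UU^[T * t] (fun y => a - JJ y) x ^ 2) ^ N)
      ((UU^[0 + 1] (fun y => a - JJ y) x / UU^[0] (fun y => a - JJ y) x ^ 2) ^ N) := fun x hx t => by
    rw [k1, k1]
    have m2 := pow_mem (hW.le _ (gW x hx)) N
    refine ⟨?_, m2, main t x hx⟩
    rw [← O.valuation_le_one_iff] at m2 ⊢
    exact WqAux.split_le ((main t x hx).trans (pow_le_one' hv.le m)) m2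
  intro x hx t
  convert ((k2 x hx t).mul (k2 _ (SG.rt hx) t)).mul (k2 _ (SG.rt (SG.sw hx)) t) using 1 <;>
    rw [ZZ, ZZ, mul_pow, mul_pow, mul_div_mul_comm, mul_div_mul_comm, mul_pow, mul_pow]

end Pool.Agent.MP_c481b3_nt.H28
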