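import Pool.Agent.MP_c481b3_nt.H28.GWk
import Pool.Agent.MP_c481b3_nt.H28.FFb
import Pool.Agent.MP_c481b3_nt.H28.CtrGam

set_option autoImplicit false

namespace Pool.Agent.MP_c481b3_nt.H28

open Pool.Agent.MP_c481b3_nt.H81 Polynomial IsLocalRing

/-- the modular polynomial of level two -/
def Phi2 {k : Type*} [CommRing k] (X Y : k) : k :=
  X ^ 3 + Y ^ 3 - X ^ 2 * Y ^ 2 + 1488 * (X ^ 2 * Y + X * Y ^ 2) - 162000 * (X ^ 2 + Y ^ 2)
    + 40773375 * X * Y + 8748000000 * (X + Y) - 157464000000000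

section phi
variable {k : Type} [Field k] {A B e₁ e₂ e₃ : k}

lemma jj_wr (h : Rt A B e₁ e₂ e₃) (hG : Good A B) {z : k × k × k} (w : Wr (e₁, e₂, e₃) z) :
    JJ z = 16 * ((e₂ - e₃) ^ 2 + 16 * ((e₁ - e₂) * (e₁ - e₃))) ^ 3
      / ((e₂ - e₃) ^ 4 * ((e₁ - e₂) * (e₁ - e₃))) := by
  obtain ⟨-, a, b⟩ := wr_val h w
  obtain ⟨n1, n2, n3⟩ := h.ne hG
  rw [JJ, jj, div_eq_div_iff (wr_st h hG w).good.disc (mul_ne_zero (pow_ne_zero _ (sub_ne_zero.2 n3))
    (mul_ne_zero (sub_ne_zero.2 n1) (sub_ne_zero.2 n2))), a, b, h.s2, h.s3]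
  obtain rfl : e₃ = -e₁ - e₂ := by linear_combination h.s1
  ring

lemma jj_rt (h : Rt A B e₁ e₂ e₃) (hG : Good A B) :
    jj A B = 256 * ((e₂ - e₃) ^ 2 + (e₁ - e₂) * (e₁ - e₃)) ^ 3
      / ((e₁ - e₂) * (e₁ - e₃) * (e₂ - e₃)) ^ 2 := by
  obtain ⟨n1, n2, n3⟩ := h.ne hG
  rw [jj, div_eq_div_iff hG.disc (pow_ne_zero _ (mul_ne_zero (mul_ne_zero (sub_ne_zero.2 n1)
    (sub_ne_zero.2 n2)) (sub_ne_zero.2 n3))), h.s2, h.s3]
  obtain rfl : e₃ = -e₁ - e₂ := by linear_combination h.s1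
  ring

lemma phi_id (h : Rt A B e₁ e₂ e₃) (hG : Good A B) {x y z : k × k × k} (a : Wr (e₁, e₂, e₃) x)
    (b : Wr (e₂, e₁, e₃) y) (c : Wr (e₃, e₁, e₂) z) (t : k) :
    (t - JJ x) * (t - JJ y) * (t - JJ z) = Phi2 t (jj A B) := by
  obtain ⟨n1, n2, n3⟩ := h.ne hG
  rw [jj_wr h hG a, jj_wr h.swap hG b, jj_wr h.rot.rot hG c, jj_rt h hG, Phi2]
  obtain ⟨u, rfl⟩ : ∃ u, e₁ = e₂ + u := ⟨e₁ - e₂, by ring⟩
  obtain ⟨v, rfl⟩ : ∃ v, e₃ = e₂ - v := ⟨e₂ - e₃, by ring⟩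
  have u0 : u ≠ 0 := fun e => n1 (by simp [e])
  have v0 : v ≠ 0 := fun e => n3 (by simp [e])
  have w0 : u + v ≠ 0 := fun e => n2 (by linear_combination e)
  simp only [show e₂ + u - e₂ = u by ring, show e₂ - (e₂ - v) = v by ring,
    show e₂ + u - (e₂ - v) = u + v by ring, show e₂ - (e₂ + u) = -u by ring,
    show e₂ - v - (e₂ + u) = -(u + v) by ring, show e₂ - v - e₂ = -v by ring]
  field_simp
  ring

/-- a semilinear map of states -/
def mp (θ : k →+* k) (c : k) (x : k × k × k) : k × k × k := (c * θ x.1, c * θ x.2.1, c * θ x.2.2)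

lemma sA_mp (θ : k →+* k) (c : k) (x : k × k × k) : sA (mp θ c x) = c ^ 2 * θ (sA x) := by
  simp only [sA, mp, map_add, map_mul]; ring

lemma sB_mp (θ : k →+* k) (c : k) (x : k × k × k) : sB (mp θ c x) = c ^ 3 * θ (sB x) := by
  simp only [sB, mp, map_neg, map_mul]; ring

lemma jj_map {k' : Type} [Field k'] (θ : k →+* k') (A B : k) : θ (jj A B) = jj (θ A) (θ B) := by
  simp [jj, map_ofNat]

lemma JJ_mp (θ : k →+* k) {c : k} (c0 : c ≠ 0) (x : k × k × k) : JJ (mp θ c x) = θ (JJ x) := by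
  rw [JJ, JJ, jj_map, sA_mp, sB_mp, jj, jj, ← mul_div_mul_left (6912 * θ (sA x) ^ 3) _ (pow_ne_zero 6 c0)]
  congr 1 <;> ring

lemma St.mp {x : k × k × k} (h : St x) (θ : k →+* k) {c : k} (c0 : c ≠ 0) : St (mp θ c x) := by
  refine ⟨by simpa [H28.mp, ← mul_add, ← map_add] using Or.inr h.sum, h.good.two, ?_⟩
  rw [sA_mp, sB_mp]
  convert mul_ne_zero (pow_ne_zero 6 c0) (h.good.map θ).disc using 1
  ring

variable [IsAlgClosed k] {M N : Type} [CommMonoid M] [CommMonoid N]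

lemma UU_sw_iter {f : k × k × k → M} (h : ∀ y, f (sw y) = f y) (n : ℕ) (y : k × k × k) :
    UU^[n] f (sw y) = UU^[n] f y := by
  rcases n with _ | n
  · exact h y
  · rw [Function.iterate_succ_apply']; exact UU_sw _ y

lemma UU_mp (θ : k →+* k) (c : k) (φ : M →* N) (n : ℕ) {f : k × k × k → M} {g : k × k × k → N}
    (h1 : ∀ y, g (sw y) = g y) (h2 : ∀ y, g (mp θ c y) = φ (f y)) :
    ∀ y, UU^[n] g (mp θ c y) = φ (UU^[n] f y) := by
  induction n with
  | zero => exact h2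
  | succ n ih =>
    have key : ∀ y, UU^[n] g (wq (mp θ c y)) = φ (UU^[n] f (wq y)) := fun y => by
      obtain ⟨r, hr, e⟩ := wr_wq y
      have w : Wr (mp θ c y) (mp θ c (wq y)) :=
        ⟨c * θ r, by simp only [mp, mul_pow, ← map_pow, hr, map_mul, map_sub]; ring,
          by simp only [e, mp, map_ofNat, map_mul, map_neg, map_add, map_sub]; ring_nf⟩
      rcases wr_uniq w (wr_wq _) with e | e <;> rw [e]
      · exact ih _
      · rw [UU_sw_iter h1, ih]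
    intro y
    rw [Function.iterate_succ_apply', Function.iterate_succ_apply', UU, UU, map_mul, ← key, ← key]
    rfl

/-- the product over all walks of the given length -/
noncomputable def ZZ (t : k) (x : k × k × k) (i : ℕ) : k :=
  UU^[i] (fun y => t - JJ y) x * UU^[i] (fun y => t - JJ y) (rt x)
    * UU^[i] (fun y => t - JJ y) (rt (sw x))

lemma ZZ_mp (θ : k →+* k) {c : k} (c0 : c ≠ 0) (t : k) (x : k × k × k) (i : ℕ) :
    ZZ (θ t) (mp θ c x) i = θ (ZZ t x i) := by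
  have := UU_mp θ c θ.toMonoidHom i (f := fun y => t - JJ y) (g := fun y => θ t - JJ y)
    (fun y => by rw [JJ_sw]) fun y => by simp [JJ_mp θ c0]
  rw [ZZ, ZZ, map_mul, map_mul]
  exact congrArg₂ _ (congrArg₂ _ (this x) (this (rt x))) (this (rt (sw x)))

lemma ZZ_perm {a b c : k} (h : Rt A B e₁ e₂ e₃) (h' : Rt A B a b c) (t : k) (i : ℕ) :
    ZZ t (a, b, c) i = ZZ t (e₁, e₂, e₃) i := by
  have s := UU_sw_iter (f := fun y => t - JJ y) (fun y => by rw [JJ_sw]) i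
  have k1 : ∀ a b c, ZZ t (a, c, b) i = ZZ t (a, b, c) i := fun a b c => by
    rw [ZZ, ZZ, ← s (a, b, c), mul_right_comm]; rfl
  have k2 : ∀ a b c, ZZ t (b, a, c) i = ZZ t (a, b, c) i := fun a b c => by
    rw [ZZ, ZZ, ← s (rt (sw (a, b, c))), mul_comm (UU^[i] _ (a, b, c))]; rfl
  have key : ∀ {e₁ e₂ e₃}, Rt A B e₁ e₂ e₃ → a = e₁ → ZZ t (a, b, c) i = ZZ t (e₁, e₂, e₃) i := by
    rintro _ e₂ e₃ h rfl
    have e : (b - e₂) * (b - e₃) = 0 := by
      linear_combination h'.s2 - h.s2 + (b + a) * (h'.s1 - h.s1)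
    rcases mul_eq_zero.1 e with e | e
    · rw [sub_eq_zero.1 e, show c = e₃ by linear_combination h'.s1 - h.s1 - e]
    · rw [sub_eq_zero.1 e, show c = e₂ by linear_combination h'.s1 - h.s1 - e, k1]
  have e : (a - e₁) * (a - e₂) * (a - e₃) = 0 := by
    linear_combination -h'.root - a * h.s2 - h.s3 - a ^ 2 * h.s1
  rcases mul_eq_zero.1 e with e | e
  · rcases mul_eq_zero.1 e with e | e
    · exact key h (sub_eq_zero.1 e)
    · rw [key h.swap (sub_eq_zero.1 e), k2]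
  · rw [key h.rot.rot (sub_eq_zero.1 e), k2, k1]

lemma ZZ_zero_one (h : Rt A B e₁ e₂ e₃) (hG : Good A B) (t : k) :
    ZZ t (e₁, e₂, e₃) 1 / ZZ t (e₁, e₂, e₃) 0 ^ 2 = (Phi2 t (jj A B) / (t - jj A B) ^ 3) ^ 2 := by
  have e : JJ (e₁, e₂, e₃) = jj A B := by rw [h.s2, h.s3]; rfl
  have r : ∀ y : k × k × k, JJ (rt y) = JJ y := fun y => by rw [JJ, sA_rt, sB_rt, JJ]
  have a := phi_id h hG (wr_wq _) (wr_wq _) (wr_wq _) t
  have b := phi_id h hG (WqAux.wr_sw (wr_wq _)) (WqAux.wr_sw (wr_wq _)) (WqAux.wr_sw (wr_wq _)) t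
  rw [div_pow, sq (Phi2 _ _)]
  congr 1
  · refine Eq.trans ?_ (congrArg₂ (· * ·) a b)
    simp only [ZZ, Function.iterate_one, UU, rt, sw]
    ring
  · simp only [ZZ, Function.iterate_zero, id, r, JJ_sw, e]
    ring

end phi

section cm
variable {k : Type} [Field k] [DecidableEq k] {A B A₁ B₁ : k} {n : ℕ}

/-- a square root of `-n` given by the quotient formulas -/
def CMv (n : ℕ) (A B : k) : Prop := ∃ (C : Finset (Pt A B)) (u : k), VD C u A B ∧ C.card = n ∧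
  u ^ 2 = -n

lemma CMv.map {k' : Type} [Field k'] [DecidableEq k'] (h : CMv n A B) (θ : k →+* k') :
    CMv n (θ A) (θ B) := by
  obtain ⟨C, u, d, c, e⟩ := h
  exact ⟨_, _, d.base θ, by rw [Finset.card_image_of_injective _ (Sc.injective _), c], by
    rw [← map_pow, e, map_neg, map_natCast]⟩

variable [IsAlgClosed k] [CharZero k]

lemma vd_sq [DecidableEq (RatFunc k)] [DecidableEq (LL k)] {C : Finset (Pt A B)} {u : k}
    (d : VD C u A B) (e : u ^ 2 = -C.card) : ∃ χ : EE d.good, χ.1 = d.hom three_ne_zero ∧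
      cE d.good χ = u ∧ χ * χ = -(C.card : EE d.good) := by
  obtain ⟨χ, a, b, c⟩ := d.exists_end (hG := d.good) three_ne_zero
  have ch := (compRing three_ne_zero d.good).char χ
  have := congrArg (cE d.good) ch
  rw [map_mul, map_sub, map_mul, map_intCast, map_intCast, b, c, ← sq, e, Int.cast_natCast,
    eq_sub_iff_add_eq, neg_add_cancel, eq_comm, mul_eq_zero_iff_right d.hu, Int.cast_eq_zero] at this
  exact ⟨χ, a, b, by rw [ch, this, c]; simp⟩

lemma CMv.iso (h : CMv n A B) (hG : Good A₁ B₁) (e : A ^ 3 * B₁ ^ 2 = A₁ ^ 3 * B ^ 2) :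
    CMv n A₁ B₁ := by
  classical
  obtain ⟨C, u, d, rfl, e'⟩ := h
  obtain ⟨χ, -, a, b⟩ := vd_sq d e'
  obtain ⟨f, hf⟩ := is_iso three_ne_zero d.good hG e
  obtain ⟨ψ, p1, p2⟩ := cm_move three_ne_zero hG b (by rw [a]; exact d.hu) hf (by simp)
  obtain ⟨D, d', c, -⟩ := exists_vd three_ne_zero ψ p2
  rw [one_pow, mul_one] at p1
  rw [(compRing three_ne_zero hG).norm_of_sq (Int.natCast_nonneg C.card) (by simpa using p1)] at c
  exact ⟨D, _, d', by exact_mod_cast c, by simpa [sq] using congrArg (cE hG) p1⟩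

lemma CMv.red {O : ValuationSubring k} [DecidableEq (ResidueField O)] [IsAlgClosed (ResidueField O)]
    [DecidableEq (RatFunc (ResidueField O))] [DecidableEq (LL (ResidueField O))]
    {A' B' : ResidueField O} (h : CMv n A B) (r : Rd (resPlc O) A B A' B')
    (h3 : (3 : ResidueField O) ≠ 0) (n0 : (n : ResidueField O) ≠ 0) : CMb r.good n := by
  classical
  obtain ⟨C, u, d, rfl, e⟩ := h
  obtain ⟨χ, a, -, b⟩ := vd_sq d e
  have m := (Ev.nat (resPlc O) C.card).neg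
  have hu := Ev.of_mem (π := resPlc O) (mem_of_sq (e ▸ m.mem))
  have u0 : (resPlc O).ev u ≠ 0 := fun z => n0 (by
    simpa [z] using ((hu.pow 2).unique (m.congr e.symm rfl)).symm)
  have hf := red_sub_ne r d.sub n0
  obtain ⟨ψ, p1, p2, -⟩ := (d.red r r hu u0 hf).exists_end (hG := r.good) h3
  refine ⟨ψ, EE_ext' fun Q hQ => ?_, p2 ▸ u0⟩
  obtain ⟨P, rfl⟩ : ∃ P, r.red P = Q := by
    obtain ⟨x, hx⟩ := residue_surjective (xc Q)
    obtain ⟨P, P0, hP⟩ := exists_pt d.good (x : k)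
    have m : xc P ∈ (resPlc O).O := hP ▸ x.2
    rcases eq_or_neg (r.red_ne P0 m) hQ (by rw [r.xc_red P0 m, hP, ← hx]; exact (resPlc O).ev_coe x)
      with e | e
    · exact ⟨P, e⟩
    · exact ⟨-P, by rw [map_neg, e, neg_neg]⟩
  have := congrArg (fun φ : EE d.good => r.red (φ.1 P)) b
  simp only [EE_mul, EE_neg, EE_nat, a, map_neg, map_nsmul] at this
  rw [EE_mul, EE_neg, EE_nat, p1, ← this]
  exact ((d.red_vm r r hu u0 hf _).trans (congrArg _ (d.red_vm r r hu u0 hf P))).symm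

end cm

variable {L : Type} [Field L] [DecidableEq L] {n : ℕ} {x : L × L × L}

/-- a starting state -/
structure Base (n : ℕ) (x : L × L × L) : Prop where
  st : St x
  red : ∀ (O : ValuationSubring L) (p : ℕ), p.Prime → 5 ≤ p → O.valuation (p : L) < 1 →
    ∃ x', Ev3 (resPlc O) x x' ∧ St x'
  cm : CMv n (sA x) (sB x)

omit [DecidableEq L] in
lemma St.rt' (h : St x) : St (H28.rt x) :=
  ⟨by rw [← h.sum]; simp only [H28.rt]; ring, by rw [sA_rt, sB_rt]; exact h.good⟩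

omit [DecidableEq L] in
lemma St.sw (h : St x) : St (H28.sw x) :=
  ⟨by rw [← h.sum]; simp only [H28.sw]; ring, by rw [sA_sw, sB_sw]; exact h.good⟩

lemma Base.rt (h : Base n x) : Base n (rt x) :=
  ⟨h.st.rt', fun O p a b c => (h.red O p a b c).elim fun _ e => ⟨_, e.1.rt, e.2.rt'⟩,
    by rw [sA_rt, sB_rt]; exact h.cm⟩

lemma Base.sw (h : Base n x) : Base n (sw x) :=
  ⟨h.st.sw, fun O p a b c => (h.red O p a b c).elim fun _ e => ⟨_, e.1.sw, e.2.sw⟩,
    by rw [sA_sw, sB_sw]; exact h.cm⟩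

lemma base_of (st : St x) (h1 : x.1 - x.2.1 = 1) (hi : IsIntegral ℤ (JJ x))
    (cm : CMv n (sA x) (sB x)) : Base n x := by
  refine ⟨st, fun O p hp h5 hv => ?_, cm⟩
  have := res_charP hp hv
  obtain ⟨h2, h3⟩ := small_ne (ResidueField O) h5
  have l3 := (Ev.ofNat (resPlc O) 3).ne_zero h3
  have h8 : (256 : ResidueField O) ≠ 0 := by convert pow_ne_zero 8 h2 using 1; norm_num
  obtain ⟨a, b, c⟩ := x
  obtain ⟨n1, n2, n3⟩ := st.rt.ne st.good
  have e := jj_rt st.rt st.good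
  obtain ⟨w, rfl⟩ : ∃ w, c = a - w := ⟨a - c, by ring⟩
  obtain rfl : b = a - 1 := by linear_combination -h1
  have w0 : w ≠ 0 := fun e => n2 (by simp [e])
  have w1 : w - 1 ≠ 0 := fun e => n3 (by linear_combination e)
  have j := Ev.of_mem (π := resPlc O) (cg_mem_of_integral O hi)
  rw [← JJ, eq_div_iff (pow_ne_zero _ (mul_ne_zero (mul_ne_zero (sub_ne_zero.2 n1)
    (sub_ne_zero.2 n2)) (sub_ne_zero.2 n3)))] at e
  generalize JJ (a, a - 1, a - w) = t at e j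
  have e' : t * (w * (w - 1)) ^ 2 = 256 * ((w - 1) ^ 2 + w) ^ 3 := by linear_combination e
  have o := Ev.one (resPlc O)
  have hw : w ∈ O := by
    by_contra hw
    have i := Ev.inv_of_not (π := resPlc O) hw
    have := ((Ev.ofNat _ 256).mul ((((o.sub i).pow 2).add i).pow 3)).unique
      ((j.mul ((i.mul (o.sub i)).pow 2)).congr (by field_simp; linear_combination e') rfl)
    exact h8 (by simpa using this)
  have i := Ev.of_mem (π := resPlc O) hw
  have e2 := (j.mul ((i.mul (i.sub o)).pow 2)).unique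
    (e' ▸ (Ev.ofNat _ 256).mul ((((i.sub o).pow 2).add i).pow 3))
  generalize (resPlc O).ev w = w' at i e2
  have a' : Ev (resPlc O) a ((1 + w') / 3) := ((o.add i).div (Ev.ofNat _ 3) h3).congr
    (by rw [div_eq_iff l3]; linear_combination -st.sum) rfl
  have s : Rt _ _ ((1 + w') / 3) ((1 + w') / 3 - 1) ((1 + w') / 3 - w') :=
    ⟨by field_simp; ring, rfl, rfl⟩
  refine ⟨(_, _, _), ⟨a', a'.sub o, a'.sub i⟩, s.s1, h2, ?_⟩
  rw [sA, sB, s.disc, show ((1 + w') / 3 - ((1 + w') / 3 - 1)) * ((1 + w') / 3 - ((1 + w') / 3 - w'))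
    * ((1 + w') / 3 - 1 - ((1 + w') / 3 - w')) = w' * (w' - 1) by ring]
  refine neg_ne_zero.2 (pow_ne_zero _ fun z => h8 ?_)
  rw [z, show (w' - 1) ^ 2 + w' = 1 by linear_combination z] at e2
  simpa using e2.symm

end Pool.Agent.MP_c481b3_nt.H28
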