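import Pool.Agent.MP_c481b3_nt.H28.GRed
import Pool.Agent.MP_c481b3_nt.H28.Gam

set_option autoImplicit false

namespace Pool.Agent.MP_c481b3_nt.H28

open Pool.Agent.MP_c481b3_nt.H81 Polynomial NumberField IsLocalRing

section
variable {L : Type} [Field L] [DecidableEq L] {O : ValuationSubring L} {p n : ℕ} {x : L × L × L}

/-- the value is congruent to an invariant of the given level -/
def Bd (O : ValuationSubring L) (x : L × L × L) (t : L) (i : ℕ) : Prop :=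
  ∃ y, Rch x i y ∧ O.valuation (t - JJ y) < 1

/-- the same for the three directions -/
def Bd3 (O : ValuationSubring L) (x : L × L × L) (t : L) (i : ℕ) : Prop :=
  Bd O x t i ∨ Bd O (rt x) t i ∨ Bd O (rt (sw x)) t i

variable (hp : p.Prime) (h5 : 5 ≤ p) (hv : O.valuation (p : L) < 1)
include hp h5 hv

lemma Base.rch (hx : Base n x) : ∃ x', St x' ∧ Ev3 (resPlc O) x x' ∧ ∀ i y, Rch x i y →
    ∃ y', Rch x' i y' ∧ Ev (resPlc O) (JJ y) (JJ y') := by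
  obtain ⟨x', e, st⟩ := hx.red O p hp h5 hv
  refine ⟨x', st, e, fun i y hy => ?_⟩
  obtain ⟨y', a, b⟩ := e.rch hy
  exact ⟨y', b, ev_jj a.sA a.sB (b.st st).good⟩

variable [IsAlgClosed L]

lemma zz_val (hx : Base n x) {t : L} {i : ℕ} (a : ¬Bd3 O x t i) (b : ¬Bd3 O x t (i + 1)) :
    O.valuation (ZZ t x (i + 1) / ZZ t x i ^ 2) = 1 := by
  obtain ⟨c, c0, hc⟩ : ∃ c : L, O.valuation c ≠ 0 ∧ ∀ z ∈ O, ¬O.valuation (t - z) < 1 →
      O.valuation ((t - z) / c) = 1 := by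
    by_cases ht : O.valuation t ≤ 1
    · refine ⟨1, by simp, fun z hz h => ?_⟩
      rw [div_one]
      exact le_antisymm (Valuation.map_sub_le _ ht ((O.valuation_le_one_iff z).2 hz)) (not_lt.1 h)
    · have t0 := (zero_lt_one.trans (not_le.1 ht)).ne'
      refine ⟨t, t0, fun z hz _ => ?_⟩
      rw [map_div₀, Valuation.map_sub_eq_of_lt_left O.valuation
        (((O.valuation_le_one_iff z).2 hz).trans_lt (not_le.1 ht)), div_self t0]
  have key : ∀ x i, Base n x → ¬Bd O x t i →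
      O.valuation (UU^[i] (fun y => t - JJ y) x) = O.valuation c ^ 2 ^ i := fun x i hx hi => by
    obtain ⟨x', -, -, h⟩ := hx.rch hp h5 hv
    have := UU_mem (x := x) (MonoidHom.mker O.valuation.toMonoidWithZeroHom.toMonoidHom) i _
      fun y hy => hc _ (h i y hy).choose_spec.2.mem fun e => hi ⟨y, hy, e⟩
    rw [UU_div, UU_const] at this
    have e : O.valuation (_ / _) = 1 := this
    rwa [map_div₀, map_pow, div_eq_one_iff_eq (pow_ne_zero _ c0)] at e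
  have k3 : ∀ i, ¬Bd3 O x t i → O.valuation (ZZ t x i) = (O.valuation c ^ 3) ^ 2 ^ i := fun i h => by
    simp only [Bd3, not_or] at h
    rw [ZZ, map_mul, map_mul, key _ _ hx h.1, key _ _ hx.rt h.2.1, key _ _ hx.sw.rt h.2.2,
      pow_right_comm, pow_three']
  rw [map_div₀, map_pow, k3 _ a, k3 _ b, ← pow_mul _ (2 ^ i), ← pow_succ,
    div_self (pow_ne_zero _ (pow_ne_zero _ c0))]

variable [CharZero L] [Algebra.IsAlgebraic ℚ L] {d e : ℕ} (d0 : ¬p ∣ d)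
  (sq : IsSquare (-(d : ZMod p)))
include d0 sq

omit hp h5 hv [IsAlgClosed L] [CharZero L] [Algebra.IsAlgebraic ℚ L] [DecidableEq L] sq in
lemma de_ne {κ : Type} [Field κ] [CharP κ p] (h2 : (2 : κ) ≠ 0) : ((d * 4 ^ e : ℕ) : κ) ≠ 0 := by
  rw [Nat.cast_mul, Nat.cast_pow, show ((4 : ℕ) : κ) = 2 ^ 2 by norm_num]
  exact mul_ne_zero (fun z => d0 ((CharP.cast_eq_zero_iff κ p d).1 z))
    (pow_ne_zero _ (pow_ne_zero _ h2))

lemma bd_bound (h4 : d % 4 ≠ 0) (h8 : d % 8 ≠ 7) (hx : Base (d * 4 ^ e) x) (t : L) :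
    ∀ᶠ i in Filter.atTop, ¬Bd O x t i := by
  classical
  by_cases h0 : ∃ j, Bd O x t j
  swap
  · exact Filter.Eventually.of_forall fun i e => h0 ⟨i, e⟩
  obtain ⟨j, z, z1, z2⟩ := h0
  refine Filter.eventually_atTop.2 ⟨3 * j + 2 * e + 5, fun i hi ⟨y, y1, y2⟩ => ?_⟩
  have := res_charP hp hv
  have : Fact p.Prime := ⟨hp⟩
  have := resid_closed O
  obtain ⟨h2, h3⟩ := small_ne (ResidueField O) h5
  obtain ⟨x', st, ev, h⟩ := hx.rch hp h5 hv
  obtain ⟨y', a1, a2⟩ := h i y y1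
  obtain ⟨z', b1, b2⟩ := h j z z1
  have e : JJ y' = JJ z' := (((Ev.of_lt (π := resPlc O) y2).add a2).congr (sub_add_cancel _ _)
    (zero_add _)).unique (((Ev.of_lt (π := resPlc O) z2).add b2).congr (sub_add_cancel _ _)
      (zero_add _))
  obtain ⟨f, f1, T, t1, t2⟩ := a1.is h3 st
  obtain ⟨g, g1, -⟩ := b1.is h3 st
  have gy := (a1.st st).good
  have gz := (b1.st st).good
  obtain ⟨u, u1⟩ := is_iso h3 gy gz (jj_eq h3 gy gz e)
  refine absurd (level' h3 p (res_alg O p) st.good gz (hx.cm.red (rd_of ev.sA ev.sB st.good) h3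
    (de_ne d0 h2)) d0 sq h4 h8 (one_mul (2 ^ i) ▸ f1.comp h3 u1) g1 t1 fun e => ?_) (by omega)
  have := u1.ker (P := f T) e
  rw [one_nsmul, t2] at this
  exact ((a1.st st).rt.two gy).1 this

variable {K : Type} [Field K] [NumberField K] {A B : 𝓞 K}

omit h5 hv d0 sq [IsAlgClosed L] [CharZero L] [Algebra.IsAlgebraic ℚ L] [DecidableEq L] in
lemma exists_phi' [CharP (ResidueField O) p] (ψ : K →+* L) : ∃ φ : 𝓞 K →+* ResidueField O,
    (∀ r : 𝓞 K, Ev (resPlc O) (ψ r) (φ r)) ∧ (RingHom.ker φ).IsMaximal ∧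
      (p : 𝓞 K) ∈ RingHom.ker φ := by
  obtain ⟨φ, hφ⟩ := exists_phi (resPlc O) (ψ.comp (algebraMap _ K)) fun r =>
    cg_mem_of_integral O (r.isIntegral_coe.map ψ.toIntAlgHom)
  have m : (p : 𝓞 K) ∈ RingHom.ker φ := by simp
  exact ⟨φ, hφ, (RingHom.ker_isPrime φ).isMaximal fun e => by
    rw [e, Ideal.mem_bot, Nat.cast_eq_zero] at m
    exact hp.ne_zero m, m⟩

lemma bd_exc (sf : Squarefree d) (hx : Base (d * 4 ^ e) x) (ψ : K →+* L) {i : ℕ}
    (h : Bd O x (ψ (jj (A : K) B)) i) : ∃ P : Ideal (𝓞 K), (P ∈ Exc A B d ∨ (Wc A B).Δ ∈ P) ∧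
      ∀ r ∈ P, O.valuation (ψ r) < 1 := by
  classical
  have := res_charP hp hv
  have : Fact p.Prime := ⟨hp⟩
  have := resid_closed O
  obtain ⟨h2, h3⟩ := small_ne (ResidueField O) h5
  obtain ⟨x', st, ev, h'⟩ := hx.rch hp h5 hv
  obtain ⟨y, y1, y2⟩ := h
  obtain ⟨y', a1, a2⟩ := h' i y y1
  obtain ⟨φ, hφ, hP, -⟩ := exists_phi' (O := O) hp ψ
  refine ⟨RingHom.ker φ, or_iff_not_imp_right.2 fun hΔ => ?_, fun r hr => ((hφ r).congr rfl hr).v_lt⟩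
  obtain ⟨n, hG, hA, hB, n0, nm, tr⟩ := loc_hom p h3 φ hP (fun r => Iff.rfl) hΔ
  have e : JJ y' = jj (φ A) (φ B) := (((Ev.of_lt (π := resPlc O) y2).add a2).congr
    (sub_add_cancel _ _) (zero_add _)).unique (jj_map ψ _ _ ▸ ev_jj (hφ A) (hφ B) hG)
  obtain ⟨f, f1, -⟩ := a1.is h3 st
  have gy := (a1.st st).good
  obtain ⟨u, u1⟩ := is_iso h3 gy hG (jj_eq h3 gy hG e)
  obtain ⟨t, t0, ht⟩ := frob_field' h3 p (res_alg O p) st.good hG (hx.cm.red
    (rd_of ev.sA ev.sB st.good) h3 (de_ne d0 h2)) d0 sq sf (one_mul (2 ^ i) ▸ f1.comp h3 u1) n0 hA hB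
  exact ⟨hP, hΔ, t, t0, by rw [← tr, nm, Nat.cast_pow, ht]⟩

end

theorem split_gen {K₀ K : Type} [Field K₀] [NumberField K₀] [Field K] [NumberField K]
    [DecidableEq (AlgebraicClosure K)] {A B : 𝓞 K₀} (hΔ : (Wc A B).Δ ≠ 0) {d e : ℕ}
    (sf : Squarefree d) (h8 : d % 8 ≠ 7) {x} (hx : Base (d * 4 ^ e) x)
    (ψ : K₀ →+* AlgebraicClosure K) (z : ℕ → K)
    (hz : ∀ i, algebraMap K _ (z i) = ZZ (ψ (jj (A : K₀) B)) x i) (fin : (Exc A B d).Finite) :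
    ∃ n, ∀ i, n ≤ i → ∀ (O : ValuationSubring (AlgebraicClosure K)) (p : ℕ), p.Prime → 5 ≤ p →
      ¬p ∣ d → IsSquare (-(d : ZMod p)) → O.valuation (p : AlgebraicClosure K) < 1 →
      ∀ σ : K →+* AlgebraicClosure K, O.valuation (σ (z (i + 1) / z i ^ 2)) = 1 := by
  have := gam_alg K
  have h4 : d % 4 ≠ 0 := fun h => absurd (sf 2 (Nat.dvd_of_mod_eq_zero h)) (by simp)
  obtain ⟨c1, c2, -⟩ := ctrSpec K
  set N := (∏ P ∈ fin.toFinset, Ideal.absNorm P) * Ideal.absNorm (Ideal.span {(Wc A B).Δ}) with hN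
  have N0 : N ≠ 0 := mul_ne_zero (Finset.prod_ne_zero_iff.2 fun P hP =>
    Ideal.absNorm_eq_zero_iff.not.2 (Ring.ne_bot_of_isMaximal_of_not_isField
      (fin.mem_toFinset.1 hP).1 (RingOfIntegers.not_isField _))) (by simpa using hΔ)
  obtain ⟨n, hn⟩ := Filter.eventually_atTop.1 ((Filter.eventually_all_finite
    (Ideal.finite_setOfPred_absNorm_le (S := 𝓞 K) (Ideal.absNorm (Ideal.span {(N : 𝓞 K)})))
    (l := Filter.atTop) (p := fun P i => ∀ O (p : ℕ), Ctr P O → p.Prime → 5 ≤ p → ¬p ∣ d →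
      IsSquare (-(d : ZMod p)) → O.valuation (p : AlgebraicClosure K) < 1 → ∃ O, Ctr P O ∧
        O.valuation (algebraMap K _ (z (i + 1) / z i ^ 2)) = 1)).2 fun P _ => by
    by_cases h : ∃ O, ∃ p : ℕ, Ctr P O ∧ p.Prime ∧ 5 ≤ p ∧ ¬p ∣ d ∧ IsSquare (-(d : ZMod p)) ∧
      O.valuation (p : AlgebraicClosure K) < 1
    · obtain ⟨O, p, c, a1, a2, a3, a4, a5⟩ := h
      have b := fun x hx => bd_bound a1 a2 a5 a3 a4 h4 h8 (x := x) (e := e) hx (ψ (jj (A : K₀) B))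
      obtain ⟨n, hn⟩ := Filter.eventually_atTop.1 ((b _ hx).and ((b _ hx.rt).and (b _ hx.sw.rt)))
      simp only [← not_or] at hn
      exact Filter.eventually_atTop.2 ⟨n, fun i hi _ _ _ _ _ _ _ _ => ⟨O, c, by
        rw [map_div₀, map_pow, hz, hz]
        exact zz_val a1 a2 a5 hx (hn i hi) (hn _ (hi.trans i.le_succ))⟩⟩
    · exact Filter.Eventually.of_forall fun i O p c a1 a2 a3 a4 a5 =>
        absurd ⟨O, p, c, a1, a2, a3, a4, a5⟩ h)
  refine ⟨n, fun i hi O p a1 a2 a3 a4 a5 σ => ?_⟩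
  obtain ⟨θ, hθ⟩ := gam_three K σ
  have a6 := gam_val_lt O θ p a5
  suffices h : (O.comap (θ : AlgebraicClosure K →+* AlgebraicClosure K)).valuation
      (algebraMap K (AlgebraicClosure K) (z (i + 1) / z i ^ 2)) = 1 by
    rw [gam_val_one, ValuationSubring.mem_comap, ValuationSubring.mem_comap, ← map_inv₀] at h
    rw [gam_val_one, ← map_inv₀, ← hθ, ← hθ]
    exact ⟨(map_ne_zero θ).2 h.1, h.2⟩
  generalize O.comap (θ : AlgebraicClosure K →+* AlgebraicClosure K) = O at a6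
  obtain ⟨P, hP, -, c⟩ := c1 O p a1 a6
  by_cases h : (N : 𝓞 K) ∈ P
  · obtain ⟨O₁, c', h⟩ := hn i hi P (Nat.le_of_dvd (Nat.pos_of_ne_zero (by simpa using N0))
      (Ideal.absNorm_dvd_absNorm_of_le ((Ideal.span_singleton_le_iff_mem _).2 h))) O p c a1 a2 a3 a4 a6
    rw [gam_val_one, ← map_inv₀] at h ⊢
    exact ⟨h.1, c2 P _ _ hP c' c _ h.2.1, c2 P _ _ hP c' c _ h.2.2⟩
  have key : ∀ x i, Base (d * 4 ^ e) x → ¬Bd O x (ψ (jj (A : K₀) B)) i := fun x i hx b => by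
    obtain ⟨Q, q1, q2⟩ := bd_exc a1 a2 a6 a3 a4 sf hx ψ b
    suffices m : (N : 𝓞 K₀) ∈ Q from h ((c.2 _).1 (by simpa using q2 _ m))
    rcases q1 with q1 | q1
    · exact Q.mem_of_dvd (Nat.cast_dvd_cast ((Finset.dvd_prod_of_mem _
        (fin.mem_toFinset.2 q1)).mul_right _)) Q.absNorm_mem
    · exact Q.mem_of_dvd (Nat.cast_dvd_cast (Dvd.intro_left _ rfl))
        ((Ideal.span_singleton_le_iff_mem _).2 q1 (Ideal.absNorm_mem _))
  rw [map_div₀, map_pow, hz, hz]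
  exact zz_val a1 a2 a6 hx (not_or.2 ⟨key _ _ hx, not_or.2 ⟨key _ _ hx.rt, key _ _ hx.sw.rt⟩⟩)
    (not_or.2 ⟨key _ _ hx, not_or.2 ⟨key _ _ hx.rt, key _ _ hx.sw.rt⟩⟩)

end Pool.Agent.MP_c481b3_nt.H28
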