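import Pool.Agent.MP_c481b3_nt.H28.WkB

set_option autoImplicit false

namespace Pool.Agent.MP_c481b3_nt.H28

open Pool.Agent.MP_c481b3_nt.H81 Polynomial

lemma two_dvd' {d : ℕ} (h4 : d % 4 ≠ 0) (h8 : d % 8 ≠ 7) (K : ℕ) : ∀ (a b : ℤ) (N : ℕ),
    a ^ 2 + d * b ^ 2 = d * 2 ^ N → 2 * K + 1 ≤ N → 2 ^ K ∣ a ∧ 2 ^ K ∣ b := by
  induction K with
  | zero => simp
  | succ K ih =>
    intro a b N e hN
    obtain ⟨N, rfl⟩ : ∃ M, N = M + 3 := ⟨N - 3, by omega⟩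
    have sq : ∀ a : ℤ, (∃ c, a = 2 * c) ∨ ∃ c, a ^ 2 = 8 * c + 1 := fun a => by
      obtain ⟨c, rfl | rfl⟩ := a.even_or_odd'
      · exact Or.inl ⟨c, rfl⟩
      · obtain ⟨d, hd⟩ := c.even_mul_succ_self
        exact Or.inr ⟨d, by linear_combination 4 * hd⟩
    rw [pow_add] at e
    obtain ⟨a, rfl⟩ | ⟨c, hc⟩ := sq a <;> obtain ⟨b, rfl⟩ | ⟨c', hd⟩ := sq b
    · obtain ⟨h1, h2⟩ := ih a b (N + 1) (mul_left_cancel₀ four_ne_zero (by
        linear_combination e)) (by omega)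
      rw [pow_succ']
      exact ⟨mul_dvd_mul_left 2 h1, mul_dvd_mul_left 2 h2⟩
    · have : (d : ℤ) = 4 * (2 * d * 2 ^ N - a ^ 2 - 2 * d * c') := by
        linear_combination e - d * hd
      omega
    · obtain ⟨f, hf⟩ : ∃ f : ℤ, 1 = 4 * f := ⟨2 * d * 2 ^ N - 2 * c - d * b ^ 2, by
        linear_combination e - hc⟩
      omega
    · have : (d : ℤ) + 1 = 8 * (d * 2 ^ N - c - d * c') := by linear_combination e - hc - d * hd
      omega

lemma pow_dvd_tr {q n : ℕ} (hq : q.Prime) (h2 : q ≠ 2) (non : ¬IsSquare (-(n : ZMod q))) (r : ℕ) :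
    ∀ a s : ℤ, s ^ 2 + 4 * n * a ^ 2 = 16 * n * q ^ r → (q : ℤ) ^ r ∣ a ^ 2 := by
  have := Fact.mk hq
  have pq := Nat.prime_iff_prime_int.1 hq
  have n0 : (n : ZMod q) ≠ 0 := fun e => non (by simp [e])
  have t0 : (2 : ZMod q) ≠ 0 := fun e =>
    h2 ((Nat.prime_dvd_prime_iff_eq hq Nat.prime_two).1 ((ZMod.natCast_eq_zero_iff 2 q).1 e))
  induction r using Nat.strong_induction_on with
  | _ r ih =>
    intro a s e
    rcases r with _ | r
    · simp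
    have e1 := congrArg (Int.cast : ℤ → ZMod q) e
    push_cast at e1
    rw [pow_succ (q : ZMod q), ZMod.natCast_self, mul_zero, mul_zero] at e1
    have a0 : (a : ZMod q) = 0 := by
      by_contra h
      exact non ⟨s / (2 * a), by field_simp; linear_combination -e1⟩
    have s0 : (s : ZMod q) = 0 := by simpa [a0] using e1
    obtain ⟨a, rfl⟩ := (ZMod.intCast_zmod_eq_zero_iff_dvd _ _).1 a0
    obtain ⟨s, rfl⟩ := (ZMod.intCast_zmod_eq_zero_iff_dvd _ _).1 s0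
    rcases r with _ | r
    · have e2 := congrArg (Int.cast : ℤ → ZMod q) (mul_left_cancel₀ pq.ne_zero
        (show (q : ℤ) * (q * (s ^ 2 + 4 * n * a ^ 2)) = q * (2 ^ 4 * n) by linear_combination e))
      push_cast at e2
      rw [ZMod.natCast_self, zero_mul] at e2
      exact absurd e2.symm (mul_ne_zero (by convert pow_ne_zero 4 t0 using 1; norm_num) n0)
    rw [mul_pow, pow_succ', pow_succ', ← mul_assoc, ← sq]
    exact mul_dvd_mul_left _ (ih r (by omega) a s (mul_left_cancel₀ (pow_ne_zero 2 pq.ne_zero)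
      (by linear_combination e)))

lemma pow24 {S : Type*} [CommRing S] {y a Q : S} {c : ℤ} (c0 : 0 ≤ c) (c4 : c < 4)
    (e1 : y ^ 2 - a * y + Q = 0) (e2 : a ^ 2 = Q * c) (e0 : c = 0 → a = 0) :
    y ^ 24 = Q ^ 12 := by
  interval_cases c <;> push_cast at e2
  · have e3 : y ^ 4 = Q ^ 2 := by linear_combination (y ^ 2 - Q) * (e1 + y * e0 rfl)
    rw [show y ^ 24 = (y ^ 4) ^ 6 by ring, e3]; ring
  · have e3 : y ^ 3 = -a * Q := by linear_combination (y + a) * e1 + y * e2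
    rw [show y ^ 24 = (y ^ 3) ^ 8 by ring, e3, mul_pow, show (-a) ^ 8 = (a ^ 2) ^ 4 by ring, e2]
    ring
  · have e3 : y ^ 4 = -Q ^ 2 := by linear_combination (y ^ 2 + a * y + Q) * e1 + y ^ 2 * e2
    rw [show y ^ 24 = (y ^ 4) ^ 6 by ring, e3]; ring
  · have e3 : y ^ 6 = -Q ^ 3 := by
      linear_combination (y ^ 2 + a * y + Q) * (y ^ 2 + Q) * e1 + y ^ 2 * (y ^ 2 + Q) * e2
    rw [show y ^ 24 = (y ^ 6) ^ 4 by ring, e3]; ring

lemma CompRing.pow_scalar {R : Type*} [Ring R] {N : R → ℤ} (h : CompRing R N) {x : R}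
    (e : N x ∣ pol N x 1 ^ 2) : x ^ 24 = (N x ^ 12 : ℤ) := by
  obtain ⟨c, hc⟩ := e
  have cs := h.cauchy x 1
  have ch := h.char x
  have pn := h.pure_norm x
  by_cases x0 : x = 0
  · simp [x0, h.zero]
  have Q0 := h.pos x0
  rw [h.one] at cs
  generalize pol N x 1 = a at *
  generalize N x = Q at *
  have c0 : 0 ≤ c := by nlinarith [sq_nonneg a]
  have c4 : c ≤ 4 := by nlinarith
  rcases c4.lt_or_eq with c4 | rfl
  · have key : (X ^ 2 - C a * X + C Q : ℤ[X]) ∣ X ^ 24 - C (Q ^ 12) := by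
      rw [← AdjoinRoot.mk_eq_zero]
      have e1 := AdjoinRoot.mk_self (f := (X ^ 2 - C a * X + C Q : ℤ[X]))
      have e2 := congrArg (fun t : ℤ => AdjoinRoot.mk (X ^ 2 - C a * X + C Q : ℤ[X]) (C t)) hc
      simp only [map_add, map_sub, map_mul, map_pow, eq_intCast, map_intCast] at e1 e2 ⊢
      exact sub_eq_zero.2 (pow24 c0 c4 e1 e2 fun e => by
        rw [show a = 0 by simpa [e] using hc, Int.cast_zero])
    obtain ⟨g, hg⟩ := key
    have := congrArg (aeval x) hg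
    simp only [map_sub, map_add, map_mul, map_pow, aeval_X, eq_intCast, map_intCast] at this
    rw [sq, ch, sub_right_comm, sub_self, zero_sub, neg_add_cancel, zero_mul, sub_eq_zero] at this
    rw [this, Int.cast_pow]
  · have e1 := sub_eq_zero.1 (h.eq_zero _ (pn.trans (by linear_combination -hc)))
    have e2 : x * x = Q := h.cancel (h.int_ne (n := 2 * 2) (by norm_num)) (by
      rw [Int.cast_mul, mul_assoc, ← mul_assoc _ x, e1, ← mul_assoc, ← Int.cast_mul, mul_comm 2,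
        Int.cast_mul, mul_assoc, e1, ← Int.cast_mul, ← Int.cast_mul, ← Int.cast_mul]
      congr 1; linear_combination hc)
    rw [show 24 = 2 * 12 from rfl, pow_mul, sq, e2, Int.cast_pow]

section fg
variable {k : Type} [Field k] [DecidableEq k] (q : ℕ) [Fact q.Prime] [CharP k q]
  {A B e₁ e₂ e₃ : k} {z : k × k × k} {r : ℕ}

/-- a power of Frobenius is a scalar -/
def FG (r : ℕ) (A B : k) : Prop := ∃ (hG : Good A B) (hA : A ^ q ^ r = A) (hB : B ^ q ^ r = B)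
  (c : ℕ), ∀ P, frP hG q r hA hB P = q ^ (c + 1) • P

variable {q}

lemma FG.tors (h : FG q r A B) {P : Pt A B} (hP : q • P = 0) : P = 0 := by
  obtain ⟨hG, hA, hB, c, e⟩ := h
  exact (Sc.map_eq_zero _).1 ((e P).trans (by rw [pow_succ', mul_nsmul, hP, nsmul_zero]))

lemma odd_two (hG : Good A B) (c : ℕ) {P : Pt A B} (h : 2 • P = 0) : q ^ c • P = P := by
  obtain ⟨m, hm⟩ := odd_char hG q c
  rw [hm, add_nsmul, mul_nsmul, h, nsmul_zero, zero_add, one_nsmul]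

lemma FG.root (h : FG q r A B) (t : Rt A B e₁ e₂ e₃) : e₁ ^ q ^ r = e₁ := by
  obtain ⟨hG, hA, hB, c, e⟩ := h
  obtain ⟨-, a2, a3⟩ := t.two hG
  have := congrArg xc (e (pt A B e₁ 0))
  rwa [xc_frP, odd_two hG _ a3, a2] at this

variable [IsAlgClosed k]

lemma FG.mul (h : FG q r A B) {m : ℕ} (m0 : m ≠ 0) : FG q (r * m) A B := by
  classical
  obtain ⟨hG, hA, hB, c, e⟩ := h
  obtain ⟨m, rfl⟩ := Nat.exists_eq_succ_of_ne_zero m0
  refine ⟨hG, fix_mul q r hA _, fix_mul q r hB _, c + (c + 1) * m, fun P => ?_⟩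
  rw [← (frE_pow hG q r hA hB _).2, show c + (c + 1) * m + 1 = (c + 1) * m.succ by
    rw [Nat.mul_succ]; ring]
  generalize m.succ = m
  induction m with
  | zero => simp
  | succ m ih => rw [Function.iterate_succ_apply', ih, e, ← mul_nsmul, ← pow_add, Nat.mul_succ]

variable (h3 : (3 : k) ≠ 0)
include h3

lemma FG.step (h : FG q r A B) (t : Rt A B e₁ e₂ e₃) (w : Wr (e₁, e₂, e₃) z) :
    FG q r (sA z) (sB z) := by
  have h1 : iterateFrobenius k q r e₁ = e₁ := h.root t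
  obtain ⟨hG, hA, hB, c, e⟩ := h
  obtain ⟨d, -⟩ := wr_vd t hG w
  obtain ⟨-, b1, b2⟩ := wr_val t w
  obtain ⟨-, -, a3⟩ := t.two hG
  have hA' : iterateFrobenius k q r A = A := hA
  have hB' : iterateFrobenius k q r B = B := hB
  have a : iterateFrobenius k q r (sA z) = sA z := by simp [b1, h1, hA', map_ofNat]
  have b : iterateFrobenius k q r (sB z) = sB z := by simp [b2, h1, hA', hB', map_ofNat]
  refine ⟨d.good', a, b, c, fun P => ?_⟩
  obtain ⟨P, rfl⟩ := d.surj h3 P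
  rw [← map_nsmul, ← e]
  refine frob_vm q d hA hB a b (one_pow _) (fun Q hQ => ?_) P
  rw [e, odd_two hG]
  rcases Finset.mem_insert.1 hQ with rfl | hQ
  · simp
  · rw [Finset.mem_singleton.1 hQ, a3]

end fg

variable {k : Type} [Field k] [DecidableEq k] [IsAlgClosed k] [DecidableEq (RatFunc k)]
  [DecidableEq (LL k)] {A B A₁ B₁ : k} (h3 : (3 : k) ≠ 0)
  (p : ℕ) [Fact p.Prime] [CharP k p] (H : ∀ x : k, ∃ n, n ≠ 0 ∧ x ^ p ^ n = x)
  (hG : Good A B)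

/-- a separable square root of `-n` -/
def CMb (n : ℕ) : Prop := ∃ χ : EE hG, χ * χ = -(n : EE hG) ∧ cE hG χ ≠ 0

include h3 H in
theorem exists_fg {n : ℕ} (h : CMb hG n) (non : ¬IsSquare (-(n : ZMod p))) :
    ∃ r, r ≠ 0 ∧ FG p r A B := by
  obtain ⟨χ, e, c⟩ := h
  have cr := compRing h3 hG
  obtain ⟨m, m0, hm⟩ := comm_frob p hG h3 H χ c
  obtain ⟨r, r0, hr⟩ := alg_fin p H {A, B}
  have hA := fix_mul p r (hr A (by simp)) m
  have hB := fix_mul p r (hr B (by simp)) m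
  have n0 : (0 : ℤ) < n := by
    rcases n with _ | n
    · simp at non
    · omega
  have e' : χ * χ = -((n : ℤ) : EE hG) := by simpa using e
  obtain ⟨s, -, s2⟩ := cr.comm_rel (cr.tr_of_sq n0 e') (hm _ hA hB ⟨r, by ring⟩).symm
  rw [cr.norm_of_sq n0.le e', NE_frE] at s2
  have key := cr.pow_scalar (x := frE hG p (r * m) hA hB) (by
    rw [NE_frE]
    refine pow_dvd_tr Fact.out ?_ non _ _ s (mul_right_cancel₀ n0.ne' (by linear_combination s2))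
    rintro rfl
    exact hG.two (by simpa using CharP.cast_eq_zero k 2))
  rw [(frE_pow hG p _ hA hB 24).1, NE_frE, ← pow_mul] at key
  obtain ⟨c, hc⟩ := Nat.exists_eq_succ_of_ne_zero (show r * m * 12 ≠ 0 by positivity)
  refine ⟨_, by positivity, hG, fix_mul p _ hA 24, fix_mul p _ hB 24, c, fun P => ?_⟩
  rw [← frE_apply, key, EE_int, hc, ← Nat.cast_pow, natCast_zsmul]

variable (hG₁ : Good A₁ B₁) {d e : ℕ} (h : CMb hG (d * 4 ^ e)) (d0 : ¬p ∣ d)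
  (hs : IsSquare (-(d : ZMod p)))
include h3 hG hG₁ h d0 hs

lemma exists_cm' {i : ℕ} {f : Pt A B →+ Pt A₁ B₁} (hf : Is (2 ^ i) f) :
    ∃ χ : EE hG₁, cE hG₁ χ ≠ 0 ∧ pol NE χ 1 = 0 ∧ NE χ = d * (2 ^ (e + i)) ^ 2 ∧
      ∃ Q : Pt A₁ B₁, Q ≠ 0 ∧ p • Q = 0 := by
  obtain ⟨χ₀, e1, e2⟩ := h
  have n2 : ∀ i, ((2 ^ i : ℕ) : k) ≠ 0 := fun i => by simpa using fun e => absurd e hG.two
  obtain ⟨χ, e3, e4⟩ := cm_move h3 hG₁ e1 e2 hf (n2 i)
  rw [show d * 4 ^ e * (2 ^ i) ^ 2 = d * (2 ^ (e + i)) ^ 2 by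
    rw [pow_add, mul_pow, pow_right_comm 2 e, mul_assoc]; norm_num] at e3
  have l0 : (d : k) ≠ 0 := fun e => d0 ((CharP.cast_eq_zero_iff k p d).1 e)
  have lp : (0 : ℤ) < ((d * (2 ^ (e + i)) ^ 2 : ℕ) : ℤ) := by
    have : d ≠ 0 := fun e => d0 (e ▸ dvd_zero p)
    positivity
  have cr := compRing h3 hG₁
  refine ⟨χ, e4, cr.tr_of_sq lp (by simpa using e3), ?_, tors_of_cm p hG₁ h3 e3 ?_ ?_⟩
  · rw [cr.norm_of_sq lp.le (by simpa using e3)]
    push_cast; rfl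
  · rw [Nat.cast_mul, Nat.cast_pow]; exact mul_ne_zero l0 (pow_ne_zero 2 (n2 _))
  · rw [Nat.cast_mul, ← neg_mul, Nat.cast_pow]; exact hs.mul (IsSquare.sq _)

include H

/-- a curve occurs only at boundedly many levels -/
theorem level' (h4 : d % 4 ≠ 0) (h8 : d % 8 ≠ 7) {i j : ℕ} {f g : Pt A B →+ Pt A₁ B₁}
    (hf : Is (2 ^ i) f) (hg : Is (2 ^ j) g) {T : Pt A B} (t1 : 2 • T = 0) (t2 : f T ≠ 0) :
    i < 3 * j + 2 * e + 5 := by
  by_contra hc
  have n2 : ∀ i, ((2 ^ i : ℕ) : k) ≠ 0 := fun i => by simpa using fun e => absurd e hG.two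
  obtain ⟨χ, c1, c2, c3, Q, q1, q2⟩ := exists_cm' h3 p hG hG₁ h d0 hs hg
  obtain ⟨g', g1, g2, -⟩ := hg.dual h3 (n2 j)
  obtain ⟨ψ, p1, p2, p3⟩ := (g1.comp h3 hf).toE h3 hG₁
  obtain ⟨s, s1, s2⟩ := (compRing h3 hG₁).comm_rel c2 (ord_comm p hG₁ h3 H q1 q2 ψ χ p3 c1)
  have dp : (d : ℤ) ≠ 0 := by omega
  obtain ⟨u, m, u1, hd⟩ : ∃ u m : ℕ, u ≤ 1 ∧ d = 2 ^ u * (2 * m + 1) := by
    rcases Nat.even_or_odd' d with ⟨m, hm | hm⟩
    · exact ⟨1, m / 2, le_rfl, by omega⟩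
    · exact ⟨0, m, zero_le_one, by omega⟩
  rw [c3] at s1 s2
  set M := 2 * (e + j) + j + 2 + u with hM
  obtain ⟨⟨a, ha⟩, b, hb⟩ := two_dvd' h4 h8 (M + 1) s (2 ^ (e + j + 1) * pol NE ψ 1)
    (2 * (e + j) + j + i + 4) (mul_right_cancel₀ (b := (d * (2 ^ (e + j)) ^ 2 : ℤ)) (by positivity)
      (by rw [p2] at s2; push_cast at s2; linear_combination s2)) (by omega)
  obtain ⟨R, hR⟩ := Tm.nsmul_surj ⟨hG, h3, n2 M⟩ T
  have r0 : ((2 : ℤ) ^ (M + 1)) • R = 0 := by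
    rw [← natCast_zsmul] at hR t1
    rw [← hR, ← mul_zsmul] at t1
    simpa [pow_succ'] using t1
  have z : ∀ (c : ℤ) (u : Pt A B →+ Pt A₁ B₁), (2 ^ (M + 1) * c) • u R = 0 := fun c u => by
    rw [mul_comm, mul_zsmul, ← map_zsmul, r0, map_zero, zsmul_zero]
  have e1 := congrArg (fun φ : EE hG₁ => φ.1 (g R)) s1
  simp only [EE_mul, EE_sub, EE_int, p1, AddMonoidHom.comp_apply, g2] at e1
  rw [ha, show χ.1 (g R) = (AddMonoidHom.comp χ.1 g) R from rfl, z, zsmul_sub, ← mul_zsmul,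
    ← mul_zsmul, show 2 * (d * (2 ^ (e + j)) ^ 2) * pol NE ψ 1 = 2 ^ (M + 1) * (b * d * 2 ^ (e + j))
      by linear_combination d * 2 ^ (e + j) * hb, z, sub_zero, map_nsmul, ← natCast_zsmul,
    ← mul_zsmul, show (2 * (d * (2 ^ (e + j)) ^ 2) * 2 * ((2 ^ j : ℕ) : ℤ) : ℤ)
      = ((2 * m + 1 : ℕ) : ℤ) * ((2 ^ M : ℕ) : ℤ) by rw [hd, hM]; push_cast; ring,
    mul_zsmul, natCast_zsmul, natCast_zsmul, ← map_nsmul f (2 ^ _), hR, ← map_nsmul, add_nsmul,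
    mul_nsmul, t1, nsmul_zero, zero_add, one_nsmul] at e1
  exact t2 e1

/-- the field generated by Frobenius -/
theorem frob_field' (sf : Squarefree d) {i : ℕ} {f : Pt A B →+ Pt A₁ B₁} (hf : Is (2 ^ i) f) {r : ℕ}
    (r0 : r ≠ 0) (hA : A₁ ^ p ^ r = A₁) (hB : B₁ ^ p ^ r = B₁) : ∃ t : ℤ, t ≠ 0 ∧
      pol NE (frE hG₁ p r hA hB) 1 ^ 2 - 4 * p ^ r = -d * t ^ 2 := by
  obtain ⟨χ, c1, c2, c3, Q, q1, q2⟩ := exists_cm' h3 p hG hG₁ h d0 hs hf
  have cr := compRing h3 hG₁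
  obtain ⟨s, -, s2⟩ := cr.comm_rel c2 (ord_frob p hG₁ h3 H q1 q2 χ c1 r0 hA hB)
  have D := cr.pos (frob_pure p hG₁ h3 q1 q2 r0 hA hB)
  have dp : (d : ℤ) ≠ 0 := Int.natCast_ne_zero.2 sf.ne_zero
  rw [cr.pure_norm, NE_frE] at D
  rw [c3, NE_frE] at s2
  generalize pol NE (frE hG₁ p r hA hB) 1 = a at *
  have s3 : s ^ 2 = (2 ^ (e + i + 1)) ^ 2 * (d * (4 * p ^ r - a ^ 2)) :=
    mul_right_cancel₀ (b := (d * (2 ^ (e + i)) ^ 2 : ℤ)) (by positivity) (by linear_combination s2)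
  obtain ⟨s, rfl⟩ := (Int.pow_dvd_pow_iff two_ne_zero).1 (Dvd.intro _ s3.symm)
  rw [mul_pow, mul_right_inj' (by positivity)] at s3
  obtain ⟨t, rfl⟩ := ((Int.squarefree_natCast.2 sf).dvd_pow_iff_dvd two_ne_zero).1
    (Dvd.intro _ s3.symm)
  have s4 : d * t ^ 2 = 4 * p ^ r - a ^ 2 := mul_left_cancel₀ dp (by linear_combination s3)
  exact ⟨t, by rintro rfl; simp [← s4] at D, by linear_combination s4⟩

end Pool.Agent.MP_c481b3_nt.H28
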