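import Pool.Agent.MP_c481b3_nt.H28.Spec2

set_option autoImplicit false

namespace Pool.Agent.MP_c481b3_nt.H28

open Polynomial NumberField

namespace GP

/-- the norm of an integer of a totally complex field is not negative -/
theorem norm_nonneg' (K : Type) [Field K] [NumberField K] [IsTotallyComplex K] (x : 𝓞 K) :
    0 ≤ Algebra.norm ℤ x := by
  classical
  by_cases hx : x = 0
  · subst hx
    simp
  have hxK : (x : K) ≠ 0 := by
    intro h
    exact hx (by exact_mod_cast h)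
  have h1 := Algebra.norm_eq_prod_embeddings ℚ ℂ (x : K)
  have h2 : (∏ σ : K →ₐ[ℚ] ℂ, σ (x : K)) = ∏ φ : K →+* ℂ, φ (x : K) :=
    (Fintype.prod_equiv (RingHom.equivRatAlgHom K ℂ) (fun φ : K →+* ℂ => φ (x : K))
      (fun σ : K →ₐ[ℚ] ℂ => σ (x : K)) (fun φ => rfl)).symm
  have hne : ∀ φ : K →+* ℂ, φ (x : K) ≠ 0 := fun φ => (map_ne_zero φ).2 hxK
  have h3 : (∏ φ : K →+* ℂ, (φ (x : K) / ((‖φ (x : K)‖ : ℝ) : ℂ))) = 1 := by
    refine Finset.prod_involution (fun φ _ => ComplexEmbedding.conjugate φ) ?_ ?_ ?_ ?_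
    · intro φ _
      have h0 : ((‖φ (x : K)‖ : ℝ) : ℂ) ≠ 0 := by
        exact_mod_cast norm_ne_zero_iff.2 (hne φ)
      rw [ComplexEmbedding.conjugate_coe_eq, Complex.norm_conj, div_mul_div_comm,
        Complex.mul_conj, Complex.normSq_eq_norm_sq, div_eq_one_iff_eq (mul_ne_zero h0 h0)]
      push_cast
      ring
    · intro φ _ _ h
      exact IsTotallyComplex.complexEmbedding_not_isReal φ (ComplexEmbedding.isReal_iff.2 h)
    · intro φ _
      exact Finset.mem_univ _
    · intro φ _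
      exact ComplexEmbedding.involutive_conjugate K φ
  have h4 : (∏ φ : K →+* ℂ, φ (x : K)) = ((∏ φ : K →+* ℂ, ‖φ (x : K)‖ : ℝ) : ℂ) := by
    rw [Finset.prod_div_distrib, div_eq_one_iff_eq] at h3
    · rw [h3]
      push_cast
      rfl
    · refine Finset.prod_ne_zero_iff.2 fun φ _ => ?_
      exact_mod_cast norm_ne_zero_iff.2 (hne φ)
  rw [h2, h4, ← Algebra.coe_norm_int] at h1
  have h5 : ((Algebra.norm ℤ x : ℤ) : ℝ) = ∏ φ : K →+* ℂ, ‖φ (x : K)‖ := by
    have : (((Algebra.norm ℤ x : ℤ) : ℝ) : ℂ) = ((∏ φ : K →+* ℂ, ‖φ (x : K)‖ : ℝ) : ℂ) := by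
      rw [← h1]
      simp
    exact_mod_cast this
  have h6 : (0 : ℝ) ≤ ((Algebra.norm ℤ x : ℤ) : ℝ) := by
    rw [h5]
    exact Finset.prod_nonneg fun φ _ => norm_nonneg _
  exact_mod_cast h6

/-- the norm is a square modulo `l` -/
theorem norm_mod (K : Type) [Field K] [NumberField K] (l : ℕ) (y z : 𝓞 K) :
    ((Algebra.norm ℤ (y ^ 2 + l * z) : ℤ) : ZMod l) = ((Algebra.norm ℤ y ^ 2 : ℤ) : ZMod l) := by
  classical
  let b := RingOfIntegers.basis K
  rw [Algebra.norm_eq_matrix_det b, Algebra.norm_eq_matrix_det b]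
  have e1 := (Int.castRingHom (ZMod l)).map_det (Algebra.leftMulMatrix b (y ^ 2 + l * z))
  have e2 := (Int.castRingHom (ZMod l)).map_det (Algebra.leftMulMatrix b y)
  simp only [eq_intCast] at e1 e2
  rw [e1, Int.cast_pow, e2, map_add, map_mul, map_pow, map_natCast, map_add, map_mul, map_pow,
    map_natCast, ← Matrix.det_pow]
  have : ((l : ℕ) : Matrix (Module.Free.ChooseBasisIndex ℤ (𝓞 K))
      (Module.Free.ChooseBasisIndex ℤ (𝓞 K)) (ZMod l)) = 0 := by
    rw [← map_natCast (algebraMap (ZMod l) (Matrix (Module.Free.ChooseBasisIndex ℤ (𝓞 K))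
      (Module.Free.ChooseBasisIndex ℤ (𝓞 K)) (ZMod l))), ZMod.natCast_self, map_zero]
  rw [this, zero_mul, add_zero]

/-- the exact power of a maximal ideal that contains a nonzero element -/
theorem exists_ord {R : Type} [CommRing R] [IsDedekindDomain R] (P : Ideal R) (hP : P ≠ ⊤)
    (x : R) (hx : x ≠ 0) : ∃ n : ℕ, x ∈ P ^ n ∧ x ∉ P ^ (n + 1) := by
  have hfin : FiniteMultiplicity P (Ideal.span {x}) := by
    refine FiniteMultiplicity.of_not_isUnit ?_ ?_
    · rwa [Ideal.isUnit_iff]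
    · simpa using hx
  refine ⟨multiplicity P (Ideal.span {x}), ?_, ?_⟩
  · rw [← Ideal.span_singleton_le_iff_mem, ← Ideal.dvd_iff_le]
    exact pow_multiplicity_dvd _ _
  · rw [← Ideal.span_singleton_le_iff_mem, ← Ideal.dvd_iff_le]
    exact hfin.not_pow_dvd_of_multiplicity_lt (Nat.lt_succ_self _)

/-- reciprocity for a prime that is three modulo four -/
theorem recip (l n : ℕ) (hl : l % 4 = 3) (hn : Odd n) :
    jacobiSym (-(l : ℤ)) n = jacobiSym (n : ℤ) l := by
  have hlo : Odd l := by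
    rw [Nat.odd_iff]
    omega
  rw [jacobiSym.neg _ hn]
  have hn2 := Nat.odd_iff.1 hn
  rcases (by omega : n % 4 = 1 ∨ n % 4 = 3) with h | h
  · rw [ZMod.χ₄_nat_one_mod_four h, one_mul, jacobiSym.quadratic_reciprocity_one_mod_four' hlo h]
  · rw [ZMod.χ₄_nat_three_mod_four h, jacobiSym.quadratic_reciprocity_three_mod_four hl h]
    ring

/-- splitting off the exact power of a prime -/
theorem split {R : Type} [CommRing R] [IsDedekindDomain R] (P : Ideal R) (x : R) (n : ℕ)
    (h1 : x ∈ P ^ n) (h2 : x ∉ P ^ (n + 1)) :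
    ∃ a : Ideal R, Ideal.span {x} = P ^ n * a ∧ ¬a ≤ P := by
  rw [← Ideal.span_singleton_le_iff_mem, ← Ideal.dvd_iff_le] at h1
  obtain ⟨a, ha⟩ := h1
  refine ⟨a, ha, fun hle => h2 ?_⟩
  rw [← Ideal.span_singleton_le_iff_mem, ha, pow_succ]
  exact Ideal.mul_mono_right hle

end GP

open GP

theorem globalPar : GlobalPar := by
  classical
  intro K _ _ _ l hl hl8 x y z hxyz hxl P₀ hP₀ hodd₀ hJ₀ hx₀
  by_contra hcon
  push Not at hcon
  have hl4 : l % 4 = 3 := by omega
  have hlo : Odd l := by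
    rw [Nat.odd_iff]
    omega
  have hx0 : x ≠ 0 := by
    rintro rfl
    obtain ⟨n, -, -, h⟩ := hx₀
    exact h (Ideal.zero_mem _)
  have hsp : Ideal.span {x} ≠ ⊥ := by simpa using hx0
  let χ : Ideal (𝓞 K) →* ℤ :=
    { toFun := fun I => jacobiSym (Ideal.absNorm I : ℤ) l
      map_one' := by simp
      map_mul' := fun I J => by simp [jacobiSym.mul_left] }
  have hχ : ∀ I, χ I = jacobiSym (Ideal.absNorm I : ℤ) l := fun I => rfl
  have hpos : 0 ≤ χ (Ideal.span {x}) := by
    rw [hχ, Ideal.absNorm_span_singleton, Int.natAbs_of_nonneg (norm_nonneg' K x)]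
    have h := norm_mod K l y z
    rw [← hxyz, ZMod.intCast_eq_intCast_iff'] at h
    rw [jacobiSym.mod_left' h, jacobiSym.pow_left]
    exact sq_nonneg _
  have hfac := Ideal.prod_normalizedFactors_eq_self hsp
  set s := UniqueFactorizationMonoid.normalizedFactors (Ideal.span {x}) with hs
  have hprod : χ (Ideal.span {x}) = ∏ P ∈ s.toFinset, χ P ^ s.count P := by
    conv_lhs => rw [← hfac, Finset.prod_multiset_count]
    rw [map_prod]
    simp only [map_pow]
  have hcount : ∀ P : Ideal (𝓞 K), P.IsMaximal → ∀ n : ℕ, x ∈ P ^ n → x ∉ P ^ (n + 1) →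
      s.count P = n := by
    intro P hP n h1 h2
    have := hP.isPrime
    exact Ideal.count_normalizedFactors_eq ((Ideal.span_singleton_le_iff_mem _).2 h1)
      (fun h => h2 ((Ideal.span_singleton_le_iff_mem _).1 h))
  obtain ⟨n₀, hn₀, h01, h02⟩ := hx₀
  have hc₀ := hcount P₀ hP₀ n₀ h01 h02
  have hmem₀ : P₀ ∈ s.toFinset := by
    rw [Multiset.mem_toFinset, ← Multiset.one_le_count_iff_mem, hc₀]
    exact hn₀.pos
  have hrest : ∀ P ∈ s.toFinset.erase P₀, χ P ^ s.count P = 1 := by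
    intro P hP
    obtain ⟨hne, hPs⟩ := Finset.mem_erase.1 hP
    rw [Multiset.mem_toFinset, hs, Ideal.mem_normalizedFactors_iff hsp] at hPs
    obtain ⟨hprime, hle⟩ := hPs
    have hxP : x ∈ P := (Ideal.span_singleton_le_iff_mem _).1 hle
    have hPb : P ≠ ⊥ := by
      rintro rfl
      exact hx0 (by simpa using hxP)
    have hmax : P.IsMaximal := hprime.isMaximal hPb
    obtain ⟨q, f, -, hqP, hq, hN⟩ := Ideal.exists_prime_and_absNorm_eq_pow P
    have hql : q ≠ l := by
      rintro rfl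
      exact hxl P hmax hqP hxP
    by_cases hq2 : q = 2
    · subst hq2
      have : χ P = 1 := by
        rw [hχ, hN]
        push_cast
        rw [jacobiSym.pow_left, jacobiSym.at_two hlo, ZMod.χ₈_nat_eq_if_mod_eight]
        have h2 : l % 2 = 1 := by omega
        simp [hl8, h2]
      rw [this, one_pow]
    · have hoddN : Odd (Ideal.absNorm P) := by
        rw [hN]
        exact (hq.odd_of_ne_two hq2).pow
      have hcop : (Ideal.absNorm P : ℤ).gcd l = 1 := by
        rw [Int.gcd_natCast_natCast, hN]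
        exact Nat.Coprime.pow_left f ((Nat.coprime_primes hq hl).2 hql)
      rcases jacobiSym.eq_one_or_neg_one hcop with h | h
      · rw [hχ, h, one_pow]
      · obtain ⟨n, h1, h2⟩ := exists_ord P hmax.ne_top x hx0
        have hev : Even n := by
          by_contra hn
          exact hcon P hmax hne hoddN (by rw [recip l _ hl4 hoddN, h])
            ⟨n, Nat.not_even_iff_odd.1 hn, h1, h2⟩
        rw [hχ, h, hcount P hmax n h1 h2, hev.neg_one_pow]
  rw [hprod, ← Finset.mul_prod_erase _ _ hmem₀, Finset.prod_eq_one hrest, hχ,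
    ← recip l _ hl4 hodd₀, hJ₀, hc₀, hn₀.neg_one_pow] at hpos
  omega

theorem discreteAt : DiscreteAt := by
  intro K _ _ P hP O hO hv
  have hPb : P ≠ ⊥ := Ring.ne_bot_of_isMaximal_of_not_isField hP (RingOfIntegers.not_isField K)
  have hle : ∀ r : 𝓞 K, O.valuation (algebraMap _ (AlgebraicClosure K) r) ≤ 1 := fun r =>
    (O.valuation_le_one_iff _).2 (hO r)
  have hone : ∀ r : 𝓞 K, r ∉ P → O.valuation (algebraMap _ (AlgebraicClosure K) r) = 1 :=
    fun r hr => le_antisymm (hle r) (not_lt.1 fun h => hr ((hv r).1 h))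
  have hcmp : ∀ (x u : 𝓞 K) (Q a b : Ideal (𝓞 K)), Ideal.span {x} = Q * a →
      Ideal.span {u} = Q * b → ¬b ≤ P →
      O.valuation (algebraMap _ (AlgebraicClosure K) x)
        ≤ O.valuation (algebraMap _ (AlgebraicClosure K) u) := by
    intro x u Q a b hx hu hb
    obtain ⟨s, hsb, hsP⟩ := Set.not_subset.1 hb
    have hmem : x * s ∈ Ideal.span {u} := by
      have h1 : x * s ∈ Ideal.span {x} * b :=
        Ideal.mul_mem_mul (Ideal.mem_span_singleton_self x) hsb
      rw [hx, mul_right_comm, ← hu] at h1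
      exact Ideal.mul_le_left h1
    obtain ⟨r, hr⟩ := Ideal.mem_span_singleton'.1 hmem
    have h2 : O.valuation (algebraMap (𝓞 K) (AlgebraicClosure K) (r * u))
        = O.valuation (algebraMap (𝓞 K) (AlgebraicClosure K) (x * s)) := by rw [hr]
    rw [map_mul, map_mul, map_mul, map_mul, hone s hsP, mul_one] at h2
    rw [← h2]
    exact mul_le_of_le_one_left' (hle r)
  refine ⟨?_, fun x hx => exists_ord P hP.ne_top x hx, ?_⟩
  · obtain ⟨w, h1, h2⟩ := Ideal.exists_mem_pow_notMem_pow_succ P hPb hP.ne_top 1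
    exact ⟨w, by simpa using h1, h2⟩
  intro w hw1 hw2
  have hval : ∀ (x : 𝓞 K) (n : ℕ), x ∈ P ^ n → x ∉ P ^ (n + 1) →
      O.valuation (algebraMap _ (AlgebraicClosure K) x)
        = O.valuation (algebraMap _ (AlgebraicClosure K) w) ^ n := by
    intro x n h1 h2
    obtain ⟨a, ha, haP⟩ := split P x n h1 h2
    obtain ⟨b, hb, hbP⟩ := split P w 1 (by simpa using hw1) hw2
    have hbn : Ideal.span {w ^ n} = P ^ n * b ^ n := by
      rw [← Ideal.span_singleton_pow, hb, pow_one, mul_pow]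
    have hbnP : ¬b ^ n ≤ P := fun h => hbP (hP.isPrime.le_of_pow_le h)
    rw [← map_pow, ← map_pow]
    exact le_antisymm (hcmp x (w ^ n) _ a _ ha hbn hbnP) (hcmp (w ^ n) x _ _ a hbn ha haP)
  refine ⟨?_, hval⟩
  rintro x ⟨k, rfl⟩ hk
  obtain ⟨a, b, hb, rfl⟩ := IsFractionRing.div_surjective (A := 𝓞 K) k
  have hb0 : b ≠ 0 := nonZeroDivisors.ne_zero hb
  have ha0 : a ≠ 0 := by
    rintro rfl
    simp at hk
  obtain ⟨n, h1, h2⟩ := exists_ord P hP.ne_top a ha0
  obtain ⟨m, h3, h4⟩ := exists_ord P hP.ne_top b hb0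
  have hw0 : w ≠ 0 := by
    rintro rfl
    exact hw2 (Ideal.zero_mem _)
  have hvw : O.valuation (algebraMap _ (AlgebraicClosure K) w) ≠ 0 := by
    rw [Ne, Valuation.zero_iff, map_eq_zero_iff _ (FaithfulSMul.algebraMap_injective _ _)]
    exact hw0
  refine ⟨(n : ℤ) - m, ?_⟩
  rw [map_div₀, map_div₀, ← IsScalarTower.algebraMap_apply, ← IsScalarTower.algebraMap_apply,
    hval a n h1 h2, hval b m h3 h4, zpow_sub₀ hvw, zpow_natCast, zpow_natCast]

theorem degOne : DegOne := by
  classical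
  intro K _ _ a b hab
  have hgen : ∀ x : 𝓞 K, ∃ (D : ℤ) (g : ℤ[X]), D ≠ 0 ∧
      aeval ((a : K) / (b : K)) g = (D : K) * (x : K) := by
    intro x
    have h1 : (x : K) ∈ (IntermediateField.adjoin ℚ {(a : K) / (b : K)}).toSubalgebra := by
      rw [hab]
      trivial
    rw [IntermediateField.adjoin_simple_toSubalgebra_of_isAlgebraic (IsAlgebraic.of_finite ℚ _),
      Algebra.adjoin_singleton_eq_range_aeval] at h1
    obtain ⟨f, hf⟩ := h1
    obtain ⟨D, hD, hDf⟩ := IsLocalization.integerNormalization_spec (nonZeroDivisors ℤ) f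
    refine ⟨D, IsLocalization.integerNormalization (nonZeroDivisors ℤ) f,
      nonZeroDivisors.ne_zero hD, ?_⟩
    rw [← aeval_map_algebraMap ℚ, hDf, ← algebraMap_smul ℚ D f, map_smul]
    have hf' : aeval ((a : K) / (b : K)) f = (x : K) := hf
    rw [hf', Algebra.smul_def]
    simp
  choose D g hD hg using hgen
  let e := RingOfIntegers.basis K
  refine ⟨Finset.univ.sup fun i => (D (e i)).natAbs, ?_⟩
  intro l P hl hdl hP hlP hbP hfr
  have := Fact.mk hl
  let : Field (𝓞 K ⧸ P) := Ideal.Quotient.field P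
  have hl0 : ((l : ℕ) : 𝓞 K ⧸ P) = 0 := by
    rw [← map_natCast (Ideal.Quotient.mk P), Ideal.Quotient.eq_zero_iff_mem]
    exact hlP
  have : CharP (𝓞 K ⧸ P) l := (CharP.charP_iff_prime_eq_zero hl).2 hl0
  set π := Ideal.Quotient.mk P with hπ
  have hb0 : π b ≠ 0 := fun h => hbP (Ideal.Quotient.eq_zero_iff_mem.1 h)
  have hbz : b ≠ 0 := by
    rintro rfl
    exact hbP P.zero_mem
  set τ : 𝓞 K ⧸ P := π a / π b with hτ
  have hτl : τ ^ l = τ := by
    have h := Ideal.Quotient.eq_zero_iff_mem.2 hfr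
    rw [← hπ, map_sub, map_mul, map_mul, map_pow, map_pow, sub_eq_zero] at h
    rw [hτ, div_pow, div_eq_div_iff (pow_ne_zero _ hb0) hb0]
    exact h
  have hred : ∀ x : 𝓞 K, aeval τ (g x) = (D x : 𝓞 K ⧸ P) * π x := by
    intro x
    let p : (𝓞 K)[X] := (g x).map (algebraMap ℤ (𝓞 K)) - C ((D x : 𝓞 K) * x)
    have hp : aeval (algebraMap (𝓞 K) K a / algebraMap (𝓞 K) K b) p = 0 := by
      simp only [p, map_sub, aeval_map_algebraMap, aeval_C, map_mul, map_intCast]
      exact sub_eq_zero.2 (hg x)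
    have h1 := scaleRoots_aeval_eq_zero_of_aeval_div_eq_zero
      (FaithfulSMul.algebraMap_injective (𝓞 K) K) hp (mem_nonZeroDivisors_of_ne_zero hbz)
    rw [aeval_algebraMap_apply, map_eq_zero_iff _ (FaithfulSMul.algebraMap_injective (𝓞 K) K),
      coe_aeval_eq_eval] at h1
    have h2 := scaleRoots_eval₂_mul (p := p) π τ b
    have h3 : π b * τ = π a := by
      rw [hτ]
      field_simp
    rw [h3, eval₂_at_apply, h1, map_zero] at h2
    have h4 : eval₂ π τ p = 0 := (mul_eq_zero.1 h2.symm).resolve_left (pow_ne_zero _ hb0)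
    rw [eval₂_sub, eval₂_C, map_mul, map_intCast, eval₂_map, sub_eq_zero] at h4
    rw [← h4, aeval_def]
    congr 1
  have hfix : ∀ x : 𝓞 K, π x ^ l = π x := by
    let F := frobenius (𝓞 K ⧸ P) l
    have hbasis : ∀ i, F (π (e i)) = π (e i) := by
      intro i
      have hDl : ((D (e i) : ℤ) : 𝓞 K ⧸ P) ≠ 0 := by
        rw [Ne, CharP.intCast_eq_zero_iff (𝓞 K ⧸ P) l]
        intro hdvd
        have h1 : (D (e i)).natAbs ≤ Finset.univ.sup fun i => (D (e i)).natAbs :=
          Finset.le_sup (f := fun i => (D (e i)).natAbs) (Finset.mem_univ i)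
        have h2 := Nat.le_of_dvd (Int.natAbs_pos.2 (hD (e i))) (Int.natCast_dvd.1 hdvd)
        omega
      have h1 : F (aeval τ (g (e i))) = aeval τ (g (e i)) := by
        have h2 : F τ = τ := hτl
        have h3 := aeval_algHom_apply F.toIntAlgHom τ (g (e i))
        simp only [RingHom.toIntAlgHom_apply, h2] at h3
        exact h3.symm
      rw [hred, map_mul, map_intCast] at h1
      exact mul_left_cancel₀ hDl h1
    intro x
    change F (π x) = π x
    rw [← e.sum_repr x]
    simp only [map_sum, map_zsmul, hbasis]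
  obtain ⟨q, f, hf, hqP, hq, hN⟩ := Ideal.exists_prime_and_absNorm_eq_pow P
  have hql : q = l := by
    have h1 : ((q : ℕ) : 𝓞 K ⧸ P) = 0 := by
      rw [← map_natCast π, Ideal.Quotient.eq_zero_iff_mem]
      exact hqP
    rw [CharP.cast_eq_zero_iff (𝓞 K ⧸ P) l] at h1
    exact ((Nat.prime_dvd_prime_iff_eq hl hq).1 h1).symm
  subst hql
  have hcard : Nat.card (𝓞 K ⧸ P) = q ^ f := by
    rw [← hN, Ideal.absNorm_apply, Submodule.cardQuot_apply]
  have : Finite (𝓞 K ⧸ P) := Nat.finite_of_card_ne_zero (by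
    rw [hcard]
    exact pow_ne_zero _ hq.ne_zero)
  let : Fintype (𝓞 K ⧸ P) := Fintype.ofFinite _
  have hle : q ^ f ≤ q := by
    by_contra hlt
    push Not at hlt
    have hdeg : (X ^ q - X : (𝓞 K ⧸ P)[X]).natDegree = q :=
      FiniteField.X_pow_card_sub_X_natDegree_eq _ hq.one_lt
    refine FiniteField.X_pow_card_sub_X_ne_zero (𝓞 K ⧸ P) hq.one_lt ?_
    refine Polynomial.eq_zero_of_natDegree_lt_card_of_eval_eq_zero (ι := 𝓞 K ⧸ P) _
      Function.injective_id ?_ ?_
    · intro u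
      obtain ⟨x, rfl⟩ := Ideal.Quotient.mk_surjective u
      simp only [id, eval_sub, eval_pow, eval_X]
      exact sub_eq_zero.2 (hfix x)
    · rw [hdeg, ← Nat.card_eq_fintype_card, hcard]
      exact hlt
  rw [hN]
  exact le_antisymm hle (Nat.le_self_pow hf.ne' q)

end Pool.Agent.MP_c481b3_nt.H28
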