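import Pool.Agent.MP_c481b3_nt.H28.InertC

set_option autoImplicit false

namespace Pool.Agent.MP_c481b3_nt.H28

open Pool.Agent.MP_c481b3_nt.H81

section two
variable {k : Type} [Field k] [DecidableEq k] {A B e₁ e₂ e₃ : k}

lemma sd_cases (h : Rt A B e₁ e₂ e₃) (hG : Good A B) {P : Pt A B} (hP : 2 • P = 0) :
    P = 0 ∨ P = pt A B e₁ 0 ∨ P = pt A B e₂ 0 ∨ P = pt A B e₃ 0 := by
  by_cases h0 : P = 0
  · exact Or.inl h0
  have a : yc P = 0 := by
    have b : -P = P := by rw [neg_eq_iff_add_eq_zero, ← two_nsmul, hP]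
    have c := congrArg yc b
    rw [yc_neg] at c
    exact mul_left_cancel₀ hG.two (by linear_combination -c)
  have b : (xc P - e₁) * ((xc P - e₂) * (xc P - e₃)) = 0 := by
    have c := eqn h0
    rw [a] at c
    linear_combination -c - xc P ^ 2 * h.s1 - xc P * h.s2 - h.s3
  rw [← pt_self h0, a]
  rcases mul_eq_zero.1 b with b | b
  · exact Or.inr (Or.inl (by rw [sub_eq_zero.1 b]))
  · rcases mul_eq_zero.1 b with b | b
    · exact Or.inr (Or.inr (Or.inl (by rw [sub_eq_zero.1 b])))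
    · exact Or.inr (Or.inr (Or.inr (by rw [sub_eq_zero.1 b])))

lemma sd_ne (h : Rt A B e₁ e₂ e₃) (hG : Good A B) : pt A B e₁ 0 ≠ pt A B e₂ 0 := fun e =>
  (h.ne hG).1 (by rw [← (h.two hG).2.1, e, (h.rot.two hG).2.1])

lemma sd_neg {P : Pt A B} (hP : 2 • P = 0) : -P = P := by
  rw [neg_eq_iff_add_eq_zero, ← two_nsmul, hP]

lemma sd_add (h : Rt A B e₁ e₂ e₃) (hG : Good A B) : pt A B e₁ 0 + pt A B e₂ 0 = pt A B e₃ 0 := by
  obtain ⟨a1, -, a2⟩ := h.two hG
  obtain ⟨b1, -, b2⟩ := h.rot.two hG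
  rcases sd_cases h hG (P := pt A B e₁ 0 + pt A B e₂ 0) (by rw [nsmul_add, a2, b2, add_zero]) with
    e | e | e | e
  · exact absurd ((eq_neg_of_add_eq_zero_left e).trans (sd_neg b2)) (sd_ne h hG)
  · exact absurd (add_eq_left.1 e) b1
  · exact absurd (add_eq_right.1 e) a1
  · exact e

lemma sd_zsmul {P : Pt A B} (hP : 2 • P = 0) (n : ℤ) : (2 * n) • P = 0 := by
  rw [mul_comm, mul_zsmul, two_zsmul, ← two_nsmul, hP, zsmul_zero]

lemma sd_par {P : Pt A B} (hP : 2 • P = 0) (n : ℤ) : n • P = 0 ∨ n • P = P := by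
  obtain ⟨m, rfl | rfl⟩ := Int.even_or_odd' n
  · exact Or.inl (sd_zsmul hP m)
  · exact Or.inr (by rw [add_zsmul, sd_zsmul hP, zero_add, one_zsmul])

variable [IsAlgClosed k] [DecidableEq (RatFunc k)] [DecidableEq (LL k)] {hG : Good A B}

lemma sd_half (h3 : (3 : k) ≠ 0) (φ : EE hG) (h : ∀ P, 2 • P = 0 → φ.1 P = 0) :
    ∃ ψ : EE hG, φ = (2 : ℤ) * ψ := by
  simpa using div_nat ⟨hG, h3, by simpa using hG.two⟩ φ h

lemma sd_or (h3 : (3 : k) ≠ 0) {χ β : EE hG} (h : χ + 1 = (2 : ℤ) * β) (P Y : Pt A B) :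
    OrE χ P Y ↔ β.1 P = Y := by
  have a : ∀ R, χ.1 R + R = β.1 (2 • R) := fun R => by
    have b := congrArg (fun φ : EE hG => φ.1 R) h
    simp only [EE_add, EE_mul, EE_int] at b
    rw [map_nsmul, ← natCast_zsmul]
    exact b
  obtain ⟨R, hR⟩ := Tm.nsmul_surj (n := 2) ⟨hG, h3, by simpa using hG.two⟩ P
  exact ⟨fun ⟨R, b, c⟩ => by rw [← b, ← a, c], fun b => ⟨R, hR, by rw [a, hR, b]⟩⟩

lemma sd_or' (h3 : (3 : k) ≠ 0) {χ β : EE hG} (h : χ + 1 = (2 : ℤ) * β) (P Y : Pt A B) :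
    OrE (-χ) P Y ↔ P - β.1 P = Y :=
  sd_or h3 (β := 1 - β) (by rw [mul_sub, ← h]; push_cast; noncomm_ring) P Y

lemma sd_nz (h3 : (3 : k) ≠ 0) {D : ℕ} {χ β : EE hG} (hD : D % 4 = 3) (e : χ * χ = -(D : EE hG))
    (h : χ + 1 = (2 : ℤ) * β) : ¬∀ P, 2 • P = 0 → β.1 P = 0 := fun h0 => by
  obtain ⟨ψ, rfl⟩ := sd_half h3 β h0
  have cr := compRing h3 hG
  have a := cr.norm_of_sq (n := D) (Int.natCast_nonneg D) (by simpa using e)
  rw [eq_sub_of_add_eq h, cr.sub, cr.int_mul, cr.int_mul, cr.pol_int, cr.pol_int, cr.one] at a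
  omega

end two

theorem orSpec : OrSpec := by
  intro k _ _ _ _ _ h3 A B e₁ e₂ e₃ hG D χ h hD e
  have hb : (∀ P, 2 • P = 0 → χ.1 P = P) → ∃ β : EE hG, χ + 1 = (2 : ℤ) * β := fun hf =>
    sd_half h3 _ fun P hP => by
      rw [EE_add, hf P hP, ← hP, two_nsmul]
      rfl
  obtain ⟨a1, -, a2⟩ := h.two hG
  obtain ⟨b1, -, b2⟩ := h.rot.two hG
  obtain ⟨c1, -, c2⟩ := h.rot.rot.two hG
  have s3 := sd_add h hG
  have s1 := sd_add h.rot hG
  have s2 := sd_add h.rot.rot hG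
  have n1 := sd_ne h hG
  have n2 := sd_ne h.rot hG
  have n3 := sd_ne h.rot.rot hG
  refine ⟨fun hf => ?_, ?_⟩
  · obtain ⟨β, hβ⟩ := hb hf
    simp only [sd_or h3 hβ, sd_or' h3 hβ]
    have key : ∀ {a b c : k}, Rt A B a b c →
        ¬(β.1 (pt A B a 0) = pt A B b 0 ∨ pt A B a 0 - β.1 (pt A B a 0) = pt A B b 0) →
        β.1 (pt A B a 0) = 0 ∨ β.1 (pt A B a 0) = pt A B a 0 := fun r hn => by
      rcases sd_cases r hG (P := β.1 (pt A B _ 0)) (by rw [← map_nsmul, (r.two hG).2.2, map_zero])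
        with f | f | f | f
      · exact Or.inl f
      · exact Or.inr f
      · exact absurd (Or.inl f) hn
      · refine absurd (Or.inr ?_) hn
        rw [f, sub_eq_add_neg, sd_neg (r.rot.rot.two hG).2.2, add_comm, sd_add r.rot.rot hG]
    by_contra hn
    have k1 := key h fun f => hn ⟨_, _, _, Or.inl rfl, f⟩
    have k2 := key h.rot fun f => hn ⟨_, _, _, Or.inr (Or.inl rfl), f⟩
    have k3 := key h.rot.rot fun f => hn ⟨_, _, _, Or.inr (Or.inr rfl), f⟩
    have k4 : β.1 (pt A B e₃ 0) = β.1 (pt A B e₁ 0) + β.1 (pt A B e₂ 0) := by rw [← s3, map_add]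
    rcases k1 with k1 | k1 <;> rcases k2 with k2 | k2 <;> rw [k1, k2] at k4
    · refine sd_nz h3 hD e hβ fun P hP => ?_
      rcases sd_cases h hG hP with rfl | rfl | rfl | rfl
      exacts [map_zero _, k1, k2, k4.trans (add_zero 0)]
    · rw [k4, zero_add] at k3
      exact k3.elim b1 n2
    · rw [k4, add_zero] at k3
      exact k3.elim a1 n3.symm
    · refine sd_nz h3 (χ := -χ) (β := 1 - β) hD (by rw [neg_mul_neg, e])
        (by rw [mul_sub, ← hβ]; push_cast; noncomm_ring) fun P hP => sub_eq_zero.2 ?_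
      rcases sd_cases h hG hP with rfl | rfl | rfl | rfl
      exacts [(map_zero _).symm, k1.symm, k2.symm, (k4.trans s3).symm]
  · intro ho
    obtain ⟨n, hn⟩ : ∃ n : ℤ, (D : ℤ) + 1 = 4 * n := ⟨(D + 1) / 4, by omega⟩
    have e' : ∀ P, χ.1 (χ.1 P) = -((D : ℤ) • P) := fun P => by
      rw [← EE_mul, e, EE_neg, EE_nat, natCast_zsmul]
    obtain ⟨β, hβ⟩ := hb (by
      obtain ⟨R, r1, r2⟩ := ho
      have f1 : χ.1 (pt A B e₁ 0) = pt A B e₁ 0 := by
        rw [← sd_neg a2, eq_neg_iff_add_eq_zero, sd_neg a2, ← r1, map_nsmul, ← nsmul_add, r2, b2]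
      have f2 : χ.1 (pt A B e₂ 0) = pt A B e₂ 0 := by
        have g := sd_zsmul a2 n
        rw [← r1, ← natCast_zsmul, ← mul_zsmul, show 2 * n * (2 : ℕ) = D + 1 by
          push_cast; omega, add_zsmul, one_zsmul] at g
        rw [← r2, map_add, e', neg_eq_of_add_eq_zero_right g, add_comm]
      intro P hP
      rcases sd_cases h hG hP with rfl | rfl | rfl | rfl
      exacts [map_zero _, f1, f2, by rw [← s3, map_add, f1, f2]])
    simp only [sd_or h3 hβ, sd_or' h3 hβ] at ho ⊢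
    have f : β * β = β - n := (compRing h3 hG).cancel ((compRing h3 hG).int_ne (n := 4) four_ne_zero)
      (by
        have g : (D : EE hG) = 4 * n - 1 := by
          rw [eq_sub_iff_add_eq]
          exact_mod_cast congrArg (Int.cast : ℤ → EE hG) hn
        rw [eq_sub_of_add_eq hβ, g] at e
        push_cast at e ⊢
        rw [← sub_eq_zero] at e ⊢
        rw [← e]
        noncomm_ring)
    have g : β.1 (pt A B e₂ 0) = pt A B e₂ 0 - n • pt A B e₁ 0 := by
      rw [← ho, ← EE_mul, f, EE_sub, EE_int]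
    have g' : β.1 (pt A B e₃ 0) = pt A B e₂ 0 + β.1 (pt A B e₂ 0) := by rw [← s3, map_add, ho]
    refine ⟨fun f => ?_, fun f => ?_, fun f => ?_⟩
    · rw [ho, sub_eq_iff_eq_add, ← two_nsmul, b2] at f
      exact a1 f
    · rw [g, sub_sub_cancel] at f
      exact (f ▸ sd_par a2 n).elim c1 n3
    · rw [g', g, ← s3, add_comm (pt A B e₁ 0), add_sub_add_left_eq_sub, sub_eq_self,
        sub_eq_zero] at f
      exact (f ▸ sd_par a2 n).elim b1 n1.symm

section frob
variable {k : Type} [Field k] [DecidableEq k] [IsAlgClosed k] [DecidableEq (RatFunc k)]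
  [DecidableEq (LL k)] {p : ℕ} [Fact p.Prime] [CharP k p] {A B δ : k} {hG : Good A B}
  {hA : A ^ p ^ 1 = A} {hB : B ^ p ^ 1 = B}

lemma sd_fix (h3 : (3 : k) ≠ 0) (hδ : δ ^ p = δ) (hd : δ ^ 2 = -(4 * A ^ 3 + 27 * B ^ 2)) {c : ℤ}
    (ha : pol NE (frE hG p 1 hA hB) 1 = 2 * c) (P : Pt A B) (hP : 2 • P = 0) :
    (frE hG p 1 hA hB).1 P = P := by
  have ho := odd_char hG p 1
  have h2 : ∀ P, 2 • P = 0 → (frE hG p 1 hA hB).1 ((frE hG p 1 hA hB).1 P) = P := fun P hP => by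
    obtain ⟨m, hm⟩ := ho
    rw [← EE_mul, (compRing h3 hG).char, ha, NE_frE, EE_sub, EE_mul, EE_int, EE_int, ← map_zsmul,
      sd_zsmul hP, map_zero, zero_sub, show (p : ℤ) ^ 1 = 2 * m + 1 by exact_mod_cast hm, add_zsmul,
      sd_zsmul hP, zero_add, one_zsmul, sd_neg hP]
  have hx : ∀ P, xc ((frE hG p 1 hA hB).1 P) = xc P ^ p := fun P =>
    (xc_frP hG p 1 hA hB P).trans (by rw [pow_one])
  have key : ∀ {a b c : k}, Rt A B a b c → (frE hG p 1 hA hB).1 (pt A B a 0) ≠ pt A B b 0 := by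
    intro a b c r f1
    have f2 := h2 _ (r.two hG).2.2
    rw [f1] at f2
    have f3 : (frE hG p 1 hA hB).1 (pt A B c 0) = pt A B c 0 := by
      rw [← sd_add r hG, map_add, f1, f2, add_comm]
    have g1 := hx (pt A B a 0)
    have g2 := hx (pt A B b 0)
    have g3 := hx (pt A B c 0)
    rw [f1, (r.two hG).2.1, (r.rot.two hG).2.1] at g1
    rw [f2, (r.two hG).2.1, (r.rot.two hG).2.1] at g2
    rw [f3, (r.rot.rot.two hG).2.1] at g3
    have g4 : ((a - b) * (a - c) * (b - c)) ^ p = -((a - b) * (a - c) * (b - c)) := by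
      rw [mul_pow, mul_pow, sub_pow_char, sub_pow_char, sub_pow_char, ← g1, ← g2, ← g3]
      ring
    have g5 : ((a - b) * (a - c) * (b - c)) ^ p = (a - b) * (a - c) * (b - c) := by
      rw [r.disc, neg_neg] at hd
      rw [pow_one] at ho
      rcases sq_eq_sq_iff_eq_or_eq_neg.1 hd.symm with g | g <;> rw [g]
      · exact hδ
      · rw [ho.neg_pow, hδ]
    refine hG.disc (mul_left_cancel₀ hG.two ?_)
    rw [r.disc]
    linear_combination ((a - b) * (a - c) * (b - c)) * (g5 - g4)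
  have key2 : ∀ {a b c : k}, Rt A B a b c → (frE hG p 1 hA hB).1 (pt A B a 0) = pt A B a 0 := by
    intro a b c r
    rcases sd_cases r hG (P := (frE hG p 1 hA hB).1 (pt A B a 0))
      (by rw [← map_nsmul, (r.two hG).2.2, map_zero]) with f | f | f | f
    · have g := h2 _ (r.two hG).2.2
      rw [f, map_zero] at g
      exact absurd g.symm (r.two hG).1
    · exact f
    · exact absurd f (key r)
    · exact absurd f (key r.rot.rot.swap)
  obtain ⟨e₁, e₂, e₃, r⟩ := exists_rt A B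
  rcases sd_cases r hG hP with rfl | rfl | rfl | rfl
  exacts [map_zero _, key2 r, key2 r.rot, key2 r.rot.rot]

end frob

theorem seedLoc : SeedLoc := by
  intro k _ _ _ _ _ p hp _ h5 A B δ hG hA hB hδ hd a ha
  have h3 : (3 : k) ≠ 0 := fun e => by
    have := Nat.le_of_dvd (by norm_num) ((CharP.cast_eq_zero_iff k p 3).1 (by simpa using e))
    omega
  have cr := compRing h3 hG
  set π := frE hG p 1 hA hB with hπ
  have hN : NE π = p := by rw [hπ, NE_frE, pow_one]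
  have hc : cE hG π = 0 := cE_frE hG p 1 hA hB one_ne_zero
  have h1 : a ^ 2 ≤ 4 * p := by simpa [ha, hN, cr.one] using cr.cauchy π 1
  have h2 : π * π = a * π - p := by simpa [ha, hN] using cr.char π
  have h4 : (p : ℤ) ∣ a → a = 0 := by
    rintro ⟨c, rfl⟩
    by_contra h0
    have : c ≠ 0 := fun e => h0 (by rw [e, mul_zero])
    have f1 : 1 ≤ c ^ 2 := sq_pos_of_ne_zero this
    have f2 : (5 : ℤ) ≤ p := by exact_mod_cast h5
    nlinarith [mul_le_mul_of_nonneg_left f1 (sq_nonneg (p : ℤ))]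
  have h6 : ∀ c, a = 2 * c → (∀ P, 2 • P = 0 → π.1 P = P) ∧ (4 : ℤ) ∣ p + 1 - a := fun c e => by
    have f := sd_fix h3 hδ hd (ha.trans e)
    obtain ⟨β, hβ⟩ := sd_half h3 (π - 1) fun P hP => by
      rw [EE_sub]
      exact sub_eq_zero.2 (f P hP)
    have g := congrArg NE hβ
    rw [cr.sub, cr.int_mul, hN, ha, cr.one] at g
    exact ⟨f, NE β, by linear_combination g⟩
  refine ⟨fun e f => ?_, fun h0 e => ?_⟩
  · have := (h6 0 (by rw [h4 f, mul_zero])).2
    rw [h4 f] at this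
    omega
  have key : ∀ (u : ℤ) (c : ℤ), (u = 1 ∨ u = 2) → u * a = 2 * c → (u ^ 2 * p - c ^ 2) % 4 = 3 →
      (∀ P, 2 • P = 0 → u • π.1 P - c • P = P) → ∃ (D : ℕ) (χ : EE hG), D % 4 = 3 ∧ D < 4 * p ∧
        ¬p ∣ D ∧ IsSquare (-(D : ZMod p)) ∧ χ * χ = -(D : EE hG) ∧ cE hG χ ≠ 0 ∧
        (∀ P, 2 • P = 0 → χ.1 P = P) ∧ IsSquare ((a ^ 2 - 4 * p) * -(D : ℤ)) := by
    intro u c hu f1 f2 f3
    have g1 : ¬(p : ℤ) ∣ c := fun g => h0 (h4 (by
      rcases hu with rfl | rfl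
      · exact (one_mul a ▸ f1) ▸ g.mul_left 2
      · exact (show c = a by omega) ▸ g))
    have g0 : c ≠ 0 := fun g => g1 (g ▸ dvd_zero _)
    obtain ⟨D, hD⟩ := Int.eq_ofNat_of_zero_le (a := u ^ 2 * p - c ^ 2) (by
      have : 4 * c ^ 2 = u ^ 2 * a ^ 2 := by linear_combination -(u * a + 2 * c) * f1
      nlinarith [sq_nonneg u])
    refine ⟨D, u * π - c, by omega, ?_, fun g => g1 ?_, ⟨c, ?_⟩, ?_, ?_, fun P hP => ?_, ?_⟩
    · have := sq_pos_of_ne_zero g0
      rcases hu with rfl | rfl <;> omega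
    · refine (Nat.prime_iff_prime_int.1 hp.out).dvd_of_dvd_pow (n := 2) ?_
      rw [show c ^ 2 = u ^ 2 * p - D by omega]
      exact (dvd_mul_left _ _).sub (Int.natCast_dvd_natCast.2 g)
    · have := congrArg (Int.cast : ℤ → ZMod p) hD
      push_cast at this
      rw [← this, ZMod.natCast_self]
      ring
    · have g4 : ((u * u * a - u * c - c * u : ℤ) : EE hG) = 0 := by
        rw [show u * u * a - u * c - c * u = 0 by linear_combination u * f1, Int.cast_zero]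
      have g5 : ((u * u * p - c * c : ℤ) : EE hG) = D := by
        rw [show u * u * p - c * c = D by linear_combination hD, Int.cast_natCast]
      push_cast at g4 g5
      calc _ = u * (π * u) * π - u * (π * c) - c * u * π + c * c := by noncomm_ring
        _ = (u * u * a - u * c - c * u) * π - (u * u * p - c * c) := by
          rw [← (Int.cast_commute u π).eq, ← (Int.cast_commute c π).eq, mul_assoc, mul_assoc, h2]
          noncomm_ring
        _ = _ := by rw [g4, g5, zero_mul, zero_sub]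
    · rw [map_sub, map_mul, hc, mul_zero, zero_sub, map_intCast, neg_ne_zero]
      exact fun g => g1 ((CharP.intCast_eq_zero_iff k p c).1 g)
    · rw [EE_sub, EE_mul, EE_int, EE_int, f3 P hP]
    · rcases hu with rfl | rfl
      · exact ⟨2 * D, by rw [← hD, show a = 2 * c by omega]; ring⟩
      · exact ⟨D, by rw [← hD, show a = c by omega]; ring⟩
  obtain ⟨c, rfl | rfl⟩ := Int.even_or_odd' a
  · obtain ⟨f, g⟩ := h6 c rfl
    obtain ⟨b, rfl⟩ : ∃ b, c = 2 * b := ⟨c / 2, by omega⟩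
    refine key 1 (2 * b) (Or.inl rfl) (one_mul _) ?_ fun P hP => ?_
    · rw [show (2 * b) ^ 2 = 4 * b ^ 2 by ring]
      omega
    · rw [one_zsmul, f P hP, sd_zsmul hP, sub_zero]
  · refine key 2 (2 * c + 1) (Or.inr rfl) rfl ?_ fun P hP => ?_
    · rw [show (2 * c + 1) ^ 2 = 4 * (c ^ 2 + c) + 1 by ring]
      omega
    · rw [← map_zsmul, ← mul_one (2 : ℤ), sd_zsmul hP, map_zero, mul_one, add_zsmul, sd_zsmul hP,
        zero_add, one_zsmul, zero_sub, sd_neg hP]

end Pool.Agent.MP_c481b3_nt.H28
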