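import Pool.Agent.MP_c481b3_nt.H28.LocD
import Pool.Agent.MP_c481b3_nt.H28.SeedC

set_option autoImplicit false

namespace Pool.Agent.MP_c481b3_nt.H28

open Pool.Agent.MP_c481b3_nt.H81 Polynomial IsLocalRing

lemma two_shift {k : Type} [Field k] [DecidableEq k] {A B e₁ e₂ e₃ : k} (h : Rt A B e₁ e₂ e₃)
    (hG : Good A B) {Y : Pt A B} (y0 : Y ≠ 0) (y1 : e₁ ≠ xc Y) :
    (e₁ - xc Y) * (e₁ - xc (pt A B e₁ 0 + Y)) = (e₁ - e₂) * (e₁ - e₃) := by
  obtain ⟨a1, a2, -⟩ := h.two hG
  rw [(pair_add a1 y0 (a2.symm ▸ y1)).1, a2, yc_pt hG h.root]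
  have n := sub_ne_zero.2 y1
  have e := eqn y0
  obtain rfl : e₃ = -e₁ - e₂ := by linear_combination h.s1
  field_simp
  linear_combination -e - xc Y * h.s2 - h.s3

variable {L : Type} [Field L] [DecidableEq L] [IsAlgClosed L] [CharZero L]
  {O : ValuationSubring L} {A B u e₁ e₂ e₃ : L} {C : Finset (Pt A B)}

lemma scal_le (d : VD C u A B) : O.valuation u ≤ 1 := by
  classical
  obtain ⟨φ, -, a2, a3⟩ := d.exists_end (hG := d.good) three_ne_zero
  have e := congrArg (cE d.good) ((compRing three_ne_zero d.good).char φ)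
  rw [map_mul, map_sub, map_mul, map_intCast, map_intCast, a2] at e
  rw [O.valuation_le_one_iff]
  by_contra h
  have i := Ev.inv_of_not (π := resPlc O) h
  have := d.hu
  have := (Ev.one (resPlc O)).unique ((((Ev.int _ (pol NE φ 1)).mul i).sub
    ((Ev.int _ (NE φ)).mul (i.pow 2))).congr (by field_simp; linear_combination -e) rfl)
  simp at this

lemma fix_one (d : VD C u A B) (ho : Odd C.card) (v3 : O.valuation (3 : L) = 1)
    (vn : O.valuation (C.card : L) = 1) (h : Rt A B e₁ e₂ e₃) (h1 : e₁ - e₂ = 1)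
    (h2 : O.valuation (e₂ - e₃) < 1) : vm C u A B (pt A B e₁ 0) = pt A B e₁ 0 := by
  have hG := d.good
  have l3 : (3 : L) ≠ 0 := three_ne_zero
  have m := Ev.of_lt (π := resPlc O) h2
  have o := Ev.one (resPlc O)
  have r3 : (3 : ResidueField O) ≠ 0 := fun z =>
    ((Ev.ofNat (resPlc O) 3).congr rfl z).v_lt.ne v3
  have b : Ev (resPlc O) (e₁ - e₃) 1 := (o.add m).congr (by rw [← h1]; ring) (add_zero _)
  have a1 := ((o.add b).div (Ev.ofNat _ 3) r3).congr (show _ = e₁ by
    rw [div_eq_iff l3]; linear_combination -h1 - h.s1) rfl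
  have a2 := (a1.sub o).congr (show _ = e₂ by linear_combination h1) rfl
  have a3 := (a1.sub b).congr (show _ = e₃ by ring) rfl
  have vA := ((((a1.mul a2).add (a1.mul a3)).add (a2.mul a3)).congr h.s2.symm rfl).v_le
  have vB := (((a1.mul a2).mul a3).neg.congr h.s3.symm rfl).v_le
  have key : ∀ {a b c : L}, Rt A B a b c → pt A B a 0 ∉ C ∧ (∀ P ∈ C.erase 0, a ≠ xc P) ∧
      X1 C a = u ^ 2 * xc (vm C u A B (pt A B a 0)) ∧ vm C u A B (pt A B a 0) ≠ 0 ∧
      2 • vm C u A B (pt A B a 0) = 0 := fun r => by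
    obtain ⟨c1, c2, c3⟩ := r.two hG
    have n := two_not_mem d.sub ho c1 c3
    obtain ⟨s1, s2, -⟩ := d.spec n
    refine ⟨n, c2 ▸ (off1 d.sub n).2, ?_, s1, ?_⟩
    · rw [s2, c2, mul_div_cancel₀ _ (pow_ne_zero 2 d.hu)]
    · rw [← d.hom_apply l3, ← map_nsmul, c3, map_zero]
  obtain ⟨-, k1, k2, k3, k4⟩ := key h
  obtain ⟨n2, -, k5, k6, k7⟩ := key h.rot
  obtain ⟨n3, -, k8, k9, k10⟩ := key h.rot.rot
  have p2 := prod_formula hG l3 d.sub n2 k1
  have p3 := prod_formula hG l3 d.sub n3 k1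
  rw [(h.rot.two hG).2.1] at p2
  rw [(h.rot.rot.two hG).2.1, ← sd_add h hG] at p3
  have q : (X1 C e₁ - X1 C e₂) * (X1 C e₁ - X1 C e₃) * (∏ P ∈ C.erase 0, (e₁ - xc P)) ^ 2
      = (e₁ - e₃) ^ C.card := by
    rw [sq, mul_mul_mul_comm, p2, p3, ← Finset.prod_mul_distrib, ← Finset.prod_const]
    refine Finset.prod_congr rfl fun P hP => ?_
    obtain ⟨c1, c2, c3⟩ := h.two hG
    obtain ⟨c4, c5, c6⟩ := h.rot.two hG
    obtain ⟨y0, y1⟩ := two_add_ne d.sub ho c1 c3 c4 c6 (by rw [c2, c5]; exact (h.ne hG).1) hP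
    rw [add_assoc, two_shift h hG y0 (c2 ▸ y1), h1, one_mul]
  have vD : O.valuation (∏ P ∈ C.erase 0, (e₁ - xc P)) ≤ 1 := by
    rw [map_prod]
    refine Finset.prod_le_one' fun P hP => Valuation.map_sub_le _ a1.v_le ?_
    have := torsion_int O.valuation vA vB (d.sub.nsmul_card (Finset.mem_of_mem_erase hP))
    rwa [map_mul, vn, one_mul] at this
  have vu := scal_le (O := O) d
  have fin : ∀ x y z : L, X1 C e₁ = u ^ 2 * x → X1 C e₂ = u ^ 2 * y → X1 C e₃ = u ^ 2 * z →
      ¬O.valuation ((x - y) * (x - z)) < 1 := fun x y z e1 e2 e3 lt => by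
    have := congrArg O.valuation q
    rw [e1, e2, e3, show (u ^ 2 * x - u ^ 2 * y) * (u ^ 2 * x - u ^ 2 * z)
      = u ^ 4 * ((x - y) * (x - z)) by ring, map_mul, map_mul, map_pow, map_pow, map_pow,
      show O.valuation (e₁ - e₃) = 1 from b.v_one one_ne_zero, one_pow] at this
    refine absurd this (ne_of_lt ?_)
    exact (mul_le_of_le_one_right' (pow_le_one' vD 2)).trans_lt
      ((mul_le_of_le_one_left' (pow_le_one' vu 4)).trans_lt lt)
  have ne : ∀ {a b c a' b' c' : L}, Rt A B a b c → Rt A B a' b' c' → a ≠ a' →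
      vm C u A B (pt A B a 0) ≠ vm C u A B (pt A B a' 0) := fun {a _ _ a' _ _} r r' n z => by
    obtain ⟨c1, c2, c3⟩ := r.two hG
    obtain ⟨c4, c5, c6⟩ := r'.two hG
    refine two_not_mem d.sub ho (T := pt A B a 0 - pt A B a' 0)
      (sub_ne_zero.2 fun z => n (by rw [← c2, z, c5]))
      (by rw [smul_sub, c3, c6, sub_zero]) ((d.hom_eq_zero l3).1 ?_)
    rw [map_sub]
    exact sub_eq_zero.2 z
  obtain ⟨m1, m2, m3⟩ := h.ne hG
  have n12 := ne h h.rot m1
  have n13 := ne h h.rot.rot m2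
  have n23 := ne h.rot h.rot.rot m3
  have x1 := (h.two hG).2.1
  have x2 := (h.rot.two hG).2.1
  have x3 := (h.rot.rot.two hG).2.1
  have f := fin _ _ _ k2 k5 k8
  have c12 : Ev (resPlc O) (e₁ - e₂) 1 := o.congr h1.symm rfl
  rcases sd_cases h hG k4 with z | z | z | z
  · exact absurd z k3
  · exact z
  all_goals
    rcases sd_cases h hG k7 with z' | z' | z' | z' <;>
    rcases sd_cases h hG k10 with z'' | z'' | z'' | z''
  all_goals first
    | exact absurd z' k6
    | exact absurd z'' k9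
    | exact absurd (z.trans z'.symm) n12
    | exact absurd (z.trans z''.symm) n13
    | exact absurd (z'.trans z''.symm) n23
    | refine absurd (Ev.v_lt (π := resPlc O) ?_) f
  all_goals rw [z, z', z'']; simp only [x1, x2, x3]
  · exact (c12.neg.mul m).congr (by ring) (by ring)
  · exact (c12.neg.mul m).congr (by ring) (by ring)
  · exact (b.mul m).congr (by ring) (by ring)
  · exact (b.mul m).congr (by ring) (by ring)

lemma up_one (d : VD C u A B) (ho : Odd C.card) (v2 : O.valuation (2 : L) = 1)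
    (v3 : O.valuation (3 : L) = 1) (vn : O.valuation (C.card : L) = 1) (h : Rt A B e₁ e₂ e₃)
    (h1 : e₁ - e₂ = 1) (h2 : O.valuation (e₂ - e₃) < 1) :
    ∃ (A' B' u' : L) (C' : Finset (Pt A' B')), VD C' u' A' B' ∧ C'.card = C.card ∧
      O.valuation (jj A B) < O.valuation (jj A' B') := by
  classical
  have hG := d.good
  have l3 : (3 : L) ≠ 0 := three_ne_zero
  have fx := fix_one d ho v3 vn h h1 h2
  obtain ⟨z, w⟩ := exists_wr (e₁, e₂, e₃)
  obtain ⟨g, c⟩ := wr_vd h hG w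
  have i : Is 2 (g.hom l3) := c ▸ g.is l3
  obtain ⟨g', i', -, g3⟩ := i.dual l3 (by norm_num)
  obtain ⟨ψ, p1, p2, p3⟩ := ((i'.comp l3 (d.is l3)).comp l3 i).toE l3 g.good'
  obtain ⟨φ, rfl⟩ := div_nat (n := 2) ⟨g.good', l3, by norm_num⟩ ψ fun R hR => by
    have a := (g.hom_eq_zero l3).1 ((g3 R).trans hR)
    rw [p1]
    refine (g.hom_eq_zero l3).2 ?_
    change d.hom l3 (g' R) ∈ _
    rcases Finset.mem_insert.1 a with a | a
    · simp [a]
    · rw [Finset.mem_singleton.1 a, d.hom_apply, fx]; simp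
  have cr := compRing l3 g.good'
  obtain ⟨C', d', c', -⟩ := exists_vd l3 φ (by
    rw [map_mul] at p3
    exact right_ne_zero_of_mul p3)
  rw [show ((2 : ℕ) : EE g.good') = ((2 : ℤ) : EE g.good') by simp, cr.int_mul] at p2
  refine ⟨_, _, _, C', d', by push_cast at p2; omega, ?_⟩
  have m := Ev.of_lt (π := resPlc O) h2
  have o := Ev.one (resPlc O)
  have r2 : (2 : ResidueField O) ≠ 0 := fun z =>
    ((Ev.ofNat (resPlc O) 2).congr rfl z).v_lt.ne v2
  have b : Ev (resPlc O) ((e₁ - e₂) * (e₁ - e₃)) 1 :=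
    (o.add m).congr (by rw [h1, one_mul, ← h1]; ring) (add_zero _)
  have r16 : (16 : ResidueField O) ≠ 0 := by convert pow_ne_zero 4 r2 using 1; norm_num
  have r256 : (256 : ResidueField O) ≠ 0 := by convert pow_ne_zero 8 r2 using 1; norm_num
  have u1 := ((Ev.ofNat (resPlc O) 256).mul (((m.pow 2).add b).pow 3)).v_one (by simpa using r256)
  have u2 := ((Ev.ofNat (resPlc O) 16).mul (((m.pow 2).add ((Ev.ofNat _ 16).mul b)).pow 3)).v_one
    (by simpa using r16)
  have u3 := b.v_one one_ne_zero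
  change O.valuation _ = 1 at u1 u2 u3
  have d0 : 0 < O.valuation (e₂ - e₃) := zero_lt_iff.2 (by simpa [sub_eq_zero] using (h.ne hG).2.2)
  change _ < O.valuation (JJ z)
  rw [jj_wr h hG w, jj_rt h hG, map_div₀, map_div₀, u1, u2, map_pow, map_mul, map_mul _ (_ ^ 4), u3,
    map_pow, one_mul, mul_one, one_div, one_div]
  exact (inv_lt_inv₀ (pow_pos d0 _) (pow_pos d0 _)).2 (pow_lt_pow_right_of_lt_one₀ d0 h2 (by norm_num))

lemma up_any (d : VD C u A B) (ho : Odd C.card) (v2 : O.valuation (2 : L) = 1)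
    (v3 : O.valuation (3 : L) = 1) (vn : O.valuation (C.card : L) = 1)
    (hj : 1 < O.valuation (jj A B)) :
    ∃ (A' B' u' : L) (C' : Finset (Pt A' B')), VD C' u' A' B' ∧ C'.card = C.card ∧
      O.valuation (jj A B) < O.valuation (jj A' B') := by
  have hG := d.good
  have l3 : (3 : L) ≠ 0 := three_ne_zero
  by_contra hn
  have key : ∀ {a b c : L}, Rt A B a b c → O.valuation (a - b) ≤ O.valuation (b - c) :=
    fun {a b c} r => not_lt.1 fun lt => hn (by
      have n := sub_ne_zero.2 (r.ne hG).1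
      obtain ⟨w, hw⟩ := IsAlgClosed.exists_pow_nat_eq (a - b) two_pos
      have w0 : w ≠ 0 := fun z => n (by rw [← hw, z]; ring)
      have G1 : Good (A / w ^ 4) (B / w ^ 6) := ⟨two_ne_zero, fun z => hG.disc (by
        field_simp at z; linear_combination z)⟩
      have i := vd_unit hG G1 w0 (by field_simp) (by field_simp)
      obtain ⟨d1, d2, -⟩ := VD.conj l3 i d
      have r1 : Rt (A / w ^ 4) (B / w ^ 6) (a / w ^ 2) (b / w ^ 2) (c / w ^ 2) :=
        ⟨by rw [← add_div, ← add_div, r.s1, zero_div], by rw [r.s2]; field_simp,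
          by rw [r.s3]; field_simp⟩
      have := up_one (O := O) d1 (d2 ▸ ho) v2 v3 (d2 ▸ vn) r1 (by rw [← sub_div, hw, div_self n])
        (by rw [← sub_div, hw, map_div₀]; exact (div_lt_one₀ (zero_lt_iff.2 (by simpa using n))).2 lt)
      have G := hG.disc
      rwa [d2, show jj (A / w ^ 4) (B / w ^ 6) = jj A B by
        have := G1.disc
        rw [jj, jj, div_eq_div_iff this G]; field_simp] at this)
  obtain ⟨a, b, c, r⟩ := exists_rt A B
  have k1 := key r
  have k2 := key r.rot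
  have k3 := key r.rot.rot
  have e1 : O.valuation (b - c) = O.valuation (a - b) := le_antisymm (k2.trans k3) k1
  have e2 : O.valuation (a - c) = O.valuation (a - b) := by
    rw [Valuation.map_sub_swap]; exact le_antisymm k3 (k1.trans k2)
  have d0 : 0 < O.valuation (a - b) := zero_lt_iff.2 (by simpa [sub_eq_zero] using (r.ne hG).1)
  refine hj.not_ge ?_
  rw [jj_rt r hG, map_div₀, div_le_one₀ (zero_lt_iff.2 (by simp [e1, e2, d0.ne'])), map_mul]
  refine (mul_le_of_le_one_left' (Ev.ofNat (resPlc O) 256).v_le).trans ?_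
  rw [map_pow, map_pow, map_mul, map_mul, e1, e2]
  refine (pow_le_pow_left' (Valuation.map_add_le _ (g := O.valuation (a - b) ^ 2)
    (by rw [map_pow, e1]) (by rw [map_mul, e2, sq])) 3).trans_eq ?_
  rw [← sq, ← pow_succ, ← pow_mul, ← pow_mul]

theorem goodRed : GoodRed := by
  intro L _ _ _ _ O n Ψ ho hΨ Ψ0 hv A B u C d c
  have v : ∀ a b : ℕ, a * b = 6 * n → O.valuation (a : L) = 1 := fun a b e => by
    rw [← e, Nat.cast_mul, map_mul] at hv
    exact le_antisymm (Ev.nat (resPlc O) a).v_le (hv.ge.trans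
      (mul_le_of_le_one_right' (Ev.nat (resPlc O) b).v_le))
  have v2 : O.valuation (2 : L) = 1 := by simpa using v 2 (3 * n) (by ring)
  have v3 : O.valuation (3 : L) = 1 := by simpa using v 3 (2 * n) (by ring)
  have vn := v n 6 (by ring)
  let S : Set L := {j | 1 < O.valuation j ∧ ∃ (A B u : L) (C : Finset (Pt A B)),
    VD C u A B ∧ C.card = n ∧ jj A B = j}
  have ne : Ψ.map (Int.castRingHom L) ≠ 0 :=
    (Polynomial.map_ne_zero_iff (RingHom.injective_int _)).2 Ψ0
  have fin : S.Finite := ((Ψ.map (Int.castRingHom L)).roots.toFinset.finite_toSet.image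
    fun w => 6912 * w / (4 * w + 27)).subset (by
      rintro _ ⟨h1, A, B, u, C, d, rfl, rfl⟩
      have a0 : A ≠ 0 := fun z => by simp [jj, z] at h1
      have G := d.good.disc
      have b0 : B ≠ 0 := fun z => h1.not_ge (by
        rw [show jj A B = (1728 : ℕ) by rw [jj, z]; field_simp; ring]
        exact (Ev.nat (resPlc O) _).v_le)
      have t := tm_char d.good ho.pos.ne'
      refine ⟨A ^ 3 / B ^ 2, ?_, by rw [jj]; field_simp⟩
      rw [Finset.mem_coe, Multiset.mem_toFinset, mem_roots ne, IsRoot, az_map, hΨ.az d.good a0 b0]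
      exact Finset.prod_eq_zero (t.mem_subs.2 ⟨d.sub, rfl⟩) (by rw [d.dl_eq]; simp))
  rw [← O.valuation_le_one_iff, ← not_lt]
  intro h
  obtain ⟨_, ⟨h1, A, B, u, C, d, rfl, rfl⟩, h2⟩ := Set.exists_max_image S O.valuation fin
    ⟨_, h, A, B, u, C, d, c, rfl⟩
  obtain ⟨A', B', u', C', d', c', lt⟩ := up_any d ho v2 v3 vn h1
  exact lt.not_ge (h2 _ ⟨h1.trans lt, A', B', u', C', d', c', rfl⟩)

end Pool.Agent.MP_c481b3_nt.H28
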