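import Pool.Agent.MP_c481b3_nt.H28.SpecC

set_option autoImplicit false

namespace Pool.Agent.MP_c481b3_nt.H28

lemma inert_of_mod {D q : ℕ} (hD : D % 4 = 3) (hq : q.Prime) (h4 : q % 4 = 1) (h : D ∣ q + 1) :
    ¬IsSquare (-(D : ZMod q)) := by
  have := Fact.mk hq
  have oD : Odd D := Nat.odd_iff.2 (by omega)
  have oq : Odd q := Nat.odd_iff.2 (by omega)
  have e : jacobiSym (-(D : ℤ)) q = -1 := by
    rw [jacobiSym.neg _ oq, ZMod.χ₄_nat_one_mod_four h4, one_mul,
      ← jacobiSym.quadratic_reciprocity_one_mod_four h4 oD,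
      jacobiSym.mod_left' (a₂ := -1) (show (q : ℤ) ≡ -1 [ZMOD D] from Int.modEq_iff_dvd.2 (by
          obtain ⟨c, hc⟩ := h
          exact ⟨-c, by linear_combination -(by exact_mod_cast hc : (q : ℤ) + 1 = D * c)⟩)),
      jacobiSym.at_neg_one oD, ZMod.χ₄_nat_three_mod_four hD]
  simpa using ZMod.nonsquare_of_jacobiSym_eq_neg_one e

lemma exists_inert_prime {D : ℕ} (hD : D % 4 = 3) (M : ℕ) :
    ∃ l, M < l ∧ l.Prime ∧ ¬IsSquare (-(D : ZMod l)) := by
  have c : (2 * D - 1).Coprime (4 * D) := by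
    obtain ⟨e, rfl⟩ : ∃ e, D = e + 1 := ⟨D - 1, by omega⟩
    rw [show 2 * (e + 1) - 1 = 2 * e + 1 by omega]
    refine Nat.Coprime.mul_right ?_ ?_
    · exact (Nat.coprime_two_right.2 ⟨e, rfl⟩).pow_right 2
    · rw [show 2 * e + 1 = e + (e + 1) * 1 by ring, Nat.coprime_add_mul_left_left]
      exact Nat.coprime_self_add_right.2 (Nat.coprime_one_right e)
  obtain ⟨l, h1, h2, h3⟩ := Nat.forall_exists_prime_gt_and_modEq M (by omega) c
  refine ⟨l, h1, h2, inert_of_mod hD h2 ?_ ?_⟩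
  · have := h3.of_mul_right D
    unfold Nat.ModEq at this
    omega
  · have := (h3.of_mul_left 4).add_right 1
    rw [show 2 * D - 1 + 1 = 2 * D by omega] at this
    exact (Nat.modEq_zero_iff_dvd).1 (this.trans (Nat.modEq_zero_iff_dvd.2 (dvd_mul_left _ _)))

lemma Thin.union {W V : Set ℕ} (h : Thin W) (h' : Thin V) : Thin (W ∪ V) :=
  (h.add h').of_nonneg_of_le (fun q => Set.indicator_nonneg (fun _ _ => by positivity) q) fun q => by
    by_cases a : q ∈ W <;> by_cases b : q ∈ V <;> simp [Set.indicator, a, b]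

lemma thin_finite {W : Set ℕ} (h : W.Finite) : Thin W :=
  summable_of_hasFiniteSupport (h.subset Set.support_indicator_subset)

end Pool.Agent.MP_c481b3_nt.H28
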