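import Pool.Agent.MP_c481b3_nt.H28.CoreC

set_option autoImplicit false

namespace Pool.Agent.MP_c481b3_nt.H28

open Pool.Agent.MP_c481b3_nt.H81 Polynomial IsLocalRing

lemma rt_even {L : Type} [Field L] {A B e₁ e₂ e₃ a b c : L} (hG : Good A B)
    (h : Rt A B e₁ e₂ e₃) (h' : Rt A B a b c)
    (e : (a - b) * (a - c) * (b - c) = (e₁ - e₂) * (e₁ - e₃) * (e₂ - e₃)) :
    (a, b, c) = (e₁, e₂, e₃) ∨ (a, b, c) = (e₂, e₃, e₁) ∨ (a, b, c) = (e₃, e₁, e₂) := by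
  obtain ⟨n1, n2, n3⟩ := h.ne hG
  obtain ⟨m1, m2, m3⟩ := h'.ne hG
  have n : 2 * ((e₁ - e₂) * (e₁ - e₃) * (e₂ - e₃)) ≠ 0 := mul_ne_zero hG.two (mul_ne_zero
    (mul_ne_zero (sub_ne_zero.2 n1) (sub_ne_zero.2 n2)) (sub_ne_zero.2 n3))
  have k : ∀ {x y z : L}, Rt A B x y z → x = e₁ ∨ x = e₂ ∨ x = e₃ := fun {x y z} r => by
    have : (x - e₁) * ((x - e₂) * (x - e₃)) = 0 := by
      linear_combination -r.root - x ^ 2 * h.s1 - x * h.s2 - h.s3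
    simpa only [mul_eq_zero, sub_eq_zero] using this
  have hc : c = e₁ + e₂ + e₃ - a - b := by linear_combination h'.s1 - h.s1
  rcases k h' with rfl | rfl | rfl <;> rcases k h'.rot with rfl | rfl | rfl
  all_goals first
    | exact absurd rfl m1
    | exact absurd (by rw [hc] at e; linear_combination -e) n
    | exact Or.inl (by rw [hc]; congr 2; ring)
    | exact Or.inr (Or.inl (by rw [hc]; congr 2; ring))
    | exact Or.inr (Or.inr (by rw [hc]; congr 2; ring))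

lemma sq_trans {x y z : ℤ} (z0 : z ≠ 0) (a : IsSquare (x * z)) (b : IsSquare (y * z)) :
    IsSquare (x * y) := by
  obtain ⟨u, hu⟩ := a.mul b
  obtain ⟨c, rfl⟩ := (Int.pow_dvd_pow_iff two_ne_zero).1
    (⟨x * y, by linear_combination -hu⟩ : z ^ 2 ∣ u ^ 2)
  exact ⟨c, mul_left_cancel₀ (pow_ne_zero 2 z0) (by linear_combination hu)⟩

lemma exists_delta {A B : ℤ} (h : IsSquare (Wc A B).Δ) :
    ∃ δ : ℤ, δ ^ 2 = -(4 * A ^ 3 + 27 * B ^ 2) := by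
  obtain ⟨m, hm⟩ := h
  rw [Wc_disc] at hm
  obtain ⟨c, rfl⟩ := (Int.pow_dvd_pow_iff two_ne_zero).1
    (⟨-(4 * A ^ 3 + 27 * B ^ 2), by linear_combination -hm⟩ : (4 : ℤ) ^ 2 ∣ m ^ 2)
  exact ⟨c, by linarith⟩

theorem seed_sq (L : Type) [Field L] [IsAlgClosed L] [CharZero L] [Algebra.IsAlgebraic ℚ L]
    (hN : NTMain) (hM : NormSpec) (hP : PerL) (hV : Vol) (hD : Deuring) (hG : GoodRed)
    (hO : OrSpec) (hS : SeedLoc) {A B : ℤ} (hsq : IsSquare (Wc A B).Δ) {p : ℕ} (hp : p.Prime)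
    (h5 : 5 ≤ p) (hΔ : ¬(p : ℤ) ∣ (Wc A B).Δ) (h0 : aZ A B p ≠ 0) (h4 : aZ A B p % 4 ≠ 2) :
    {q : ℕ | q.Prime ∧ ¬(q : ℤ) ∣ (Wc A B).Δ ∧
      IsSquare ((aZ A B q ^ 2 - 4 * q) * (aZ A B p ^ 2 - 4 * p))}.Infinite := by
  classical
  obtain ⟨δ, hδ⟩ := exists_delta hsq
  have loc : ∀ q : ℕ, q.Prime → ∃ O : ValuationSubring L, O.valuation (q : L) < 1 := fun q hq =>
    cg_exists_val hq
  have hδ' : ∀ (k : Type) [Field k], (δ : k) ^ 2 = -(4 * (A : k) ^ 3 + 27 * (B : k) ^ 2) :=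
    fun k _ => by exact_mod_cast congrArg (Int.cast : ℤ → k) hδ
  obtain ⟨O, hv⟩ := loc p hp
  have := Fact.mk hp
  have := res_charP hp hv
  have := resid_closed O
  have G : Good (A : ResidueField O) B := good_int p hΔ
  have h3 := (small_ne (ResidueField O) h5).2
  obtain ⟨D, χ, D4, Dp, d0, sq, c1, c0, fx, s⟩ := (hS (ResidueField O) p h5 _ _ δ G (int_fix p A) (int_fix p B)
    (by simpa using int_fix p δ) (hδ' _) _ (loc_int p h3 G)).2 h0 h4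
  have rd : Rd (resPlc O) (A : L) (B : L) A B := rd_of (Ev.int _ A) (Ev.int _ B) G
  obtain ⟨e₁, e₂, e₃, r⟩ := exists_rt (A : L) (B : L)
  have r' := KrA.rt_red rd r
  let R : Finset (L × L × L) := {(e₁, e₂, e₃), (e₂, e₃, e₁), (e₃, e₁, e₂)}
  have hR : ∀ e ∈ R, Rt (A : L) (B : L) e.1 e.2.1 e.2.2 ∧
      (e.1 - e.2.1) * (e.1 - e.2.2) * (e.2.1 - e.2.2) = (e₁ - e₂) * (e₁ - e₃) * (e₂ - e₃) := by
    simp only [R, Finset.mem_insert, Finset.mem_singleton]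
    rintro _ (rfl | rfl | rfl)
    exacts [⟨r, rfl⟩, ⟨r.rot, by ring⟩, ⟨r.rot.rot, by ring⟩]
  have gal : ∀ σ : L ≃+* L, ∀ e ∈ R, (σ e.1, σ e.2.1, σ e.2.2) ∈ R := fun σ e he => by
    obtain ⟨a, b⟩ := hR e he
    simp only [R, Finset.mem_insert, Finset.mem_singleton]
    refine rt_even (rd_good rd) r ⟨by rw [← map_add, ← map_add, a.s1, map_zero],
      by simpa using congrArg σ a.s2, by simpa using congrArg σ a.s3⟩ ?_
    rw [← map_sub, ← map_sub, ← map_sub, ← map_mul, ← map_mul, b]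
    rcases sq_eq_sq_iff_eq_or_eq_neg.1 (show ((e₁ - e₂) * (e₁ - e₃) * (e₂ - e₃)) ^ 2 = (δ : L) ^ 2 by
      rw [hδ', r.disc, neg_neg]) with e | e <;> simp [e]
  have key : ∀ ψ : EE G, ψ * ψ = -(D : EE G) → cE G ψ ≠ 0 → ∀ e ∈ R,
      OrE ψ (pt _ _ ((resPlc O).ev e.1) 0) (pt _ _ ((resPlc O).ev e.2.1) 0) →
      {q : ℕ | q.Prime ∧ ¬(q : ℤ) ∣ (Wc A B).Δ ∧
        IsSquare ((aZ A B q ^ 2 - 4 * q) * -(D : ℤ))}.Infinite := fun ψ k1 k0 e he k => by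
    refine core (c := 1) hN hM hP hV hD hG (fun e he => (hR e he).1) gal h5 hv hΔ D4 Dp d0 sq k1 k0
      he (by rwa [one_nsmul]) (fun e' he' => ?_) (thin_finite Set.finite_empty)
      fun q hq _ q5 q0 q4 => ?_
    · obtain ⟨o1, o2, o3⟩ := (hO _ h3 _ _ _ _ _ G D ψ (KrA.rt_red rd (hR e he).1) D4 k1).2 k
      rw [one_nsmul]
      simp only [R, Finset.mem_insert, Finset.mem_singleton] at he he'
      rcases he with rfl | rfl | rfl <;> rcases he' with rfl | rfl | rfl <;> assumption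
    · obtain ⟨O', hv'⟩ := loc q hq
      have := Fact.mk hq
      have := res_charP hq hv'
      have := resid_closed O'
      have G' : Good (A : ResidueField O') B := good_int q q0
      exact (hS (ResidueField O') q q5 _ _ δ G' (int_fix q A) (int_fix q B) (by simpa using int_fix q δ) (hδ' _) _
        (loc_int q (small_ne _ q5).2 G')).1 q4
  refine Set.Infinite.mono (fun q hq => ⟨hq.1, hq.2.1, sq_trans (by omega) hq.2.2 s⟩) (?_ :
    {q : ℕ | q.Prime ∧ ¬(q : ℤ) ∣ (Wc A B).Δ ∧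
      IsSquare ((aZ A B q ^ 2 - 4 * q) * -(D : ℤ))}.Infinite)
  obtain ⟨a, b, c, h1, h2⟩ := (hO _ h3 _ _ _ _ _ G D χ r' D4 c1).1 fx
  obtain ⟨e, he, rfl, rfl⟩ : ∃ e ∈ R, (resPlc O).ev e.1 = a ∧ (resPlc O).ev e.2.1 = b := by
    simp only [Prod.mk.injEq] at h1
    rcases h1 with ⟨rfl, rfl, -⟩ | ⟨rfl, rfl, -⟩ | ⟨rfl, rfl, -⟩
    exacts [⟨(e₁, e₂, e₃), by simp [R], rfl, rfl⟩, ⟨(e₂, e₃, e₁), by simp [R], rfl, rfl⟩,
      ⟨(e₃, e₁, e₂), by simp [R], rfl, rfl⟩]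
  rcases h2 with h2 | h2
  · exact key χ c1 c0 e he h2
  · exact key (-χ) (by rw [neg_mul_neg, c1]) (by simpa using c0) e he h2

end Pool.Agent.MP_c481b3_nt.H28
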