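import Pool.Agent.MP_c481b3_nt.H28.CoreD
import Pool.Agent.MP_c481b3_nt.H28.MainC
import Pool.Agent.MP_c481b3_nt.H28.GSp

set_option autoImplicit false

namespace Pool.Agent.MP_c481b3_nt.H28

open Pool.Agent.MP_c481b3_nt.H81 Polynomial IsLocalRing NumberField

lemma frob_sq2 {k : Type} [Field k] [DecidableEq k] [IsAlgClosed k] [DecidableEq (RatFunc k)]
    [DecidableEq (LL k)] (p : ℕ) [Fact p.Prime] [CharP k p] (h3 : (3 : k) ≠ 0)
    (H : ∀ x : k, ∃ n, n ≠ 0 ∧ x ^ p ^ n = x) {A B : k} (hG : Good A B) {D n r : ℕ}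
    (h : CMb hG (D * n ^ 2)) (d0 : (D : k) ≠ 0) (n0 : (n : k) ≠ 0) (sq : IsSquare (-(D : ZMod p)))
    (r0 : r ≠ 0) (hA : A ^ p ^ r = A) (hB : B ^ p ^ r = B) :
    ¬(p : ℤ) ∣ pol NE (frE hG p r hA hB) 1 ∧
      IsSquare ((pol NE (frE hG p r hA hB) 1 ^ 2 - 4 * p ^ r) * -(D : ℤ)) := by
  obtain ⟨χ, a, c⟩ := h
  have cr := compRing h3 hG
  have D0 : D ≠ 0 := by rintro rfl; simp at d0
  have N0 : n ≠ 0 := by rintro rfl; simp at n0
  have lp : (0 : ℤ) < ((D * n ^ 2 : ℕ) : ℤ) := by positivity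
  obtain ⟨Q, q0, q1⟩ := tors_of_cm p hG h3 a
    (by rw [Nat.cast_mul, Nat.cast_pow]; exact mul_ne_zero d0 (pow_ne_zero 2 n0))
    (by rw [Nat.cast_mul, ← neg_mul, Nat.cast_pow]; exact sq.mul (IsSquare.sq _))
  obtain ⟨s, -, s2⟩ := cr.comm_rel (cr.tr_of_sq lp (by simpa using a))
    (ord_frob p hG h3 H q0 q1 χ c r0 hA hB)
  have ch := congrArg (fun φ : EE hG => φ.1 Q) (cr.char (frE hG p r hA hB))
  simp only [EE_mul, EE_sub, EE_int, NE_frE] at ch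
  rw [cr.norm_of_sq lp.le (by simpa using a), NE_frE] at s2
  generalize pol NE (frE hG p r hA hB) 1 = t at s2 ch ⊢
  refine ⟨?_, ?_⟩
  · rintro ⟨t, rfl⟩
    obtain ⟨r, rfl⟩ := Nat.exists_eq_add_one_of_ne_zero r0
    rw [← map_zsmul, pow_succ, mul_comm (p : ℤ), mul_zsmul, mul_zsmul, natCast_zsmul, q1,
      zsmul_zero, zsmul_zero, map_zero, sub_zero] at ch
    exact q0 ((Sc.map_eq_zero _).1 ((Sc.map_eq_zero _).1 ch))
  have e : s ^ 2 = (2 * n) ^ 2 * ((t ^ 2 - 4 * p ^ r) * -(D : ℤ)) :=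
    mul_right_cancel₀ lp.ne' (by rw [s2]; push_cast; ring)
  obtain ⟨c, rfl⟩ := (Int.pow_dvd_pow_iff two_ne_zero).1 ⟨_, e⟩
  exact ⟨c, mul_left_cancel₀ (a := (2 * n : ℤ) ^ 2) (by positivity) (by rw [← e]; ring)⟩

variable {K : Type} [Field K] [NumberField K] {A B : 𝓞 K} {N : ℕ}

/-- ordinary with the given Frobenius field -/
def Same (A B : 𝓞 K) (d : ℤ) (P : Ideal (𝓞 K)) : Prop :=
  ((aP A B P : ℤ) : 𝓞 K) ∉ P ∧ IsSquare ((aP A B P ^ 2 - 4 * Ideal.absNorm P) * d)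

lemma deg_one {P : Ideal (𝓞 K)} {p : ℕ} (hp : p.Prime) (h : Ideal.absNorm P = p) :
    P.IsMaximal ∧ (p : 𝓞 K) ∈ P ∧ ∀ r : 𝓞 K, ∃ n : ℕ, r - n ∈ P := by
  have n : P ≠ ⊥ := fun e => hp.ne_zero (by rw [← h, e, Ideal.absNorm_bot])
  refine ⟨(Ideal.isPrime_of_irreducible_absNorm (h ▸ hp)).isMaximal n, h ▸ P.absNorm_mem,
    fun r => ?_⟩
  have : Finite (𝓞 K ⧸ P) := P.finiteQuotientOfFreeOfNeBot n
  let := Fintype.ofFinite (𝓞 K ⧸ P)
  have := NeZero.mk hp.ne_zero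
  obtain ⟨x, hx⟩ := (ZMod.ringEquivOfPrime (𝓞 K ⧸ P) hp (by
    rw [← h, Ideal.absNorm_apply, Submodule.cardQuot_apply, Nat.card_eq_fintype_card])).surjective
    (Ideal.Quotient.mk P r)
  refine ⟨x.val, Ideal.Quotient.eq.1 ?_⟩
  rw [map_natCast, ← hx]
  conv_lhs => rw [← ZMod.natCast_zmod_val x, map_natCast]

omit [NumberField K] in
lemma good_phi {k : Type} [Field k] {φ : 𝓞 K →+* k} (h : (Wc A B).Δ ∉ RingHom.ker φ) :
    Good (φ A) (φ B) := good_of_ne fun e => h (by simpa [Wc_disc, map_ofNat] using e)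

lemma nc_of {k : Type} [Field k] [DecidableEq k] [IsAlgClosed k] [DecidableEq (RatFunc k)]
    [DecidableEq (LL k)] (q : ℕ) [Fact q.Prime] [CharP k q] (h5 : 5 ≤ q)
    (H : ∀ x : k, ∃ n, n ≠ 0 ∧ x ^ q ^ n = x) {φ : 𝓞 K →+* k} (hP : (RingHom.ker φ).IsMaximal)
    (hΔ : (Wc A B).Δ ∉ RingHom.ker φ) {D : ℕ} (d0 : ¬q ∣ D) (sq : IsSquare (-(D : ZMod q))) {d : ℤ}
    (hd : IsSquare (d * -(D : ℤ))) (h : ¬Same A B d (RingHom.ker φ)) : NC D (φ A) (φ B) := by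
  intro G n n0 c
  have h3 := (small_ne k h5).2
  obtain ⟨r, hG, hA, hB, r0, nm, tr⟩ := loc_hom q h3 φ hP (fun _ => Iff.rfl) hΔ
  obtain ⟨a, b⟩ := frob_sq2 q h3 H hG c (fun e => d0 ((CharP.cast_eq_zero_iff _ q _).1 e)) n0 sq
    r0 hA hB
  rw [tr] at a b
  refine h ⟨fun e => a ((CharP.intCast_eq_zero_iff k q _).1 (by simpa using e)), ?_⟩
  rw [nm, Nat.cast_pow]
  exact sq_trans (z := -(D : ℤ)) (by simpa using fun e : D = 0 => d0 (e ▸ dvd_zero q)) b hd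

/-- a family of conditions on two coordinates -/
def Fam (K : Type) [Field K] : Type 1 := ∀ (k : Type) [Field k], (𝓞 K →+* k) → k → k → Prop

/-- compatibility with places -/
def Fam.Ok (F : Fam K) : Prop :=
  ∀ (L κ : Type) [Field L] [Field κ] (π : Plc L κ) (σ : 𝓞 K →+* L) (φ : 𝓞 K →+* κ),
    (∀ r, Ev π (σ r) (φ r)) → ∀ x x' y y', Ev π x x' → Ev π y y' → F L σ x y → F κ φ x' y'

/-- level structures that satisfy the condition -/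
def Cd (N : ℕ) (F : Fam K) (A B : 𝓞 K) {k : Type} [Field k] [DecidableEq k] (φ : 𝓞 K →+* k)
    (P Q : Pt (φ A) (φ B)) : Prop := Ed.Pk N ⟨φ A, φ B, P, Q, ∅⟩ ∧ F k φ (xc P) (xc Q)

omit [NumberField K] in
lemma Cd.red {F : Fam K} (hF : F.Ok) (hR : MuRed) (hN : Lev N) {L κ : Type} [Field L] [Field κ]
    [DecidableEq L] [DecidableEq κ] {π : Plc L κ} {σ : 𝓞 K →+* L} {φ : 𝓞 K →+* κ}
    (e : ∀ r, Ev π (σ r) (φ r)) (r : Rd π (σ A) (σ B) (φ A) (φ B)) (n0 : (N : κ) ≠ 0)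
    {P Q : Pt (σ A) (σ B)} (h : Cd N F A B σ P Q) : Cd N F A B φ (r.red P) (r.red Q) ∧
      Ev π (Ed.mv N ⟨σ A, σ B, P, Q, ∅⟩) (Ed.mv N ⟨φ A, φ B, r.red P, r.red Q, ∅⟩) := by
  have a : N • r.red P = 0 := by rw [← map_nsmul, show N • P = 0 from h.1.hP, map_zero]
  have b : N • r.red Q = 0 := by rw [← map_nsmul, show N • Q = 0 from h.1.hQ, map_zero]
  have t := h.1.lv.red h.1.hP h.1.hQ r n0 ∅
  refine ⟨⟨⟨r.good, a, b, t⟩, hF L κ π σ φ e _ _ _ _ (ev_xc r t.p0) ?_ h.2⟩,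
    Red.mv hR hN ⟨r, rfl, rfl, Finset.image_empty _⟩ t a b⟩
  by_cases q0 : Q = 0
  · simpa [q0] using Ev.zero π
  · exact ev_xc r (red_tors_ne r n0 q0 h.1.hQ)

omit [NumberField K] in
lemma cd_finite {F : Fam K} (hN : Lev N) {L : Type} [Field L] [DecidableEq L] [IsAlgClosed L]
    [CharZero L] (φ : 𝓞 K →+* L) :
    {t : L | ∃ P Q, Cd N F A B φ P Q ∧ t = Ed.mv N ⟨φ A, φ B, P, Q, ∅⟩}.Finite := by
  refine ((tors (φ A) (φ B) N ×ˢ tors (φ A) (φ B) N).finite_toSet.image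
    fun z => Ed.mv N ⟨φ A, φ B, z.1, z.2, ∅⟩).subset ?_
  rintro _ ⟨P, Q, h, rfl⟩
  have t : Tm (φ A) (φ B) N := tm_char h.1.good hN.prime.ne_zero
  exact ⟨(P, Q), Finset.mem_product.2 ⟨t.mem.2 h.1.hP, t.mem.2 h.1.hQ⟩, rfl⟩

open Classical in
theorem coreK (hT : NTMain2) (hM : NormSpec) (hP : PerL) (hV : Vol) (hD : Deuring2) (hI : MuIso)
    (hR : MuRed) (hN : Lev N) {F : Fam K} (hF : F.Ok) {p : ℕ} [Fact p.Prime] (h5 : 5 ≤ p)
    {O : ValuationSubring (AlgebraicClosure K)} [CharP (ResidueField O) p]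
    {φ₀ : 𝓞 K →+* ResidueField O} (e₀ : ∀ r, Ev (resPlc O) (iK r) (φ₀ r))
    (h₀ : Ideal.absNorm (RingHom.ker φ₀) = p)
    (hΔ : ∀ P : Ideal (𝓞 K), P.IsMaximal → (p : 𝓞 K) ∈ P → (Wc A B).Δ ∉ P) {d : ℤ}
    (ho : ∀ P : Ideal (𝓞 K), P.IsMaximal → (p : 𝓞 K) ∈ P → Same A B d P → P = RingHom.ker φ₀)
    {D m c : ℕ} {a : ℤ} (N0 : ¬p ∣ m * N) (d0 : ¬p ∣ D) (sq : IsSquare (-(D : ZMod p)))
    (hd : IsSquare (d * -(D : ℤ))) (r : Rd (resPlc O) (iK A) (iK B) (φ₀ A) (φ₀ B)) {χ : EE r.good}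
    (c1 : χ * χ = -(D : EE r.good)) (c0 : cE _ χ ≠ 0) {P Q : Pt (iK A) (iK B)}
    (h1 : Cd N F A B iK P Q) (h2 : OrG m a c χ (r.red P) (r.red Q))
    (h3 : ∀ P Q, Cd N F A B φ₀ P Q → ¬OrG m a c (-χ) P Q) {U : Finset (AlgebraicClosure K)}
    (hU : ∀ x ∈ Subfield.closure (U : Set (AlgebraicClosure K)), x ^ 2 ≠ d)
    (inert : ∀ (q : ℕ) (O : ValuationSubring (AlgebraicClosure K)) [Fact q.Prime]
      [CharP (ResidueField O) q] (σ : K →+* AlgebraicClosure K) (φ : 𝓞 K →+* ResidueField O),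
      (∀ r : 𝓞 K, Ev (resPlc O) (σ r) (φ r)) → Good (φ A) (φ B) → 5 ≤ q → ¬q ∣ N →
      ¬IsSquare (-(D : ZMod q)) → (∀ u ∈ U, Fq O q u) → ∃ Q : Pt (φ A) (φ B), Q ≠ 0 ∧ q • Q = 0) :
    {P : Ideal (𝓞 K) | P.IsMaximal ∧ (Wc A B).Δ ∉ P ∧ Same A B d P}.Infinite := by
  intro fin
  have := gam_alg K
  have pp : p.Prime := Fact.out
  have D0 : D ≠ 0 := fun e => d0 (e ▸ dvd_zero p)
  have f : {t : AlgebraicClosure K | ∃ (σ : K →+* AlgebraicClosure K) (P Q : _),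
      Cd N F A B (σ.comp (algebraMap _ K)) P Q ∧ t = Ed.mv N ⟨_, _, P, Q, ∅⟩}.Finite := by
    rw [Set.ofPred_exists]
    exact Set.finite_iUnion fun σ => cd_finite hN _
  have tg : ∀ (q : ℕ) (O : ValuationSubring (AlgebraicClosure K)) [Fact q.Prime]
      [CharP (ResidueField O) q] (Φ : Ed (ResidueField O) → Prop), ¬q ∣ N →
      (∀ P : Ideal (𝓞 K), P.IsMaximal → (q : 𝓞 K) ∈ P → (Wc A B).Δ ∉ P) →
      (∀ (σ : K →+* AlgebraicClosure K) (φ : 𝓞 K →+* ResidueField O),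
        (∀ r : 𝓞 K, Ev (resPlc O) (σ r) (φ r)) → (RingHom.ker φ).IsMaximal →
        (q : 𝓞 K) ∈ RingHom.ker φ → ∀ P Q, Cd N F A B φ P Q → Φ ⟨_, _, P, Q, ∅⟩) →
      Tg (resPlc O) N f.toFinset Φ := fun q O _ _ Φ n0 hq H t ht => by
    obtain ⟨σ, P, Q, h, rfl⟩ := f.mem_toFinset.1 ht
    obtain ⟨φ, e, m1, m2⟩ := exists_phi' (O := O) (Fact.out : q.Prime) σ
    obtain ⟨a, b⟩ := h.red hF hR hN e (rd_of (e A) (e B) (good_phi (hq _ m1 m2)))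
      fun z => n0 ((CharP.cast_eq_zero_iff _ q _).1 z)
    exact ⟨_, a.1, b, H σ φ e m1 m2 _ _ a⟩
  obtain ⟨M, hM'⟩ := (fin.image Ideal.absNorm).bddAbove
  obtain ⟨p1, p2, p3⟩ := deg_one pp h₀
  have Δ0 : (Wc A B).Δ ≠ 0 := fun e => hΔ _ p1 p2 (e ▸ zero_mem _)
  have le : ∀ (q : ℕ) (P : Ideal (𝓞 K)), q.Prime → P.IsMaximal → (q : 𝓞 K) ∈ P → ∀ n : ℕ, n ≠ 0 →
      Ideal.absNorm P ∣ n → q ≤ n := fun q P hq h1 h2 n n0 h3 => by
    by_contra h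
    obtain ⟨u, v, e⟩ := (Nat.isCoprime_iff_coprime.2
      (Nat.coprime_of_lt_prime n0 (not_le.1 h) hq)).map (Int.castRingHom (𝓞 K))
    obtain ⟨c, rfl⟩ := h3
    refine h1.ne_top ((Ideal.eq_top_iff_one _).2 (e ▸ P.add_mem (P.mul_mem_left _ (by simpa using h2))
      (P.mul_mem_left _ ?_)))
    simpa using P.mul_mem_right _ P.absNorm_mem
  have big : ∀ q : ℕ, q.Prime → M + Ideal.absNorm (Ideal.span {(Wc A B).Δ}) < q →
      ∀ P : Ideal (𝓞 K), P.IsMaximal → (q : 𝓞 K) ∈ P → (Wc A B).Δ ∉ P ∧ ¬Same A B d P :=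
    fun q hq h P h1 h2 => by
      have k : (Wc A B).Δ ∉ P := fun e => by
        have := le q P hq h1 h2 _ (by simpa using Δ0)
          (Ideal.absNorm_dvd_absNorm_of_le ((Ideal.span_singleton_le_iff_mem _).2 e))
        omega
      refine ⟨k, fun e => ?_⟩
      have := le q P hq h1 h2 _ (Ideal.absNorm_eq_zero_iff.not.2
        (Ring.ne_bot_of_isMaximal_of_not_isField h1 (RingOfIntegers.not_isField K))) dvd_rfl
      have := hM' ⟨P, ⟨h1, k, e⟩, rfl⟩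
      omega
  have n0 : ¬p ∣ N := fun e => N0 (e.mul_left m)
  have hv : O.valuation (p : AlgebraicClosure K) < 1 :=
    ((Ev.nat (resPlc O) p).congr rfl (by simp)).v_lt
  obtain ⟨k1, k2⟩ := h1.red hF hR hN e₀ r fun z => n0 ((CharP.cast_eq_zero_iff _ p _).1 z)
  refine core2 (O := O) (R := f.toFinset) (M := M + Ideal.absNorm (Ideal.span {(Wc A B).Δ})) (U := U)
    hT hM hP hV hD hI hR hN (fun θ t ht => ?_) h5 hv
    N0 d0 sq k1.1 c1 c0 h2 (f.mem_toFinset.2 ⟨algebraMap K _, P, Q, h1, rfl⟩) k2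
    (tg p O _ n0 hΔ fun σ φ e m1 m2 P Q h => ?_) (fun s hs => ?_)
    (fun q O _ _ _ q1 q2 q3 q4 q5 => tg q O _ q4 (fun P a b => (big q Fact.out q1 P a b).1)
      fun σ φ e m1 m2 P Q h => nc_of q q2 (res_alg O q) m1 (big q Fact.out q1 _ m1 m2).1 q3 q5 hd
        (big q Fact.out q1 _ m1 m2).2)
    fun q O _ _ _ q1 q2 q3 q4 q5 => tg q O _ q3 (fun P a b => (big q Fact.out q1 P a b).1)
      fun σ φ e m1 m2 P Q h => inert q O σ φ e h.1.good q2 q3 q4 q5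
  · obtain ⟨σ, P, Q, h, rfl⟩ := f.mem_toFinset.1 ht
    have e := fun r => ev_triv (θ : _ →+* AlgebraicClosure K) (σ.comp (algebraMap (𝓞 K) K) r)
    obtain ⟨a, b⟩ := h.red (φ := ((θ : _ →+* AlgebraicClosure K).comp σ).comp (algebraMap _ K))
      hF hR hN e (rd_of (e A) (e B) (h.1.good.map _)) (Nat.cast_ne_zero.2 hN.prime.ne_zero)
    exact f.mem_toFinset.2 ⟨_, _, _, a, (ev_triv _ _).unique b⟩
  · by_cases s : Same A B d (RingHom.ker φ)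
    · obtain rfl : φ = φ₀ := RingHom.ext fun r => by
        obtain ⟨n, hn⟩ := p3 r
        have h' := hn
        rw [← ho _ m1 m2 s] at h'
        rw [RingHom.mem_ker, map_sub, map_natCast, sub_eq_zero] at hn h'
        rw [hn, h']
      exact Or.inr ⟨r.good, χ, c1, rfl, h3 P Q h⟩
    · exact Or.inl (nc_of p h5 (res_alg O p) m1 (hΔ _ m1 m2) d0 sq hd s)
  · obtain ⟨g, hg⟩ := hd
    have s0 : s ≠ 0 := fun e => D0 (by simpa [e] using hs)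
    let Z := Subfield.closure (U : Set (AlgebraicClosure K))
    have : Algebra.IsAlgebraic Z (AlgebraicClosure K) :=
      Algebra.IsAlgebraic.tower_top (K := ℚ) Z
    have : IsAlgClosure Z (AlgebraicClosure K) := ⟨inferInstance, this⟩
    by_contra hn
    obtain ⟨z, hz⟩ := (InfiniteGalois.mem_range_algebraMap_iff_fixed (k := Z) s).2 fun τ => by
      rcases sq_eq_sq_iff_eq_or_eq_neg.1 (show τ s ^ 2 = s ^ 2 by
        rw [← map_pow, hs, map_neg, map_natCast]) with e | e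
      · exact e
      · exact absurd ⟨τ.toRingEquiv, e, fun u hu => τ.commutes ⟨u, Subfield.subset_closure hu⟩⟩ hn
    refine hU (g / s) (div_mem (intCast_mem _ g) (hz ▸ z.2)) ?_
    have := congrArg (Int.cast : ℤ → AlgebraicClosure K) hg
    push_cast at this
    rw [div_pow, div_eq_iff (pow_ne_zero 2 s0), hs]
    linear_combination -this

end Pool.Agent.MP_c481b3_nt.H28
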