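import Pool.Agent.MP_c481b3_nt.H28.InertC

set_option autoImplicit false

namespace Pool.Agent.MP_c481b3_nt.H28

open Pool.Agent.MP_c481b3_nt.H81

namespace VolAux

lemma dvd_of_smul {G : Type*} [AddCommGroup G] {l : ℕ} (hl : l.Prime) {P : G} (h0 : P ≠ 0)
    (hP : l • P = 0) {s : ℤ} (hs : s • P = 0) : (l : ℤ) ∣ s := by
  have := Fact.mk hl
  rw [← addOrderOf_eq_prime hP h0]
  exact addOrderOf_dvd_iff_zsmul_eq_zero.2 hs

lemma inert_dvd {l D : ℕ} (hl : l.Prime) (hD : ¬IsSquare (-(D : ZMod l))) {a b : ℤ}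
    (h : (l : ℤ) ∣ a ^ 2 + D * b ^ 2) : (l : ℤ) ∣ a ∧ (l : ℤ) ∣ b := by
  have := Fact.mk hl
  rw [← ZMod.intCast_zmod_eq_zero_iff_dvd] at h
  rw [← ZMod.intCast_zmod_eq_zero_iff_dvd, ← ZMod.intCast_zmod_eq_zero_iff_dvd]
  push_cast at h
  have hb : (b : ZMod l) = 0 := by
    by_contra hb
    exact hD ⟨a / b, by field_simp; linear_combination -h⟩
  rw [hb] at h
  exact ⟨by simpa using h, hb⟩

lemma span_two {G : Type*} [AddCommGroup G] [DecidableEq G] {l D : ℕ} (hl : l.Prime)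
    (hD : ¬IsSquare (-(D : ZMod l))) (χ : G →+ G) (e : ∀ P, χ (χ P) = -(D • P)) {S : Finset G}
    (hS : ∀ P, P ∈ S ↔ l • P = 0) (hc : S.card = l ^ 2) {P : G} (h0 : P ≠ 0) (hP : l • P = 0)
    {T : G} (hT : l • T = 0) : ∃ a b : ℕ, T = a • P + b • χ P := by
  have key : ∀ a b : ℤ, a • P + b • χ P = 0 → (l : ℤ) ∣ a ∧ (l : ℤ) ∣ b := fun a b h => by
    refine inert_dvd hl hD (dvd_of_smul hl h0 hP ?_)
    have h1 := congrArg χ h
    rw [map_add, map_zsmul, map_zsmul, e, map_zero, ← natCast_zsmul] at h1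
    linear_combination (norm := module) a • h - b • h1
  have eq : ∀ a b : ℕ, a < l → b < l → (l : ℤ) ∣ (a : ℤ) - b → a = b := fun a b ha hb h => by
    have := Int.eq_zero_of_abs_lt_dvd h (by rw [abs_lt]; omega)
    omega
  have inj : Set.InjOn (fun x : ℕ × ℕ => x.1 • P + x.2 • χ P)
      ((Finset.range l ×ˢ Finset.range l : Finset (ℕ × ℕ)) : Set (ℕ × ℕ)) := by
    rintro ⟨a, b⟩ h1 ⟨c, d⟩ h2 h
    simp only [Finset.coe_product, Finset.coe_range, Set.mem_prod, Set.mem_Iio] at h1 h2 h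
    obtain ⟨k1, k2⟩ := key (a - c) (b - d) (by
      rw [sub_zsmul, sub_zsmul, natCast_zsmul, natCast_zsmul, natCast_zsmul, natCast_zsmul]
      linear_combination (norm := module) h)
    rw [eq a c h1.1 h2.1 k1, eq b d h1.2 h2.2 k2]
  have e1 : (Finset.range l ×ˢ Finset.range l).image (fun x : ℕ × ℕ => x.1 • P + x.2 • χ P) = S := by
    refine Finset.eq_of_subset_of_card_le (fun Q hQ => ?_) ?_
    · obtain ⟨x, -, rfl⟩ := Finset.mem_image.1 hQ
      rw [hS, nsmul_add, nsmul_left_comm, smul_comm l x.2, ← map_nsmul χ l, hP]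
      simp
    · rw [Finset.card_image_of_injOn inj, hc, Finset.card_product, Finset.card_range, sq]
  obtain ⟨x, -, hx⟩ := Finset.mem_image.1 (e1 ▸ (hS T).2 hT)
  exact ⟨_, _, hx.symm⟩

end VolAux

open VolAux in
theorem vol : Vol := by
  intro k _ _ _ _ _ p _ _ h3 H A B A₁ B₁ hG hG₁ D l i ⟨χ, e, c⟩ D0 hs hl l2 l0 hD f g hf hg gf fg
    ⟨T, t1, t2⟩ ⟨R, r1, r2⟩ φ
  rcases Nat.eq_zero_or_pos i with rfl | i0
  · simp
  have cr := compRing h3 hG₁
  obtain ⟨m, m1, -⟩ := is_ofE h3 hG χ c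
  obtain ⟨ψ, p1, -, p3⟩ := ((hg.comp h3 m1).comp h3 hf).toE h3 hG₁
  have p1 : ∀ P, ψ.1 P = f (χ.1 (g P)) := p1
  have e2 : ψ * ψ = -((D * (l ^ i) ^ 2 : ℕ) : EE hG₁) := EE_ext fun P => by
    rw [EE_mul, p1, p1, EE_neg, EE_nat, gf, map_nsmul, ← EE_mul, e, EE_neg, EE_nat, map_nsmul,
      map_neg, map_nsmul, fg, smul_neg, ← mul_nsmul, ← mul_nsmul]
    congr 2; ring
  have n0 : ((D * (l ^ i) ^ 2 : ℕ) : k) ≠ 0 := by push_cast; positivity
  have lp : (0 : ℤ) < ((D * (l ^ i) ^ 2 : ℕ) : ℤ) :=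
    Int.natCast_pos.2 (Nat.pos_of_ne_zero fun h => n0 (by rw [h, Nat.cast_zero]))
  obtain ⟨Q, q1, q2⟩ := tors_of_cm p hG₁ h3 e2 n0 (by
    rw [Nat.cast_mul, ← neg_mul, Nat.cast_pow]; exact hs.mul (IsSquare.sq _))
  have cm : φ * ψ = ψ * φ := by
    by_cases h : cE hG₁ φ = 0
    · have := ord_comm p hG₁ h3 H q1 q2 (φ + 1) ψ (by rw [map_add, h, map_one]; simp) p3
      rwa [add_mul, mul_add, one_mul, mul_one, add_left_inj] at this
    · exact ord_comm p hG₁ h3 H q1 q2 φ ψ h p3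
  obtain ⟨s, s1, s2⟩ := cr.comm_rel (cr.tr_of_sq lp (by simpa using e2)) cm
  rw [cr.norm_of_sq lp.le (by simpa using e2)] at s1 s2
  have ne : ψ.1 R ≠ 0 := fun h => by
    have t : Tm A B l := ⟨hG, h3, l0⟩
    obtain ⟨a, b, rfl⟩ := span_two hl hD (χ.1 : Pt A B →+ Pt A B) (fun P => by
      change (χ * χ).1 P = _
      rw [e, EE_neg, EE_nat]) (fun P => t.mem) t.card r2 (by rw [← map_nsmul, r1, map_zero]) t1
    obtain ⟨i, rfl⟩ := Nat.exists_eq_succ_of_ne_zero i0.ne'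
    rw [p1] at h
    refine t2 ?_
    rw [map_add, map_nsmul, map_nsmul, fg, pow_succ', mul_nsmul, r1]
    change _ + b • f (χ.1 (g R)) = 0
    rw [h]; simp
  have lz : (l : ℤ) ≠ 0 := by exact_mod_cast hl.ne_zero
  have key : ∀ (j : ℕ) (s : ℤ) (X : EE hG₁), (((l : ℤ) ^ j : ℤ) : EE hG₁) * X = s * ψ →
      (l : ℤ) ^ j ∣ s := by
    intro j
    induction j with
    | zero => simp
    | succ j ih =>
      intro s X h
      have h1 := congrArg (fun φ : EE hG₁ => φ.1 R) h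
      simp only [EE_mul, EE_int] at h1
      rw [pow_succ, mul_zsmul, natCast_zsmul, ← map_nsmul, r1, map_zero, zsmul_zero] at h1
      obtain ⟨s, rfl⟩ := dvd_of_smul hl ne (by rw [← map_nsmul, r1, map_zero]) h1.symm
      rw [pow_succ', Int.cast_mul, Int.cast_mul, mul_assoc, mul_assoc] at h
      rw [pow_succ']
      exact mul_dvd_mul_left _ (ih s X (cr.cancel (cr.int_ne lz) h))
  obtain ⟨s, rfl⟩ := key (2 * i) s (((2 * D : ℤ) : EE hG₁) * ((2 : ℤ) * φ - pol NE φ 1)) (by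
    rw [← s1, ← mul_assoc, ← Int.cast_mul]
    congr 2; push_cast; ring)
  have s3 : (l : ℤ) ^ (2 * i) * s ^ 2 = 4 * D * (4 * NE φ - pol NE φ 1 ^ 2) :=
    mul_left_cancel₀ (mul_ne_zero (pow_ne_zero (2 * i) lz) lp.ne') (by
      push_cast at s2 ⊢
      linear_combination s2)
  have hp : Prime (l : ℤ) := Nat.prime_iff_prime_int.1 hl
  refine hp.pow_dvd_of_dvd_mul_left _ (a := 4 * (D : ℤ)) (fun h => ?_) ⟨_, s3.symm⟩
  rcases hp.dvd_or_dvd h with h | h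
  · have : l ∣ 2 ^ 2 := by exact_mod_cast h
    exact l2 ((Nat.prime_dvd_prime_iff_eq hl Nat.prime_two).1 (hl.dvd_of_dvd_pow this))
  · refine hD ?_
    rw [(ZMod.natCast_eq_zero_iff D l).2 (by exact_mod_cast h), neg_zero]
    exact IsSquare.zero

end Pool.Agent.MP_c481b3_nt.H28
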