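import Pool.Agent.MP_c481b3_nt.H28.SpecD
import Pool.Agent.MP_c481b3_nt.H28.GoodC
import Pool.Agent.MP_c481b3_nt.H28.VolC

set_option autoImplicit false

namespace Pool.Agent.MP_c481b3_nt.H28

open Pool.Agent.MP_c481b3_nt.H81 Polynomial NumberField

namespace KerD

lemma integral_of_mem {L : Type} [Field L] {a b x : L} (ha : IsIntegral ℤ a) (hb : IsIntegral ℤ b)
    (h : ∀ O : ValuationSubring L, a ∈ O → b ∈ O → x ∈ O) : IsIntegral ℤ x := by
  have h1 : x ∈ (integralClosure (Subring.closure {a, b}) L).toSubring := by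
    rw [← iInf_valuationSubring_superset, Subring.mem_iInf]
    rintro ⟨O, hO⟩
    exact h O (hO (by simp)) (hO (by simp))
  have : Algebra.IsIntegral ℤ (Subring.closure {a, b}) := ⟨fun y => by
    have : Subring.closure {a, b} ≤ (integralClosure ℤ L).toSubring := by
      rw [Subring.closure_le]
      rintro y (rfl | rfl)
      · exact ha
      · exact hb
    exact (isIntegral_algebraMap_iff (B := L) Subtype.val_injective).1 (this y.2)⟩
  exact isIntegral_trans (A := Subring.closure {a, b}) x h1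

lemma mem_of_xc {k : Type} [Field k] [DecidableEq k] {A B : k} {D : Finset (Pt A B)} (h : IsSub D)
    {P Q : Pt A B} (hP : P ≠ 0) (hQ : Q ≠ 0) (m : Q ∈ D) (e : xc P = xc Q) : P ∈ D := by
  rcases eq_or_neg hP hQ e with rfl | rfl
  exacts [m, h.neg m]

lemma nsmul_mem {k : Type} [Field k] [DecidableEq k] {A B : k} {D : Finset (Pt A B)} (h : IsSub D)
    {P : Pt A B} (m : P ∈ D) (n : ℕ) : n • P ∈ D := by
  induction n with
  | zero => simpa using h.zero
  | succ n ih => rw [succ_nsmul]; exact h.add ih m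

lemma cyc_gen {k : Type} [Field k] [DecidableEq k] {A B : k} {D : Finset (Pt A B)} (h : IsSub D)
    (hp : D.card.Prime) {P Q : Pt A B} (hP : P ≠ 0) (m : P ∈ D) (m' : Q ∈ D) :
    ∃ n : ℕ, Q = n • P := by
  have := Fact.mk hp
  have o := addOrderOf_eq_prime (h.nsmul_card m) hP
  have e : (Finset.range D.card).image (fun n : ℕ => n • P) = D := by
    refine Finset.eq_of_subset_of_card_le (fun R hR => ?_) ?_
    · obtain ⟨n, -, rfl⟩ := Finset.mem_image.1 hR
      exact nsmul_mem h m n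
    · rw [Finset.card_image_of_injOn, Finset.card_range]
      rw [Finset.coe_range, ← o]
      exact nsmul_injOn_Iio_addOrderOf
  obtain ⟨n, -, hn⟩ := Finset.mem_image.1 (e.symm ▸ m')
  exact ⟨n, hn.symm⟩

end KerD

open KerD

theorem kerPol : KerPol := by
  intro K _ _ _ A B D hG hD H
  set F := ∏ P ∈ D.erase 0, (X - C ((D.card : AlgebraicClosure K) * xc P)) with hF
  have fix : ∀ σ : Gal(AlgebraicClosure K/K), F.map σ.toRingEquiv.toRingHom = F := by
    intro σ
    have a : σ.toRingEquiv.toRingHom (iK A) = iK A := σ.commutes (A : K)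
    have b : σ.toRingEquiv.toRingHom (iK B) = iK B := σ.commutes (B : K)
    have inj := Sc.injective (Sc.ofHom _ a b hG)
    have im : (D.erase 0).image (Sc.ofHom _ a b hG).map = D.erase 0 := by
      refine Finset.eq_of_subset_of_card_le (fun R hR => ?_)
        (by rw [Finset.card_image_of_injective _ inj])
      obtain ⟨P, hP, rfl⟩ := Finset.mem_image.1 hR
      obtain ⟨p0, p1⟩ := Finset.mem_erase.1 hP
      have n := (Sc.ofHom _ a b hG).map_ne p0
      refine Finset.mem_erase.2 ⟨n, ?_⟩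
      obtain ⟨Q, q1, q2⟩ := H σ P p1
      have e : xc ((Sc.ofHom _ a b hG).map P) = σ (xc P) := xc_ofHom _ _ _ _ P
      by_cases q0 : Q = 0
      · rw [q0, xc_zero] at q2
        exact mem_of_xc hD n p0 p1 (by rw [e, ← q2, (map_eq_zero σ).1 q2.symm])
      · exact mem_of_xc hD n q0 q1 (e.trans q2.symm)
    conv_rhs => rw [hF, ← im, Finset.prod_image inj.injOn]
    rw [hF, Polynomial.map_prod]
    refine Finset.prod_congr rfl fun P _ => ?_
    rw [xc_ofHom, Polynomial.map_sub, map_X, map_C, map_mul, map_natCast]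
  have int : F ∈ liftsRing (algebraMap (integralClosure ℤ (AlgebraicClosure K))
      (AlgebraicClosure K)) := by
    refine prod_mem fun P hP => ?_
    have i : IsIntegral ℤ ((D.card : AlgebraicClosure K) * xc P) := integral_of_mem
      (A.isIntegral_coe.map (IsScalarTower.toAlgHom ℤ K (AlgebraicClosure K)))
      (B.isIntegral_coe.map (IsScalarTower.toAlgHom ℤ K (AlgebraicClosure K))) fun O a b => by
        rw [← O.valuation_le_one_iff] at a b ⊢
        exact torsion_int O.valuation a b (hD.nsmul_card (Finset.mem_of_mem_erase hP))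
    exact sub_mem (X_mem_lifts _) (C'_mem_lifts ⟨⟨_, i⟩, rfl⟩)
  refine (mem_lifts F).1 ((lifts_iff_coeff_lifts F).2 fun n => ?_)
  obtain ⟨d, hd⟩ := (InfiniteGalois.mem_range_algebraMap_iff_fixed (k := K) (F.coeff n)).2
    fun σ => by
      conv_rhs => rw [← fix σ, coeff_map]
      rfl
  obtain ⟨⟨y, hy⟩, e⟩ := (lifts_iff_coeff_lifts F).1 int n
  have i : IsIntegral ℤ (F.coeff n) := e ▸ hy
  rw [← hd, isIntegral_algebraMap_iff (algebraMap K _).injective] at i
  exact ⟨⟨d, i⟩, hd⟩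

theorem seedN : SeedN := by
  intro k _ _ _ _ _ p hp _ h5 A B hG hA hB N h hN hNp hc ⟨D, d1, d2, d3⟩ a ha
  have h3 : (3 : k) ≠ 0 := fun e => by
    have := Nat.le_of_dvd (by norm_num) ((CharP.cast_eq_zero_iff k p 3).1 (by simpa using e))
    omega
  have cr := compRing h3 hG
  have hx : ∀ P, xc ((frE hG p 1 hA hB).1 P) = xc P ^ p := fun P =>
    (xc_frP hG p 1 hA hB P).trans (by rw [pow_one])
  have hn : ∀ P, P ≠ 0 → (frE hG p 1 hA hB).1 P ≠ 0 := fun P hP => Sc.map_ne _ hP
  set π := frE hG p 1 hA hB with hπ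
  have hNE : NE π = p := by rw [hπ, NE_frE, pow_one]
  have h2 : π * π = a * π - p := by simpa [ha, hNE] using cr.char π
  have N0 : (N : k) ≠ 0 := fun e =>
    hNp ((Nat.prime_dvd_prime_iff_eq hp.out hN).1 ((CharP.cast_eq_zero_iff k p N).1 e)).symm
  have m1 : ∀ P : Pt A B, P ≠ 0 → h.eval (N * xc P) = 0 → P ∈ D := fun P hP e => by
    rw [← d3, eval_prod, Finset.prod_eq_zero_iff] at e
    obtain ⟨Q, q1, q2⟩ := e
    rw [eval_sub, eval_X, eval_C, sub_eq_zero] at q2
    exact mem_of_xc d1 hP (Finset.mem_erase.1 q1).1 (Finset.mem_erase.1 q1).2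
      (mul_left_cancel₀ N0 q2)
  have hm : h.map (frobenius k p) = h := Polynomial.ext fun i => by
    rw [coeff_map, frobenius_def, hc]
  obtain ⟨P, p1, p0⟩ : ∃ P ∈ D, P ≠ 0 := Finset.exists_mem_ne (d2 ▸ hN.one_lt) 0
  have m2 : π.1 P ∈ D := m1 _ (hn P p0) (by
    have e : h.eval (N * xc P) = 0 := by
      rw [← d3, eval_prod]
      exact Finset.prod_eq_zero (Finset.mem_erase.2 ⟨p0, p1⟩) (by simp)
    rw [hx, ← frobenius_def, ← map_natCast (frobenius k p), ← map_mul, ← hm, eval_map,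
      eval₂_at_apply, e, map_zero])
  obtain ⟨c, hc⟩ := cyc_gen d1 (d2 ▸ hN) p0 p1 m2
  refine ⟨c, VolAux.dvd_of_smul hN p0 (d2 ▸ d1.nsmul_card p1) ?_, fun Q q0 e => ?_⟩
  · have e := congrArg (fun φ : EE hG => φ.1 P) h2
    simp only [EE_mul, EE_sub, EE_int, EE_nat, hc, map_nsmul] at e
    rw [← natCast_zsmul, ← natCast_zsmul, ← natCast_zsmul] at e
    linear_combination (norm := module) e
  · obtain ⟨n, rfl⟩ := cyc_gen d1 (d2 ▸ hN) p0 p1 (m1 Q q0 e)
    rw [map_nsmul, hc, natCast_zsmul, smul_comm]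

theorem seedTwo : SeedTwo := by
  intro k _ _ _ _ _ p hp _ h5 A B δ e r hG hA hB hδ hd he er hr rr a ha h0 a4
  have h3 : (3 : k) ≠ 0 := fun e => by
    have := Nat.le_of_dvd (by norm_num) ((CharP.cast_eq_zero_iff k p 3).1 (by simpa using e))
    omega
  have cr := compRing h3 hG
  obtain ⟨b, rfl⟩ : ∃ b, a = 2 * (2 * b) := ⟨a / 4, by omega⟩
  have f := sd_fix h3 hδ hd ha
  have hx : ∀ P, xc ((frE hG p 1 hA hB).1 P) = xc P ^ p := fun P =>
    (xc_frP hG p 1 hA hB P).trans (by rw [pow_one])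
  have hn : ∀ P, P ≠ 0 → (frE hG p 1 hA hB).1 P ≠ 0 := fun P hP => Sc.map_ne _ hP
  set π := frE hG p 1 hA hB with hπ
  have hN : NE π = p := by rw [hπ, NE_frE, pow_one]
  have hc : cE hG π = 0 := cE_frE hG p 1 hA hB one_ne_zero
  have h1 : (2 * (2 * b)) ^ 2 ≤ 4 * p := by simpa [ha, hN, cr.one] using cr.cauchy π 1
  have h2 : π * π = (2 * (2 * b) : ℤ) * π - p := by simpa [ha, hN] using cr.char π
  have g1 : ¬(p : ℤ) ∣ 2 * b := by
    rintro ⟨c, hc⟩
    rw [hc] at h0 h1
    have : c ≠ 0 := fun e => h0 (by rw [e, mul_zero, mul_zero])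
    have f1 : 1 ≤ c ^ 2 := sq_pos_of_ne_zero this
    have f2 : (5 : ℤ) ≤ p := by exact_mod_cast h5
    nlinarith [mul_le_mul_of_nonneg_left f1 (sq_nonneg (p : ℤ))]
  obtain ⟨D, hD⟩ := Int.eq_ofNat_of_zero_le (a := p - (2 * b) ^ 2) (by nlinarith)
  have k1 : ¬p ∣ D := fun g => g1 (by
    refine (Nat.prime_iff_prime_int.1 hp.out).dvd_of_dvd_pow (n := 2) ?_
    rw [show (2 * b) ^ 2 = p - D by omega]
    exact (dvd_refl _).sub (Int.natCast_dvd_natCast.2 g))
  have k2 : IsSquare (-(D : ZMod p)) := ⟨((2 * b : ℤ) : ZMod p), by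
    have := congrArg (Int.cast : ℤ → ZMod p) hD
    push_cast at this ⊢
    rw [← this, ZMod.natCast_self]
    ring⟩
  have k5 : IsSquare (((2 * (2 * b)) ^ 2 - 4 * p) * -(D : ℤ)) := ⟨2 * D, by rw [← hD]; ring⟩
  generalize hc' : 2 * b = c at *
  have k3 : (π - c) * (π - c) = -(D : EE hG) := by
    have g5 : ((p - c * c : ℤ) : EE hG) = D := by
      rw [show p - c * c = D by linear_combination hD, Int.cast_natCast]
    push_cast at g5 h2
    calc _ = π * π - π * c - c * π + c * c := by noncomm_ring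
      _ = -(p - c * c) := by
        rw [← (Int.cast_commute c π).eq, h2]
        noncomm_ring
      _ = _ := by rw [g5]
  have k4 : cE hG (π - c) ≠ 0 := by
    rw [map_sub, hc, zero_sub, map_intCast, neg_ne_zero]
    exact fun g => g1 ((CharP.intCast_eq_zero_iff k p c).1 g)
  obtain ⟨β, hβ⟩ : ∃ β : EE hG, π - c + 1 = (2 : ℤ) * β := sd_half h3 _ fun P hP => by
    rw [EE_add, EE_sub, EE_int, f P hP, ← hc', sd_zsmul hP, sub_zero, ← hP, two_nsmul]
    rfl
  obtain ⟨e₂, e₃, rt⟩ : ∃ e₂ e₃, Rt A B e e₂ e₃ := by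
    obtain ⟨s, hs⟩ := IsAlgClosed.exists_root (X ^ 2 + C e * X + C (e ^ 2 + A) : k[X])
      (degree_ne_of_natDegree_ne (n := 0) (by
        rw [show (X ^ 2 + C e * X + C (e ^ 2 + A) : k[X]).natDegree = 2 by compute_degree!]
        norm_num))
    simp only [IsRoot, eval_add, eval_pow, eval_X, eval_mul, eval_C] at hs
    exact ⟨s, -e - s, by ring, by linear_combination hs, by linear_combination er - e * hs⟩
  obtain ⟨t0, t1, t2⟩ := rt.two hG
  have rr' : (e - e₂) * (e - e₃) = r ^ 2 := by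
    linear_combination -rr - rt.s2 - 2 * e * rt.s1
  have r0 : r ≠ 0 := fun z => mul_ne_zero (sub_ne_zero.2 (rt.ne hG).1)
    (sub_ne_zero.2 (rt.ne hG).2.1) (by rw [rr', z, zero_pow two_ne_zero])
  obtain ⟨R, R0, R1⟩ := exists_pt hG (e + r)
  have R2 : e ≠ xc R := fun z => r0 (by linear_combination -z - R1)
  have R3 : xc (pt A B e 0 + R) = xc R := by
    have := two_shift rt hG R0 R2
    rw [rr', R1] at this
    rw [R1]
    exact mul_left_cancel₀ r0 (by linear_combination this)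
  have R4 : 2 • R = pt A B e 0 := by
    rcases eq_or_neg (fun z => R2 (by rw [← t1, eq_neg_of_add_eq_zero_left z, xc_neg])) R0 R3 with
      z | z
    · exact absurd (add_eq_right.1 z) t0
    · rw [← sd_neg t2, two_nsmul]
      linear_combination (norm := module) z
  have R5 : β.1 (pt A B e 0) = 0 ∨ β.1 (pt A B e 0) = pt A B e 0 := by
    rw [(sd_or h3 hβ _ _).1 ⟨R, R4, rfl⟩, EE_sub, EE_int, ← hc', mul_comm, mul_zsmul, two_zsmul,
      ← two_nsmul, R4]
    rcases eq_or_neg (hn R R0) R0 (by rw [hx, R1, add_pow_char, he, hr]) with z | z <;> rw [z]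
    · rw [sub_add_eq_add_sub, ← two_nsmul, R4]
      rcases sd_par t2 b with y | y <;> simp [y]
    · rw [sub_add_eq_add_sub, neg_add_cancel, zero_sub]
      rcases sd_par t2 b with y | y <;> simp [y, sd_neg t2]
  rcases R5 with y | y
  · refine ⟨D, π - c, k1, k2, k3, k4, k5, (sd_or h3 hβ _ _).2 y, fun z => t0 ?_⟩
    rwa [sd_or' h3 hβ, y, sub_zero] at z
  · refine ⟨D, -(π - c), k1, k2, by rw [neg_mul_neg, k3], by rwa [map_neg, neg_ne_zero], k5,
      (sd_or' h3 hβ _ _).2 (by rw [y, sub_self]), fun z => t0 ?_⟩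
    rwa [neg_neg, sd_or h3 hβ, y] at z

end Pool.Agent.MP_c481b3_nt.H28
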