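import Pool.Agent.MP_c481b3_nt.H28.InertC

set_option autoImplicit false

namespace Pool.Agent.MP_c481b3_nt.H28

open Pool.Agent.MP_c481b3_nt.H81 Polynomial IsLocalRing IntermediateField

namespace KumC

section degree

variable {L : Type} [Field L] [CharZero L] [Algebra.IsAlgebraic ℚ L]

lemma quad_mem {D : ℕ} {s : L} (hs : s ^ 2 = -D) {x : L} (hx : x ∈ ℚ⟮s⟯) :
    ∃ c d : ℚ, x = c + d * s := by
  have h : x ∈ Algebra.adjoin ℚ {s} := by
    rw [← adjoin_simple_toSubalgebra_of_isAlgebraic (Algebra.IsAlgebraic.isAlgebraic s)]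
    exact hx
  clear hx
  induction h using Algebra.adjoin_induction with
  | mem x hx => exact ⟨0, 1, by simpa using hx⟩
  | algebraMap c => exact ⟨c, 0, by simp⟩
  | add x y _ _ hx hy =>
    obtain ⟨c, d, rfl⟩ := hx
    obtain ⟨e, f, rfl⟩ := hy
    exact ⟨c + e, d + f, by push_cast; ring⟩
  | mul x y _ _ hx hy =>
    obtain ⟨c, d, rfl⟩ := hx
    obtain ⟨e, f, rfl⟩ := hy
    exact ⟨c * e - D * d * f, c * f + d * e, by push_cast; linear_combination (d * f : L) * hs⟩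

lemma r_dvd {D r : ℕ} {s α θ : L} (hs : s ^ 2 = -D) (hr : r.Prime) (hα : α ∈ ℚ⟮s⟯)
    (hn : ∀ c d : ℚ, ((c : L) + d * s) ^ r ≠ α) (hθ : θ ^ r = α) {M : IntermediateField ℚ L}
    (h1 : s ∈ M) (h2 : θ ∈ M) : r ∣ Module.finrank ℚ M := by
  have hi : Irreducible (X ^ r - C (⟨α, hα⟩ : ℚ⟮s⟯)) :=
    X_pow_sub_C_irreducible_of_prime hr fun b hb => by
      obtain ⟨c, d, e⟩ := quad_mem hs b.2
      exact hn c d (by rw [← e]; exact congrArg Subtype.val hb)
  have hm := minpoly.eq_of_irreducible_of_monic (x := θ) hi (by simp [hθ])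
    (monic_X_pow_sub_C _ hr.ne_zero)
  have hd : Module.finrank ℚ⟮s⟯ ℚ⟮s⟯⟮θ⟯ = r := by
    rw [adjoin.finrank ((Algebra.IsAlgebraic.isAlgebraic (R := ℚ) θ).tower_top _).isIntegral,
      ← hm, natDegree_X_pow_sub_C]
  have hle : (ℚ⟮s⟯⟮θ⟯).restrictScalars ℚ ≤ M := by
    refine (adjoin_simple_adjoin_simple ℚ s θ).le.trans (adjoin_le_iff.2 ?_)
    rintro x (rfl | rfl)
    exacts [h1, h2]
  refine Dvd.dvd.trans ?_ (finrank_dvd_of_le_right hle)
  rw [← hd]
  exact Dvd.intro_left _ (Module.finrank_mul_finrank ℚ ℚ⟮s⟯ ℚ⟮s⟯⟮θ⟯)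

lemma phi_dvd {m : ℕ} {z : L} (hm : 0 < m) (hz : IsPrimitiveRoot z m)
    {M : IntermediateField ℚ L} (h : z ∈ M) : m.totient ∣ Module.finrank ℚ M := by
  refine Dvd.dvd.trans ?_ (finrank_dvd_of_le_right (adjoin_simple_le_iff.2 h))
  rw [adjoin.finrank (Algebra.IsAlgebraic.isAlgebraic z).isIntegral,
    ← cyclotomic_eq_minpoly_rat hz hm, natDegree_cyclotomic]

lemma half_le {D : ℕ} {s : L} (hs : s ^ 2 = -D) (K : IntermediateField ℚ L)
    [FiniteDimensional ℚ K] :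
    0 < Module.finrank ℚ ((K⟮s⟯).restrictScalars ℚ) ∧
      Module.finrank ℚ ((K⟮s⟯).restrictScalars ℚ) ≤ Module.finrank ℚ K * 2 := by
  have hi : IsIntegral K s := ((Algebra.IsAlgebraic.isAlgebraic (R := ℚ) s).tower_top _).isIntegral
  have e : Module.finrank ℚ ((K⟮s⟯).restrictScalars ℚ) =
      Module.finrank ℚ K * (minpoly K s).natDegree := by
    rw [← adjoin.finrank hi]
    exact (Module.finrank_mul_finrank ℚ K K⟮s⟯).symm
  have h2 : (minpoly K s).natDegree ≤ 2 := by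
    have := minpoly.min K s (monic_X_pow_sub_C (-(D : K)) two_ne_zero) (by simp [hs])
    rw [degree_X_pow_sub_C two_pos] at this
    exact natDegree_le_iff_degree_le.2 this
  rw [e]
  exact ⟨Nat.mul_pos Module.finrank_pos (minpoly.natDegree_pos hi), Nat.mul_le_mul_left _ h2⟩

lemma cop {D r : ℕ} (hD : D ≠ 0) (hr : r.Prime) (h : 4 * D < r) :
    r.Coprime (4 * D * r).totient := by
  have c : (4 * D).Coprime r :=
    ((Nat.coprime_of_lt_prime (by omega) h hr)).symm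
  rw [Nat.totient_mul c, Nat.totient_prime hr]
  refine Nat.Coprime.mul_right ?_ ?_
  · exact Nat.coprime_of_lt_prime (Nat.totient_pos.2 (by omega)).ne'
      ((Nat.totient_le _).trans_lt h) hr
  · exact Nat.coprime_of_lt_prime (by omega) (by omega) hr

end degree

section residue

variable {κ : Type} [Field κ] {q : ℕ} [Fact q.Prime] [CharP κ q]

lemma frob_s {D : ℕ} (h4 : q % 4 = 1) (hn : ¬IsSquare (-(D : ZMod q))) {s : κ}
    (hs : s ^ 2 = -D) : s ^ q = -s := by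
  have h0 : (-(D : ZMod q)) ≠ 0 := fun e => hn (e ▸ IsSquare.zero)
  have h1 := (ZMod.pow_div_two_eq_neg_one_or_one q h0).resolve_left
    fun e => hn ((ZMod.euler_criterion q h0).2 e)
  have h2 := congrArg (ZMod.castHom (dvd_refl q) κ) h1
  rw [map_pow, map_neg, map_natCast, map_neg, map_one, ← hs, ← pow_mul] at h2
  have e : q = 2 * (q / 2) + 1 := by omega
  rw [e, pow_succ, h2, neg_one_mul]

lemma frob_pair {s x ε : κ} (hs : s ^ q = -s) (hε : ε * ε = 1) (hε' : ε ^ q = ε)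
    (hx : x ^ (q + 1) = ε) :
    (x + ε / x) ^ q = x + ε / x ∧ (s * (x - ε / x)) ^ q = s * (x - ε / x) := by
  have e0 : ε ≠ 0 := left_ne_zero_of_mul_eq_one hε
  have x0 : x ≠ 0 := by
    rintro rfl
    exact e0 (by rw [← hx, zero_pow q.succ_ne_zero])
  have h1 : x ^ q = ε / x := by rw [eq_div_iff x0, ← pow_succ, hx]
  have h2 : (ε / x) ^ q = x := by
    rw [div_pow, hε', h1]
    field_simp
  rw [add_pow_char, mul_pow, sub_pow_char, h1, h2, hs]
  constructor <;> ring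

lemma frob_al {s : κ} (hs : s ^ q = -s) (A B : ℤ) (h1 : (A : κ) - B * s ≠ 0)
    (h2 : (A : κ) + B * s ≠ 0) : (((A : κ) + B * s) / (A - B * s)) ^ (q + 1) = 1 := by
  have hz : ∀ n : ℤ, (n : κ) ^ q = n := fun n => map_intCast (frobenius κ q) n
  rw [pow_succ, div_pow, add_pow_char, sub_pow_char, mul_pow, hz, hz, hs, mul_neg,
    sub_neg_eq_add, ← sub_eq_add_neg]
  field_simp

end residue

variable {L : Type} [Field L] {O : ValuationSubring L}

lemma mem_of_pow {x : L} {n : ℕ} (hn : n ≠ 0) (h : x ^ n ∈ O) : x ∈ O := by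
  rw [← O.valuation_le_one_iff] at h ⊢
  rw [map_pow] at h
  exact (pow_le_one_iff hn).1 h

lemma fixed {q : ℕ} {t : L} {t' : ResidueField O} (h : Ev (resPlc O) t t') (e : t' ^ q = t') :
    t ∈ O ∧ O.valuation (t ^ q - t) < 1 :=
  ⟨h.mem, (((h.pow q).sub h).congr rfl (by rw [e, sub_self])).v_lt⟩

lemma pair {q D : ℕ} (hq : q.Prime) (hv : O.valuation (q : L) < 1) (h4 : q % 4 = 1)
    (hn : ¬IsSquare (-(D : ZMod q))) {s x : L} (hs : s ^ 2 = -D) {ε : ℤ} (hε : ε = 1 ∨ ε = -1)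
    {x' : ResidueField O} (hx : Ev (resPlc O) x x') (hx' : x' ^ (q + 1) = ε) :
    (x + ε / x ∈ O ∧ O.valuation ((x + ε / x) ^ q - (x + ε / x)) < 1) ∧
      (s * (x - ε / x) ∈ O ∧ O.valuation ((s * (x - ε / x)) ^ q - s * (x - ε / x)) < 1) := by
  have := res_charP hq hv
  have := Fact.mk hq
  have n := (Ev.nat (resPlc O) D).neg
  have e := Ev.of_mem (π := resPlc O) (mem_of_pow two_ne_zero (hs ▸ n.mem))
  have h1 : (ε : ResidueField O) * ε = 1 := by rcases hε with rfl | rfl <;> simp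
  have x0 : x' ≠ 0 := by
    rintro rfl
    exact left_ne_zero_of_mul_eq_one h1 (by rw [← hx', zero_pow q.succ_ne_zero])
  obtain ⟨h2, h3⟩ := frob_pair (frob_s h4 hn ((e.pow 2).unique (hs ▸ n))) h1
    (map_intCast (frobenius _ q) ε) hx'
  have d := (Ev.int (resPlc O) ε).div hx x0
  exact ⟨fixed (hx.add d) h2, fixed (e.mul (hx.sub d)) h3⟩

lemma root_red {q D r : ℕ} (hq : q.Prime) (hv : O.valuation (q : L) < 1) (h4 : q % 4 = 1)
    (hn : ¬IsSquare (-(D : ZMod q))) (hr : r.Prime) (hr2 : 2 < r) (hrq : r ∣ q + 1) {s u : L}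
    (hs : s ^ 2 = -D) {A B : ℤ} (hN : ¬(q : ℤ) ∣ A ^ 2 + D * B ^ 2)
    (hu : u ^ r = (A + B * s) / (A - B * s))
    (h : Ev (resPlc O) ((((A : L) + B * s) / (A - B * s)) ^ ((q ^ 2 - 1) / r)) 1) :
    ∃ u', Ev (resPlc O) u u' ∧ u' ^ (q + 1) = 1 := by
  have := res_charP hq hv
  have := Fact.mk hq
  have n := (Ev.nat (resPlc O) D).neg
  have e := Ev.of_mem (π := resPlc O) (mem_of_pow two_ne_zero (hs ▸ n.mem))
  have e2 := (e.pow 2).unique (hs ▸ n)
  generalize (resPlc O).ev s = s' at e e2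
  have hN' : ((A : ResidueField O) - B * s') * (A + B * s') ≠ 0 := fun z => hN (by
    rw [← CharP.intCast_eq_zero_iff (ResidueField O) q]
    push_cast
    linear_combination z + (B : ResidueField O) ^ 2 * e2)
  have a := ((Ev.int (resPlc O) A).add ((Ev.int _ B).mul e)).div
    ((Ev.int (resPlc O) A).sub ((Ev.int _ B).mul e)) (left_ne_zero_of_mul hN')
  have a1 := frob_al (frob_s h4 hn e2) A B (left_ne_zero_of_mul hN') (right_ne_zero_of_mul hN')
  have b := Ev.of_mem (π := resPlc O) (mem_of_pow hr.ne_zero (hu ▸ a.mem))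
  have b1 := (b.pow r).unique (hu ▸ a)
  have b2 := (a.pow _).unique h
  refine ⟨_, b, ?_⟩
  generalize (resPlc O).ev u = u' at b1
  have q2 := hq.two_le
  have f : q ^ 2 - 1 = (q + 1) * (q - 1) := by simpa using Nat.sq_sub_sq q 1
  have c : r.gcd (q - 1) = 1 := (Nat.Prime.coprime_iff_not_dvd hr).2 fun d => by
    have := Nat.dvd_sub hrq d
    rw [show q + 1 - (q - 1) = 2 by omega] at this
    exact absurd (Nat.le_of_dvd two_pos this) (by omega)
  have g := (pow_gcd_eq_one (a := u' ^ (q + 1)) (m := r) (n := q - 1)).2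
    ⟨by rw [← pow_mul, mul_comm, pow_mul, b1, a1], by
      rw [← pow_mul, ← f, ← Nat.mul_div_cancel' (f ▸ hrq.mul_right (q - 1) : r ∣ q ^ 2 - 1),
        pow_mul, b1, b2]⟩
  rwa [c, pow_one] at g

end KumC

open KumC in
theorem kumK_of (h : NotSplit) : KumK := by
  classical
  intro L _ _ _ _ D r s a b hD hs hr hDr h0 hn W hW
  have D0 : D ≠ 0 := by omega
  have r2 : 2 < r := by omega
  have m0 : 0 < 4 * D * r := by positivity
  obtain ⟨A, B, hA, hAB⟩ : ∃ A B : ℤ, (A : L) - B * s ≠ 0 ∧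
      ((a : L) + b * s) / (a - b * s) = (A + B * s) / (A - B * s) := by
    have c0 : ((a.den * b.den : ℕ) : L) ≠ 0 :=
      Nat.cast_ne_zero.2 (mul_ne_zero a.den_nz b.den_nz)
    have ea : ((a.num * b.den : ℤ) : L) = ((a.den * b.den : ℕ) : L) * a := by
      have : (a.num : L) = a * a.den := by exact_mod_cast (Rat.mul_den_eq_num a).symm
      push_cast
      rw [this]; ring
    have eb : ((b.num * a.den : ℤ) : L) = ((a.den * b.den : ℕ) : L) * b := by
      have : (b.num : L) = b * b.den := by exact_mod_cast (Rat.mul_den_eq_num b).symm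
      push_cast
      rw [this]; ring
    refine ⟨a.num * b.den, b.num * a.den, ?_, ?_⟩
    · rw [ea, eb, mul_assoc, ← mul_sub]
      exact mul_ne_zero c0 h0
    · rw [ea, eb, mul_assoc, ← mul_sub, ← mul_add, mul_div_mul_left _ _ c0]
  rw [hAB] at hn ⊢
  have α0 : ((A : L) + B * s) / (A - B * s) ≠ 0 := fun e =>
    hn 0 0 (by rw [e]; simp [hr.ne_zero])
  have N0 : A ^ 2 + D * B ^ 2 ≠ 0 := fun e => mul_ne_zero hA (div_ne_zero_iff.1 α0).1 (by
    have := congrArg (Int.cast : ℤ → L) e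
    push_cast at this
    linear_combination this - (B : L) ^ 2 * hs)
  have s0 : s ≠ 0 := fun e => D0 (by simpa [e] using hs)
  obtain ⟨θ, hθ⟩ := IsAlgClosed.exists_pow_nat_eq (((A : L) + B * s) / (A - B * s)) hr.pos
  have := NeZero.of_pos m0
  obtain ⟨z, hz⟩ := HasEnoughRootsOfUnity.exists_primitiveRoot L (4 * D * r)
  have z2 : z ^ (2 * D * r) = -1 :=
    (hz.pow m0 (by ring : 4 * D * r = 2 * D * r * 2)).eq_neg_one_of_two_right
  let T : Finset L := {z + (-1 : ℤ) / z, s * (z - (-1 : ℤ) / z), θ + (1 : ℤ) / θ,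
    s * (θ - (1 : ℤ) / θ)}
  have hd : (4 * D * r).totient < Module.finrank ℚ (adjoin ℚ (T : Set L)) := by
    have : FiniteDimensional ℚ (adjoin ℚ (T : Set L)) :=
      finiteDimensional_adjoin fun x _ => (Algebra.IsAlgebraic.isAlgebraic x).isIntegral
    obtain ⟨p1, p2⟩ := half_le hs (adjoin ℚ (T : Set L))
    generalize hM : ((adjoin ℚ (T : Set L))⟮s⟯).restrictScalars ℚ = M at p1 p2
    have sM : s ∈ M := hM ▸ mem_adjoin_simple_self (adjoin ℚ (T : Set L)) s
    have TM : ∀ t ∈ T, t ∈ M := fun t ht =>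
      hM ▸ ((adjoin ℚ (T : Set L))⟮s⟯).algebraMap_mem ⟨t, subset_adjoin ℚ _ ht⟩
    have key : ∀ x y : L, x + y ∈ T → s * (x - y) ∈ T → x ∈ M := fun x y h1 h2 => by
      have := div_mem (add_mem (TM _ h1) (div_mem (TM _ h2) sM)) (_root_.natCast_mem M 2)
      convert this using 1
      field_simp
      ring
    have d1 := r_dvd hs hr (div_mem
      (add_mem (_root_.intCast_mem _ A) (mul_mem (_root_.intCast_mem _ B) (mem_adjoin_simple_self ℚ s)))
      (sub_mem (_root_.intCast_mem _ A) (mul_mem (_root_.intCast_mem _ B) (mem_adjoin_simple_self ℚ s))))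
      hn hθ sM (key θ (((1 : ℤ) : L) / θ)
        (by simp only [T, Finset.mem_insert, Finset.mem_singleton, true_or, or_true])
        (by simp only [T, Finset.mem_insert, Finset.mem_singleton, true_or, or_true]))
    have d2 := phi_dvd m0 hz (key z (((-1 : ℤ) : L) / z)
      (by simp only [T, Finset.mem_insert, Finset.mem_singleton, true_or, or_true])
      (by simp only [T, Finset.mem_insert, Finset.mem_singleton, true_or, or_true]))
    have d3 := Nat.le_of_dvd p1 ((cop D0 hr hDr).mul_dvd_of_dvd_of_dvd d1 d2)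
    have d4 := Nat.totient_pos.2 m0
    nlinarith
  obtain ⟨k, hk⟩ : ∃ k, 2 * D * r = k + 1 := ⟨2 * D * r - 1, by
    have : 0 < 2 * D * r := by positivity
    omega⟩
  have hu : IsUnit ((k : ℕ) : ZMod (4 * D * r)) := by
    refine IsUnit.of_mul_eq_one (k : ZMod (4 * D * r)) ?_
    have e1 : ((4 * D * r : ℕ) : ZMod (4 * D * r)) = 0 := ZMod.natCast_self _
    have e2 := congrArg (Nat.cast : ℕ → ZMod (4 * D * r)) hk
    push_cast at e1 e2
    linear_combination (D * r - 1) * e1 - (2 * D * r + k - 1) * e2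
  obtain ⟨q, hq, hqW, hqc, hO⟩ := h L T (4 * D * r) k m0.ne' hu hd
    (W ∪ {q | (q : ℤ) ∣ A ^ 2 + D * B ^ 2}) (hW.union (thin_finite
      ((Set.finite_le_nat (A ^ 2 + D * B ^ 2).natAbs).subset fun q hq =>
        Nat.le_of_dvd (Int.natAbs_pos.2 N0) (Int.natCast_dvd.1 hq))))
  have c1 : q + 1 ≡ 2 * D * r [MOD 4 * D * r] :=
    hk ▸ ((ZMod.natCast_eq_natCast_iff _ _ _).1 hqc).add_right 1
  have c2 : D * r ∣ q + 1 := (Nat.modEq_zero_iff_dvd).1
    ((c1.of_dvd ⟨4, by ring⟩).trans (Nat.modEq_zero_iff_dvd.2 ⟨2, by ring⟩))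
  have h4 : q % 4 = 1 := by
    have c3 : q + 1 ≡ 2 * D * r [MOD 4] := c1.of_dvd ⟨D * r, by ring⟩
    have o : (D * r) % 2 = 1 := by
      rw [Nat.mul_mod, show D % 2 = 1 by omega, hr.eq_two_or_odd.resolve_left r2.ne']
    unfold Nat.ModEq at c3
    rw [mul_assoc] at c3
    omega
  have hi := inert_of_mod hD hq h4 ((Dvd.intro _ rfl).trans c2)
  have hrq : r ∣ q + 1 := (Dvd.intro_left _ rfl).trans c2
  refine ⟨q, hq, fun x => hqW (Or.inl x), h4, hi, hrq, fun O hv hlt => ?_⟩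
  obtain ⟨t, ht, σ, hσ⟩ := hO O hv
  have hs' : σ s ^ 2 = -D := by rw [← map_pow, hs, map_neg, map_natCast]
  have E : Ev (resPlc O) ((((A : L) + B * s) / (A - B * s)) ^ ((q ^ 2 - 1) / r)) 1 :=
    ((Ev.of_lt (π := resPlc O) hlt).add (Ev.one _)).congr (sub_add_cancel _ _) (zero_add _)
  have E' : Ev (resPlc O) ((((A : L) + B * σ s) / (A - B * σ s)) ^ ((q ^ 2 - 1) / r)) 1 := by
    rcases sq_eq_sq_iff_eq_or_eq_neg.1 (hs'.trans hs.symm) with e | e
    · rwa [e]
    · refine ((Ev.one _).div E one_ne_zero).congr ?_ (div_one _)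
      rw [e, one_div, ← inv_pow, inv_div, mul_neg, sub_neg_eq_add, sub_eq_add_neg]
  obtain ⟨u', u1, u2⟩ := root_red (u := σ θ) hq hv h4 hi hr r2 hrq hs'
    (fun x => hqW (Or.inr x)) (by rw [← map_pow, hθ]; simp) E'
  have zm : σ z ^ (4 * D * r) = 1 := by rw [← map_pow, hz.pow_eq_one, map_one]
  have z3 : σ z ^ (q + 1) = -1 := by
    rw [pow_eq_pow_of_modEq c1 zm, ← map_pow, z2, map_neg, map_one]
  have w1 := Ev.of_mem (π := resPlc O) (mem_of_pow m0.ne' (zm ▸ O.one_mem))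
  have w2 := (w1.pow (q + 1)).unique ((Ev.one (resPlc O)).neg.congr z3.symm rfl)
  obtain ⟨t1, t2⟩ := pair hq hv h4 hi hs' (ε := -1) (Or.inr rfl) w1 (by simpa using w2)
  obtain ⟨t3, t4⟩ := pair hq hv h4 hi hs' (ε := 1) (Or.inl rfl) u1 (by simpa using u2)
  refine hσ ?_
  simp only [T, Finset.mem_insert, Finset.mem_singleton] at ht
  rcases ht with rfl | rfl | rfl | rfl <;>
    simp only [map_add, map_mul, map_sub, map_div₀, map_intCast] <;> assumption

end Pool.Agent.MP_c481b3_nt.H28
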