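import Pool.Agent.MP_c481b3_nt.H28.SpecD
import Pool.Agent.MP_c481b3_nt.H28.KumC

set_option autoImplicit false

namespace Pool.Agent.MP_c481b3_nt.H28

open Pool.Agent.MP_c481b3_nt.H81 Polynomial IsLocalRing IntermediateField

namespace KumD

open KumC

section degree

variable {L : Type} [Field L] [CharZero L] [Algebra.IsAlgebraic ℚ L]

lemma fin_adj (S : Set L) [Finite S] : FiniteDimensional ℚ (adjoin ℚ S) :=
  finiteDimensional_adjoin fun x _ => (Algebra.IsAlgebraic.isAlgebraic x).isIntegral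

omit [Algebra.IsAlgebraic ℚ L] in
lemma fix_adj {S : Set L} (g : L ≃+* L) (hg : ∀ x ∈ S, g x = x) {x : L} (hx : x ∈ adjoin ℚ S) :
    g x = x := by
  induction hx using adjoin_induction with
  | mem x hx => exact hg x hx
  | algebraMap c => simp
  | add x y _ _ hx hy => rw [map_add, hx, hy]
  | inv x _ hx => rw [map_inv₀, hx]
  | mul x y _ _ hx hy => rw [map_mul, hx, hy]

lemma cyc_aut [IsAlgClosed L] {S : Set L} [Finite S] {r : ℕ} (hr : r.Prime) {z w : L}
    (hz : IsPrimitiveRoot z r) (hw : IsPrimitiveRoot w r)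
    (hd : Module.finrank ℚ (adjoin ℚ (insert z S)) = Module.finrank ℚ (adjoin ℚ S) * (r - 1)) :
    ∃ ρ : L ≃+* L, (∀ x ∈ S, ρ x = x) ∧ ρ w = z := by
  have := fin_adj S
  have ha : Algebra.IsAlgebraic (adjoin ℚ S) L := Algebra.IsAlgebraic.tower_top (K := ℚ) _
  have : IsAlgClosure (adjoin ℚ S) L := ⟨inferInstance, ha⟩
  have hi : IsIntegral (adjoin ℚ S) z := (ha.isAlgebraic z).isIntegral
  have e : Module.finrank ℚ (((adjoin ℚ S)⟮z⟯).restrictScalars ℚ) =
      Module.finrank ℚ (adjoin ℚ S) * (minpoly (adjoin ℚ S) z).natDegree := by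
    rw [← adjoin.finrank hi]
    exact (Module.finrank_mul_finrank ℚ (adjoin ℚ S) (adjoin ℚ S)⟮z⟯).symm
  have e0 : ((adjoin ℚ S)⟮z⟯).restrictScalars ℚ = adjoin ℚ (insert z S) :=
    (adjoin_adjoin_left ℚ S {z}).trans (by rw [Set.union_singleton])
  rw [e0, hd] at e
  have e1 := Nat.eq_of_mul_eq_mul_left Module.finrank_pos e
  have rt : ∀ y : L, IsPrimitiveRoot y r → aeval y (cyclotomic r (adjoin ℚ S)) = 0 :=
    fun y hy => by
      rw [aeval_def, eval₂_eq_eval_map, map_cyclotomic]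
      exact hy.isRoot_cyclotomic hr.pos
  have e2 := eq_of_monic_of_dvd_of_natDegree_le (minpoly.monic hi)
    (cyclotomic.monic r (adjoin ℚ S)) (minpoly.dvd _ z (rt z hz))
    (by rw [natDegree_cyclotomic, Nat.totient_prime hr, e1])
  obtain ⟨ρ, hρ⟩ := minpoly.exists_algEquiv_of_root (K := adjoin ℚ S) (x := w)
    (ha.isAlgebraic z) (e2 ▸ rt w hw)
  exact ⟨ρ.toRingEquiv, fun x hx => ρ.commutes ⟨x, subset_adjoin ℚ S hx⟩, hρ⟩

end degree

section residue

variable {κ : Type} [Field κ] {q : ℕ} [Fact q.Prime] [CharP κ q]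

lemma frob_s {D : ℕ} (h4 : q % 2 = 1) (hn : ¬IsSquare (-(D : ZMod q))) {s : κ}
    (hs : s ^ 2 = -D) : s ^ q = -s := by
  have h0 : (-(D : ZMod q)) ≠ 0 := fun e => hn (e ▸ IsSquare.zero)
  have h1 := (ZMod.pow_div_two_eq_neg_one_or_one q h0).resolve_left
    fun e => hn ((ZMod.euler_criterion q h0).2 e)
  have h2 := congrArg (ZMod.castHom (dvd_refl q) κ) h1
  rw [map_pow, map_neg, map_natCast, map_neg, map_one, ← hs, ← pow_mul] at h2
  have e : q = 2 * (q / 2) + 1 := by omega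
  rw [e, pow_succ, h2, neg_one_mul]

lemma frob_sq {D : ℕ} (hn : IsSquare (-(D : ZMod q))) {s : κ} (hs : s ^ 2 = -D) : s ^ q = s := by
  obtain ⟨x, hx⟩ := hn
  have h1 := congrArg (ZMod.castHom (dvd_refl q) κ) hx
  have h2 := congrArg (ZMod.castHom (dvd_refl q) κ) (ZMod.pow_card x)
  rw [map_neg, map_natCast, map_mul, ← hs, ← sq] at h1
  rw [map_pow] at h2
  rcases sq_eq_sq_iff_eq_or_eq_neg.1 h1 with e | e
  · rw [e, h2]
  · rw [e]
    exact (map_neg (frobenius κ q) _).trans (congrArg Neg.neg h2)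

lemma inv_frob {s x : κ} (h2 : (2 : κ) ≠ 0) (s0 : s ≠ 0) (x0 : x ≠ 0) (hs : s ^ q = -s)
    (h3 : (x + 1 / x) ^ q = x + 1 / x) (h4 : (s * (x - 1 / x)) ^ q = s * (x - 1 / x)) :
    x ^ (q + 1) = 1 := by
  rw [add_pow_char] at h3
  rw [mul_pow, sub_pow_char, hs] at h4
  have h5 : x ^ q = 1 / x := by
    apply mul_left_cancel₀ (mul_ne_zero h2 s0)
    linear_combination s * h3 - h4
  rw [pow_succ, h5, one_div_mul_cancel x0]

end residue

variable {L : Type} [Field L] {O : ValuationSubring L}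

lemma unfix {q : ℕ} {t : L} {t' : ResidueField O} (h : Ev (resPlc O) t t') (e : Fq O q t) :
    t' ^ q = t' :=
  sub_eq_zero.1 (((h.pow q).sub h).unique (Ev.of_lt (π := resPlc O) e.2))

lemma pair {q D : ℕ} (hq : q.Prime) (hv : O.valuation (q : L) < 1) (h4 : q % 2 = 1)
    (hn : ¬IsSquare (-(D : ZMod q))) {s x : L} (hs : s ^ 2 = -D)
    {x' : ResidueField O} (hx : Ev (resPlc O) x x') (hx' : x' ^ (q + 1) = 1) :
    Fq O q (x + 1 / x) ∧ Fq O q (s * (x - 1 / x)) := by
  have := res_charP hq hv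
  have := Fact.mk hq
  have n := (Ev.nat (resPlc O) D).neg
  have e := Ev.of_mem (π := resPlc O) (mem_of_pow two_ne_zero (hs ▸ n.mem))
  have x0 : x' ≠ 0 := by
    rintro rfl
    exact one_ne_zero (by rw [← hx', zero_pow q.succ_ne_zero])
  obtain ⟨h2, h3⟩ := frob_pair (frob_s h4 hn ((e.pow 2).unique (hs ▸ n))) (one_mul 1)
    (one_pow q) hx'
  have d := (Ev.one (resPlc O)).div hx x0
  exact ⟨fixed (hx.add d) h2, fixed (e.mul (hx.sub d)) h3⟩

lemma nonsq {q D : ℕ} (hq : q.Prime) (hv : O.valuation (q : L) < 1) {s : L} (hs : s ^ 2 = -D)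
    (h : ¬Fq O q s) : ¬IsSquare (-(D : ZMod q)) := fun hn => by
  have := res_charP hq hv
  have := Fact.mk hq
  have n := (Ev.nat (resPlc O) D).neg
  have e := Ev.of_mem (π := resPlc O) (mem_of_pow two_ne_zero (hs ▸ n.mem))
  exact h (fixed e (frob_sq hn ((e.pow 2).unique (hs ▸ n))))

lemma ord_dvd {q D r : ℕ} (hq : q.Prime) (hv : O.valuation (q : L) < 1) (h4 : q % 2 = 1)
    (hn : ¬IsSquare (-(D : ZMod q))) (hr : r.Prime) (hrq : r < q) {s z : L} (hs : s ^ 2 = -D)
    (hz : IsPrimitiveRoot z r) (h1 : Fq O q (z + 1 / z)) (h2 : Fq O q (s * (z - 1 / z))) :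
    r ∣ q + 1 := by
  have := res_charP hq hv
  have := Fact.mk hq
  have := Fact.mk hr
  have n := (Ev.nat (resPlc O) D).neg
  have e := Ev.of_mem (π := resPlc O) (mem_of_pow two_ne_zero (hs ▸ n.mem))
  have e2 := (e.pow 2).unique (hs ▸ n)
  generalize (resPlc O).ev s = s' at e e2
  have w := Ev.of_mem (π := resPlc O) (mem_of_pow hr.ne_zero (hz.pow_eq_one ▸ O.one_mem))
  have w1 := (w.pow r).unique ((Ev.one (resPlc O)).congr hz.pow_eq_one.symm rfl)
  have w2 := (Ev.sum (Finset.range r) fun i _ => w.pow i).unique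
    ((Ev.zero (resPlc O)).congr (hz.geom_sum_eq_zero hr.one_lt).symm rfl)
  generalize (resPlc O).ev z = z' at w w1 w2
  have z0 : z' ≠ 0 := by
    rintro rfl
    exact one_ne_zero (by rw [← w1, zero_pow hr.ne_zero])
  have z1 : z' ≠ 1 := by
    rintro rfl
    simp only [one_pow, Finset.sum_const, Finset.card_range, nsmul_eq_mul, mul_one] at w2
    exact absurd (Nat.le_of_dvd hr.pos ((CharP.cast_eq_zero_iff _ q r).1 w2)) (by omega)
  have s0 : s' ≠ 0 := by
    rintro rfl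
    refine hn ?_
    have : (D : ZMod q) = 0 := (ZMod.natCast_eq_zero_iff D q).2
      ((CharP.cast_eq_zero_iff (ResidueField O) q D).1 (by linear_combination e2))
    rw [this, neg_zero]
    exact IsSquare.zero
  have t0 : (2 : ResidueField O) ≠ 0 := fun t => by
    have := Nat.le_of_dvd two_pos ((CharP.cast_eq_zero_iff (ResidueField O) q 2).1 t)
    have := hq.two_le
    omega
  have d := (Ev.one (resPlc O)).div w z0
  have h3 := inv_frob t0 s0 z0 (frob_s h4 hn e2) (unfix (w.add d) h1) (unfix (e.mul (w.sub d)) h2)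
  rw [← orderOf_eq_prime w1 z1]
  exact orderOf_dvd_of_pow_eq_one h3

lemma root_red {q D r : ℕ} (hq : q.Prime) (hv : O.valuation (q : L) < 1) (h4 : q % 2 = 1)
    (hn : ¬IsSquare (-(D : ZMod q))) (hr : r.Prime) (hr2 : 2 < r) (hrq : r ∣ q + 1) {s u : L}
    (hs : s ^ 2 = -D) {A B : ℤ} (hN : ¬(q : ℤ) ∣ A ^ 2 + D * B ^ 2)
    (hu : u ^ r = (A + B * s) / (A - B * s))
    (h : Ev (resPlc O) ((((A : L) + B * s) / (A - B * s)) ^ ((q ^ 2 - 1) / r)) 1) :
    ∃ u', Ev (resPlc O) u u' ∧ u' ^ (q + 1) = 1 := by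
  have := res_charP hq hv
  have := Fact.mk hq
  have n := (Ev.nat (resPlc O) D).neg
  have e := Ev.of_mem (π := resPlc O) (mem_of_pow two_ne_zero (hs ▸ n.mem))
  have e2 := (e.pow 2).unique (hs ▸ n)
  generalize (resPlc O).ev s = s' at e e2
  have hN' : ((A : ResidueField O) - B * s') * (A + B * s') ≠ 0 := fun z => hN (by
    rw [← CharP.intCast_eq_zero_iff (ResidueField O) q]
    push_cast
    linear_combination z + (B : ResidueField O) ^ 2 * e2)
  have a := ((Ev.int (resPlc O) A).add ((Ev.int _ B).mul e)).div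
    ((Ev.int (resPlc O) A).sub ((Ev.int _ B).mul e)) (left_ne_zero_of_mul hN')
  have a1 := frob_al (frob_s h4 hn e2) A B (left_ne_zero_of_mul hN') (right_ne_zero_of_mul hN')
  have b := Ev.of_mem (π := resPlc O) (mem_of_pow hr.ne_zero (hu ▸ a.mem))
  have b1 := (b.pow r).unique (hu ▸ a)
  have b2 := (a.pow _).unique h
  refine ⟨_, b, ?_⟩
  generalize (resPlc O).ev u = u' at b1
  have q2 := hq.two_le
  have f : q ^ 2 - 1 = (q + 1) * (q - 1) := by simpa using Nat.sq_sub_sq q 1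
  have c : r.gcd (q - 1) = 1 := (Nat.Prime.coprime_iff_not_dvd hr).2 fun d => by
    have := Nat.dvd_sub hrq d
    rw [show q + 1 - (q - 1) = 2 by omega] at this
    exact absurd (Nat.le_of_dvd two_pos this) (by omega)
  have g := (pow_gcd_eq_one (a := u' ^ (q + 1)) (m := r) (n := q - 1)).2
    ⟨by rw [← pow_mul, mul_comm, pow_mul, b1, a1], by
      rw [← pow_mul, ← f, ← Nat.mul_div_cancel' (f ▸ hrq.mul_right (q - 1) : r ∣ q ^ 2 - 1),
        pow_mul, b1, b2]⟩
  rwa [c, pow_one] at g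

end KumD

open KumD in
theorem kumK2_of (h : NotSplit2) (hC : CycDis) : KumK2 := by
  classical
  intro L _ _ _ _ D s U τ D0 hs hτ hU n
  obtain ⟨r, hr, hnr, hcy⟩ := hC L (insert s U)
    (n + Module.finrank ℚ (adjoin ℚ ((insert s U : Finset L) : Set L)) + 2)
  refine ⟨r, hr, by omega, fun a b h0 hn M => ?_⟩
  have r2 : 2 < r := by omega
  obtain ⟨A, B, hA, hAB⟩ : ∃ A B : ℤ, (A : L) - B * s ≠ 0 ∧
      ((a : L) + b * s) / (a - b * s) = (A + B * s) / (A - B * s) := by
    have c0 : ((a.den * b.den : ℕ) : L) ≠ 0 :=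
      Nat.cast_ne_zero.2 (mul_ne_zero a.den_nz b.den_nz)
    have ea : ((a.num * b.den : ℤ) : L) = ((a.den * b.den : ℕ) : L) * a := by
      have : (a.num : L) = a * a.den := by exact_mod_cast (Rat.mul_den_eq_num a).symm
      push_cast
      rw [this]; ring
    have eb : ((b.num * a.den : ℤ) : L) = ((a.den * b.den : ℕ) : L) * b := by
      have : (b.num : L) = b * b.den := by exact_mod_cast (Rat.mul_den_eq_num b).symm
      push_cast
      rw [this]; ring
    refine ⟨a.num * b.den, b.num * a.den, ?_, ?_⟩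
    · rw [ea, eb, mul_assoc, ← mul_sub]
      exact mul_ne_zero c0 h0
    · rw [ea, eb, mul_assoc, ← mul_sub, ← mul_add, mul_div_mul_left _ _ c0]
  rw [hAB] at hn ⊢
  have α0 : ((A : L) + B * s) / (A - B * s) ≠ 0 := fun e =>
    hn 0 0 (by rw [e]; simp [hr.ne_zero])
  have N0 : A ^ 2 + D * B ^ 2 ≠ 0 := fun e => mul_ne_zero hA (div_ne_zero_iff.1 α0).1 (by
    have := congrArg (Int.cast : ℤ → L) e
    push_cast at this
    linear_combination this - (B : L) ^ 2 * hs)
  have s0 : s ≠ 0 := fun e => D0 (by simpa [e] using hs)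
  obtain ⟨θ, hθ⟩ := IsAlgClosed.exists_pow_nat_eq (((A : L) + B * s) / (A - B * s)) hr.pos
  have := NeZero.of_pos hr.pos
  obtain ⟨z, hz⟩ := HasEnoughRootsOfUnity.exists_primitiveRoot L r
  obtain ⟨ρ, hρ, hρz⟩ := cyc_aut hr hz.inv (hz.map_of_injective τ.injective) (hcy _ hz.inv)
  let U' : Finset L := insert (z + 1 / z) (insert (s * (z - 1 / z)) U)
  let T₂ : Finset L := {θ + 1 / θ, s * (θ - 1 / θ)}
  have gs : (τ.trans ρ) s = -s := by
    rw [RingEquiv.trans_apply, hτ, map_neg, hρ s (by simp)]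
  have gz : (τ.trans ρ) z = 1 / z := by rw [RingEquiv.trans_apply, hρz, one_div]
  have gU : ∀ u ∈ (U' : Set L), (τ.trans ρ) u = u := by
    intro u hu
    simp only [U', Finset.coe_insert, Set.mem_insert_iff, Finset.mem_coe] at hu
    rcases hu with rfl | rfl | hu
    · rw [map_add, map_div₀, map_one, gz, one_div_one_div, add_comm]
    · rw [map_mul, map_sub, map_div₀, map_one, gz, gs, one_div_one_div]
      ring
    · rw [RingEquiv.trans_apply, hU u hu, hρ u (by simp [hu])]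
  have hd : Module.finrank ℚ (adjoin ℚ (U' : Set L)) *
      (Module.finrank ℚ (adjoin ℚ (U' ∪ ({s} : Finset L) : Set L)) +
        Module.finrank ℚ (adjoin ℚ (U' ∪ T₂ : Set L))) <
      Module.finrank ℚ (adjoin ℚ (U' ∪ ({s} : Finset L) : Set L)) *
        Module.finrank ℚ (adjoin ℚ (U' ∪ T₂ : Set L)) := by
    have f1 := fin_adj (U' ∪ ({s} : Finset L) : Set L)
    have f2 := fin_adj (U' ∪ T₂ : Set L)
    have f3 := fin_adj ((insert s U : Finset L) : Set L)
    have l1 : adjoin ℚ (U' : Set L) ≤ adjoin ℚ (U' ∪ ({s} : Finset L) : Set L) :=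
      adjoin.mono _ _ _ Set.subset_union_left
    have d0 := finrank_dvd_of_le_right l1
    have n0 : Module.finrank ℚ (adjoin ℚ (U' : Set L)) ≠
        Module.finrank ℚ (adjoin ℚ (U' ∪ ({s} : Finset L) : Set L)) := fun e => by
      have e1 : s ∈ adjoin ℚ (U' : Set L) := by
        rw [eq_of_le_of_finrank_eq l1 e]
        exact subset_adjoin ℚ _ (by simp)
      have e2 := fix_adj _ gU e1
      rw [gs] at e2
      exact s0 (self_eq_neg.1 e2.symm)
    have l2 : adjoin ℚ (U' ∪ ({s} : Finset L) : Set L) ≤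
        adjoin ℚ (insert z ((insert s U : Finset L) : Set L)) := by
      have m1 : z ∈ adjoin ℚ (insert z ((insert s U : Finset L) : Set L)) :=
        subset_adjoin ℚ _ (by simp)
      have m2 : s ∈ adjoin ℚ (insert z ((insert s U : Finset L) : Set L)) :=
        subset_adjoin ℚ _ (by simp)
      refine adjoin_le_iff.2 fun u hu => ?_
      simp only [U', Finset.coe_insert, Finset.coe_singleton, Set.mem_union, Set.mem_insert_iff,
        Finset.mem_coe, Set.mem_singleton_iff] at hu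
      rcases hu with (rfl | rfl | hu) | rfl
      · exact add_mem m1 (div_mem (one_mem _) m1)
      · exact mul_mem m2 (sub_mem m1 (div_mem (one_mem _) m1))
      · exact subset_adjoin ℚ _ (by simp [hu])
      · exact m2
    have d1 := finrank_dvd_of_le_right l2
    rw [hcy z hz] at d1
    have c1 := Nat.Coprime.coprime_dvd_right d1 (Nat.Coprime.mul_right
      (Nat.coprime_of_lt_prime Module.finrank_pos.ne' (by omega) hr)
      (Nat.coprime_of_lt_prime (by omega) (by omega) hr))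
    obtain ⟨p1, p2⟩ := KumC.half_le hs (adjoin ℚ (U' ∪ T₂ : Set L))
    generalize hM : ((adjoin ℚ (U' ∪ T₂ : Set L))⟮s⟯).restrictScalars ℚ = M at p1 p2
    have sM : s ∈ M := hM ▸ mem_adjoin_simple_self (adjoin ℚ (U' ∪ T₂ : Set L)) s
    have TM : ∀ t ∈ (U' ∪ T₂ : Set L), t ∈ M := fun t ht =>
      hM ▸ ((adjoin ℚ (U' ∪ T₂ : Set L))⟮s⟯).algebraMap_mem ⟨t, subset_adjoin ℚ _ ht⟩
    have θM : θ ∈ M := by
      have := div_mem (add_mem (TM (θ + 1 / θ) (by simp [T₂]))
        (div_mem (TM (s * (θ - 1 / θ)) (by simp [T₂])) sM)) (_root_.natCast_mem M 2)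
      convert this using 1
      generalize 1 / θ = y
      field_simp
      ring
    have d2 := KumC.r_dvd hs hr (div_mem
      (add_mem (_root_.intCast_mem _ A) (mul_mem (_root_.intCast_mem _ B) (mem_adjoin_simple_self ℚ s)))
      (sub_mem (_root_.intCast_mem _ A) (mul_mem (_root_.intCast_mem _ B) (mem_adjoin_simple_self ℚ s))))
      hn hθ sM θM
    have l3 : adjoin ℚ (U' ∪ ({s} : Finset L) : Set L) ≤ M := by
      refine adjoin_le_iff.2 ?_
      rintro u (hu | hu)
      · exact TM u (Or.inl hu)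
      · rw [Finset.coe_singleton, Set.mem_singleton_iff] at hu
        exact hu ▸ sM
    have d3 := Nat.le_of_dvd p1 (c1.mul_dvd_of_dvd_of_dvd d2 (finrank_dvd_of_le_right l3))
    have p3 : 0 < Module.finrank ℚ (adjoin ℚ (U' ∪ ({s} : Finset L) : Set L)) :=
      Module.finrank_pos
    generalize Module.finrank ℚ (adjoin ℚ (U' : Set L)) = n₀ at d0 n0 ⊢
    generalize Module.finrank ℚ (adjoin ℚ (U' ∪ ({s} : Finset L) : Set L)) = n₁ at d0 n0 d3 p3 ⊢
    generalize Module.finrank ℚ (adjoin ℚ (U' ∪ T₂ : Set L)) = n₂ at p2 ⊢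
    obtain ⟨k, rfl⟩ := d0
    have k2 : 2 ≤ k := by
      rcases k with _ | _ | k
      · simp at p3
      · simp at n0
      · omega
    have p4 : 0 < n₀ := Nat.pos_of_mul_pos_right p3
    have p5 : n₀ * k < n₂ := by nlinarith
    calc n₀ * (n₀ * k + n₂) < n₀ * (n₂ + n₂) := by gcongr
      _ = n₀ * 2 * n₂ := by ring
      _ ≤ n₀ * k * n₂ := by gcongr
  obtain ⟨q, hq, hM, O, hv, hF, ⟨t₁, ht₁, σ₁, -, h1⟩, t, ht, σ, -, hσ⟩ :=
    h L U' {s} T₂ _ _ _ rfl rfl rfl hd (M + r + (A ^ 2 + D * B ^ 2).natAbs)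
  rw [Finset.mem_singleton] at ht₁
  subst ht₁
  have sq : ∀ g : L ≃+* L, g t₁ ^ 2 = -D := fun g => by rw [← map_pow, hs, map_neg, map_natCast]
  have hi := nonsq hq hv (sq σ₁) h1
  have h4 : q % 2 = 1 := hq.eq_two_or_odd.resolve_left (by omega)
  have hrq : r ∣ q + 1 := ord_dvd hq hv h4 hi hr (by omega) hs hz (hF _ (by simp [U']))
    (hF _ (by simp [U']))
  refine ⟨q, hq, by omega, hi, hrq, O, hv, fun u hu => hF u (by simp [U', hu]), fun hlt => ?_⟩
  have E : Ev (resPlc O) ((((A : L) + B * t₁) / (A - B * t₁)) ^ ((q ^ 2 - 1) / r)) 1 :=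
    ((Ev.of_lt (π := resPlc O) hlt).add (Ev.one _)).congr (sub_add_cancel _ _) (zero_add _)
  have E' : Ev (resPlc O) ((((A : L) + B * σ t₁) / (A - B * σ t₁)) ^ ((q ^ 2 - 1) / r)) 1 := by
    rcases sq_eq_sq_iff_eq_or_eq_neg.1 ((sq σ).trans hs.symm) with e | e
    · rwa [e]
    · refine ((Ev.one _).div E one_ne_zero).congr ?_ (div_one _)
      rw [e, one_div, ← inv_pow, inv_div, mul_neg, sub_neg_eq_add, sub_eq_add_neg]
  obtain ⟨u', u1, u2⟩ := root_red (u := σ θ) hq hv h4 hi hr r2 hrq (sq σ)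
    (fun x => absurd (Nat.le_of_dvd (Int.natAbs_pos.2 N0) (Int.natCast_dvd.1 x)) (by omega))
    (by rw [← map_pow, hθ]; simp) E'
  obtain ⟨t3, t4⟩ := pair hq hv h4 hi (sq σ) u1 u2
  refine hσ ?_
  simp only [T₂, Finset.mem_insert, Finset.mem_singleton] at ht
  rcases ht with rfl | rfl <;>
    simp only [map_add, map_mul, map_sub, map_div₀, map_one] <;> assumption

end Pool.Agent.MP_c481b3_nt.H28
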