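import Pool.Agent.MP_c481b3_nt.H28.Spec
import Pool.Agent.MP_c481b3_nt.H28.Comp

set_option autoImplicit false

namespace Pool.Agent.MP_c481b3_nt.H28

open Polynomial NumberField

/-- the prime `l` and the element `φ` have the properties wanted at the seed prime -/
structure SeedEl {R : Type} [Ring R] (N : R → ℤ) (p : ℕ) (π : R) (M l : ℕ) (φ : R) : Prop where
  prime : l.Prime
  big : M < l
  mod8 : l % 8 = 7
  res : ∀ q : ℕ, q.Prime → q ≤ M → q ≠ 2 → q ≠ p → jacobiSym (-(l : ℤ)) q = 1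
  nonres : jacobiSym (-(l : ℤ)) p = -1
  anti : φ * π = -(π * φ)
  norm : N φ = l
  uniq : ∀ ψ, ψ * π = -(π * ψ) → N ψ = l → ψ = φ ∨ ψ = -φ

/-- the algebra at the seed prime -/
def SeedAlg : Prop :=
  ∀ (R : Type) [Ring R] (N : R → ℤ), CompRing R N → ∀ (p : ℕ) (π : R), p.Prime → p % 4 = 1 →
    π * π = -(p : R) →
    (∃ φ, φ * π = -(π * φ) ∧ ¬(p : ℤ) ∣ N φ) →
    (∀ φ, φ * π = -(π * φ) → ¬(p : ℤ) ∣ N φ → ¬IsSquare ((-N φ : ℤ) : ZMod p)) →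
    (∀ (r : ℕ) (φ : R), r.Prime → r ≠ p → φ * π = -(π * φ) → (r : ℤ) ∣ N φ →
      (∃ ψ, φ = r * ψ) ∨ ∃ (m : ℤ) (ψ : R), (r : ℤ) ∣ m ^ 2 + p ∧ (π - m) * φ = r * ψ) →
    (∀ φ, φ * π = -(π * φ) → N φ ≠ 2) →
    ∀ M : ℕ, ∃ (l l' : ℕ) (φ φ' : R) (t : ℤ), SeedEl N p π M l φ ∧ SeedEl N p π M l' φ' ∧
      φ * φ' + φ' * φ = t ∧ ¬(p : ℤ) ∣ t ∧ ¬(p : ℤ) ^ 2 ∣ t ^ 2 - 4 * l * l'

/-- on the index set `Z` the values `ξ` are those of a fraction in `x` that is `x / γ + ⋯` -/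
def FD {R : Type} [CommRing R] {ι : Type} (Z : Finset ι) (x ξ : ι → R) (m : ℕ) (γ : R) : Prop :=
  ∃ n d : R[X], n.Monic ∧ n.natDegree = m ∧ d.natDegree < m ∧ d.coeff (m - 1) = γ ∧
    ∀ i ∈ Z, IsUnit (d.eval (x i)) ∧ n.eval (x i) = d.eval (x i) * ξ i

/-- composition of fractions -/
def FDComp : Prop :=
  ∀ (R : Type) [CommRing R] (ι : Type) (Z : Finset ι) (x ξ ζ : ι → R) (m m' : ℕ) (γ γ' : R),
    FD Z x ξ m γ → FD Z ξ ζ m' γ' → FD Z x ζ (m * m') (γ * γ')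

/-- the leading term of a fraction is determined by many values -/
def FDUniq : Prop :=
  ∀ (R : Type) [CommRing R] (ι : Type) (Z : Finset ι) (x ξ : ι → R) (m m' : ℕ) (γ γ' : R),
    (∀ i ∈ Z, ∀ j ∈ Z, i ≠ j → IsUnit (x i - x j)) → m + m' ≤ Z.card →
    FD Z x ξ m γ → FD Z x ξ m' γ' → γ = γ'

/-- the leading terms of three fractions whose values are collinear -/
def FDTri : Prop :=
  ∀ (R : Type) [CommRing R] (ι : Type) (Z : Finset ι) (x ξ₁ ξ₂ ξ₃ : ι → R) (m₁ m₂ m₃ : ℕ)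
    (γ₁ γ₂ γ₃ A B : R), (∀ i ∈ Z, ∀ j ∈ Z, i ≠ j → IsUnit (x i - x j)) →
    2 * (m₁ + m₂ + m₃) ≤ Z.card → FD Z x ξ₁ m₁ γ₁ → FD Z x ξ₂ m₂ γ₂ → FD Z x ξ₃ m₃ γ₃ →
    (∀ i ∈ Z, (A - (ξ₁ i * ξ₂ i + ξ₁ i * ξ₃ i + ξ₂ i * ξ₃ i)) ^ 2
      = 4 * (ξ₁ i + ξ₂ i + ξ₃ i) * (ξ₁ i * ξ₂ i * ξ₃ i + B)) →
    (γ₁ + γ₂ + γ₃) ^ 2 = 4 * (γ₁ * γ₂ + γ₁ * γ₃ + γ₂ * γ₃)

/-- the element has odd order at the ideal -/
def OddAt {R : Type} [CommRing R] (P : Ideal R) (x : R) : Prop :=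
  ∃ n : ℕ, Odd n ∧ x ∈ P ^ n ∧ x ∉ P ^ (n + 1)

/-- quadratic reciprocity for the norm of an element of a totally complex field -/
def GlobalPar : Prop :=
  ∀ (K : Type) [Field K] [NumberField K] [IsTotallyComplex K] (l : ℕ), l.Prime → l % 8 = 7 →
    ∀ x y z : 𝓞 K, x = y ^ 2 + l * z → (∀ P : Ideal (𝓞 K), P.IsMaximal → (l : 𝓞 K) ∈ P → x ∉ P) →
    ∀ P₀ : Ideal (𝓞 K), P₀.IsMaximal → Odd (Ideal.absNorm P₀) →
      jacobiSym (-(l : ℤ)) (Ideal.absNorm P₀) = -1 → OddAt P₀ x →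
    ∃ P : Ideal (𝓞 K), P.IsMaximal ∧ P ≠ P₀ ∧ Odd (Ideal.absNorm P) ∧
      jacobiSym (-(l : ℤ)) (Ideal.absNorm P) = -1 ∧ OddAt P x

/-- a place of the algebraic closure restricts to the adic valuation -/
def DiscreteAt : Prop :=
  ∀ (K : Type) [Field K] [NumberField K] (P : Ideal (𝓞 K)), P.IsMaximal →
    ∀ O : ValuationSubring (AlgebraicClosure K),
    (∀ r : 𝓞 K, algebraMap _ (AlgebraicClosure K) r ∈ O) →
    (∀ r : 𝓞 K, O.valuation (algebraMap _ (AlgebraicClosure K) r) < 1 ↔ r ∈ P) →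
    (∃ w ∈ P, w ∉ P ^ 2) ∧ (∀ x : 𝓞 K, x ≠ 0 → ∃ n : ℕ, x ∈ P ^ n ∧ x ∉ P ^ (n + 1)) ∧
    ∀ w ∈ P, w ∉ P ^ 2 →
      Discrete O (algebraMap K (AlgebraicClosure K)).fieldRange
        (algebraMap _ (AlgebraicClosure K) w) ∧
      ∀ (x : 𝓞 K) (n : ℕ), x ∈ P ^ n → x ∉ P ^ (n + 1) →
        O.valuation (algebraMap _ (AlgebraicClosure K) x)
          = O.valuation (algebraMap _ (AlgebraicClosure K) w) ^ n

/-- a prime at which a generator of the field is rational has degree one -/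
def DegOne : Prop :=
  ∀ (K : Type) [Field K] [NumberField K] (a b : 𝓞 K),
    IntermediateField.adjoin ℚ {(a : K) / (b : K)} = ⊤ →
    ∃ d : ℕ, ∀ (l : ℕ) (P : Ideal (𝓞 K)), l.Prime → d < l → P.IsMaximal → (l : 𝓞 K) ∈ P →
      b ∉ P → a ^ l * b - a * b ^ l ∈ P → Ideal.absNorm P = l

end Pool.Agent.MP_c481b3_nt.H28
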