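import Pool.Agent.MP_c481b3_nt.H28.Cong
import Pool.Agent.MP_c481b3_nt.H28.Spec2

set_option autoImplicit false

namespace Pool.Agent.MP_c481b3_nt.H28

open Pool.Agent.MP_c481b3_nt.H81 Polynomial

/-- the congruence of Kronecker on the diagonal -/
def Kron : Prop :=
  ∀ (l : ℕ) (Ψ : ℤ[X]), l.Prime → 5 ≤ l → IsUnivPsi l Ψ →
    ∃ (a : ℕ) (Ψ₁ : ℤ[X]), Ψ = C ((l : ℤ) ^ a) * Ψ₁ ∧
      Ψ₁.map (Int.castRingHom (ZMod l)) = -(X ^ (2 * l + 2) * (X ^ l - X)) ^ 2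

/-- a curve with an endomorphism of square `-l` is supersingular above `l` -/
def SSl : Prop :=
  ∀ (L κ : Type) [Field L] [Field κ] [DecidableEq L] [DecidableEq κ] [IsAlgClosed L]
    [IsAlgClosed κ] [CharZero L] (π : Plc L κ) (A B : L) (A' B' : κ), Rd π A B A' B' →
    Function.Surjective π.ρ → ∀ l : ℕ, l.Prime → 5 ≤ l → (l : κ) = 0 →
    ∀ (D : Finset (Pt A B)) (u : L), VD D u A B → D.card = l → u ^ 2 = -l →
    ∀ Q : Pt A' B', l • Q = 0 → Q = 0

/-- the subgroup is the kernel of an endomorphism of square `-l` -/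
def SD {k : Type} [Field k] [DecidableEq k] {A B : k} (l : ℕ) (D : Finset (Pt A B)) : Prop :=
  ∃ u, VD D u A B ∧ u ^ 2 = -l ∧ ∀ P, vm D u A B (vm D u A B P) = -(l • P)

open Classical in
/-- the parity of the order of the product over the subgroups of order `l` -/
def Parity : Prop :=
  ∀ (L κ : Type) [Field L] [Field κ] [DecidableEq L] [DecidableEq κ] [IsAlgClosed L]
    [IsAlgClosed κ] [CharZero L] (π : Plc L κ) (A B : L) (A' B' : κ) (r : Rd π A B A' B') (l : ℕ),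
    l.Prime → l ≠ 2 → Tm A' B' l → A' ≠ 0 → B' ≠ 0 →
    ∀ (F : Subfield L) (w : L), A ∈ F → B ∈ F → w ∈ F → w ≠ 0 → π.O.valuation w < 1 →
    Discrete π.O F w →
    ∀ (σ : L →+* L) (τ : κ →+* κ) (hA : τ A' = A') (hB : τ B' = B'), σ A = A → σ B = B → σ w = w →
    (∀ x, σ x ∈ π.O ↔ x ∈ π.O) → (∀ x y, Ev π x y → Ev π (σ x) (τ y)) →
    (∀ D ∈ subs A B l, dl D ≠ 0) →
    (∀ D ∈ subs A B l, ∃ j : ℕ, π.O.valuation (dl D) = π.O.valuation w ^ j) ∧
    ∀ n : ℕ, π.O.valuation (∏ D ∈ subs A B l, dl D) = π.O.valuation w ^ n →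
      ∃ m : ℕ, Odd m ∧ n % 2 = ((subs A B l).filter fun D =>
        (∃ j, Odd j ∧ π.O.valuation (dl D) = π.O.valuation w ^ j) ∧ SD l (D.image r.red) ∧
          ∀ P ∈ D.image r.red, ((Sc.ofHom τ hA hB r.good).map)^[m] P ∈ D.image r.red).card % 2

/-- two endomorphisms that lift modulo an ideal have a discriminant in this ideal -/
def ModSq : Prop :=
  ∀ (L κ : Type) [Field L] [Field κ] [DecidableEq L] [DecidableEq κ] [IsAlgClosed L]
    [IsAlgClosed κ] [CharZero L] (π : Plc L κ) (A B : L) (A' B' : κ) (r : Rd π A B A' B')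
    (p l l' : ℕ) (t : ℤ), p.Prime → (p : κ) = 0 → l.Prime → l'.Prime → Tm A' B' l → Tm A' B' l' →
    (t : κ) ≠ 0 → A' ≠ 0 → B' ≠ 0 →
    ∀ D ∈ subs A B l, ∀ D' ∈ subs A B l', ∀ u u' : κ,
    VD (D.image r.red) u A' B' → VD (D'.image r.red) u' A' B' → u ^ 2 = -l → u' ^ 2 = -l' →
    (∀ P, vm (D.image r.red) u A' B' (vm (D.image r.red) u A' B' P) = -(l • P)) →
    (∀ P, vm (D'.image r.red) u' A' B' (vm (D'.image r.red) u' A' B' P) = -(l' • P)) →
    (∀ P, vm (D.image r.red) u A' B' (vm (D'.image r.red) u' A' B' P)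
      + vm (D'.image r.red) u' A' B' (vm (D.image r.red) u A' B' P) = t • P) →
    ∀ w : L, π.O.valuation w < 1 → π.O.valuation (dl D) ≤ π.O.valuation w →
      π.O.valuation (dl D') ≤ π.O.valuation w →
      π.O.valuation ((t ^ 2 - 4 * l * l' : ℤ) : L) ≤ π.O.valuation w

end Pool.Agent.MP_c481b3_nt.H28
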