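import Pool.Agent.MP_c481b3_nt.H28.SeedGeo
import Pool.Agent.MP_c481b3_nt.H28.Spec4
import Pool.Agent.MP_c481b3_nt.H28.GlobalPar
import Pool.Agent.MP_c481b3_nt.H28.FrobLift
import Pool.Agent.MP_c481b3_nt.H81.Global

set_option autoImplicit false

namespace Pool.Agent.MP_c481b3_nt.H28

open Pool.Agent.MP_c481b3_nt.H81 Polynomial NumberField

variable {K : Type} [Field K] [NumberField K]

/-- the trace of Frobenius -/
noncomputable def aP (A B : 𝓞 K) (P : Ideal (𝓞 K)) : ℤ :=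
  (Ideal.absNorm P : ℤ) + 1 - Nat.card ((Wc A B).map (Ideal.Quotient.mk P)).toAffine.Point

/-- the residue of an algebraic integer -/
noncomputable def rs (O : ValuationSubring (AlgebraicClosure K)) (r : 𝓞 K) :
    IsLocalRing.ResidueField O := (resPlc O).ev (iK r)

/-- a place of the algebraic closure above a prime of good reduction -/
structure Loc (A B : 𝓞 K) (P : Ideal (𝓞 K)) (O : ValuationSubring (AlgebraicClosure K))
    (q n : ℕ) : Prop where
  max : P.IsMaximal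
  mem : ∀ r : 𝓞 K, iK r ∈ O
  lt : ∀ r : 𝓞 K, O.valuation (iK r) < 1 ↔ r ∈ P
  prime : q.Prime
  n0 : n ≠ 0
  norm : Ideal.absNorm P = q ^ n
  char : CharP (IsLocalRing.ResidueField O) q
  good : Good (rs O A) (rs O B)
  fix : ∀ r, rs O r ^ q ^ n = rs O r
  card : Nat.card {Q : Pt (rs O A) (rs O B) // xc Q ^ q ^ n = xc Q ∧ yc Q ^ q ^ n = yc Q}
    = Nat.card ((Wc A B).map (Ideal.Quotient.mk P)).toAffine.Point

lemma exists_loc {A B : 𝓞 K} {P : Ideal (𝓞 K)} (hP : P.IsMaximal) (hΔ : (Wc A B).Δ ∉ P) :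
    ∃ O q n, Loc A B P O q n := by
  classical
  obtain ⟨O, o1, o2⟩ := exists_val iK iK_inj P hP
  have : Finite (𝓞 K ⧸ P) := P.finiteQuotientOfFreeOfNeBot (Ring.ne_bot_of_isMaximal_of_not_isField
    hP (RingOfIntegers.not_isField K))
  let := Ideal.Quotient.field P
  let := Fintype.ofFinite (𝓞 K ⧸ P)
  set j : 𝓞 K ⧸ P →+* IsLocalRing.ResidueField O := Ideal.Quotient.lift P
    ((resPlc O).ρ.comp (iK.codRestrict O.toSubring o1))
    (fun r hr => ((resPlc O).loc ⟨iK r, o1 r⟩).2 ((o2 r).2 hr)) with hj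
  have ej : ∀ r, j (Ideal.Quotient.mk P r) = rs O r := fun r =>
    ((resPlc O).ev_coe ⟨iK r, o1 r⟩).symm
  have eW : (Wc A B).map (Ideal.Quotient.mk P)
      = Wc (Ideal.Quotient.mk P A) (Ideal.Quotient.mk P B) := by
    ext <;> simp [Wc]
  have g0 : Good (Ideal.Quotient.mk P A) (Ideal.Quotient.mk P B) := good_of_ne (by
    rw [← eW, WeierstrassCurve.map_Δ, Ne, Ideal.Quotient.eq_zero_iff_mem]; exact hΔ)
  have g1 := g0.map j
  rw [ej, ej] at g1
  obtain ⟨p, hp, n, pp, hq⟩ := FiniteField.card' (𝓞 K ⧸ P)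
  have cf := card_fixed j (ej A) (ej B) g1
  rw [hq] at cf
  refine ⟨O, p, n, hP, o1, o2, pp, n.ne_zero, ?_, charP_of_injective_ringHom j.injective p, g1,
    fun r => ?_, by rw [cf, eW]⟩
  · rw [Ideal.absNorm_apply, Submodule.cardQuot_apply, Nat.card_eq_fintype_card, hq]
  · rw [← ej, ← map_pow, ← hq, FiniteField.pow_card]

instance resClosed (O : ValuationSubring (AlgebraicClosure K)) :
    IsAlgClosed (IsLocalRing.ResidueField O) := resid_closed O

namespace Loc
variable {A B : 𝓞 K} {P : Ideal (𝓞 K)} {O : ValuationSubring (AlgebraicClosure K)} {q n : ℕ}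
  (c : Loc A B P O q n)
include c

lemma ev (r : 𝓞 K) : Ev (resPlc O) (iK r) (rs O r) := Ev.of_mem (c.mem r)

lemma rd : Rd (resPlc O) (iK A) (iK B) (rs O A) (rs O B) := rd_of (c.ev A) (c.ev B) c.good

lemma rs_ne {r : 𝓞 K} (h : r ∉ P) : rs O r ≠ 0 := fun e => h ((c.lt r).1 (e ▸ c.ev r).v_lt)

lemma rs_zero {r : 𝓞 K} (h : r ∈ P) : rs O r = 0 := (c.ev r).unique (Ev.of_lt ((c.lt r).2 h))

lemma v_one {r : 𝓞 K} (h : r ∉ P) : O.valuation (iK r) = 1 := (c.ev r).v_one (c.rs_ne h)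

lemma rs_nat (m : ℕ) : rs O (m : 𝓞 K) = m := (c.ev m).unique (by simpa using Ev.nat _ m)

lemma nat_ne {m : ℕ} (h : (m : 𝓞 K) ∉ P) : (m : IsLocalRing.ResidueField O) ≠ 0 :=
  c.rs_nat m ▸ c.rs_ne h

lemma nat_mem {m : ℕ} : (m : 𝓞 K) ∈ P ↔ q ∣ m := by
  have := c.char
  rw [← CharP.cast_eq_zero_iff (IsLocalRing.ResidueField O) q]
  exact ⟨fun h => c.rs_nat m ▸ c.rs_zero h, fun h => by_contra fun h' => c.nat_ne h' h⟩

lemma three (h : 5 ≤ q) : (3 : IsLocalRing.ResidueField O) ≠ 0 := by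
  have := c.nat_ne (m := 3) fun e => by have := Nat.le_of_dvd (by norm_num) (c.nat_mem.1 e); omega
  simpa using this

variable [Fact q.Prime] [CharP (IsLocalRing.ResidueField O) q]

lemma exists_sigma : ∃ σ : AlgebraicClosure K ≃ₐ[K] AlgebraicClosure K, (∀ x, σ x ∈ O ↔ x ∈ O) ∧
    ∀ x y, Ev (resPlc O) x y →
      Ev (resPlc O) (σ x) (iterateFrobenius (IsLocalRing.ResidueField O) q n y) := by
  obtain ⟨σ, h1, h2⟩ := frobLift K P c.max O c.mem c.lt
  refine ⟨σ, h1, fun x y h => ?_⟩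
  have := (Ev.of_lt (π := resPlc O) (h2 x h.mem)).add (h.pow (Ideal.absNorm P))
  rwa [sub_add_cancel, zero_add, c.norm] at this

variable [DecidableEq (IsLocalRing.ResidueField O)]
  [DecidableEq (RatFunc (IsLocalRing.ResidueField O))] [DecidableEq (LL (IsLocalRing.ResidueField O))]

lemma tr (h : 5 ≤ q) : pol NE (frE c.good q n (c.fix A) (c.fix B)) 1 = aP A B P := by
  rw [tr_frE c.good q n _ _ c.n0 (c.three h), c.card, aP, c.norm, Nat.cast_pow]

end Loc

section iter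
variable {k : Type*} [Field k] [DecidableEq k] [IsAlgClosed k] {A B : k}
  [DecidableEq (RatFunc k)] [DecidableEq (LL k)] (hG : Good A B)
  (p n : ℕ) [Fact p.Prime] [CharP k p] (hA : A ^ p ^ n = A) (hB : B ^ p ^ n = B)

omit [DecidableEq k] [IsAlgClosed k] [DecidableEq (RatFunc k)] [DecidableEq (LL k)] [Fact p.Prime]
  [CharP k p] in
lemma fix_mul {x : k} (h : x ^ p ^ n = x) (m : ℕ) : x ^ p ^ (n * m) = x := by
  induction m with
  | zero => simp
  | succ m ih => rw [Nat.mul_succ, pow_add, pow_mul, ih, h]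

lemma frE_pow (m : ℕ) : frE hG p n hA hB ^ m
    = frE hG p (n * m) (fix_mul p n hA m) (fix_mul p n hB m) ∧
    ∀ P, (frP hG p n hA hB)^[m] P = frP hG p (n * m) (fix_mul p n hA m) (fix_mul p n hB m) P := by
  have key : ∀ P, (frP hG p n hA hB)^[m] P
      = frP hG p (n * m) (fix_mul p n hA m) (fix_mul p n hB m) P := by
    intro P
    by_cases hP : P = 0
    · rw [hP, map_zero, Function.iterate_fixed (map_zero _)]
    induction m with
    | zero => exact pt_ext hP (Sc.map_ne _ hP) (by simp [xc_frP]) (by simp [yc_frP])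
    | succ m ih =>
      rw [Function.iterate_succ_apply', ih]
      exact pt_ext (Sc.map_ne _ (Sc.map_ne _ hP)) (Sc.map_ne _ hP)
        (by rw [xc_frP, xc_frP, xc_frP, ← pow_mul, ← pow_add, Nat.mul_succ])
        (by rw [yc_frP, yc_frP, yc_frP, ← pow_mul, ← pow_add, Nat.mul_succ])
  refine ⟨EE_ext fun P => ?_, key⟩
  rw [SubmonoidClass.coe_pow, AddMonoid.End.coe_pow]
  exact key P

omit [DecidableEq k] [IsAlgClosed k] [DecidableEq (RatFunc k)] [DecidableEq (LL k)] in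
lemma pow_ne_self (h2 : (2 : k) ≠ 0) {a : ℤ} (ha : jacobiSym a p = -1) {u : k} (hu : u ^ 2 = a)
    {s : ℕ} (hs : Odd s) : u ^ p ^ s ≠ u := by
  have pp : p.Prime := Fact.out
  have p2 : p ≠ 2 := by
    rintro rfl
    exact h2 (by simpa using CharP.cast_eq_zero k 2)
  have po := pp.odd_of_ne_two p2
  have h1 : u ^ p = -u := by
    have e := congrArg (ZMod.castHom (dvd_refl p) k) (legendreSym.eq_pow p a)
    rw [jacobiSym.legendreSym.to_jacobiSym, ha, map_pow, map_intCast, map_intCast, ← hu,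
      ← pow_mul] at e
    obtain ⟨m, hm⟩ := po
    rw [show 2 * (p / 2) = 2 * m by omega] at e
    rw [hm, pow_succ, ← e]; simp
  have h3 : ∀ s, u ^ p ^ s = (-1) ^ s * u := by
    intro s
    induction s with
    | zero => simp
    | succ s ih =>
      rw [pow_succ, pow_mul, ih, mul_pow, h1, ← pow_mul, mul_comm s, pow_mul, po.neg_one_pow]; ring
  rw [h3, hs.neg_one_pow]
  intro e
  have u0 : u = 0 := mul_left_cancel₀ h2 (by linear_combination -e)
  rw [u0, zero_pow two_ne_zero] at hu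
  rw [jacobiSym.mod_left, Int.emod_eq_zero_of_dvd ((CharP.intCast_eq_zero_iff k p a).1 hu.symm),
    jacobiSym.zero_left pp.one_lt] at ha
  omega

end iter

lemma jacobi_pow {a : ℤ} {q n : ℕ} (h : jacobiSym a (q ^ n) = -1) :
    Odd n ∧ jacobiSym a q = -1 := by
  rw [jacobiSym.pow_right] at h
  rcases jacobiSym.trichotomy a q with e | e | e <;> rw [e] at h
  · rcases n with _ | n <;> simp at h
  · simp at h
  · refine ⟨Nat.not_even_iff_odd.1 fun h' => ?_, e⟩
    rw [h'.neg_one_pow] at h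
    omega

end Pool.Agent.MP_c481b3_nt.H28
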