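import Mathlib

set_option autoImplicit false

namespace Pool.Agent.MP_c481b3_nt.H28

open Polynomial

lemma exists_sqfree (f : ℤ[X]) (hf : f ≠ 0) : ∃ P G : ℤ[X], f = G ^ 2 * P ∧
    ∀ m : ℚ[X], 0 < m.natDegree → ¬m ^ 2 ∣ P.map (algebraMap ℤ ℚ) := by
  induction h : f.natDegree using Nat.strong_induction_on generalizing f with
  | _ n ih =>
    by_cases hm : ∃ m : ℚ[X], 0 < m.natDegree ∧ m ^ 2 ∣ f.map (algebraMap ℤ ℚ)
    · obtain ⟨m, m0, hm⟩ := hm
      obtain ⟨b, hb, e⟩ := IsLocalization.integerNormalization_spec (nonZeroDivisors ℤ) m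
      set m1 := IsLocalization.integerNormalization (nonZeroDivisors ℤ) m with hm1
      have b0 : (b : ℚ) ≠ 0 := by exact_mod_cast nonZeroDivisors.ne_zero hb
      have e1 : m1.map (algebraMap ℤ ℚ) = C (b : ℚ) * m := by
        rw [e, zsmul_eq_mul, C_eq_intCast]
      have d1 : m1.primPart.natDegree = m.natDegree := by
        rw [natDegree_primPart, ← natDegree_map_eq_of_injective (algebraMap ℤ ℚ).injective_int, e1,
          natDegree_C_mul b0]
      have m2 : m1 ≠ 0 := by
        intro h0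
        rw [h0, Polynomial.map_zero] at e1
        rw [(mul_eq_zero.1 e1.symm).resolve_left (C_ne_zero.2 b0)] at m0
        simp at m0
      have d2 : m1.primPart.map (algebraMap ℤ ℚ) ∣ m := by
        have := Polynomial.map_dvd (algebraMap ℤ ℚ) m1.primPart_dvd
        rwa [e1, (isUnit_C.2 b0.isUnit).dvd_mul_left] at this
      obtain ⟨g, hg⟩ : m1.primPart * m1.primPart ∣ f :=
        (m1.isPrimitive_primPart.mul m1.isPrimitive_primPart).dvd_of_fraction_map_dvd_fraction_map
          (K := ℚ) (by rw [Polynomial.map_mul]; exact (mul_dvd_mul d2 d2).trans (sq m ▸ hm))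
      have g0 : g ≠ 0 := by rintro rfl; exact hf (by simpa using hg)
      have p0 := m1.primPart_ne_zero
      obtain ⟨P, G, h1, h2⟩ := ih g.natDegree (by
        rw [← h, hg, natDegree_mul (mul_ne_zero p0 p0) g0, natDegree_mul p0 p0]; omega) g g0 rfl
      exact ⟨P, m1.primPart * G, by rw [hg, h1]; ring, h2⟩
    · exact ⟨f, 1, by simp, fun m h1 h2 => hm ⟨m, h1, h2⟩⟩

lemma square_mod {l : ℕ} (hl : l.Prime) {P G : ℤ[X]} {S : (ZMod l)[X]} (hS : S ≠ 0)
    (h : (G ^ 2 * P).map (Int.castRingHom (ZMod l)) = S ^ 2) :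
    ∃ R Z : ℤ[X], P = R ^ 2 + C (l : ℤ) * Z := by
  have := Fact.mk hl
  rw [Polynomial.map_mul, Polynomial.map_pow] at h
  obtain ⟨T, hT⟩ := (IsIntegrallyClosed.pow_dvd_pow_iff two_ne_zero).1 (Dvd.intro _ h)
  have g0 : G.map (Int.castRingHom (ZMod l)) ≠ 0 := by
    rintro e; exact hS (by rw [hT, e, zero_mul])
  rw [hT, mul_pow, mul_right_inj' (pow_ne_zero 2 g0)] at h
  obtain ⟨R, rfl⟩ := map_surjective (Int.castRingHom (ZMod l)) (ZMod.ringHom_surjective _) T
  obtain ⟨Z, hZ⟩ : C (l : ℤ) ∣ P - R ^ 2 := by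
    rw [C_dvd_iff_dvd_coeff]
    intro i
    rw [← ZMod.intCast_zmod_eq_zero_iff_dvd]
    have := congrArg (coeff · i) h
    simp only [← Polynomial.map_pow, coeff_map] at this
    rw [coeff_sub, Int.cast_sub]
    exact sub_eq_zero.2 this
  exact ⟨R, Z, by rw [← hZ]; ring⟩

lemma exists_root_near {L : Type*} [Field L] [IsAlgClosed L] (O : ValuationSubring L) {t : L}
    (ht : t ∈ O) (f : L[X]) {i : ℕ} (h : O.valuation (f.eval t) < O.valuation (f.coeff i)) :
    ∃ w, f.eval w = 0 ∧ O.valuation (w - t) < 1 := by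
  by_contra hc
  push Not at hc
  have key : ∀ s : Multiset L, (∀ w ∈ s, 1 ≤ O.valuation (w - t)) → ∀ j,
      O.valuation ((s.map fun w => X - C w).prod.coeff j)
        ≤ O.valuation ((s.map fun w => X - C w).prod.eval t) := by
    intro s
    induction s using Multiset.induction_on with
    | empty =>
      intro _ j
      simp only [Multiset.map_zero, Multiset.prod_zero, eval_one, coeff_one]
      split_ifs <;> simp
    | cons a s ih =>
      intro hs j
      have h1 := hs a (Multiset.mem_cons_self a s)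
      have h2 := ih fun w hw => hs w (Multiset.mem_cons_of_mem hw)
      have h3 : O.valuation a ≤ O.valuation (a - t) := by
        rw [← sub_add_cancel a t, add_sub_cancel_right]
        exact O.valuation.map_add_le le_rfl (((O.valuation_le_one_iff t).2 ht).trans h1)
      rw [Multiset.map_cons, Multiset.prod_cons, eval_mul, map_mul, eval_sub, eval_X, eval_C,
        O.valuation.map_sub_swap, sub_mul, coeff_sub, coeff_C_mul]
      refine O.valuation.map_sub_le ?_ (by rw [map_mul]; exact mul_le_mul' h3 (h2 j))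
      rcases j with _ | j
      · simp
      · rw [coeff_X_mul]
        exact (h2 j).trans (le_mul_of_one_le_left' h1)
  have f0 : f ≠ 0 := by rintro rfl; simp at h
  have e := (IsAlgClosed.splits f).eq_prod_roots
  have := key f.roots (fun w hw => hc w ((mem_roots f0).1 hw)) i
  rw [e, eval_mul, eval_C, coeff_C_mul, map_mul, map_mul] at h
  exact absurd h (not_lt.2 (mul_le_mul' le_rfl this))

lemma homog {R L : Type*} [CommRing R] [Field L] (φ : R →+* L) (a b : R) (hb : φ b ≠ 0) (g : ℤ[X])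
    {D : ℕ} (hD : g.natDegree ≤ D) : ∃ e : R, φ e = φ b ^ D * aeval (φ a / φ b) g := by
  refine ⟨∑ i ∈ Finset.range (D + 1), g.coeff i * a ^ i * b ^ (D - i), ?_⟩
  rw [aeval_eq_sum_range' (Nat.lt_succ_of_le hD), map_sum, Finset.mul_sum]
  refine Finset.sum_congr rfl fun i hi => ?_
  obtain ⟨j, rfl⟩ := Nat.exists_eq_add_of_le (Nat.lt_succ_iff.1 (Finset.mem_range.1 hi))
  rw [Nat.add_sub_cancel_left, map_mul, map_mul, map_intCast, map_pow, map_pow, zsmul_eq_mul,
    div_pow, pow_add]
  field_simp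

end Pool.Agent.MP_c481b3_nt.H28
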