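import Pool.Agent.MP_c481b3_nt.H28.Spec3

set_option autoImplicit false

namespace Pool.Agent.MP_c481b3_nt.H28

open Pool.Agent.MP_c481b3_nt.H81 Polynomial

/-! Specialisation of the variable -/

lemma univPlace_trans {L : Type} [Field L] [IsAlgClosed L] [CharZero L] {w : L}
    (hw : Function.Injective (aeval w : ℚ[X] →ₐ[ℚ] L)) :
    ∃ π : Plc (LL ℚ) L, ∀ g : ℚ[X], Ev π (aL (ap g)) (aeval w g) := by
  let j : RatFunc ℚ →+* L := IsFractionRing.lift (g := (aeval w : ℚ[X] →ₐ[ℚ] L).toRingHom) hw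
  have hj : ∀ g : ℚ[X], j (ap g) = aeval w g := fun g => IsFractionRing.lift_algebraMap hw g
  let : Algebra (RatFunc ℚ) L := j.toAlgebra
  let τ : LL ℚ →ₐ[RatFunc ℚ] L := IsAlgClosed.lift
  refine ⟨trivP τ.toRingHom, fun g => (ev_triv τ.toRingHom _).congr rfl ?_⟩
  exact (τ.commutes (ap g)).trans (hj g)

lemma univPlace_alg {L : Type} [Field L] [IsAlgClosed L] [CharZero L] {w : L}
    (hw : IsIntegral ℚ w) :
    ∃ π : Plc (LL ℚ) L, ∀ g : ℚ[X], Ev π (aL (ap g)) (aeval w g) := by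
  classical
  set ψ : ℚ[X] →+* LL ℚ := aL.comp ap with hψ
  have hinj : Function.Injective ψ := (aL (k := ℚ)).injective.comp ap_inj
  have hirr := minpoly.irreducible hw
  set P : Ideal ℚ[X] := Ideal.span {minpoly ℚ w} with hP
  have hmax : P.IsMaximal := PrincipalIdealRing.isMaximal_of_irreducible hirr
  obtain ⟨O, h1, h2⟩ := exists_val ψ hinj _ hmax
  set ψ' : ℚ[X] →+* O := ψ.codRestrict O.toSubring h1 with hψ'
  let := Ideal.Quotient.field P
  let j : ℚ[X] ⧸ P →+* IsLocalRing.ResidueField O := Ideal.Quotient.lift P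
    ((IsLocalRing.residue O).comp ψ') fun r hr => by
      rw [RingHom.comp_apply, IsLocalRing.residue_eq_zero_iff, O.valuation_lt_one_iff]
      exact (h2 r).2 hr
  let i : ℚ[X] ⧸ P →+* L := Ideal.Quotient.lift P (aeval w : ℚ[X] →ₐ[ℚ] L).toRingHom
    fun r hr => by
      obtain ⟨c, rfl⟩ := Ideal.mem_span_singleton.1 hr
      change aeval w (minpoly ℚ w * c) = 0
      rw [map_mul, minpoly.aeval, zero_mul]
  let : Algebra (ℚ[X] ⧸ P) (IsLocalRing.ResidueField O) := j.toAlgebra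
  let : Algebra (ℚ[X] ⧸ P) L := i.toAlgebra
  have : Algebra.IsAlgebraic (ℚ[X] ⧸ P) (IsLocalRing.ResidueField O) := ⟨fun b => by
    obtain ⟨a, rfl⟩ := IsLocalRing.residue_surjective b
    have halg : IsAlgebraic (RatFunc ℚ) (a : LL ℚ) := Algebra.IsAlgebraic.isAlgebraic _
    rw [← IsFractionRing.isAlgebraic_iff ℚ[X] (RatFunc ℚ) (LL ℚ)] at halg
    obtain ⟨p, hp, hpa⟩ := halg
    have hqa : p.primPart.eval₂ ψ a = 0 := eval₂_primPart_eq_zero hinj hp hpa
    refine ⟨p.primPart.map (Ideal.Quotient.mk P), fun h0 => ?_, ?_⟩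
    · refine hirr.not_isUnit (p.isPrimitive_primPart _ ((C_dvd_iff_dvd_coeff _ _).2 fun n => ?_))
      have := congrArg (fun t => coeff t n) h0
      simp only [coeff_map, coeff_zero] at this
      exact Ideal.mem_span_singleton.1 (Ideal.Quotient.eq_zero_iff_mem.1 this)
    · have e1 : p.primPart.eval₂ ψ' a = 0 := by
        apply Subtype.val_injective
        exact (hom_eval₂ p.primPart ψ' O.subtype a).trans hqa
      have e2 := hom_eval₂ p.primPart ψ' (IsLocalRing.residue O) a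
      rw [e1, map_zero] at e2
      rw [aeval_def, eval₂_map]
      exact e2.symm⟩
  let τ : IsLocalRing.ResidueField O →ₐ[ℚ[X] ⧸ P] L := IsAlgClosed.lift
  let π : Plc (LL ℚ) L := ⟨O, τ.toRingHom.comp (IsLocalRing.residue O), fun a => by
    rw [← O.valuation_lt_one_iff, ← IsLocalRing.residue_eq_zero_iff, RingHom.comp_apply,
      map_eq_zero]⟩
  refine ⟨π, fun g => ⟨h1 g, (π.ev_coe (ψ' g)).trans ?_⟩⟩
  exact τ.commutes (Ideal.Quotient.mk P g)

theorem univPlace : UnivPlace := by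
  intro L _ _ _ w
  by_cases hw : IsAlgebraic ℚ w
  · exact univPlace_alg hw.isIntegral
  · exact univPlace_trans (transcendental_iff_injective.1 hw)

theorem univDisc : UnivDisc := by
  intro L _ _ w hw π hπ
  have hirr := minpoly.irreducible hw
  have h1 : ∀ (n : ℕ) (c : ℚ[X]), ¬minpoly ℚ w ∣ c →
      π.O.valuation (aL (ap (minpoly ℚ w ^ n * c)))
        = π.O.valuation (aL (ap (minpoly ℚ w))) ^ n := by
    intro n c hc
    rw [map_mul, map_mul, map_mul, (hπ c).v_one fun h => hc (minpoly.dvd ℚ w h), mul_one, map_pow,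
      map_pow, map_pow]
  have h0 : π.O.valuation (aL (ap (minpoly ℚ w))) ≠ 0 :=
    (Valuation.ne_zero_iff _).2 ((_root_.map_ne_zero _).2 (ap_ne hirr.ne_zero))
  refine ⟨?_, ?_⟩
  · rintro _ ⟨r, rfl⟩ hr
    have hr0 : r ≠ 0 := fun h => hr (by rw [h, map_zero])
    obtain ⟨a, c, hc, e⟩ := WfDvdMonoid.max_power_factor (RatFunc.num_ne_zero hr0) hirr
    obtain ⟨b, d, hd, e'⟩ := WfDvdMonoid.max_power_factor r.denom_ne_zero hirr
    refine ⟨(a : ℤ) - b, ?_⟩
    conv_lhs => rw [← r.num_div_denom]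
    rw [map_div₀, map_div₀, e, e', h1 a c hc, h1 b d hd, zpow_sub₀ h0, zpow_natCast, zpow_natCast]
  · rintro _ n ⟨c, rfl⟩ hc
    exact h1 n c fun h => hc (by rw [pow_succ]; exact mul_dvd_mul_left _ h)

/-! Transport of torsion along a homomorphism -/

section transport
variable {L κ : Type*} [Field L] [Field κ] [DecidableEq L] [DecidableEq κ] [IsAlgClosed L]
  [IsAlgClosed κ] {A B : L} {A' B' : κ} {n : ℕ} (f : Pt A B →+ Pt A' B') (t : Tm A B n)
  (t' : Tm A' B' n) (hf : ∀ P, P ≠ 0 → n • P = 0 → f P ≠ 0)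
include t hf

omit [IsAlgClosed κ] in
lemma tr_inj : Set.InjOn f (tors A B n) :=
  injOn_of_ne f t.sub fun P hP =>
    hf P (Finset.mem_erase.1 hP).1 (t.mem.1 (Finset.mem_erase.1 hP).2)

include t'

lemma tr_tors : (tors A B n).image f = tors A' B' n := by
  refine Finset.eq_of_subset_of_card_le (fun Q hQ => ?_) ?_
  · obtain ⟨P, hP, rfl⟩ := Finset.mem_image.1 hQ
    rw [t'.mem, ← map_nsmul, t.mem.1 hP, map_zero]
  · rw [Finset.card_image_of_injOn (tr_inj f t hf), t.card, t'.card]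

lemma tr_prod_x {M : Type*} [CommMonoid M] (φ : L → κ)
    (hφ : ∀ P, P ≠ 0 → n • P = 0 → xc (f P) = φ (xc P)) (g : κ → M) :
    ∏ x ∈ ((tors A' B' n).erase 0).image xc, g x
      = ∏ x ∈ ((tors A B n).erase 0).image xc, g (φ x) := by
  have hm : ∀ P ∈ (tors A B n).erase 0, P ≠ 0 ∧ n • P = 0 := fun P hP =>
    ⟨(Finset.mem_erase.1 hP).1, t.mem.1 (Finset.mem_erase.1 hP).2⟩
  have e : ((tors A' B' n).erase 0).image xc = (((tors A B n).erase 0).image xc).image φ := by
    rw [← tr_tors f t t' hf, image_erase f fun P hP => hf P (hm P hP).1 (hm P hP).2,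
      Finset.image_image, Finset.image_image]
    exact Finset.image_congr fun P hP => hφ P (hm P hP).1 (hm P hP).2
  rw [e, Finset.prod_image]
  intro x hx y hy h
  obtain ⟨P, hP, rfl⟩ := Finset.mem_image.1 hx
  obtain ⟨Q, hQ, rfl⟩ := Finset.mem_image.1 hy
  rw [← hφ P (hm P hP).1 (hm P hP).2, ← hφ Q (hm Q hQ).1 (hm Q hQ).2] at h
  have mP := (Finset.mem_erase.1 hP).2
  have mQ := (Finset.mem_erase.1 hQ).2
  rcases eq_or_neg (hf P (hm P hP).1 (hm P hP).2) (hf Q (hm Q hQ).1 (hm Q hQ).2) h with h | h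
  · rw [tr_inj f t hf mP mQ h]
  · rw [← map_neg] at h
    rw [tr_inj f t hf mP (t.sub.neg mQ) h, xc_neg]

lemma tr_prod_subs {M : Type*} [CommMonoid M] (g : Finset (Pt A' B') → M) :
    ∏ D ∈ subs A' B' n, g D = ∏ C ∈ subs A B n, g (C.image f) := by
  have inj := tr_inj f t hf
  have cd : ∀ C : Finset (Pt A B), C ⊆ tors A B n → (C.image f).card = C.card := fun C hC =>
    Finset.card_image_of_injOn (inj.mono (Finset.coe_subset.2 hC))
  refine (Finset.prod_nbij (Finset.image f) (fun C hC => ?_) ?_ ?_ fun _ _ => rfl).symm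
  · obtain ⟨c1, c2⟩ := t.mem_subs.1 hC
    exact t'.mem_subs.2 ⟨isSub_image _ c1, by rw [cd C (t.subset c1 c2), c2]⟩
  · have key : ∀ C ∈ subs A B n, ∀ D ∈ subs A B n, C.image f = D.image f → C ⊆ D := by
      intro C hC D hD e P hP
      obtain ⟨c1, c2⟩ := t.mem_subs.1 hC
      obtain ⟨d1, d2⟩ := t.mem_subs.1 hD
      obtain ⟨Q, hQ, e'⟩ := Finset.mem_image.1 (e ▸ Finset.mem_image_of_mem f hP)
      rwa [← inj (t.subset d1 d2 hQ) (t.subset c1 c2 hP) e']
    exact fun C hC D hD e => Finset.Subset.antisymm (key C hC D hD e) (key D hD C hC e.symm)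
  · intro C' h
    obtain ⟨c1, c2⟩ := t'.mem_subs.1 h
    set C := (tors A B n).filter fun P => f P ∈ C' with hC
    have h1 : IsSub C := ⟨Finset.mem_filter.2 ⟨t.sub.zero, by simpa using c1.zero⟩,
      fun P hP Q hQ => Finset.mem_filter.2
        ⟨t.sub.sub P (Finset.mem_filter.1 hP).1 Q (Finset.mem_filter.1 hQ).1, by
          rw [map_sub]; exact c1.sub _ (Finset.mem_filter.1 hP).2 _ (Finset.mem_filter.1 hQ).2⟩⟩
    have h2 : C.image f = C' := by
      ext Q
      rw [Finset.mem_image]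
      constructor
      · rintro ⟨P, hP, rfl⟩
        exact (Finset.mem_filter.1 hP).2
      · intro hQ
        have := t'.subset c1 c2 hQ
        rw [← tr_tors f t t' hf] at this
        obtain ⟨P, h3, rfl⟩ := Finset.mem_image.1 this
        exact ⟨P, Finset.mem_filter.2 ⟨h3, hQ⟩, rfl⟩
    exact ⟨C, t.mem_subs.2 ⟨h1, by rw [← c2, ← h2, cd C (Finset.filter_subset _ _)]⟩, h2⟩

end transport

section scale
variable {L κ : Type*} [Field L] [Field κ] [DecidableEq L] [DecidableEq κ] {A B : L} {A' B' : κ}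
  (s : Sc A B A' B')

lemma sc_sum {C : Finset (Pt A B)} (g : Pt A' B' → κ) :
    ∑ P ∈ (C.image s.map).erase 0, g P = ∑ P ∈ C.erase 0, g (s.map P) := by
  rw [image_erase s.map fun P hP => s.map_ne (Finset.mem_erase.1 hP).1,
    Finset.sum_image s.injective.injOn]

lemma sc_vA (C : Finset (Pt A B)) : vA (C.image s.map) = s.σ (vA C) / s.u ^ 4 := by
  have hu := s.hu
  have e : ∀ P : Pt A B, ca (s.map P) = s.σ (ca P) / s.u ^ 4 := by
    intro P
    simp only [ca, s.xc_map, map_add, map_mul, map_pow, map_ofNat, s.hA]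
    field_simp
  rw [vA, vA, sc_sum, Finset.sum_congr rfl fun P _ => e P, ← Finset.sum_div, ← map_sum]
  simp only [map_sub, map_mul, map_ofNat, s.hA]
  field_simp

lemma sc_vB (C : Finset (Pt A B)) : vB (C.image s.map) = s.σ (vB C) / s.u ^ 6 := by
  have hu := s.hu
  have e : ∀ P : Pt A B, ca (s.map P) * xc (s.map P) + cb (s.map P)
      = s.σ (ca P * xc P + cb P) / s.u ^ 6 := by
    intro P
    simp only [ca, cb, s.xc_map, map_add, map_mul, map_pow, map_ofNat, s.hA, s.hB]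
    field_simp
  rw [vB, vB, sc_sum s fun P => ca P * xc P + cb P, Finset.sum_congr rfl fun P _ => e P,
    ← Finset.sum_div, ← map_sum]
  simp only [map_sub, map_mul, map_ofNat, s.hB]
  field_simp

lemma sc_dl (C : Finset (Pt A B)) : dl (C.image s.map) = s.σ (dl C) / s.u ^ 24 := by
  have hu := s.hu
  rw [dl, dl, sc_vA, sc_vB]
  simp only [map_sub, map_mul, map_pow, s.hA, s.hB]
  field_simp

end scale

/-! Coefficientwise values -/

section coef
variable {L κ : Type*} [Field L] [Field κ] {π : Plc L κ}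

lemma ev_coeff_prod {ι : Type*} (s : Finset ι) {a : ι → L} {b : ι → κ}
    (h : ∀ i ∈ s, Ev π (a i) (b i)) (m : ℕ) :
    Ev π ((∏ i ∈ s, (X - C (a i))).coeff m) ((∏ i ∈ s, (X - C (b i))).coeff m) := by
  classical
  induction s using Finset.induction_on generalizing m with
  | empty =>
    simp only [Finset.prod_empty, coeff_one]
    split_ifs
    exacts [Ev.one π, Ev.zero π]
  | insert i s hi ih =>
    have h1 := h i (Finset.mem_insert_self _ _)
    have h2 := ih fun j hj => h j (Finset.mem_insert_of_mem hj)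
    rw [Finset.prod_insert hi, Finset.prod_insert hi, sub_mul, sub_mul, coeff_sub, coeff_sub,
      coeff_C_mul, coeff_C_mul]
    refine Ev.sub ?_ (h1.mul (h2 m))
    rcases m with _ | m
    · rw [coeff_X_mul_zero, coeff_X_mul_zero]
      exact Ev.zero π
    · rw [coeff_X_mul, coeff_X_mul]
      exact h2 m

/-- the polynomial of the first coordinates -/
noncomputable def xp [DecidableEq L] (A B : L) (n : ℕ) : L[X] :=
  ∏ x ∈ ((tors A B n).erase 0).image xc, (X - C (n * x))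

variable [DecidableEq L] [DecidableEq κ] [IsAlgClosed L] [IsAlgClosed κ] {A B : L} {A' B' : κ}
  {n : ℕ}

lemma ev_xp (r : Rd π A B A' B') (t : Tm A' B' n) (m : ℕ) :
    Ev π ((xp A B n).coeff m) ((xp A' B' n).coeff m) := by
  have hf : ∀ P, P ≠ 0 → n • P = 0 → r.red P ≠ 0 := fun P h0 hP => red_tors_ne r t.ne h0 hP
  rw [xp, xp, tr_prod_x r.red (t.up r) t hf π.ev (fun P h0 hP => (ev_xc r (hf P h0 hP)).ev.symm)
    fun x => X - C ((n : κ) * x)]
  refine ev_coeff_prod _ (fun x hx => ?_) m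
  obtain ⟨P, hP, rfl⟩ := Finset.mem_image.1 hx
  rw [Finset.mem_erase, (t.up r).mem] at hP
  exact (Ev.nat π n).mul (Ev.of_mem (ev_xc r (hf P hP.1 hP.2)).mem)

omit [IsAlgClosed κ] [DecidableEq κ] in
lemma xp_mem (t : Tm A B n) (O : ValuationSubring L) (hA : A ∈ O) (hB : B ∈ O) (m : ℕ) :
    (xp A B n).coeff m ∈ O := by
  refine (ev_coeff_prod (π := resPlc O) _ (b := fun x => (resPlc O).ev (n * x))
    (fun x hx => Ev.of_mem ?_) m).mem
  obtain ⟨P, hP, rfl⟩ := Finset.mem_image.1 hx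
  rw [Finset.mem_erase, t.mem] at hP
  exact (O.valuation_le_one_iff _).1 (torsion_int O.valuation ((O.valuation_le_one_iff _).2 hA)
    ((O.valuation_le_one_iff _).2 hB) hP.2)

end coef

/-! The generic curve -/

/-- the variable -/
noncomputable abbrev TT : LL ℚ := aL (ap X)

/-- integral polynomials in the variable -/
noncomputable def zL : ℤ[X] →+* LL ℚ := (aL.comp ap).comp (mapRingHom (algebraMap ℤ ℚ))

lemma exists_zpoly {z : LL ℚ} (fix : ∀ σ : Gal(LL ℚ/RatFunc ℚ), σ z = z)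
    (int : ∀ O : ValuationSubring (LL ℚ), TT ∈ O → z ∈ O) : ∃ g, zL g = z := by
  obtain ⟨r, rfl⟩ := (InfiniteGalois.mem_range_algebraMap_iff_fixed z).2 fix
  have h1 : aL r ∈ (integralClosure (Subring.closure {TT}) (LL ℚ)).toSubring := by
    rw [← iInf_valuationSubring_superset, Subring.mem_iInf]
    rintro ⟨O, hO⟩
    exact int O (hO (by simp))
  obtain ⟨p, hp, hpr⟩ := h1
  have hle : Subring.closure {TT} ≤ zL.range := by
    rw [Subring.closure_le]
    rintro _ rfl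
    exact ⟨X, by simp [zL]⟩
  obtain ⟨q, hq, -, hm⟩ := lifts_and_natDegree_eq_and_monic (f := zL)
    (p := p.map (algebraMap _ (LL ℚ))) ((lifts_iff_coeff_lifts _).2 fun m => by
      rw [coeff_map]; exact hle (p.coeff m).2) (hp.map _)
  have e1 : q.eval₂ zL (aL r) = 0 := by rw [← eval_map, hq, eval_map, hpr]
  have e2 : q.eval₂ (ap.comp (mapRingHom (algebraMap ℤ ℚ))) r = 0 := by
    refine (aL (k := ℚ)).injective ?_
    rw [hom_eval₂, map_zero]
    exact e1
  obtain ⟨g, rfl⟩ := (IsIntegrallyClosed.isIntegral_iff (R := ℚ[X]) (K := RatFunc ℚ) (x := r)).1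
    ⟨q.map (mapRingHom (algebraMap ℤ ℚ)), hm.map _, by rw [eval₂_map]; exact e2⟩
  let : Algebra ℤ[X] ℚ[X] := Polynomial.algebra ℤ ℚ
  have e3 : IsIntegral ℤ[X] g := ⟨q, hm, ap_inj (by rw [hom_eval₂, map_zero]; exact e2)⟩
  obtain ⟨g0, rfl⟩ := (mem_lifts (f := algebraMap ℤ ℚ) g).1 ((lifts_iff_coeff_lifts _).2 fun m =>
    (IsIntegrallyClosed.isIntegral_iff (R := ℤ) (K := ℚ)).1 (e3.coeff m))
  exact ⟨g0, rfl⟩

lemma good_TT : Good TT TT := by
  refine ⟨two_ne_zero, ?_⟩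
  have : (4 * TT ^ 3 + 27 * TT ^ 2 : LL ℚ) = aL (ap (4 * X ^ 3 + 27 * X ^ 2)) := by
    simp only [map_add, map_mul, map_pow, map_ofNat]
  rw [this]
  refine (_root_.map_ne_zero _).2 (ap_ne fun h => ?_)
  have := congrArg (eval 1) h
  norm_num at this

lemma tm_char {L : Type*} [Field L] [CharZero L] {A B : L} (h : Good A B) {n : ℕ} (hn : n ≠ 0) :
    Tm A B n := ⟨h, three_ne_zero, Nat.cast_ne_zero.2 hn⟩

lemma rd_gal (σ : Gal(LL ℚ/RatFunc ℚ)) : Rd (trivP σ.toRingEquiv.toRingHom) TT TT TT TT :=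
  rd_triv _ (σ.commutes _) (σ.commutes _) good_TT

lemma ev_zL {L : Type} [Field L] [CharZero L] {w : L} {π : Plc (LL ℚ) L}
    (h : ∀ g : ℚ[X], Ev π (aL (ap g)) (aeval w g)) (g : ℤ[X]) : Ev π (zL g) (aeval w g) :=
  (h (g.map (algebraMap ℤ ℚ))).congr rfl (aeval_map_algebraMap ℚ w g)

lemma exists_sc {L : Type} [Field L] [IsAlgClosed L] {A B : L} (h : Good A B) (hA : A ≠ 0)
    (hB : B ≠ 0) : ∃ s : Sc A B (A ^ 3 / B ^ 2) (A ^ 3 / B ^ 2),
      s.σ = RingHom.id L ∧ s.u ^ 2 = B / A := by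
  obtain ⟨u, hu⟩ := IsAlgClosed.exists_pow_nat_eq (B / A) two_pos
  have u0 : u ≠ 0 := by
    rintro rfl
    exact div_ne_zero hB hA (by rw [← hu]; simp)
  refine ⟨⟨RingHom.id L, u, u0, ?_, ?_, h.two, ?_⟩, rfl, hu⟩
  · rw [show u ^ 4 = (u ^ 2) ^ 2 by ring, hu, RingHom.id_apply]
    field_simp
  · rw [show u ^ 6 = (u ^ 2) ^ 3 by ring, hu, RingHom.id_apply]
    field_simp
  · have : 4 * (A ^ 3 / B ^ 2) ^ 3 + 27 * (A ^ 3 / B ^ 2) ^ 2
        = (A ^ 3 / B ^ 2) ^ 2 * ((4 * A ^ 3 + 27 * B ^ 2) / B ^ 2) := by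
      field_simp
    rw [this]
    exact mul_ne_zero (pow_ne_zero _ (div_ne_zero (pow_ne_zero _ hA) (pow_ne_zero _ hB)))
      (div_ne_zero h.disc (pow_ne_zero _ hB))

theorem univ : Univ := by
  classical
  intro n hn
  have tT : Tm TT TT n := tm_char good_TT hn
  constructor
  · obtain ⟨G, hG⟩ := (mem_lifts (f := zL) (xp TT TT n)).1 ((lifts_iff_coeff_lifts _).2 fun m =>
      exists_zpoly (fun σ => (ev_triv σ.toRingEquiv.toRingHom _).unique (ev_xp (rd_gal σ) tT m))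
        fun O hO => xp_mem tT O hO hO m)
    refine ⟨G, fun L _ _ _ _ A B h hA hB => ?_⟩
    obtain ⟨s, s1, s2⟩ := exists_sc h hA hB
    obtain ⟨π, hπ⟩ := univPlace L (A ^ 3 / B ^ 2)
    have a : Ev π TT (A ^ 3 / B ^ 2) := (hπ X).congr rfl (aeval_X _)
    have t' := tm_char s.good hn
    have e : G.map (eval₂RingHom (Int.castRingHom L) (A ^ 3 / B ^ 2))
        = xp (A ^ 3 / B ^ 2) (A ^ 3 / B ^ 2) n := by
      ext m
      have h1 := ev_xp (rd_of a a s.good) t' m
      rw [← hG, coeff_map] at h1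
      rw [coeff_map]
      exact (ev_zL hπ (G.coeff m)).unique h1
    rw [e, xp, tr_prod_x s.map (tm_char h hn) t' (fun P h0 _ => s.map_ne h0)
      (fun x => x * (A / B)) (fun P _ _ => by
        rw [s.xc_map, s1, s2, RingHom.id_apply, div_div_eq_mul_div, mul_div_assoc])
      fun x => X - C ((n : L) * x)]
    exact Finset.prod_congr rfl fun x _ => by rw [mul_assoc]
  · obtain ⟨Ψ, hΨ⟩ := exists_zpoly (z := ∏ C ∈ subs TT TT n, (n : LL ℚ) ^ 6 * dl C)
      (fun σ => (ev_triv σ.toRingEquiv.toRingHom _).unique (ev_prod_dl (rd_gal σ) tT))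
      fun O hO => prod_mem fun C hC => by
        obtain ⟨c1, c2⟩ := tT.mem_subs.1 hC
        rw [← c2]
        exact dl_mem O hO hO c1
    refine ⟨Ψ, fun L _ _ _ _ A B h hA hB => ?_⟩
    obtain ⟨s, s1, s2⟩ := exists_sc h hA hB
    obtain ⟨π, hπ⟩ := univPlace L (A ^ 3 / B ^ 2)
    have a : Ev π TT (A ^ 3 / B ^ 2) := (hπ X).congr rfl (aeval_X _)
    have t' := tm_char s.good hn
    have h1 := ev_prod_dl (rd_of a a s.good) t'
    rw [← hΨ] at h1
    rw [(ev_zL hπ Ψ).unique h1, tr_prod_subs s.map (tm_char h hn) t' (fun P h0 _ => s.map_ne h0)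
      fun C => (n : L) ^ 6 * dl C]
    refine Finset.prod_congr rfl fun C _ => ?_
    rw [sc_dl, s1, RingHom.id_apply, show s.u ^ 24 = (s.u ^ 2) ^ 12 by ring, s2, mul_assoc,
      div_eq_mul_inv (dl C), ← inv_pow, inv_div]

end Pool.Agent.MP_c481b3_nt.H28
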