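import Pool.Agent.MP_c481b3_nt.H28.LocB
import Pool.Agent.MP_c481b3_nt.H28.PolyAux
import Pool.Agent.MP_c481b3_nt.H28.Univ

set_option autoImplicit false

namespace Pool.Agent.MP_c481b3_nt.H28

open Pool.Agent.MP_c481b3_nt.H81 Polynomial NumberField

/-- evaluation of integral polynomials -/
noncomputable def az {L : Type*} [Field L] (x : L) : ℤ[X] →+* L :=
  eval₂RingHom (Int.castRingHom L) x

section az
variable {L κ : Type} [Field L] [Field κ]

lemma az_eq (x : L) (g : ℤ[X]) : az x g = aeval x g := rfl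

lemma az_hom (φ : ℤ[X] →+* L) : az (φ X) = φ :=
  Polynomial.ringHom_ext' (RingHom.ext_int _ _) (by simp [az])

lemma az_map (x : L) (g : ℤ[X]) : eval x (g.map (Int.castRingHom L)) = az x g := by
  rw [eval_map]; rfl

lemma ev_az {π : Plc L κ} (g : ℤ[X]) {a : L} {b : κ} (h : Ev π a b) : Ev π (az a g) (az b g) :=
  ev_eval₂ g h

lemma IsUnivPsi.az [DecidableEq L] [IsAlgClosed L] [CharZero L] {n : ℕ} {Ψ : ℤ[X]}
    (h : IsUnivPsi n Ψ) {A B : L} (hG : Good A B) (a0 : A ≠ 0) (b0 : B ≠ 0) :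
    az (A ^ 3 / B ^ 2) Ψ = ∏ D ∈ subs A B n, ((n : L) ^ 6 * dl D * (A / B) ^ 12) :=
  h L A B hG a0 b0

lemma az_res (l : ℕ) [CharP κ l] (g : ℤ[X]) (y : κ) :
    az y g = eval₂ (ZMod.castHom (dvd_refl l) κ) y (g.map (Int.castRingHom (ZMod l))) := by
  rw [eval₂_map, RingHom.ext_int (RingHom.comp _ _) (Int.castRingHom κ)]
  rfl

lemma homog_az {R : Type} [CommRing R] (φ : R →+* L) (a b : R) (hb : φ b ≠ 0) (g : ℤ[X])
    {D : ℕ} (hD : g.natDegree ≤ D) : ∃ e : R, φ e = φ b ^ D * az (φ a / φ b) g :=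
  homog φ a b hb g hD

end az

/-- a root of the odd part is the invariant of a curve with an endomorphism of square `-l` -/
theorem root_sd (hP : Parity) {L : Type} [Field L] [DecidableEq L] [IsAlgClosed L] [CharZero L]
    {l : ℕ} (hl : l.Prime) (h2 : l ≠ 2) {Ψ F G : ℤ[X]} (hΨ : IsUnivPsi l Ψ) {c : ℤ} (c0 : c ≠ 0)
    (e : Ψ = C c * (G ^ 2 * F)) (G0 : G ≠ 0) (F0 : F ≠ 0)
    (sq : ∀ m : ℚ[X], 0 < m.natDegree → ¬m ^ 2 ∣ F.map (algebraMap ℤ ℚ)) {w : L} (hw : Good w w)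
    (hr : az w F = 0) : ∃ D ∈ subs w w l, SD l D := by
  classical
  have inj := (algebraMap ℤ ℚ).injective_int
  have w0 : w ≠ 0 := fun h => hw.disc (by simp [h])
  have r1 : aeval w (F.map (algebraMap ℤ ℚ)) = 0 := by rwa [aeval_map_algebraMap]
  have wi : IsIntegral ℚ w := IsAlgebraic.isIntegral ⟨_, (Polynomial.map_ne_zero_iff inj).2 F0, r1⟩
  obtain ⟨π, hπ⟩ := univPlace L w
  obtain ⟨d1, d2⟩ := univDisc L w wi π hπ
  have tw : Ev π TT w := (hπ X).congr rfl (aeval_X _)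
  have r : Rd π TT TT w w := rd_of tw tw hw
  have T0 : TT ≠ 0 := tw.ne_zero w0
  have m0 : aL (ap (minpoly ℚ w)) ≠ 0 := (_root_.map_ne_zero _).2 (ap_ne (minpoly.ne_zero wi))
  have m1 : π.O.valuation (aL (ap (minpoly ℚ w))) < 1 :=
    Ev.v_lt ((hπ _).congr rfl (minpoly.aeval ℚ w))
  have zl : ∀ g : ℤ[X], az TT g = aL (ap (g.map (algebraMap ℤ ℚ))) := fun g => by
    rw [show TT = zL X by simp [zL], az_hom]
    rfl
  have e1 := hΨ.az good_TT T0 T0
  rw [show TT ^ 3 / TT ^ 2 = TT by field_simp, div_self T0, e, map_mul, map_mul, map_pow,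
    eq_intCast, map_intCast, zl, zl] at e1
  simp only [one_pow, mul_one, Finset.prod_mul_distrib, Finset.prod_const] at e1
  obtain ⟨i, i1, i2⟩ : ∃ i, minpoly ℚ w ^ i ∣ G.map (algebraMap ℤ ℚ) ∧
      ¬minpoly ℚ w ^ (i + 1) ∣ G.map (algebraMap ℤ ℚ) := by
    have := FiniteMultiplicity.of_not_isUnit (minpoly.irreducible wi).not_isUnit
      ((Polynomial.map_ne_zero_iff inj).2 G0)
    exact ⟨_, pow_multiplicity_dvd _ _, this.not_pow_dvd_of_multiplicity_lt (Nat.lt_succ_self _)⟩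
  have v1 := d2 _ i i1 i2
  have v2 := d2 _ 1 (by rw [pow_one]; exact minpoly.dvd ℚ w r1) (sq _ (minpoly.natDegree_pos wi))
  have e2 := congrArg π.O.valuation e1
  have l0 : (l : L) ≠ 0 := Nat.cast_ne_zero.2 hl.ne_zero
  rw [map_mul, map_mul, map_mul, map_pow, map_pow, map_pow, v1, v2, (Ev.nat π l).v_one l0,
    (Ev.int π c).v_one (Int.cast_ne_zero.2 c0), one_pow, one_pow, one_mul, one_mul,
    ← pow_mul, ← pow_add] at e2
  have t : Tm w w l := ⟨hw, three_ne_zero, l0⟩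
  obtain ⟨m, -, hm⟩ := (hP _ _ π TT TT w w r l hl h2 t w0 w0 (aL (k := ℚ)).fieldRange _ ⟨_, rfl⟩
    ⟨_, rfl⟩ ⟨_, rfl⟩ m0 m1 d1 (RingHom.id _) (RingHom.id _) rfl rfl rfl rfl rfl (fun _ => Iff.rfl)
    (fun _ _ h => h) (fun D hD h => by
      rw [Finset.prod_eq_zero hD h, map_zero] at e2
      exact pow_ne_zero _ ((Valuation.ne_zero_iff _).2 m0) e2)).2 _ e2.symm
  obtain ⟨D, hD⟩ := Finset.card_pos.1 (Nat.pos_of_ne_zero fun e => by rw [e] at hm; omega)
  obtain ⟨a, -, b, -⟩ := Finset.mem_filter.1 hD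
  exact ⟨_, red_subs r t a, b⟩

variable {K : Type} [Field K] [NumberField K] [DecidableEq (AlgebraicClosure K)]

namespace Loc
variable {A B : 𝓞 K} {P : Ideal (𝓞 K)} {O : ValuationSubring (AlgebraicClosure K)} {l n : ℕ}
  (c : Loc A B P O l n)
include c

omit [DecidableEq (AlgebraicClosure K)] in
lemma ev_t (hB : B ∉ P) :
    Ev (resPlc O) (iK A ^ 3 / iK B ^ 2) (rs O A ^ 3 / rs O B ^ 2) :=
  ((c.ev A).pow 3).div ((c.ev B).pow 2) (pow_ne_zero 2 (c.rs_ne hB))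

omit [DecidableEq (AlgebraicClosure K)] in
lemma rat_of_root (hA : A ∉ P) (hB : B ∉ P) {F G : ℤ[X]}
    (e : (G ^ 2 * F).map (Int.castRingHom (ZMod l)) = (X ^ (2 * l + 2) * (X ^ l - X)) ^ 2)
    (h : O.valuation (az (iK A ^ 3 / iK B ^ 2) F) < 1) :
    (A ^ 3) ^ l * B ^ 2 - A ^ 3 * (B ^ 2) ^ l ∈ P := by
  have := Fact.mk c.prime
  have := c.char
  have a0 := c.rs_ne hA
  have b0 := c.rs_ne hB
  have h1 := (ev_az F (c.ev_t hB)).unique (Ev.of_lt h)
  have h2 := az_res l (G ^ 2 * F) (rs O A ^ 3 / rs O B ^ 2)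
  rw [map_mul, h1, mul_zero, e] at h2
  simp only [eval₂_pow, eval₂_mul, eval₂_sub, eval₂_X] at h2
  have h3 := (mul_eq_zero.1 (pow_eq_zero_iff two_ne_zero |>.1 h2.symm)).resolve_left
    (pow_ne_zero _ (div_ne_zero (pow_ne_zero 3 a0) (pow_ne_zero 2 b0)))
  refine (c.lt _).1 (Ev.v_lt (π := resPlc O) ?_)
  have h4 := ((((c.ev A).pow 3).pow l).mul ((c.ev B).pow 2)).sub
    (((c.ev A).pow 3).mul (((c.ev B).pow 2).pow l))
  rw [div_pow, div_sub_div _ _ (pow_ne_zero _ (pow_ne_zero 2 b0)) (pow_ne_zero 2 b0),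
    div_eq_zero_iff, or_iff_left (mul_ne_zero (pow_ne_zero _ (pow_ne_zero 2 b0)) (pow_ne_zero 2 b0)),
    mul_comm ((rs O B ^ 2) ^ l)] at h3
  rw [h3] at h4
  simpa using h4

/-- a prime of degree one above `l` that divides the odd part has trace zero -/
theorem at_l (hP : Parity) (hS : SSl) (h5 : 5 ≤ l) (hn : n = 1) (hA : A ∉ P) (hB : B ∉ P)
    {Ψ F G : ℤ[X]} (hΨ : IsUnivPsi l Ψ) {a : ℤ} (a0 : a ≠ 0) (e : Ψ = C a * (G ^ 2 * F))
    (G0 : G ≠ 0) (F0 : F.map (Int.castRingHom (ZMod l)) ≠ 0)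
    (sq : ∀ m : ℚ[X], 0 < m.natDegree → ¬m ^ 2 ∣ F.map (algebraMap ℤ ℚ))
    (h : O.valuation (az (iK A ^ 3 / iK B ^ 2) F) < 1) : aP A B P = 0 := by
  classical
  subst hn
  have := Fact.mk c.prime
  have := c.char
  have t := c.ev_t hB
  obtain ⟨i, hi⟩ : ∃ i, ((F.coeff i : ℤ) : ZMod l) ≠ 0 := by
    by_contra hc
    push Not at hc
    exact F0 (Polynomial.ext fun i => by simpa using hc i)
  obtain ⟨w, w1, w2⟩ := exists_root_near O t.mem (F.map (Int.castRingHom _)) (i := i) (by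
    rw [az_map, coeff_map, eq_intCast]
    refine h.trans_eq ((Ev.int (resPlc O) _).v_one ?_).symm
    rwa [Ne, CharP.intCast_eq_zero_iff _ l, ← ZMod.intCast_zmod_eq_zero_iff_dvd])
  rw [az_map] at w1
  have tw : Ev (resPlc O) w (rs O A ^ 3 / rs O B ^ 2) := by
    simpa using (Ev.of_lt (π := resPlc O) w2).add t
  obtain ⟨s, -, -⟩ := exists_sc c.good (c.rs_ne hA) (c.rs_ne hB)
  have r := rd_of tw tw s.good
  obtain ⟨D, hD, u, d, hu, -⟩ := root_sd hP c.prime (by omega) hΨ a0 e G0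
    (fun e => F0 (by rw [e, Polynomial.map_zero])) sq (rd_good r) w1
  have tm : Tm w w l := ⟨d.good, three_ne_zero, Nat.cast_ne_zero.2 c.prime.ne_zero⟩
  have ss := hS _ _ (resPlc O) w w _ _ r IsLocalRing.residue_surjective l c.prime h5
    (CharP.cast_eq_zero _ l) D u d (tm.mem_subs.1 hD).2 hu
  have h3 := c.three h5
  have cr := compRing h3 c.good
  set π := frE c.good l 1 (c.fix A) (c.fix B) with hπ
  have tr : pol NE π 1 = aP A B P := c.tr h5
  have nπ : NE π = l := by rw [hπ, NE_frE, pow_one]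
  have dv : (l : ℤ) ∣ aP A B P := by
    by_contra hc
    obtain ⟨E, d', e1, -⟩ := exists_vd h3 (π - ((aP A B P : ℤ) : EE c.good)) (by
      rw [map_sub, cE_frE _ _ _ _ _ one_ne_zero, map_intCast, zero_sub, neg_ne_zero, Ne,
        CharP.intCast_eq_zero_iff _ l]
      exact hc)
    rw [cr.sub, nπ, ← mul_one (aP A B P : EE c.good), cr.pol_int', tr, mul_one, cr.int] at e1
    have e2 : E.card = l := by
      have : (E.card : ℤ) = l := by rw [e1]; ring
      exact_mod_cast this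
    obtain ⟨Q, hQ⟩ : (E.erase 0).Nonempty := Finset.card_pos.1 (by
      rw [Finset.card_erase_of_mem d'.sub.zero, e2]; omega)
    obtain ⟨q0, q1⟩ := Finset.mem_erase.1 hQ
    exact s.map_ne q0 (ss _ (by rw [← map_nsmul, ← e2, d'.sub.nsmul_card q1, map_zero]))
  have cs := cr.cauchy π 1
  rw [tr, nπ, cr.one] at cs
  obtain ⟨z, hz⟩ := dv
  have l5 : (5 : ℤ) ≤ l := by exact_mod_cast h5
  rw [hz] at cs ⊢
  by_contra h0
  have : 1 ≤ z ^ 2 := by
    have := sq_pos_of_ne_zero (right_ne_zero_of_mul h0)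
    omega
  nlinarith [mul_le_mul_of_nonneg_left this (sq_nonneg (l : ℤ))]

end Loc

end Pool.Agent.MP_c481b3_nt.H28
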