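import Pool.Agent.MP_c481b3_nt.H28.WalkC

set_option autoImplicit false

namespace Pool.Agent.MP_c481b3_nt.H28

open Pool.Agent.MP_c481b3_nt.H81 Polynomial IsLocalRing

section tw
variable {L κ : Type} [Field L] [Field κ]

/-- a place composed with an automorphism -/
def twP (π : Plc L κ) (θ : L ≃+* L) : Plc L κ where
  O := π.O.comap (θ : L →+* L)
  ρ := π.ρ.comp ((θ : L →+* L).restrict (π.O.comap (θ : L →+* L)) π.O fun _ h => h)
  loc a := by
    rw [RingHom.comp_apply, π.loc, ← ValuationSubring.mem_nonunits_iff,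
      ← ValuationSubring.mem_nonunits_iff, ValuationSubring.mem_nonunits_iff_or,
      ValuationSubring.mem_nonunits_iff_or, ValuationSubring.mem_comap]
    simp [RingHom.restrict]

lemma ev_tw {π : Plc L κ} {θ : L ≃+* L} {a : L} {b : κ} : Ev (twP π θ) a b ↔ Ev π (θ a) b := by
  refine ⟨fun h => ⟨h.mem, ?_⟩, fun h => ⟨h.mem, ?_⟩⟩
  · rw [← h.ev, Plc.ev, Plc.ev, dif_pos h.mem, dif_pos (show θ a ∈ π.O from h.mem)]; rfl
  · rw [← h.ev, Plc.ev, Plc.ev, dif_pos h.mem, dif_pos (show a ∈ (twP π θ).O from h.mem)]; rfl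

/-- every residue is attained -/
def Sj (π : Plc L κ) : Prop := ∀ b, ∃ a, Ev π a b

lemma Sj.tw {π : Plc L κ} (h : Sj π) (θ : L ≃+* L) : Sj (twP π θ) := fun b =>
  (h b).elim fun a e => ⟨θ.symm a, ev_tw.2 (by simpa using e)⟩

lemma sj_res (O : ValuationSubring L) : Sj (resPlc O) := fun b => by
  obtain ⟨a, rfl⟩ := residue_surjective b
  exact ⟨a, a.2, (resPlc O).ev_coe a⟩

variable {π : Plc L κ} {A B : L} {A' B' : κ}

lemma rd_of_one (h2 : (2 : κ) ≠ 0) (h3 : (3 : κ) ≠ 0) {a b c : L} (R : Rt A B a b c)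
    (hG : Good A B) (h1 : a - b = 1) (hj : jj A B ∈ π.O) : ∃ A' B', Rd π A B A' B' := by
  have l3 := (Ev.ofNat π 3).ne_zero h3
  have h8 : (256 : κ) ≠ 0 := by convert pow_ne_zero 8 h2 using 1; norm_num
  obtain ⟨n1, n2, n3⟩ := R.ne hG
  have e := jj_rt R hG
  obtain ⟨w, rfl⟩ : ∃ w, c = a - w := ⟨a - c, by ring⟩
  obtain rfl : b = a - 1 := by linear_combination -h1
  have w0 : w ≠ 0 := fun e => n2 (by simp [e])
  have w1 : w - 1 ≠ 0 := fun e => n3 (by linear_combination e)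
  have j := Ev.of_mem hj
  rw [eq_div_iff (pow_ne_zero _ (mul_ne_zero (mul_ne_zero (sub_ne_zero.2 n1)
    (sub_ne_zero.2 n2)) (sub_ne_zero.2 n3)))] at e
  generalize jj A B = t at e j
  have e' : t * (w * (w - 1)) ^ 2 = 256 * ((w - 1) ^ 2 + w) ^ 3 := by linear_combination e
  have o := Ev.one π
  have hw : w ∈ π.O := by
    by_contra hw
    have i := Ev.inv_of_not hw
    have := ((Ev.ofNat _ 256).mul ((((o.sub i).pow 2).add i).pow 3)).unique
      ((j.mul ((i.mul (o.sub i)).pow 2)).congr (by field_simp; linear_combination e') rfl)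
    exact h8 (by simpa using this)
  have i := Ev.of_mem hw
  have e2 := (j.mul ((i.mul (i.sub o)).pow 2)).unique
    (e' ▸ (Ev.ofNat _ 256).mul ((((i.sub o).pow 2).add i).pow 3))
  generalize π.ev w = w' at i e2
  have a' : Ev π a ((1 + w') / 3) := ((o.add i).div (Ev.ofNat _ 3) h3).congr
    (by rw [div_eq_iff l3]; linear_combination -R.s1) rfl
  have s : Rt _ _ ((1 + w') / 3) ((1 + w') / 3 - 1) ((1 + w') / 3 - w') :=
    ⟨by field_simp; ring, rfl, rfl⟩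
  have b' := a'.sub o
  have c' := a'.sub i
  refine ⟨_, _, rd_of ((((a'.mul b').add (a'.mul c')).add (b'.mul c')).congr R.s2.symm rfl)
    (((a'.mul b').mul c').neg.congr R.s3.symm rfl) ⟨h2, ?_⟩⟩
  rw [s.disc, show ((1 + w') / 3 - ((1 + w') / 3 - 1)) * ((1 + w') / 3 - ((1 + w') / 3 - w'))
    * ((1 + w') / 3 - 1 - ((1 + w') / 3 - w')) = w' * (w' - 1) by ring]
  refine neg_ne_zero.2 (pow_ne_zero _ fun z => h8 ?_)
  rw [z, show (w' - 1) ^ 2 + w' = 1 by linear_combination z] at e2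
  simpa using e2.symm

variable [DecidableEq L] [DecidableEq κ] [IsAlgClosed L]

lemma red_surj (hs : Sj π) (r : Rd π A B A' B') : Function.Surjective r.red := fun Q => by
  by_cases hQ : Q = 0
  · exact ⟨0, by rw [hQ, map_zero]⟩
  obtain ⟨x, hx⟩ := hs (xc Q)
  obtain ⟨P, P0, hP⟩ := exists_pt (rd_good r) x
  have m : xc P ∈ π.O := hP ▸ hx.mem
  rcases eq_or_neg (r.red_ne P0 m) hQ (by rw [r.xc_red P0 m, hP, hx.ev]) with e | e
  · exact ⟨P, e⟩
  · exact ⟨-P, by rw [map_neg, e, neg_neg]⟩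

variable [CharZero L] [IsAlgClosed κ] [DecidableEq (RatFunc κ)] [DecidableEq (LL κ)]

lemma cm_red (hs : Sj π) (r : Rd π A B A' B') (h3 : (3 : κ) ≠ 0) {C : Finset (Pt A B)} {s : L}
    (d : VD C s A B) (e : s ^ 2 = -C.card) (n0 : (C.card : κ) ≠ 0) :
    ∃ χ : EE r.good, χ * χ = -(C.card : EE r.good) ∧ Ev π s (cE r.good χ) ∧ cE r.good χ ≠ 0 ∧
      ∀ P, χ.1 (r.red P) = r.red (vm C s A B P) := by
  classical
  obtain ⟨χ, a, -, b⟩ := vd_sq d e
  have m := (Ev.nat π C.card).neg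
  have hu := Ev.of_mem (π := π) (mem_of_sq (e ▸ m.mem))
  have u0 : π.ev s ≠ 0 := fun z => n0 (by
    simpa [z] using ((hu.pow 2).unique (m.congr e.symm rfl)).symm)
  have hf := red_sub_ne r d.sub n0
  obtain ⟨ψ, p1, p2, -⟩ := (d.red r r hu u0 hf).exists_end (hG := r.good) h3
  have k : ∀ P, ψ.1 (r.red P) = r.red (vm C s A B P) := fun P => by
    rw [p1]; exact (d.red_vm r r hu u0 hf P).symm
  refine ⟨ψ, EE_ext fun Q => ?_, p2 ▸ hu, p2 ▸ u0, k⟩
  obtain ⟨P, rfl⟩ := red_surj hs r Q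
  have := congrArg (fun φ : EE d.good => r.red (φ.1 P)) b
  simp only [EE_mul, EE_neg, EE_nat, a, map_neg, map_nsmul] at this
  rw [EE_mul, EE_neg, EE_nat, k, k, ← this]
  rfl

end tw

section conj
variable {k : Type} [Field k] [DecidableEq k] [IsAlgClosed k] {A B A₁ B₁ w : k} (h3 : (3 : k) ≠ 0)
  (e : VD ({0} : Finset (Pt A B)) w A₁ B₁)

lemma VD.conj {C : Finset (Pt A B)} {u : k} (d : VD C u A B) :
    VD (C.image (e.hom h3)) u A₁ B₁ ∧ (C.image (e.hom h3)).card = C.card ∧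
      ∀ X, vm (C.image (e.hom h3)) u A₁ B₁ (e.hom h3 X) = e.hom h3 (vm C u A B X) := by
  have a : A = w ^ 4 * A₁ := by simpa [vA] using e.hA
  have b : B = w ^ 6 * B₁ := by simpa [vB] using e.hB
  have d' : VD C (w * u) A₁ B₁ := ⟨d.good, d.sub, mul_ne_zero e.hu d.hu,
    by rw [d.hA]; linear_combination u ^ 4 * a, by rw [d.hB]; linear_combination u ^ 6 * b, e.good'⟩
  have hs : ({0} : Finset (Pt A B)) ⊆ C := by simpa using d.sub.zero
  have q := e.quot h3 d.sub hs d'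
  rw [mul_div_cancel_left₀ _ e.hu] at q
  refine ⟨q, by simpa using (e.card_image h3 d.sub hs).symm, fun X => ?_⟩
  refine (e.comp_vm h3 d.sub hs q X).trans ?_
  by_cases hX : X ∈ C
  · rw [d'.eq_zero.2 hX, d.eq_zero.2 hX, map_zero]
  obtain ⟨a1, a2, a3⟩ := d'.spec hX
  obtain ⟨b1, b2, b3⟩ := d.spec hX
  obtain ⟨c1, c2, c3⟩ := vd_unit_spec e b1
  have := e.hu
  have := d.hu
  exact pt_ext a1 c1 (by rw [a2, VD.hom_apply, c2, b2]; field_simp)
    (by rw [a3, VD.hom_apply, c3, b3]; field_simp)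

variable [DecidableEq (RatFunc k)] [DecidableEq (LL k)]

lemma EE_conj {hG : Good A B} (hG₁ : Good A₁ B₁) {χ : EE hG} {n : ℕ} (sq : χ * χ = -(n : EE hG))
    (c0 : cE hG χ ≠ 0) : ∃ ψ : EE hG₁, ψ * ψ = -(n : EE hG₁) ∧ cE hG₁ ψ = cE hG χ ∧
      ∀ X, ψ.1 (e.hom h3 X) = e.hom h3 (χ.1 X) := by
  obtain ⟨C, d, -, f⟩ := exists_vd h3 χ c0
  obtain ⟨d', -, g⟩ := VD.conj h3 e d
  obtain ⟨ψ, p1, p2, -⟩ := d'.exists_end (hG := hG₁) h3
  have k : ∀ X, ψ.1 (e.hom h3 X) = e.hom h3 (χ.1 X) := fun X => by rw [p1, f]; exact g X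
  refine ⟨ψ, EE_ext fun Q => ?_, p2, k⟩
  obtain ⟨P, rfl⟩ := e.surj h3 Q
  rw [EE_mul, k, k, ← EE_mul, sq, EE_neg, EE_neg, EE_nat, EE_nat, map_neg, map_nsmul]

end conj

/-- the trace of Frobenius -/
noncomputable def aZ (A B : ℤ) (p : ℕ) : ℤ :=
  (p : ℤ) + 1 - Nat.card ((Wc A B).map (Int.castRingHom (ZMod p))).toAffine.Point

section fin
variable {k : Type} [Field k] [DecidableEq k] [IsAlgClosed k] [DecidableEq (RatFunc k)]
  [DecidableEq (LL k)] (p : ℕ) [Fact p.Prime] [CharP k p] (h3 : (3 : k) ≠ 0)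

omit [DecidableEq k] [IsAlgClosed k] [DecidableEq (RatFunc k)] [DecidableEq (LL k)] in
lemma int_fix (A : ℤ) : (A : k) ^ p ^ 1 = A := by
  rw [pow_one, ← frobenius_def, map_intCast]

omit [DecidableEq k] [IsAlgClosed k] [DecidableEq (RatFunc k)] [DecidableEq (LL k)]
  [Fact p.Prime] in
lemma good_int {A B : ℤ} (h : ¬(p : ℤ) ∣ (Wc A B).Δ) : Good (A : k) (B : k) := good_of_ne fun e =>
  h ((CharP.intCast_eq_zero_iff k p _).1 (by simpa [Wc_disc] using e))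

include h3

lemma loc_int {A B : ℤ} (hG : Good (A : k) (B : k)) :
    pol NE (frE hG p 1 (int_fix p A) (int_fix p B)) 1 = aZ A B p := by
  classical
  have eW : (Wc A B).map (Int.castRingHom (ZMod p)) = Wc (A : ZMod p) (B : ZMod p) := by
    ext <;> simp [Wc]
  have cf := card_fixed (ZMod.castHom (dvd_refl p) k) (map_intCast _ A) (map_intCast _ B) hG
  rw [ZMod.card] at cf
  rw [tr_frE hG p 1 _ _ one_ne_zero h3, aZ, eW, ← cf]
  simp only [pow_one]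

variable (H : ∀ x : k, ∃ n, n ≠ 0 ∧ x ^ p ^ n = x) {A B : k} (hG : Good A B) {D : ℕ}
include H

lemma pm_of_sq {χ ψ : EE hG} (a : χ * χ = -(D : EE hG)) (b : ψ * ψ = -(D : EE hG))
    (c : cE hG χ ≠ 0) (c' : cE hG ψ ≠ 0) (d0 : (D : k) ≠ 0) (sq : IsSquare (-(D : ZMod p))) :
    ψ = χ ∨ ψ = -χ := by
  obtain ⟨Q, q0, q1⟩ := tors_of_cm p hG h3 a d0 sq
  have e := ord_comm p hG h3 H q0 q1 χ ψ c c'
  by_contra h
  push Not at h
  refine (compRing h3 hG).mul_ne (sub_ne_zero.2 h.1) (add_eq_zero_iff_eq_neg.not.2 h.2) ?_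
  rw [sub_mul, mul_add, mul_add, a, b, e]
  abel

lemma frob_sq {n : ℕ} (h : CMb hG (D * n ^ 2)) (d0 : (D : k) ≠ 0) (n0 : (n : k) ≠ 0)
    (sq : IsSquare (-(D : ZMod p))) (hA : A ^ p ^ 1 = A) (hB : B ^ p ^ 1 = B) :
    IsSquare ((pol NE (frE hG p 1 hA hB) 1 ^ 2 - 4 * p) * -(D : ℤ)) := by
  obtain ⟨χ, a, c⟩ := h
  have cr := compRing h3 hG
  have D0 : D ≠ 0 := by rintro rfl; simp at d0
  have N0 : n ≠ 0 := by rintro rfl; simp at n0
  have lp : (0 : ℤ) < ((D * n ^ 2 : ℕ) : ℤ) := by positivity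
  obtain ⟨Q, q0, q1⟩ := tors_of_cm p hG h3 a
    (by rw [Nat.cast_mul, Nat.cast_pow]; exact mul_ne_zero d0 (pow_ne_zero 2 n0))
    (by rw [Nat.cast_mul, ← neg_mul, Nat.cast_pow]; exact sq.mul (IsSquare.sq _))
  obtain ⟨s, -, s2⟩ := cr.comm_rel (cr.tr_of_sq lp (by simpa using a))
    (ord_frob p hG h3 H q0 q1 χ c one_ne_zero hA hB)
  rw [cr.norm_of_sq lp.le (by simpa using a), NE_frE] at s2
  generalize pol NE (frE hG p 1 hA hB) 1 = t at s2 ⊢
  have e : s ^ 2 = (2 * n) ^ 2 * ((t ^ 2 - 4 * p) * -(D : ℤ)) :=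
    mul_right_cancel₀ lp.ne' (by rw [s2]; push_cast; ring)
  obtain ⟨c, rfl⟩ := (Int.pow_dvd_pow_iff two_ne_zero).1 ⟨_, e⟩
  exact ⟨c, mul_left_cancel₀ (a := (2 * n : ℤ) ^ 2) (by positivity) (by rw [← e]; ring)⟩

omit H in
lemma tors_of_tr (hA : A ^ p ^ 1 = A) (hB : B ^ p ^ 1 = B)
    (h : ¬(p : ℤ) ∣ pol NE (frE hG p 1 hA hB) 1) : ∃ Q : Pt A B, Q ≠ 0 ∧ p • Q = 0 := by
  have cr := compRing h3 hG
  generalize ha : pol NE (frE hG p 1 hA hB) 1 = a at h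
  exact exists_tors h3 hG (frE hG p 1 hA hB - (a : ℤ)) (by
    rwa [map_sub, cE_frE _ _ _ _ _ one_ne_zero, map_intCast, zero_sub, neg_ne_zero, Ne,
      CharP.intCast_eq_zero_iff _ p]) (p := p) Fact.out (by
    rw [cr.sub, NE_frE, ← mul_one (a : EE hG), cr.pol_int', ha, mul_one,
      cr.int, ← sq, sub_add_cancel, pow_one])

end fin

end Pool.Agent.MP_c481b3_nt.H28
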