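import Pool.Agent.MP_c481b3_nt.H28.KD
import Pool.Agent.MP_c481b3_nt.H28.VolC

set_option autoImplicit false

namespace Pool.Agent.MP_c481b3_nt.H28

open Pool.Agent.MP_c481b3_nt.H81 Polynomial IsLocalRing NumberField

lemma tr_zero {k : Type} [Field k] [DecidableEq k] [IsAlgClosed k] [DecidableEq (RatFunc k)]
    [DecidableEq (LL k)] (p : ℕ) [Fact p.Prime] [CharP k p] (h5 : 5 ≤ p) {A B : k} (hG : Good A B)
    (hA : A ^ p ^ 1 = A) (hB : B ^ p ^ 1 = B) {a : ℤ} (ha : pol NE (frE hG p 1 hA hB) 1 = a) :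
    a ^ 2 ≤ 4 * p ∧ ((p : ℤ) ∣ a → a = 0) := by
  have cr := compRing (small_ne k h5).2 hG
  have h1 : a ^ 2 ≤ 4 * p := by simpa [ha, NE_frE, cr.one] using cr.cauchy (frE hG p 1 hA hB) 1
  refine ⟨h1, ?_⟩
  rintro ⟨c, rfl⟩
  by_contra h0
  have : c ≠ 0 := fun e => h0 (by rw [e, mul_zero])
  have f1 : 1 ≤ c ^ 2 := sq_pos_of_ne_zero this
  have f2 : (5 : ℤ) ≤ p := by exact_mod_cast h5
  nlinarith [mul_le_mul_of_nonneg_left f1 (sq_nonneg (p : ℤ))]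

lemma chi_odd {k : Type} [Field k] [DecidableEq k] [IsAlgClosed k] [DecidableEq (RatFunc k)]
    [DecidableEq (LL k)] (p : ℕ) [Fact p.Prime] [CharP k p] (h5 : 5 ≤ p) {A B : k} (hG : Good A B)
    (hA : A ^ p ^ 1 = A) (hB : B ^ p ^ 1 = B) {a : ℤ} (ha : pol NE (frE hG p 1 hA hB) 1 = a)
    (h0 : a ≠ 0) : ∃ (D : ℕ) (χ : EE hG), 4 * p - a ^ 2 = D ∧ ¬p ∣ D ∧ IsSquare (-(D : ZMod p)) ∧
      χ * χ = -(D : EE hG) ∧ cE hG χ ≠ 0 ∧ ∀ (P : Pt A B) (c : ℤ), (frE hG p 1 hA hB).1 P = c • P →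
        χ.1 P = (2 * c - a) • P := by
  obtain ⟨t1, t2⟩ := tr_zero p h5 hG hA hB ha
  have cr := compRing (small_ne _ h5).2 hG
  have c1 := cr.char ((2 : ℤ) * frE hG p 1 hA hB - pol NE (frE hG p 1 hA hB) 1)
  rw [cr.pure_tr, cr.pure_norm, NE_frE, ha] at c1
  obtain ⟨D, hD⟩ := Int.eq_ofNat_of_zero_le (a := 4 * p - a ^ 2) (by omega)
  have pa : ¬(p : ℤ) ∣ a := fun z => h0 (t2 z)
  refine ⟨D, (2 : ℤ) * frE hG p 1 hA hB - a, hD, fun z => pa ?_, ⟨a, ?_⟩,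
    by rw [c1, pow_one, hD]; simp, ?_, fun P c e => ?_⟩
  · refine (Nat.prime_iff_prime_int.1 Fact.out).dvd_of_dvd_pow (n := 2) ?_
    rw [show a ^ 2 = 4 * p - D by omega]
    exact (dvd_mul_left _ _).sub (Int.natCast_dvd_natCast.2 z)
  · have := congrArg (Int.cast : ℤ → ZMod p) hD
    push_cast at this
    rw [← this, ZMod.natCast_self]
    ring
  · rw [map_sub, map_mul, cE_frE _ _ _ _ _ one_ne_zero, mul_zero, zero_sub, map_intCast, neg_ne_zero]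
    exact fun z => pa ((CharP.intCast_eq_zero_iff _ p a).1 z)
  · rw [EE_sub, EE_mul, EE_int, EE_int, e]
    module

lemma sq_of_fix {k : Type} [Field k] (q : ℕ) [Fact q.Prime] [CharP k q] {x : k} (h : x ^ q = x)
    {n : ℤ} (e : x ^ 2 = n) : IsSquare (n : ZMod q) := by
  obtain ⟨j, rfl⟩ := (mem_bot_iff_intCast q _).1 ((Subfield.mem_bot_iff_pow_eq_self _ q).2 h)
  refine ⟨j, ?_⟩
  rw [← Int.cast_mul, ZMod.intCast_eq_intCast_iff_dvd_sub, ← CharP.intCast_eq_zero_iff k]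
  push_cast
  linear_combination e

lemma recip_three {N q : ℕ} (hq : q.Prime) (h2 : q ≠ 2) (h4 : N % 4 = 3) (hc : q.Coprime N) {c : ℤ}
    (h : (N : ℤ) ∣ c ^ 2 + q) : ¬IsSquare ((-N : ℤ) : ZMod q) := by
  have := Fact.mk hq
  have oN : Odd N := Nat.odd_iff.2 (by omega)
  have oq := hq.odd_of_ne_two h2
  have e1 : jacobiSym q N = -1 := by
    obtain ⟨u, hu⟩ := h
    have g : IsCoprime (c ^ 2) (N : ℤ) := by
      rw [show c ^ 2 = -q + N * u by linear_combination hu]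
      exact (Nat.isCoprime_iff_coprime.2 hc).neg_left.add_mul_left_left u
    rw [jacobiSym.mod_left' (a₂ := -1 * c ^ 2) (Int.modEq_iff_dvd.2 ⟨-u, by linear_combination -hu⟩),
      jacobiSym.mul_left, jacobiSym.at_neg_one oN, ZMod.χ₄_nat_three_mod_four h4,
      jacobiSym.sq_one' (Int.isCoprime_iff_gcd_eq_one.1 ((IsCoprime.pow_left_iff two_pos).1 g)),
      mul_one]
  refine ZMod.nonsquare_of_jacobiSym_eq_neg_one ?_
  rw [jacobiSym.neg _ oq]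
  rcases Nat.odd_mod_four_iff.1 (Nat.odd_iff.1 oq) with e | e
  · rw [ZMod.χ₄_nat_one_mod_four e, ← jacobiSym.quadratic_reciprocity_one_mod_four e oN, e1, one_mul]
  · rw [ZMod.χ₄_nat_three_mod_four e, jacobiSym.quadratic_reciprocity_three_mod_four h4 e, e1]
    norm_num

lemma fq_ev {L : Type} [Field L] {O : ValuationSubring L} {q : ℕ} {u : L} {u' : ResidueField O}
    (h : Fq O q u) (e : Ev (resPlc O) u u') : u' ^ q = u' :=
  sub_eq_zero.1 (((e.pow q).sub e).unique (Ev.of_lt h.2))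

lemma orG_two {k : Type} [Field k] [DecidableEq k] [IsAlgClosed k] [DecidableEq (RatFunc k)]
    [DecidableEq (LL k)] {A B : k} {hG : Good A B} {χ : EE hG} {P Q : Pt A B} {c : ℕ} :
    OrG 2 1 c χ P Q ↔ OrE χ P (c • Q) := by simp [OrG, OrE]

lemma red_two {L κ : Type} [Field L] [Field κ] [DecidableEq L] [DecidableEq κ] {π : Plc L κ}
    {A B e₁ e₂ e₃ : L} {A' B' : κ} (r : Rd π A B A' B') (h : Rt A B e₁ e₂ e₃) :
    r.red (pt A B e₁ 0) = pt A' B' (π.ev e₁) 0 := by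
  obtain ⟨a1, a2, -⟩ := h.two (rd_good r)
  obtain ⟨b1, b2, -⟩ := (KrA.rt_red r h).two r.good
  refine red_eq r a1 b1 (by rw [a2, b2]; exact KrA.ev_root r h) ?_
  rw [yc_pt (rd_good r) h.root, yc_pt r.good (KrA.rt_red r h).root]
  exact Ev.zero π

lemma pk_two {k : Type} [Field k] [DecidableEq k] {A B e₁ e₂ e₃ : k} (hG : Good A B)
    (h : Rt A B e₁ e₂ e₃) : Ed.Pk 2 ⟨A, B, pt A B e₁ 0, pt A B e₂ 0, ∅⟩ := by
  obtain ⟨a1, a2, a3⟩ := h.two hG
  obtain ⟨b1, b2, b3⟩ := h.rot.two hG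
  exact ⟨hG, a3, b3, a1, fun _ => ⟨b1, fun e => (h.ne hG).1 (by
    rw [← a2, show pt A B e₁ 0 = pt A B e₂ 0 from e, b2])⟩, fun e => absurd rfl e⟩

variable {K : Type} [Field K] [NumberField K] {A B : 𝓞 K} {p : ℕ} [Fact p.Prime]

omit [NumberField K] in
lemma ev_map {L κ : Type} [Field L] [Field κ] {π : Plc L κ} {σ : 𝓞 K →+* L} {φ : 𝓞 K →+* κ}
    (e : ∀ r, Ev π (σ r) (φ r)) {x : L} {x' : κ} (h : Ev π x x') (g : (𝓞 K)[X]) :
    Ev π ((g.map σ).eval x) ((g.map φ).eval x') := by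
  rw [eval_map, eval_map, eval₂_eq_sum_range, eval₂_eq_sum_range]
  exact Ev.sum _ fun i _ => (e _).mul (h.pow i)

/-- the union of the conjugates of `K` -/
def cj (K : Type) [Field K] : Set (AlgebraicClosure K) :=
  ⋃ σ : K →+* AlgebraicClosure K, Set.range σ

open Classical in
lemma setup (h5 : 5 ≤ p) {P₀ : Ideal (𝓞 K)} (h₀ : Ideal.absNorm P₀ = p) (hΔ : (Wc A B).Δ ∉ P₀) :
    ∃ (O : ValuationSubring (AlgebraicClosure K)) (_ : CharP (ResidueField O) p)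
      (φ : 𝓞 K →+* ResidueField O), (∀ r, Ev (resPlc O) (iK r) (φ r)) ∧ RingHom.ker φ = P₀ ∧
      (∀ r, φ r ^ p = φ r) ∧ ∃ (r : Rd (resPlc O) (iK A) (iK B) (φ A) (φ B))
        (hA : φ A ^ p ^ 1 = φ A) (hB : φ B ^ p ^ 1 = φ B),
        pol NE (frE r.good p 1 hA hB) 1 = aP A B P₀ := by
  have pp : p.Prime := Fact.out
  obtain ⟨p1, p2, p3⟩ := deg_one pp h₀
  obtain ⟨O, -, h⟩ := exists_val iK iK_inj P₀ p1
  have := res_charP pp (O := O) (by simpa using (h p).2 p2)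
  obtain ⟨φ, e, -, -⟩ := exists_phi' (O := O) pp (algebraMap K _)
  have k : ∀ r, φ r = 0 ↔ r ∈ P₀ := fun r =>
    ⟨fun z => (h r).1 ((e r).congr rfl z).v_lt, fun z => (e r).unique (Ev.of_lt ((h r).2 z))⟩
  obtain ⟨n, hG, hA, hB, -, nm, tr⟩ := loc_hom p (small_ne _ h5).2 φ p1 k hΔ
  obtain rfl : n = 1 := Nat.pow_right_injective pp.two_le (by simpa [h₀] using nm.symm)
  refine ⟨O, this, φ, e, Ideal.ext k, fun r => ?_, rd_of (e A) (e B) hG, hA, hB, tr⟩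
  obtain ⟨n, hn⟩ := p3 r
  rw [← k, map_sub, map_natCast, sub_eq_zero] at hn
  rw [hn, ← frobenius_def, map_natCast]

open Classical in
lemma level_two (hS : SeedLoc) {d : ℤ} (h : ∀ x ∈ Subfield.closure (cj K ∪
    {y | y ^ 2 = -1 ∨ ∃ σ : K →+* AlgebraicClosure K, y ^ 2 = σ (Wc A B).Δ}), x ^ 2 ≠ d) :
    ∃ U : Finset (AlgebraicClosure K),
      (∀ x ∈ Subfield.closure (U : Set (AlgebraicClosure K)), x ^ 2 ≠ d) ∧
      ∀ (q : ℕ) (O : ValuationSubring (AlgebraicClosure K)) [Fact q.Prime]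
        [CharP (ResidueField O) q] (σ : K →+* AlgebraicClosure K) (φ : 𝓞 K →+* ResidueField O),
        (∀ r : 𝓞 K, Ev (resPlc O) (σ r) (φ r)) → Good (φ A) (φ B) → 5 ≤ q →
        (∀ u ∈ U, Fq O q u) → ∃ Q : Pt (φ A) (φ B), Q ≠ 0 ∧ q • Q = 0 := by
  choose y hy using fun σ : K →+* AlgebraicClosure K =>
    IsAlgClosed.exists_pow_nat_eq (σ (Wc A B).Δ) two_pos
  obtain ⟨i, hi⟩ := IsAlgClosed.exists_pow_nat_eq (-1 : AlgebraicClosure K) two_pos
  refine ⟨insert i (Finset.univ.biUnion fun σ : K →+* AlgebraicClosure K => {σ A, σ B, y σ}),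
    fun x hx => h x (Subfield.closure_mono (fun u hu => ?_) hx), fun q O _ _ σ φ e G h5 f => ?_⟩
  · simp only [Finset.coe_insert, Set.mem_insert_iff, Finset.mem_coe, Finset.mem_biUnion,
      Finset.mem_insert, Finset.mem_singleton] at hu
    rcases hu with rfl | ⟨σ, -, rfl | rfl | rfl⟩
    exacts [Or.inr (Or.inl hi), Or.inl (Set.mem_iUnion.2 ⟨σ, _, rfl⟩),
      Or.inl (Set.mem_iUnion.2 ⟨σ, _, rfl⟩), Or.inr (Or.inr ⟨σ, hy σ⟩)]
  have m : ∀ u ∈ ({σ A, σ B, y σ} : Finset _), Fq O q u := fun u hu =>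
    f u (Finset.mem_insert_of_mem (Finset.mem_biUnion.2 ⟨σ, Finset.mem_univ _, hu⟩))
  have hA : φ A ^ q ^ 1 = φ A := by rw [pow_one]; exact fq_ev (m _ (by simp)) (e A)
  have hB : φ B ^ q ^ 1 = φ B := by rw [pow_one]; exact fq_ev (m _ (by simp)) (e B)
  have y1 := Ev.of_mem (π := resPlc O) (m (y σ) (by simp)).1
  have y2 := fq_ev (m _ (by simp)) y1
  have y3 := (y1.pow 2).unique (hy σ ▸ e _)
  have i1 := Ev.of_mem (π := resPlc O) (f i (by simp)).1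
  have i2 := fq_ev (f _ (by simp)) i1
  have i3 := (i1.pow 2).unique ((Ev.one _).neg.congr hi.symm rfl)
  have n4 : (4 : ResidueField O) ≠ 0 := by convert pow_ne_zero 2 G.two using 1; norm_num
  refine tors_of_tr q (small_ne _ h5).2 G hA hB ((hS _ q h5 _ _ ((resPlc O).ev (y σ) / 4) G hA hB
    (by rw [div_pow, y2, ← frobenius_def, map_ofNat]) ?_ _ rfl).1 ?_)
  · rw [div_pow, y3, div_eq_iff (pow_ne_zero 2 n4)]
    simp only [Wc_disc, map_mul, map_add, map_pow, map_neg, map_ofNat]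
    ring
  · exact (Nat.odd_mod_four_iff.1 (Nat.odd_iff.1 ((Fact.out : q.Prime).odd_of_ne_two
      (by omega)))).resolve_right (ZMod.exists_sq_eq_neg_one_iff.1 (by
        simpa using sq_of_fix q i2 (n := -1) (by simpa using i3)))

variable (hT : NTMain2) (hM : NormSpec) (hP : PerL) (hV : Vol) (hD : Deuring2) (hI : MuIso)
  (hR : MuRed) (h5 : 5 ≤ p) {P₀ : Ideal (𝓞 K)} (h₀ : Ideal.absNorm P₀ = p)
  (hΔ : ∀ P : Ideal (𝓞 K), P.IsMaximal → (p : 𝓞 K) ∈ P → (Wc A B).Δ ∉ P) (h0 : aP A B P₀ ≠ 0)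
  (ho : ∀ P : Ideal (𝓞 K), P.IsMaximal → (p : 𝓞 K) ∈ P →
    Same A B (aP A B P₀ ^ 2 - 4 * p) P → P = P₀)
include hT hM hP hV hD hI hR h5 h₀ hΔ h0 ho

theorem main_sq (hO : OrSpec) (hS : SeedLoc) (hsq : IsSquare (Wc A B).Δ) (h4 : aP A B P₀ % 4 ≠ 2)
    (h : ∀ x ∈ Subfield.closure (cj K ∪ {y | y ^ 2 = -1 ∨
      ∃ σ : K →+* AlgebraicClosure K, y ^ 2 = σ (Wc A B).Δ}), x ^ 2 ≠ (aP A B P₀ ^ 2 - 4 * p : ℤ)) :
    {P : Ideal (𝓞 K) | P.IsMaximal ∧ (Wc A B).Δ ∉ P ∧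
      Same A B (aP A B P₀ ^ 2 - 4 * p) P}.Infinite := by
  classical
  obtain ⟨p1, p2, -⟩ := deg_one Fact.out h₀
  obtain ⟨O, _, φ, e, rfl, fx, r, hA, hB, tr⟩ := setup h5 h₀ (hΔ _ p1 p2)
  obtain ⟨U, u1, u2⟩ := level_two hS h
  obtain ⟨w, hw⟩ := hsq
  have hw' : ∀ {k : Type} [Field k] (ψ : 𝓞 K →+* k),
      ψ w ^ 2 = -16 * (4 * ψ A ^ 3 + 27 * ψ B ^ 2) := fun ψ => by
    simpa [Wc_disc, map_ofNat, sq] using (congrArg ψ hw).symm
  obtain ⟨h2, h3⟩ := small_ne (ResidueField O) h5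
  have n4 : (4 : ResidueField O) ≠ 0 := by convert pow_ne_zero 2 h2 using 1; norm_num
  obtain ⟨D, χ, D4, -, d0, sq, c1, c0, f2, s⟩ := (hS _ p h5 _ _ (φ w / 4) r.good hA hB
    (by rw [div_pow, fx, ← frobenius_def, map_ofNat])
    (by rw [div_pow, hw', div_eq_iff (pow_ne_zero 2 n4)]; ring) _ tr).2 h0 h4
  have G := rd_good r
  have key : ∀ ψ : EE r.good, ψ * ψ = -(D : EE r.good) → cE _ ψ ≠ 0 → ∀ a b c,
      Rt (iK A) (iK B) a b c → 4 * ((a - b) * (a - c) * (b - c)) = iK w →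
      OrE ψ (pt _ _ ((resPlc O).ev a) 0) (pt _ _ ((resPlc O).ev b) 0) → _ :=
    fun ψ k1 k0 a b c t e1 k => coreK (m := 2) (a := 1) (c := 1) hT hM hP hV hD hI hR (Or.inl rfl)
      (F := fun k _ φ x y => 4 * ((x - y) * (2 * x + y) * (x + 2 * y)) = φ w)
      (fun L κ _ _ π σ φ e x x' y y' a b h => ((Ev.ofNat π 4).mul (((a.sub b).mul
        (((Ev.ofNat π 2).mul a).add b)).mul (a.add ((Ev.ofNat π 2).mul b)))).unique (h ▸ e w))
      h5 e h₀ hΔ ho (fun z => by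
        have := Nat.le_of_dvd (by norm_num) z; omega) d0 sq s r k1 k0 (P := pt _ _ a 0)
      (Q := pt _ _ b 0) ⟨pk_two G t, by
        beta_reduce
        rw [(t.two G).2.1, (t.rot.two G).2.1, ← e1, show c = -a - b by linear_combination t.s1]
        ring⟩ (by rwa [orG_two, one_nsmul, red_two r t, red_two r t.rot]) (fun P Q ⟨a1, a2⟩ => by
        have t' := KrA.rt_red r t
        obtain ⟨o1, o2, o3⟩ := (hO _ h3 _ _ _ _ _ r.good D ψ t' D4 k1).2 k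
        have x1 := KrA.ev_root r t
        have x2 := KrA.ev_root r t.rot
        have x3 := KrA.ev_root r t.rot.rot
        have e2 := ((Ev.ofNat _ 4).mul (((x1.sub x2).mul (x1.sub x3)).mul (x2.sub x3))).unique
          (e1 ▸ e w)
        rw [orG_two, one_nsmul, (two_pt (P := P) r.good a1.lv.p0 a1.hP).2,
          (two_pt (P := Q) r.good a1.lv.tw.q0 a1.hQ).2]
        rcases rt_even r.good t' a1.rt (mul_left_cancel₀ n4 (by
          rw [e2, ← a2]; ring)) with z | z | z <;> simp only [Prod.mk.injEq] at z <;>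
          rw [z.1, z.2.1] <;> assumption) u1 fun q O _ _ σ φ e G q5 _ _ f => u2 q O σ φ e G q5 f
  obtain ⟨e₁, e₂, e₃, t, e1⟩ : ∃ a b c, Rt (iK A) (iK B) a b c ∧
      4 * ((a - b) * (a - c) * (b - c)) = iK w := by
    obtain ⟨a, b, c, t⟩ := exists_rt (iK A) (iK B)
    rcases sq_eq_sq_iff_eq_or_eq_neg.1 (show (4 * ((a - b) * (a - c) * (b - c))) ^ 2 = iK w ^ 2 by
      rw [hw', t.disc]; ring) with z | z
    · exact ⟨a, b, c, t, z⟩
    · exact ⟨b, a, c, t.swap, by linear_combination -z⟩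
  obtain ⟨a, b, c, h1, h2⟩ := (hO _ h3 _ _ _ _ _ r.good D χ (KrA.rt_red r t) D4 c1).1 f2
  obtain ⟨a', b', c', t', e2, rfl, rfl⟩ : ∃ a' b' c', Rt (iK A) (iK B) a' b' c' ∧
      4 * ((a' - b') * (a' - c') * (b' - c')) = iK w ∧ (resPlc O).ev a' = a ∧
        (resPlc O).ev b' = b := by
    simp only [Prod.mk.injEq] at h1
    rcases h1 with ⟨rfl, rfl, -⟩ | ⟨rfl, rfl, -⟩ | ⟨rfl, rfl, -⟩
    exacts [⟨_, _, _, t, e1, rfl, rfl⟩, ⟨_, _, _, t.rot, by linear_combination e1, rfl, rfl⟩,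
      ⟨_, _, _, t.rot.rot, by linear_combination e1, rfl, rfl⟩]
  rcases h2 with h2 | h2
  · exact key χ c1 c0 _ _ _ t' e2 h2
  · exact key (-χ) (by rw [neg_mul_neg, c1]) (by simpa using c0) _ _ _ t' e2 h2

theorem main_two (hS : SeedLoc) (hS' : SeedTwo) {e : 𝓞 K} (he : e ^ 3 + A * e + B = 0)
    (h4 : aP A B P₀ % 4 = 0) (s1 : IsSquare (Ideal.Quotient.mk P₀ (Wc A B).Δ))
    (s2 : IsSquare (Ideal.Quotient.mk P₀ (3 * e ^ 2 + A)))
    (h : ∀ x ∈ Subfield.closure (cj K ∪ {y | y ^ 2 = -1 ∨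
      ∃ σ : K →+* AlgebraicClosure K, y ^ 2 = σ (Wc A B).Δ}), x ^ 2 ≠ (aP A B P₀ ^ 2 - 4 * p : ℤ)) :
    {P : Ideal (𝓞 K) | P.IsMaximal ∧ (Wc A B).Δ ∉ P ∧
      Same A B (aP A B P₀ ^ 2 - 4 * p) P}.Infinite := by
  classical
  obtain ⟨p1, p2, -⟩ := deg_one Fact.out h₀
  obtain ⟨O, _, φ, ev, rfl, fx, r, hA, hB, tr⟩ := setup h5 h₀ (hΔ _ p1 p2)
  obtain ⟨U, u1, u2⟩ := level_two hS h
  have sq : ∀ x, IsSquare (Ideal.Quotient.mk (RingHom.ker φ) x) → ∃ w, φ w ^ 2 = φ x := by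
    rintro x ⟨w, hw⟩
    obtain ⟨w, rfl⟩ := Ideal.Quotient.mk_surjective w
    rw [← map_mul, Ideal.Quotient.eq, RingHom.mem_ker, map_sub, map_mul, sub_eq_zero] at hw
    exact ⟨w, by rw [hw, sq]⟩
  obtain ⟨w, hw⟩ := sq _ s1
  obtain ⟨v, hv⟩ := sq _ s2
  obtain ⟨h2, h3⟩ := small_ne (ResidueField O) h5
  have n4 : (4 : ResidueField O) ≠ 0 := by convert pow_ne_zero 2 h2 using 1; norm_num
  obtain ⟨D, χ, d0, sq, c1, c0, s, o1, o2⟩ := hS' _ p h5 _ _ (φ w / 4) (φ e) (φ v) r.good hA hB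
    (by rw [div_pow, fx, ← frobenius_def, map_ofNat])
    (by
      rw [div_pow, hw, div_eq_iff (pow_ne_zero 2 n4)]
      simp only [Wc_disc, map_mul, map_add, map_pow, map_neg, map_ofNat]
      ring) (fx e) (by simpa using congrArg φ he) (fx v) (by simpa [map_ofNat] using hv) _ tr h0 h4
  have G := rd_good r
  obtain ⟨b, hb⟩ := IsAlgClosed.exists_pow_nat_eq (-3 * iK e ^ 2 - 4 * iK A) two_pos
  have he' : iK e ^ 3 + iK A * iK e + iK B = 0 := by simpa using congrArg iK he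
  have t : Rt (iK A) (iK B) (iK e) ((-iK e + b) / 2) ((-iK e - b) / 2) :=
    ⟨by ring, by linear_combination hb / 4, by linear_combination he' - iK e * hb / 4⟩
  exact coreK (m := 2) (a := 1) (c := 0) hT hM hP hV hD hI hR (Or.inl rfl)
    (F := fun k _ φ x _ => x = φ e) (fun L κ _ _ π σ φ ev x x' y y' a b h => a.unique (h ▸ ev e))
    h5 ev h₀ hΔ ho (fun z => by have := Nat.le_of_dvd (by norm_num) z; omega) d0 sq s r c1 c0
    (P := pt _ _ (iK e) 0) (Q := pt _ _ _ 0) ⟨pk_two G t, (t.two G).2.1⟩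
    (by rwa [orG_two, zero_nsmul, red_two r t, (ev e).ev]) (fun P Q ⟨a1, a2⟩ => by
      rwa [orG_two, zero_nsmul, (two_pt (P := P) r.good a1.lv.p0 a1.hP).2,
        show xc P = φ e from a2]) u1
    fun q O _ _ σ φ e G q5 _ _ f => u2 q O σ φ e G q5 f

open Classical in
theorem main_odd (hK : KerPol) (hS : SeedN) {N : ℕ} (hN : N = 3 ∨ N = 5 ∨ N = 7) (pN : p ≠ N)
    (hd : ¬(N : ℤ) ∣ aP A B P₀ ^ 2 - 4 * p) {E : Finset (Pt (iK A) (iK B))} (s1 : IsSub E)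
    (s2 : E.card = N) (s3 : ∀ σ : AlgebraicClosure K ≃ₐ[K] AlgebraicClosure K, ∀ P ∈ E, ∃ Q ∈ E,
      xc Q = σ (xc P))
    (h : ∀ x ∈ Subfield.closure (cj K ∪ {y | y ^ 2 = if N = 5 then
      (5 * (aP A B P₀ ^ 2 - 4 * p) : ℤ) else -N}), x ^ 2 ≠ (aP A B P₀ ^ 2 - 4 * p : ℤ)) :
    {P : Ideal (𝓞 K) | P.IsMaximal ∧ (Wc A B).Δ ∉ P ∧
      Same A B (aP A B P₀ ^ 2 - 4 * p) P}.Infinite := by
  have pp : p.Prime := Fact.out
  have lv : Lev N := Or.inr hN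
  have N2 : N ≠ 2 := by omega
  obtain ⟨p1, p2, -⟩ := deg_one pp h₀
  obtain ⟨O, _, φ, ev, rfl, fx, r, hA, hB, tr⟩ := setup h5 h₀ (hΔ _ p1 p2)
  have G := rd_good r
  obtain ⟨g, hg⟩ := hK K A B E G s1 s3
  subst s2
  have kp : ∀ (O : ValuationSubring (AlgebraicClosure K)) (π : Plc _ (ResidueField O))
      (φ : 𝓞 K →+* ResidueField O), Sj π → (∀ r, Ev π (iK r) (φ r)) → Good (φ A) (φ B) →
      (E.card : ResidueField O) ≠ 0 → KerP E.card (g.map φ) (φ A) (φ B) :=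
    fun O π φ sj e G n0 => by
      have r := rd_of (e A) (e B) G
      have hf := red_sub_ne r s1 n0
      refine ⟨_, isSub_image r.red s1, card_red r s1 n0, Polynomial.funext fun x => ?_⟩
      obtain ⟨y, hy⟩ := sj x
      refine Ev.unique ?_ (ev_map e hy g)
      simp only [hg, eval_prod, eval_sub, eval_X, eval_C]
      exact ev_prod_sub r s1 hf fun P hP => hy.sub ((Ev.nat π _).mul (ev_xc r (hf P hP)))
  have n0 : ¬p ∣ E.card := fun e => pN ((Nat.prime_dvd_prime_iff_eq pp lv.prime).1 e)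
  obtain ⟨c, k1, k2⟩ := hS _ p h5 _ _ r.good hA hB _ _ lv.prime pN.symm
    (fun i => by rw [coeff_map, fx]) (kp O _ φ (sj_res O) ev r.good
      fun z => n0 ((CharP.cast_eq_zero_iff _ p _).1 z)) _ tr
  obtain ⟨D, χ, hD', d0, sq, c1, c0, c2⟩ := chi_odd p h5 r.good hA hB tr h0
  clear tr
  generalize aP A B (RingHom.ker φ) = a at *
  obtain ⟨P, a1, a0⟩ := Finset.exists_mem_ne (s := E) lv.prime.one_lt 0
  have cd : Cd E.card (fun k _ φ x _ => (g.map φ).eval (E.card * x) = 0) A B iK P 0 :=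
    ⟨⟨G, s1.nsmul_card a1, nsmul_zero _, a0, fun z => absurd z N2, fun _ => rfl⟩, by
      simp only [hg, eval_prod, eval_sub, eval_X, eval_C]
      exact Finset.prod_eq_zero (Finset.mem_erase.2 ⟨a0, a1⟩) (sub_self _)⟩
  have hF : Fam.Ok fun k _ φ x _ => (g.map φ).eval (E.card * x) = 0 :=
    fun L κ _ _ π σ φ e x x' y y' a b h =>
      (ev_map e ((Ev.nat π _).mul a) g).unique (h ▸ Ev.zero π)
  have cd' := (cd.red hF hR lv ev r fun z => n0 ((CharP.cast_eq_zero_iff _ p _).1 z)).1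
  obtain ⟨y, hy⟩ := IsAlgClosed.exists_pow_nat_eq (((if E.card = 5 then 5 * (a ^ 2 - 4 * p)
    else -E.card : ℤ) : AlgebraicClosure K)) two_pos
  refine coreK (m := 1) (a := a - 2 * c) (c := 0) (D := D) hT hM hP hV hD hI hR lv hF h5 ev h₀ hΔ ho
    (by simpa using n0) d0 sq ⟨D, by rw [← hD']; ring⟩ r c1 c0 cd
    ⟨_, one_nsmul _, ?_⟩ (fun P Q ⟨b1, b2⟩ ⟨R, b3, b4⟩ => hd ?_)
    (U := insert y (Finset.univ.biUnion fun σ : K →+* AlgebraicClosure K =>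
      (insert A (insert B g.coeffs)).image fun r : 𝓞 K => σ r))
    (fun x hx => h x (Subfield.closure_mono (fun u hu => ?_) hx))
    fun q O _ _ σ φ e G q5 qN non f => ?_
  · rw [c2 _ c (k2 (r.red P) cd'.1.lv.p0 cd'.2), zero_nsmul]
    module
  · rw [one_nsmul] at b3
    subst b3
    rw [EE_neg, c2 _ c (k2 R b1.lv.p0 b2), zero_nsmul] at b4
    have := VolAux.dvd_of_smul lv.prime (P := R) b1.lv.p0 b1.hP (s := 2 * (a - 2 * c)) (by
      rw [← b4]; module)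
    rcases (Nat.prime_iff_prime_int.1 lv.prime).dvd_or_dvd this with z | z
    · exact absurd ((Nat.prime_dvd_prime_iff_eq lv.prime Nat.prime_two).1 (by exact_mod_cast z)) N2
    · rw [show a ^ 2 - 4 * p = (a - 2 * c) ^ 2 - 4 * (c ^ 2 - a * c + p) by ring]
      exact (z.trans (dvd_pow_self _ two_ne_zero)).sub (k1.mul_left 4)
  · simp only [Finset.coe_insert, Set.mem_insert_iff, Finset.mem_coe, Finset.mem_biUnion,
      Finset.mem_image] at hu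
    rcases hu with rfl | ⟨σ, -, r, -, rfl⟩
    exacts [Or.inr hy, Or.inl (Set.mem_iUnion.2 ⟨σ, _, rfl⟩)]
  have qq : q.Prime := Fact.out
  have m : ∀ r ∈ insert A (insert B g.coeffs), φ r ^ q = φ r := fun r hr => fq_ev
    (f _ (Finset.mem_insert_of_mem (Finset.mem_biUnion.2 ⟨σ, Finset.mem_univ _,
      Finset.mem_image_of_mem _ hr⟩))) (e r)
  have hA : φ A ^ q ^ 1 = φ A := by rw [pow_one]; exact m _ (by simp)
  have hB : φ B ^ q ^ 1 = φ B := by rw [pow_one]; exact m _ (by simp)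
  obtain ⟨θ, hθ⟩ := gam_three K σ
  refine tors_of_tr q (small_ne _ q5).2 G hA hB fun z => ?_
  obtain ⟨c, k1, -⟩ := hS _ q q5 _ _ G hA hB _ _ lv.prime (fun z => qN (z ▸ dvd_rfl)) (fun i => by
    rw [coeff_map]
    by_cases z : g.coeff i = 0
    · rw [z, map_zero, zero_pow qq.ne_zero]
    · exact m _ (by simp [coeff_mem_coeffs z])) (kp O (twP (resPlc O) θ) φ ((sj_res O).tw θ)
      (fun r => ev_tw.2 ((e r).congr (hθ r).symm rfl)) G
      fun z => qN ((CharP.cast_eq_zero_iff _ q _).1 z)) _ ((tr_zero q q5 G hA hB rfl).2 z)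
  rw [zero_mul, sub_zero] at k1
  have y1 := Ev.of_mem (π := resPlc O) (f y (by simp)).1
  have y2 := sq_of_fix q (fq_ev (f _ (by simp)) y1) ((y1.pow 2).unique
    ((Ev.int _ _).congr hy.symm rfl))
  split_ifs at y2 with z
  · have := Fact.mk Nat.prime_five
    rw [z] at k1 qN
    obtain ⟨u, hu⟩ := (ZMod.exists_sq_eq_prime_iff_of_mod_four_eq_one (p := 5) (q := q) rfl
      (by omega)).1 ⟨2 * c, by
        have := (ZMod.intCast_zmod_eq_zero_iff_dvd _ 5).2 k1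
        push_cast at this
        have e5 : (5 : ZMod 5) = 0 := rfl
        linear_combination this - (c : ZMod 5) ^ 2 * e5⟩
    obtain ⟨v, hv⟩ := y2
    have u0 : u ≠ 0 := fun z => qN ((ZMod.natCast_eq_zero_iff 5 q).1 (by rw [hu, z, mul_zero]))
    refine non ⟨v / u, ?_⟩
    rw [show a ^ 2 - 4 * p = -D by omega] at hv
    push_cast at hv hu
    field_simp
    linear_combination hv + (D : ZMod q) * hu
  · exact recip_three qq (by omega) (by omega) ((Nat.Prime.coprime_iff_not_dvd qq).2 qN) k1 y2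

end Pool.Agent.MP_c481b3_nt.H28
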