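import Pool.Agent.MP_c481b3_nt.H28.SpecD

set_option autoImplicit false

namespace Pool.Agent.MP_c481b3_nt.H28

open Pool.Agent.MP_c481b3_nt.H81

namespace MuD
variable {k : Type} [Field k] [DecidableEq k] {A B : k}

lemma nz {N : ℕ} (hN : N.Prime) {P : Pt A B} (hP : P ≠ 0) (h : N • P = 0) {j : ℕ}
    (hj : ¬N ∣ j) : j • P ≠ 0 := by
  have := Fact.mk hN
  intro e
  exact hj (addOrderOf_eq_prime h hP ▸ addOrderOf_dvd_of_nsmul_eq_zero e)

lemma y_ne {P : Pt A B} (hP : P ≠ 0) (h : P + P ≠ 0) : yc P ≠ 0 := fun e =>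
  h (by
    have : P = -P := pt_ext hP (neg_ne_zero.2 hP) (by simp) (by simp [e])
    exact add_eq_zero_iff_eq_neg.2 this)

omit [DecidableEq k] in
lemma slope (hG : Good A B) {P R : Pt A B} (y0 : yc P ≠ 0) {l n : k}
    (h : ColAt A B l n (xc P) (yc P) (xc P) (yc P) (xc R) (yc R)) : l = t1 P / 2 := by
  have h2 := hG.two
  have s := h.slope
  unfold t1
  field_simp
  linear_combination s

omit [DecidableEq k] in
lemma four (hG : Good A B) : (4 : k) ≠ 0 := by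
  have : (4 : k) = 2 * 2 := by norm_num
  rw [this]; exact mul_ne_zero hG.two hG.two

lemma dbl (hG : Good A B) {P : Pt A B} (hP : P ≠ 0) (h : P + P ≠ 0) :
    xc (P + P) = xc P - t2 P ∧ yc (P + P) = t1 P / 2 * t2 P - yc P := by
  obtain ⟨l, n, c⟩ := col_of_sum hP hP (neg_ne_zero.2 h) (add_neg_cancel _)
  have hl := slope hG (y_ne hP h) c
  have e1 := c.e1
  have e3 := c.h3
  have e4 := c.h1
  rw [xc_neg] at e1 e3
  rw [yc_neg] at e3
  have h2 := hG.two
  have h4 := four hG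
  have a : xc (P + P) = xc P - t2 P := by
    have : l ^ 2 = t1 P ^ 2 / 4 := by rw [hl]; field_simp; norm_num
    unfold t2
    linear_combination e1 + this
  refine ⟨a, ?_⟩
  rw [← hl]
  linear_combination -e3 + e4 - l * a

lemma t2_three (hG : Good A B) {P : Pt A B} (hP : P ≠ 0) (h : 3 • P = 0) : t2 P = 0 := by
  have h2 : P + P ≠ 0 := by simpa [two_nsmul] using nz Nat.prime_three hP h (j := 2) (by norm_num)
  have e : P + P = -P := by
    rw [eq_neg_iff_add_eq_zero, ← h, three_nsmul, add_assoc]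
  have := (dbl hG hP h2).1
  rw [e, xc_neg] at this
  linear_combination this

lemma t2_ne (hG : Good A B) {P : Pt A B} (hP : P ≠ 0) (h2 : P + P ≠ 0) (h3 : P + P + P ≠ 0) :
    t2 P ≠ 0 := by
  intro e
  have := (dbl hG hP h2).1
  rw [e, sub_zero] at this
  rcases eq_or_neg h2 hP this with h | h
  · exact hP (by simpa using h)
  · exact h3 (by rw [h, neg_add_cancel])

lemma tpl (hG : Good A B) {P : Pt A B} (hP : P ≠ 0) (h2 : P + P ≠ 0) (h3 : P + P + P ≠ 0) :
    xc (P + P + P) = xc P + (t3 P / t2 P) ^ 2 * (1 - t1 P * t2 P / t3 P) ∧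
    yc (P + P + P) = -((t3 P / t2 P - t1 P / 2) * ((t3 P / t2 P) ^ 2 * (1 - t1 P * t2 P / t3 P))
      + yc P) := by
  obtain ⟨a, b⟩ := dbl hG hP h2
  have n2 := t2_ne hG hP h2 h3
  have y0 := y_ne hP h2
  have two := hG.two
  have h4 := four hG
  obtain ⟨c, d⟩ := pair_add h2 hP (by rw [a]; intro e; exact n2 (by linear_combination -e))
  have s : (yc (P + P) - yc P) / (xc (P + P) - xc P) = t3 P / t2 P - t1 P / 2 := by
    rw [a, b, show xc P - t2 P - xc P = -t2 P by ring]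
    unfold t3
    field_simp
    ring
  have x3 : 3 * xc P = t2 P + t1 P ^ 2 / 4 := by unfold t2; ring
  have n3 : t3 P ≠ 0 := mul_ne_zero two y0
  rw [s] at c d
  have e : xc (P + P + P) = xc P + (t3 P / t2 P) ^ 2 * (1 - t1 P * t2 P / t3 P) := by
    rw [c, a]
    have : (t3 P / t2 P - t1 P / 2) ^ 2 + t2 P - (t2 P + t1 P ^ 2 / 4)
        = (t3 P / t2 P) ^ 2 * (1 - t1 P * t2 P / t3 P) := by
      field_simp
      ring
    linear_combination this - x3
  refine ⟨e, ?_⟩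
  rw [d, e, a, b]
  have : (t3 P / t2 P - t1 P / 2) * t2 P = 2 * yc P - t1 P / 2 * t2 P := by
    unfold t3
    field_simp
  linear_combination -this

lemma c_ne (hG : Good A B) {P : Pt A B} (hP : P ≠ 0) (h2 : P + P ≠ 0) (h3 : P + P + P ≠ 0)
    (h4 : P + P + P + P ≠ 0) : 1 - t1 P * t2 P / t3 P ≠ 0 := by
  intro e
  have := (tpl hG hP h2 h3).1
  rw [e, mul_zero, add_zero] at this
  rcases eq_or_neg h3 hP this with h | h
  · exact h2 (by simpa using h)
  · exact h4 (by rw [h, neg_add_cancel])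

lemma quad (hG : Good A B) {P : Pt A B} (hP : P ≠ 0) (h2 : P + P ≠ 0) (h3 : P + P + P ≠ 0)
    (h4 : P + P + P + P ≠ 0) {μ : k} (hμ : μ = t2 P ^ 3 / t3 P ^ 2 / (1 - t1 P * t2 P / t3 P)) :
    xc (P + P + P + P) = xc P + (t3 P / t2 P) ^ 2 * (μ * (μ + 1)) := by
  obtain ⟨a, b⟩ := tpl hG hP h2 h3
  have n2 := t2_ne hG hP h2 h3
  have y0 := y_ne hP h2
  have two := hG.two
  have f4 := four hG
  have n3 : t3 P ≠ 0 := mul_ne_zero two y0
  have nc := c_ne hG hP h2 h3 h4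
  have x3 : 3 * xc P = t2 P + t1 P ^ 2 / 4 := by unfold t2; ring
  have y2 : 2 * yc P = t3 P := rfl
  generalize hc : 1 - t1 P * t2 P / t3 P = c at *
  have nw : (t3 P / t2 P) ^ 2 * c ≠ 0 := mul_ne_zero (pow_ne_zero _ (div_ne_zero n3 n2)) nc
  obtain ⟨d, -⟩ := pair_add h3 hP (by rw [a]; intro e; exact nw (by linear_combination e))
  have s : (yc (P + P + P) - yc P) / (xc (P + P + P) - xc P)
      = t1 P / 2 - t3 P / t2 P * (μ + 1) := by
    rw [a, b, show xc P + (t3 P / t2 P) ^ 2 * c - xc P = (t3 P / t2 P) ^ 2 * c by ring,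
      div_eq_iff nw, hμ]
    have : t3 P / t2 P * (t2 P ^ 3 / t3 P ^ 2 / c) * ((t3 P / t2 P) ^ 2 * c) = t3 P := by
      field_simp
    linear_combination this - y2
  have e1 : t1 P = t3 P / t2 P * (1 - c) := by
    rw [← hc]; field_simp; ring
  have e2 : t2 P = (t3 P / t2 P) ^ 2 * (μ * c) := by
    rw [hμ]; field_simp
  rw [d, s, a]
  have e4 : (t1 P / 2 - t3 P / t2 P * (μ + 1)) ^ 2 = t1 P ^ 2 / 4 - t1 P * (t3 P / t2 P * (μ + 1))
      + (t3 P / t2 P * (μ + 1)) ^ 2 := by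
    field_simp
    ring
  generalize t3 P / t2 P = w at *
  rw [e4]
  linear_combination -x3 - e2 - w * (μ + 1) * e1

lemma fin [IsAlgClosed k] (h3 : (3 : k) ≠ 0) {A' B' : k} (hG : Good A B) (hG' : Good A' B')
    {P : Pt A B} {P' : Pt A' B'} (hP : P ≠ 0) (hP' : P' ≠ 0) (y0 : yc P ≠ 0) (y0' : yc P' ≠ 0)
    {u : k} (hu : u ≠ 0) (e1 : t1 P = u * t1 P') (e2 : t2 P = u ^ 2 * t2 P')
    (e3 : t3 P = u ^ 3 * t3 P') :
    ∃ u, VD ({0} : Finset (Pt A B)) u A' B' ∧ vm {0} u A' B' P = P' := by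
  have two := hG.two
  have hx : xc P = u ^ 2 * xc P' := by
    refine mul_left_cancel₀ h3 ?_
    unfold t2 at e2
    rw [e1] at e2
    linear_combination e2
  have hy : yc P = u ^ 3 * yc P' := by
    refine mul_left_cancel₀ two ?_
    unfold t3 at e3
    linear_combination e3
  have a : A = yc P * t1 P - 3 * xc P ^ 2 := by unfold t1; field_simp; ring
  have a' : A' = yc P' * t1 P' - 3 * xc P' ^ 2 := by unfold t1; field_simp; ring
  have hA : A = u ^ 4 * A' := by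
    rw [e1, hx, hy] at a
    linear_combination a - u ^ 4 * a'
  have hB : B = u ^ 6 * B' := by
    have q := eqn hP
    have q' := eqn hP'
    rw [hx, hy] at q
    linear_combination -q + u ^ 6 * q' - u ^ 2 * xc P' * hA
  have d := vd_unit hG hG' hu hA hB
  obtain ⟨s1, s2, s3⟩ := vd_unit_spec d hP
  exact ⟨u, d, pt_ext s1 hP' (by rw [s2, hx]; field_simp) (by rw [s3, hy]; field_simp)⟩

lemma fin2 [IsAlgClosed k] (h3 : (3 : k) ≠ 0) {A' B' : k} (hG : Good A B) (hG' : Good A' B')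
    {P : Pt A B} {P' : Pt A' B'} (hP : P ≠ 0) (hP' : P' ≠ 0) (y0 : yc P ≠ 0) (y0' : yc P' ≠ 0)
    (n2 : t2 P ≠ 0) (n2' : t2 P' ≠ 0) (eb : t2 P ^ 3 / t3 P ^ 2 = t2 P' ^ 3 / t3 P' ^ 2)
    (ec : 1 - t1 P * t2 P / t3 P = 1 - t1 P' * t2 P' / t3 P') :
    ∃ u, VD ({0} : Finset (Pt A B)) u A' B' ∧ vm {0} u A' B' P = P' := by
  have n3 : t3 P ≠ 0 := mul_ne_zero hG.two y0
  have n3' : t3 P' ≠ 0 := mul_ne_zero hG'.two y0'
  have ec' : t1 P * t2 P / t3 P = t1 P' * t2 P' / t3 P' := by linear_combination -ec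
  rw [div_eq_div_iff (pow_ne_zero _ n3) (pow_ne_zero _ n3')] at eb
  rw [div_eq_div_iff n3 n3'] at ec'
  refine fin h3 hG hG' hP hP' y0 y0' (u := t3 P / t2 P / (t3 P' / t2 P'))
    (div_ne_zero (div_ne_zero n3 n2) (div_ne_zero n3' n2')) ?_ ?_ ?_
  · field_simp
    linear_combination ec'
  · field_simp
    linear_combination eb
  · field_simp
    linear_combination eb

lemma nz4 {N : ℕ} (hN : N.Prime) (h5 : 5 ≤ N) {P : Pt A B} (hP : P ≠ 0) (h : N • P = 0) :
    P + P ≠ 0 ∧ P + P + P ≠ 0 ∧ P + P + P + P ≠ 0 := by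
  have f : ∀ j : ℕ, 0 < j → j < 5 → j • P ≠ 0 := fun j a b =>
    nz hN hP h fun e => absurd (Nat.le_of_dvd a e) (by omega)
  refine ⟨?_, ?_, ?_⟩
  · have := f 2 (by norm_num) (by norm_num)
    rwa [two_nsmul] at this
  · have := f 3 (by norm_num) (by norm_num)
    rwa [show 3 • P = P + P + P by abel] at this
  · have := f 4 (by norm_num) (by norm_num)
    rwa [show 4 • P = P + P + P + P by abel] at this

lemma five (hG : Good A B) {P : Pt A B} (hP : P ≠ 0) (h : 5 • P = 0) :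
    1 - t1 P * t2 P / t3 P = -(t2 P ^ 3 / t3 P ^ 2) := by
  obtain ⟨h2, h3, -⟩ := nz4 Nat.prime_five le_rfl hP h
  have e : P + P + P = -(P + P) := by
    rw [eq_neg_iff_add_eq_zero, ← h]; abel
  have a := (tpl hG hP h2 h3).1
  rw [e, xc_neg, (dbl hG hP h2).1] at a
  have n2 := t2_ne hG hP h2 h3
  have n3 : t3 P ≠ 0 := mul_ne_zero hG.two (y_ne hP h2)
  generalize 1 - t1 P * t2 P / t3 P = c at *
  have : c = -t2 P / (t3 P / t2 P) ^ 2 := by
    rw [eq_div_iff (pow_ne_zero _ (div_ne_zero n3 n2))]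
    linear_combination -a
  rw [this]
  field_simp

lemma seven (hG : Good A B) {P : Pt A B} (hP : P ≠ 0) (h : 7 • P = 0) {μ : k}
    (hμ : μ = t2 P ^ 3 / t3 P ^ 2 / (1 - t1 P * t2 P / t3 P)) :
    1 - t1 P * t2 P / t3 P = μ * (μ + 1) ∧ t2 P ^ 3 / t3 P ^ 2 = μ * (μ * (μ + 1)) := by
  obtain ⟨h2, h3, h4⟩ := nz4 (by norm_num : Nat.Prime 7) (by norm_num) hP h
  have e : P + P + P + P = -(P + P + P) := by
    rw [eq_neg_iff_add_eq_zero, ← h]; abel
  have a := quad hG hP h2 h3 h4 hμ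
  rw [e, xc_neg, (tpl hG hP h2 h3).1] at a
  have n2 := t2_ne hG hP h2 h3
  have n3 : t3 P ≠ 0 := mul_ne_zero hG.two (y_ne hP h2)
  have nc := c_ne hG hP h2 h3 h4
  have b : 1 - t1 P * t2 P / t3 P = μ * (μ + 1) :=
    mul_left_cancel₀ (pow_ne_zero 2 (div_ne_zero n3 n2)) (by linear_combination a)
  refine ⟨b, ?_⟩
  rw [← b, hμ, div_mul_cancel₀ _ nc]

end MuD

open MuD

theorem muIso : MuIso := by
  intro k _ _ _ h3 N A B A' B' P P' hN hG hG' hP h hP' h' e
  rcases hN with rfl | rfl | rfl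
  · have y0 := y_ne hP
      (by simpa [two_nsmul] using nz Nat.prime_three hP h (j := 2) (by norm_num))
    have y0' := y_ne hP'
      (by simpa [two_nsmul] using nz Nat.prime_three hP' h' (j := 2) (by norm_num))
    have n3 : t3 P ≠ 0 := mul_ne_zero hG.two y0
    have n3' : t3 P' ≠ 0 := mul_ne_zero hG'.two y0'
    have z := t2_three hG hP h
    have z' := t2_three hG' hP' h'
    simp only [muN, if_true] at e
    rw [div_eq_div_iff n3 n3'] at e
    by_cases a : t1 P' = 0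
    · have b : t1 P = 0 := by simpa [a, n3'] using e
      obtain ⟨u, hu⟩ := IsAlgClosed.exists_pow_nat_eq (t3 P / t3 P') (n := 3) (by norm_num)
      refine fin h3 hG hG' hP hP' y0 y0' (u := u) ?_ (by simp [a, b]) (by simp [z, z'])
        (by rw [hu, div_mul_cancel₀ _ n3'])
      rintro rfl
      exact div_ne_zero n3 n3' (hu.symm.trans (by simp))
    · have b : t1 P ≠ 0 := fun b => by simp [a, b, n3] at e
      refine fin h3 hG hG' hP hP' y0 y0' (u := t1 P / t1 P') (div_ne_zero b a)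
        (by rw [div_mul_cancel₀ _ a]) (by simp [z, z']) ?_
      field_simp
      linear_combination -e
  · obtain ⟨h2, h4, -⟩ := nz4 Nat.prime_five le_rfl hP h
    obtain ⟨h2', h4', -⟩ := nz4 Nat.prime_five le_rfl hP' h'
    have e' : t2 P ^ 3 / t3 P ^ 2 = t2 P' ^ 3 / t3 P' ^ 2 := by simpa [muN] using e
    exact fin2 h3 hG hG' hP hP' (y_ne hP h2) (y_ne hP' h2') (t2_ne hG hP h2 h4)
      (t2_ne hG' hP' h2' h4') e' (by rw [five hG hP h, five hG' hP' h', e'])
  · obtain ⟨h2, h4, -⟩ := nz4 (by norm_num : Nat.Prime 7) (by norm_num) hP h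
    obtain ⟨h2', h4', -⟩ := nz4 (by norm_num : Nat.Prime 7) (by norm_num) hP' h'
    have e' : t2 P ^ 3 / t3 P ^ 2 / (1 - t1 P * t2 P / t3 P)
        = t2 P' ^ 3 / t3 P' ^ 2 / (1 - t1 P' * t2 P' / t3 P') := by simpa [muN] using e
    obtain ⟨a, b⟩ := seven hG hP h rfl
    obtain ⟨a', b'⟩ := seven hG' hP' h' e'
    exact fin2 h3 hG hG' hP hP' (y_ne hP h2) (y_ne hP' h2') (t2_ne hG hP h2 h4)
      (t2_ne hG' hP' h2' h4') (b.trans b'.symm) (a.trans a'.symm)

theorem muRed : MuRed := by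
  intro L κ _ _ _ _ π N A B A' B' r P hN h0 h
  have hG := r.good
  have h2 : r.red P + r.red P ≠ 0 := by
    have p : N.Prime ∧ ¬N ∣ 2 := by rcases hN with rfl | rfl | rfl <;> norm_num
    simpa [two_nsmul] using nz p.1 h0 h p.2
  have y0 := y_ne h0 h2
  have n3 : t3 (r.red P) ≠ 0 := mul_ne_zero hG.two y0
  have a1 : Ev π (t1 P) (t1 (r.red P)) :=
    (((Ev.ofNat π 3).mul ((ev_xc r h0).pow 2)).add (rdA r)).div (ev_yc r h0) y0
  have a2 : Ev π (t2 P) (t2 (r.red P)) :=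
    ((Ev.ofNat π 3).mul (ev_xc r h0)).sub ((a1.pow 2).div (Ev.ofNat π 4) (four hG))
  have a3 : Ev π (t3 P) (t3 (r.red P)) := (Ev.ofNat π 2).mul (ev_yc r h0)
  have b := (a2.pow 3).div (a3.pow 2) (pow_ne_zero _ n3)
  rcases hN with rfl | rfl | rfl
  · simpa [muN] using (a1.pow 3).div a3 n3
  · simpa [muN] using b
  · obtain ⟨-, h3, h4⟩ := nz4 (by norm_num : Nat.Prime 7) (by norm_num) h0 h
    simpa [muN] using b.div ((Ev.one π).sub ((a1.mul a2).div a3 n3)) (c_ne hG h0 h2 h3 h4)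

end Pool.Agent.MP_c481b3_nt.H28
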