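import Pool.Agent.MP_c481b3_nt.H28.SpecD

set_option autoImplicit false

namespace Pool.Agent.MP_c481b3_nt.H28.MuE

open Pool.Agent.MP_c481b3_nt.H81

variable {k : Type} [Field k] [DecidableEq k] {A B A' B' : k} {P : Pt A B} {P' : Pt A' B'}

lemma cop {N : ℕ} (hP : P ≠ 0) (h : N • P = 0) {m : ℕ} (c : m.Coprime N) : m • P ≠ 0 := fun e =>
  hP (by
    have := Nat.dvd_gcd (addOrderOf_dvd_of_nsmul_eq_zero e) (addOrderOf_dvd_of_nsmul_eq_zero h)
    rw [c, Nat.dvd_one] at this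
    exact AddMonoid.addOrderOf_eq_one_iff.1 this)

lemma yne (hP : P ≠ 0) (h2 : 2 • P ≠ 0) : yc P ≠ 0 := fun e => h2 (by
  have : P = -P := pt_ext hP (neg_ne_zero.2 hP) (xc_neg P).symm (by rw [yc_neg, e, neg_zero])
  rw [two_nsmul]; exact add_eq_zero_iff_eq_neg.2 this)

omit [DecidableEq k] in
lemma four (hG : Good A B) : (4 : k) ≠ 0 := by
  rw [show (4 : k) = 2 * 2 by norm_num]; exact mul_ne_zero hG.two hG.two

lemma dbl (hG : Good A B) (hP : P ≠ 0) (h2 : 2 • P ≠ 0) :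
    xc (2 • P) = xc P - t2 P ∧ yc (2 • P) = t1 P * t2 P / 2 - yc P := by
  obtain ⟨l, n, h⟩ := col_of_sum hP hP (neg_ne_zero.2 h2) (by rw [two_nsmul]; abel)
  have y := yne hP h2
  have t := hG.two
  have f := four hG
  have hl : t1 P = 2 * l := by
    rw [t1, div_eq_iff y]; linear_combination -h.slope
  have e1 := h.e1
  have e3 := h.h3
  rw [xc_neg] at e1 e3
  rw [yc_neg] at e3
  have a : xc (2 • P) = xc P - t2 P := by
    rw [t2, hl]; field_simp; linear_combination 4 * e1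
  refine ⟨a, ?_⟩
  rw [a] at e3
  rw [hl]; field_simp; linear_combination -e3 + h.h1

lemma t2ne (hG : Good A B) (hP : P ≠ 0) (h2 : 2 • P ≠ 0) (h3 : 3 • P ≠ 0) : t2 P ≠ 0 := fun e => by
  rcases eq_or_neg h2 hP (by rw [(dbl hG hP h2).1, e, sub_zero]) with h | h
  · exact hP (by rwa [two_nsmul, add_eq_left] at h)
  · exact h3 (by rw [succ_nsmul, h, neg_add_cancel])

lemma tri (hG : Good A B) (hP : P ≠ 0) (h2 : 2 • P ≠ 0) (h3 : 3 • P ≠ 0) :
    xc (3 • P) = xc P + (t3 P / t2 P) ^ 2 * (1 - t1 P * t2 P / t3 P) ∧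
      yc (3 • P) = -((t3 P / t2 P - t1 P / 2) * (xc (3 • P) - xc P) + yc P) := by
  obtain ⟨a, b⟩ := dbl hG hP h2
  have z := t2ne hG hP h2 h3
  have y := yne hP h2
  have t := hG.two
  have f := four hG
  obtain ⟨c, d⟩ := pair_add hP h2 (by rw [a]; intro e; exact z (by linear_combination e))
  have m : (yc P - yc (2 • P)) / (xc P - xc (2 • P)) = t3 P / t2 P - t1 P / 2 := by
    rw [a, b, t3, sub_sub_cancel]; field_simp; ring
  rw [m, ← succ_nsmul'] at c d
  refine ⟨?_, d⟩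
  have e : 4 * t2 P = 12 * xc P - t1 P ^ 2 := by rw [t2]; field_simp; ring
  have t3n : t3 P ≠ 0 := mul_ne_zero t y
  rw [c, a]
  field_simp
  linear_combination t2 P ^ 2 * e

lemma cne (hG : Good A B) (hP : P ≠ 0) (h : 7 • P = 0) : 1 - t1 P * t2 P / t3 P ≠ 0 := fun e => by
  have h2 := cop hP h (m := 2) (by norm_num)
  have h3 := cop hP h (m := 3) (by norm_num)
  rcases eq_or_neg h3 hP (by rw [(tri hG hP h2 h3).1, e, mul_zero, add_zero]) with g | g
  · exact h2 (by rwa [succ_nsmul, add_eq_right] at g)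
  · exact cop hP h (m := 4) (by norm_num) (by rw [succ_nsmul, g, neg_add_cancel])

lemma rel3 (hG : Good A B) (hP : P ≠ 0) (h : 3 • P = 0) : t2 P = 0 := by
  have h2 := cop hP h (m := 2) (by norm_num)
  have e : 2 • P = -P := by rw [eq_neg_iff_add_eq_zero, ← succ_nsmul, h]
  have := (dbl hG hP h2).1
  rw [e, xc_neg] at this
  linear_combination this

lemma rel5 (hG : Good A B) (hP : P ≠ 0) (h : 5 • P = 0) :
    t1 P * t2 P / t3 P = 1 + t2 P ^ 3 / t3 P ^ 2 := by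
  have h2 := cop hP h (m := 2) (by norm_num)
  have h3 := cop hP h (m := 3) (by norm_num)
  have e : (3 • P : Pt A B) = -(2 • P : Pt A B) := by
    rw [eq_neg_iff_add_eq_zero, ← add_nsmul, h]
  have a := (tri hG hP h2 h3).1
  rw [e, xc_neg, (dbl hG hP h2).1] at a
  have z := t2ne hG hP h2 h3
  have t3n : t3 P ≠ 0 := mul_ne_zero hG.two (yne hP h2)
  field_simp at a ⊢
  linear_combination a

lemma rel7 (hG : Good A B) (hP : P ≠ 0) (h : 7 • P = 0) :
    (1 - t1 P * t2 P / t3 P) ^ 3 = (t2 P ^ 3 / t3 P ^ 2) ^ 2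
      + t2 P ^ 3 / t3 P ^ 2 * (1 - t1 P * t2 P / t3 P) := by
  have h2 := cop hP h (m := 2) (by norm_num)
  have h3 := cop hP h (m := 3) (by norm_num)
  obtain ⟨l, n, g⟩ := col_of_sum hP h3 h3 (by rw [← h]; abel)
  obtain ⟨a, b⟩ := tri hG hP h2 h3
  have z := t2ne hG hP h2 h3
  have t := hG.two
  have f := four hG
  have t3n : t3 P ≠ 0 := mul_ne_zero t (yne hP h2)
  have e : 4 * t2 P = 12 * xc P - t1 P ^ 2 := by rw [t2]; field_simp; ring
  have e3 : t3 P = 2 * yc P := rfl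
  have s : (yc (3 • P) - yc P) ^ 2 = (xc P + 2 * xc (3 • P)) * (xc (3 • P) - xc P) ^ 2 := by
    rw [g.h2, g.h1]; linear_combination -(xc (3 • P) - xc P) ^ 2 * g.e1
  rw [b, a] at s
  generalize t1 P = a1 at *
  generalize t2 P = a2 at *
  generalize t3 P = a3 at *
  obtain ⟨w, rfl⟩ : ∃ w, a3 = w * a2 := ⟨a3 / a2, by field_simp⟩
  have w0 : w ≠ 0 := left_ne_zero_of_mul t3n
  obtain ⟨c, rfl⟩ : ∃ c, a1 = w * (1 - c) := ⟨1 - a1 / w, by field_simp; ring⟩
  obtain ⟨β, rfl⟩ : ∃ β, a2 = w ^ 2 * β := ⟨a2 / w ^ 2, by field_simp⟩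
  have β0 : β ≠ 0 := right_ne_zero_of_mul z
  have hy : yc P = w ^ 3 * β / 2 := by field_simp; linear_combination -e3
  rw [hy] at s
  have r1 : w * (w ^ 2 * β) / (w ^ 2 * β) = w := by field_simp
  have r2 : 1 - w * (1 - c) * (w ^ 2 * β) / (w * (w ^ 2 * β)) = c := by field_simp; ring
  have r3 : (w ^ 2 * β) ^ 3 / (w * (w ^ 2 * β)) ^ 2 = β := by field_simp
  rw [r1, r2] at s
  rw [r2, r3]
  apply mul_left_cancel₀ (mul_ne_zero f (pow_ne_zero 6 w0))
  field_simp at s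
  linear_combination -s + w ^ 4 * c ^ 2 * e

lemma fin [IsAlgClosed k] (h3 : (3 : k) ≠ 0) (hG : Good A B) (hG' : Good A' B') (hP : P ≠ 0) (hP' : P' ≠ 0)
    (y : yc P ≠ 0) (y' : yc P' ≠ 0) {u : k} (a1 : t1 P = u * t1 P') (a2 : t2 P = u ^ 2 * t2 P')
    (a3 : t3 P = u ^ 3 * t3 P') :
    ∃ u, VD ({0} : Finset (Pt A B)) u A' B' ∧ vm {0} u A' B' P = P' := by
  have t := hG.two
  have f := four hG
  have hy : yc P = u ^ 3 * yc P' := mul_left_cancel₀ t (by
    have : t3 P = 2 * yc P := rfl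
    have : t3 P' = 2 * yc P' := rfl
    grind)
  have u0 : u ≠ 0 := fun e => y (by rw [hy, e]; ring)
  have hx : xc P = u ^ 2 * xc P' := mul_left_cancel₀ h3 (by
    rw [t2, t2, a1] at a2
    linear_combination a2)
  have hA : A = u ^ 4 * A' := by
    have b : yc P * t1 P = 3 * xc P ^ 2 + A := by rw [t1]; field_simp
    have b' : yc P' * t1 P' = 3 * xc P' ^ 2 + A' := by rw [t1]; field_simp
    rw [a1, hx, hy] at b
    linear_combination u ^ 4 * b' - b
  have hB : B = u ^ 6 * B' := by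
    have b := eqn hP
    rw [hx, hy] at b
    linear_combination u ^ 6 * eqn hP' - b - u ^ 2 * xc P' * hA
  have d := vd_unit hG hG' u0 hA hB
  obtain ⟨b1, b2, b3⟩ := vd_unit_spec d hP
  exact ⟨u, d, pt_ext b1 hP' (by rw [b2, hx]; field_simp) (by rw [b3, hy]; field_simp)⟩

lemma fin' [IsAlgClosed k] (h3 : (3 : k) ≠ 0) (hG : Good A B) (hG' : Good A' B') (hP : P ≠ 0) (hP' : P' ≠ 0)
    (y : yc P ≠ 0) (y' : yc P' ≠ 0) (z : t2 P ≠ 0) (z' : t2 P' ≠ 0)
    (b : t2 P ^ 3 / t3 P ^ 2 = t2 P' ^ 3 / t3 P' ^ 2)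
    (c : t1 P * t2 P / t3 P = t1 P' * t2 P' / t3 P') :
    ∃ u, VD ({0} : Finset (Pt A B)) u A' B' ∧ vm {0} u A' B' P = P' := by
  have n : t3 P ≠ 0 := mul_ne_zero hG.two y
  have n' : t3 P' ≠ 0 := mul_ne_zero hG.two y'
  field_simp at b c
  refine fin h3 hG hG' hP hP' y y' (u := t3 P * t2 P' / (t2 P * t3 P')) ?_ ?_ ?_ <;> field_simp
  · linear_combination c
  · linear_combination b
  · linear_combination b

theorem muIso : MuIso := by
  intro k _ _ _ h3 N A B A' B' P P' hN hG hG' hP h hP' h' e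
  have c2 : (2 : ℕ).Coprime N := by rcases hN with rfl | rfl | rfl <;> norm_num
  have y := yne hP (cop hP h c2)
  have y' := yne hP' (cop hP' h' c2)
  have n : t3 P ≠ 0 := mul_ne_zero hG.two y
  have n' : t3 P' ≠ 0 := mul_ne_zero hG.two y'
  rcases hN with rfl | rfl | rfl
  · have e : t1 P ^ 3 / t3 P = t1 P' ^ 3 / t3 P' := by simpa [muN] using e
    field_simp at e
    have z : ∀ u : k, t2 P = u ^ 2 * t2 P' := fun u => by rw [rel3 hG hP h, rel3 hG' hP' h', mul_zero]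
    by_cases a : t1 P' = 0
    · obtain ⟨u, hu⟩ := IsAlgClosed.exists_pow_nat_eq (t3 P / t3 P') (n := 3) (by norm_num)
      refine fin h3 hG hG' hP hP' y y' (u := u) ?_ (z u) (by rw [hu]; field_simp)
      rw [a] at e ⊢
      simpa [n'] using e
    · refine fin h3 hG hG' hP hP' y y' (u := t1 P / t1 P') (by field_simp) (z _) ?_
      field_simp
      linear_combination -e
  · have e : t2 P ^ 3 / t3 P ^ 2 = t2 P' ^ 3 / t3 P' ^ 2 := by simpa [muN] using e
    exact fin' h3 hG hG' hP hP' y y' (t2ne hG hP (cop hP h c2) (cop hP h (by norm_num)))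
      (t2ne hG' hP' (cop hP' h' c2) (cop hP' h' (by norm_num))) e
      (by rw [rel5 hG hP h, rel5 hG' hP' h', e])
  · have e : t2 P ^ 3 / t3 P ^ 2 / (1 - t1 P * t2 P / t3 P)
        = t2 P' ^ 3 / t3 P' ^ 2 / (1 - t1 P' * t2 P' / t3 P') := by simpa [muN] using e
    have key : ∀ b c : k, c ≠ 0 → c ^ 3 = b ^ 2 + b * c → c = (b / c) ^ 2 + b / c := by
      intro b c c0 r
      field_simp
      linear_combination r
    have c1 := key _ _ (cne hG hP h) (rel7 hG hP h)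
    have c1' := key _ _ (cne hG' hP' h') (rel7 hG' hP' h')
    have c : 1 - t1 P * t2 P / t3 P = 1 - t1 P' * t2 P' / t3 P' := by rw [c1, c1', e]
    rw [c, div_left_inj' (cne hG' hP' h')] at e
    exact fin' h3 hG hG' hP hP' y y' (t2ne hG hP (cop hP h c2) (cop hP h (by norm_num)))
      (t2ne hG' hP' (cop hP' h' c2) (cop hP' h' (by norm_num))) e (by linear_combination -c)

theorem muRed : MuRed := by
  intro L κ _ _ _ _ π N A B A' B' r P hN hP h
  have c2 : (2 : ℕ).Coprime N := by rcases hN with rfl | rfl | rfl <;> norm_num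
  have y := yne hP (cop hP h c2)
  have n : t3 (r.red P) ≠ 0 := mul_ne_zero r.good.two y
  have e1 : Ev π (t1 P) (t1 (r.red P)) :=
    (((Ev.ofNat π 3).mul ((ev_xc r hP).pow 2)).add (rdA r)).div (ev_yc r hP) y
  have e2 : Ev π (t2 P) (t2 (r.red P)) :=
    ((Ev.ofNat π 3).mul (ev_xc r hP)).sub ((e1.pow 2).div (Ev.ofNat π 4) (four r.good))
  have e3 : Ev π (t3 P) (t3 (r.red P)) := (Ev.ofNat π 2).mul (ev_yc r hP)
  have e4 := (e2.pow 3).div (e3.pow 2) (pow_ne_zero 2 n)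
  rcases hN with rfl | rfl | rfl
  · simpa [muN] using (e1.pow 3).div e3 n
  · simpa [muN] using e4
  · simpa [muN] using e4.div ((Ev.one π).sub ((e1.mul e2).div e3 n)) (cne r.good hP h)

end Pool.Agent.MP_c481b3_nt.H28.MuE
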