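import Pool.Agent.MP_c481b3_nt.H28.InertC
import Pool.Agent.MP_c481b3_nt.H28.Wq
import Pool.Agent.MP_c481b3_nt.H28.Gam

set_option autoImplicit false

namespace Pool.Agent.MP_c481b3_nt.H28

open Pool.Agent.MP_c481b3_nt.H81 NumberField IsDedekindDomain IntermediateField WqAux

namespace NTC

variable {L : Type} [Field L] {O : ValuationSubring L}

lemma v_cop {p m : ℕ} (hp : p.Prime) (h : O.valuation (p : L) < 1) (hm : ¬p ∣ m) :
    O.valuation (m : L) = 1 := by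
  refine (v_nat O m).eq_or_lt.resolve_right fun h' => ?_
  have hn : ¬(p : ℤ) ∣ (m : ℤ) := by exact_mod_cast hm
  obtain ⟨u, w, huw⟩ := (Nat.prime_iff_prime_int.1 hp).irreducible.coprime_iff_not_dvd.2 hn
  have e : (1 : L) = u * p + w * m := by exact_mod_cast congrArg (Int.cast : ℤ → L) huw.symm
  have : O.valuation (1 : L) < 1 := by
    rw [e]
    refine Valuation.map_add_lt _ ?_ ?_ <;> rw [map_mul]
    · exact lt1 (v_int O u) h
    · exact lt1 (v_int O w) h'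
  simp at this

lemma v_natpow {p n : ℕ} (hp : p.Prime) (h : O.valuation (p : L) < 1) (hn : n ≠ 0) :
    ∃ k : ℕ, O.valuation (n : L) = O.valuation (p : L) ^ k := by
  obtain ⟨e, m, hm, rfl⟩ := Nat.exists_eq_pow_mul_and_not_dvd hn p hp.ne_one
  exact ⟨e, by rw [Nat.cast_mul, map_mul, v_cop hp h hm, mul_one, Nat.cast_pow, map_pow]⟩

lemma v_abs (O : ValuationSubring L) (a : ℤ) :
    O.valuation (a : L) = O.valuation (a.natAbs : L) := by
  rcases Int.natAbs_eq a with h | h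
  · conv_lhs => rw [h, Int.cast_natCast]
  · conv_lhs => rw [h, Int.cast_neg, Int.cast_natCast, Valuation.map_neg]

variable [CharZero L]

lemma v_rat {p : ℕ} (hp : p.Prime) (h : O.valuation (p : L) < 1) {x : ℚ} (hx : x ≠ 0) :
    ∃ k : ℤ, O.valuation (x : L) = O.valuation (p : L) ^ k := by
  obtain ⟨i, hi⟩ := v_natpow hp h (Int.natAbs_ne_zero.2 (Rat.num_ne_zero.2 hx))
  obtain ⟨j, hj⟩ := v_natpow hp h x.den_ne_zero
  have p0 : O.valuation (p : L) ≠ 0 := by simpa using hp.ne_zero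
  exact ⟨i - j, by rw [Rat.cast_def, map_div₀, v_abs, hi, hj, zpow_sub₀ p0, zpow_natCast,
    zpow_natCast]⟩

lemma v_quad {y : L} {t n : ℚ} (hy : y ≠ 0) (hn : n ≠ 0) (e : y ^ 2 + n = t * y) :
    ∃ x : ℚ, x ≠ 0 ∧ O.valuation y ^ 2 = O.valuation (x : L) := by
  have y0 : O.valuation y ≠ 0 := by simpa using hy
  have n0 : O.valuation (n : L) ≠ 0 := by simpa using hn
  rcases lt_trichotomy (O.valuation (y ^ 2)) (O.valuation (n : L)) with h | h | h
  · have h1 := Valuation.map_add_eq_of_lt_right _ h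
    rw [e, map_mul] at h1
    have t0 : O.valuation (t : L) ≠ 0 := left_ne_zero_of_mul (h1 ▸ n0)
    have t1 : t ≠ 0 := by simpa using t0
    refine ⟨(n / t) ^ 2, pow_ne_zero _ (div_ne_zero hn t1), ?_⟩
    rw [Rat.cast_pow, Rat.cast_div, map_pow, map_div₀, ← h1, mul_div_cancel_left₀ _ t0]
  · exact ⟨n, hn, by rw [← h, map_pow]⟩
  · have h1 := Valuation.map_add_eq_of_lt_left _ h
    rw [e, map_mul, map_pow, sq] at h1
    have h2 := mul_right_cancel₀ y0 h1
    have t1 : t ≠ 0 := by simpa using (h2 ▸ y0 : O.valuation (t : L) ≠ 0)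
    exact ⟨t ^ 2, pow_ne_zero _ t1, by rw [Rat.cast_pow, map_pow, h2]⟩

lemma nm_ne {D : ℕ} (hD : 0 < D) {a b : ℚ} (h : ¬(a = 0 ∧ b = 0)) : a ^ 2 + D * b ^ 2 ≠ 0 := by
  intro h0
  have hl : (0 : ℚ) < D := by exact_mod_cast hD
  have hb : b = 0 := by
    by_contra hb
    have : 0 < (D : ℚ) * b ^ 2 := by positivity
    nlinarith [sq_nonneg a]
  exact h ⟨by simpa [hb] using h0, hb⟩

lemma v_lin_sq {D p : ℕ} {s : L} (hD : 0 < D) (hs : s ^ 2 = -D) (hp : p.Prime)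
    (h : O.valuation (p : L) < 1) {a b : ℚ} (h0 : (a : L) + b * s ≠ 0) :
    ∃ k : ℤ, O.valuation ((a : L) + b * s) ^ 2 = O.valuation (p : L) ^ k := by
  obtain ⟨x, x0, hx⟩ := v_quad (O := O) (t := 2 * a) h0
    (nm_ne hD (a := a) (b := b) fun h => h0 (by simp [h.1, h.2]))
    (by push_cast; linear_combination (b : L) ^ 2 * hs)
  obtain ⟨k, hk⟩ := v_rat hp h x0
  exact ⟨k, hx.trans hk⟩

lemma conj_ne {D : ℕ} {s : L} (hD : 0 < D) (hs : s ^ 2 = -D) {a b : ℚ}
    (h0 : (a : L) - b * s ≠ 0) : (a : L) + b * s ≠ 0 := by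
  have h1 := nm_ne hD (a := a) (b := b) fun h => h0 (by simp [h.1, h.2])
  have e : ((a : L) + b * s) * (a - b * s) = ((a ^ 2 + D * b ^ 2 : ℚ) : L) := by
    push_cast; linear_combination (-(b : L) ^ 2) * hs
  exact left_ne_zero_of_mul (e ▸ Rat.cast_ne_zero.2 h1)

lemma inert_int {q D : ℕ} {s : L} (H : Inert O q D s) : ∀ (n : ℕ) (a b : ℤ),
    a.natAbs + b.natAbs = n → (a : L) - b * s ≠ 0 →
    O.valuation (((a : L) + b * s) / (a - b * s)) = 1 := by
  intro n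
  induction n using Nat.strong_induction_on with
  | _ n ih =>
    intro a b hn h0
    by_cases h : (q : ℤ) ∣ a ∧ (q : ℤ) ∣ b
    · obtain ⟨⟨a', rfl⟩, ⟨b', rfl⟩⟩ := h
      have q0 : (q : L) ≠ 0 := Nat.cast_ne_zero.2 H.prime.ne_zero
      have e1 : ((q * a' : ℤ) : L) - (q * b' : ℤ) * s = q * (a' - b' * s) := by push_cast; ring
      have e2 : ((q * a' : ℤ) : L) + (q * b' : ℤ) * s = q * (a' + b' * s) := by push_cast; ring
      rw [e1] at h0
      rw [e1, e2, mul_div_mul_left _ _ q0]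
      refine ih _ ?_ a' b' rfl (right_ne_zero_of_mul h0)
      have h1 : 0 < a'.natAbs + b'.natAbs := by
        by_contra h2
        have ha : a' = 0 := by omega
        have hb : b' = 0 := by omega
        simp [ha, hb] at h0
      rw [← hn, Int.natAbs_mul, Int.natAbs_mul, Int.natAbs_natCast, ← mul_add]
      exact lt_mul_of_one_lt_left h1 H.prime.one_lt
    · have h1 : O.valuation ((a : L) + b * s) = 1 :=
        (v_lin H a b).eq_or_lt.resolve_right fun h' => h (dvd_lin H h')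
      have h2 : O.valuation ((a : L) + (-b : ℤ) * s) = 1 :=
        (v_lin H a (-b)).eq_or_lt.resolve_right fun h' =>
          h ⟨(dvd_lin H h').1, (dvd_neg).1 (dvd_lin H h').2⟩
      rw [Int.cast_neg, neg_mul, ← sub_eq_add_neg] at h2
      rw [map_div₀, h1, h2, div_one]

lemma inert_rat {q D : ℕ} {s : L} (H : Inert O q D s) {a b : ℚ} (h0 : (a : L) - b * s ≠ 0) :
    O.valuation (((a : L) + b * s) / (a - b * s)) = 1 := by
  have h1 : (a.den : L) ≠ 0 := Nat.cast_ne_zero.2 a.den_ne_zero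
  have h2 : (b.den : L) ≠ 0 := Nat.cast_ne_zero.2 b.den_ne_zero
  have e1 : ((a.num * b.den : ℤ) : L) - (b.num * a.den : ℤ) * s =
      (a.den * b.den) * (a - b * s) := by
    rw [Rat.cast_def, Rat.cast_def]; push_cast; field_simp
  have e2 : ((a.num * b.den : ℤ) : L) + (b.num * a.den : ℤ) * s =
      (a.den * b.den) * (a + b * s) := by
    rw [Rat.cast_def, Rat.cast_def]; push_cast; field_simp
  have := inert_int H _ (a.num * b.den) (b.num * a.den) rfl
    (e1 ▸ mul_ne_zero (mul_ne_zero h1 h2) h0)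
  rwa [e1, e2, mul_div_mul_left _ _ (mul_ne_zero h1 h2)] at this

lemma frob_unit {q D : ℕ} {s : L} (H : Inert O q D s) {a b : ℚ}
    (h : O.valuation ((a : L) + b * s) = 1) :
    O.valuation (((a : L) + b * s) ^ (q ^ 2 - 1) - 1) < 1 :=
  (w_frob H (w_rat H a b ((O.valuation_le_one_iff _).1 h.le)) h).trans_lt H.lt

omit [CharZero L] in
lemma res_arg {x y d : L} {N n r m : ℕ} (hy : y ≠ 0) (hd : d ≠ 0) (e : x = y * d ^ r)
    (hN : N = r * n) (c : r.Coprime m) (h1 : O.valuation (x ^ m - 1) < 1)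
    (h2 : O.valuation (y ^ N - 1) < 1) (h3 : O.valuation (d ^ N - 1) < 1) :
    O.valuation (y ^ n - 1) < 1 := by
  set Y := Units.mk0 y hy with hY
  set E := Units.mk0 d hd with hE
  set π := QuotientGroup.mk' O.principalUnitGroup with hπ
  have k : ∀ u : Lˣ, π u = 1 ↔ O.valuation ((u : L) - 1) < 1 := fun u => by
    rw [hπ, QuotientGroup.mk'_apply, QuotientGroup.eq_one_iff,
      ValuationSubring.mem_principalUnitGroup_iff]
  have a1 : π ((Y * E ^ r) ^ m) = 1 := (k _).2 (by simpa [hY, hE, ← e] using h1)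
  have a2 : π (Y ^ N) = 1 := (k _).2 (by simpa [hY] using h2)
  have a3 : π (E ^ N) = 1 := (k _).2 (by simpa [hE] using h3)
  have a4 : π (Y ^ n) = 1 := by
    have b1 : π (Y ^ n) ^ r = 1 := by rw [← map_pow, ← pow_mul, mul_comm, ← hN, a2]
    have b2 : π (Y ^ n) ^ m = 1 := by
      have e5 : (Y ^ n) ^ m * (E ^ N) ^ m = ((Y * E ^ r) ^ m) ^ n := by
        rw [hN, ← mul_pow, pow_mul, ← mul_pow, pow_right_comm]
      have := congrArg π e5
      rwa [map_mul, map_pow, map_pow π (E ^ N), map_pow π (_ ^ m) n, a1, a3, one_pow, one_pow,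
        mul_one] at this
    have := pow_gcd_eq_one.2 ⟨b1, b2⟩
    rwa [c, pow_one] at this
  simpa [hY] using (k _).1 a4

lemma exists_above {K : Type} [Field K] [NumberField K] (ι : K →+* L)
    (v : HeightOneSpectrum (𝓞 K)) : ∃ (O : ValuationSubring L) (p : ℕ), p.Prime ∧
      (p : 𝓞 K) ∈ v.asIdeal ∧ O.valuation (p : L) < 1 ∧
      ∀ z : K, O.valuation (ι z) = 1 → v.valuation K z = 1 := by
  obtain ⟨O, h1, h2⟩ := exists_val (ι.comp (algebraMap (𝓞 K) K))
    (ι.injective.comp RingOfIntegers.coe_injective) v.asIdeal v.isMaximal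
  have h3 : ∀ x : 𝓞 K, O.valuation (ι (algebraMap (𝓞 K) K x)) = 1 ↔ x ∉ v.asIdeal := fun x => by
    rw [← h2 x, not_lt]
    exact ⟨fun h => h.ge, fun h => le_antisymm ((O.valuation_le_one_iff _).2 (h1 x)) h⟩
  have := v.isMaximal
  obtain ⟨p, -, -, hp', hp, -⟩ := Ideal.exists_prime_and_absNorm_eq_pow v.asIdeal
  refine ⟨O, p, hp, hp', by simpa using (h2 p).2 hp', fun z hz => ?_⟩
  obtain ⟨n, d, h | h⟩ := v.exists_primeCompl_mul_eq_or_mul_eq (K := K) z
  · have b1 := congrArg (fun t => O.valuation (ι t)) h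
    simp only [map_mul, hz, one_mul, (h3 d).2 d.2] at b1
    have b2 := congrArg (v.valuation K) h
    rwa [map_mul, (v.valuation_eq_one_iff_notMem (K := K) (r := d)).2 d.2, mul_one,
      (v.valuation_eq_one_iff_notMem (K := K) (r := n)).2 ((h3 n).1 b1.symm)] at b2
  · have b1 := congrArg (fun t => O.valuation (ι t)) h
    simp only [map_mul, hz, one_mul, (h3 d).2 d.2] at b1
    have b2 := congrArg (v.valuation K) h
    rwa [map_mul, (v.valuation_eq_one_iff_notMem (K := K) (r := d)).2 d.2,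
      (v.valuation_eq_one_iff_notMem (K := K) (r := n)).2 ((h3 n).1 b1), mul_one] at b2

end NTC

open NTC

theorem ntMain_of (hK : KumK) (hS : SFin) : NTMain := by
  intro L _ _ _ _ D l M p₀ s w O₀ γ W hD hs hl hW hp₀ hv₀ hγ hw hwγ hsp hin
  classical
  have D0 : 0 < D := by omega
  have hint : IsIntegral ℚ s := (Algebra.IsAlgebraic.isAlgebraic s).isIntegral
  have : FiniteDimensional ℚ ℚ⟮s⟯ := adjoin.finiteDimensional hint
  have : NumberField ℚ⟮s⟯ := NumberField.mk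
  have hs' : s ∈ ℚ⟮s⟯ := mem_adjoin_simple_self ℚ s
  have hq : ∀ a : ℚ, (a : L) ∈ ℚ⟮s⟯ := fun a => SubfieldClass.ratCast_mem _ a
  have wm : ∀ T, w T ∈ ℚ⟮s⟯ := fun T => by
    obtain ⟨a, b, -, e⟩ := hw T
    rw [e]
    exact div_mem (add_mem (hq a) (mul_mem (hq b) hs')) (sub_mem (hq a) (mul_mem (hq b) hs'))
  have w0 : ∀ T, w T ≠ 0 := fun T => by
    obtain ⟨a, b, h, e⟩ := hw T
    rw [e]
    exact div_ne_zero (conj_ne D0 hs h) h
  have wi : ∀ (T q : ℕ) (O : ValuationSubring L), Inert O q D s → O.valuation (w T) = 1 :=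
    fun T q O H => by
      obtain ⟨a, b, h, e⟩ := hw T
      rw [e]
      exact inert_rat H h
  obtain ⟨k, hk⟩ : ∃ k : ℤ, γ ^ 2 = O₀.valuation (p₀ : L) ^ k := by
    obtain ⟨a, b, e⟩ := gam_one D D0 s hs _ (wm 1)
    rw [← hwγ 1 one_ne_zero, e]
    exact v_lin_sq D0 hs hp₀ hv₀ (e ▸ w0 1)
  obtain ⟨r, hr, rp⟩ := Nat.exists_infinite_primes (4 * D + l + k.natAbs + 1)
  have nopow : ∀ T, T ≠ 0 → ∀ c d : ℚ, ((c : L) + d * s) ^ r ≠ w T := fun T hT c d e => by
    have h0 : (c : L) + d * s ≠ 0 := fun h => w0 T (by rw [← e, h, zero_pow rp.ne_zero])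
    obtain ⟨j, hj⟩ := v_lin_sq D0 hs hp₀ hv₀ h0
    have p0 : 0 < O₀.valuation (p₀ : L) := zero_lt_iff.2 (by simpa using hp₀.ne_zero)
    have h1 : O₀.valuation (p₀ : L) ^ k = O₀.valuation (p₀ : L) ^ (j * r) := by
      rw [← hk, ← hwγ T hT, ← e, map_pow, pow_right_comm, hj, zpow_mul, zpow_natCast]
    have h2 : k = j * r := zpow_right_injective₀ p0 hv₀.ne h1
    have h3 : k = 0 := Int.eq_zero_of_dvd_of_natAbs_lt_natAbs (d := r) ⟨j, by rw [h2]; ring⟩
      (by rw [Int.natAbs_natCast]; omega)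
    rw [h3, zpow_zero] at hk
    exact hγ ((pow_eq_one_iff.1 hk).resolve_right two_ne_zero)
  have fin : {v : HeightOneSpectrum (𝓞 ℚ⟮s⟯) | (((M + 2).factorial : ℕ) : 𝓞 ℚ⟮s⟯) ∈
      v.asIdeal}.Finite := by
    have := Ideal.finite_factors (I := Ideal.span {(((M + 2).factorial : ℕ) : 𝓞 ℚ⟮s⟯)})
      (by simpa using (M + 2).factorial_ne_zero)
    simpa [Ideal.dvd_span_singleton] using this
  obtain ⟨F, hF⟩ := hS ℚ⟮s⟯ _ fin r rp.ne_zero
  have cls : ∀ T, ∃ α ∈ F, ∃ δ : ℚ⟮s⟯, w T = α * δ ^ r := fun T => by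
    obtain ⟨α, h1, δ, h2⟩ := hF ⟨w T, wm T⟩ (fun h => w0 T (congrArg Subtype.val h)) fun v hv => by
      obtain ⟨O, p, hp, h3, h4, h5⟩ := exists_above (algebraMap ℚ⟮s⟯ L) v
      have h6 : M + 2 < p := by
        by_contra h6
        obtain ⟨c, hc⟩ := (hp.dvd_factorial).2 (not_lt.1 h6)
        exact hv (by
          change _ ∈ v.asIdeal
          rw [hc, Nat.cast_mul]
          exact v.asIdeal.mul_mem_right _ h3)
      refine h5 _ ?_
      by_cases h7 : IsSquare (-(D : ZMod p))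
      · exact hsp T p O hp (by omega) h7 h4
      · exact wi T p O ⟨hp, by omega, h7, hs, h4⟩
    exact ⟨α, h1, δ, by simpa using congrArg Subtype.val h2⟩
  have step : ∀ α : ℚ⟮s⟯, ∃ P : ℕ, P ≠ 0 ∧ ∀ t, P * t ≠ 0 → ∀ δ : ℚ⟮s⟯,
      w (P * t) ≠ α * δ ^ r := fun α => by
    by_cases h : ∃ T, T ≠ 0 ∧ ∃ δ : ℚ⟮s⟯, w T = α * δ ^ r
    swap
    · exact ⟨1, one_ne_zero, fun t ht δ e => h ⟨_, ht, δ, e⟩⟩
    obtain ⟨T, hT, δ₀, e₀⟩ := h
    obtain ⟨a, b, h1, h2⟩ := hw T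
    obtain ⟨q, q1, q2, q3, q4, q5, q6⟩ := hK L D r s a b hD hs rp (by omega) h1
      (h2 ▸ nopow T hT) W hW
    obtain ⟨O, hO, e, P, P0, hP⟩ := hin q q1 q2 q3 q4
    refine ⟨P, P0, fun t _ δ e₁ => q6 O hO ?_⟩
    have H : Inert O q D s := ⟨q1, by omega, q4, hs, hO⟩
    have d0 : (δ₀ : L) ≠ 0 := fun h => w0 T (by rw [e₀, h, zero_pow rp.ne_zero, mul_zero])
    have d1 : (δ : L) ≠ 0 := fun h => w0 (P * t) (by rw [e₁, h, zero_pow rp.ne_zero, mul_zero])
    have e₂ : w (P * t) = w T * ((δ : L) / δ₀) ^ r := by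
      rw [e₀, e₁, div_pow]; field_simp
    have u : O.valuation ((δ : L) / δ₀) = 1 := by
      have := congrArg O.valuation e₂
      rw [map_mul, wi _ _ _ H, wi _ _ _ H, one_mul, map_pow] at this
      exact (pow_eq_one_iff.1 this.symm).resolve_right rp.ne_zero
    obtain ⟨c, d, e₃⟩ := gam_one D D0 s hs _ (div_mem δ.2 δ₀.2)
    obtain ⟨c', d', e₄⟩ := gam_one D D0 s hs _ (wm T)
    rw [← h2]
    refine res_arg (N := q ^ 2 - 1) (m := l ^ e) (w0 T) (div_ne_zero d1 d0) e₂ ?_ ?_ (hP t) ?_ ?_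
    · refine (Nat.mul_div_cancel' (q5.trans ⟨q - 1, ?_⟩)).symm
      rw [← Nat.sq_sub_sq, one_pow]
    · exact ((Nat.Prime.coprime_iff_not_dvd rp).2 fun h =>
        absurd (Nat.le_of_dvd (Nat.pos_of_ne_zero hl) h) (by omega)).pow_right e
    · rw [e₄]; exact frob_unit H (e₄ ▸ wi T q O H)
    · rw [e₃]; exact frob_unit H (e₃ ▸ u)
  choose P P0 hP using step
  obtain ⟨α, hα, δ, e⟩ := cls (∏ x ∈ F, P x)
  have h0 : ∏ x ∈ F, P x ≠ 0 := Finset.prod_ne_zero_iff.2 fun x _ => P0 x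
  rw [← Finset.mul_prod_erase F P hα] at e h0
  exact hP α _ h0 δ e

end Pool.Agent.MP_c481b3_nt.H28
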