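import Pool.Agent.MP_c481b3_nt.H28.SpecD
import Pool.Agent.MP_c481b3_nt.H28.NTC

set_option autoImplicit false

namespace Pool.Agent.MP_c481b3_nt.H28

open Pool.Agent.MP_c481b3_nt.H81 NumberField IsDedekindDomain IntermediateField WqAux NTC

theorem ntMain2_of (hK : KumK2) (hS : SFin) : NTMain2 := by
  intro L _ _ _ _ D l M p₀ s w O₀ γ U τ hD hs hτ hU hl hp₀ hv₀ hγ hw hwγ hsp hin
  classical
  have D0 : 0 < D := Nat.pos_of_ne_zero hD
  have hint : IsIntegral ℚ s := (Algebra.IsAlgebraic.isAlgebraic s).isIntegral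
  have : FiniteDimensional ℚ ℚ⟮s⟯ := adjoin.finiteDimensional hint
  have : NumberField ℚ⟮s⟯ := NumberField.mk
  have hs' : s ∈ ℚ⟮s⟯ := mem_adjoin_simple_self ℚ s
  have hq : ∀ a : ℚ, (a : L) ∈ ℚ⟮s⟯ := fun a => SubfieldClass.ratCast_mem _ a
  have wm : ∀ T, w T ∈ ℚ⟮s⟯ := fun T => by
    obtain ⟨a, b, -, e⟩ := hw T
    rw [e]
    exact div_mem (add_mem (hq a) (mul_mem (hq b) hs')) (sub_mem (hq a) (mul_mem (hq b) hs'))
  have w0 : ∀ T, w T ≠ 0 := fun T => by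
    obtain ⟨a, b, h, e⟩ := hw T
    rw [e]
    exact div_ne_zero (conj_ne D0 hs h) h
  have wi : ∀ (T q : ℕ) (O : ValuationSubring L), Inert O q D s → O.valuation (w T) = 1 :=
    fun T q O H => by
      obtain ⟨a, b, h, e⟩ := hw T
      rw [e]
      exact inert_rat H h
  obtain ⟨k, hk⟩ : ∃ k : ℤ, γ ^ 2 = O₀.valuation (p₀ : L) ^ k := by
    obtain ⟨a, b, e⟩ := gam_one D D0 s hs _ (wm 1)
    rw [← hwγ 1 one_ne_zero, e]
    exact v_lin_sq D0 hs hp₀ hv₀ (e ▸ w0 1)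
  obtain ⟨r, rp, hr, hK⟩ := hK L D s U τ hD hs hτ hU (l + k.natAbs)
  have nopow : ∀ T, T ≠ 0 → ∀ c d : ℚ, ((c : L) + d * s) ^ r ≠ w T := fun T hT c d e => by
    have h0 : (c : L) + d * s ≠ 0 := fun h => w0 T (by rw [← e, h, zero_pow rp.ne_zero])
    obtain ⟨j, hj⟩ := v_lin_sq D0 hs hp₀ hv₀ h0
    have p0 : 0 < O₀.valuation (p₀ : L) := zero_lt_iff.2 (by simpa using hp₀.ne_zero)
    have h1 : O₀.valuation (p₀ : L) ^ k = O₀.valuation (p₀ : L) ^ (j * r) := by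
      rw [← hk, ← hwγ T hT, ← e, map_pow, pow_right_comm, hj, zpow_mul, zpow_natCast]
    have h2 : k = j * r := zpow_right_injective₀ p0 hv₀.ne h1
    have h3 : k = 0 := Int.eq_zero_of_dvd_of_natAbs_lt_natAbs (d := r) ⟨j, by rw [h2]; ring⟩
      (by rw [Int.natAbs_natCast]; omega)
    rw [h3, zpow_zero] at hk
    exact hγ ((pow_eq_one_iff.1 hk).resolve_right two_ne_zero)
  have fin : {v : HeightOneSpectrum (𝓞 ℚ⟮s⟯) | (((M + 2).factorial : ℕ) : 𝓞 ℚ⟮s⟯) ∈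
      v.asIdeal}.Finite := by
    have := Ideal.finite_factors (I := Ideal.span {(((M + 2).factorial : ℕ) : 𝓞 ℚ⟮s⟯)})
      (by simpa using (M + 2).factorial_ne_zero)
    simpa [Ideal.dvd_span_singleton] using this
  obtain ⟨F, hF⟩ := hS ℚ⟮s⟯ _ fin r rp.ne_zero
  have cls : ∀ T, ∃ α ∈ F, ∃ δ : ℚ⟮s⟯, w T = α * δ ^ r := fun T => by
    obtain ⟨α, h1, δ, h2⟩ := hF ⟨w T, wm T⟩ (fun h => w0 T (congrArg Subtype.val h)) fun v hv => by
      obtain ⟨O, p, hp, h3, h4, h5⟩ := exists_above (algebraMap ℚ⟮s⟯ L) v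
      have h6 : M + 2 < p := by
        by_contra h6
        obtain ⟨c, hc⟩ := (hp.dvd_factorial).2 (not_lt.1 h6)
        exact hv (by
          change _ ∈ v.asIdeal
          rw [hc, Nat.cast_mul]
          exact v.asIdeal.mul_mem_right _ h3)
      refine h5 _ ?_
      by_cases h7 : IsSquare (-(D : ZMod p))
      · exact hsp T p O hp (by omega) h7 h4
      · exact wi T p O ⟨hp, by omega, h7, hs, h4⟩
    exact ⟨α, h1, δ, by simpa using congrArg Subtype.val h2⟩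
  have step : ∀ α : ℚ⟮s⟯, ∃ P : ℕ, P ≠ 0 ∧ ∀ t, P * t ≠ 0 → ∀ δ : ℚ⟮s⟯,
      w (P * t) ≠ α * δ ^ r := fun α => by
    by_cases h : ∃ T, T ≠ 0 ∧ ∃ δ : ℚ⟮s⟯, w T = α * δ ^ r
    swap
    · exact ⟨1, one_ne_zero, fun t ht δ e => h ⟨_, ht, δ, e⟩⟩
    obtain ⟨T, hT, δ₀, e₀⟩ := h
    obtain ⟨a, b, h1, h2⟩ := hw T
    obtain ⟨q, q1, q2, q4, q5, O, hO, hF, q6⟩ := hK a b h1 (h2 ▸ nopow T hT) (M + 2)
    obtain ⟨e, P, P0, hP⟩ := hin q O q1 (by omega) q4 hO hF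
    refine ⟨P, P0, fun t _ δ e₁ => q6 ?_⟩
    have H : Inert O q D s := ⟨q1, by omega, q4, hs, hO⟩
    have d0 : (δ₀ : L) ≠ 0 := fun h => w0 T (by rw [e₀, h, zero_pow rp.ne_zero, mul_zero])
    have d1 : (δ : L) ≠ 0 := fun h => w0 (P * t) (by rw [e₁, h, zero_pow rp.ne_zero, mul_zero])
    have e₂ : w (P * t) = w T * ((δ : L) / δ₀) ^ r := by
      rw [e₀, e₁, div_pow]; field_simp
    have u : O.valuation ((δ : L) / δ₀) = 1 := by
      have := congrArg O.valuation e₂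
      rw [map_mul, wi _ _ _ H, wi _ _ _ H, one_mul, map_pow] at this
      exact (pow_eq_one_iff.1 this.symm).resolve_right rp.ne_zero
    obtain ⟨c, d, e₃⟩ := gam_one D D0 s hs _ (div_mem δ.2 δ₀.2)
    obtain ⟨c', d', e₄⟩ := gam_one D D0 s hs _ (wm T)
    rw [← h2]
    refine res_arg (N := q ^ 2 - 1) (m := l ^ e) (w0 T) (div_ne_zero d1 d0) e₂ ?_ ?_ (hP t) ?_ ?_
    · refine (Nat.mul_div_cancel' (q5.trans ⟨q - 1, ?_⟩)).symm
      rw [← Nat.sq_sub_sq, one_pow]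
    · exact ((Nat.Prime.coprime_iff_not_dvd rp).2 fun h =>
        absurd (Nat.le_of_dvd (Nat.pos_of_ne_zero hl) h) (by omega)).pow_right e
    · rw [e₄]; exact frob_unit H (e₄ ▸ wi T q O H)
    · rw [e₃]; exact frob_unit H (e₃ ▸ u)
  choose P P0 hP using step
  obtain ⟨α, hα, δ, e⟩ := cls (∏ x ∈ F, P x)
  have h0 : ∏ x ∈ F, P x ≠ 0 := Finset.prod_ne_zero_iff.2 fun x _ => P0 x
  rw [← Finset.mul_prod_erase F P hα] at e h0
  exact hP α _ h0 δ e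

end Pool.Agent.MP_c481b3_nt.H28
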