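import Pool.Agent.MP_c481b3_nt.H28.InertC
import Pool.Agent.MP_c481b3_nt.H28.Gam

set_option autoImplicit false

namespace Pool.Agent.MP_c481b3_nt.H28

open IntermediateField Polynomial

lemma normC_rep {G : Type} [Group G] (H : Subgroup G) [Finite (G ⧸ H)] :
    ∃ (n : ℕ) (θ : Fin (n + 1) → G), θ 0 = 1 ∧
      ∀ g : G, ∃ e : Fin (n + 1) ≃ Fin (n + 1), ∀ i, ∃ h ∈ H, g * θ i = θ (e i) * h := by
  classical
  obtain ⟨n, hn⟩ : ∃ n, Nat.card (G ⧸ H) = n + 1 := ⟨_, (Nat.succ_pred_eq_of_pos Nat.card_pos).symm⟩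
  let e₀ : G ⧸ H ≃ Fin (n + 1) := Finite.equivFinOfCardEq hn
  let e : G ⧸ H ≃ Fin (n + 1) := e₀.trans (Equiv.swap (e₀ (1 : G)) 0)
  have h0 : e.symm 0 = (1 : G) := by
    rw [Equiv.symm_apply_eq]
    simp [e]
  let θ : Fin (n + 1) → G := fun i => if i = 0 then 1 else (e.symm i).out
  have hθ : ∀ i, (θ i : G ⧸ H) = e.symm i := fun i => by
    by_cases hi : i = 0
    · simp [θ, hi, h0]
    · simp [θ, hi]
  refine ⟨n, θ, by simp [θ], fun g => ⟨e.symm.trans ((MulAction.toPerm g).trans e), fun i => ?_⟩⟩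
  refine ⟨(θ (e (g • e.symm i)))⁻¹ * (g * θ i), QuotientGroup.eq.1 ?_, by simp⟩
  rw [hθ, e.symm_apply_apply, ← hθ]
  rfl

theorem normSpec : NormSpec := by
  intro L _ _ _ _ D s hD hs T
  have hD' := Nat.pos_of_ne_zero hD
  have : IsAlgClosure ℚ L := ⟨inferInstance, inferInstance⟩
  have : IsGalois ℚ L := {}
  constructor
  · have hirr : Irreducible (X ^ 2 - C (-(D : ℚ))) := by
      apply X_pow_sub_C_irreducible_of_prime Nat.prime_two
      intro b hb
      have hl' : (0 : ℚ) < D := by exact_mod_cast hD'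
      nlinarith [sq_nonneg b]
    have hmin : X ^ 2 - C (-(D : ℚ)) = minpoly ℚ (-s) := by
      apply minpoly.eq_of_irreducible_of_monic hirr
      · simp [hs]
      · exact monic_X_pow_sub_C _ two_ne_zero
    obtain ⟨τ, hτ⟩ := minpoly.exists_algEquiv_of_root (K := ℚ) (x := s) (y := -s)
      (Algebra.IsAlgebraic.isAlgebraic _) (by rw [← hmin]; simp [hs])
    exact ⟨τ.toRingEquiv, hτ⟩
  · have : FiniteDimensional ℚ⟮s⟯ (adjoin ℚ⟮s⟯ (T : Set L)) :=
      finiteDimensional_adjoin fun x _ => Algebra.IsIntegral.isIntegral x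
    have : Finite ((L ≃ₐ[ℚ⟮s⟯] L) ⧸ (adjoin ℚ⟮s⟯ (T : Set L)).fixingSubgroup) :=
      Subgroup.quotient_finite_of_isOpen _ (fixingSubgroup_isOpen _)
    obtain ⟨n, θ, h0, hθ⟩ := normC_rep (adjoin ℚ⟮s⟯ (T : Set L)).fixingSubgroup
    refine ⟨n, fun i => (θ i).toRingEquiv, congrArg AlgEquiv.toRingEquiv h0,
      fun i => (θ i).commutes ⟨s, mem_adjoin_simple_self ℚ s⟩, fun z hz => ?_⟩
    obtain ⟨y, hy⟩ := (InfiniteGalois.mem_range_algebraMap_iff_fixed (k := ℚ⟮s⟯)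
      (∏ i, θ i z)).2 fun g => by
        obtain ⟨e, he⟩ := hθ g
        rw [map_prod, ← e.prod_comp fun i => θ i z]
        refine Finset.prod_congr rfl fun i _ => ?_
        obtain ⟨h, h1, h2⟩ := he i
        have h3 : h z = z := hz h.toRingEquiv fun t ht =>
          (mem_fixingSubgroup_iff _ _).1 h1 t (subset_adjoin _ _ ht)
        rw [← AlgEquiv.mul_apply, h2, AlgEquiv.mul_apply, h3]
    obtain ⟨a, b, hab⟩ := gam_one D hD' s hs y y.2
    exact ⟨a, b, hy.symm.trans hab⟩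

end Pool.Agent.MP_c481b3_nt.H28
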