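import Mathlib

set_option autoImplicit false

namespace Pool.Agent.MP_c481b3_nt.H28

open NumberField

section walk
variable {k : Type} [Field k]

/-- exchange of the last two roots -/
def sw (x : k × k × k) : k × k × k := (x.1, x.2.2, x.2.1)

/-- exchange of the first two roots -/
def rt (x : k × k × k) : k × k × k := (x.2.1, x.1, x.2.2)

/-- the roots of the quotient by the first root -/
def Wr (x y : k × k × k) : Prop :=
  ∃ r, r ^ 2 = (x.1 - x.2.1) * (x.1 - x.2.2) ∧ y = (-2 * x.1, x.1 + 2 * r, x.1 - 2 * r)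

variable [IsAlgClosed k]

lemma exists_wr (x : k × k × k) : ∃ y, Wr x y := by
  obtain ⟨r, hr⟩ := IsAlgClosed.exists_pow_nat_eq ((x.1 - x.2.1) * (x.1 - x.2.2)) two_pos
  exact ⟨_, r, hr, rfl⟩

/-- a chosen quotient -/
noncomputable def wq (x : k × k × k) : k × k × k := (exists_wr x).choose

lemma wr_wq (x : k × k × k) : Wr x (wq x) := (exists_wr x).choose_spec

/-- the product over the two steps that do not go back -/
noncomputable def UU {M : Type} [CommMonoid M] (f : k × k × k → M) (x : k × k × k) : M :=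
  f (wq (rt x)) * f (wq (rt (sw x)))

end walk

/-- the element is a limit of elements of `ℤ[s]` -/
def InW {L : Type} [Field L] (O : ValuationSubring L) (q : ℕ) (s x : L) : Prop :=
  ∀ m : ℕ, ∃ a b : ℤ, O.valuation (x - (a + b * s)) ≤ O.valuation (q : L) ^ m

/-- the setting at an inert prime -/
structure Inert {L : Type} [Field L] (O : ValuationSubring L) (q l : ℕ) (s : L) : Prop where
  prime : q.Prime
  two : q ≠ 2
  non : ¬IsSquare (-(l : ZMod q))
  sq : s ^ 2 = -l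
  lt : O.valuation (q : L) < 1

/-- the limits of elements of `ℤ[s]` form a henselian ring -/
def WSpec : Prop :=
  ∀ (L : Type) [Field L] [CharZero L] (O : ValuationSubring L) (q l : ℕ) (s : L), Inert O q l s →
    (∃ W : Subring L, ∀ x, x ∈ W ↔ InW O q s x) ∧ (∀ x, InW O q s x → x ∈ O) ∧
    (∀ x, InW O q s x → O.valuation x = 1 → InW O q s x⁻¹) ∧
    (∀ a b : ℚ, (a : L) + b * s ∈ O → InW O q s (a + b * s)) ∧
    (∀ x, (∀ m : ℕ, ∃ y, InW O q s y ∧ O.valuation (x - y) ≤ O.valuation (q : L) ^ m) →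
      InW O q s x) ∧
    ∀ r, InW O q s (r ^ 2) → O.valuation r = 1 → O.valuation (r ^ q ^ 2 - r) < 1 → InW O q s r

/-- a function on states whose iterated products are eventually trivial is torsion -/
def Period : Prop :=
  ∀ (L : Type) [Field L] [CharZero L] [IsAlgClosed L] (O : ValuationSubring L) (q l : ℕ) (s : L),
    Inert O q l s → ∀ S : Set (L × L × L),
    (∀ x ∈ S, InW O q s x.1 ∧ InW O q s x.2.1 ∧ InW O q s x.2.2 ∧ x.1 + x.2.1 + x.2.2 = 0 ∧
      O.valuation ((x.1 - x.2.1) * (x.1 - x.2.2)) = 1) →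
    (∀ x ∈ S, sw x ∈ S) → (∀ x ∈ S, rt x ∈ S) → (∀ x ∈ S, ∀ y, Wr x y → y ∈ S) →
    ∀ g : L × L × L → L, (∀ x ∈ S, InW O q s (g x) ∧ O.valuation (g x) = 1) →
    (∀ x ∈ S, g (sw x) = g x) →
    (∀ m : ℕ, ∀ x ∈ S, ∀ y ∈ S, O.valuation (x.1 - y.1) ≤ O.valuation (q : L) ^ m →
      O.valuation (x.2.1 - y.2.1) ≤ O.valuation (q : L) ^ m →
      O.valuation (x.2.2 - y.2.2) ≤ O.valuation (q : L) ^ m →
      O.valuation (g x - g y) ≤ O.valuation (q : L) ^ m) →
    ∀ x ∈ S, (∃ n : ℕ, ∀ i, n ≤ i → UU^[i] g x = 1) →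
    ∀ m : ℕ, O.valuation (g x ^ (q ^ 2 - 1) - 1) ≤ O.valuation (q : L) ^ m

/-- the valuation ring lies above the ideal -/
def Ctr {K : Type} [Field K] (P : Ideal (𝓞 K)) (O : ValuationSubring (AlgebraicClosure K)) : Prop :=
  (∀ r : 𝓞 K, algebraMap _ (AlgebraicClosure K) r ∈ O) ∧
    ∀ r : 𝓞 K, O.valuation (algebraMap _ (AlgebraicClosure K) r) < 1 ↔ r ∈ P

/-- centres exist and determine the restriction to the number field -/
def CtrSpec : Prop :=
  ∀ (K : Type) [Field K] [NumberField K],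
    (∀ (O : ValuationSubring (AlgebraicClosure K)) (p : ℕ), p.Prime →
      O.valuation (p : AlgebraicClosure K) < 1 →
      ∃ P : Ideal (𝓞 K), P.IsMaximal ∧ (p : 𝓞 K) ∈ P ∧ Ctr P O) ∧
    (∀ (P : Ideal (𝓞 K)) (O O' : ValuationSubring (AlgebraicClosure K)), P.IsMaximal → Ctr P O →
      Ctr P O' → ∀ z : K, algebraMap K _ z ∈ O → algebraMap K _ z ∈ O') ∧
    ∀ (O : ValuationSubring (AlgebraicClosure K)) (q : ℕ), q.Prime →
      O.valuation (q : AlgebraicClosure K) < 1 → ∀ y : AlgebraicClosure K,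
      (∀ m : ℕ, O.valuation y ≤ O.valuation (q : AlgebraicClosure K) ^ m) → y = 0

/-- an element of `ℚ(s)` that is symmetric at all split primes has a rational power -/
def GamCore : Prop :=
  ∀ (L : Type) [Field L] [CharZero L] (l : ℕ), l = 1 ∨ l = 3 → ∀ s : L, s ^ 2 = -l → ∀ a b : ℚ,
    (∀ (O : ValuationSubring L) (p : ℕ), p.Prime → 5 ≤ p → IsSquare (-(l : ZMod p)) →
      O.valuation (p : L) < 1 → O.valuation ((a : L) + b * s) = O.valuation ((a : L) - b * s)) →
    ((a : L) + b * s) ^ 12 = ((a : L) - b * s) ^ 12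

open IntermediateField in
/-- relative norms of elements that are units at all split primes -/
def Gam : Prop :=
  ∀ (K : Type) [Field K] [NumberField K] (l : ℕ), l = 1 ∨ l = 3 → ∀ s : K, s ^ 2 = -l →
    (∀ y : ℚ⟮s⟯, ∃ a b : ℚ, (y : K) = a + b * s) ∧
    (∃ τ : AlgebraicClosure K ≃+* AlgebraicClosure K,
      τ (algebraMap K _ s) = -algebraMap K _ s) ∧
    (∀ σ : K →+* AlgebraicClosure K, ∃ θ : AlgebraicClosure K ≃+* AlgebraicClosure K,
      ∀ z, θ (algebraMap K _ z) = σ z) ∧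
    ∀ z : K, (∀ (P : Ideal (𝓞 K)) (p : ℕ), P.IsMaximal → p.Prime → 5 ≤ p →
      IsSquare (-(l : ZMod p)) → (p : 𝓞 K) ∈ P →
      ∃ O, Ctr P O ∧ O.valuation (algebraMap K (AlgebraicClosure K) z) = 1) →
    ∀ a b : ℚ, ((Algebra.norm ℚ⟮s⟯ z : ℚ⟮s⟯) : K) = a + b * s →
      ((a : K) + b * s) ^ 12 = ((a : K) - b * s) ^ 12

end Pool.Agent.MP_c481b3_nt.H28
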