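import Pool.Agent.MP_c481b3_nt.H28.Loc
import Pool.Agent.MP_c481b3_nt.H28.Two
import Pool.Agent.MP_c481b3_nt.H28.Spec5

set_option autoImplicit false

namespace Pool.Agent.MP_c481b3_nt.H28

open Pool.Agent.MP_c481b3_nt.H81 Polynomial

namespace CompRing
variable {R : Type*} [Ring R] {N : R → ℤ} (h : CompRing R N)
include h

lemma pol_cast (n : ℤ) : pol N (n : R) 1 = 2 * n := by
  rw [← mul_one (n : R), h.pol_int, h.pol_self, h.one]; ring

lemma pure_tr (x : R) : pol N ((2 : ℤ) * x - pol N x 1) 1 = 0 := by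
  rw [h.pol_sub, h.pol_int, h.pol_cast, sub_self]

lemma pure_norm (x : R) : N ((2 : ℤ) * x - pol N x 1) = 4 * N x - pol N x 1 ^ 2 := by
  rw [h.sub, h.int_mul, h.int, h.pol_int, ← mul_one (pol N x 1 : R), h.pol_int']; ring

lemma comm_rel {x y : R} (hy : pol N y 1 = 0) (e : x * y = y * x) : ∃ s : ℤ,
    (2 * N y : ℤ) * ((2 : ℤ) * x - pol N x 1) = s * y ∧
      s ^ 2 * N y = (2 * N y) ^ 2 * (4 * N x - pol N x 1 ^ 2) := by
  have a := h.anticomm (h.pure_tr x) hy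
  have b := h.char y
  rw [hy] at b
  have c : y * ((2 : ℤ) * x - pol N x 1) = ((2 : ℤ) * x - pol N x 1) * y := by
    rw [mul_sub, sub_mul, ← Int.cast_comm, mul_assoc, e, ← mul_assoc, ← mul_assoc, Int.cast_comm 2]
  have d : (2 * N y : ℤ) * ((2 : ℤ) * x - pol N x 1)
      = pol N ((2 : ℤ) * x - pol N x 1) y * y := by
    generalize ((2 : ℤ) : R) * x - pol N x 1 = z at *
    have := congrArg (· * y) a
    simp only [c, add_mul, mul_assoc, b, Int.cast_zero, zero_mul, zero_sub, mul_neg, neg_mul] at this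
    rw [Int.cast_mul, Int.cast_ofNat, mul_assoc, two_mul, Int.cast_comm, ← neg_inj, neg_add, this]
  exact ⟨_, d, by rw [← h.int_mul, ← d, h.int_mul, h.pure_norm]⟩

lemma comm_trans {x y z : R} (hz : (2 : ℤ) * z - pol N z 1 ≠ 0) (a : x * z = z * x)
    (b : y * z = z * y) : x * y = y * x := by
  have k : ∀ x : R, x * z = z * x → Commute x ((2 : ℤ) * z - pol N z 1) := fun x a =>
    ((Int.cast_commute 2 x).symm.mul_right a).sub_right (Int.cast_commute _ x).symm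
  have n0 := (h.pos hz).ne'
  have t := h.pure_tr z
  obtain ⟨s, a1, -⟩ := h.comm_rel t (k x a)
  have c : Commute (((2 * N ((2 : ℤ) * z - pol N z 1) : ℤ) : R) * ((2 : ℤ) * x - pol N x 1)) y := by
    rw [a1]
    exact (Int.cast_commute _ y).mul_left (k y b).symm
  have c2 : (((2 : ℤ) : R) * x - pol N x 1) * y = y * ((2 : ℤ) * x - pol N x 1) :=
    h.cancel (h.int_ne (mul_ne_zero two_ne_zero n0)) (by
      rw [← mul_assoc, c.eq, ← mul_assoc, ← Int.cast_comm, mul_assoc])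
  rw [sub_mul, mul_sub, Int.cast_comm (pol N x 1), sub_left_inj, ← mul_assoc, ← Int.cast_comm,
    mul_assoc, mul_assoc] at c2
  exact h.cancel (h.int_ne two_ne_zero) c2

lemma tr_of_sq {x : R} {n : ℤ} (hn : 0 < n) (e : x * x = -(n : R)) : pol N x 1 = 0 := by
  have a := h.char x
  rw [h.norm_of_sq hn.le e, e, eq_sub_iff_add_eq, neg_add_cancel] at a
  by_contra h0
  refine h.mul_ne (h.int_ne h0) (fun x0 => h.int_ne hn.ne' ?_) a.symm
  rw [x0, zero_mul] at e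
  exact neg_eq_zero.1 e.symm

end CompRing

variable {k : Type*} [Field k] [DecidableEq k] [IsAlgClosed k] {A B A₁ B₁ A₂ B₂ : k}

/-- a separable isogeny of degree `n` -/
def Is (n : ℕ) (f : Pt A B →+ Pt A₁ B₁) : Prop :=
  ∃ C u, VD C u A₁ B₁ ∧ C.card = n ∧ ∀ P, f P = vm C u A₁ B₁ P

section is
variable {m n : ℕ} {f : Pt A B →+ Pt A₁ B₁} {g : Pt A₁ B₁ →+ Pt A₂ B₂}

lemma Is.ker (a : Is n f) {P : Pt A B} (h : f P = 0) : n • P = 0 := by
  obtain ⟨C, u, d, rfl, e⟩ := a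
  exact d.sub.nsmul_card (d.eq_zero.1 (e P ▸ h))

variable (h3 : (3 : k) ≠ 0)
include h3

lemma VD.is {C : Finset (Pt A B)} {u : k} (d : VD C u A₁ B₁) : Is C.card (d.hom h3) :=
  ⟨C, u, d, rfl, fun _ => rfl⟩

lemma Is.surj (a : Is n f) : Function.Surjective f := by
  obtain ⟨C, u, d, -, e⟩ := a
  intro Q
  obtain ⟨P, hP⟩ := d.surj h3 Q
  exact ⟨P, (e P).trans hP⟩

lemma Is.comp (a : Is n f) (b : Is m g) : Is (m * n) (g.comp f) := by
  obtain ⟨C, u, d, rfl, e⟩ := a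
  obtain ⟨C', u', d', rfl, e'⟩ := b
  have fin := finite_preimage (d.hom h3) (C.finite_toSet.subset fun P hP => (d.hom_eq_zero h3).1 hP)
    C'.finite_toSet
  have mem : ∀ P, P ∈ fin.toFinset ↔ d.hom h3 P ∈ C' := fun P => fin.mem_toFinset
  have hH : IsSub fin.toFinset := ⟨(mem _).2 (by rw [map_zero]; exact d'.sub.zero),
    fun P hP Q hQ => (mem _).2 (by rw [map_sub]; exact d'.sub.sub _ ((mem _).1 hP) _ ((mem _).1 hQ))⟩
  have hs : C ⊆ fin.toFinset := fun P hP =>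
    (mem _).2 (by rw [(d.hom_eq_zero h3).2 hP]; exact d'.sub.zero)
  have im : fin.toFinset.image (d.hom h3) = C' := by
    ext Q
    obtain ⟨P, rfl⟩ := d.surj h3 Q
    rw [d.mem_image h3 hH hs, mem]
  generalize fin.toFinset = H at *
  subst im
  exact ⟨H, u * u', d.comp h3 hH hs d', d.card_image h3 hH hs, fun P => by
    rw [← d.comp_vm h3 hH hs d', AddMonoidHom.comp_apply, e', e]; rfl⟩

lemma Is.dual (a : Is n f) (hn : (n : k) ≠ 0) : ∃ g : Pt A₁ B₁ →+ Pt A B, Is n g ∧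
    (∀ P, g (f P) = n • P) ∧ ∀ P, f (g P) = n • P := by
  obtain ⟨C, u, d, hc, e⟩ := a
  have t : Tm A B n := ⟨d.good, h3, hn⟩
  refine ⟨(d.dual t hc).hom h3, ⟨_, _, d.dual t hc, d.dual_card t hc, fun _ => rfl⟩,
    fun P => ?_, fun P => ?_⟩
  · rw [e]; exact d.dual_comp t hc P
  · rw [e]; exact d.comp_dual t hc P

variable [DecidableEq (RatFunc k)] [DecidableEq (LL k)] (hG : Good A B)

lemma Is.toE {f : Pt A B →+ Pt A B} (a : Is n f) :
    ∃ φ : EE hG, (∀ P, φ.1 P = f P) ∧ NE φ = n ∧ cE hG φ ≠ 0 := by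
  obtain ⟨C, u, d, rfl, e⟩ := a
  obtain ⟨φ, f1, f2, f3⟩ := d.exists_end (hG := hG) h3
  exact ⟨φ, fun P => by rw [f1, e]; rfl, f3, f2 ▸ d.hu⟩

lemma is_ofE (φ : EE hG) (hc : cE hG φ ≠ 0) : ∃ n : ℕ, Is n (φ.1 : Pt A B →+ Pt A B) ∧
    (n : ℤ) = NE φ := by
  obtain ⟨C, d, e1, e2⟩ := exists_vd h3 φ hc
  exact ⟨_, e2 ▸ d.is h3, e1⟩

lemma exists_tors (φ : EE hG) (hc : cE hG φ ≠ 0) {p : ℕ} (hp : p.Prime) (h : (p : ℤ) ∣ NE φ) :
    ∃ Q : Pt A B, Q ≠ 0 ∧ p • Q = 0 := by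
  obtain ⟨C, d, e1, -⟩ := exists_vd h3 φ hc
  have := Fact.mk hp
  have : Finite (toSub d.sub) := C.finite_toSet
  obtain ⟨Q, hQ⟩ := exists_prime_addOrderOf_dvd_card' (G := toSub d.sub) p (by
    rw [card_toSub]; rw [← e1] at h; exact_mod_cast h)
  refine ⟨Q, fun e => hp.one_lt.ne' ?_, ?_⟩
  · rw [← hQ, show Q = 0 from Subtype.ext e, addOrderOf_zero]
  · rw [← AddSubgroup.coe_nsmul, ← hQ, addOrderOf_nsmul_eq_zero]; rfl

end is

omit [IsAlgClosed k] in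
lemma vd_unit (hG : Good A B) (hG₁ : Good A₁ B₁) {u : k} (hu : u ≠ 0) (hA : A = u ^ 4 * A₁)
    (hB : B = u ^ 6 * B₁) : VD ({0} : Finset (Pt A B)) u A₁ B₁ :=
  ⟨hG, ⟨by simp, by simp⟩, hu, by simpa [vA] using hA, by simpa [vB] using hB, hG₁⟩

lemma vd_unit_spec {u : k} (d : VD ({0} : Finset (Pt A B)) u A₁ B₁) {P : Pt A B} (hP : P ≠ 0) :
    vm {0} u A₁ B₁ P ≠ 0 ∧ xc (vm {0} u A₁ B₁ P) = xc P / u ^ 2 ∧
      yc (vm {0} u A₁ B₁ P) = yc P / u ^ 3 := by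
  simpa [vX, vS] using d.spec (P := P) (by simpa using hP)

lemma is_iso (h3 : (3 : k) ≠ 0) (hG : Good A B) (hG₁ : Good A₁ B₁)
    (h : A ^ 3 * B₁ ^ 2 = A₁ ^ 3 * B ^ 2) : ∃ f : Pt A B →+ Pt A₁ B₁, Is 1 f := by
  suffices ∃ u : k, u ≠ 0 ∧ A = u ^ 4 * A₁ ∧ B = u ^ 6 * B₁ by
    obtain ⟨u, u0, a, b⟩ := this
    exact ⟨_, (vd_unit hG hG₁ u0 a b).is h3⟩
  have d := hG.disc
  have d₁ := hG₁.disc
  by_cases a : A₁ = 0
  · have b : B₁ ≠ 0 := fun b => d₁ (by simp [a, b])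
    have a' : A = 0 := by simpa [a, b] using h
    obtain ⟨u, hu⟩ := IsAlgClosed.exists_pow_nat_eq (B / B₁) (n := 6) (by norm_num)
    refine ⟨u, ?_, by simp [a, a'], by rw [hu, div_mul_cancel₀ _ b]⟩
    rintro rfl
    exact d (by simp [a', (div_eq_zero_iff.1 (hu.symm.trans (by simp))).resolve_right b])
  by_cases b : B₁ = 0
  · have b' : B = 0 := by simpa [a, b] using h.symm
    obtain ⟨u, hu⟩ := IsAlgClosed.exists_pow_nat_eq (A / A₁) (n := 4) (by norm_num)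
    refine ⟨u, ?_, by rw [hu, div_mul_cancel₀ _ a], by simp [b, b']⟩
    rintro rfl
    exact d (by simp [b', (div_eq_zero_iff.1 (hu.symm.trans (by simp))).resolve_right a])
  have a' : A ≠ 0 := fun e => d (by
    rw [e] at h
    have : B = 0 := by simpa [a] using h.symm
    simp [e, this])
  have b' : B ≠ 0 := fun e => a' (by simpa [e, b] using h)
  obtain ⟨u, hu⟩ := IsAlgClosed.exists_pow_nat_eq (B * A₁ / (A * B₁)) two_pos
  refine ⟨u, ?_, ?_, ?_⟩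
  · rintro rfl
    exact div_ne_zero (mul_ne_zero b' a) (mul_ne_zero a' b) (by simpa using hu.symm)
  · rw [show u ^ 4 = (u ^ 2) ^ 2 by ring, hu]
    field_simp
    linear_combination h
  · rw [show u ^ 6 = (u ^ 2) ^ 3 by ring, hu]
    field_simp
    linear_combination h

section frob
variable (p : ℕ) [Fact p.Prime] [CharP k p]

lemma frob_vm {C : Finset (Pt A B)} {u : k} (d : VD C u A₁ B₁) {n : ℕ} (hA : A ^ p ^ n = A)
    (hB : B ^ p ^ n = B) (hA₁ : A₁ ^ p ^ n = A₁) (hB₁ : B₁ ^ p ^ n = B₁) (hu : u ^ p ^ n = u)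
    (hC : ∀ P ∈ C, frP d.good p n hA hB P = P) (P : Pt A B) :
    frP d.good' p n hA₁ hB₁ (vm C u A₁ B₁ P) = vm C u A₁ B₁ (frP d.good p n hA hB P) := by
  have r1 := red_triv (iterateFrobenius k p n) hA hB d.good
  have e := d.red_vm (rd_triv (iterateFrobenius k p n) hA hB d.good)
    (rd_triv (iterateFrobenius k p n) hA₁ hB₁ d.good') ((ev_triv _ u).congr rfl hu) d.hu
    (fun Q hQ => by rw [r1]; exact Sc.map_ne _ (Finset.mem_erase.1 hQ).1) P
  rw [red_triv (iterateFrobenius k p n) hA₁ hB₁ d.good', r1, Finset.image_congr (g := id)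
    (fun Q hQ => by rw [r1]; exact hC Q hQ), Finset.image_id] at e
  exact e

omit [DecidableEq k] [IsAlgClosed k] [Fact p.Prime] [CharP k p] in
lemma alg_fin (H : ∀ x : k, ∃ n, n ≠ 0 ∧ x ^ p ^ n = x) (s : Finset k) :
    ∃ n, n ≠ 0 ∧ ∀ x ∈ s, x ^ p ^ n = x := by
  classical
  induction s using Finset.induction_on with
  | empty => exact ⟨1, one_ne_zero, by simp⟩
  | insert a s _ ih =>
    obtain ⟨n, n0, hn⟩ := ih
    obtain ⟨m, m0, hm⟩ := H a
    refine ⟨n * m, mul_ne_zero n0 m0, fun x hx => ?_⟩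
    rcases Finset.mem_insert.1 hx with rfl | hx
    · rw [mul_comm]; exact fix_mul p m hm n
    · exact fix_mul p n (hn x hx) m

variable [DecidableEq (RatFunc k)] [DecidableEq (LL k)] (hG : Good A B) (h3 : (3 : k) ≠ 0)
include h3

lemma comm_frob (H : ∀ x : k, ∃ n, n ≠ 0 ∧ x ^ p ^ n = x) (φ : EE hG) (hc : cE hG φ ≠ 0) :
    ∃ n, n ≠ 0 ∧ ∀ m (hA : A ^ p ^ m = A) (hB : B ^ p ^ m = B), n ∣ m →
      φ * frE hG p m hA hB = frE hG p m hA hB * φ := by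
  obtain ⟨C, d, -, e⟩ := exists_vd h3 φ hc
  obtain ⟨n, n0, hn⟩ := alg_fin p H (insert (cE hG φ) (C.image xc ∪ C.image yc))
  refine ⟨n, n0, ?_⟩
  rintro _ hA hB ⟨m, rfl⟩
  refine EE_ext fun P => ?_
  rw [EE_mul, EE_mul, e]
  refine (frob_vm p d hA hB hA hB (fix_mul p n (hn _ (by simp)) m) (fun Q hQ => ?_) P).symm
  by_cases q0 : Q = 0
  · rw [q0, map_zero]
  refine pt_ext (Sc.map_ne _ q0) q0 ?_ ?_
  · rw [xc_frP]
    exact fix_mul p n (hn _ (Finset.mem_insert_of_mem (Finset.mem_union_left _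
      (Finset.mem_image_of_mem _ hQ)))) m
  · rw [yc_frP]
    exact fix_mul p n (hn _ (Finset.mem_insert_of_mem (Finset.mem_union_right _
      (Finset.mem_image_of_mem _ hQ)))) m

lemma frob_pure {Q : Pt A B} (q0 : Q ≠ 0) (hQ : p • Q = 0) {n : ℕ} (n0 : n ≠ 0)
    (hA : A ^ p ^ n = A) (hB : B ^ p ^ n = B) :
    (2 : ℤ) * frE hG p n hA hB - pol NE (frE hG p n hA hB) 1 ≠ 0 := by
  intro e
  have c := (compRing h3 hG).char (frE hG p n hA hB)
  rw [← sub_eq_zero.1 e, mul_assoc, Int.cast_ofNat, two_mul, add_sub_assoc, left_eq_add,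
    sub_eq_zero, NE_frE] at c
  have := congrArg (fun φ : EE hG => φ.1 Q) c
  simp only [EE_mul, EE_int] at this
  obtain ⟨n, rfl⟩ := Nat.exists_eq_succ_of_ne_zero n0
  rw [pow_succ, mul_zsmul, natCast_zsmul, hQ, zsmul_zero] at this
  exact Sc.map_ne _ (Sc.map_ne _ q0) this

variable (H : ∀ x : k, ∃ n, n ≠ 0 ∧ x ^ p ^ n = x) {Q : Pt A B} (q0 : Q ≠ 0) (hQ : p • Q = 0)
include H q0 hQ

lemma ord_comm (φ ψ : EE hG) (a : cE hG φ ≠ 0) (b : cE hG ψ ≠ 0) : φ * ψ = ψ * φ := by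
  obtain ⟨n, n0, hn⟩ := comm_frob p hG h3 H φ a
  obtain ⟨m, m0, hm⟩ := comm_frob p hG h3 H ψ b
  obtain ⟨r, r0, hr⟩ := alg_fin p H {A, B}
  have hA := fix_mul p r (hr A (by simp)) (n * m)
  have hB := fix_mul p r (hr B (by simp)) (n * m)
  exact (compRing h3 hG).comm_trans (frob_pure p hG h3 q0 hQ (by positivity) hA hB)
    (hn _ hA hB ⟨r * m, by ring⟩) (hm _ hA hB ⟨r * n, by ring⟩)

lemma ord_frob (ψ : EE hG) (b : cE hG ψ ≠ 0) {r : ℕ} (r0 : r ≠ 0) (hA : A ^ p ^ r = A)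
    (hB : B ^ p ^ r = B) : frE hG p r hA hB * ψ = ψ * frE hG p r hA hB := by
  obtain ⟨m, m0, hm⟩ := comm_frob p hG h3 H ψ b
  refine (compRing h3 hG).comm_trans (frob_pure p hG h3 q0 hQ (mul_ne_zero r0 m0)
    (fix_mul p r hA m) (fix_mul p r hB m)) ?_ (hm _ _ _ ⟨r, by ring⟩)
  rw [← (frE_pow hG p r hA hB m).1]
  exact (Commute.self_pow _ m).eq

omit H q0 hQ in
lemma tors_of_cm {χ : EE hG} {m : ℕ} (e : χ * χ = -(m : EE hG)) (m0 : (m : k) ≠ 0)
    (h : IsSquare (-(m : ZMod p))) : ∃ Q : Pt A B, Q ≠ 0 ∧ p • Q = 0 := by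
  have cr := compRing h3 hG
  have mp : (0 : ℤ) < m := by
    rcases m with _ | m
    · simp at m0
    · omega
  have e' : χ * χ = -((m : ℤ) : EE hG) := by simpa using e
  have key : ∀ c : ℤ, (p : ℤ) ∣ c ^ 2 + m → cE hG χ = c → ∃ Q : Pt A B, Q ≠ 0 ∧ p • Q = 0 := by
    intro c h1 h2
    refine exists_tors h3 hG (χ + c) ?_ Fact.out ?_
    · rw [map_add, map_intCast, ← h2, ← two_mul]
      refine mul_ne_zero hG.two fun e0 => m0 ?_
      simpa [e0] using congrArg (cE hG) e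
    · rw [CompRing.add NE, cr.norm_of_sq mp.le e', cr.int, ← mul_one (c : EE hG), cr.pol_int',
        cr.tr_of_sq mp e', mul_zero, add_zero, add_comm]
      exact h1
  obtain ⟨c, hc⟩ := h
  obtain ⟨c, rfl⟩ := ZMod.intCast_surjective c
  have h1 : (p : ℤ) ∣ c ^ 2 + m := by
    rw [← ZMod.intCast_zmod_eq_zero_iff_dvd]
    push_cast
    linear_combination -hc
  have h2 := (CharP.intCast_eq_zero_iff k p _).2 h1
  have h4 := congrArg (cE hG) e
  push_cast at h2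
  rw [map_mul, map_neg, map_natCast] at h4
  rcases sq_eq_sq_iff_eq_or_eq_neg.1 (show cE hG χ ^ 2 = (c : k) ^ 2 by
    linear_combination h4 - h2) with h5 | h5
  · exact key c h1 h5
  · exact key (-c) (by rwa [neg_sq]) (by simpa using h5)

end frob

end Pool.Agent.MP_c481b3_nt.H28
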