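import Pool.Agent.MP_c481b3_nt.H28.InertC
import Pool.Agent.MP_c481b3_nt.H28.Per2

set_option autoImplicit false

namespace Pool.Agent.MP_c481b3_nt.H28

open Pool.Agent.MP_c481b3_nt.H81

namespace PerCAux

section abstract
variable {M : Type} [CommMonoid M]

lemma eq_of_pow {a b : M} {l n : ℕ} (hn : n ≠ 0) (hc : l.Coprime n) (ha : a ^ n = 1)
    (hb : b ^ n = 1) (h : a ^ l = b ^ l) : a = b := by
  obtain ⟨j, hj⟩ := Nat.exists_eq_succ_of_ne_zero (Nat.totient_pos.2 (Nat.pos_of_ne_zero hn)).ne'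
  have h1 : l ^ n.totient % n = 1 % n := Nat.ModEq.pow_totient hc
  have key : ∀ c : M, c ^ n = 1 → c = (c ^ l) ^ l ^ j := fun c hc => by
    rw [← pow_mul, ← pow_succ', ← Nat.succ_eq_add_one, ← hj, pow_eq_pow_mod _ hc, h1,
      ← pow_eq_pow_mod _ hc, pow_one]
  rw [key a ha, key b hb, h]

lemma star_inj {ι : Type} [DecidableEq ι] {s : Finset ι} {l n : ℕ} (hs : s.card = l + 1)
    (hn : n ≠ 0) (hc : l.Coprime n) {g g' : ι → M} (hg : ∀ i ∈ s, g i ^ n = 1)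
    (hg' : ∀ i ∈ s, g' i ^ n = 1)
    (h : ∀ i ∈ s, ∏ j ∈ s.erase i, g j = ∏ j ∈ s.erase i, g' j) : ∀ i ∈ s, g i = g' i := by
  have one : ∀ (u : ι → M) (t : Finset ι), t ⊆ s → (∀ i ∈ s, u i ^ n = 1) →
      (∏ j ∈ t, u j) ^ n = 1 := fun u t ht hu => by
    rw [← Finset.prod_pow]
    exact Finset.prod_eq_one fun i hi => hu i (ht hi)
  have key : ∀ u : ι → M, (∀ i ∈ s, u i ^ n = 1) →
      ∏ i ∈ s, ∏ j ∈ s.erase i, u j = (∏ j ∈ s, u j) ^ l := fun u hu => by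
    refine (IsUnit.of_pow_eq_one (one u s le_rfl hu) hn).mul_left_cancel ?_
    rw [← Finset.prod_mul_distrib, ← pow_succ', ← hs, ← Finset.prod_const]
    exact Finset.prod_congr rfl fun i hi => Finset.mul_prod_erase s u hi
  have e : ∏ j ∈ s, g j = ∏ j ∈ s, g' j :=
    eq_of_pow hn hc (one g s le_rfl hg) (one g' s le_rfl hg')
      (by rw [← key g hg, ← key g' hg']; exact Finset.prod_congr rfl h)
  intro i hi
  rw [← Finset.mul_prod_erase s g hi, ← Finset.mul_prod_erase s g' hi, h i hi] at e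
  exact (IsUnit.of_pow_eq_one (one g' _ (s.erase_subset i) hg') hn).mul_right_cancel e

lemma exists_fin {X : Type} {S : Set X} (hS : S.Finite) {n : ℕ} (hn : n ≠ 0) (h : X → M)
    (hh : ∀ x ∈ S, h x ^ n = 1) : ∃ T : Submonoid M, (T : Set M).Finite ∧ (∀ x ∈ S, h x ∈ T) ∧
      ∀ t ∈ T, t ^ n = 1 := by
  classical
  have := hS.fintype
  let T : Submonoid M :=
    { carrier := {m | ∃ e : S → ℕ, m = ∏ x : S, h x ^ e x}
      mul_mem' := by
        rintro _ _ ⟨e, rfl⟩ ⟨e', rfl⟩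
        exact ⟨e + e', by simp [pow_add, Finset.prod_mul_distrib]⟩
      one_mem' := ⟨0, by simp⟩ }
  refine ⟨T, ?_, fun x hx => ⟨Pi.single ⟨x, hx⟩ 1, ?_⟩, ?_⟩
  · refine (Set.finite_range fun e : S → Fin n => ∏ x : S, h x ^ (e x : ℕ)).subset ?_
    rintro _ ⟨e, rfl⟩
    exact ⟨fun x => ⟨e x % n, Nat.mod_lt _ (Nat.pos_of_ne_zero hn)⟩,
      Finset.prod_congr rfl fun x _ => (pow_eq_pow_mod _ (hh x x.2)).symm⟩
  · rw [Finset.prod_eq_single ⟨x, hx⟩ (fun y _ hy => by simp [hy]) (by simp)]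
    simp
  · rintro _ ⟨e, rfl⟩
    rw [← Finset.prod_pow]
    exact Finset.prod_eq_one fun x _ => by rw [← pow_mul, mul_comm, pow_mul, hh x x.2, one_pow]

end abstract

variable {k : Type} [Field k] [DecidableEq k]

/-- the step along the dual isogeny's kernel -/
noncomputable def rev (l : ℕ) (x : Ed k) : Ed k := x.nx (x.du l)

/-- the same state with another subgroup -/
def sib (y : Ed k) (D : Finset (Pt y.A y.B)) : Ed k := ⟨y.A, y.B, y.P, y.Q, D⟩

/-- `y` is the reversal of `x` -/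
def Back (l : ℕ) (x y : Ed k) : Prop :=
  VD x.C 1 y.A y.B ∧ y.P = vm x.C 1 y.A y.B x.P ∧ y.Q = vm x.C 1 y.A y.B x.Q ∧
    y.C = (tors x.A x.B l).image (vm x.C 1 y.A y.B)

variable [IsAlgClosed k] {l N : ℕ}

lemma ok_vd (hl : l.Prime) (h2 : l ≠ 2) {x : Ed k} (hx : x.Ok l N) :
    VD x.C 1 (vA x.C) (vB x.C) := by
  obtain ⟨c1, c2⟩ := hx.tm.mem_subs.1 hx.mem
  exact vd_one hx.tm.good hx.tm.three c1 (c2 ▸ hl.odd_of_ne_two h2)

lemma du_mem (hl : l.Prime) (h2 : l ≠ 2) {x : Ed k} (hx : x.Ok l N) :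
    x.du l ∈ subs (vA x.C) (vB x.C) l := by
  obtain ⟨-, c2⟩ := hx.tm.mem_subs.1 hx.mem
  have d := ok_vd hl h2 hx
  exact (hx.tm.other d.good').mem_subs.2 ⟨(d.dual hx.tm c2).sub, d.dual_card hx.tm c2⟩

lemma back_inj (hN : N.Coprime l) {x x' y : Ed k} (hx : x.Ok l N) (hx' : x'.Ok l N)
    (b : Back l x y) (b' : Back l x' y) : x = x' := by
  obtain ⟨A, B, P, Q, C⟩ := x
  obtain ⟨A', B', P', Q', C'⟩ := x'
  obtain ⟨A₁, B₁, P₁, Q₁, D⟩ := y
  obtain ⟨t, m, p, q⟩ := hx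
  obtain ⟨t', m', p', q'⟩ := hx'
  obtain ⟨d, e1, e2, e3⟩ := b
  obtain ⟨d', e1', e2', e3'⟩ := b'
  dsimp only at *
  obtain ⟨c1, c2⟩ := t.mem_subs.1 m
  obtain ⟨-, c2'⟩ := t'.mem_subs.1 m'
  have u : VD D (l / 1) A B := e3 ▸ d.dual t c2
  have u' : VD D (l / 1) A' B' := e3' ▸ d'.dual t' c2'
  obtain rfl : A = A' := mul_left_cancel₀ (pow_ne_zero 4 u.hu) (u.hA.symm.trans u'.hA)
  obtain rfl : B = B' := mul_left_cancel₀ (pow_ne_zero 6 u.hu) (u.hB.symm.trans u'.hB)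
  have v : (tors A₁ B₁ l).image (vm D (l / 1) A B) = C := e3 ▸ d.dual_dual t c2
  have v' : (tors A₁ B₁ l).image (vm D (l / 1) A B) = C' := e3' ▸ d'.dual_dual t' c2'
  obtain rfl : C = C' := v.symm.trans v'
  have key : ∀ R R' : Pt A B, N • R = 0 → N • R' = 0 → vm C 1 A₁ B₁ R = vm C 1 A₁ B₁ R' →
      R = R' := fun R R' r r' e => by
    have a1 : R - R' ∈ C := (d.hom_eq_zero t.three).1 (by
      rw [map_sub, d.hom_apply, d.hom_apply, e, sub_self])
    have a2 : l • (R - R') = 0 := c2 ▸ c1.nsmul_card a1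
    have a3 : N • (R - R') = 0 := by rw [nsmul_sub, r, r', sub_zero]
    have a4 := (addOrderOf_dvd_iff_nsmul_eq_zero.2 a3)
    have a5 := (addOrderOf_dvd_iff_nsmul_eq_zero.2 a2)
    exact sub_eq_zero.1 (AddMonoid.addOrderOf_eq_one_iff.1 (Nat.eq_one_of_dvd_coprimes hN a4 a5))
  rw [key P P' p p' (e1.symm.trans e1'), key Q Q' q q' (e2.symm.trans e2')]

lemma back_rev (hl : l.Prime) (h2 : l ≠ 2) {x : Ed k} (hx : x.Ok l N) : Back l x (rev l x) :=
  ⟨ok_vd hl h2 hx, rfl, rfl, rfl⟩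

end PerCAux

open PerCAux

theorem perL : PerL := by
  classical
  intro k _ _ _ l N hl h2 hN S hS hok hcl M _ f hf
  have hmap : Set.MapsTo (rev l) S S := fun x hx => hcl x hx _ (du_mem hl h2 (hok x hx))
  have hinj : Set.InjOn (rev l) S := fun x hx x' hx' e =>
    back_inj hN (hok x hx) (hok x' hx') (back_rev hl h2 (hok x hx))
      (e ▸ back_rev hl h2 (hok x' hx'))
  have hsurj : Set.SurjOn (rev l) S S := ((hS.injOn_iff_bijOn_of_mapsTo hmap).1 hinj).surjOn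
  have hsib : ∀ y ∈ S, ∀ D ∈ subs y.A y.B l, sib y D ∈ S := by
    intro y hy
    obtain ⟨x, hx, rfl⟩ := hsurj hy
    exact hcl x hx
  obtain ⟨n, hn0, hn⟩ : ∃ n, n ≠ 0 ∧ ∀ x ∈ S, f x ^ n = 1 := by
    choose! e he using hf
    refine ⟨∏ x ∈ hS.toFinset, e x, Finset.prod_ne_zero_iff.2 fun x hx =>
      (he x (hS.mem_toFinset.1 hx)).1, fun x hx => ?_⟩
    obtain ⟨c, hc⟩ := Finset.dvd_prod_of_mem e (hS.mem_toFinset.2 hx)
    rw [hc, pow_mul, (he x hx).2, one_pow]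
  obtain ⟨a, m, hm, rfl⟩ := Nat.exists_eq_pow_mul_and_not_dvd hn0 l hl.ne_one
  have hm0 : m ≠ 0 := right_ne_zero_of_mul hn0
  have hc : l.Coprime m := hl.coprime_iff_not_dvd.2 hm
  obtain ⟨T, hT, hT1, hT2⟩ := exists_fin hS hm0 (fun x => f x ^ l ^ a)
    fun x hx => by rw [← pow_mul, hn x hx]
  let F : Set (Ed k → M) := {G | (∀ x ∈ S, G x ∈ T) ∧ ∀ x, x ∉ S → G x = 1}
  have hF : F.Finite := by
    have := hS.to_subtype
    refine Set.Finite.of_finite_image (f := fun G (x : S) => G x)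
      ((Set.Finite.pi' fun _ : S => hT).subset ?_) fun G hG G' hG' e => funext fun x => ?_
    · rintro _ ⟨G, hG, rfl⟩ x
      exact hG.1 x x.2
    · by_cases hx : x ∈ S
      · exact congrFun e ⟨x, hx⟩
      · rw [hG.2 x hx, hG'.2 x hx]
  let U : (Ed k → M) → Ed k → M := fun G => S.mulIndicator (UL l G)
  have hU : Set.MapsTo U F F := fun G hG =>
    ⟨fun x hx => by
      simp only [U, Set.mulIndicator_of_mem hx, UL]
      exact T.prod_mem fun D hD => hG.1 _ (hcl x hx D (Finset.mem_of_mem_erase hD)),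
    fun x hx => Set.mulIndicator_of_notMem hx _⟩
  have iU : Set.InjOn U F := by
    intro G hG G' hG' e
    have e1 : ∀ y ∈ S, ∏ D ∈ (subs y.A y.B l).erase y.C, G (sib y D)
        = ∏ D ∈ (subs y.A y.B l).erase y.C, G' (sib y D) := by
      intro y hy
      obtain ⟨x, hx, rfl⟩ := hsurj hy
      have := congrFun e x
      simp only [U, Set.mulIndicator_of_mem hx] at this
      exact this
    funext y
    by_cases hy : y ∈ S
    · exact star_inj ((hok y hy).tm.card_subs hl) hm0 hc (g := fun D => G (sib y D))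
        (g' := fun D => G' (sib y D)) (fun D hD => hT2 _ (hG.1 _ (hsib y hy D hD)))
        (fun D hD => hT2 _ (hG'.1 _ (hsib y hy D hD))) (fun D hD => e1 _ (hsib y hy D hD))
        y.C (hok y hy).mem
    · rw [hG.2 y hy, hG'.2 y hy]
  obtain ⟨P, hP0, hP⟩ := Per2Aux.uniform_period hF hU iU
  refine ⟨a, P, hP0, fun t x hx => ?_⟩
  let G0 : Ed k → M := S.mulIndicator fun x => f x ^ l ^ a
  have hG0 : G0 ∈ F := ⟨fun x hx => by
    simp only [G0, Set.mulIndicator_of_mem hx]; exact hT1 x hx,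
    fun x hx => Set.mulIndicator_of_notMem hx _⟩
  have comp : ∀ j, ∀ x ∈ S, U^[j] G0 x = (UL l)^[j] f x ^ l ^ a := by
    intro j
    induction j with
    | zero => exact fun x hx => Set.mulIndicator_of_mem hx fun x => f x ^ l ^ a
    | succ j ih =>
      intro x hx
      rw [Function.iterate_succ_apply', Function.iterate_succ_apply']
      simp only [U, Set.mulIndicator_of_mem hx]
      rw [UL, UL, ← Finset.prod_pow]
      exact Finset.prod_congr rfl fun D hD => ih _ (hcl x hx D (Finset.mem_of_mem_erase hD))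
  rw [← comp _ x hx, hP G0 hG0 t]
  exact Set.mulIndicator_of_mem hx _

end Pool.Agent.MP_c481b3_nt.H28
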