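import Pool.Agent.MP_c481b3_nt.H28.InertC

set_option autoImplicit false

namespace Pool.Agent.MP_c481b3_nt.H28

open NumberField IsDedekindDomain

lemma sunit_fg (K : Type) [Field K] [NumberField K] (S : Set (HeightOneSpectrum (𝓞 K)))
    (hS : S.Finite) : Group.FG (S.unit K) := by
  have := hS.to_subtype
  let ψ : Additive (S.unit K) →+ (S → ℤ) :=
    { toFun := fun x v => (v.1.valuationOfNeZero (K := K) (x.toMul : Kˣ)).toAdd
      map_zero' := by ext v; simp
      map_add' := by intro x y; ext v; simp }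
  let ι : (𝓞 K)ˣ →* S.unit K :=
    (Units.map (algebraMap (𝓞 K) K : 𝓞 K →* K)).codRestrict _ fun x v _ => by
      have h := v.valuation_of_unit_eq (K := K) x
      rw [← WithZero.coe_inj, HeightOneSpectrum.valuationOfNeZero_eq] at h
      exact h
  rw [GroupFG.iff_add_fg, ← Module.Finite.iff_addGroup_fg, Module.finite_def]
  refine Submodule.fg_of_fg_map_of_fg_inf_ker ψ.toIntLinearMap (IsNoetherian.noetherian _) ?_
  have e : ⊤ ⊓ LinearMap.ker ψ.toIntLinearMap =
      LinearMap.range (MonoidHom.toAdditive ι).toIntLinearMap := by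
    rw [top_inf_eq]
    apply le_antisymm
    · intro x hx
      have h1 : ∀ v : HeightOneSpectrum (𝓞 K), v.valuation K ((x.toMul : Kˣ) : K) = 1 := by
        intro v
        by_cases hv : v ∈ S
        · have h2 : (v.valuationOfNeZero (K := K) (x.toMul : Kˣ)).toAdd = 0 :=
            congrFun (LinearMap.mem_ker.1 hx) ⟨v, hv⟩
          rw [← HeightOneSpectrum.valuationOfNeZero_eq, toAdd_eq_zero.1 h2]
          rfl
        · exact x.toMul.property v hv
      obtain ⟨a, ha⟩ := HeightOneSpectrum.mem_integers_of_valuation_le_one K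
        ((x.toMul : Kˣ) : K) fun v => (h1 v).le
      obtain ⟨b, hb⟩ := HeightOneSpectrum.mem_integers_of_valuation_le_one K
        (((x.toMul : Kˣ) : K)⁻¹) fun v => by rw [map_inv₀, h1 v, inv_one]
      have hab : a * b = 1 := by
        apply IsFractionRing.injective (𝓞 K) K
        rw [map_mul, ha, hb, map_one, mul_inv_cancel₀ (Units.ne_zero _)]
      refine ⟨Additive.ofMul ⟨a, b, hab, by rw [mul_comm, hab]⟩, ?_⟩
      apply Additive.toMul.injective
      apply Subtype.ext
      apply Units.ext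
      exact ha
    · rintro _ ⟨x, rfl⟩
      rw [LinearMap.mem_ker]
      ext v
      exact toAdd_eq_zero.2 (v.1.valuation_of_unit_eq (K := K) x.toMul)
  rw [e, ← Submodule.map_top]
  exact Submodule.FG.map _ Module.Finite.fg_top

theorem sFin : SFin := by
  classical
  intro K _ _ S hS r hr
  have := sunit_fg K S hS
  have := Subgroup.finiteIndex_range_powMonoidHom_of_fg (S.unit K) hr
  let H := (powMonoidHom (α := S.unit K) r).range
  have : Fintype (S.unit K ⧸ H) := Fintype.ofFinite _
  refine ⟨Finset.univ.image fun q : S.unit K ⧸ H => ((q.out : Kˣ) : K), fun w hw h => ?_⟩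
  let x : S.unit K := ⟨Units.mk0 w hw, h⟩
  obtain ⟨⟨_, d, rfl⟩, hd⟩ := QuotientGroup.mk_out_eq_mul H x
  refine ⟨_, Finset.mem_image.2 ⟨(x : S.unit K ⧸ H), Finset.mem_univ _, rfl⟩,
    ((d : Kˣ) : K)⁻¹, ?_⟩
  rw [hd]
  simp [x]

end Pool.Agent.MP_c481b3_nt.H28
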