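import Pool.Agent.MP_c481b3_nt.H28.DivPi

set_option autoImplicit false

namespace Pool.Agent.MP_c481b3_nt.H28

open Pool.Agent.MP_c481b3_nt.H81 Polynomial

variable {k : Type*} [Field k] [DecidableEq k] [IsAlgClosed k] {A B : k}

section conj
variable {M : Type*} [Field M] [DecidableEq M] {A' B' : M} (τ : k →+* M) (hA : τ A = A')
  (hB : τ B = B') (hG' : Good A' B')

omit [IsAlgClosed k] in
lemma vA_image {D : Finset (Pt A B)} (hD : IsSub D) :
    vA (D.image (Sc.ofHom τ hA hB hG').map) = τ (vA D) ∧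
      vB (D.image (Sc.ofHom τ hA hB hG').map) = τ (vB D) := by
  have hf : ∀ P ∈ D.erase 0, (rd_triv τ hA hB hG').red P ≠ 0 := fun P hP => by
    rw [red_triv τ hA hB hG']; exact Sc.map_ne _ (Finset.mem_erase.1 hP).1
  have h1 := (ev_vA _ hD hf).unique (ev_triv τ _)
  have h2 := (ev_vB _ hD hf).unique (ev_triv τ _)
  rw [Finset.image_congr fun P _ => red_triv τ hA hB hG' P] at h1 h2
  exact ⟨h1, h2⟩

lemma vm_conj [IsAlgClosed M] {D : Finset (Pt A B)} {u : k} (d : VD D u A B) :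
    VD (D.image (Sc.ofHom τ hA hB hG').map) (τ u) A' B' ∧ ∀ P, (Sc.ofHom τ hA hB hG').map
      (vm D u A B P) = vm (D.image (Sc.ofHom τ hA hB hG').map) (τ u) A' B'
        ((Sc.ofHom τ hA hB hG').map P) := by
  have hf : ∀ P ∈ D.erase 0, (rd_triv τ hA hB hG').red P ≠ 0 := fun P hP => by
    rw [red_triv τ hA hB hG']; exact Sc.map_ne _ (Finset.mem_erase.1 hP).1
  have h1 := d.red (rd_triv τ hA hB hG') (rd_triv τ hA hB hG') (ev_triv τ u)
    ((_root_.map_ne_zero τ).2 d.hu) hf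
  have h2 := d.red_vm (rd_triv τ hA hB hG') (rd_triv τ hA hB hG') (ev_triv τ u)
    ((_root_.map_ne_zero τ).2 d.hu) hf
  rw [Finset.image_congr fun P _ => red_triv τ hA hB hG' P] at h1 h2
  exact ⟨h1, fun P => by rw [← red_triv, ← red_triv τ hA hB hG' P]; exact h2 P⟩

end conj

variable [DecidableEq (RatFunc k)] [DecidableEq (LL k)] (hG : Good A B) (h3 : (3 : k) ≠ 0)
  (p n : ℕ) [Fact p.Prime] [CharP k p] (hA : A ^ p ^ n = A) (hB : B ^ p ^ n = B)

lemma frE_apply (P : Pt A B) : (frE hG p n hA hB).1 P = frP hG p n hA hB P := rfl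

include h3

lemma frE_ne : frE hG p n hA hB ≠ 0 := fun e => by
  have := NE_frE hG p n hA hB
  rw [e, (compRing h3 hG).zero] at this
  exact pow_ne_zero n (Int.natCast_ne_zero.2 (Fact.out : p.Prime).ne_zero) this.symm

lemma exists_conj (φ : EE hG) (hc : cE hG φ ≠ 0) : ∃ ψ : EE hG,
    frE hG p n hA hB * φ = ψ * frE hG p n hA hB ∧ cE hG ψ = cE hG φ ^ p ^ n := by
  obtain ⟨D, d, -, e⟩ := exists_vd h3 φ hc
  obtain ⟨d', h⟩ := vm_conj (iterateFrobenius k p n) hA hB hG d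
  obtain ⟨ψ, h1, h2, -⟩ := d'.exists_end (hG := hG) h3
  exact ⟨ψ, EE_ext fun P => by rw [EE_mul, EE_mul, h1, e]; exact h P, h2⟩

lemma c_anti {φ : EE hG} (hc : cE hG φ ≠ 0)
    (h : φ * frE hG p n hA hB = -(frE hG p n hA hB * φ)) : cE hG φ ^ p ^ n = -cE hG φ := by
  obtain ⟨ψ, h1, h2⟩ := exists_conj hG h3 p n hA hB φ hc
  rw [h1, ← neg_mul] at h
  rw [← h2, (compRing h3 hG).cancel' (frE_ne hG h3 p n hA hB) h, map_neg, neg_neg]

lemma anti_of_stab (a0 : A ≠ 0) (b0 : B ≠ 0) {D : Finset (Pt A B)} {u : k} (d : VD D u A B)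
    {φ : EE hG} (hφ : φ.1 = d.hom h3) (hs : ∀ P ∈ D, frP hG p n hA hB P ∈ D)
    (hu : u ^ p ^ n ≠ u) : φ * frE hG p n hA hB = -(frE hG p n hA hB * φ) := by
  obtain ⟨d', h⟩ := vm_conj (iterateFrobenius k p n) hA hB hG d
  have e : D.image (Sc.ofHom (iterateFrobenius k p n) hA hB hG).map = D :=
    Finset.eq_of_subset_of_card_le (Finset.image_subset_iff.2 hs)
      (Finset.card_image_of_injective _ (Sc.injective _)).ge
  rw [e] at d' h
  have e2 : iterateFrobenius k p n u = -u := (d.u_eq d' a0 b0).resolve_left hu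
  refine EE_ext fun P => ?_
  rw [EE_neg, EE_mul, EE_mul, hφ]
  have := h P
  rw [e2, d.vm_neg_u] at this
  exact (neg_eq_iff_eq_neg.2 this).symm

omit [Fact p.Prime] [CharP k p] in
lemma norm_two {φ : EE hG} (hc : cE hG φ ^ 2 = -2) (h : NE φ = 2) :
    392 * A ^ 3 + 3375 * B ^ 2 = 0 := by
  obtain ⟨D, d, h1, -⟩ := exists_vd h3 φ (fun e => hG.two (by simpa [e] using hc))
  have h2 : (D.erase 0).card = 1 := by rw [Finset.card_erase_of_mem d.sub.zero]; omega
  obtain ⟨T, hT⟩ := Finset.card_eq_one.1 h2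
  have m : T ∈ D.erase 0 := by rw [hT]; exact Finset.mem_singleton_self T
  obtain ⟨t0, t1⟩ := Finset.mem_erase.1 m
  have e : -T = T := by
    rw [← Finset.mem_singleton, ← hT]
    exact Finset.mem_erase.2 ⟨neg_ne_zero.2 t0, d.sub.neg t1⟩
  have y0 : yc T = 0 := by
    have := congrArg yc e
    rw [yc_neg] at this
    exact mul_left_cancel₀ hG.two (by linear_combination -this)
  have q := eqn t0
  have a := d.hA
  rw [vA, hT, Finset.sum_singleton, ca, show cE hG φ ^ 4 = (cE hG φ ^ 2) ^ 2 by ring, hc] at a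
  rw [y0] at q
  have a1 : 8 * A = -15 * xc T ^ 2 := by linear_combination -a
  have b1 : 8 * B = 7 * xc T ^ 3 := by linear_combination -8 * q - xc T * a1
  refine mul_left_cancel₀ (pow_ne_zero 6 hG.two) ?_
  linear_combination 49 * ((8 * A) ^ 2 - 15 * (8 * A) * xc T ^ 2 + 225 * xc T ^ 4) * a1
    + 3375 * (8 * B + 7 * xc T ^ 3) * b1

omit [Fact p.Prime] [CharP k p] h3 in
lemma eigen {π : EE hG} {p : ℕ} (hπ : π * π = -(p : EE hG)) {r : ℕ} (hr : r.Prime) {Q : Pt A B}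
    (h0 : Q ≠ 0) (hQ : r • Q = 0) {m : ℤ} (h : m • Q = π.1 Q) : (r : ℤ) ∣ m ^ 2 + p := by
  have := Fact.mk hr
  have e : (m ^ 2 + p) • Q = 0 := by
    have h1 := congrArg (fun φ : EE hG => φ.1 Q) hπ
    simp only [EE_mul, EE_neg, EE_nat] at h1
    rw [← h, map_zsmul, ← h, ← mul_zsmul] at h1
    rw [add_zsmul, sq, h1, natCast_zsmul, neg_add_cancel]
  rw [← addOrderOf_eq_prime hQ h0]
  exact addOrderOf_dvd_iff_zsmul_eq_zero.2 e

omit [Fact p.Prime] [CharP k p] in
lemma descend {π φ : EE hG} {p : ℕ} (hπ : π * π = -(p : EE hG)) (π0 : π ≠ 0) {r : ℕ}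
    (hr : r.Prime) (r0 : (r : k) ≠ 0) (h : φ * π = -(π * φ)) (hd : (r : ℤ) ∣ NE φ) :
    (∃ ψ, φ = r * ψ) ∨ ∃ (m : ℤ) (ψ : EE hG), (r : ℤ) ∣ m ^ 2 + p ∧ (π - m) * φ = r * ψ := by
  have t : Tm A B r := ⟨hG, h3, r0⟩
  by_cases hk : ∀ P, r • P = 0 → φ.1 P = 0
  · exact Or.inl (div_nat t φ hk)
  push Not at hk
  obtain ⟨Q, q1, q2⟩ := hk
  obtain ⟨s, hs⟩ := hd
  have sq0 : ∀ P, r • P = 0 → φ.1 (φ.1 P) = 0 := fun P hP => by
    rw [← EE_mul, (compRing h3 hG).sq_anti π0 h, EE_neg, EE_int, hs, mul_comm, mul_zsmul,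
      natCast_zsmul, hP, zsmul_zero, neg_zero]
  set f : Pt A B →+ Pt A B := φ.1 with hf
  have i1 := isSub_image f t.sub
  have k1 := isSub_ker f t.sub
  have c1 := card_hom f t.sub
  have s1 : (tors A B r).image f ⊆ (tors A B r).filter fun P => f P = 0 := by
    intro P hP
    obtain ⟨R, hR, rfl⟩ := Finset.mem_image.1 hP
    exact Finset.mem_filter.2 ⟨t.mem.2 (by rw [← map_nsmul, t.mem.1 hR, map_zero]),
      sq0 R (t.mem.1 hR)⟩
  have m1 : f Q ∈ (tors A B r).image f := Finset.mem_image_of_mem f (t.mem.2 q1)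
  have c2 : ((tors A B r).image f).card = r := by
    have a1 := Finset.card_le_card s1
    have a2 : 1 < ((tors A B r).image f).card := Finset.one_lt_card.2 ⟨_, m1, 0, i1.zero, q2⟩
    rw [t.card] at c1
    obtain ⟨i, i2, hi⟩ := (Nat.dvd_prime_pow hr).1 (Dvd.intro _ c1.symm)
    rw [hi] at a1 a2 c1 ⊢
    interval_cases i
    · simp at a2
    · simp
    · have := hr.two_le
      nlinarith
  have e := eq_gen hr i1 c2 q2 m1
  have o1 : r • f Q = 0 := by rw [← map_nsmul, q1, map_zero]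
  have a : ∀ P, π.1 (f P) = f (-π.1 P) := fun P => by
    have := congrArg (fun φ : EE hG => φ.1 P) h
    simp only [EE_mul, EE_neg] at this
    rw [map_neg]
    exact (neg_eq_iff_eq_neg.1 this.symm)
  obtain ⟨m, hm⟩ := (mem_gen hr.ne_zero o1 (Q := π.1 (f Q))).1 (e ▸ (a Q ▸
    Finset.mem_image_of_mem f (t.mem.2 (by rw [smul_neg, ← map_nsmul, q1, map_zero, neg_zero]))))
  obtain ⟨ψ, hψ⟩ := div_nat t ((π - m) * φ) fun P hP => by
    obtain ⟨j, hj⟩ := (mem_gen hr.ne_zero o1 (Q := f P)).1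
      (e ▸ Finset.mem_image_of_mem f (t.mem.2 hP))
    rw [EE_mul, EE_sub, EE_int]
    change π.1 (f P) - m • f P = 0
    rw [← hj, map_zsmul, ← hm, smul_comm, sub_self]
  exact Or.inr ⟨m, ψ, eigen hG hπ hr q2 o1 hm, hψ⟩

lemma exists_anti (hp : p % 4 = 1) (hA : A ^ p ^ 1 = A) (hB : B ^ p ^ 1 = B)
    (hπ : frE hG p 1 hA hB * frE hG p 1 hA hB = -(p : EE hG)) :
    ∃ φ : EE hG, φ ≠ 0 ∧ φ * frE hG p 1 hA hB = -(frE hG p 1 hA hB * φ) := by
  have pp : p.Prime := Fact.out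
  set π := frE hG p 1 hA hB with hπd
  obtain ⟨r, r1, hr, r2⟩ := Nat.forall_exists_prime_gt_and_modEq (p ^ 4) (q := 4 * p)
    (a := 2 * p + 1) (by have := pp.pos; omega) (by
      refine Nat.Coprime.mul_right ?_ (by simp)
      exact Nat.Coprime.pow_right 2 (show (2 * p + 1).Coprime 2 by simp))
  have r4 : r % 4 = 3 := by
    have := (Nat.ModEq.of_mul_right p r2)
    unfold Nat.ModEq at this
    omega
  have rp : r ≡ 1 [MOD p] := (Nat.ModEq.of_mul_left 4 r2).trans (by simp [Nat.ModEq])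
  have p4 : p < r := lt_of_le_of_lt (Nat.le_self_pow (by norm_num) p) r1
  have r0 : (r : k) ≠ 0 := by
    rw [Ne, CharP.cast_eq_zero_iff k p, Nat.prime_dvd_prime_iff_eq pp hr]; omega
  have nr : ∀ m : ℤ, ¬(r : ℤ) ∣ m ^ 2 + p := by
    intro m hm
    have ro : Odd r := by rw [Nat.odd_iff]; omega
    have e1 : jacobiSym (-(p : ℤ)) r = jacobiSym (m ^ 2) r :=
      jacobiSym.mod_left' (Int.modEq_iff_dvd.2 (by simpa using hm))
    have e2 : jacobiSym (p : ℤ) r = 1 := by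
      rw [jacobiSym.quadratic_reciprocity_one_mod_four hp ro,
        jacobiSym.mod_left' (a₂ := 1) (by exact_mod_cast rp), jacobiSym.one_left]
    rw [jacobiSym.neg _ ro, e2, ZMod.χ₄_nat_three_mod_four r4, jacobiSym.pow_left] at e1
    nlinarith [sq_nonneg (jacobiSym m r)]
  have t : Tm A B r := ⟨hG, h3, r0⟩
  have ro : ∀ D ∈ subs A B r, Odd D.card := fun D hD => by
    rw [(t.mem_subs.1 hD).2, Nat.odd_iff]; omega
  set S := (X ^ (p * p) - X : k[X]).roots.toFinset with hS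
  have q1 : 1 < p * p := by nlinarith [pp.two_le]
  have cS : S.card ≤ p * p := (Multiset.toFinset_card_le _).trans ((card_roots' _).trans
    (FiniteField.X_pow_card_sub_X_natDegree_eq k q1).le)
  have mS : ∀ x : k, (x ^ p ^ 1) ^ p ^ 1 = x → x ∈ S := fun x hx => by
    rw [hS, Multiset.mem_toFinset, mem_roots (FiniteField.X_pow_card_sub_X_ne_zero k q1)]
    simpa [pow_mul, sub_eq_zero] using hx
  obtain ⟨C₁, m1, C₂, m2, hne, e⟩ := Finset.exists_ne_map_eq_of_card_lt_of_maps_to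
    (s := subs A B r) (t := S ×ˢ S) (f := fun D => (vA D, vB D)) (by
      rw [t.card_subs hr, Finset.card_product]
      calc _ ≤ p * p * (p * p) := Nat.mul_le_mul cS cS
        _ = p ^ 4 := by ring
        _ < _ := by omega) (by
      intro D hD
      have c := (t.mem_subs.1 hD).1
      have e1 : (D.image (frP hG p 1 hA hB)).image (frP hG p 1 hA hB) = D := by
        refine Finset.eq_of_subset_of_card_le (fun P hP => ?_) ?_
        · rw [Finset.image_image] at hP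
          obtain ⟨Q, hQ, rfl⟩ := Finset.mem_image.1 hP
          change (π * π).1 Q ∈ D
          rw [hπ, EE_neg, EE_nat]
          exact c.neg (nsmul_mem_sub c hQ p)
        · rw [Finset.card_image_of_injective _ (frP_bij hG p 1 hA hB).1,
            Finset.card_image_of_injective _ (frP_bij hG p 1 hA hB).1]
      obtain ⟨a1, a2⟩ := vA_image (iterateFrobenius k p 1) hA hB hG c
      obtain ⟨b1, b2⟩ := vA_image (iterateFrobenius k p 1) hA hB hG
        (isSub_image (frP hG p 1 hA hB) c)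
      change vA ((D.image (frP hG p 1 hA hB)).image (frP hG p 1 hA hB)) = _ at b1
      change vB ((D.image (frP hG p 1 hA hB)).image (frP hG p 1 hA hB)) = _ at b2
      rw [e1] at b1 b2
      exact Finset.mem_coe.2 (Finset.mem_product.2 ⟨mS _ ((congrArg _ a1.symm).trans b1.symm),
        mS _ ((congrArg _ a2.symm).trans b2.symm)⟩))
  obtain ⟨s1, c1⟩ := t.mem_subs.1 m1
  obtain ⟨s2, c2⟩ := t.mem_subs.1 m2
  have d1 := vd_one hG h3 s1 (ro _ m1)
  have d2 := vd_one hG h3 s2 (ro _ m2)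
  rw [← (Prod.mk.inj e).1, ← (Prod.mk.inj e).2] at d2
  have d3 := d2.dual t c2
  have t2 : Tm A B (r * r) := ⟨hG, h3, by rw [Nat.cast_mul]; exact mul_ne_zero r0 r0⟩
  set D₂ := (tors A B r).image (d2.hom t.three) with hD₂
  set H := (tors A B (r * r)).filter fun P => d3.hom h3 (d1.hom h3 P) = 0 with hH
  have sH : IsSub H := isSub_ker ((d3.hom h3).comp (d1.hom h3)) t2.sub
  have mH : ∀ P, P ∈ H ↔ d1.hom h3 P ∈ D₂ := fun P => by
    rw [hH, Finset.mem_filter, d3.hom_eq_zero]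
    refine ⟨fun h => h.2, fun h => ⟨t2.mem.2 ?_, h⟩⟩
    have := d3.sub.nsmul_card h
    rw [d2.dual_card t c2, ← map_nsmul, d1.hom_eq_zero] at this
    rw [mul_nsmul', ← c1]
    exact s1.nsmul_card (c1 ▸ this)
  have iH : H.image (d1.hom h3) = D₂ := by
    ext Q
    rw [Finset.mem_image]
    refine ⟨fun ⟨P, hP, e⟩ => e ▸ (mH P).1 hP, fun hQ => ?_⟩
    obtain ⟨P, rfl⟩ := d1.surj h3 Q
    exact ⟨P, (mH P).2 hQ, rfl⟩
  have uH : C₁ ⊆ H := fun P hP => (mH P).2 (by rw [(d1.hom_eq_zero h3).2 hP]; exact d3.sub.zero)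
  obtain ⟨α, hα, -, -⟩ := (d1.comp h3 sH uH (iH ▸ d3)).exists_end (hG := hG) h3
  have kα : ∀ P, α.1 P = 0 ↔ P ∈ H := fun P => by rw [hα]; exact VD.hom_eq_zero _ h3
  refine ⟨α * π - π * α, fun e0 => ?_, ?_⟩
  · obtain ⟨Q, hQ⟩ : (C₁.erase 0).Nonempty := Finset.card_pos.1 (by
      rw [Finset.card_erase_of_mem s1.zero, c1]; have := hr.two_le; omega)
    obtain ⟨q0, q1⟩ := Finset.mem_erase.1 hQ
    have o1 : r • Q = 0 := c1 ▸ s1.nsmul_card q1
    have sK := isSub_inter t.sub sH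
    have uK : C₁ ⊆ tors A B r ∩ H := Finset.subset_inter (t.subset s1 c1) uH
    have mK : π.1 Q ∈ tors A B r ∩ H := Finset.mem_inter.2
      ⟨t.mem.2 (by rw [← map_nsmul, o1, map_zero]), by
        rw [← kα, ← EE_mul, sub_eq_zero.1 e0, EE_mul, (kα Q).2 (uH q1), map_zero]⟩
    have k1 := card_dvd sK t.sub Finset.inter_subset_left
    have k2 := Finset.card_le_card uK
    rw [t.card] at k1
    obtain ⟨i, i2, hi⟩ := (Nat.dvd_prime_pow hr).1 k1
    interval_cases i
    · have := hr.two_le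
      rw [hi, c1, pow_zero] at k2
      omega
    · rw [← Finset.eq_of_subset_of_card_le uK (by rw [hi, c1, pow_one]), eq_gen hr s1 c1 q0 q1,
        mem_gen hr.ne_zero o1] at mK
      obtain ⟨m, hm⟩ := mK
      exact nr m (eigen hG hπ hr q0 o1 hm)
    · have k3 := Finset.eq_of_subset_of_card_le
        (Finset.inter_subset_left (s₁ := tors A B r) (s₂ := H)) (by rw [hi, t.card])
      have k4 : (tors A B r).image (d1.hom t.three) = D₂ := by
        refine Finset.eq_of_subset_of_card_le (Finset.image_subset_iff.2 fun P hP => (mH P).1 ?_)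
          (by rw [d1.dual_card t c1, d2.dual_card t c2])
        rw [← k3] at hP
        exact (Finset.mem_inter.1 hP).2
      refine hne ?_
      rw [← d1.dual_dual t c1, ← d2.dual_dual t c2]
      refine Finset.image_congr fun P _ => ?_
      rw [VD.hom_apply, VD.hom_apply, k4]
  · have c : π * π * α = α * (π * π) := by rw [hπ, neg_mul, mul_neg, Nat.cast_comm]
    rw [sub_mul, mul_sub, mul_assoc α, ← c, ← mul_assoc π π, ← mul_assoc π α, neg_sub]

lemma exists_sep (hp : p % 4 = 1) (hA : A ^ p ^ 1 = A) (hB : B ^ p ^ 1 = B)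
    (hπ : frE hG p 1 hA hB * frE hG p 1 hA hB = -(p : EE hG)) :
    ∃ φ : EE hG, φ * frE hG p 1 hA hB = -(frE hG p 1 hA hB * φ) ∧ ¬(p : ℤ) ∣ NE φ := by
  have c := compRing h3 hG
  have π0 := frE_ne hG h3 p 1 hA hB
  have key : ∀ (m : ℕ) (φ : EE hG), NE φ = m → φ ≠ 0 →
      φ * frE hG p 1 hA hB = -(frE hG p 1 hA hB * φ) →
      ∃ φ : EE hG, φ * frE hG p 1 hA hB = -(frE hG p 1 hA hB * φ) ∧ ¬(p : ℤ) ∣ NE φ := by
    intro m
    induction m using Nat.strong_induction_on with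
    | _ m ih =>
      intro φ hm h0 h
      by_cases hc : cE hG φ = 0
      · obtain ⟨ψ, rfl⟩ := div_frob hG p hA hB φ hc
        have ψ0 : ψ ≠ 0 := left_ne_zero_of_mul h0
        have a := c.pos ψ0
        rw [c.mul, NE_frE, pow_one] at hm
        have b : (2 : ℤ) ≤ p := by exact_mod_cast (Fact.out : p.Prime).two_le
        refine ih (NE ψ).toNat (by zify; rw [Int.toNat_of_nonneg a.le]; nlinarith) ψ
          (Int.toNat_of_nonneg a.le).symm ψ0 (c.cancel' π0 ?_)
        rw [h, neg_mul, mul_assoc]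
      · refine ⟨φ, h, fun hd => hc ?_⟩
        have := congrArg (cE hG) (c.sq_anti π0 h)
        rw [map_mul, map_neg, map_intCast, (CharP.intCast_eq_zero_iff k p _).2 hd, neg_zero] at this
        exact mul_self_eq_zero.1 this
  obtain ⟨φ, h0, h⟩ := exists_anti hG h3 p hp hA hB hπ
  exact key (NE φ).toNat φ (Int.toNat_of_nonneg (c.nonneg φ)).symm h0 h

lemma nonres (hA : A ^ p ^ 1 = A) (hB : B ^ p ^ 1 = B) {φ : EE hG}
    (h : φ * frE hG p 1 hA hB = -(frE hG p 1 hA hB * φ)) (hd : ¬(p : ℤ) ∣ NE φ) :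
    ¬IsSquare ((-NE φ : ℤ) : ZMod p) := by
  rintro ⟨s, hs⟩
  have e := congrArg (cE hG) ((compRing h3 hG).sq_anti (frE_ne hG h3 p 1 hA hB) h)
  rw [map_mul, map_neg, map_intCast] at e
  have c0 : cE hG φ ≠ 0 := fun e0 => hd ((CharP.intCast_eq_zero_iff k p _).1 (by
    rw [e0] at e; simpa using e))
  have e1 := c_anti hG h3 p 1 hA hB c0 h
  have e2 := congrArg (ZMod.castHom (dvd_refl p) k) hs
  rw [map_intCast, Int.cast_neg, ← e, map_mul, mul_self_eq_mul_self_iff] at e2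
  have e3 : ZMod.castHom (dvd_refl p) k s ^ p ^ 1 = ZMod.castHom (dvd_refl p) k s := by
    rw [← map_pow, pow_one, ZMod.pow_card]
  have e4 : cE hG φ ^ p ^ 1 = cE hG φ := by
    rcases e2 with e2 | e2
    · rw [e2, e3]
    · rw [e2, (odd_char hG p 1).neg_pow, e3]
  exact c0 (mul_left_cancel₀ hG.two (by linear_combination e1 - e4))

end Pool.Agent.MP_c481b3_nt.H28
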