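import Pool.Agent.MP_c481b3_nt.H28.GRed

set_option autoImplicit false

namespace Pool.Agent.MP_c481b3_nt.H28

open Pool.Agent.MP_c481b3_nt.H81 Polynomial NumberField IsLocalRing IsDedekindDomain Filter
  Topology

/-! ### densities -/

/-- a set of integers with convergent sum of reciprocals -/
def Thin (W : Set ℕ) : Prop := Summable (W.indicator fun q : ℕ => (q : ℝ)⁻¹)

/-- upper bound for sums over prime ideals -/
def DensUp : Prop :=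
  ∀ (K : Type) [Field K] [NumberField K], ∃ C : ℝ, ∀ᶠ x : ℝ in 𝓝[>] 1,
    ∀ S : Finset (Ideal (𝓞 K)), (∀ P ∈ S, P.IsMaximal) →
      ∑ P ∈ S, (Ideal.absNorm P : ℝ) ^ (-x) ≤ C - Real.log (x - 1)

/-- lower bound for sums over primes in a residue class -/
def DensLow : Prop :=
  ∀ (m : ℕ) (c : ZMod m), m ≠ 0 → IsUnit c → ∃ C : ℝ, ∀ᶠ x : ℝ in 𝓝[>] 1,
    ∃ S : Finset ℕ, (∀ q ∈ S, q.Prime ∧ (q : ZMod m) = c) ∧
      -Real.log (x - 1) / m.totient - C ≤ ∑ q ∈ S, (q : ℝ) ^ (-x)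

/-- primes of a residue class do not all split completely in a field of large degree -/
def NotSplit : Prop :=
  ∀ (L : Type) [Field L] [CharZero L] [IsAlgClosed L] [Algebra.IsAlgebraic ℚ L] (T : Finset L)
    (m : ℕ) (c : ZMod m), m ≠ 0 → IsUnit c →
    m.totient < Module.finrank ℚ (IntermediateField.adjoin ℚ (T : Set L)) →
    ∀ W : Set ℕ, Thin W → ∃ q : ℕ, q.Prime ∧ q ∉ W ∧ (q : ZMod m) = c ∧
      ∀ O : ValuationSubring L, O.valuation (q : L) < 1 →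
        ∃ t ∈ T, ∃ σ : L ≃+* L, ¬(σ t ∈ O ∧ O.valuation (σ t ^ q - σ t) < 1)

/-- an element of norm one that is no `r`-th power stays so modulo many inert primes -/
def KumK : Prop :=
  ∀ (L : Type) [Field L] [CharZero L] [IsAlgClosed L] [Algebra.IsAlgebraic ℚ L] (D r : ℕ) (s : L)
    (a b : ℚ), D % 4 = 3 → s ^ 2 = -D → r.Prime → 4 * D < r → (a : L) - b * s ≠ 0 →
    (∀ c d : ℚ, ((c : L) + d * s) ^ r ≠ (a + b * s) / (a - b * s)) →
    ∀ W : Set ℕ, Thin W → ∃ q : ℕ, q.Prime ∧ q ∉ W ∧ q % 4 = 1 ∧ ¬IsSquare (-(D : ZMod q)) ∧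
      r ∣ q + 1 ∧ ∀ O : ValuationSubring L, O.valuation (q : L) < 1 →
        ¬O.valuation ((((a : L) + b * s) / (a - b * s)) ^ ((q ^ 2 - 1) / r) - 1) < 1

/-- finitely many classes of `S`-units modulo `r`-th powers -/
def SFin : Prop :=
  ∀ (K : Type) [Field K] [NumberField K] (S : Set (HeightOneSpectrum (𝓞 K))), S.Finite →
    ∀ r : ℕ, r ≠ 0 → ∃ F : Finset K, ∀ w : K, w ≠ 0 → (∀ v, v ∉ S → v.valuation K w = 1) →
      ∃ α ∈ F, ∃ δ : K, w = α * δ ^ r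

/-- the arithmetic contradiction -/
def NTMain : Prop :=
  ∀ (L : Type) [Field L] [CharZero L] [IsAlgClosed L] [Algebra.IsAlgebraic ℚ L] (D l M p₀ : ℕ)
    (s : L) (w : ℕ → L) (O₀ : ValuationSubring L) (γ : O₀.ValueGroup) (W : Set ℕ),
    D % 4 = 3 → s ^ 2 = -D → l ≠ 0 → Thin W → p₀.Prime → O₀.valuation (p₀ : L) < 1 → γ ≠ 1 →
    (∀ T, ∃ a b : ℚ, (a : L) - b * s ≠ 0 ∧ w T = (a + b * s) / (a - b * s)) →
    (∀ T, T ≠ 0 → O₀.valuation (w T) = γ) →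
    (∀ (T p : ℕ) (O : ValuationSubring L), p.Prime → M < p → IsSquare (-(D : ZMod p)) →
      O.valuation (p : L) < 1 → O.valuation (w T) = 1) →
    (∀ q : ℕ, q.Prime → q ∉ W → q % 4 = 1 → ¬IsSquare (-(D : ZMod q)) →
      ∃ O : ValuationSubring L, O.valuation (q : L) < 1 ∧ ∃ a T : ℕ, T ≠ 0 ∧
        ∀ t, O.valuation (w (T * t) ^ l ^ a - 1) < 1) → False

/-- the norm to a quadratic field as a product over automorphisms -/
def NormSpec : Prop :=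
  ∀ (L : Type) [Field L] [CharZero L] [IsAlgClosed L] [Algebra.IsAlgebraic ℚ L] (D : ℕ) (s : L),
    D ≠ 0 → s ^ 2 = -D → ∀ T : Finset L, (∃ τ : L ≃+* L, τ s = -s) ∧
    ∃ (n : ℕ) (θ : Fin (n + 1) → L ≃+* L), θ 0 = RingEquiv.refl L ∧ (∀ i, θ i s = s) ∧
      ∀ z : L, (∀ σ : L ≃+* L, (∀ t ∈ T, σ t = t) → σ z = z) →
        ∃ a b : ℚ, ∏ i, θ i z = a + b * s

/-! ### the walk along isogenies of odd prime degree -/

/-- a curve, two marked points and a subgroup -/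
structure Ed (k : Type) [Field k] where
  A : k
  B : k
  P : Pt A B
  Q : Pt A B
  C : Finset (Pt A B)

section walk
variable {k : Type} [Field k] [DecidableEq k]

/-- the kernel of the dual isogeny -/
noncomputable def Ed.du (l : ℕ) (x : Ed k) : Finset (Pt (vA x.C) (vB x.C)) :=
  (tors x.A x.B l).image (vm x.C 1 (vA x.C) (vB x.C))

/-- pass to the quotient and choose a new subgroup -/
noncomputable def Ed.nx (x : Ed k) (D : Finset (Pt (vA x.C) (vB x.C))) : Ed k :=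
  ⟨vA x.C, vB x.C, vm x.C 1 _ _ x.P, vm x.C 1 _ _ x.Q, D⟩

/-- the product over the steps without backtracking -/
noncomputable def UL (l : ℕ) {M : Type} [CommMonoid M] (f : Ed k → M) (x : Ed k) : M :=
  ∏ D ∈ (subs (vA x.C) (vB x.C) l).erase (x.du l), f (x.nx D)

/-- admissible states -/
structure Ed.Ok (l N : ℕ) (x : Ed k) : Prop where
  tm : Tm x.A x.B l
  mem : x.C ∈ subs x.A x.B l
  hP : N • x.P = 0
  hQ : N • x.Q = 0

end walk

/-- periodicity of the walk on a finite closed set of states -/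
def PerL : Prop :=
  ∀ (k : Type) [Field k] [DecidableEq k] [IsAlgClosed k] (l N : ℕ), l.Prime → l ≠ 2 →
    N.Coprime l → ∀ S : Set (Ed k), S.Finite → (∀ x ∈ S, x.Ok l N) →
    (∀ x ∈ S, ∀ D ∈ subs (vA x.C) (vB x.C) l, x.nx D ∈ S) →
    ∀ (M : Type) [CommMonoid M] (f : Ed k → M), (∀ x ∈ S, ∃ n, n ≠ 0 ∧ f x ^ n = 1) →
    ∃ a T : ℕ, T ≠ 0 ∧ ∀ t, ∀ x ∈ S, (UL l)^[T * t] f x ^ l ^ a = f x ^ l ^ a

/-- going down a cyclic isogeny of inert prime power degree raises the conductor -/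
def Vol : Prop :=
  ∀ (k : Type) [Field k] [DecidableEq k] [IsAlgClosed k] [DecidableEq (RatFunc k)]
    [DecidableEq (LL k)] (p : ℕ) [Fact p.Prime] [CharP k p], (3 : k) ≠ 0 →
    (∀ x : k, ∃ n, n ≠ 0 ∧ x ^ p ^ n = x) →
    ∀ (A B A₁ B₁ : k) (hG : Good A B) (hG₁ : Good A₁ B₁) (D l i : ℕ), CMb hG D → (D : k) ≠ 0 →
    IsSquare (-(D : ZMod p)) → l.Prime → l ≠ 2 → (l : k) ≠ 0 → ¬IsSquare (-(D : ZMod l)) →
    ∀ (f : Pt A B →+ Pt A₁ B₁) (g : Pt A₁ B₁ →+ Pt A B), Is (l ^ i) f → Is (l ^ i) g →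
    (∀ P, g (f P) = l ^ i • P) → (∀ P, f (g P) = l ^ i • P) → (∃ T, l • T = 0 ∧ f T ≠ 0) →
    (∃ T, l • T = 0 ∧ g T ≠ 0) →
    ∀ φ : EE hG₁, (l : ℤ) ^ (2 * i) ∣ 4 * NE φ - pol NE φ 1 ^ 2

/-- lifting an ordinary curve together with a square root of `-D` -/
def Deuring : Prop :=
  ∀ (L : Type) [Field L] [CharZero L] [IsAlgClosed L] [Algebra.IsAlgebraic ℚ L] [DecidableEq L]
    (O : ValuationSubring L) (p : ℕ) [Fact p.Prime] [CharP (ResidueField O) p]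
    [DecidableEq (ResidueField O)] [IsAlgClosed (ResidueField O)]
    [DecidableEq (RatFunc (ResidueField O))] [DecidableEq (LL (ResidueField O))], 5 ≤ p →
    ∀ (A B : ResidueField O) (hG : Good A B) (D : ℕ), CMb hG D → D % 4 = 3 → D < 4 * p →
    ¬p ∣ D → IsSquare (-(D : ZMod p)) →
    (∃ Ψ, IsUnivPsi D Ψ ∧ Ψ ≠ 0) ∧ ∃ A₀ B₀ : L, Rd (resPlc O) A₀ B₀ A B ∧ CMv D A₀ B₀

/-- complex multiplication gives an integral invariant away from `6 n` -/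
def GoodRed : Prop :=
  ∀ (L : Type) [Field L] [DecidableEq L] [IsAlgClosed L] [CharZero L] (O : ValuationSubring L)
    (n : ℕ) (Ψ : ℤ[X]), Odd n → IsUnivPsi n Ψ → Ψ ≠ 0 → O.valuation ((6 * n : ℕ) : L) = 1 →
    ∀ (A B u : L) (C : Finset (Pt A B)), VD C u A B → C.card = n → jj A B ∈ O

/-! ### the seed -/

section seed
variable {k : Type} [Field k] [DecidableEq k] [IsAlgClosed k] [DecidableEq (RatFunc k)]
  [DecidableEq (LL k)] {A B : k}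

/-- `(1 + χ) / 2` sends `P` to `Y` -/
def OrE {hG : Good A B} (χ : EE hG) (P Y : Pt A B) : Prop := ∃ R, 2 • R = P ∧ χ.1 R + R = Y

end seed

/-- orientation: existence and uniqueness -/
def OrSpec : Prop :=
  ∀ (k : Type) [Field k] [DecidableEq k] [IsAlgClosed k] [DecidableEq (RatFunc k)]
    [DecidableEq (LL k)], (3 : k) ≠ 0 → ∀ (A B e₁ e₂ e₃ : k) (hG : Good A B) (D : ℕ) (χ : EE hG),
    Rt A B e₁ e₂ e₃ → D % 4 = 3 → χ * χ = -(D : EE hG) →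
    ((∀ P, 2 • P = 0 → χ.1 P = P) → ∃ a b c, ((a, b, c) = (e₁, e₂, e₃) ∨ (a, b, c) = (e₂, e₃, e₁) ∨
      (a, b, c) = (e₃, e₁, e₂)) ∧
      (OrE χ (pt A B a 0) (pt A B b 0) ∨ OrE (-χ) (pt A B a 0) (pt A B b 0))) ∧
    (OrE χ (pt A B e₁ 0) (pt A B e₂ 0) → ¬OrE (-χ) (pt A B e₁ 0) (pt A B e₂ 0) ∧
      ¬OrE (-χ) (pt A B e₂ 0) (pt A B e₃ 0) ∧ ¬OrE (-χ) (pt A B e₃ 0) (pt A B e₁ 0))

/-- Frobenius on a curve with square discriminant -/
def SeedLoc : Prop :=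
  ∀ (k : Type) [Field k] [DecidableEq k] [IsAlgClosed k] [DecidableEq (RatFunc k)]
    [DecidableEq (LL k)] (p : ℕ) [Fact p.Prime] [CharP k p], 5 ≤ p →
    ∀ (A B δ : k) (hG : Good A B) (hA : A ^ p ^ 1 = A) (hB : B ^ p ^ 1 = B), δ ^ p = δ →
    δ ^ 2 = -(4 * A ^ 3 + 27 * B ^ 2) → ∀ a : ℤ, pol NE (frE hG p 1 hA hB) 1 = a →
    (p % 4 = 1 → ¬(p : ℤ) ∣ a) ∧
    (a ≠ 0 → a % 4 ≠ 2 → ∃ (D : ℕ) (χ : EE hG), D % 4 = 3 ∧ D < 4 * p ∧ ¬p ∣ D ∧
      IsSquare (-(D : ZMod p)) ∧ χ * χ = -(D : EE hG) ∧ cE hG χ ≠ 0 ∧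
      (∀ P, 2 • P = 0 → χ.1 P = P) ∧ IsSquare ((a ^ 2 - 4 * p) * -(D : ℤ)))

end Pool.Agent.MP_c481b3_nt.H28
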