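import Pool.Agent.MP_c481b3_nt.H28.InertC

set_option autoImplicit false

namespace Pool.Agent.MP_c481b3_nt.H28

open NumberField IsLocalRing Filter Topology

namespace SplitC

variable {L : Type} [Field L]

lemma int_mem (O : ValuationSubring L) {x : L} (h : IsIntegral ℤ x) : x ∈ O := by
  obtain ⟨y, rfl⟩ := IsIntegrallyClosed.isIntegral_iff.1 (h.tower_top : IsIntegral O x)
  exact y.2

variable [CharZero L] [Algebra.IsAlgebraic ℚ L]

lemma unit_ev {z : L} (hz : z ≠ 0) : ∀ᶠ q : ℕ in cofinite, q.Prime →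
    ∀ O : ValuationSubring L, O.valuation (q : L) < 1 → ¬O.valuation z < 1 := by
  obtain ⟨e, e0, he⟩ := ((IsFractionRing.isAlgebraic_iff ℤ ℚ L).2
    (Algebra.IsAlgebraic.isAlgebraic z⁻¹)).exists_integral_multiple
  rw [Nat.cofinite_eq_atTop]
  filter_upwards [eventually_gt_atTop e.natAbs] with q hq hp O h1 h2
  obtain ⟨a, b, hab⟩ : IsCoprime (q : ℤ) e := by
    rw [Int.isCoprime_iff_nat_coprime]
    exact (Nat.coprime_of_lt_prime (Int.natAbs_ne_zero.2 e0) hq hp)
  have h3 : (1 : L) = a * q + b * (e • z⁻¹) * z := by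
    rw [zsmul_eq_mul, mul_assoc, inv_mul_cancel_right₀ hz]
    exact_mod_cast hab.symm
  have l : ∀ x y : L, x ∈ O → O.valuation y < 1 → O.valuation (x * y) < 1 := fun x y hx hy => by
    rw [map_mul]
    exact mul_lt_one_of_nonneg_of_lt_one_right ((O.valuation_le_one_iff _).2 hx) zero_le hy
  have := O.valuation.map_add_lt (l a _ (intCast_mem O a) h1)
    (l _ _ (mul_mem (intCast_mem O b) (int_mem O he)) h2)
  rw [← h3, map_one] at this
  exact lt_irrefl _ this

lemma many [IsAlgClosed L] (T : Set L) (K : IntermediateField ℚ L) [NumberField K]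
    (hK : K ≤ IntermediateField.adjoin ℚ T) : ∀ᶠ q : ℕ in cofinite, q.Prime →
    ∀ O : ValuationSubring L, O.valuation (q : L) < 1 →
      (∀ t ∈ T, ∀ σ : L ≃+* L, σ t ∈ O ∧ O.valuation (σ t ^ q - σ t) < 1) →
      ∃ F : Finset (Ideal (𝓞 K)), F.card = Module.finrank ℚ K ∧
        ∀ P ∈ F, P.IsMaximal ∧ (q : 𝓞 K) ∈ P ∧ Ideal.absNorm P ≤ q := by
  classical
  obtain ⟨B, hB⟩ := Module.Finite.fg_top (R := ℤ) (M := 𝓞 K)
  have h1 : ∀ b : 𝓞 K, ∃ d : ℤ, d ≠ 0 ∧ (d : L) * (b : K) ∈ Algebra.adjoin ℤ T := fun b => by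
    obtain ⟨d, hd⟩ := multiple_mem_adjoin_of_mem_localization_adjoin (nonZeroDivisors ℤ) ℚ T
      ((b : K) : L) (by
        rw [← IntermediateField.adjoin_toSubalgebra_of_isAlgebraic
          fun x _ => Algebra.IsAlgebraic.isAlgebraic x]
        exact hK (b : K).2)
    exact ⟨d, nonZeroDivisors.coe_ne_zero d, by simpa [Submonoid.smul_def] using hd⟩
  choose d d0 hd using h1
  have h2 : ∀ τ τ' : K →ₐ[ℚ] L, ∃ b : 𝓞 K, τ ≠ τ' → τ b - τ' b ≠ 0 := fun τ τ' => by
    by_contra c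
    push Not at c
    refine (c 0).1 (AlgHom.coe_ringHom_injective
      (IsLocalization.ringHom_ext (nonZeroDivisors (𝓞 K)) (RingHom.ext fun b => ?_)))
    exact sub_eq_zero.1 (c b).2
  choose s hs using h2
  have e1 : ∀ᶠ q : ℕ in cofinite, ∀ b ∈ B, q.Prime → ∀ O : ValuationSubring L,
      O.valuation (q : L) < 1 → ¬O.valuation (d b : L) < 1 :=
    (eventually_all_finset B).2 fun b _ => unit_ev (Int.cast_ne_zero.2 (d0 b))
  have e2 : ∀ᶠ q : ℕ in cofinite, ∀ τ τ' : K →ₐ[ℚ] L, τ ≠ τ' → q.Prime → ∀ O : ValuationSubring L,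
      O.valuation (q : L) < 1 → ¬O.valuation (τ (s τ τ') - τ' (s τ τ')) < 1 :=
    eventually_all.2 fun τ => eventually_all.2 fun τ' => by
      by_cases c : τ = τ'
      · simp [c]
      · exact (unit_ev (hs τ τ' c)).mono fun q h _ => h
  filter_upwards [e1, e2] with q e1 e2 hq O hO hT
  have := Fact.mk hq
  have z : ∀ y : O, residue O y = 0 ↔ O.valuation (y : L) < 1 := fun y => by
    rw [residue_eq_zero_iff, O.valuation_lt_one_iff]
  have q0 : (q : ResidueField O) = 0 := by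
    rw [← map_natCast (residue O), z]
    simpa using hO
  have := (CharP.charP_iff_prime_eq_zero hq).2 q0
  let φ : (K →ₐ[ℚ] L) → 𝓞 K →+* ResidueField O := fun τ => (residue O).comp
    ((τ.toRingHom.comp (algebraMap (𝓞 K) K)).codRestrict O fun b =>
      int_mem O (map_isIntegral_int τ b.isIntegral_coe))
  have hφ : ∀ τ b, ∃ a : ℤ, φ τ b = a := fun τ b => by
    have : IsAlgClosure ℚ L := ⟨inferInstance, inferInstance⟩
    let σ := RingEquiv.ofBijective (τ.liftNormal L) (Algebra.IsAlgebraic.algHom_bijective _)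
    have hσ : ∀ x : K, σ x = τ x := fun x => τ.liftNormal_commutes L x
    let R : Subring L :=
      (((⊥ : Subfield (ResidueField O)).toSubring.comap (residue O)).map O.subtype).comap σ
    have hR : ∀ y ∈ Algebra.adjoin ℤ T, y ∈ R := fun y hy =>
      Algebra.adjoin_le (S := subalgebraOfSubring R) (fun t ht => ⟨⟨σ t, (hT t ht σ).1⟩,
        (Subfield.mem_bot_iff_pow_eq_self _ q).2 (by
          rw [← sub_eq_zero, ← map_pow, ← map_sub, z]
          exact (hT t ht σ).2), rfl⟩) hy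
    suffices h : φ τ b ∈ (⊥ : Subfield (ResidueField O)) by
      obtain ⟨a, ha⟩ := (mem_bot_iff_intCast q _).1 h
      exact ⟨a, ha.symm⟩
    refine Submodule.span_induction (p := fun b _ => φ τ b ∈ (⊥ : Subfield (ResidueField O)))
      (fun b hb => ?_) (by simp) (fun x y _ _ hx hy => by rw [map_add]; exact add_mem hx hy)
      (fun a x _ hx => by rw [map_zsmul]; exact zsmul_mem hx a) (hB.ge (Submodule.mem_top (x := b)))
    obtain ⟨y, y1, y2⟩ := hR _ (hd b)
    have n0 : (d b : ResidueField O) ≠ 0 := fun c => e1 b hb hq O hO (by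
      rw [← map_intCast (residue O), z] at c
      simpa using c)
    have : φ τ b = (d b : ResidueField O)⁻¹ * residue O y := by
      rw [eq_inv_mul_iff_mul_eq₀ n0, ← map_intCast (residue O)]
      refine (map_mul (residue O) _ _).symm.trans (congrArg _ (Subtype.ext ?_))
      refine Eq.trans ?_ y2.symm
      simp [← hσ]
    rw [this]
    exact mul_mem (inv_mem (intCast_mem _ _)) y1
  refine ⟨Finset.univ.image fun τ => RingHom.ker (φ τ), ?_, fun P hP => ?_⟩
  · rw [Finset.card_image_of_injective, Finset.card_univ, AlgHom.card]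
    intro τ τ' c
    by_contra n
    obtain ⟨a, ha⟩ := hφ τ (s τ τ')
    have h3 : s τ τ' - a ∈ RingHom.ker (φ τ) := by simp [RingHom.mem_ker, ha]
    rw [show RingHom.ker (φ τ) = _ from c, RingHom.mem_ker, map_sub, map_intCast, ← ha,
      ← neg_eq_zero, neg_sub] at h3
    exact e2 τ τ' n hq O hO ((z _).1 ((map_sub (residue O) _ _).trans h3))
  · obtain ⟨τ, -, rfl⟩ := Finset.mem_image.1 hP
    have m : (q : 𝓞 K) ∈ RingHom.ker (φ τ) := by simp [RingHom.mem_ker]
    refine ⟨(RingHom.ker_isPrime _).isMaximal fun c => ?_, m, ?_⟩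
    · rw [c, Ideal.mem_bot] at m
      exact hq.ne_zero (Nat.cast_eq_zero.1 m)
    · rw [Ideal.absNorm_apply, Submodule.cardQuot_apply]
      refine (Nat.card_le_card_of_surjective
        (fun a : ZMod q => Ideal.Quotient.mk (RingHom.ker (φ τ)) (a.val : 𝓞 K)) fun y => ?_).trans
        (Nat.card_zmod q).le
      obtain ⟨b, rfl⟩ := Ideal.Quotient.mk_surjective y
      obtain ⟨a, ha⟩ := hφ τ b
      refine ⟨a, Ideal.Quotient.eq.2 ?_⟩
      rw [RingHom.mem_ker, map_sub, ha, map_natCast, ZMod.natCast_val, ZMod.cast_intCast dvd_rfl,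
        sub_self]

end SplitC

theorem notSplit_of (h1 : DensUp) (h2 : DensLow) : NotSplit := by
  classical
  intro L _ _ _ _ T m c m0 hc hn W hW
  by_contra H
  push Not at H
  have : FiniteDimensional ℚ (IntermediateField.adjoin ℚ (T : Set L)) :=
    IntermediateField.finiteDimensional_adjoin fun x _ => Algebra.IsIntegral.isIntegral x
  have : NumberField (IntermediateField.adjoin ℚ (T : Set L)) := {}
  have hV := hW.union (thin_finite (SplitC.many (T : Set L) _ le_rfl))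
  generalize hK : IntermediateField.adjoin ℚ (T : Set L) = K at *
  set V := W ∪ _
  have key : ∀ q : ℕ, ∃ F : Finset (Ideal (𝓞 K)), q.Prime → (q : ZMod m) = c → q ∉ V →
      F.card = Module.finrank ℚ K ∧
        ∀ P ∈ F, P.IsMaximal ∧ (q : 𝓞 K) ∈ P ∧ Ideal.absNorm P ≤ q := fun q => by
    by_cases h : q.Prime ∧ (q : ZMod m) = c ∧ q ∉ V
    · obtain ⟨O, o1, o2⟩ := H q h.1 (fun a => h.2.2 (Or.inl a)) h.2.1
      obtain ⟨F, hF⟩ := not_not.1 (fun a => h.2.2 (Or.inr a)) h.1 O o1 o2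
      exact ⟨F, fun _ _ _ => hF⟩
    · exact ⟨∅, fun a b c => absurd ⟨a, b, c⟩ h⟩
  choose F hF using key
  obtain ⟨C1, u1⟩ := h1 K
  obtain ⟨C2, u2⟩ := h2 m c m0 hc
  set n := Module.finrank ℚ K
  set b := ∑' q, V.indicator (fun q : ℕ => (q : ℝ)⁻¹) q
  have p0 : (0 : ℝ) < m.totient := by exact_mod_cast Nat.totient_pos.2 (Nat.pos_of_ne_zero m0)
  have p1 : (m.totient : ℝ) + 1 ≤ n := by exact_mod_cast hn
  have t : Tendsto (fun x : ℝ => Real.log (x - 1)) (𝓝[>] 1) atBot :=
    Real.tendsto_log_nhdsGT_zero.comp (tendsto_nhdsWithin_iff.2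
      ⟨((continuous_sub_right 1).tendsto' 1 0 (sub_self _)).mono_left nhdsWithin_le_nhds,
        eventually_mem_nhdsWithin.mono fun x hx => Set.mem_Ioi.2 (sub_pos.2 hx)⟩)
  obtain ⟨x, v1, ⟨S, s1, s2⟩, v3, v4, v5⟩ := (u1.and (u2.and ((t.eventually_lt_atBot 0).and
    ((t.eventually_lt_atBot (-(m.totient * (C1 + n * (C2 + b))))).and
      eventually_mem_nhdsWithin)))).exists
  have x1 : 1 < x := v5
  have g : ∀ q ∈ S.filter (· ∉ V), _ := fun q hq =>
    hF q (s1 q (Finset.mem_filter.1 hq).1).1 (s1 q (Finset.mem_filter.1 hq).1).2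
      (Finset.mem_filter.1 hq).2
  have a1 := v1 ((S.filter (· ∉ V)).biUnion F) fun P hP => by
    obtain ⟨q, hq, hP⟩ := Finset.mem_biUnion.1 hP
    exact ((g q hq).2 P hP).1
  rw [Finset.sum_biUnion fun q hq r hr ne => Finset.disjoint_left.2 fun P a a' => by
    obtain ⟨u, v, e⟩ := Nat.isCoprime_iff_coprime.2 ((Nat.coprime_primes
      (s1 q (Finset.mem_filter.1 hq).1).1 (s1 r (Finset.mem_filter.1 hr).1).1).2 ne)
    refine ((g q hq).2 P a).1.ne_top ((Ideal.eq_top_iff_one _).2 ?_)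
    have := P.add_mem (P.mul_mem_left u ((g q hq).2 P a).2.1)
      (P.mul_mem_left v ((g r hr).2 P a').2.1)
    rwa [show (u : 𝓞 K) * q + v * r = 1 by exact_mod_cast e] at this] at a1
  have a2 : n * ∑ q ∈ S.filter (· ∉ V), (q : ℝ) ^ (-x) ≤ C1 - Real.log (x - 1) := by
    rw [Finset.mul_sum]
    refine (Finset.sum_le_sum fun q hq => ?_).trans a1
    rw [← (g q hq).1, ← nsmul_eq_mul]
    refine Finset.card_nsmul_le_sum _ _ _ fun P hP => ?_
    obtain ⟨w1, w2, w3⟩ := (g q hq).2 P hP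
    refine Real.rpow_le_rpow_of_nonpos ?_ (by exact_mod_cast w3) (by linarith)
    refine Nat.cast_pos.2 (Nat.pos_of_ne_zero fun e => ?_)
    rw [Ideal.absNorm_eq_zero_iff.1 e, Ideal.mem_bot] at w2
    exact (s1 q (Finset.mem_filter.1 hq).1).1.ne_zero (Nat.cast_eq_zero.1 w2)
  have a3 : ∑ q ∈ S.filter (fun q => ¬q ∉ V), (q : ℝ) ^ (-x) ≤ b := by
    refine (Finset.sum_le_sum fun q hq => ?_).trans (hV.sum_le_tsum _ fun q _ =>
      Set.indicator_nonneg (fun _ _ => by positivity) q)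
    obtain ⟨w1, w2⟩ := Finset.mem_filter.1 hq
    rw [Set.indicator_of_mem (not_not.1 w2), ← Real.rpow_neg_one]
    exact Real.rpow_le_rpow_of_exponent_le (by exact_mod_cast (s1 q w1).1.one_le) (by linarith)
  rw [← Finset.sum_filter_add_sum_filter_not S (· ∉ V), sub_le_iff_le_add, div_le_iff₀ p0] at s2
  have a4 := mul_le_mul_of_nonneg_left s2 (Nat.cast_nonneg (α := ℝ) n)
  have a5 := mul_le_mul_of_nonneg_left a2 p0.le
  have a6 := mul_le_mul_of_nonneg_left a3 (mul_nonneg (Nat.cast_nonneg (α := ℝ) n) p0.le)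
  nlinarith [mul_le_mul_of_nonneg_left p1 (neg_pos.2 v3).le]

end Pool.Agent.MP_c481b3_nt.H28
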