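import Pool.Agent.MP_c481b3_nt.H28.SpecD
import Pool.Agent.MP_c481b3_nt.H28.SplitC

set_option autoImplicit false

namespace Pool.Agent.MP_c481b3_nt.H28

open Pool.Agent.MP_c481b3_nt.H81 NumberField IsLocalRing Filter Topology

namespace SplitD

open SplitC

/-- as many small primes above `P` as the degree -/
def Gd (Z K : Type) [Field Z] [Field K] [NumberField Z] [NumberField K] [Algebra Z K]
    (P : Ideal (𝓞 Z)) (F : Finset (Ideal (𝓞 K))) : Prop :=
  F.card = Module.finrank Z K ∧ ∀ Q ∈ F, Q.IsMaximal ∧ Ideal.absNorm Q ≠ 0 ∧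
    Ideal.absNorm Q ≤ Ideal.absNorm P ∧ Q.comap (algebraMap (𝓞 Z) (𝓞 K)) = P

lemma sum_le {Z K : Type} [Field Z] [Field K] [NumberField Z] [NumberField K] [Algebra Z K]
    (S : Finset (Ideal (𝓞 Z))) (F : Ideal (𝓞 Z) → Finset (Ideal (𝓞 K)))
    (h : ∀ P ∈ S, Gd Z K P (F P)) {x B : ℝ} (hx : 0 ≤ x)
    (hB : ∀ S : Finset (Ideal (𝓞 K)), (∀ P ∈ S, P.IsMaximal) →
      ∑ P ∈ S, (Ideal.absNorm P : ℝ) ^ (-x) ≤ B) :
    Module.finrank Z K * ∑ P ∈ S, (Ideal.absNorm P : ℝ) ^ (-x) ≤ B := by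
  classical
  have a1 := hB (S.biUnion F) fun Q hQ => by
    obtain ⟨P, hP, hQ⟩ := Finset.mem_biUnion.1 hQ
    exact ((h P hP).2 Q hQ).1
  rw [Finset.sum_biUnion fun P hP R hR ne => Finset.disjoint_left.2 fun Q a a' =>
    ne (((h P hP).2 Q a).2.2.2.symm.trans ((h R hR).2 Q a').2.2.2)] at a1
  rw [Finset.mul_sum]
  refine (Finset.sum_le_sum fun P hP => ?_).trans a1
  rw [← (h P hP).1, ← nsmul_eq_mul]
  refine Finset.card_nsmul_le_sum _ _ _ fun Q hQ => ?_
  obtain ⟨-, w1, w2, -⟩ := (h P hP).2 Q hQ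
  exact Real.rpow_le_rpow_of_nonpos (Nat.cast_pos.2 (Nat.pos_of_ne_zero w1))
    (by exact_mod_cast w2) (by linarith)

variable {L : Type} [Field L] [CharZero L] [Algebra.IsAlgebraic ℚ L]

lemma fq_ev (Z : IntermediateField ℚ L) {u : L} (hu : u ∈ Z) : ∀ᶠ q : ℕ in cofinite, q.Prime →
    ∀ O : ValuationSubring L, O.valuation (q : L) < 1 →
      (∀ b : 𝓞 Z, O.valuation (((b : Z) : L) ^ q - (b : Z)) < 1) → Fq O q u := by
  obtain ⟨e, e0, he⟩ := ((IsFractionRing.isAlgebraic_iff ℤ ℚ L).2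
    (Algebra.IsAlgebraic.isAlgebraic u)).exists_integral_multiple
  filter_upwards [unit_ev (L := L) (Int.cast_ne_zero.2 e0)] with q h hq O hO hb
  have h1 : O.valuation (e : L) = 1 :=
    le_antisymm ((O.valuation_le_one_iff _).2 (intCast_mem O e)) (not_lt.1 (h hq O hO))
  have h2 : O.valuation (e * u) ≤ 1 :=
    (O.valuation_le_one_iff _).2 (by simpa using int_mem O he)
  have h3 : IsIntegral ℤ (⟨e * u, mul_mem (intCast_mem Z e) hu⟩ : Z) :=
    (isIntegral_algHom_iff (Z.val.restrictScalars ℤ) Subtype.val_injective).1 (by simpa using he)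
  have h4 : O.valuation ((e * u) ^ q - e * u) < 1 := hb ⟨_, h3⟩
  have := Fact.mk hq
  obtain ⟨c, hc⟩ : (q : ℤ) ∣ e ^ q - e := by
    rw [← ZMod.intCast_zmod_eq_zero_iff_dvd]
    simp
  have h5 : (e : L) ^ q - e = q * c := by exact_mod_cast hc
  rw [map_mul, h1, one_mul] at h2
  refine ⟨(O.valuation_le_one_iff _).1 h2, ?_⟩
  have h6 : (e : L) ^ q * (u ^ q - u) = ((e * u) ^ q - e * u) - q * (c * u) := by
    rw [mul_pow]; linear_combination (-u) * h5
  have h7 : O.valuation ((q : L) * (c * u)) < 1 := by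
    rw [map_mul, map_mul]
    exact mul_lt_one_of_nonneg_of_lt_one_left zero_le hO
      (mul_le_one' ((O.valuation_le_one_iff _).2 (intCast_mem O c)) h2)
  have h8 := O.valuation.map_sub_lt h4 h7
  rwa [← h6, map_mul, map_pow, h1, one_pow, one_mul] at h8

lemma many [IsAlgClosed L] (T : Set L) (Z K : Type) [Field Z] [Field K] [NumberField Z]
    [NumberField K] [Algebra Z K] [Algebra K L] [Algebra Z L] [IsScalarTower Z K L]
    (hK : ∀ x : K, algebraMap K L x ∈ IntermediateField.adjoin ℚ T) :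
    ∀ᶠ q : ℕ in cofinite, q.Prime → ∀ O : ValuationSubring L, O.valuation (q : L) < 1 →
      (∀ t ∈ T, ∀ σ : L ≃ₐ[Z] L, Fq O q (σ t)) → ∀ P : Ideal (𝓞 Z), Ideal.absNorm P = q →
      (∀ b : 𝓞 Z, O.valuation (algebraMap Z L b) < 1 ↔ b ∈ P) → ∃ F, Gd Z K P F := by
  classical
  obtain ⟨B, hB⟩ := Module.Finite.fg_top (R := ℤ) (M := 𝓞 K)
  have h1 : ∀ b : 𝓞 K, ∃ d : ℤ, d ≠ 0 ∧ (d : L) * algebraMap K L b ∈ Algebra.adjoin ℤ T :=
    fun b => by
    obtain ⟨d, hd⟩ := multiple_mem_adjoin_of_mem_localization_adjoin (nonZeroDivisors ℤ) ℚ T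
      (algebraMap K L b) (by
        rw [← IntermediateField.adjoin_toSubalgebra_of_isAlgebraic
          fun x _ => Algebra.IsAlgebraic.isAlgebraic x]
        exact hK b)
    exact ⟨d, nonZeroDivisors.coe_ne_zero d, by simpa [Submonoid.smul_def] using hd⟩
  choose d d0 hd using h1
  have h2 : ∀ τ τ' : K →ₐ[Z] L, ∃ b : 𝓞 K, τ ≠ τ' → τ b - τ' b ≠ 0 := fun τ τ' => by
    by_contra c
    push Not at c
    refine (c 0).1 (AlgHom.coe_ringHom_injective
      (IsLocalization.ringHom_ext (nonZeroDivisors (𝓞 K)) (RingHom.ext fun b => ?_)))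
    exact sub_eq_zero.1 (c b).2
  choose s hs using h2
  have : FiniteDimensional Z K := Module.Finite.of_restrictScalars_finite ℚ Z K
  have : Algebra.IsAlgebraic Z L := Algebra.IsAlgebraic.tower_top (K := ℚ) Z
  have e1 : ∀ᶠ q : ℕ in cofinite, ∀ b ∈ B, q.Prime → ∀ O : ValuationSubring L,
      O.valuation (q : L) < 1 → ¬O.valuation (d b : L) < 1 :=
    (eventually_all_finset B).2 fun b _ => unit_ev (Int.cast_ne_zero.2 (d0 b))
  have e2 : ∀ᶠ q : ℕ in cofinite, ∀ τ τ' : K →ₐ[Z] L, τ ≠ τ' → q.Prime → ∀ O : ValuationSubring L,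
      O.valuation (q : L) < 1 → ¬O.valuation (τ (s τ τ') - τ' (s τ τ')) < 1 :=
    eventually_all.2 fun τ => eventually_all.2 fun τ' => by
      by_cases c : τ = τ'
      · simp [c]
      · exact (unit_ev (hs τ τ' c)).mono fun q h _ => h
  filter_upwards [e1, e2] with q e1 e2 hq O hO hT P hPq hP
  have := Fact.mk hq
  have z : ∀ y : O, residue O y = 0 ↔ O.valuation (y : L) < 1 := fun y => by
    rw [residue_eq_zero_iff, O.valuation_lt_one_iff]
  have q0 : (q : ResidueField O) = 0 := by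
    rw [← map_natCast (residue O), z]
    simpa using hO
  have := (CharP.charP_iff_prime_eq_zero hq).2 q0
  let φ : (K →ₐ[Z] L) → 𝓞 K →+* ResidueField O := fun τ => (residue O).comp
    ((τ.toRingHom.comp (algebraMap (𝓞 K) K)).codRestrict O fun b =>
      int_mem O (map_isIntegral_int τ b.isIntegral_coe))
  have hφ : ∀ τ b, ∃ a : ℤ, φ τ b = a := fun τ b => by
    have : IsAlgClosure Z L := ⟨inferInstance, inferInstance⟩
    let σ := AlgEquiv.ofBijective (τ.liftNormal L) (Algebra.IsAlgebraic.algHom_bijective _)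
    have hσ : ∀ x : K, σ (algebraMap K L x) = τ x := fun x => τ.liftNormal_commutes L x
    let R : Subring L :=
      (((⊥ : Subfield (ResidueField O)).toSubring.comap (residue O)).map O.subtype).comap
        (σ : L →+* L)
    have hR : ∀ y ∈ Algebra.adjoin ℤ T, y ∈ R := fun y hy =>
      Algebra.adjoin_le (S := subalgebraOfSubring R) (fun t ht => ⟨⟨σ t, (hT t ht σ).1⟩,
        (Subfield.mem_bot_iff_pow_eq_self _ q).2 (by
          rw [← sub_eq_zero, ← map_pow, ← map_sub, z]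
          exact (hT t ht σ).2), rfl⟩) hy
    suffices h : φ τ b ∈ (⊥ : Subfield (ResidueField O)) by
      obtain ⟨a, ha⟩ := (mem_bot_iff_intCast q _).1 h
      exact ⟨a, ha.symm⟩
    refine Submodule.span_induction (p := fun b _ => φ τ b ∈ (⊥ : Subfield (ResidueField O)))
      (fun b hb => ?_) (by simp) (fun x y _ _ hx hy => by rw [map_add]; exact add_mem hx hy)
      (fun a x _ hx => by rw [map_zsmul]; exact zsmul_mem hx a) (hB.ge (Submodule.mem_top (x := b)))
    obtain ⟨y, y1, y2⟩ := hR _ (hd b)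
    have n0 : (d b : ResidueField O) ≠ 0 := fun c => e1 b hb hq O hO (by
      rw [← map_intCast (residue O), z] at c
      simpa using c)
    have : φ τ b = (d b : ResidueField O)⁻¹ * residue O y := by
      rw [eq_inv_mul_iff_mul_eq₀ n0, ← map_intCast (residue O)]
      refine (map_mul (residue O) _ _).symm.trans (congrArg _ (Subtype.ext ?_))
      refine Eq.trans ?_ y2.symm
      simp [← hσ]
    rw [this]
    exact mul_mem (inv_mem (intCast_mem _ _)) y1
  refine ⟨Finset.univ.image fun τ => RingHom.ker (φ τ), ?_, fun Q hQ => ?_⟩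
  · rw [Finset.card_image_of_injective, Finset.card_univ, AlgHom.card]
    intro τ τ' c
    by_contra n
    obtain ⟨a, ha⟩ := hφ τ (s τ τ')
    have h3 : s τ τ' - a ∈ RingHom.ker (φ τ) := by simp [RingHom.mem_ker, ha]
    rw [show RingHom.ker (φ τ) = _ from c, RingHom.mem_ker, map_sub, map_intCast, ← ha,
      ← neg_eq_zero, neg_sub] at h3
    exact e2 τ τ' n hq O hO ((z _).1 ((map_sub (residue O) _ _).trans h3))
  · obtain ⟨τ, -, rfl⟩ := Finset.mem_image.1 hQ
    have m : (q : 𝓞 K) ∈ RingHom.ker (φ τ) := by simp [RingHom.mem_ker]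
    have nb : RingHom.ker (φ τ) ≠ ⊥ := fun c => by
      rw [c, Ideal.mem_bot] at m
      exact hq.ne_zero (Nat.cast_eq_zero.1 m)
    refine ⟨(RingHom.ker_isPrime _).isMaximal nb, fun c => nb (Ideal.absNorm_eq_zero_iff.1 c), ?_,
      Ideal.ext fun b => ?_⟩
    · rw [hPq, Ideal.absNorm_apply, Submodule.cardQuot_apply]
      refine (Nat.card_le_card_of_surjective
        (fun a : ZMod q => Ideal.Quotient.mk (RingHom.ker (φ τ)) (a.val : 𝓞 K)) fun y => ?_).trans
        (Nat.card_zmod q).le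
      obtain ⟨b, rfl⟩ := Ideal.Quotient.mk_surjective y
      obtain ⟨a, ha⟩ := hφ τ b
      refine ⟨a, Ideal.Quotient.eq.2 ?_⟩
      rw [RingHom.mem_ker, map_sub, ha, map_natCast, ZMod.natCast_val, ZMod.cast_intCast dvd_rfl,
        sub_self]
    · rw [Ideal.mem_comap, RingHom.mem_ker, ← hP, ← τ.commutes]
      exact z _

lemma ext_ev [IsAlgClosed L] (U T : Finset L) [NumberField (IntermediateField.adjoin ℚ (U : Set L))]
    [NumberField (IntermediateField.adjoin (IntermediateField.adjoin ℚ (U : Set L)) (T : Set L))] :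
    ∀ᶠ q : ℕ in cofinite, q.Prime → ∀ O : ValuationSubring L, O.valuation (q : L) < 1 →
      (∀ u ∈ U, Fq O q u) → (∀ t ∈ T, ∀ σ : L ≃+* L, (∀ u ∈ U, σ u = u) → Fq O q (σ t)) →
      ∀ P : Ideal (𝓞 (IntermediateField.adjoin ℚ (U : Set L))), Ideal.absNorm P = q →
      (∀ b, O.valuation (algebraMap (IntermediateField.adjoin ℚ (U : Set L)) L
        (b : 𝓞 (IntermediateField.adjoin ℚ (U : Set L)))) < 1 ↔ b ∈ P) →
      ∃ F, Gd _ (IntermediateField.adjoin (IntermediateField.adjoin ℚ (U : Set L)) (T : Set L))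
        P F := by
  filter_upwards [many (U ∪ T : Set L) (IntermediateField.adjoin ℚ (U : Set L))
    (IntermediateField.adjoin (IntermediateField.adjoin ℚ (U : Set L)) (T : Set L)) fun x => by
      rw [← IntermediateField.adjoin_adjoin_left]; exact x.2] with q h hq O hO hU hT
  refine h hq O hO fun t ht σ => ?_
  have hσ : ∀ u ∈ U, σ u = u := fun u hu =>
    σ.commutes ⟨u, IntermediateField.subset_adjoin _ _ hu⟩
  rcases ht with ht | ht
  · rw [hσ t ht]; exact hU t ht
  · exact hT t ht σ.toRingEquiv hσ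

lemma nf (U T : Finset L) :
    NumberField (IntermediateField.adjoin (IntermediateField.adjoin ℚ (U : Set L)) (T : Set L)) := by
  have : FiniteDimensional ℚ (IntermediateField.adjoin ℚ (U : Set L)) :=
    IntermediateField.finiteDimensional_adjoin fun x _ => Algebra.IsIntegral.isIntegral x
  have : FiniteDimensional (IntermediateField.adjoin ℚ (U : Set L))
      (IntermediateField.adjoin (IntermediateField.adjoin ℚ (U : Set L)) (T : Set L)) :=
    IntermediateField.finiteDimensional_adjoin fun x _ =>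
      (Algebra.IsIntegral.isIntegral (R := ℚ) x).tower_top
  exact { to_finiteDimensional := Module.Finite.trans (IntermediateField.adjoin ℚ (U : Set L)) _ }

omit [Algebra.IsAlgebraic ℚ L] in
lemma rk (U T : Set L) : Module.finrank ℚ (IntermediateField.adjoin ℚ (U ∪ T)) =
    Module.finrank ℚ (IntermediateField.adjoin ℚ U) * Module.finrank (IntermediateField.adjoin ℚ U)
      (IntermediateField.adjoin (IntermediateField.adjoin ℚ U) T) := by
  rw [Module.finrank_mul_finrank, ← IntermediateField.adjoin_adjoin_left]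
  rfl

end SplitD

open SplitD in
theorem notSplit2_of (h1 : DensUp) (h2 : DensK) : NotSplit2 := by
  classical
  intro L _ _ _ _ U T₁ T₂ n₀ n₁ n₂ e0 e1 e2 hn M
  by_contra H
  have : FiniteDimensional ℚ (IntermediateField.adjoin ℚ (U : Set L)) :=
    IntermediateField.finiteDimensional_adjoin fun x _ => Algebra.IsIntegral.isIntegral x
  have : NumberField (IntermediateField.adjoin ℚ (U : Set L)) := {}
  have := nf U T₁
  have := nf U T₂
  have v0 := (eventually_all_finset U).2 fun u hu =>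
    fq_ev (IntermediateField.adjoin ℚ (U : Set L)) (IntermediateField.subset_adjoin _ _ hu)
  have v3 := v0.and ((ext_ev U T₁).and (ext_ev U T₂))
  rw [Nat.cofinite_eq_atTop] at v3
  obtain ⟨N, hN⟩ := eventually_atTop.1 (v3.and (eventually_gt_atTop M))
  rw [rk, ← e0] at e1 e2
  have n0 : 0 < n₀ := e0 ▸ Module.finrank_pos
  clear v0 v3 e0
  set Z := IntermediateField.adjoin ℚ (U : Set L)
  set K₁ := IntermediateField.adjoin Z (T₁ : Set L)
  set K₂ := IntermediateField.adjoin Z (T₂ : Set L)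
  have key : ∀ P : Ideal (𝓞 Z), ∃ (F₁ : Finset (Ideal (𝓞 K₁))) (F₂ : Finset (Ideal (𝓞 K₂))),
      P.IsMaximal → (Ideal.absNorm P).Prime → N ≤ Ideal.absNorm P →
        Gd Z K₁ P F₁ ∨ Gd Z K₂ P F₂ := fun P => by
    by_cases h : P.IsMaximal ∧ (Ideal.absNorm P).Prime ∧ N ≤ Ideal.absNorm P
    swap
    · exact ⟨∅, ∅, fun a b c => absurd ⟨a, b, c⟩ h⟩
    obtain ⟨p1, p2, p3⟩ := h
    obtain ⟨⟨w0, w1, w2⟩, w3⟩ := hN _ p3
    obtain ⟨O, -, o2⟩ := exists_val ((algebraMap Z L).comp (algebraMap (𝓞 Z) Z))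
      ((algebraMap Z L).injective.comp RingOfIntegers.coe_injective) P p1
    have hO : O.valuation (Ideal.absNorm P : L) < 1 := by
      simpa using (o2 _).2 (Ideal.absNorm_mem P)
    have hU : ∀ u ∈ U, Fq O (Ideal.absNorm P) u := fun u hu => w0 u hu p2 O hO fun b => by
      have : Finite (𝓞 Z ⧸ P) := (Ideal.absNorm_ne_zero_iff P).1 p2.ne_zero
      have := Fintype.ofFinite (𝓞 Z ⧸ P)
      let _ := Ideal.Quotient.field P
      have h3 : b ^ Ideal.absNorm P - b ∈ P := by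
        rw [← Ideal.Quotient.eq, map_pow, Ideal.absNorm_apply, Submodule.cardQuot_apply,
          Nat.card_eq_fintype_card]
        exact FiniteField.pow_card _
      simpa using (o2 _).2 h3
    by_cases c : ∀ t ∈ T₁, ∀ σ : L ≃+* L, (∀ u ∈ U, σ u = u) → Fq O (Ideal.absNorm P) (σ t)
    · obtain ⟨F, hF⟩ := w1 p2 O hO hU c P rfl o2
      exact ⟨F, ∅, fun _ _ _ => Or.inl hF⟩
    by_cases c' : ∀ t ∈ T₂, ∀ σ : L ≃+* L, (∀ u ∈ U, σ u = u) → Fq O (Ideal.absNorm P) (σ t)
    · obtain ⟨F, hF⟩ := w2 p2 O hO hU c' P rfl o2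
      exact ⟨∅, F, fun _ _ _ => Or.inr hF⟩
    push Not at c c'
    exact absurd ⟨_, p2, w3, O, hO, hU, c, c'⟩ H
  choose F₁ F₂ hF using key
  obtain ⟨C0, u0⟩ := h2 Z
  obtain ⟨C1, u1⟩ := h1 K₁
  obtain ⟨C2, u2⟩ := h1 K₂
  set d₁ := Module.finrank Z K₁
  set d₂ := Module.finrank Z K₂
  have hd : d₁ + d₂ < d₁ * d₂ := by
    rw [e1, e2] at hn
    refine lt_of_mul_lt_mul_left (a := n₀ * n₀) ?_ (Nat.zero_le _)
    linarith
  have hd' : (d₁ : ℝ) + d₂ + 1 ≤ d₁ * d₂ := by exact_mod_cast hd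
  have fin := Ideal.finite_setOfPred_absNorm_le (S := 𝓞 Z) N
  set c : ℝ := (fin.toFinset.card : ℝ)
  have t : Tendsto (fun x : ℝ => Real.log (x - 1)) (𝓝[>] 1) atBot :=
    Real.tendsto_log_nhdsGT_zero.comp (tendsto_nhdsWithin_iff.2
      ⟨((continuous_sub_right 1).tendsto' 1 0 (sub_self _)).mono_left nhdsWithin_le_nhds,
        eventually_mem_nhdsWithin.mono fun x hx => Set.mem_Ioi.2 (sub_pos.2 hx)⟩)
  obtain ⟨x, ⟨S, s1, s2⟩, v1, v2, v3, v4, v5⟩ := (u0.and (u1.and (u2.and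
    ((t.eventually_lt_atBot 0).and
    ((t.eventually_lt_atBot (-(d₁ * d₂ * (C0 + c) + d₂ * C1 + d₁ * C2))).and
      eventually_mem_nhdsWithin))))).exists
  have x1 : 1 < x := v5
  have a1 := sum_le ((S.filter fun P => N ≤ Ideal.absNorm P).filter fun P => Gd Z K₁ P (F₁ P)) F₁
    (fun P hP => (Finset.mem_filter.1 hP).2) (by linarith) v1
  have a2 := sum_le ((S.filter fun P => N ≤ Ideal.absNorm P).filter fun P => ¬Gd Z K₁ P (F₁ P)) F₂
    (fun P hP => by
      obtain ⟨b1, b2⟩ := Finset.mem_filter.1 hP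
      obtain ⟨b3, b4⟩ := Finset.mem_filter.1 b1
      exact (hF P (s1 P b3).1 (s1 P b3).2 b4).resolve_left b2) (by linarith) v2
  have a3 : ∑ P ∈ S.filter (fun P => ¬N ≤ Ideal.absNorm P), (Ideal.absNorm P : ℝ) ^ (-x) ≤ c := by
    refine (Finset.sum_le_card_nsmul _ _ 1 fun P hP => ?_).trans ?_
    · exact Real.rpow_le_one_of_one_le_of_nonpos
        (by exact_mod_cast (s1 P (Finset.mem_filter.1 hP).1).2.one_le) (by linarith)
    · rw [nsmul_one]
      exact Nat.cast_le.2 (Finset.card_le_card fun P hP =>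
        fin.mem_toFinset.2 (not_le.1 (Finset.mem_filter.1 hP).2).le)
  rw [← Finset.sum_filter_add_sum_filter_not S (fun P => N ≤ Ideal.absNorm P),
    ← Finset.sum_filter_add_sum_filter_not (S.filter _) (fun P => Gd Z K₁ P (F₁ P))] at s2
  have p1 : (0 : ℝ) ≤ d₁ := Nat.cast_nonneg _
  have p2 : (0 : ℝ) ≤ d₂ := Nat.cast_nonneg _
  have a4 := mul_le_mul_of_nonneg_left s2 (mul_nonneg p1 p2)
  have a5 := mul_le_mul_of_nonneg_left a1 p2
  have a6 := mul_le_mul_of_nonneg_left a2 p1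
  have a7 := mul_le_mul_of_nonneg_left a3 (mul_nonneg p1 p2)
  nlinarith [mul_le_mul_of_nonneg_left hd' (neg_pos.2 v3).le]

end Pool.Agent.MP_c481b3_nt.H28
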