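import Pool.Agent.MP_c481b3_nt.H28.VHom
import Pool.Agent.MP_c481b3_nt.H28.Tors

set_option autoImplicit false

namespace Pool.Agent.MP_c481b3_nt.H28

open Pool.Agent.MP_c481b3_nt.H81 Polynomial

variable {k : Type*} [Field k] [DecidableEq k] [IsAlgClosed k] {A B : k}
variable {C : Finset (Pt A B)} {u A₁ B₁ : k}

/-- the quotient map as a homomorphism -/
noncomputable def VD.hom (d : VD C u A₁ B₁) (h3 : (3 : k) ≠ 0) : Pt A B →+ Pt A₁ B₁ :=
  AddMonoidHom.mk' (vm C u A₁ B₁) (d.add h3)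

lemma VD.hom_apply (d : VD C u A₁ B₁) (h3 : (3 : k) ≠ 0) (P : Pt A B) :
    d.hom h3 P = vm C u A₁ B₁ P := rfl

lemma VD.hom_eq_zero (d : VD C u A₁ B₁) (h3 : (3 : k) ≠ 0) {P : Pt A B} :
    d.hom h3 P = 0 ↔ P ∈ C := d.eq_zero

lemma exists_double (hG : Good A B) (h3 : (3 : k) ≠ 0) (C : Finset (Pt A B)) :
    ∃ Q : Pt A B, Q + Q ∉ C := by
  have h1 := finite_preimage (2 • AddMonoidHom.id (Pt A B))
    ((finite_tors hG h3 (t := 2) (by simpa using hG.two)).subset fun P hP => by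
      simpa [two_zsmul, two_nsmul] using hP) C.finite_toSet
  have := infinite_pt hG
  obtain ⟨Q, hQ⟩ := h1.infinite_compl.nonempty
  exact ⟨Q, by simpa [two_nsmul] using hQ⟩

lemma nP_ne (hG : Good A B) (h3 : (3 : k) ≠ 0) (hC : IsSub C) {P : Pt A B} (hP : P ∈ C.erase 0) :
    (nP C).eval (xc P) ≠ 0 := by
  obtain ⟨Q, hQ⟩ := exists_double hG h3 C
  have e := congrArg (eval (xc P)) (prod_gen hG hC hQ)
  rw [eval_sub, eval_mul, dP_eval, Finset.prod_eq_zero hP (sub_self _), mul_zero, sub_zero,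
    eval_prod] at e
  rw [e, Finset.prod_ne_zero_iff]
  intro c hc
  rw [eval_sub, eval_X, eval_C]
  have hn : Q + c ∉ C := fun h => hQ (hC.add ((IsSub_add_iff hC hc).1 h) ((IsSub_add_iff hC hc).1 h))
  exact sub_ne_zero.2 ((off1 hC hn).2 P hP).symm

lemma VD.surj (d : VD C u A₁ B₁) (h3 : (3 : k) ≠ 0) : Function.Surjective (d.hom h3) := by
  intro P'
  by_cases h0 : P' = 0
  · exact ⟨0, by rw [h0, map_zero]⟩
  obtain ⟨h1, h2⟩ := fib_spec d.sub (xc P' * u ^ 2)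
  obtain ⟨ξ, hξ⟩ := IsAlgClosed.exists_root _ (degree_ne_of_natDegree_ne (n := 0) (by
    rw [h2]; exact (card_pos_sub d.sub).ne'))
  rw [IsRoot, eval_sub, eval_mul, eval_C] at hξ
  have h4 : ∀ c ∈ C.erase 0, ξ ≠ xc c := by
    rintro c hc rfl
    rw [dP_eval, Finset.prod_eq_zero hc (sub_self _), mul_zero, sub_zero] at hξ
    exact nP_ne d.good h3 d.sub hc hξ
  rw [nP_eval d.good d.sub h4, ← sub_mul, mul_eq_zero, sub_eq_zero] at hξ
  obtain ⟨P, p1, rfl⟩ := exists_pt d.good ξ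
  have hP : P ∉ C := fun h => h4 P (Finset.mem_erase.2 ⟨p1, h⟩) rfl
  obtain ⟨a1, a2, -⟩ := d.spec hP
  rw [hξ.resolve_right (dP_ne h4), mul_div_cancel_right₀ _ (pow_ne_zero 2 d.hu)] at a2
  rcases eq_or_neg a1 h0 a2 with e | e
  · exact ⟨P, e⟩
  · exact ⟨-P, by rw [map_neg, d.hom_apply, e, neg_neg]⟩

omit [IsAlgClosed k] in
lemma sum1 (hG : Good A B) (hC : IsSub C) {Q : Pt A B} (hQ : Q ∉ C) :
    ∑ P ∈ C, xc (Q + P) = X1 C (xc Q) + ∑ P ∈ C.erase 0, xc P ∧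
      ∑ P ∈ C, yc (Q + P) = yc Q * S1 C (xc Q) := by
  have := sum_formula (RingHom.id k) rfl rfl hG hC (Q := Q)
    (fun P hP e => hQ (by rw [e, ofHom_id]; exact hP))
  have e := ofHom_id hG
  rwa [Finset.sum_congr rfl fun P _ => congrArg (fun R => xc (Q + R)) (e P),
    Finset.sum_congr rfl fun P _ => congrArg (fun R => yc (Q + R)) (e P)] at this

lemma quad_zero' (hG : Good A B) (hC : IsSub C) {a b c : k}
    (h : ∀ Q ∉ C, a * X1 C (xc Q) ^ 2 + b * X1 C (xc Q) + c = 0) : a = 0 ∧ b = 0 ∧ c = 0 := by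
  have h1 : (Polynomial.C a * X ^ 2 + Polynomial.C b * X + Polynomial.C c : k[X]) = 0 := by
    by_contra h0
    have := infinite_pt hG
    refine Set.infinite_univ (α := Pt A B) ((C.finite_toSet.union
      ((Polynomial.C a * X ^ 2 + Polynomial.C b * X + Polynomial.C c).roots.toFinset.finite_toSet.biUnion
        fun x _ => finite_fib hG hC x)).subset fun Q _ => ?_)
    by_cases hQ : Q ∈ C
    · exact Or.inl hQ
    · refine Or.inr (Set.mem_biUnion (x := X1 C (xc Q)) ?_ ⟨hQ, rfl⟩)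
      simp only [Finset.mem_coe, Multiset.mem_toFinset]
      rw [mem_roots h0, IsRoot]
      simpa using h Q hQ
  exact ⟨by simpa using congrArg (coeff · 2) h1, by simpa using congrArg (coeff · 1) h1,
    by simpa using congrArg (coeff · 0) h1⟩

section comp
variable (d : VD C u A₁ B₁) (h3 : (3 : k) ≠ 0) {H : Finset (Pt A B)} (hH : IsSub H) (hs : C ⊆ H)
include hH hs

lemma VD.mem_image {Q : Pt A B} : d.hom h3 Q ∈ H.image (d.hom h3) ↔ Q ∈ H := by
  refine ⟨fun h => ?_, Finset.mem_image_of_mem _⟩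
  obtain ⟨P, hP, e⟩ := Finset.mem_image.1 h
  have : Q - P ∈ C := (d.hom_eq_zero h3).1 (by rw [map_sub, e, sub_self])
  simpa using hH.add (hs this) hP

omit hH in
lemma VD.filter_ker : H.filter (fun P => d.hom h3 P = 0) = C := by
  ext P
  rw [Finset.mem_filter, d.hom_eq_zero]
  exact ⟨fun h => h.2, fun h => ⟨hs h, h⟩⟩

lemma VD.card_image : H.card = (H.image (d.hom h3)).card * C.card := by
  rw [card_hom (d.hom h3) hH, d.filter_ker h3 hs]

lemma VD.comp_aux : (vA H = u ^ 4 * vA (H.image (d.hom h3)) ∧ vB H = u ^ 6 * vB (H.image (d.hom h3)))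
    ∧ ∀ Q ∉ H, X1 H (xc Q) = u ^ 2 * X1 (H.image (d.hom h3)) (xc (d.hom h3 Q)) ∧
      yc Q * S1 H (xc Q) = u ^ 3 * (yc (d.hom h3 Q) * S1 (H.image (d.hom h3)) (xc (d.hom h3 Q))) := by
  set φ := d.hom h3 with hφ
  set D := H.image φ with hD
  have dD : IsSub D := isSub_image φ hH
  have key : ∀ (g : Pt A B → k) (g' : Pt A₁ B₁ → k), (∀ Q ∉ C, ∑ P ∈ C, g (Q + P) = g' (φ Q)) →
      ∀ Q ∉ H, ∑ P ∈ H, g (Q + P) = ∑ P ∈ D, g' (φ Q + P) := by
    intro g g' h Q hQ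
    rw [← Finset.sum_fiberwise_of_maps_to (g := φ) (t := D) fun P hP => Finset.mem_image_of_mem _ hP]
    refine Finset.sum_congr rfl fun R hR => ?_
    obtain ⟨P, hP, rfl⟩ := Finset.mem_image.1 hR
    rw [fibre_eq φ hH hP, d.filter_ker h3 hs, Finset.sum_image (add_right_injective P).injOn,
      ← map_add, ← h (Q + P) fun e => hQ ((IsSub_add_iff hH hP).1 (hs e))]
    simp only [add_assoc]
  obtain ⟨β, hβ⟩ : ∃ β, β = u ^ 2 * ∑ P ∈ D.erase 0, xc P + D.card * ∑ P ∈ C.erase 0, xc P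
    - ∑ P ∈ H.erase 0, xc P := ⟨_, rfl⟩
  have hu := d.hu
  have h1 : ∀ Q ∉ H, X1 H (xc Q) = u ^ 2 * X1 D (xc (φ Q)) + β ∧
      yc Q * S1 H (xc Q) = u ^ 3 * (yc (φ Q) * S1 D (xc (φ Q))) := by
    intro Q hQ
    have hQ' : φ Q ∉ D := fun h => hQ ((d.mem_image h3 hH hs).1 h)
    obtain ⟨a1, a2⟩ := sum1 d.good hH hQ
    obtain ⟨b1, b2⟩ := sum1 d.good' dD hQ'
    have c1 := key xc (fun R => u ^ 2 * xc R + ∑ P ∈ C.erase 0, xc P) (fun Q hQ => by
      rw [(sum1 d.good d.sub hQ).1, hφ, d.hom_apply, (d.spec hQ).2.1]; field_simp) Q hQ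
    have c2 := key yc (fun R => u ^ 3 * yc R) (fun Q hQ => by
      rw [(sum1 d.good d.sub hQ).2, hφ, d.hom_apply, (d.spec hQ).2.2]; field_simp) Q hQ
    rw [Finset.sum_add_distrib, ← Finset.mul_sum, b1, a1, Finset.sum_const, nsmul_eq_mul] at c1
    rw [← Finset.mul_sum, b2, a2] at c2
    exact ⟨by rw [hβ]; linear_combination c1, c2⟩
  obtain ⟨z1, z2, z3⟩ := quad_zero' d.good hH (a := -3 * β) (b := 3 * β ^ 2 + u ^ 4 * vA D - vA H)
    (c := -β ^ 3 - u ^ 4 * vA D * β + u ^ 6 * vB D - vB H) (by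
      intro Q hQ
      have hQ' : φ Q ∉ D := fun h => hQ ((d.mem_image h3 hH hs).1 h)
      have e1 := velu_eq d.good hH (off1 hH hQ).2
      have e2 := velu_eq d.good' dD (off1 dD hQ').2
      rw [← H81.eqn (off1 hH hQ).1, ← mul_pow, (h1 Q hQ).2] at e1
      rw [← H81.eqn (off1 dD hQ').1, ← mul_pow] at e2
      rw [(h1 Q hQ).1] at e1 ⊢
      linear_combination e1 - u ^ 6 * e2)
  have b0 : β = 0 := by simpa [h3] using z1
  rw [b0] at z2 z3 h1
  exact ⟨⟨by linear_combination -z2, by linear_combination -z3⟩,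
    fun Q hQ => by simpa using h1 Q hQ⟩

variable {v A₂ B₂ : k}

lemma VD.comp (d' : VD (H.image (d.hom h3)) v A₂ B₂) : VD H (u * v) A₂ B₂ :=
  ⟨d.good, hH, mul_ne_zero d.hu d'.hu, by rw [(d.comp_aux h3 hH hs).1.1, d'.hA]; ring,
    by rw [(d.comp_aux h3 hH hs).1.2, d'.hB]; ring, d'.good'⟩

lemma VD.quot (d' : VD H v A₂ B₂) : VD (H.image (d.hom h3)) (v / u) A₂ B₂ := by
  have hu := d.hu
  refine ⟨d.good', isSub_image _ hH, div_ne_zero d'.hu hu, ?_, ?_, d'.good'⟩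
  · have := (d.comp_aux h3 hH hs).1.1
    rw [d'.hA] at this
    field_simp
    linear_combination -this
  · have := (d.comp_aux h3 hH hs).1.2
    rw [d'.hB] at this
    field_simp
    linear_combination -this

lemma VD.comp_vm (d' : VD (H.image (d.hom h3)) v A₂ B₂) (Q : Pt A B) :
    d'.hom h3 (d.hom h3 Q) = vm H (u * v) A₂ B₂ Q := by
  have d'' := d.comp h3 hH hs d'
  by_cases hQ : Q ∈ H
  · rw [d''.eq_zero.2 hQ, d'.hom_eq_zero, d.mem_image h3 hH hs]; exact hQ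
  have hQ' : d.hom h3 Q ∉ H.image (d.hom h3) := fun h => hQ ((d.mem_image h3 hH hs).1 h)
  obtain ⟨a1, a2, a3⟩ := d'.spec hQ'
  obtain ⟨b1, b2, b3⟩ := d''.spec hQ
  obtain ⟨c1, c2⟩ := (d.comp_aux h3 hH hs).2 Q hQ
  have hu := d.hu
  have hv := d'.hu
  exact pt_ext a1 b1 (by rw [d'.hom_apply, a2, b2, c1]; field_simp)
    (by rw [d'.hom_apply, a3, b3, c2]; field_simp)

end comp

omit [IsAlgClosed k] in
lemma VD.neg_u (d : VD C u A₁ B₁) : VD C (-u) A₁ B₁ :=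
  ⟨d.good, d.sub, neg_ne_zero.2 d.hu, by rw [d.hA]; ring, by rw [d.hB]; ring, d.good'⟩

lemma VD.vm_neg_u (d : VD C u A₁ B₁) (P : Pt A B) : vm C (-u) A₁ B₁ P = -vm C u A₁ B₁ P := by
  by_cases hP : P ∈ C
  · rw [d.eq_zero.2 hP, d.neg_u.eq_zero.2 hP, neg_zero]
  obtain ⟨a1, a2, a3⟩ := d.spec hP
  obtain ⟨b1, b2, b3⟩ := d.neg_u.spec hP
  exact pt_ext b1 (neg_ne_zero.2 a1) (by rw [b2, xc_neg, a2, neg_sq])
    (by rw [b3, yc_neg, a3]; ring)

omit [IsAlgClosed k] in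
lemma VD.u_eq {u' : k} (d : VD C u A₁ B₁) (d' : VD C u' A₁ B₁) (hA : A₁ ≠ 0) (hB : B₁ ≠ 0) :
    u' = u ∨ u' = -u := by
  have h1 : u' ^ 4 = u ^ 4 := mul_right_cancel₀ hA (d'.hA.symm.trans d.hA)
  have h2 : u' ^ 6 = u ^ 6 := mul_right_cancel₀ hB (d'.hB.symm.trans d.hB)
  refine sq_eq_sq_iff_eq_or_eq_neg.1 (mul_left_cancel₀ (pow_ne_zero 4 d.hu) ?_)
  linear_combination h2 - u' ^ 2 * h1

/-- the product formula for a fibre of the quotient map -/
lemma prod_formula (hG : Good A B) (h3 : (3 : k) ≠ 0) (hC : IsSub C) {Q : Pt A B} (hQ : Q ∉ C)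
    {ξ : k} (hξ : ∀ P ∈ C.erase 0, ξ ≠ xc P) :
    (X1 C ξ - X1 C (xc Q)) * ∏ P ∈ C.erase 0, (ξ - xc P) = ∏ P ∈ C, (ξ - xc (Q + P)) := by
  classical
  obtain ⟨π, c⟩ := exists_at (xc Q)
  have h := kp_of_at c
  obtain ⟨G, g1, g2⟩ : ∃ G : Pt (cL A) (cL B), (h.rd hG).red G = Q ∧
      (G = (G0 A B).pt hG ∨ G = -(G0 A B).pt hG) := by
    obtain ⟨n0, x1⟩ := red_G0 hG c
    rcases eq_or_neg n0 (off1 hC hQ).1 x1 with e | e
    · exact ⟨_, e, Or.inl rfl⟩
    · exact ⟨_, by rw [map_neg]; exact neg_eq_iff_eq_neg.2 e, Or.inr rfl⟩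
  have hC' := isSub_image (io hG) hC
  have g3 : G + G ∉ C.image (io hG) := by
    obtain ⟨R, hR⟩ := exists_double hG h3 C
    have r0 : R ≠ 0 := by rintro rfl; exact hR (by simpa using hC.zero)
    obtain ⟨π', c'⟩ := exists_at (xc R)
    obtain ⟨n0, x1⟩ := red_G0 hG c'
    intro hm
    have h1 : (G0 A B).pt hG + (G0 A B).pt hG ∈ C.image (io hG) := by
      rcases g2 with rfl | rfl
      · exact hm
      · rw [← neg_add] at hm; exact (IsSub_neg_iff hC').1 hm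
    have h2 := Finset.mem_image_of_mem (c'.rd hG).red h1
    rw [show (C.image (io hG)).image (c'.rd hG).red = C from (kp_of_at c').image_io hG C,
      map_add] at h2
    rcases eq_or_neg n0 r0 x1 with e | e
    · exact hR (e ▸ h2)
    · rw [e, ← neg_add] at h2; exact hR ((IsSub_neg_iff hC).1 h2)
  have hξ' : ∀ P ∈ (C.image (io hG)).erase 0, cL ξ ≠ xc P := by
    intro P hP
    obtain ⟨p0, hP⟩ := Finset.mem_erase.1 hP
    obtain ⟨P', hP', rfl⟩ := Finset.mem_image.1 hP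
    rw [xc_io]
    exact fun e => hξ P' (Finset.mem_erase.2 ⟨fun e => p0 (by rw [e, map_zero]), hP'⟩)
      ((cL (k := k)).injective e)
  have e := congrArg (eval (cL ξ)) (prod_gen (hG.map cL) hC' g3)
  rw [eval_sub, eval_mul, eval_C, nP_eval (hG.map cL) hC' hξ', ← sub_mul, dP_eval, eval_prod] at e
  simp only [eval_sub, eval_X, eval_C] at e
  have hf := h.io_ne hG C
  have hx : Ev π (xc G) (xc Q) := g1 ▸ ev_xc (h.rd hG) (g1 ▸ (off1 hC hQ).1)
  have t : ∀ {z : LL k} {z' : k}, Ev π z z' → (∀ P ∈ C.erase 0, z' ≠ xc P) →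
      Ev π (X1 (C.image (io hG)) z) (X1 C z') := fun hz hn =>
    (h.ev_vX hG hC hz hn).1.congr (vX_image cL rfl rfl _ C _).1.symm rfl
  have e1 := ((t (h ξ) hξ).sub (t hx (off1 hC hQ).2)).mul
    (ev_prod_sub (h.rd hG) hC' hf (f := fun P => cL ξ - xc P) (g := fun P => ξ - xc P)
      fun P hP => (h ξ).sub (ev_xc _ (hf P hP)))
  rw [e, h.image_io] at e1
  refine e1.unique ?_
  rw [Finset.prod_image (show Function.Injective (io hG) from Sc.injective _).injOn]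
  refine Ev.prod _ fun P hP => (h ξ).sub ?_
  have e2 : (h.rd hG).red (G + io hG P) = Q + P := by rw [map_add, g1, h.red_io hG]
  rw [← e2]
  exact ev_xc _ (e2 ▸ (off1 hC fun e => hQ ((IsSub_add_iff hC hP).1 e)).1)

end Pool.Agent.MP_c481b3_nt.H28
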