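import Pool.Agent.MP_c481b3_nt.H28.VMap

set_option autoImplicit false

namespace Pool.Agent.MP_c481b3_nt.H28

open Pool.Agent.MP_c481b3_nt.H81 Polynomial

lemma finite_preimage {G H : Type*} [AddCommGroup G] [AddCommGroup H] (f : G →+ H)
    (hf : {x | f x = 0}.Finite) {s : Set H} (hs : s.Finite) : (f ⁻¹' s).Finite := by
  refine hs.preimage' fun y _ => ?_
  rcases (f ⁻¹' {y}).eq_empty_or_nonempty with h | ⟨x, hx⟩
  · rw [h]; exact Set.finite_empty
  · refine (hf.image (· + x)).subset fun z hz => ⟨z - x, ?_, sub_add_cancel _ _⟩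
    rw [Set.mem_ofPred_eq, map_sub, show f z = y from hz, show f x = y from hx, sub_self]

variable {k : Type*} [Field k] [DecidableEq k] [IsAlgClosed k] {A B : k}

lemma finite_xc (hG : Good A B) {s : Set k} (hs : s.Finite) :
    {P : Pt A B | xc P ∈ s}.Finite := by
  refine (hs.biUnion (t := fun x => {P : Pt A B | P ≠ 0 ∧ xc P = x}) fun x _ => ?_).insert 0
    |>.subset fun P hP => ?_
  · obtain ⟨P, h1, h2⟩ := exists_pt hG x
    exact (Set.toFinite {P, -P}).subset fun Q hQ => eq_or_neg hQ.1 h1 (hQ.2.trans h2.symm)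
  · by_cases h0 : P = 0
    · exact Or.inl h0
    · exact Or.inr (Set.mem_biUnion hP ⟨h0, rfl⟩)

omit [DecidableEq k] in
lemma infinite_pt (hG : Good A B) : Infinite (Pt A B) :=
  Infinite.of_surjective xc fun x => (exists_pt hG x).imp fun _ h => h.2

lemma finite_tors (hG : Good A B) (h3 : (3 : k) ≠ 0) {t : ℤ} (ht : (t : k) ≠ 0) :
    {P : Pt A B | t • P = 0}.Finite := by
  obtain ⟨C, h, -⟩ := torsion_card hG h3 ht
  exact C.finite_toSet.subset fun P hP => (h P).2 hP

variable {C : Finset (Pt A B)} {u A₁ B₁ : k}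

lemma finite_fib (hG : Good A B) (hC : IsSub C) (a : k) :
    {P : Pt A B | P ∉ C ∧ X1 C (xc P) = a}.Finite := by
  refine (finite_xc hG (nP C - Polynomial.C a * dP C).roots.toFinset.finite_toSet).subset ?_
  rintro P ⟨h1, h2⟩
  simp only [Set.mem_ofPred_eq, Finset.mem_coe, Multiset.mem_toFinset]
  rw [mem_roots (fib_spec hC a).1.ne_zero, IsRoot, eval_sub, eval_mul, eval_C,
    nP_eval hG hC (off1 hC h1).2, h2, sub_self]

lemma VD.finite_bad (d : VD C u A₁ B₁) (h3 : (3 : k) ≠ 0) :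
    {P : Pt A B | P + P ∈ C ∨ yc (vm C u A₁ B₁ P) = 0}.Finite := by
  have h1 : {P : Pt A B | P + P ∈ C}.Finite := by
    have := finite_preimage (2 • AddMonoidHom.id (Pt A B))
      ((finite_tors d.good h3 (t := 2) (by simpa using d.good.two)).subset fun P hP => by
        simpa [two_zsmul, two_nsmul] using hP) C.finite_toSet
    exact this.subset fun P hP => by simpa [two_nsmul] using hP
  have hm : (fp A₁ B₁).Monic := by unfold fp; monicity!
  have h2 := (fp A₁ B₁).roots.toFinset.finite_toSet.biUnion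
    fun x _ => finite_fib d.good d.sub (x * u ^ 2)
  refine (h1.union h2).subset ?_
  rintro P (h | h)
  · exact Or.inl h
  by_cases hP : P ∈ C
  · exact Or.inl (d.sub.add hP hP)
  obtain ⟨a1, a2, -⟩ := d.spec hP
  refine Or.inr (Set.mem_biUnion (x := xc (vm C u A₁ B₁ P)) ?_
    ⟨hP, by rw [a2, div_mul_cancel₀ _ (pow_ne_zero 2 d.hu)]⟩)
  have := H81.eqn a1
  rw [h] at this
  simp only [Finset.mem_coe, Multiset.mem_toFinset]
  rw [mem_roots hm.ne_zero, IsRoot]
  simpa [fp] using this.symm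

lemma VD.fibre (d : VD C u A₁ B₁) {P Q : Pt A B} (h1 : P + P ∉ C) (h2 : yc (vm C u A₁ B₁ P) ≠ 0)
    (h : vm C u A₁ B₁ Q = vm C u A₁ B₁ P) : Q - P ∈ C := by
  have hP : P ∉ C := fun e => h1 (d.sub.add e e)
  obtain ⟨a1, a2, -⟩ := d.spec hP
  have hQ : Q ∉ C := fun e => a1 (h ▸ d.eq_zero.2 e)
  obtain ⟨-, b2, -⟩ := d.spec hQ
  have hX : X1 C (xc Q) = X1 C (xc P) := by
    rw [h, a2] at b2
    exact ((div_left_inj' (pow_ne_zero 2 d.hu)).1 b2).symm
  have e := congrArg (eval (xc Q)) (prod_gen d.good d.sub h1)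
  rw [eval_sub, eval_mul, eval_C, nP_eval d.good d.sub (off1 d.sub hQ).2, hX, sub_self,
    eval_prod] at e
  obtain ⟨c, hc, e⟩ := Finset.prod_eq_zero_iff.1 e.symm
  rw [eval_sub, eval_X, eval_C, sub_eq_zero] at e
  have hn : P + c ∉ C := fun e => hP ((IsSub_add_iff d.sub hc).1 e)
  rcases eq_or_neg (off1 d.sub hQ).1 (off1 d.sub hn).1 e with e | e
  · rw [e, add_sub_cancel_left]; exact hc
  · rw [e, d.neg, d.inv P hc] at h
    have := congrArg yc h
    rw [yc_neg] at this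
    exact absurd (mul_left_cancel₀ d.good'.two (by linear_combination -this)) h2

omit [IsAlgClosed k] in
lemma VD.base {M : Type*} [Field M] [DecidableEq M] (d : VD C u A₁ B₁) (σ : k →+* M) :
    VD (C.image (Sc.ofHom σ rfl rfl (d.good.map σ)).map) (σ u) (σ A₁) (σ B₁) := by
  have := d.red (rd_triv σ rfl rfl (d.good.map σ)) (rd_triv σ rfl rfl (d.good'.map σ))
    (ev_triv σ u) ((map_ne_zero σ).2 d.hu)
    (fun P hP => by
      rw [red_triv σ rfl rfl (d.good.map σ)]; exact Sc.map_ne _ (Finset.mem_erase.1 hP).1)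
  rwa [Finset.image_congr fun P _ => red_triv σ rfl rfl (d.good.map σ) P] at this

lemma KP.red_vm [DecidableEq (LL k)] {π : Plc (LL k) k} (h : KP π) (d : VD C u A₁ B₁)
    (Q : Pt (cL A) (cL B)) :
    (h.rd d.good').red (vm (C.image (io d.good)) (cL u) (cL A₁) (cL B₁) Q)
      = vm C u A₁ B₁ ((h.rd d.good).red Q) := by
  have := (d.base cL).red_vm (h.rd d.good) (h.rd d.good') (h u) d.hu (h.io_ne d.good C) Q
  exact this.trans (by rw [show (C.image (Sc.ofHom cL rfl rfl (d.good.map cL)).map).image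
    (h.rd d.good).red = C from h.image_io d.good C])

lemma VD.add_gen (d : VD C u A₁ B₁) {T : Pt A B}
    (hT : ∀ P, vm C u A₁ B₁ (P + T) ≠ vm C u A₁ B₁ P) {π₀ : Plc (LL k) k} (h₀ : KP π₀)
    [DecidableEq (RatFunc k)] [DecidableEq (LL k)] :
    vm C u A₁ B₁ ((h₀.rd d.good).red ((G0 A B).pt d.good) + T)
      = vm C u A₁ B₁ ((h₀.rd d.good).red ((G0 A B).pt d.good)) + vm C u A₁ B₁ T := by
  set G := (G0 A B).pt d.good with hG
  set W := vm (C.image (io d.good)) (cL u) (cL A₁) (cL B₁) (G + io d.good T)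
    - vm (C.image (io d.good)) (cL u) (cL A₁) (cL B₁) G with hW
  have h1 : ∀ (π : Plc (LL k) k) (h : KP π), (h.rd d.good').red W
      = vm C u A₁ B₁ ((h.rd d.good).red G + T) - vm C u A₁ B₁ ((h.rd d.good).red G) := by
    intro π h
    rw [hW, map_sub, h.red_vm d, h.red_vm d, map_add, h.red_io d.good]
  have h2 : ∀ (π : Plc (LL k) k) (h : KP π), (h.rd d.good').red W ≠ 0 := fun π h => by
    rw [h1 π h]; exact sub_ne_zero.2 (hT _)
  have h3 : ∀ z : LL k, (∀ π : Plc (LL k) k, KP π → z ∈ π.O) → ∃ a, cL a = z := by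
    intro z hz
    by_contra hc
    obtain ⟨π, h, hm⟩ := exists_pole (z := z) fun a e => hc ⟨a, e⟩
    exact hm (hz π h)
  obtain ⟨a, ha⟩ := h3 (xc W) fun π h => (ev_xc _ (h2 π h)).mem
  obtain ⟨b, hb⟩ := h3 (yc W) fun π h => (ev_yc _ (h2 π h)).mem
  have h4 : ∀ (π : Plc (LL k) k) (h : KP π), (h.rd d.good').red W = pt A₁ B₁ a b := by
    intro π h
    rw [Rd.red_of_mem _ (red_mem _ (h2 π h)).1 (red_mem _ (h2 π h)).2, ← ha, ← hb, (h a).ev,
      (h b).ev]
  have h5 : pt A₁ B₁ a b = vm C u A₁ B₁ T := by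
    obtain ⟨π, h, hm⟩ := exists_pole (z := xc G) fun c hc => by
      obtain ⟨P', e1, e2⟩ := exists_pt d.good c
      rcases eq_or_neg ((G0 A B).pt_ne d.good) (io_ne d.good e1) (by rw [xc_io, e2, hc]) with e | e
      · exact (G0 A B).ne_io d.good P' e
      · exact (G0 A B).ne_io d.good (-P') (by rw [map_neg, e])
    rw [← h4 π h, h1 π h, Rd.red_of_not _ hm, zero_add, d.eq_zero.2 d.sub.zero, sub_zero]
  have h6 := h1 π₀ h₀
  rw [h4 π₀ h₀, h5, eq_sub_iff_add_eq, add_comm] at h6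
  exact h6.symm

theorem VD.add (d : VD C u A₁ B₁) (h3 : (3 : k) ≠ 0) (P T : Pt A B) :
    vm C u A₁ B₁ (P + T) = vm C u A₁ B₁ P + vm C u A₁ B₁ T := by
  classical
  set Z := {P : Pt A B | P + P ∈ C ∨ yc (vm C u A₁ B₁ P) = 0} with hZ
  have hZf : Z.Finite := d.finite_bad h3
  set bad : Set (Pt A B) := C ∪ Set.image2 (fun x y => x - y) Z Z with hbad
  have hbf : bad.Finite := C.finite_toSet.union (hZf.image2 _ hZf)
  have h1 : ∀ T, T ∉ bad → ∀ P, vm C u A₁ B₁ (P + T) ≠ vm C u A₁ B₁ P := by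
    intro T hT P e
    by_cases hP : P ∈ Z
    · by_cases hP' : P + T ∈ Z
      · exact hT (Or.inr ⟨_, hP', _, hP, add_sub_cancel_left _ _⟩)
      · have := d.fibre (fun h => hP' (Or.inl h)) (fun h => hP' (Or.inr h)) e.symm
        exact hT (Or.inl (by simpa using d.sub.neg this))
    · exact hT (Or.inl (by
        simpa using d.fibre (fun h => hP (Or.inl h)) (fun h => hP (Or.inr h)) e))
  have h2 : ∀ T, T ∉ bad → -T ∉ bad := by
    rintro T hT (h | ⟨x, hx, y, hy, e⟩)
    · exact hT (Or.inl ((IsSub_neg_iff d.sub).1 h))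
    · exact hT (Or.inr ⟨y, hy, x, hx, by
        show y - x = T
        rw [← neg_sub, show x - y = -T from e, neg_neg]⟩)
  have h4 : ∀ T, T ∉ bad → ∀ P, vm C u A₁ B₁ (P + T) = vm C u A₁ B₁ P + vm C u A₁ B₁ T := by
    intro T hT P
    by_cases hP : P = 0
    · rw [hP, zero_add, d.eq_zero.2 d.sub.zero, zero_add]
    obtain ⟨π, c⟩ := exists_at (xc P)
    obtain ⟨n0, x1⟩ := red_G0 d.good c
    have b1 := d.add_gen (h1 T hT) (kp_of_at c)
    have b2 := d.add_gen (h1 (-T) (h2 T hT)) (kp_of_at c)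
    rcases eq_or_neg n0 hP x1 with e | e
    · rwa [show ((kp_of_at c).rd d.good).red ((G0 A B).pt d.good) = P from e] at b1
    · rw [show ((kp_of_at c).rd d.good).red ((G0 A B).pt d.good) = -P from e, ← neg_add, d.neg,
        d.neg, d.neg, ← neg_add] at b2
      exact neg_injective b2
  have := infinite_pt d.good
  obtain ⟨T1, hT1⟩ := (hbf.union (hbf.image fun x => T - x)).infinite_compl.nonempty
  have a1 : T1 ∉ bad := fun h => hT1 (Or.inl h)
  have a2 : T - T1 ∉ bad := fun h => hT1 (Or.inr ⟨_, h, sub_sub_cancel _ _⟩)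
  have a3 := h4 _ a2 T1
  rw [add_sub_cancel] at a3
  rw [a3, ← add_assoc, ← h4 _ a1, ← h4 _ a2, add_assoc, add_sub_cancel]

end Pool.Agent.MP_c481b3_nt.H28
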