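import Pool.Agent.MP_c481b3_nt.H28.Ev

set_option autoImplicit false

namespace Pool.Agent.MP_c481b3_nt.H28

open Pool.Agent.MP_c481b3_nt.H81 Polynomial

section basic
variable {k : Type*} [Field k] [DecidableEq k] {A B : k}

/-- first coordinate of the quotient map -/
noncomputable abbrev X1 (C : Finset (Pt A B)) (ξ : k) : k := vX C (RingHom.id k) ξ

/-- second coordinate of the quotient map, divided by `y` -/
noncomputable abbrev S1 (C : Finset (Pt A B)) (ξ : k) : k := vS C (RingHom.id k) ξ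

lemma ofHom_id (hG : Good A B) (P : Pt A B) :
    (Sc.ofHom (RingHom.id k) rfl rfl hG).map P = P := by
  by_cases hP : P = 0
  · simp [hP]
  exact pt_ext (Sc.map_ne _ hP) hP (xc_ofHom _ _ _ _ P) (yc_ofHom _ _ _ _ P)

lemma off1 {C : Finset (Pt A B)} (hC : IsSub C) {Q : Pt A B} (hQ : Q ∉ C) :
    Q ≠ 0 ∧ ∀ P ∈ C.erase 0, xc Q ≠ xc P := by
  have h0 : Q ≠ 0 := fun e => hQ (e ▸ hC.zero)
  refine ⟨h0, fun P hP hx => ?_⟩
  rw [Finset.mem_erase] at hP
  rcases eq_or_neg h0 hP.1 hx with h | h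
  · exact hQ (h ▸ hP.2)
  · exact hQ (h ▸ hC.neg hP.2)

lemma inv1 (hG : Good A B) {C : Finset (Pt A B)} (hC : IsSub C) {Q P0 : Pt A B} (hQ : Q ∉ C)
    (h0 : P0 ∈ C) : X1 C (xc (Q + P0)) = X1 C (xc Q) ∧
      yc (Q + P0) * S1 C (xc (Q + P0)) = yc Q * S1 C (xc Q) := by
  have := velu_inv (RingHom.id k) rfl rfl hG hC (Q := Q)
    (fun P hP e => hQ (by rw [e, ofHom_id]; exact hP)) h0
  rwa [ofHom_id] at this

lemma IsSub_add_iff {C : Finset (Pt A B)} (hC : IsSub C) {Q P0 : Pt A B} (h0 : P0 ∈ C) :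
    Q + P0 ∈ C ↔ Q ∈ C :=
  ⟨fun h => by simpa using hC.sub _ h _ h0, fun h => hC.add h h0⟩

lemma IsSub_neg_iff {C : Finset (Pt A B)} (hC : IsSub C) {Q : Pt A B} : -Q ∈ C ↔ Q ∈ C :=
  ⟨fun h => by simpa using hC.neg h, hC.neg⟩

variable {M : Type*} [Field M] [DecidableEq M] {A' B' : M}

lemma vX_image (σ : k →+* M) (hA : σ A = A') (hB : σ B = B') (hG : Good A' B')
    (C : Finset (Pt A B)) (ξ : M) :
    X1 (C.image (Sc.ofHom σ hA hB hG).map) ξ = vX C σ ξ ∧
      S1 (C.image (Sc.ofHom σ hA hB hG).map) ξ = vS C σ ξ := by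
  simp only [vX, vS]
  rw [image_erase _ fun P hP => Sc.map_ne _ (Finset.mem_erase.1 hP).1,
    Finset.sum_image (Sc.injective _).injOn, Finset.sum_image (Sc.injective _).injOn]
  simp [ca, cb, xc_ofHom, hA, hB, map_ofNat]

/-- the denominator of the quotient map -/
noncomputable def dP (C : Finset (Pt A B)) : k[X] := ∏ P ∈ C.erase 0, (X - Polynomial.C (xc P))

/-- the numerator of the quotient map -/
noncomputable def nP (C : Finset (Pt A B)) : k[X] :=
  X * dP C + ∑ P ∈ C.erase 0,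
    (Polynomial.C (ca P) * ∏ Q ∈ (C.erase 0).erase P, (X - Polynomial.C (xc Q))
      + Polynomial.C (cb P) * ∏ Q ∈ ((C.erase 0).erase P).erase (-P), (X - Polynomial.C (xc Q)))

lemma dP_monic (C : Finset (Pt A B)) : (dP C).Monic :=
  monic_prod_of_monic _ _ fun _ _ => monic_X_sub_C _

omit [DecidableEq k] in
lemma prod_deg (s : Finset (Pt A B)) :
    (∏ Q ∈ s, (X - Polynomial.C (xc Q))).natDegree = s.card := by
  rw [natDegree_prod_of_monic _ _ fun _ _ => monic_X_sub_C _]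
  simp

lemma dP_deg {C : Finset (Pt A B)} (hC : IsSub C) : (dP C).natDegree + 1 = C.card := by
  rw [dP, prod_deg, Finset.card_erase_add_one hC.zero]

lemma nP_spec {C : Finset (Pt A B)} (hC : IsSub C) :
    (nP C).Monic ∧ (nP C).natDegree = C.card := by
  have h1 : (X * dP C).Monic := monic_X.mul (dP_monic C)
  have h2 : (X * dP C).natDegree = C.card := by
    rw [monic_X.natDegree_mul (dP_monic C), natDegree_X, add_comm, dP_deg hC]
  have h3 : (∑ P ∈ C.erase 0,
    (Polynomial.C (ca P) * ∏ Q ∈ (C.erase 0).erase P, (X - Polynomial.C (xc Q))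
      + Polynomial.C (cb P) * ∏ Q ∈ ((C.erase 0).erase P).erase (-P),
        (X - Polynomial.C (xc Q)))).natDegree < (X * dP C).natDegree := by
    rw [h2, ← Finset.card_erase_add_one hC.zero, Nat.lt_succ_iff]
    refine natDegree_sum_le_of_forall_le _ _ fun P _ => natDegree_add_le_of_degree_le ?_ ?_
    · exact (natDegree_C_mul_le _ _).trans (by rw [prod_deg]; exact Finset.card_erase_le)
    · exact (natDegree_C_mul_le _ _).trans
        (by rw [prod_deg]; exact Finset.card_erase_le.trans Finset.card_erase_le)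
  exact ⟨h1.add_of_left (degree_lt_degree h3), by rw [nP, natDegree_add_eq_left_of_natDegree_lt h3, h2]⟩

lemma dP_eval (C : Finset (Pt A B)) (ξ : k) : (dP C).eval ξ = ∏ P ∈ C.erase 0, (ξ - xc P) := by
  simp [dP, eval_prod]

lemma nP_eval (hG : Good A B) {C : Finset (Pt A B)} (hC : IsSub C) {ξ : k}
    (hξ : ∀ P ∈ C.erase 0, ξ ≠ xc P) : (nP C).eval ξ = X1 C ξ * (dP C).eval ξ := by
  rw [dP_eval, nP, X1, vX, add_mul, Finset.sum_mul, eval_add, eval_mul, eval_X, dP_eval, eval_finsetSum]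
  congr 1
  refine Finset.sum_congr rfl fun P hP => ?_
  have h0 := sub_ne_zero.2 (hξ P hP)
  simp only [eval_add, eval_mul, eval_C, eval_prod, eval_sub, eval_X, RingHom.id_apply]
  rw [← Finset.mul_prod_erase _ _ hP]
  by_cases h : -P = P
  · have h1 := congrArg yc h
    rw [yc_neg] at h1
    have h2 : yc P = 0 := mul_left_cancel₀ hG.two (by linear_combination -h1)
    have h3 : cb P = 0 := by rw [cb, ← eqn (Finset.mem_erase.1 hP).1, h2]; simp
    rw [h3]
    field_simp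
    ring
  · have hm : -P ∈ (C.erase 0).erase P := Finset.mem_erase.2 ⟨h, Finset.mem_erase.2
      ⟨neg_ne_zero.2 (Finset.mem_erase.1 hP).1, hC.neg (Finset.mem_erase.1 hP).2⟩⟩
    rw [← Finset.mul_prod_erase _ _ hm, xc_neg]
    field_simp

lemma dP_ne {C : Finset (Pt A B)} {ξ : k} (hξ : ∀ P ∈ C.erase 0, ξ ≠ xc P) :
    (dP C).eval ξ ≠ 0 := by
  rw [dP_eval]
  exact Finset.prod_ne_zero_iff.2 fun P hP => sub_ne_zero.2 (hξ P hP)

lemma fib_spec {C : Finset (Pt A B)} (hC : IsSub C) (a : k) :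
    (nP C - Polynomial.C a * dP C).Monic ∧ (nP C - Polynomial.C a * dP C).natDegree = C.card := by
  obtain ⟨h1, h2⟩ := nP_spec hC
  have h3 : (Polynomial.C a * dP C).natDegree < (nP C).natDegree :=
    lt_of_le_of_lt (natDegree_C_mul_le _ _) (by rw [h2, ← dP_deg hC]; omega)
  exact ⟨h1.sub_of_left (degree_lt_degree h3), by rw [natDegree_sub_eq_left_of_natDegree_lt h3, h2]⟩

/-- the fibre of the quotient map through a point whose double is not in the kernel -/
lemma prod_gen (hG : Good A B) {C : Finset (Pt A B)} (hC : IsSub C) {Q : Pt A B}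
    (hQ : Q + Q ∉ C) :
    nP C - Polynomial.C (X1 C (xc Q)) * dP C = ∏ P ∈ C, (X - Polynomial.C (xc (Q + P))) := by
  have hQ' : Q ∉ C := fun h => hQ (hC.add h h)
  have hn : ∀ P ∈ C, Q + P ∉ C := fun P hP h => hQ' ((IsSub_add_iff hC hP).1 h)
  obtain ⟨h1, h2⟩ := fib_spec hC (X1 C (xc Q))
  refine (eq_of_monic_of_dvd_of_natDegree_le (monic_prod_of_monic _ _ fun _ _ => monic_X_sub_C _)
    h1 ?_ ?_)
  · refine Finset.prod_dvd_of_coprime ?_ fun P hP => ?_
    · intro P hP P' hP' hne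
      refine isCoprime_X_sub_C_of_isUnit_sub (sub_ne_zero.2 fun e => ?_).isUnit
      rcases eq_or_neg (off1 hC (hn P hP)).1 (off1 hC (hn P' hP')).1 e with h | h
      · exact hne (add_left_cancel h)
      · refine hQ ?_
        have : Q + Q = -(P + P') := by
          rw [eq_neg_iff_add_eq_zero] at h ⊢
          rw [← h]; abel
        rw [this]
        exact hC.neg (hC.add hP hP')
    · rw [dvd_iff_isRoot, IsRoot, eval_sub, eval_mul, eval_C, nP_eval hG hC (off1 hC (hn P hP)).2,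
        (inv1 hG hC hQ' hP).1, sub_self]
  · rw [h2, natDegree_prod_of_monic _ _ fun _ _ => monic_X_sub_C _]
    simp

/-- the quotient map followed by a scaling -/
noncomputable def vm (C : Finset (Pt A B)) (u A₁ B₁ : k) (P : Pt A B) : Pt A₁ B₁ :=
  if P ∈ C then 0 else pt A₁ B₁ (X1 C (xc P) / u ^ 2) (yc P * S1 C (xc P) / u ^ 3)

/-- data of a quotient map followed by a scaling -/
structure VD (C : Finset (Pt A B)) (u A₁ B₁ : k) : Prop where
  good : Good A B
  sub : IsSub C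
  hu : u ≠ 0
  hA : vA C = u ^ 4 * A₁
  hB : vB C = u ^ 6 * B₁
  good' : Good A₁ B₁

end basic

section places
variable {k : Type*} [Field k] {A B : k}

/-- a place of the function field that is trivial on the constants -/
def KP (π : Plc (LL k) k) : Prop := ∀ a, Ev π (cL a) a

lemma kp_of_at {π : Plc (LL k) k} {x0 : k} (h : At π x0) : KP π := fun a => ⟨h.c_mem a, h.ev_c a⟩

lemma KP.rd {π : Plc (LL k) k} (h : KP π) (hG : Good A B) : Rd π (cL A) (cL B) A B :=
  rd_of (h A) (h B) hG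

lemma exists_zero [IsAlgClosed k] {w : LL k} (hw : ∀ a, cL a ≠ w) :
    ∃ π : Plc (LL k) k, KP π ∧ π.O.valuation w < 1 := by
  have htr : Transcendental k w := by
    rintro ⟨p, hp, h⟩
    obtain ⟨c, hc⟩ := mem_range_of_alg (cL (k := k)) hp h
    exact hw c hc
  set ψ : k[X] →+* LL k := (aeval w).toRingHom with hψ
  have hinj : Function.Injective ψ := transcendental_iff_injective.1 htr
  have hmax : (Ideal.span {X - C (0 : k)} : Ideal k[X]).IsMaximal :=
    PrincipalIdealRing.isMaximal_of_irreducible (irreducible_X_sub_C 0)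
  obtain ⟨O, h1, h2⟩ := exists_val ψ hinj _ hmax
  set ψ' : k[X] →+* O := ψ.codRestrict O.toSubring h1 with hψ'
  set j : k →+* IsLocalRing.ResidueField O := (IsLocalRing.residue O).comp (ψ'.comp C) with hj
  have hres : ∀ c : k[X], IsLocalRing.residue O (ψ' c) = j (c.eval 0) := by
    intro c
    rw [hj, RingHom.comp_apply, RingHom.comp_apply, ← sub_eq_zero, ← map_sub, ← map_sub,
      IsLocalRing.residue_eq_zero_iff, O.valuation_lt_one_iff]
    exact (h2 _).2 (Ideal.mem_span_singleton.2 X_sub_C_dvd_sub_C_eval)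
  have halg : ∀ a : LL k, ∃ p : k[X][X], p ≠ 0 ∧ p.eval₂ ψ a = 0 := by
    intro a
    have hb : IsTranscendenceBasis k ![w] := by
      refine (algebraicIndependent_iff_transcendental.2 htr).isTranscendenceBasis_of_lift_trdeg_le_of_finite ?_
      have t1 : Algebra.trdeg k (LL k) = 1 := by
        rw [← trdeg_add_eq k (RatFunc k) (A := LL k), trdeg_eq_zero (R := RatFunc k), add_zero,
          ← trdeg_add_eq k k[X] (A := RatFunc k), Polynomial.trdeg_of_isDomain]
        have : Algebra.IsAlgebraic k[X] (RatFunc k) := IsLocalization.isAlgebraic _ (nonZeroDivisors _)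
        rw [trdeg_eq_zero, add_zero]
      simp [t1]
    have ha := hb.isAlgebraic.isAlgebraic a
    rw [Matrix.range_cons_empty] at ha
    obtain ⟨q, hq, hqa⟩ := ha
    set e := Polynomial.algEquivOfTranscendental k w htr with he
    refine ⟨q.map e.symm.toRingEquiv.toRingHom, (Polynomial.map_ne_zero_iff e.symm.injective).2 hq, ?_⟩
    rw [eval₂_map, ← hqa, aeval_def]
    congr 1
    refine RingHom.ext fun z => ?_
    obtain ⟨y, rfl⟩ := e.surjective z
    simp [he, hψ]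
  have hsurj : Function.Surjective j := by
    intro b
    obtain ⟨a, rfl⟩ := IsLocalRing.residue_surjective b
    obtain ⟨p, hp, hpa⟩ := halg a
    obtain ⟨q, hq, hqa⟩ := exists_prim ψ hinj 0 a _ p hp rfl hpa
    refine mem_range_of_alg j hq ?_
    have e1 : q.eval₂ ψ' a = 0 := by
      apply Subtype.val_injective
      have := hom_eval₂ q ψ' O.subtype a
      exact this.trans hqa
    have e2 := hom_eval₂ q ψ' (IsLocalRing.residue O) a
    rw [e1, map_zero] at e2
    rw [eval₂_map]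
    rw [e2]
    congr 1
    ext c
    · simpa using (hres (C c)).symm
    · simpa using (hres X).symm
  set e := RingEquiv.ofBijective j ⟨j.injective, hsurj⟩ with he
  let π : Plc (LL k) k := ⟨O, e.symm.toRingHom.comp (IsLocalRing.residue O), fun a => by
    rw [← O.valuation_lt_one_iff, ← IsLocalRing.residue_eq_zero_iff]
    simp⟩
  refine ⟨π, fun a => ?_, ?_⟩
  · have e1 : ψ (C a) = cL a := by simp [hψ]
    refine ⟨e1 ▸ h1 (C a), ?_⟩
    rw [← e1]
    refine (π.ev_coe (ψ' (C a))).trans ?_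
    change e.symm (IsLocalRing.residue O (ψ' (C a))) = _
    rw [hres, RingEquiv.symm_apply_eq, eval_C]
    rfl
  · have := (h2 X).2 (by simp)
    simpa [hψ] using this

lemma exists_pole [IsAlgClosed k] {z : LL k} (hz : ∀ a, cL a ≠ z) :
    ∃ π : Plc (LL k) k, KP π ∧ z ∉ π.O := by
  obtain ⟨π, h1, h2⟩ := exists_zero (w := z⁻¹) fun a e => hz a⁻¹ (by rw [map_inv₀, e, inv_inv])
  refine ⟨π, h1, fun h => ?_⟩
  have h0 : z ≠ 0 := fun e => hz 0 (by rw [e, map_zero])
  have := (Ev.of_mem h).mul (Ev.of_lt h2)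
  rw [mul_inv_cancel₀ h0, mul_zero] at this
  exact one_ne_zero ((Ev.one π).unique this)

variable [DecidableEq (LL k)] [DecidableEq k]

lemma KP.red_io {π : Plc (LL k) k} (h : KP π) (hG : Good A B) (P : Pt A B) :
    (h.rd hG).red (io hG P) = P := by
  by_cases hP : P = 0
  · simp [hP]
  exact red_eq _ (io_ne hG hP) hP (by rw [xc_io]; exact h _) (by rw [yc_io]; exact h _)

lemma KP.image_io {π : Plc (LL k) k} (h : KP π) (hG : Good A B) (C : Finset (Pt A B)) :
    (C.image (io hG)).image (h.rd hG).red = C := by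
  rw [Finset.image_image]
  exact (Finset.image_congr fun P _ => h.red_io hG P).trans Finset.image_id

lemma KP.io_ne {π : Plc (LL k) k} (h : KP π) (hG : Good A B) (C : Finset (Pt A B)) :
    ∀ P ∈ (C.image (io hG)).erase 0, (h.rd hG).red P ≠ 0 := by
  intro P hP
  obtain ⟨h0, hP⟩ := Finset.mem_erase.1 hP
  obtain ⟨Q, -, rfl⟩ := Finset.mem_image.1 hP
  rw [h.red_io]
  exact fun e => h0 (by rw [e, map_zero])

lemma KP.ev_vX {π : Plc (LL k) k} (h : KP π) (hG : Good A B) {C : Finset (Pt A B)} (hC : IsSub C)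
    {ξ : LL k} {ξ' : k} (hξ : Ev π ξ ξ') (hne : ∀ P ∈ C.erase 0, ξ' ≠ xc P) :
    Ev π (vX C cL ξ) (X1 C ξ') ∧ Ev π (vS C cL ξ) (S1 C ξ') := by
  have hne' : ∀ P ∈ (C.image (io hG)).erase 0, ξ' ≠ xc ((h.rd hG).red P) := by
    intro P hP
    refine hne _ (Finset.mem_erase.2 ⟨h.io_ne hG C P hP, ?_⟩)
    rw [← h.image_io hG C]
    exact Finset.mem_image_of_mem _ (Finset.mem_of_mem_erase hP)
  have h1 := H28.ev_vX (h.rd hG) (isSub_image (io hG) hC) (h.io_ne hG C) hξ hne'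
  have h2 := H28.ev_vS (h.rd hG) (isSub_image (io hG) hC) (h.io_ne hG C) hξ hne'
  rw [h.image_io] at h1 h2
  exact ⟨h1.congr (vX_image cL rfl rfl _ C ξ).1 rfl, h2.congr (vX_image cL rfl rfl _ C ξ).2 rfl⟩

end places

section closed
variable {k : Type*} [Field k] [DecidableEq k] [IsAlgClosed k] {A B : k}

lemma velu_eq (hG : Good A B) {C : Finset (Pt A B)} (hC : IsSub C) {ξ : k}
    (hξ : ∀ P ∈ C.erase 0, ξ ≠ xc P) :
    (ξ ^ 3 + A * ξ + B) * S1 C ξ ^ 2 = X1 C ξ ^ 3 + vA C * X1 C ξ + vB C := by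
  classical
  obtain ⟨π, a⟩ := exists_at ξ
  have h := kp_of_at a
  have e := congrArg aL (velu_ode hG hC)
  have e0 : (aL (k := k)).comp RatFunc.C = cL := RingHom.ext aL_C
  simp only [map_add, map_mul, map_pow, map_vX, map_vS, e0, aL_C, ff] at e
  have hx : Ev π (aL RatFunc.X) ξ := ⟨a.x_mem, a.ev_x⟩
  obtain ⟨h1, h2⟩ := h.ev_vX hG hC hx hξ
  refine ((((hx.pow 3).add ((h A).mul hx)).add (h B)).mul (h2.pow 2)).unique ?_
  rw [e]
  exact ((h1.pow 3).add ((h _).mul h1)).add (h _)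

variable {C : Finset (Pt A B)} {u A₁ B₁ : k} (d : VD C u A₁ B₁)
include d

lemma VD.eqn {P : Pt A B} (hP : P ∉ C) : (yc P * S1 C (xc P) / u ^ 3) ^ 2
    = (X1 C (xc P) / u ^ 2) ^ 3 + A₁ * (X1 C (xc P) / u ^ 2) + B₁ := by
  obtain ⟨h0, h1⟩ := off1 d.sub hP
  have h2 := velu_eq d.good d.sub h1
  rw [← H81.eqn h0, d.hA, d.hB] at h2
  have := d.hu
  field_simp
  linear_combination h2

lemma VD.spec {P : Pt A B} (hP : P ∉ C) : vm C u A₁ B₁ P ≠ 0 ∧
    xc (vm C u A₁ B₁ P) = X1 C (xc P) / u ^ 2 ∧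
    yc (vm C u A₁ B₁ P) = yc P * S1 C (xc P) / u ^ 3 := by
  rw [vm, if_neg hP]
  exact ⟨pt_ne d.good' (d.eqn hP), xc_pt d.good' (d.eqn hP), yc_pt d.good' (d.eqn hP)⟩

lemma VD.eq_zero {P : Pt A B} : vm C u A₁ B₁ P = 0 ↔ P ∈ C :=
  ⟨fun h => by_contra fun hP => (d.spec hP).1 h, fun h => by rw [vm, if_pos h]⟩

lemma VD.neg (P : Pt A B) : vm C u A₁ B₁ (-P) = -vm C u A₁ B₁ P := by
  by_cases hP : P ∈ C
  · rw [d.eq_zero.2 hP, d.eq_zero.2 (d.sub.neg hP), neg_zero]
  have hP' : -P ∉ C := fun h => hP ((IsSub_neg_iff d.sub).1 h)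
  obtain ⟨a1, a2, a3⟩ := d.spec hP
  obtain ⟨b1, b2, b3⟩ := d.spec hP'
  exact pt_ext b1 (neg_ne_zero.2 a1) (by rw [b2, xc_neg, xc_neg, a2])
    (by rw [b3, yc_neg, yc_neg, xc_neg, a3]; ring)

lemma VD.inv (P : Pt A B) {P0 : Pt A B} (h0 : P0 ∈ C) :
    vm C u A₁ B₁ (P + P0) = vm C u A₁ B₁ P := by
  by_cases hP : P ∈ C
  · rw [d.eq_zero.2 hP, d.eq_zero.2 (d.sub.add hP h0)]
  have hP' : P + P0 ∉ C := fun h => hP ((IsSub_add_iff d.sub h0).1 h)
  obtain ⟨a1, a2, a3⟩ := d.spec hP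
  obtain ⟨b1, b2, b3⟩ := d.spec hP'
  obtain ⟨c1, c2⟩ := inv1 d.good d.sub hP h0
  exact pt_ext b1 a1 (by rw [b2, a2, c1]) (by rw [b3, a3, c2])

variable {κ : Type*} [Field κ] [DecidableEq κ] {π : Plc k κ} {A' B' A₁' B₁' u' : κ}
  (r : Rd π A B A' B') (r₁ : Rd π A₁ B₁ A₁' B₁') (hu : Ev π u u') (hu' : u' ≠ 0)
  (hf : ∀ P ∈ C.erase 0, r.red P ≠ 0)
include r r₁ hu hu' hf

omit [IsAlgClosed k] in
lemma VD.red : VD (C.image r.red) u' A₁' B₁' :=
  ⟨r.good, isSub_image _ d.sub, hu',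
    (ev_vA r d.sub hf).unique (d.hA ▸ (hu.pow 4).mul (rdA r₁)),
    (ev_vB r d.sub hf).unique (d.hB ▸ (hu.pow 6).mul (rdB r₁)), r₁.good⟩

lemma VD.red_vm [IsAlgClosed κ] (P : Pt A B) :
    r₁.red (vm C u A₁ B₁ P) = vm (C.image r.red) u' A₁' B₁' (r.red P) := by
  have d' := d.red r r₁ hu hu' hf
  by_cases h : r.red P ∈ C.image r.red
  · rw [d'.eq_zero.2 h]
    obtain ⟨c, hc, e⟩ := Finset.mem_image.1 h
    rw [← d.inv P (d.sub.neg hc)]
    have h0 : r.red (P + -c) = 0 := by rw [map_add, map_neg, e, add_neg_cancel]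
    generalize P + -c = Q at h0
    by_cases hQ : Q ∈ C
    · rw [d.eq_zero.2 hQ, map_zero]
    obtain ⟨-, a2, -⟩ := d.spec hQ
    refine r₁.red_of_not fun hx => ?_
    refine vX_not_mem r hf (ξ := xc Q) (fun h1 => r.red_ne (off1 d.sub hQ).1 h1 h0) ?_
    have := mul_mem hx (hu.pow 2).mem
    rwa [a2, div_mul_cancel₀ _ (pow_ne_zero 2 d.hu)] at this
  · have hP : P ∉ C := fun h1 => h (Finset.mem_image_of_mem _ h1)
    obtain ⟨a1, a2, a3⟩ := d.spec hP
    obtain ⟨b1, b2, b3⟩ := d'.spec h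
    obtain ⟨c1, c2⟩ := off1 d'.sub h
    have hne : ∀ Q ∈ C.erase 0, xc (r.red P) ≠ xc (r.red Q) := fun Q hQ => c2 _
      (Finset.mem_erase.2 ⟨hf Q hQ, Finset.mem_image_of_mem _ (Finset.mem_of_mem_erase hQ)⟩)
    refine red_eq r₁ a1 b1 ?_ ?_
    · rw [a2, b2]
      exact (ev_vX r d.sub hf (ev_xc r c1) hne).div (hu.pow 2) (pow_ne_zero 2 hu')
    · rw [a3, b3]
      exact ((ev_yc r c1).mul (ev_vS r d.sub hf (ev_xc r c1) hne)).div (hu.pow 3)
        (pow_ne_zero 3 hu')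

end closed

end Pool.Agent.MP_c481b3_nt.H28
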