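import Mathlib

set_option autoImplicit false

open Ideal

namespace Pool.Agent.MP_c481b3_nt.H28.W

/-- the order `ℤ[√-A]` -/
abbrev O (A : ℕ) := ℤ√(-(A : ℤ))

variable {A : ℕ}

lemma norm_O (z : O A) : z.norm = z.re ^ 2 + A * z.im ^ 2 := by
  rw [Zsqrtd.norm_def]; ring

/-- conjugate ideal -/
def cj (I : Ideal (O A)) : Ideal (O A) := I.map (starRingEnd (O A))

lemma mem_cj {I : Ideal (O A)} {z : O A} : z ∈ cj I ↔ star z ∈ I := by
  rw [cj, Ideal.mem_map_iff_of_surjective _ (fun x => ⟨star x, star_star x⟩)]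
  constructor
  · rintro ⟨x, hx, rfl⟩
    rw [starRingEnd_apply, star_star]; exact hx
  · exact fun h => ⟨star z, h, star_star z⟩

lemma cj_mul (I J : Ideal (O A)) : cj (I * J) = cj I * cj J := Ideal.map_mul _ _ _

lemma cj_sup (I J : Ideal (O A)) : cj (I ⊔ J) = cj I ⊔ cj J := Ideal.map_sup _ _ _

lemma cj_span (z : O A) : cj (span {z}) = span {star z} := by
  rw [cj, Ideal.map_span, Set.image_singleton]; rfl

lemma cj_cj (I : Ideal (O A)) : cj (cj I) = I := by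
  ext z; simp [mem_cj]

lemma cj_mono {I J : Ideal (O A)} (h : I ≤ J) : cj I ≤ cj J := Ideal.map_mono h

lemma cj_nat (n : ℕ) : cj (span {(n : O A)}) = span {(n : O A)} := by
  rw [cj_span, star_natCast]

lemma cj_int (n : ℤ) : cj (span {(n : O A)}) = span {(n : O A)} := by
  rw [cj_span, star_intCast]

lemma mem_nat {n : ℕ} {z : O A} :
    z ∈ span {(n : O A)} ↔ (n : ℤ) ∣ z.re ∧ (n : ℤ) ∣ z.im := by
  rw [mem_span_singleton, ← Zsqrtd.intCast_dvd, Int.cast_natCast]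

/-- `I` is invertible of norm `n` -/
def HasN (I : Ideal (O A)) (n : ℕ) : Prop := I * cj I = span {(n : O A)}

lemma HasN.mul {I J : Ideal (O A)} {n k : ℕ} (h : HasN I n) (h' : HasN J k) :
    HasN (I * J) (n * k) := by
  unfold HasN at *
  rw [cj_mul, mul_mul_mul_comm, h, h', span_singleton_mul_span_singleton, Nat.cast_mul]

lemma HasN.conj {I : Ideal (O A)} {n : ℕ} (h : HasN I n) : HasN (cj I) n := by
  unfold HasN at *
  rw [cj_cj, mul_comm, h]

lemma HasN.unique {I : Ideal (O A)} {n k : ℕ} (h : HasN I n) (h' : HasN I k) : n = k := by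
  have e : span {(n : O A)} = span {(k : O A)} := h.symm.trans h'
  have h1 : ((n : ℤ) : O A) ∣ (k : ℤ) := by
    simpa using mem_span_singleton.1 (e ▸ mem_span_singleton_self (k : O A))
  have h2 : ((k : ℤ) : O A) ∣ (n : ℤ) := by
    simpa using mem_span_singleton.1 (e.symm ▸ mem_span_singleton_self (n : O A))
  rw [Zsqrtd.intCast_dvd_intCast, Int.natCast_dvd_natCast] at h1 h2
  exact Nat.dvd_antisymm h1 h2

lemma HasN.mem {I : Ideal (O A)} {n : ℕ} (h : HasN I n) : (n : O A) ∈ I :=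
  mul_le_left (I := I) (J := cj I) (h ▸ mem_span_singleton_self _)

lemma norm_nat (z : O A) : ((z.norm.natAbs : ℕ) : ℤ) = z.norm :=
  Int.natAbs_of_nonneg (Zsqrtd.norm_nonneg (by omega) z)

lemma hasN_span (z : O A) : HasN (span {z}) z.norm.natAbs := by
  unfold HasN
  rw [cj_span, span_singleton_mul_span_singleton, ← Zsqrtd.norm_eq_mul_conj, ← norm_nat z,
    Int.cast_natCast, Int.natAbs_natCast]

lemma hasN_nat (n : ℕ) : HasN (span {(n : O A)}) (n * n) := by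
  unfold HasN
  rw [cj_nat, span_singleton_mul_span_singleton, Nat.cast_mul]

lemma hasN_top : HasN (⊤ : Ideal (O A)) 1 := by
  simpa using hasN_nat (A := A) 1

lemma HasN.eq_top {I : Ideal (O A)} (h : HasN I 1) : I = ⊤ :=
  (eq_top_iff_one I).2 (by simpa using h.mem)

lemma exists_div {R : Type} [CommRing R] {I : Ideal R} {k : R} (h : I ≤ span {k}) :
    ∃ J : Ideal R, I = span {k} * J := by
  refine ⟨I.colon {k}, le_antisymm (fun z hz => ?_) ?_⟩
  · obtain ⟨w, rfl⟩ := mem_span_singleton.1 (h hz)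
    refine mul_mem_mul (mem_span_singleton_self k) ?_
    rw [Submodule.mem_colon_singleton, smul_eq_mul, mul_comm]; exact hz
  · rw [span_singleton_mul_le_iff]
    intro z hz
    rw [Submodule.mem_colon_singleton, smul_eq_mul, mul_comm] at hz; exact hz

lemma finite_above (F : ℕ) (hF : F ≠ 0) : {I : Ideal (O A) | (F : O A) ∈ I}.Finite := by
  have : NeZero F := ⟨hF⟩
  let π : O A → ZMod F × ZMod F := fun z => (z.re, z.im)
  refine Set.Finite.of_finite_image (f := fun I : Ideal (O A) => π '' (I : Set (O A)))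
    (Set.toFinite _) ?_
  have key : ∀ I J : Ideal (O A), (F : O A) ∈ J → π '' (I : Set (O A)) = π '' J → I ≤ J := by
    intro I J hJ h z hz
    obtain ⟨w, hw, hwz⟩ : π z ∈ π '' (J : Set (O A)) := h ▸ ⟨z, hz, rfl⟩
    obtain ⟨h1, h2⟩ := Prod.mk.inj hwz
    rw [ZMod.intCast_eq_intCast_iff_dvd_sub] at h1 h2
    obtain ⟨u, hu⟩ := (Zsqrtd.intCast_dvd (F : ℤ) (z - w)).2 ⟨by simpa using h1, by simpa using h2⟩
    have : z = w + F * u := by simpa [sub_eq_iff_eq_add'] using hu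
    rw [this]
    exact J.add_mem hw (J.mul_mem_right _ hJ)
  exact fun I hI J hJ h => le_antisymm (key I J hJ h) (key J I hI h.symm)

/-- the ideal `(a, b + √-A)` -/
def Jd (a : ℕ) (b : ℤ) : Ideal (O A) := span {(a : O A), ⟨b, 1⟩}

lemma mem_Jd {a : ℕ} {b : ℤ} (h : (a : ℤ) ∣ b ^ 2 + A) {z : O A} :
    z ∈ Jd a b ↔ (a : ℤ) ∣ z.re - b * z.im := by
  rw [Jd, mem_span_pair]
  obtain ⟨c, hc⟩ := h
  constructor
  · rintro ⟨u, v, rfl⟩
    refine ⟨u.re - b * u.im - c * v.im, ?_⟩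
    simp
    linear_combination -v.im * hc
  · rintro ⟨x, hx⟩
    refine ⟨x, z.im, ?_⟩
    ext
    · simp; linear_combination -hx
    · simp

lemma dvd_neg_b {a : ℕ} {b : ℤ} (h : (a : ℤ) ∣ b ^ 2 + A) : (a : ℤ) ∣ (-b) ^ 2 + A := by
  simpa using h

lemma cj_Jd {a : ℕ} {b : ℤ} (h : (a : ℤ) ∣ b ^ 2 + A) : cj (Jd a b : Ideal (O A)) = Jd a (-b) := by
  ext z
  rw [mem_cj, mem_Jd h, mem_Jd (dvd_neg_b h)]
  simp

lemma cop_two_b {a : ℕ} {b : ℤ} (h : (a : ℤ) ∣ b ^ 2 + A) (hu : IsUnit (a : ZMod (4 * A))) :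
    IsCoprime (a : ℤ) (2 * b) := by
  rw [ZMod.isUnit_iff_coprime, ← Nat.isCoprime_iff_coprime] at hu
  obtain ⟨u, v, huv⟩ := hu
  obtain ⟨c, hc⟩ := h
  refine ⟨u + 4 * v * c, -v * (2 * b), ?_⟩
  push_cast at huv
  linear_combination huv - 4 * v * hc

lemma Jd_sup {a : ℕ} {b : ℤ} (h : (a : ℤ) ∣ b ^ 2 + A) (hu : IsUnit (a : ZMod (4 * A))) :
    (Jd a b : Ideal (O A)) ⊔ cj (Jd a b) = ⊤ := by
  obtain ⟨u, v, huv⟩ := cop_two_b h hu
  rw [eq_top_iff_one, cj_Jd h, Submodule.mem_sup]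
  refine ⟨⟨u * a + v * b, v⟩, (mem_Jd h).2 ⟨u, by simp; ring⟩, ⟨v * b, -v⟩,
    (mem_Jd (dvd_neg_b h)).2 ⟨0, by simp; ring⟩, ?_⟩
  ext
  · simp; linear_combination huv
  · simp

lemma Jd_inf {a : ℕ} {b : ℤ} (h : (a : ℤ) ∣ b ^ 2 + A) (hu : IsUnit (a : ZMod (4 * A))) :
    (Jd a b : Ideal (O A)) ⊓ cj (Jd a b) = span {(a : O A)} := by
  ext z
  rw [cj_Jd h, mem_inf, mem_Jd h, mem_Jd (dvd_neg_b h), mem_nat]
  constructor
  · rintro ⟨h1, h2⟩
    have h3 : (a : ℤ) ∣ z.im := (cop_two_b h hu).dvd_of_dvd_mul_left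
      (by have := h2.sub h1; ring_nf at this ⊢; exact this)
    exact ⟨by simpa using h1.add (h3.mul_left b), h3⟩
  · rintro ⟨h1, h2⟩
    exact ⟨h1.sub (h2.mul_left _), h1.sub (h2.mul_left _)⟩

lemma hasN_Jd {a : ℕ} {b : ℤ} (h : (a : ℤ) ∣ b ^ 2 + A) (hu : IsUnit (a : ZMod (4 * A))) :
    HasN (Jd a b : Ideal (O A)) a := by
  unfold HasN
  rw [mul_eq_inf_of_coprime (Jd_sup h hu), Jd_inf h hu]

lemma Jd_prime {l : ℕ} {t : ℤ} (h : (l : ℤ) ∣ t ^ 2 + A) (hl : l.Prime) :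
    (Jd l t : Ideal (O A)).IsPrime := by
  have hp : Prime (l : ℤ) := Nat.prime_iff_prime_int.1 hl
  refine ⟨fun ht => ?_, fun {z w} hzw => ?_⟩
  · have := (mem_Jd h).1 ((eq_top_iff_one _).1 ht)
    exact hp.not_dvd_one (by simpa using this)
  · rw [mem_Jd h] at hzw
    rw [mem_Jd h, mem_Jd h]
    apply hp.dvd_or_dvd
    have := hzw.add (h.mul_right (z.im * w.im))
    simp only [Zsqrtd.re_mul, Zsqrtd.im_mul] at this
    ring_nf at this ⊢
    exact this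

lemma span_prime {l : ℕ} (hl : l.Prime)
    (h : ∀ x y : ℤ, (l : ℤ) ∣ x ^ 2 + A * y ^ 2 → (l : ℤ) ∣ x ∧ (l : ℤ) ∣ y) :
    (span {(l : O A)}).IsPrime := by
  have hp : Prime (l : ℤ) := Nat.prime_iff_prime_int.1 hl
  have mem : ∀ z : O A, z ∈ span {(l : O A)} ↔ (l : ℤ) ∣ z.norm := by
    intro z
    rw [mem_nat, norm_O]
    exact ⟨fun ⟨h1, h2⟩ => (dvd_pow h1 two_ne_zero).add ((dvd_pow h2 two_ne_zero).mul_left _),
      h _ _⟩
  refine ⟨fun ht => ?_, fun {z w} hzw => ?_⟩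
  · have := (mem 1).1 ((eq_top_iff_one _).1 ht)
    exact hp.not_dvd_one (by simpa using this)
  · rw [mem, Zsqrtd.norm_mul] at hzw
    rw [mem, mem]
    exact hp.dvd_or_dvd hzw

variable [hA : Fact (1 < A)]

instance : NoZeroDivisors (O A) where
  eq_zero_or_eq_zero_of_mul_eq_zero {z w} h := by
    have hd : -(A : ℤ) < 0 := by have := hA.out; omega
    rw [← Zsqrtd.norm_eq_zero_iff hd, Zsqrtd.norm_mul, mul_eq_zero] at h
    rwa [Zsqrtd.norm_eq_zero_iff hd, Zsqrtd.norm_eq_zero_iff hd] at h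

instance : IsDomain (O A) := NoZeroDivisors.to_isDomain _

instance : NeZero (4 * A) := ⟨by have := hA.out; omega⟩

omit hA in
lemma ne_zero_of_unit {n : ℕ} (h : IsUnit (n : ZMod (4 * A))) : n ≠ 0 := by
  rintro rfl
  rw [ZMod.isUnit_iff_coprime, Nat.coprime_zero_left] at h
  omega

lemma HasN.cancel {I J K : Ideal (O A)} {n : ℕ} (h : HasN I n) (hn : n ≠ 0)
    (e : I * J = I * K) : J = K := by
  have : cj I * (I * J) = cj I * (I * K) := by rw [e]
  rw [← mul_assoc, ← mul_assoc, mul_comm (cj I), h] at this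
  exact (span_singleton_mul_right_inj (Nat.cast_ne_zero.2 hn)).1 this

lemma HasN.of_mul {I J : Ideal (O A)} {n k : ℕ} (h : HasN I n) (hn : n ≠ 0)
    (h' : HasN (I * J) (n * k)) : HasN J k := by
  unfold HasN at *
  rw [cj_mul, mul_mul_mul_comm, h, Nat.cast_mul, ← span_singleton_mul_span_singleton] at h'
  exact (span_singleton_mul_right_inj (Nat.cast_ne_zero.2 hn)).1 h'

omit hA in
lemma HasN.dvd {I J : Ideal (O A)} {n k : ℕ} (h : HasN I n) (h' : HasN (I * J) k) : n ∣ k := by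
  unfold HasN at *
  rw [cj_mul, mul_mul_mul_comm, h] at h'
  have : (k : O A) ∈ span {(n : O A)} :=
    mul_le_left (J := J * cj J) (h' ▸ mem_span_singleton_self _)
  exact Int.natCast_dvd_natCast.1 (by simpa using (mem_nat.1 this).1)

/-- to contain is to divide, for invertible ideals -/
lemma HasN.exists_mul {I L : Ideal (O A)} {n : ℕ} (h : HasN L n) (hn : n ≠ 0) (hI : I ≤ L) :
    ∃ J, I = L * J := by
  obtain ⟨J, hJ⟩ := exists_div (I := cj L * I) (k := (n : O A))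
    (by rw [← h, mul_comm L]; exact mul_mono_right hI)
  refine ⟨J, h.conj.cancel hn ?_⟩
  rw [hJ, ← mul_assoc, mul_comm (cj L), h]

/-- every invertible ideal is an integer times some `Jd a b` -/
lemma HasN.structure {I : Ideal (O A)} {n : ℕ} (h : HasN I n)
    (hu : IsUnit (n : ZMod (4 * A))) : ∃ (k a : ℕ) (b : ℤ), k ≠ 0 ∧ (a : ℤ) ∣ b ^ 2 + A ∧
      IsUnit (a : ZMod (4 * A)) ∧ I = span {(k : O A)} * Jd a b := by
  let T : Ideal ℤ :=
    { carrier := {y | ∃ z ∈ I, z.im = y}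
      add_mem' := by
        rintro _ _ ⟨z, hz, rfl⟩ ⟨w, hw, rfl⟩
        exact ⟨z + w, I.add_mem hz hw, rfl⟩
      zero_mem' := ⟨0, I.zero_mem, rfl⟩
      smul_mem' := by
        rintro c _ ⟨z, hz, rfl⟩
        exact ⟨c * z, I.mul_mem_left _ hz, by simp⟩ }
  obtain ⟨k, hk⟩ : ∃ k : ℕ, T = span {(k : ℤ)} :=
    ⟨(Submodule.IsPrincipal.generator T).natAbs, by
      rw [Int.span_natAbs, span_singleton_generator]⟩
  have him : ∀ z ∈ I, (k : ℤ) ∣ z.im := fun z hz =>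
    mem_span_singleton.1 (hk ▸ (⟨z, hz, rfl⟩ : z.im ∈ T))
  have hle : I ≤ span {(k : O A)} := by
    intro z hz
    rw [mem_nat]
    exact ⟨by simpa using him _ (I.mul_mem_left Zsqrtd.sqrtd hz), him z hz⟩
  obtain ⟨I', hI'⟩ := exists_div hle
  obtain ⟨a, ha⟩ := (hasN_nat k).dvd (hI' ▸ h)
  have hn := ne_zero_of_unit hu
  have hk0 : k ≠ 0 := by rintro rfl; simp at ha; exact hn ha
  have hau : IsUnit (a : ZMod (4 * A)) := by
    rw [ha, Nat.cast_mul] at hu; exact isUnit_of_mul_isUnit_right hu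
  have hIa : HasN I' a := (hasN_nat k).of_mul (mul_ne_zero hk0 hk0) (ha ▸ hI' ▸ h)
  obtain ⟨z, hz, hzk⟩ : (k : ℤ) ∈ T := hk ▸ mem_span_singleton_self _
  rw [hI', mem_span_singleton_mul] at hz
  obtain ⟨w, hw, rfl⟩ := hz
  have hw1 : w.im = 1 := by
    have : (k : ℤ) * w.im = k * 1 := by simpa using hzk
    exact mul_left_cancel₀ (by exact_mod_cast hk0) this
  have hd : (a : ℤ) ∣ w.re ^ 2 + A := by
    have : w * star w ∈ span {(a : O A)} := hIa ▸ mul_mem_mul hw (mem_cj.2 (by simpa using hw))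
    rw [← Zsqrtd.norm_eq_mul_conj, mem_nat, Zsqrtd.re_intCast, norm_O, hw1] at this
    simpa using this.1
  refine ⟨k, a, w.re, hk0, hd, hau, ?_⟩
  have hJ : (Jd a w.re : Ideal (O A)) ≤ I' := by
    rw [Jd, span_le]
    rintro x (rfl | rfl)
    · exact hIa.mem
    · rw [← hw1]; exact hw
  obtain ⟨K, hK⟩ := hIa.exists_mul (ne_zero_of_unit hau) hJ
  have := (hIa.of_mul (J := K) (k := 1) (ne_zero_of_unit hau)
    (by rw [mul_one, ← hK]; exact hasN_Jd hd hau)).eq_top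
  rw [hI', hK, this, mul_top]

omit hA in
/-- a short vector -/
lemma short_vec {a : ℕ} {b : ℤ} (h : (a : ℤ) ∣ b ^ 2 + A) (ha : a ≠ 0) :
    ∃ z : O A, z ≠ 0 ∧ z ∈ Jd a b ∧ z.norm ≤ (1 + A) * a := by
  have hs : 0 < a.sqrt := Nat.sqrt_pos.2 (Nat.pos_of_ne_zero ha)
  obtain ⟨j, k, hk0, hk1, hjk⟩ := Real.exists_int_int_abs_mul_sub_le ((b : ℝ) / a) hs
  refine ⟨⟨k * b - j * a, k⟩, fun h0 => hk0.ne' (congrArg Zsqrtd.im h0),
    (mem_Jd h).2 ⟨-j, by simp; ring⟩, ?_⟩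
  have haR : (0 : ℝ) < a := by exact_mod_cast Nat.pos_of_ne_zero ha
  have h1 : (a.sqrt : ℤ) ^ 2 ≤ a := by exact_mod_cast Nat.sqrt_le' a
  have h2 : (a : ℝ) ≤ ((a.sqrt : ℝ) + 1) ^ 2 := by exact_mod_cast (Nat.lt_succ_sqrt' a).le
  have h3 : k ^ 2 ≤ a := (pow_le_pow_left₀ hk0.le hk1 2).trans h1
  have h4 : (k * b - j * a) ^ 2 ≤ (a : ℤ) := by
    have e : ((k * b - j * a : ℤ) : ℝ) = a * (k * ((b : ℝ) / a) - j) := by
      push_cast; field_simp
    have h5 : (k * ((b : ℝ) / a) - j) ^ 2 ≤ (1 / ((a.sqrt : ℝ) + 1)) ^ 2 := by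
      rw [← sq_abs]; exact pow_le_pow_left₀ (abs_nonneg _) hjk 2
    have h6 : (a : ℝ) * (1 / ((a.sqrt : ℝ) + 1)) ^ 2 ≤ 1 := by
      rw [div_pow, one_pow, mul_one_div, div_le_one (by positivity)]; exact h2
    rw [← Int.cast_le (R := ℝ), Int.cast_pow, e, Int.cast_natCast]
    nlinarith [mul_le_mul_of_nonneg_left h5 (sq_nonneg (a : ℝ))]
  rw [norm_O]
  simp only
  nlinarith [mul_le_mul_of_nonneg_left h3 (Int.natCast_nonneg A)]

lemma unit_O {u : O A} (hu : IsUnit u) : u = 1 ∨ u = -1 := by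
  have h1 := (Zsqrtd.norm_eq_one_iff' (by omega) u).2 hu
  rw [norm_O] at h1
  have hA' : (1 : ℤ) < A := by exact_mod_cast hA.out
  have h2 : u.im = 0 := by
    by_contra h
    have := sq_pos_of_ne_zero h
    nlinarith [sq_nonneg u.re]
  rw [h2] at h1
  have h3 : u.re ^ 2 = 1 := by simpa using h1
  rcases sq_eq_one_iff.1 h3 with h | h
  · left; ext <;> simp [h, h2]
  · right; ext <;> simp [h, h2]

end Pool.Agent.MP_c481b3_nt.H28.W
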