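import Pool.Agent.MP_c481b3_nt.H28.InertC
import Pool.Agent.MP_c481b3_nt.H28.Parity
import Pool.Agent.MP_c481b3_nt.H28.Kron

set_option autoImplicit false

namespace Pool.Agent.MP_c481b3_nt.H28

open Pool.Agent.MP_c481b3_nt.H81 Polynomial IsLocalRing

section one
variable {k : Type} [Field k] [DecidableEq k] {l N : ℕ} {x y : Ed k}

/-- states reached after `n` steps without backtracking -/
def Rc (l : ℕ) (x : Ed k) : ℕ → Ed k → Prop
  | 0, y => y = x
  | n + 1, z => ∃ y, Rc l x n y ∧ ∃ D ∈ (subs (vA y.C) (vB y.C) l).erase (y.du l), z = y.nx D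

lemma UL_ne {M : Type} [CommMonoidWithZero M] [NoZeroDivisors M] [Nontrivial M] (n : ℕ) :
    ∀ f : Ed k → M, (∀ y, Rc l x n y → f y ≠ 0) → (UL l)^[n] f x ≠ 0 := by
  induction n with
  | zero => exact fun f h => h x rfl
  | succ n ih =>
    intro f h
    rw [Function.iterate_succ_apply]
    exact ih _ fun y hy => Finset.prod_ne_zero_iff.2 fun D hD => h _ ⟨y, hy, D, hD, rfl⟩

/-- the two marked points are a basis of the `2`-torsion -/
structure Ed.Two (x : Ed k) : Prop where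
  p0 : x.P ≠ 0
  q0 : x.Q ≠ 0
  ne : x.P ≠ x.Q

/-- the coordinate on the modular curve of level two -/
noncomputable def Ed.mu (x : Ed k) : k := xc x.P / (xc x.P - xc x.Q)

lemma two_pt {A B : k} (hG : Good A B) {P : Pt A B} (h0 : P ≠ 0) (h : 2 • P = 0) :
    xc P ^ 3 + A * xc P + B = 0 ∧ P = pt A B (xc P) 0 := by
  have e : yc P = 0 := by
    have a := congrArg yc (eq_neg_of_add_eq_zero_left ((two_nsmul P).symm.trans h))
    rw [yc_neg] at a
    exact (mul_eq_zero_iff_left hG.two).1 (by linear_combination a)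
  exact ⟨by rw [← eqn h0, e]; ring, by rw [← e, pt_self h0]⟩

lemma Ed.Two.xne (t : x.Two) (h : 2 • x.Q = 0) : xc x.P - xc x.Q ≠ 0 := fun e => by
  rcases eq_or_neg t.p0 t.q0 (sub_eq_zero.1 e) with e | e
  · exact t.ne e
  · exact t.ne (e.trans (eq_neg_of_add_eq_zero_left ((two_nsmul _).symm.trans h)).symm)

lemma Ed.Two.rt (t : x.Two) (h : x.Ok l 2) :
    Rt x.A x.B (xc x.P) (xc x.Q) (-xc x.P - xc x.Q) := by
  have a := (two_pt h.tm.good t.p0 h.hP).1
  have b := (two_pt h.tm.good t.q0 h.hQ).1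
  have c : x.A = -(xc x.P ^ 2 + xc x.P * xc x.Q + xc x.Q ^ 2) :=
    mul_left_cancel₀ (t.xne h.hQ) (by linear_combination a - b)
  exact ⟨by ring, by linear_combination c, by linear_combination a - xc x.P * c⟩

variable [IsAlgClosed k]

/-- the coordinate determines the curve with its marked points -/
lemma Ed.Two.iso (t : x.Two) (h : x.Ok l 2) {A B e₁ e₂ e₃ : k} (hG : Good A B)
    (r : Rt A B e₁ e₂ e₃) (e : e₁ / (e₁ - e₂) = x.mu) : ∃ u, VD ({0} : Finset (Pt x.A x.B)) u A B ∧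
      vm {0} u A B x.P = pt A B e₁ 0 ∧ vm {0} u A B x.Q = pt A B e₂ 0 := by
  have n1 := sub_ne_zero.2 (r.ne hG).1
  have n2 := t.xne h.hQ
  obtain ⟨u, hu⟩ := IsAlgClosed.exists_pow_nat_eq ((xc x.P - xc x.Q) / (e₁ - e₂)) two_pos
  have u0 : u ≠ 0 := fun z => div_ne_zero n2 n1 (by rw [← hu, z]; ring)
  rw [Ed.mu, div_eq_div_iff n1 n2] at e
  rw [eq_div_iff n1] at hu
  have a : xc x.P = u ^ 2 * e₁ := mul_left_cancel₀ n1 (by linear_combination -e - e₁ * hu)
  have b : xc x.Q = u ^ 2 * e₂ := by linear_combination a + hu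
  have s := t.rt h
  have c : e₃ = -e₁ - e₂ := by linear_combination r.s1
  have d := vd_unit h.tm.good hG u0 (by rw [s.s2, r.s2, a, b, c]; ring)
    (by rw [s.s3, r.s3, a, b, c]; ring)
  have key : ∀ {P : Pt x.A x.B} {e : k}, P ≠ 0 → 2 • P = 0 → xc P = u ^ 2 * e →
      vm {0} u A B P = pt A B e 0 := fun {P e} p0 p2 he => by
    obtain ⟨s1, s2, -⟩ := vd_unit_spec d p0
    have := (two_pt hG s1 (by
      rw [← d.hom_apply h.tm.three, ← map_nsmul, p2, map_zero])).2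
    rwa [s2, he, mul_div_cancel_left₀ _ (pow_ne_zero 2 u0)] at this
  exact ⟨u, d, key t.p0 h.hP a, key t.q0 h.hQ b⟩

variable (hl : l.Prime) (h2 : l ≠ 2)
include hl h2

lemma Ed.Ok.vd (h : x.Ok l N) : VD x.C 1 (vA x.C) (vB x.C) ∧ x.C.card = l := by
  obtain ⟨a, b⟩ := h.tm.mem_subs.1 h.mem
  exact ⟨vd_one h.tm.good h.tm.three a (b ▸ hl.odd_of_ne_two h2), b⟩

lemma Ed.Ok.nx (h : x.Ok l N) {D : Finset (Pt (vA x.C) (vB x.C))}
    (hD : D ∈ subs (vA x.C) (vB x.C) l) : (x.nx D).Ok l N := by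
  have d := (h.vd hl h2).1
  refine ⟨h.tm.other d.good', hD, ?_, ?_⟩
  · change N • d.hom h.tm.three x.P = 0
    rw [← map_nsmul, h.hP, map_zero]
  · change N • d.hom h.tm.three x.Q = 0
    rw [← map_nsmul, h.hQ, map_zero]

lemma Ed.Ok.two (h : x.Ok l 2) (t : x.Two) (D : Finset (Pt (vA x.C) (vB x.C))) :
    (x.nx D).Two := by
  obtain ⟨d, c⟩ := h.vd hl h2
  have o : Odd x.C.card := c ▸ hl.odd_of_ne_two h2
  refine ⟨fun e => two_not_mem d.sub o t.p0 h.hP (d.eq_zero.1 e),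
    fun e => two_not_mem d.sub o t.q0 h.hQ (d.eq_zero.1 e), fun e => ?_⟩
  refine two_not_mem d.sub o (sub_ne_zero.2 t.ne) (by rw [smul_sub, h.hP, h.hQ, sub_zero])
    ((d.hom_eq_zero h.tm.three).1 ?_)
  rw [map_sub]
  exact sub_eq_zero.2 e

lemma Rc.ok (h : x.Ok l N) {n : ℕ} : ∀ {y}, Rc l x n y → y.Ok l N := by
  induction n with
  | zero => rintro _ rfl; exact h
  | succ n ih =>
    rintro _ ⟨y, hy, D, hD, rfl⟩
    exact (ih hy).nx hl h2 (Finset.mem_of_mem_erase hD)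

lemma Rc.two (h : x.Ok l 2) (t : x.Two) {n : ℕ} : ∀ {y}, Rc l x n y → y.Two := by
  induction n with
  | zero => rintro _ rfl; exact t
  | succ n ih =>
    rintro _ ⟨y, hy, D, hD, rfl⟩
    exact (hy.ok hl h2 h).two hl h2 (ih hy) D

/-- the isogeny along a walk is cyclic -/
lemma Rc.is (h : x.Ok l N) {n : ℕ} : ∀ {y}, Rc l x n y →
    ∃ (f : Pt x.A x.B →+ Pt y.A y.B) (g : Pt y.A y.B →+ Pt x.A x.B), Is (l ^ n) f ∧ Is (l ^ n) g ∧
      (∀ P, g (f P) = l ^ n • P) ∧ (∀ P, f (g P) = l ^ n • P) ∧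
      (∃ T, l • T = 0 ∧ f T ∉ y.C) ∧ ∀ R ∈ y.C, R ≠ 0 → g R ≠ 0 := by
  have h3 := h.tm.three
  induction n with
  | zero =>
    rintro y rfl
    have d := vd_unit h.tm.good h.tm.good one_ne_zero (by simp) (by simp)
    have i : Is 1 (AddMonoidHom.id (Pt y.A y.B)) := ⟨_, _, d, rfl, fun P => by
      by_cases p0 : P = 0
      · rw [p0, map_zero, d.eq_zero.2 (by simp)]
      · obtain ⟨a, b, c⟩ := vd_unit_spec d p0
        exact pt_ext p0 a (by simpa using b.symm) (by simpa using c.symm)⟩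
    refine ⟨_, _, i, i, by simp, by simp, ?_, fun R _ r0 => r0⟩
    by_contra hc
    push Not at hc
    have := Finset.card_le_card (s := tors y.A y.B l) fun T hT => hc T (h.tm.mem.1 hT)
    rw [h.tm.card, (h.vd hl h2).2] at this
    nlinarith [hl.two_le]
  | succ n ih =>
    rintro _ ⟨y, hy, D, hD, rfl⟩
    obtain ⟨f, g, f1, g1, a1, a2, ⟨T, t1, t2⟩, a4⟩ := ih hy
    have o := hy.ok hl h2 h
    obtain ⟨d, c⟩ := o.vd hl h2
    obtain ⟨D1, D2⟩ := Finset.mem_erase.1 hD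
    obtain ⟨D3, D4⟩ := (o.tm.other d.good').mem_subs.1 D2
    have du : ∀ R ∈ D, R ≠ 0 → R ∉ y.du l := fun R r1 r0 r2 =>
      D1 (eq_of_mem hl D3 D4 (d.dual o.tm c).sub (d.dual_card o.tm c) r0 r1 r2)
    have i1 : Is l (d.hom h3) := c ▸ d.is h3
    have i2 : Is l ((d.dual o.tm c).hom h3) := ⟨_, _, d.dual o.tm c, d.dual_card o.tm c, fun _ => rfl⟩
    refine ⟨(d.hom h3).comp f, g.comp ((d.dual o.tm c).hom h3), pow_succ' l n ▸ f1.comp h3 i1,
      pow_succ l n ▸ i2.comp h3 g1, fun P => ?_, fun P => ?_, ⟨T, t1, fun e => ?_⟩,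
      fun R r1 r0 => a4 _ ?_ fun e => du R r1 r0 (((d.dual o.tm c).hom_eq_zero h3).1 e)⟩
    · change g ((d.dual o.tm c).hom h3 (d.hom h3 (f P))) = _
      rw [d.dual_comp o.tm c, map_nsmul, a1, ← mul_nsmul', pow_succ']
    · change d.hom h3 (f (g ((d.dual o.tm c).hom h3 P))) = _
      rw [a2, map_nsmul, d.comp_dual o.tm c, ← mul_nsmul', pow_succ]
      rfl
    · exact du _ e (fun z => t2 ((d.hom_eq_zero h3).1 z)) (Finset.mem_image_of_mem _
        (o.tm.mem.2 (by rw [← map_nsmul, t1, map_zero])))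
    · exact (d.hom_eq_zero h3).1 ((d.comp_dual o.tm c R).trans (D4 ▸ D3.nsmul_card r1))

end one

section red
variable {L κ : Type} [Field L] [Field κ] [DecidableEq L] [DecidableEq κ] {π : Plc L κ}
  {l N : ℕ} {x : Ed L} {y : Ed κ}

/-- reduction of states -/
structure Red (π : Plc L κ) (x : Ed L) (y : Ed κ) : Prop where
  rd : Rd π x.A x.B y.A y.B
  P : rd.red x.P = y.P
  Q : rd.red x.Q = y.Q
  C : x.C.image rd.red = y.C

lemma Red.mu (h : Red π x y) (t : y.Two) (o : 2 • y.Q = 0) : Ev π x.mu y.mu := by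
  have a := ev_xc h.rd (h.P ▸ t.p0)
  have b := ev_xc h.rd (h.Q ▸ t.q0)
  rw [h.P] at a
  rw [h.Q] at b
  exact a.div (a.sub b) (t.xne o)

variable [IsAlgClosed L] [IsAlgClosed κ] (hl : l.Prime) (h2 : l ≠ 2)
include hl h2

lemma Red.nx (h : Red π x y) (a : x.Ok l N) (b : y.Ok l N) :
    ∃ r : Rd π (vA x.C) (vB x.C) (vA y.C) (vB y.C), (x.du l).image r.red = y.du l ∧
      ∀ D, Red π (x.nx D) (y.nx (D.image r.red)) := by
  obtain ⟨d, c⟩ := a.vd hl h2
  have g := (b.vd hl h2).1.good'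
  have t := b.tm
  obtain ⟨A, B, P, Q, C⟩ := y
  have r : Rd π x.A x.B A B := h.rd
  obtain rfl : r.red x.P = P := h.P
  obtain rfl : r.red x.Q = Q := h.Q
  obtain rfl : x.C.image r.red = C := h.C
  have hf := red_sub_ne r d.sub (c ▸ t.ne)
  have r₁ := rd_of (ev_vA r d.sub hf) (ev_vB r d.sub hf) g
  exact ⟨r₁, red_dual r t d r₁ (Ev.one π) one_ne_zero c, fun D =>
    ⟨r₁, d.red_vm r r₁ (Ev.one π) one_ne_zero hf _, d.red_vm r r₁ (Ev.one π) one_ne_zero hf _, rfl⟩⟩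

lemma UL_red (h : Red π x y) (a : x.Ok l N) (b : y.Ok l N) (n : ℕ) :
    ∀ (f : Ed L → L) (g : Ed κ → κ), (∀ x' y', Rc l x n x' → Rc l y n y' → Red π x' y' →
      Ev π (f x') (g y')) → Ev π ((UL l)^[n] f x) ((UL l)^[n] g y) := by
  induction n with
  | zero => exact fun f g H => H x y rfl rfl h
  | succ n ih =>
    intro f g H
    rw [Function.iterate_succ_apply, Function.iterate_succ_apply]
    refine ih _ _ fun x' y' r1 r2 r3 => ?_
    have a' := r1.ok hl h2 a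
    have b' := r2.ok hl h2 b
    obtain ⟨r, e1, e2⟩ := r3.nx hl h2 a' b'
    have t := b'.tm.other r.good
    obtain ⟨d, c⟩ := a'.vd hl h2
    have m : x'.du l ∈ subs (vA x'.C) (vB x'.C) l := (a'.tm.other d.good').mem_subs.2
      ⟨(d.dual a'.tm c).sub, d.dual_card a'.tm c⟩
    have inj := subs_inj r t
    have im : ((subs (vA x'.C) (vB x'.C) l).erase (x'.du l)).image (fun D => D.image r.red)
        = (subs (vA y'.C) (vB y'.C) l).erase (y'.du l) := by
      rw [← image_subs r t, ← e1]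
      ext D
      simp only [Finset.mem_image, Finset.mem_erase]
      exact ⟨fun ⟨E, ⟨a1, a2⟩, a3⟩ => ⟨fun e => a1 (inj a2 m (a3.trans e)), E, a2, a3⟩,
        fun ⟨a1, E, a2, a3⟩ => ⟨E, ⟨fun e => a1 (by rw [← a3, e]), a2⟩, a3⟩⟩
    rw [UL, UL, ← im, Finset.prod_image (inj.mono (Finset.erase_subset _ _))]
    exact Ev.prod _ fun D hD => H _ _ ⟨x', r1, D, hD, rfl⟩
      ⟨y', r2, _, im ▸ Finset.mem_image_of_mem _ hD, rfl⟩ (e2 D)

end red

end Pool.Agent.MP_c481b3_nt.H28
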