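import Pool.Agent.MP_c481b3_nt.H28.Ord

set_option autoImplicit false

namespace Pool.Agent.MP_c481b3_nt.H28

open Pool.Agent.MP_c481b3_nt.H81 Polynomial

lemma two_dvd {l : ℕ} (hl : l = 1 ∨ l = 3) (K : ℕ) : ∀ (a b : ℤ) (N : ℕ),
    a ^ 2 + l * b ^ 2 = l * 2 ^ N → 2 * K + 1 ≤ N → 2 ^ K ∣ a ∧ 2 ^ K ∣ b := by
  induction K with
  | zero => simp
  | succ K ih =>
    intro a b N e hN
    obtain ⟨N, rfl⟩ : ∃ M, N = M + 3 := ⟨N - 3, by omega⟩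
    have sq : ∀ a : ℤ, (∃ c, a = 2 * c) ∨ ∃ c, a ^ 2 = 8 * c + 1 := fun a => by
      obtain ⟨c, rfl | rfl⟩ := a.even_or_odd'
      · exact Or.inl ⟨c, rfl⟩
      · obtain ⟨d, hd⟩ := c.even_mul_succ_self
        exact Or.inr ⟨d, by linear_combination 4 * hd⟩
    rw [pow_add] at e
    obtain ⟨a, rfl⟩ | ⟨c, hc⟩ := sq a <;> obtain ⟨b, rfl⟩ | ⟨d, hd⟩ := sq b
    · obtain ⟨h1, h2⟩ := ih a b (N + 1) (mul_left_cancel₀ four_ne_zero (by
        linear_combination e)) (by omega)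
      rw [pow_succ']
      exact ⟨mul_dvd_mul_left 2 h1, mul_dvd_mul_left 2 h2⟩
    · rw [hd, mul_pow] at e
      rcases hl with rfl | rfl <;> omega
    · rw [hc, mul_pow] at e
      rcases hl with rfl | rfl <;> omega
    · rw [hc, hd] at e
      rcases hl with rfl | rfl <;> omega

section defs
variable {k : Type} [Field k]

/-- the first coefficient of the curve with the given roots -/
def sA (x : k × k × k) : k := x.1 * x.2.1 + x.1 * x.2.2 + x.2.1 * x.2.2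

/-- the second coefficient of the curve with the given roots -/
def sB (x : k × k × k) : k := -(x.1 * x.2.1 * x.2.2)

/-- the roots are distinct with sum zero -/
structure St (x : k × k × k) : Prop where
  sum : x.1 + x.2.1 + x.2.2 = 0
  good : Good (sA x) (sB x)

/-- the states reached by walks that do not go back -/
def Rch (x : k × k × k) : ℕ → k × k × k → Prop
  | 0, y => y = x
  | n + 1, z => ∃ y, Rch x n y ∧ (Wr (rt y) z ∨ Wr (rt (sw y)) z)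

variable {x y z : k × k × k} {A B e₁ e₂ e₃ : k}

lemma St.rt (h : St x) : Rt (sA x) (sB x) x.1 x.2.1 x.2.2 := ⟨h.sum, rfl, rfl⟩

lemma Rt.swap (h : Rt A B e₁ e₂ e₃) : Rt A B e₂ e₁ e₃ :=
  ⟨by linear_combination h.s1, by linear_combination h.s2, by linear_combination h.s3⟩

lemma wr_val (h : Rt A B e₁ e₂ e₃) (w : Wr (e₁, e₂, e₃) z) : z.1 = -2 * e₁ ∧
    sA z = A - 5 * (3 * e₁ ^ 2 + A) ∧ sB z = B - 7 * ((3 * e₁ ^ 2 + A) * e₁) := by
  obtain ⟨r, hr, rfl⟩ := w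
  obtain rfl : e₃ = -e₁ - e₂ := by linear_combination h.s1
  rw [h.s2, h.s3, sA, sB]
  exact ⟨rfl, by linear_combination -4 * hr, by linear_combination -8 * e₁ * hr⟩

lemma wr_st (h : Rt A B e₁ e₂ e₃) (hG : Good A B) (w : Wr (e₁, e₂, e₃) z) : St z := by
  obtain ⟨n1, n2, n3⟩ := h.ne hG
  obtain ⟨r, hr, rfl⟩ := w
  have s : Rt _ _ (-2 * e₁) (e₁ + 2 * r) (e₁ - 2 * r) := ⟨by ring, rfl, rfl⟩
  refine ⟨by ring, hG.two, ?_⟩
  rw [sA, sB, s.disc, show ((-2 * e₁ - (e₁ + 2 * r)) * (-2 * e₁ - (e₁ - 2 * r))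
    * (e₁ + 2 * r - (e₁ - 2 * r))) ^ 2 = 2 ^ 4 * (e₂ - e₃) ^ 4 * ((e₁ - e₂) * (e₁ - e₃)) by
      obtain rfl : e₃ = -e₁ - e₂ := by linear_combination h.s1
      have : (-2 * e₁ - (e₁ + 2 * r)) * (-2 * e₁ - (e₁ - 2 * r)) = (e₂ - (-e₁ - e₂)) ^ 2 := by
        linear_combination -4 * hr
      rw [this, ← hr]; ring]
  exact neg_ne_zero.2 (mul_ne_zero (mul_ne_zero (pow_ne_zero _ hG.two) (pow_ne_zero _
    (sub_ne_zero.2 n3))) (mul_ne_zero (sub_ne_zero.2 n1) (sub_ne_zero.2 n2)))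

lemma Rch.st (hx : St x) {n : ℕ} (h : Rch x n y) : St y := by
  induction n generalizing y with
  | zero => exact h ▸ hx
  | succ n ih =>
    obtain ⟨z, h1, h2 | h2⟩ := h
    · exact wr_st (ih h1).rt.swap (ih h1).good h2
    · exact wr_st (ih h1).rt.rot.rot (ih h1).good h2

variable [DecidableEq k]

lemma wr_vd (h : Rt A B e₁ e₂ e₃) (hG : Good A B) (w : Wr (e₁, e₂, e₃) z) :
    VD {0, pt A B e₁ 0} 1 (sA z) (sB z) ∧ ({0, pt A B e₁ 0} : Finset (Pt A B)).card = 2 := by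
  obtain ⟨a1, a2, a3⟩ := h.two hG
  obtain ⟨-, b1, b2⟩ := wr_val h w
  have e : ({0, pt A B e₁ 0} : Finset (Pt A B)).erase 0 = {pt A B e₁ 0} :=
    Finset.erase_insert (by simpa using a1.symm)
  have n : -pt A B e₁ 0 = pt A B e₁ 0 := by rw [neg_eq_iff_add_eq_zero, ← two_nsmul, a3]
  refine ⟨⟨hG, ⟨by simp, by simp [n]⟩, one_ne_zero, ?_, ?_, (wr_st h hG w).good⟩,
    Finset.card_pair a1.symm⟩
  · rw [vA, e, Finset.sum_singleton, ca, a2, b1]; ring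
  · rw [vB, e, Finset.sum_singleton, ca, cb, a2, b2, ← h.root]; ring

variable [IsAlgClosed k]

lemma wr_is (h3 : (3 : k) ≠ 0) (h : Rt A B e₁ e₂ e₃) (hG : Good A B) (w : Wr (e₁, e₂, e₃) z) :
    ∃ g : Pt A B →+ Pt (sA z) (sB z), Is 2 g ∧ g (pt A B e₂ 0) = pt _ _ z.1 0 := by
  obtain ⟨d, hc⟩ := wr_vd h hG w
  obtain ⟨a1, a2, -⟩ := h.two hG
  obtain ⟨b1, b2, -⟩ := h.swap.two hG
  obtain ⟨c1, c2, -⟩ := (wr_st h hG w).rt.two d.good'
  have n := (h.ne hG).1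
  have e : ({0, pt A B e₁ 0} : Finset (Pt A B)).erase 0 = {pt A B e₁ 0} :=
    Finset.erase_insert (by simpa using a1.symm)
  obtain ⟨s1, s2, s3⟩ := d.spec (P := pt A B e₂ 0) (by
    rw [Finset.mem_insert, Finset.mem_singleton, not_or]
    exact ⟨b1, fun e => n (by rw [← a2, ← e, b2])⟩)
  refine ⟨d.hom h3, hc ▸ d.is h3, pt_ext s1 c1 ?_ ?_⟩
  · rw [d.hom_apply, s2, c2, (wr_val h w).1, b2, X1, vX, e, Finset.sum_singleton, ca, cb, a2,
      ← h.root, h.s2]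
    obtain rfl : e₃ = -e₁ - e₂ := by linear_combination h.s1
    have := sub_ne_zero.2 n.symm
    simp only [RingHom.id_apply]
    field_simp
    ring
  · rw [d.hom_apply, s3, yc_pt hG h.swap.root, yc_pt d.good' (wr_st h hG w).rt.root]; simp

lemma Rch.is (h3 : (3 : k) ≠ 0) (hx : St x) {n : ℕ} (h : Rch x n y) :
    ∃ f : Pt (sA x) (sB x) →+ Pt (sA y) (sB y), Is (2 ^ n) f ∧
      ∃ T, 2 • T = 0 ∧ f T = pt _ _ y.1 0 := by
  induction n generalizing y with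
  | zero =>
    obtain rfl : y = x := h
    have d := vd_unit hx.good hx.good one_ne_zero (by simp) (by simp)
    obtain ⟨a1, -, a3⟩ := hx.rt.two hx.good
    obtain ⟨b1, b2, b3⟩ := vd_unit_spec d a1
    exact ⟨_, d.is h3, _, a3, pt_ext b1 a1 (b2.trans (by simp)) (b3.trans (by simp))⟩
  | succ n ih =>
    obtain ⟨z, h1, h2⟩ := h
    obtain ⟨f, f1, T, t1, t2⟩ := ih h1
    have s := h1.st hx
    obtain ⟨g, g1, g2⟩ : ∃ g : Pt (sA z) (sB z) →+ Pt (sA y) (sB y), Is 2 g ∧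
        g (pt _ _ z.1 0) = pt _ _ y.1 0 := by
      rcases h2 with h2 | h2
      · exact wr_is h3 s.rt.swap s.good h2
      · exact wr_is h3 s.rt.rot.rot s.good h2
    exact ⟨g.comp f, pow_succ' 2 n ▸ f1.comp h3 g1, T, t1, by rw [← g2, ← t2]; rfl⟩

end defs

variable {k : Type} [Field k] [DecidableEq k] [IsAlgClosed k] [DecidableEq (RatFunc k)]
  [DecidableEq (LL k)] {A B A₁ B₁ : k} (h3 : (3 : k) ≠ 0)
include h3

lemma exists_aut (hG : Good A B) {u : k} (hu : u ≠ 0) (hA : A = u ^ 4 * A) (hB : B = u ^ 6 * B) :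
    ∃ ι : EE hG, cE hG ι = u ∧ ∀ P, P ≠ 0 → ι.1 P ≠ 0 ∧ xc (ι.1 P) = xc P / u ^ 2 ∧
      yc (ι.1 P) = yc P / u ^ 3 := by
  have d := vd_unit hG hG hu hA hB
  obtain ⟨ι, e1, e2, -⟩ := d.exists_end (hG := hG) h3
  exact ⟨ι, e2, fun P hP => by rw [e1]; exact vd_unit_spec d hP⟩

omit h3 in
lemma EE_ext' {hG : Good A B} {φ ψ : EE hG} (h : ∀ P, P ≠ 0 → φ.1 P = ψ.1 P) : φ = ψ :=
  EE_ext fun P => by
    by_cases e : P = 0
    · rw [e, map_zero, map_zero]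
    · exact h P e

lemma base_cm (hG : Good A B) {l : ℕ} (h : l = 1 ∧ B = 0 ∨ l = 3 ∧ A = 0) :
    ∃ χ : EE hG, χ * χ = -(l : EE hG) ∧ cE hG χ ≠ 0 ∧ ∀ (p n : ℕ) [Fact p.Prime] [CharP k p]
      (hA : A ^ p ^ n = A) (hB : B ^ p ^ n = B), (∀ s : k, s ^ 2 = -l → s ^ p ^ n = -s) →
        χ * frE hG p n hA hB = -(frE hG p n hA hB * χ) := by
  have cr := compRing h3 hG
  obtain ⟨s, hs⟩ := IsAlgClosed.exists_pow_nat_eq (-l : k) two_pos
  rcases h with ⟨rfl, rfl⟩ | ⟨rfl, rfl⟩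
  · have s0 : s ≠ 0 := by rintro rfl; simp at hs
    have s4 : s ^ 4 = 1 := by rw [show s ^ 4 = (s ^ 2) ^ 2 by ring, hs]; simp
    obtain ⟨ι, i1, i2⟩ := exists_aut h3 hG s0 (by rw [s4, one_mul]) (by simp)
    refine ⟨ι, EE_ext' fun P hP => ?_, i1 ▸ s0, fun p n _ _ hA hB H => EE_ext' fun P hP => ?_⟩
    · obtain ⟨a1, a2, a3⟩ := i2 P hP
      obtain ⟨b1, b2, b3⟩ := i2 _ a1
      rw [EE_mul, EE_neg, EE_nat, one_nsmul]
      refine pt_ext b1 (neg_ne_zero.2 hP) ?_ ?_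
      · rw [b2, a2, xc_neg, div_div, ← pow_add, s4, div_one]
      · rw [b3, a3, yc_neg, div_div, ← pow_add, show s ^ (3 + 3) = (s ^ 2) ^ 3 by ring, hs]
        norm_num [div_neg]
    · obtain ⟨a1, a2, a3⟩ := i2 P hP
      obtain ⟨b1, b2, b3⟩ := i2 (frP hG p n hA hB P) (Sc.map_ne _ hP)
      rw [EE_mul, EE_neg, EE_mul, frE_apply, frE_apply]
      refine pt_ext b1 (neg_ne_zero.2 (Sc.map_ne _ a1)) ?_ ?_
      · rw [b2, xc_neg, xc_frP, xc_frP, a2, div_pow, pow_right_comm, H s hs, neg_sq]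
      · rw [b3, yc_neg, yc_frP, yc_frP, a3, div_pow, pow_right_comm, H s hs]
        norm_num [Odd.neg_pow, div_neg]
  · have h2 := hG.two
    obtain ⟨u, hu⟩ : ∃ u, 2 * u + 1 = s := ⟨(s - 1) / 2, by field_simp; ring⟩
    have u1 : u ^ 2 + u + 1 = 0 := mul_left_cancel₀ (pow_ne_zero 2 h2) (by
      rw [← hu] at hs; push_cast at hs; linear_combination hs)
    have u3 : u ^ 3 = 1 := by linear_combination (u - 1) * u1
    have u0 : u ≠ 0 := by rintro rfl; simp at u1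
    obtain ⟨ι, i1, i2⟩ := exists_aut h3 hG u0 (by simp) (by linear_combination -B * (u ^ 3 + 1) * u3)
    have c3 : (ι - 1) * (ι * ι + ι + 1) = 0 := by
      rw [show (ι - 1) * (ι * ι + ι + 1) = ι * (ι * ι) - 1 by noncomm_ring, sub_eq_zero]
      refine EE_ext' fun P hP => ?_
      obtain ⟨a1, a2, a3⟩ := i2 P hP
      obtain ⟨b1, b2, b3⟩ := i2 _ a1
      obtain ⟨c1, c2, c3⟩ := i2 _ b1
      refine pt_ext c1 hP (c2.trans ?_) (c3.trans ?_)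
      · rw [b2, a2, div_div, div_div, show u ^ 2 * (u ^ 2 * u ^ 2) = (u ^ 3) ^ 2 by ring, u3]
        simp
      · rw [b3, a3, u3]; simp
    have c2 : ι * ι + ι + 1 = 0 := by
      by_contra h0
      refine cr.mul_ne (fun e => h3 ?_) h0 c3
      rw [sub_eq_zero.1 e, map_one] at i1
      rw [← i1] at u1
      linear_combination u1
    refine ⟨ι + ι + 1, ?_, ?_, fun p n _ _ hA hB H => ?_⟩
    · rw [eq_neg_iff_add_eq_zero, show (ι + ι + 1) * (ι + ι + 1) + ((3 : ℕ) : EE hG)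
        = 4 * (ι * ι + ι + 1) by rw [Nat.cast_succ, Nat.cast_succ, Nat.cast_one]; noncomm_ring, c2,
        mul_zero]
    · rw [map_add, map_add, map_one, i1, ← two_mul, hu]
      rintro rfl
      exact h3 (by simpa using hs)
    · have uq : u ^ p ^ n = u ^ 2 := by
        have := congrArg (iterateFrobenius k p n) hu
        rw [map_add, map_mul, map_ofNat, map_one, iterateFrobenius_def, iterateFrobenius_def,
          H s hs, ← hu] at this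
        exact mul_left_cancel₀ h2 (by linear_combination this - 2 * u1)
      have e : frE hG p n hA hB * ι = ι * ι * frE hG p n hA hB := EE_ext' fun P hP => by
        obtain ⟨a1, a2, a3⟩ := i2 P hP
        obtain ⟨b1, b2, b3⟩ := i2 (frP hG p n hA hB P) (Sc.map_ne _ hP)
        obtain ⟨c1, c2, c3⟩ := i2 _ b1
        rw [EE_mul, EE_mul, EE_mul, frE_apply, frE_apply]
        refine pt_ext (Sc.map_ne _ a1) c1 ?_ ?_
        · rw [c2, b2, xc_frP, xc_frP, a2, div_pow, pow_right_comm, uq, div_div, ← sq]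
        · rw [c3, b3, yc_frP, yc_frP, a3, u3]; simp
      rw [eq_neg_iff_add_eq_zero, mul_add, mul_add, e, show ∀ π : EE hG, (ι + ι + 1) * π
        + (ι * ι * π + ι * ι * π + π * 1) = 2 * (ι * ι + ι + 1) * π from fun π => by noncomm_ring,
        c2, mul_zero, zero_mul]

lemma cm_move {hG : Good A B} (hG₁ : Good A₁ B₁) {χ : EE hG} {l n : ℕ} (e : χ * χ = -(l : EE hG))
    (hc : cE hG χ ≠ 0) {f : Pt A B →+ Pt A₁ B₁} (hf : Is n f) (hn : (n : k) ≠ 0) :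
    ∃ ψ : EE hG₁, ψ * ψ = -((l * n ^ 2 : ℕ) : EE hG₁) ∧ cE hG₁ ψ ≠ 0 := by
  obtain ⟨g, g1, g2, g3⟩ := hf.dual h3 hn
  obtain ⟨m, m1, -⟩ := is_ofE h3 hG χ hc
  obtain ⟨ψ, p1, -, p3⟩ := ((g1.comp h3 m1).comp h3 hf).toE h3 hG₁
  refine ⟨ψ, EE_ext fun P => ?_, p3⟩
  rw [EE_mul, p1, p1, EE_neg, EE_nat]
  change f (χ.1 (g (f (χ.1 (g P))))) = _
  rw [g2, map_nsmul, ← EE_mul, e, EE_neg, EE_nat, map_nsmul, map_neg, map_nsmul, g3, smul_neg,
    ← mul_nsmul, ← mul_nsmul]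
  congr 2; ring

variable (p : ℕ) [Fact p.Prime] [CharP k p] (H : ∀ x : k, ∃ n, n ≠ 0 ∧ x ^ p ^ n = x)
  (hG : Good A B) (hG₁ : Good A₁ B₁) {l : ℕ} (h : l = 1 ∧ B = 0 ∨ l = 3 ∧ A = 0)
  (hs : IsSquare (-(l : ZMod p)))
include hG hG₁ h hs

omit H in
lemma exists_cm {i : ℕ} {f : Pt A B →+ Pt A₁ B₁} (hf : Is (2 ^ i) f) :
    ∃ χ : EE hG₁, cE hG₁ χ ≠ 0 ∧ pol NE χ 1 = 0 ∧ NE χ = l * 4 ^ i ∧
      ∃ Q : Pt A₁ B₁, Q ≠ 0 ∧ p • Q = 0 := by
  obtain ⟨χ₀, e1, e2, -⟩ := base_cm h3 hG h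
  have n2 : ((2 ^ i : ℕ) : k) ≠ 0 := by simpa using fun e => absurd e hG.two
  obtain ⟨χ, e3, e4⟩ := cm_move h3 hG₁ e1 e2 hf n2
  have l0 : (l : k) ≠ 0 := by rcases h with ⟨rfl, -⟩ | ⟨rfl, -⟩ <;> simp [h3]
  have lp : (0 : ℤ) < ((l * (2 ^ i) ^ 2 : ℕ) : ℤ) := by
    rcases h with ⟨rfl, -⟩ | ⟨rfl, -⟩ <;> positivity
  have cr := compRing h3 hG₁
  refine ⟨χ, e4, cr.tr_of_sq lp (by simpa using e3), ?_, tors_of_cm p hG₁ h3 e3 ?_ ?_⟩
  · rw [cr.norm_of_sq lp.le (by simpa using e3)]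
    push_cast
    rw [pow_right_comm]; norm_num
  · rw [Nat.cast_mul, Nat.cast_pow]; exact mul_ne_zero l0 (pow_ne_zero 2 n2)
  · rw [Nat.cast_mul, ← neg_mul, Nat.cast_pow]; exact hs.mul (IsSquare.sq _)

include H

/-- a curve occurs only at boundedly many levels -/
theorem level {i j : ℕ} {f g : Pt A B →+ Pt A₁ B₁} (hf : Is (2 ^ i) f) (hg : Is (2 ^ j) g)
    {T : Pt A B} (t1 : 2 • T = 0) (t2 : f T ≠ 0) : i < 3 * j + 3 := by
  by_contra hc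
  have n2 : ∀ i, ((2 ^ i : ℕ) : k) ≠ 0 := fun i => by simpa using fun e => absurd e hG.two
  obtain ⟨χ, c1, c2, c3, Q, q1, q2⟩ := exists_cm h3 p hG hG₁ h hs hg
  obtain ⟨g', g1, g2, -⟩ := hg.dual h3 (n2 j)
  obtain ⟨ψ, p1, p2, p3⟩ := (g1.comp h3 hf).toE h3 hG₁
  obtain ⟨s, s1, s2⟩ := (compRing h3 hG₁).comm_rel c2 (ord_comm p hG₁ h3 H q1 q2 ψ χ p3 c1)
  have hl : l = 1 ∨ l = 3 := h.imp And.left And.left
  rw [c3] at s1 s2
  obtain ⟨⟨a, ha⟩, b, hb⟩ := two_dvd hl (3 * j + 3) s (2 ^ (j + 1) * pol NE ψ 1) (3 * j + i + 4)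
    (mul_right_cancel₀ (b := (l * 4 ^ j : ℤ)) (by rcases hl with rfl | rfl <;> positivity) (by
      rw [p2, show (4 : ℤ) ^ j = 2 ^ j * 2 ^ j by rw [← mul_pow]; norm_num] at *
      push_cast at s2
      linear_combination s2)) (by omega)
  obtain ⟨R, hR⟩ := Tm.nsmul_surj ⟨hG, h3, n2 (3 * j + 2)⟩ T
  have r0 : ((2 : ℤ) ^ (3 * j + 3)) • R = 0 := by
    rw [← natCast_zsmul] at hR t1
    rw [← hR, ← mul_zsmul] at t1
    simpa [pow_succ'] using t1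
  have z : ∀ (c : ℤ) (u : Pt A B →+ Pt A₁ B₁), (2 ^ (3 * j + 3) * c) • u R = 0 := fun c u => by
    rw [mul_comm, mul_zsmul, ← map_zsmul, r0, map_zero, zsmul_zero]
  have e := congrArg (fun φ : EE hG₁ => φ.1 (g R)) s1
  simp only [EE_mul, EE_sub, EE_int, p1, AddMonoidHom.comp_apply, g2] at e
  rw [ha, show χ.1 (g R) = (AddMonoidHom.comp χ.1 g) R from rfl, z, zsmul_sub, ← mul_zsmul,
    ← mul_zsmul, show 2 * (l * 4 ^ j) * pol NE ψ 1 = 2 ^ (3 * j + 3) * (b * l * 2 ^ j) by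
      rw [show (4 : ℤ) ^ j = 2 ^ j * 2 ^ j by rw [← mul_pow]; norm_num]
      linear_combination l * 2 ^ j * hb, z, sub_zero, map_nsmul, ← natCast_zsmul, ← mul_zsmul,
    show (2 * (l * 4 ^ j) * 2 * ((2 ^ j : ℕ) : ℤ) : ℤ) = l * ((2 ^ (3 * j + 2) : ℕ) : ℤ) by
      rw [show (4 : ℤ) ^ j = 2 ^ j * 2 ^ j by rw [← mul_pow]; norm_num]; push_cast; ring,
    mul_zsmul, natCast_zsmul, natCast_zsmul, ← map_nsmul f (2 ^ _), hR, ← map_nsmul] at e
  rcases hl with rfl | rfl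
  · exact t2 (by simpa using e)
  · exact t2 (by rwa [succ_nsmul, t1, zero_add] at e)

/-- the field generated by Frobenius -/
theorem frob_field {i : ℕ} {f : Pt A B →+ Pt A₁ B₁} (hf : Is (2 ^ i) f) {r : ℕ} (r0 : r ≠ 0)
    (hA : A₁ ^ p ^ r = A₁) (hB : B₁ ^ p ^ r = B₁) : ∃ t : ℤ, t ≠ 0 ∧
      pol NE (frE hG₁ p r hA hB) 1 ^ 2 - 4 * p ^ r = -l * t ^ 2 := by
  obtain ⟨χ, c1, c2, c3, Q, q1, q2⟩ := exists_cm h3 p hG hG₁ h hs hf
  have cr := compRing h3 hG₁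
  obtain ⟨s, -, s2⟩ := cr.comm_rel c2 (ord_frob p hG₁ h3 H q1 q2 χ c1 r0 hA hB)
  have d := cr.pos (frob_pure p hG₁ h3 q1 q2 r0 hA hB)
  have hl : l = 1 ∨ l = 3 := h.imp And.left And.left
  rw [cr.pure_norm, NE_frE] at d
  rw [c3, NE_frE] at s2
  generalize pol NE (frE hG₁ p r hA hB) 1 = a at *
  have s3 : s ^ 2 = (2 ^ (i + 1)) ^ 2 * (l * (4 * p ^ r - a ^ 2)) :=
    mul_right_cancel₀ (b := (l * 4 ^ i : ℤ)) (by rcases hl with rfl | rfl <;> positivity) (by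
      rw [show (4 : ℤ) ^ i = 2 ^ i * 2 ^ i by rw [← mul_pow]; norm_num] at *
      linear_combination s2)
  obtain ⟨s, rfl⟩ := (Int.pow_dvd_pow_iff two_ne_zero).1 (Dvd.intro _ s3.symm)
  rw [mul_pow, mul_right_inj' (by positivity)] at s3
  rcases hl with rfl | rfl
  · exact ⟨s, by rintro rfl; push_cast at s3; linarith, by push_cast at s3 ⊢; linarith⟩
  · obtain ⟨t, rfl⟩ := Int.prime_three.dvd_of_dvd_pow (Dvd.intro _ s3.symm)
    exact ⟨t, by rintro rfl; push_cast at s3; linarith, by push_cast at s3 ⊢; linarith⟩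

end Pool.Agent.MP_c481b3_nt.H28
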