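import Pool.Agent.MP_c481b3_nt.H28.Wk
import Pool.Agent.MP_c481b3_nt.H28.LocC
import Pool.Agent.MP_c481b3_nt.H28.ParA

set_option autoImplicit false

namespace Pool.Agent.MP_c481b3_nt.H28

open Pool.Agent.MP_c481b3_nt.H81 Polynomial NumberField

section fs
variable {k : Type} [Field k] [DecidableEq k] (q : ℕ) [Fact q.Prime] [CharP k q]
  {A B e₁ e₂ e₃ : k} {z : k × k × k}

/-- the square of Frobenius is a scalar -/
def FS (A B : k) : Prop := ∃ (hG : Good A B) (hA : A ^ q ^ 2 = A) (hB : B ^ q ^ 2 = B),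
  ∀ P, frP hG q 2 hA hB P = -(q • P)

variable {q}

lemma FS.tors (h : FS q A B) {P : Pt A B} (hP : q • P = 0) : P = 0 := by
  obtain ⟨hG, hA, hB, e⟩ := h
  exact (Sc.map_eq_zero _).1 ((e P).trans (by rw [hP, neg_zero]))

lemma FS.root (h : FS q A B) (r : Rt A B e₁ e₂ e₃) : e₁ ^ q ^ 2 = e₁ := by
  obtain ⟨hG, hA, hB, e⟩ := h
  obtain ⟨-, a2, a3⟩ := r.two hG
  obtain ⟨m, hm⟩ := odd_char hG q 1
  have := congrArg xc (e (pt A B e₁ 0))
  rwa [xc_frP, xc_neg, ← pow_one q, hm, add_nsmul, mul_nsmul, a3, nsmul_zero, zero_add, one_nsmul,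
    a2, ← hm, pow_one] at this

variable [IsAlgClosed k] (h3 : (3 : k) ≠ 0)
include h3

lemma FS.step (h : FS q A B) (r : Rt A B e₁ e₂ e₃) (w : Wr (e₁, e₂, e₃) z) :
    FS q (sA z) (sB z) := by
  have h1 : iterateFrobenius k q 2 e₁ = e₁ := h.root r
  obtain ⟨hG, hA, hB, e⟩ := h
  obtain ⟨d, -⟩ := wr_vd r hG w
  obtain ⟨-, b1, b2⟩ := wr_val r w
  obtain ⟨-, -, a3⟩ := r.two hG
  have hA' : iterateFrobenius k q 2 A = A := hA
  have hB' : iterateFrobenius k q 2 B = B := hB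
  have a : iterateFrobenius k q 2 (sA z) = sA z := by simp [b1, h1, hA', map_ofNat]
  have b : iterateFrobenius k q 2 (sB z) = sB z := by simp [b2, h1, hA', hB', map_ofNat]
  refine ⟨d.good', a, b, fun P => ?_⟩
  obtain ⟨P, rfl⟩ := d.surj h3 P
  rw [← map_nsmul, ← map_neg, ← e]
  refine frob_vm q d hA hB a b (one_pow _) (fun Q hQ => ?_) P
  obtain ⟨m, hm⟩ := odd_char hG q 1
  have : 2 • Q = 0 := by
    rcases Finset.mem_insert.1 hQ with rfl | hQ
    · simp
    · rw [Finset.mem_singleton.1 hQ, a3]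
  rw [e, ← pow_one q, hm, add_nsmul, mul_nsmul, this, nsmul_zero, zero_add, one_nsmul,
    neg_eq_iff_add_eq_zero, ← two_nsmul, this]

lemma fs_base (hG : Good A B) {l : ℕ} (h : l = 1 ∧ B = 0 ∨ l = 3 ∧ A = 0)
    (non : ¬IsSquare (-(l : ZMod q))) (hA : A ^ q ^ 1 = A) (hB : B ^ q ^ 1 = B) : FS q A B := by
  classical
  obtain ⟨χ, -, c, a⟩ := base_cm h3 hG h
  have e := (compRing h3 hG).sq_anti (x := frE hG q 1 hA hB) (y := χ)
    (fun e => c (by rw [e, map_zero])) (neg_eq_iff_eq_neg.1 (a q 1 hA hB fun s hs => by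
      have h1 : (s ^ q ^ 1) ^ 2 = s ^ 2 := by
        rw [pow_right_comm, hs, ← iterateFrobenius_def, map_neg, map_natCast]
      refine (sq_eq_sq_iff_eq_or_eq_neg.1 h1).resolve_left (pow_ne_self q hG.two (a := -l)
        (ZMod.nonsquare_iff_jacobiSym_eq_neg_one.2 (by simpa using non)) (by simpa using hs)
        odd_one)).symm)
  refine ⟨hG, fix_mul q 1 hA 2, fix_mul q 1 hB 2, fun P => ?_⟩
  rw [← sq, (frE_pow hG q 1 hA hB 2).1, NE_frE, pow_one] at e
  exact (congrArg (fun φ : EE hG => φ.1 P) e).trans (by simp only [EE_neg, EE_int, natCast_zsmul])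

end fs

section red
variable {L κ : Type} [Field L] [Field κ] {π : Plc L κ} {x y : L × L × L} {x' : κ × κ × κ}

/-- the invariant -/
def jj (A B : L) : L := 6912 * A ^ 3 / (4 * A ^ 3 + 27 * B ^ 2)

/-- the invariant of a state -/
def JJ (x : L × L × L) : L := jj (sA x) (sB x)

/-- reduction of states -/
def Ev3 (π : Plc L κ) (x : L × L × L) (x' : κ × κ × κ) : Prop :=
  Ev π x.1 x'.1 ∧ Ev π x.2.1 x'.2.1 ∧ Ev π x.2.2 x'.2.2

lemma sA_sw (x : L × L × L) : sA (sw x) = sA x := by simp only [sA, sw]; ring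
lemma sB_sw (x : L × L × L) : sB (sw x) = sB x := by simp only [sB, sw]; ring
lemma sA_rt (x : L × L × L) : sA (rt x) = sA x := by simp only [sA, rt]; ring
lemma sB_rt (x : L × L × L) : sB (rt x) = sB x := by simp only [sB, rt]; ring
lemma JJ_sw (x : L × L × L) : JJ (sw x) = JJ x := by rw [JJ, sA_sw, sB_sw, JJ]

lemma jj_eq {A B A' B' : L} (h3 : (3 : L) ≠ 0) (h : Good A B) (h' : Good A' B')
    (e : jj A B = jj A' B') : A ^ 3 * B' ^ 2 = A' ^ 3 * B ^ 2 := by
  rw [jj, jj, div_eq_div_iff h.disc h'.disc] at e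
  exact mul_left_cancel₀ (mul_ne_zero (pow_ne_zero 8 h.two) (pow_ne_zero 6 h3))
    (by linear_combination e)

lemma ev_jj {A B : L} {A' B' : κ} (a : Ev π A A') (b : Ev π B B') (h : Good A' B') :
    Ev π (jj A B) (jj A' B') :=
  ((Ev.ofNat π 6912).mul (a.pow 3)).div
    (((Ev.ofNat π 4).mul (a.pow 3)).add ((Ev.ofNat π 27).mul (b.pow 2))) h.disc

lemma Ev3.sA (h : Ev3 π x x') : Ev π (sA x) (sA x') :=
  ((h.1.mul h.2.1).add (h.1.mul h.2.2)).add (h.2.1.mul h.2.2)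

lemma Ev3.sB (h : Ev3 π x x') : Ev π (sB x) (sB x') := ((h.1.mul h.2.1).mul h.2.2).neg

lemma Ev3.sw (h : Ev3 π x x') : Ev3 π (sw x) (sw x') := ⟨h.1, h.2.2, h.2.1⟩

lemma Ev3.rt (h : Ev3 π x x') : Ev3 π (rt x) (rt x') := ⟨h.2.1, h.1, h.2.2⟩

lemma mem_of_sq {O : ValuationSubring L} {r : L} (h : r ^ 2 ∈ O) : r ∈ O := by
  rw [← O.valuation_le_one_iff] at h ⊢
  rwa [map_pow, pow_le_one_iff two_ne_zero] at h

lemma Ev3.wr (h : Ev3 π x x') (w : Wr x y) : ∃ y', Ev3 π y y' ∧ Wr x' y' := by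
  obtain ⟨r, hr, rfl⟩ := w
  have a := (h.1.sub h.2.1).mul (h.1.sub h.2.2)
  have b := Ev.of_mem (π := π) (mem_of_sq (hr ▸ a.mem))
  have t := Ev.ofNat π 2
  exact ⟨_, ⟨t.neg.mul h.1, h.1.add (t.mul b), h.1.sub (t.mul b)⟩, _, (b.pow 2).unique (hr ▸ a),
    rfl⟩

lemma Ev3.rch (h : Ev3 π x x') {n : ℕ} (w : Rch x n y) : ∃ y', Ev3 π y y' ∧ Rch x' n y' := by
  induction n generalizing y with
  | zero => exact ⟨x', w ▸ h, rfl⟩
  | succ n ih =>
    obtain ⟨z, h1, h2⟩ := w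
    obtain ⟨z', a1, a2⟩ := ih h1
    rcases h2 with h2 | h2
    · obtain ⟨y', b1, b2⟩ := a1.rt.wr h2
      exact ⟨y', b1, z', a2, Or.inl b2⟩
    · obtain ⟨y', b1, b2⟩ := a1.sw.rt.wr h2
      exact ⟨y', b1, z', a2, Or.inr b2⟩

/-- the first state -/
def bs (l : ℕ) (s : L) : L × L × L := if l = 1 then (0, 1, -1) else (1, (-1 + s) / 2, (-1 - s) / 2)

lemma ev_bs (l : ℕ) {s : L} {s' : κ} (h : Ev π s s') (h2 : (2 : κ) ≠ 0) :
    Ev3 π (bs l s) (bs l s') := by
  have o := Ev.one π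
  unfold bs
  split_ifs
  · exact ⟨Ev.zero π, o, o.neg⟩
  · exact ⟨o, (o.neg.add h).div (Ev.ofNat π 2) h2, (o.neg.sub h).div (Ev.ofNat π 2) h2⟩

lemma bs_spec {l : ℕ} (hl : l = 1 ∨ l = 3) {s : L} (hs : s ^ 2 = -l) (h2 : (2 : L) ≠ 0)
    (h3 : (3 : L) ≠ 0) : St (bs l s) ∧ (l = 1 ∧ sA (bs l s) = -1 ∧ sB (bs l s) = 0 ∨
      l = 3 ∧ sA (bs l s) = 0 ∧ sB (bs l s) = -1) := by
  rcases hl with rfl | rfl
  · have a : sA (bs 1 s) = -1 := by simp [bs, sA]
    have b : sB (bs 1 s) = 0 := by simp [bs, sB]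
    refine ⟨⟨by simp [bs], h2, ?_⟩, Or.inl ⟨rfl, a, b⟩⟩
    rw [a, b, show (4 * (-1) ^ 3 + 27 * 0 ^ 2 : L) = -2 ^ 2 by norm_num]
    exact neg_ne_zero.2 (pow_ne_zero _ h2)
  · push_cast at hs
    have a : sA (bs 3 s) = 0 := by
      simp only [bs, sA, OfNat.ofNat_ne_one, if_false]; field_simp; linear_combination -hs
    have b : sB (bs 3 s) = -1 := by
      simp only [bs, sB, OfNat.ofNat_ne_one, if_false]; field_simp; linear_combination hs
    refine ⟨⟨by simp only [bs, OfNat.ofNat_ne_one, if_false]; field_simp; ring, h2, ?_⟩,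
      Or.inr ⟨rfl, a, b⟩⟩
    rw [a, b, show (4 * 0 ^ 3 + 27 * (-1) ^ 2 : L) = 3 ^ 3 by norm_num]
    exact pow_ne_zero _ h3

lemma res_alg [CharZero L] [Algebra.IsAlgebraic ℚ L] (O : ValuationSubring L) (p : ℕ)
    [Fact p.Prime] [CharP (IsLocalRing.ResidueField O) p] (x : IsLocalRing.ResidueField O) :
    ∃ n, n ≠ 0 ∧ x ^ p ^ n = x := by
  classical
  obtain ⟨a, rfl⟩ := IsLocalRing.residue_surjective x
  have ev : Ev (resPlc O) (a : L) (IsLocalRing.residue O a) := ⟨a.2, (resPlc O).ev_coe a⟩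
  generalize IsLocalRing.residue O a = x at ev
  obtain ⟨g, g0, hg⟩ := (IsFractionRing.isAlgebraic_iff ℤ ℚ L).2
    (Algebra.IsAlgebraic.isAlgebraic (a : L))
  have h1 : az x g.primPart = 0 :=
    (ev_az _ ev).unique ((Ev.zero _).congr (aeval_primPart_eq_zero g0 hg).symm rfl)
  have h2 : g.primPart.map (Int.castRingHom (IsLocalRing.ResidueField O)) ≠ 0 := fun e => by
    have := g.isPrimitive_primPart (p : ℤ) ((C_dvd_iff_dvd_coeff _ _).2 fun i => by
      rw [← CharP.intCast_eq_zero_iff (IsLocalRing.ResidueField O) p]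
      simpa using congrArg (coeff · i) e)
    exact (Nat.prime_iff_prime_int.1 Fact.out).not_isUnit this
  obtain ⟨i, j, ij, e⟩ := Set.Finite.exists_lt_map_eq_of_forall_mem (f := fun i : ℕ => x ^ p ^ i)
    (t := ((g.primPart.map (Int.castRingHom (IsLocalRing.ResidueField O))).roots.toFinset :
      Finset (IsLocalRing.ResidueField O))) (fun i => by
      rw [Finset.mem_coe, Multiset.mem_toFinset, mem_roots h2, IsRoot, az_map,
        ← iterateFrobenius_def, ← show (iterateFrobenius _ p i).comp (az x) X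
          = iterateFrobenius _ p i x by simp [az], az_hom, RingHom.comp_apply, h1, map_zero])
    (Finset.finite_toSet _)
  obtain ⟨n, rfl⟩ := Nat.exists_eq_add_of_lt ij
  refine ⟨n + 1, n.succ_ne_zero, (iterateFrobenius _ p i).injective ?_⟩
  rw [iterateFrobenius_def, iterateFrobenius_def, ← pow_mul, ← pow_add, e]
  congr 2; ring

end red

section uu
variable {k : Type} [Field k] [IsAlgClosed k] {M N : Type} [CommMonoid M] [CommMonoid N]
  {x : k × k × k}

lemma UU_mem (S : Submonoid M) (n : ℕ) : ∀ f : k × k × k → M, (∀ y, Rch x n y → f y ∈ S) →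
    UU^[n] f x ∈ S := by
  induction n with
  | zero => exact fun f h => h x rfl
  | succ n ih =>
    exact fun f h => ih (UU f) fun y hy =>
      S.mul_mem (h _ ⟨y, hy, Or.inl (wr_wq _)⟩) (h _ ⟨y, hy, Or.inr (wr_wq _)⟩)

lemma UU_map (φ : M →* N) (n : ℕ) : ∀ f : k × k × k → M,
    φ (UU^[n] f x) = UU^[n] (fun y => φ (f y)) x := by
  induction n with
  | zero => exact fun _ => rfl
  | succ n ih =>
    exact fun f => (ih (UU f)).trans
      (congrArg (fun g => UU^[n] g x) (funext fun y => φ.map_mul _ _))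

lemma UU_mul (n : ℕ) : ∀ f g : k × k × k → M,
    UU^[n] (fun y => f y * g y) x = UU^[n] f x * UU^[n] g x := by
  induction n with
  | zero => exact fun _ _ => rfl
  | succ n ih =>
    exact fun f g => Eq.trans (congrArg (fun g => UU^[n] g x)
      (funext fun y => mul_mul_mul_comm _ _ _ _)) (ih (UU f) (UU g))

lemma UU_const (n : ℕ) : ∀ c : M, UU^[n] (fun _ => c) x = c ^ 2 ^ n := by
  induction n with
  | zero => simp
  | succ n ih => exact fun c => (ih (c * c)).trans (by rw [← sq, ← pow_mul, pow_succ'])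

lemma UU_prod {ι : Type} (s : Finset ι) (n : ℕ) (f : ι → k × k × k → M) :
    UU^[n] (fun y => ∏ i ∈ s, f i y) x = ∏ i ∈ s, UU^[n] (f i) x := by
  classical
  induction s using Finset.induction_on with
  | empty => simp [UU_const]
  | insert a s ha ih => simp only [Finset.prod_insert ha, UU_mul, ih]

lemma UU_div (n : ℕ) (f g : k × k × k → k) :
    UU^[n] (fun y => f y / g y) x = UU^[n] f x / UU^[n] g x := by
  simp only [div_eq_mul_inv, UU_mul]
  exact congrArg _ (UU_map invMonoidHom n g).symm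

lemma UU_pow (n m : ℕ) (f : k × k × k → M) : UU^[n] (fun y => f y ^ m) x = UU^[n] f x ^ m :=
  (UU_map (powMonoidHom m) n f).symm

lemma UU_sw (f : k × k × k → M) (x : k × k × k) : UU f (sw x) = UU f x := mul_comm _ _

omit [IsAlgClosed k] in
lemma wr_uniq {y z : k × k × k} (a : Wr x y) (b : Wr x z) : z = y ∨ z = sw y := by
  obtain ⟨r, hr, rfl⟩ := a
  obtain ⟨r', hr', rfl⟩ := b
  rcases sq_eq_sq_iff_eq_or_eq_neg.1 (hr'.trans hr.symm) with rfl | rfl
  · exact Or.inl rfl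
  · exact Or.inr (by simp [sw, sub_eq_add_neg])

lemma UU_gal (θ : k →+* k) (φ : M →* M) (n : ℕ) {f : k × k × k → M} (h1 : ∀ y, f (sw y) = f y)
    (h2 : ∀ y, f (θ y.1, θ y.2.1, θ y.2.2) = φ (f y)) : (∀ y, UU^[n] f (sw y) = UU^[n] f y) ∧
      ∀ y, UU^[n] f (θ y.1, θ y.2.1, θ y.2.2) = φ (UU^[n] f y) := by
  induction n with
  | zero => exact ⟨h1, h2⟩
  | succ n ih =>
    rw [Function.iterate_succ_apply']
    generalize UU^[n] f = g at ih
    have key : ∀ y, g (wq (θ y.1, θ y.2.1, θ y.2.2)) = φ (g (wq y)) := fun y => by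
      obtain ⟨r, hr, e⟩ := wr_wq y
      have w : Wr (θ y.1, θ y.2.1, θ y.2.2) (θ (wq y).1, θ (wq y).2.1, θ (wq y).2.2) :=
        ⟨θ r, by simpa using congrArg θ hr, by simp [e, map_ofNat]⟩
      rcases wr_uniq w (wr_wq _) with e | e <;> rw [e]
      · exact ih.2 _
      · rw [ih.1, ih.2]
    exact ⟨UU_sw g, fun y => by rw [UU, UU, map_mul, ← key, ← key]; rfl⟩

lemma exists_rat [CharZero k] [Algebra.IsAlgebraic ℚ k] {l : ℕ} {s : k} (hs : s ^ 2 = -l) (n : ℕ) :
    ∃ g : ℚ[X], ∀ t : k, aeval t g = UU^[n] (fun y => t - JJ y) (bs l s) := by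
  have : IsAlgClosure ℚ k := ⟨inferInstance, inferInstance⟩
  obtain ⟨g, hg⟩ := (mem_lifts (f := algebraMap ℚ k) (UU^[n] (fun y => X - C (JJ y)) (bs l s))).1
    ((lifts_iff_coeff_lifts _).2 fun i => (InfiniteGalois.mem_range_algebraMap_iff_fixed _).2
      fun θ => by
        obtain ⟨a, b⟩ := UU_gal (θ : k →+* k) (mapRingHom (θ : k →+* k)).toMonoidHom n
          (f := fun y => X - C (JJ y)) (fun y => by rw [JJ_sw])
          (fun y => by simp [JJ, jj, sA, sB, map_ofNat])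
        have c := b (bs l s)
        have d : UU^[n] (fun y => X - C (JJ y)) ((θ : k →+* k) (bs l s).1, (θ : k →+* k) (bs l s).2.1,
            (θ : k →+* k) (bs l s).2.2) = UU^[n] (fun y => X - C (JJ y)) (bs l s) := by
          by_cases h : l = 1
          · simp [bs, h]
          rcases sq_eq_sq_iff_eq_or_eq_neg.1 (show θ s ^ 2 = s ^ 2 by
            rw [← map_pow, hs, map_neg, map_natCast]) with e | e
          · simp [bs, h, e, map_ofNat]
          · rw [← a (bs l s)]; simp [bs, h, e, map_ofNat, sw, sub_eq_add_neg]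
        simpa using (congrArg (coeff · i) (d.symm.trans c)).symm)
  refine ⟨g, fun t => ?_⟩
  rw [← eval_map_algebraMap, hg]
  exact (UU_map (x := bs l s) (evalRingHom t).toMonoidHom n (fun y => X - C (JJ y))).trans
    (congrArg (fun g => UU^[n] g (bs l s)) (funext fun y => by simp))

end uu

lemma loc_hom {K : Type} [Field K] [NumberField K] {k : Type} [Field k] [DecidableEq k]
    [IsAlgClosed k] [DecidableEq (RatFunc k)] [DecidableEq (LL k)] (q : ℕ) [Fact q.Prime]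
    [CharP k q] (h3 : (3 : k) ≠ 0) (φ : 𝓞 K →+* k) {P : Ideal (𝓞 K)} (hP : P.IsMaximal)
    (ker : ∀ r, φ r = 0 ↔ r ∈ P) {A B : 𝓞 K} (hΔ : (Wc A B).Δ ∉ P) :
    ∃ (n : ℕ) (hG : Good (φ A) (φ B)) (hA : φ A ^ q ^ n = φ A) (hB : φ B ^ q ^ n = φ B), n ≠ 0 ∧
      Ideal.absNorm P = q ^ n ∧ pol NE (frE hG q n hA hB) 1 = aP A B P := by
  classical
  have : Finite (𝓞 K ⧸ P) := P.finiteQuotientOfFreeOfNeBot (Ring.ne_bot_of_isMaximal_of_not_isField
    hP (RingOfIntegers.not_isField K))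
  let := Ideal.Quotient.field P
  let := Fintype.ofFinite (𝓞 K ⧸ P)
  set j : 𝓞 K ⧸ P →+* k := Ideal.Quotient.lift P φ fun r => (ker r).2
  have ej : ∀ r, j (Ideal.Quotient.mk P r) = φ r := fun r => rfl
  have eW : (Wc A B).map (Ideal.Quotient.mk P)
      = Wc (Ideal.Quotient.mk P A) (Ideal.Quotient.mk P B) := by
    ext <;> simp [Wc]
  have g0 : Good (Ideal.Quotient.mk P A) (Ideal.Quotient.mk P B) := good_of_ne (by
    rw [← eW, WeierstrassCurve.map_Δ, Ne, Ideal.Quotient.eq_zero_iff_mem]; exact hΔ)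
  have g1 : Good (φ A) (φ B) := g0.map j
  obtain ⟨p, hp, n, pp, hq⟩ := FiniteField.card' (𝓞 K ⧸ P)
  obtain rfl : q = p := CharP.eq k inferInstance (charP_of_injective_ringHom j.injective p)
  have cf := card_fixed j (ej A) (ej B) g1
  have fix : ∀ r, φ r ^ q ^ (n : ℕ) = φ r := fun r => by
    rw [← ej, ← map_pow, ← hq, FiniteField.pow_card]
  have nm : Ideal.absNorm P = q ^ (n : ℕ) := by
    rw [Ideal.absNorm_apply, Submodule.cardQuot_apply, Nat.card_eq_fintype_card, hq]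
  rw [hq] at cf
  exact ⟨n, g1, fix A, fix B, n.ne_zero, nm, by
    rw [tr_frE g1 q n _ _ n.ne_zero h3, cf, aP, nm, eW, Nat.cast_pow]⟩

end Pool.Agent.MP_c481b3_nt.H28
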